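import Pool.Agent.Lib.MP_84984d_gt.Tri.Stmts

set_option autoImplicit false

/-!
The circle of period three: the map `ew`, its smooth local left inverses, and the closed cells
`ws` (helper63).
-/

namespace Pool.Agent.Lib.MP_84984d_gt

open Set

namespace Tri

namespace W63

open scoped ContDiff

theorem ew_add (s t : ℝ) : ew (s + t) = ew s * ew t := by
  unfold ew
  rw [← Complex.exp_add]
  congr 1
  push_cast
  ring

theorem ew_zero : ew 0 = 1 := by simp [ew]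

theorem ew_norm (t : ℝ) : ‖ew t‖ = 1 := by
  unfold ew
  exact Complex.norm_exp_ofReal_mul_I _

theorem ew_ne_zero (t : ℝ) : ew t ≠ 0 := by
  unfold ew
  exact Complex.exp_ne_zero _

theorem ew_mul_neg (t : ℝ) : ew t * ew (-t) = 1 := by
  rw [← ew_add, add_neg_cancel, ew_zero]

theorem ew_eq_iff (s t : ℝ) : ew s = ew t ↔ ∃ n : ℤ, s = t + 3 * n := by
  unfold ew
  rw [Complex.exp_eq_exp_iff_exists_int]
  have hpi : (Real.pi : ℝ) ≠ 0 := Real.pi_ne_zero
  constructor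
  · rintro ⟨n, hn⟩
    refine ⟨n, ?_⟩
    have h1 : ((2 * Real.pi * s / 3 : ℝ) : ℂ) * Complex.I
        = ((2 * Real.pi * t / 3 + n * (2 * Real.pi) : ℝ) : ℂ) * Complex.I := by
      rw [hn]
      push_cast
      ring
    have h2 := mul_right_cancel₀ Complex.I_ne_zero h1
    have h3 : 2 * Real.pi * s / 3 = 2 * Real.pi * t / 3 + n * (2 * Real.pi) := by
      exact_mod_cast h2
    have h4 : (2 * Real.pi / 3) * s = (2 * Real.pi / 3) * (t + 3 * n) := by linarith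
    exact mul_left_cancel₀ (by positivity) h4
  · rintro ⟨n, rfl⟩
    refine ⟨n, ?_⟩
    push_cast
    ring

/-- Every point of the circle has a parameter in `[0, 3)`. -/
theorem exists_param {w : ℂ} (hw : ‖w‖ = 1) : ∃ t : ℝ, 0 ≤ t ∧ t < 3 ∧ w = ew t := by
  have h0 : w = Complex.exp ((w.arg : ℝ) * Complex.I) := by
    have := Complex.norm_mul_exp_arg_mul_I w
    rw [hw] at this
    simpa using this.symm
  set s : ℝ := 3 * w.arg / (2 * Real.pi) with hs
  have h1 : w = ew s := by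
    unfold ew
    rw [show 2 * Real.pi * s / 3 = w.arg by rw [hs]; field_simp]
    exact h0
  refine ⟨3 * Int.fract (s / 3), by positivity, ?_, ?_⟩
  · have := Int.fract_lt_one (s / 3)
    linarith
  · rw [h1, ew_eq_iff]
    refine ⟨⌊s / 3⌋, ?_⟩
    have := Int.self_sub_floor (s / 3)
    rw [← this]
    ring

theorem ew_inj {s t : ℝ} (h : ew s = ew t) (h1 : |s - t| < 3) : s = t := by
  obtain ⟨n, hn⟩ := (ew_eq_iff s t).1 h
  have h2 : |(3 * n : ℝ)| < 3 := by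
    rw [hn] at h1
    simpa using h1
  have h3 : |(n : ℝ)| < 1 := by
    rw [abs_mul] at h2
    norm_num at h2
    linarith
  have h4 : n = 0 := by
    have h5 := abs_lt.1 h3
    have h6 : (-1 : ℤ) < n := by exact_mod_cast h5.1
    have h7 : n < (1 : ℤ) := by exact_mod_cast h5.2
    omega
  rw [hn, h4]
  simp

theorem contDiff_ew : ContDiff ℝ ∞ ew := by
  unfold ew
  have h1 : ContDiff ℝ ∞ (fun τ : ℝ => ((2 * Real.pi * τ / 3 : ℝ) : ℂ)) :=
    Complex.ofRealCLM.contDiff.comp ((contDiff_const.mul contDiff_id).div_const 3)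
  exact (h1.mul contDiff_const).cexp

/-- The domain of the left inverse with centre `a + 1/2`. -/
def Vw (a : ℝ) : Set ℂ := {w | w * ew (-(a + 1 / 2)) ∈ Complex.slitPlane}

/-- The smooth left inverse of `t ↦ ew (a + t)` on `(-1/2, 3/2)`. -/
noncomputable def gw (a : ℝ) (w : ℂ) : ℝ :=
  3 / (2 * Real.pi) * (Complex.log (w * ew (-(a + 1 / 2)))).im + 1 / 2

theorem isOpen_Vw (a : ℝ) : IsOpen (Vw a) := by
  unfold Vw
  exact Complex.isOpen_slitPlane.preimage (by fun_prop)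

theorem contDiffOn_gw (a : ℝ) : ContDiffOn ℝ ∞ (gw a) (Vw a) := by
  intro w hw
  have h1 : ContDiffAt ℝ ∞ Complex.log (w * ew (-(a + 1 / 2))) :=
    (Complex.contDiffAt_log hw).restrict_scalars ℝ
  have h2 : ContDiffAt ℝ ∞ (fun w : ℂ => w * ew (-(a + 1 / 2))) w := by fun_prop
  have h3 : ContDiffAt ℝ ∞ (fun w : ℂ => Complex.log (w * ew (-(a + 1 / 2)))) w :=
    ContDiffAt.comp (g := Complex.log) w h1 h2
  have h4 : ContDiffAt ℝ ∞ (fun w : ℂ => (Complex.log (w * ew (-(a + 1 / 2)))).im) w :=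
    Complex.imCLM.contDiff.contDiffAt.comp w h3
  exact ((contDiffAt_const.mul h4).add contDiffAt_const).contDiffWithinAt

theorem gw_key (a t : ℝ) : ew (a + t) * ew (-(a + 1 / 2))
    = Complex.exp (((2 * Real.pi * (t - 1 / 2) / 3 : ℝ) : ℂ) * Complex.I) := by
  rw [← ew_add, show a + t + -(a + 1 / 2) = t - 1 / 2 by ring]
  rfl

theorem angle_bd {t : ℝ} (h1 : -(1 / 2) < t) (h2 : t < 3 / 2) :
    -Real.pi < 2 * Real.pi * (t - 1 / 2) / 3 ∧ 2 * Real.pi * (t - 1 / 2) / 3 < Real.pi := by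
  have := Real.pi_pos
  constructor <;> nlinarith

theorem mem_Vw (a : ℝ) {t : ℝ} (h1 : -(1 / 2) < t) (h2 : t < 3 / 2) : ew (a + t) ∈ Vw a := by
  obtain ⟨h3, h4⟩ := angle_bd h1 h2
  show ew (a + t) * ew (-(a + 1 / 2)) ∈ Complex.slitPlane
  rw [gw_key, Complex.mem_slitPlane_iff_arg]
  refine ⟨?_, Complex.exp_ne_zero _⟩
  rw [Complex.arg_exp_mul_I]
  intro h
  rw [toIocMod_eq_self (by positivity) |>.2 ⟨by linarith, by linarith⟩] at h
  linarith

theorem gw_ew (a : ℝ) {t : ℝ} (h1 : -(1 / 2) < t) (h2 : t < 3 / 2) : gw a (ew (a + t)) = t := by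
  obtain ⟨h3, h4⟩ := angle_bd h1 h2
  unfold gw
  rw [gw_key, Complex.log_exp (by simpa using h3) (by simpa using h4.le)]
  have hpi := Real.pi_ne_zero
  simp

/-- MODULE BW: smooth left inverses of the parametrisation of the circle. -/
theorem left_inverse (a : ℝ) : ∃ (V : Set ℂ) (g : ℂ → ℝ), IsOpen V ∧ ContDiffOn ℝ ∞ g V ∧
    ∀ t : ℝ, -(1 / 2) < t → t < 3 / 2 → ew (a + t) ∈ V ∧ g (ew (a + t)) = t :=
  ⟨Vw a, gw a, isOpen_Vw a, contDiffOn_gw a, fun _ h1 h2 => ⟨mem_Vw a h1 h2, gw_ew a h1 h2⟩⟩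

theorem ws_lt {m : ℕ} (hm : m < 3) : ws m = (fun t : ℝ => ew (m + t)) '' Icc 0 1 := by
  simp [ws, hm]

theorem ws_ge {m : ℕ} (hm : 3 ≤ m) : ws m = {ew ((m - 3 : ℕ) : ℝ)} := by
  have : ¬ m < 3 := by omega
  simp [ws, this]

/-- The parameter of a point of the arc `m` is unique. -/
theorem exists_unique_of_mem_ws {m : ℕ} (hm : m < 3) {w : ℂ} (hw : w ∈ ws m) :
    ∃! t : ℝ, t ∈ Icc (0 : ℝ) 1 ∧ ew (m + t) = w := by
  rw [ws_lt hm] at hw
  obtain ⟨t, ht, rfl⟩ := hw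
  refine ⟨t, ⟨ht, rfl⟩, ?_⟩
  rintro s ⟨hs, h⟩
  have := ew_inj h (by
    rw [show (m : ℝ) + s - (m + t) = s - t by ring, abs_lt]
    constructor <;> linarith [hs.1, hs.2, ht.1, ht.2])
  linarith

theorem end0 (m : ℕ) : ws (3 + m) = {ew (m : ℝ)} := by
  rw [ws_ge (by omega)]
  congr 2
  congr 1
  omega

theorem end1 {m : ℕ} (hm : m < 3) : ws (3 + (m + 1) % 3) = {ew ((m : ℝ) + 1)} := by
  rw [end0]
  congr 1
  rw [ew_eq_iff]
  interval_cases m
  · exact ⟨0, by norm_num⟩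
  · exact ⟨0, by norm_num⟩
  · exact ⟨-1, by norm_num⟩

theorem norm_of_mem_ws {m : ℕ} {w : ℂ} (hw : w ∈ ws m) : ‖w‖ = 1 := by
  by_cases hm : m < 3
  · rw [ws_lt hm] at hw
    obtain ⟨t, _, rfl⟩ := hw
    exact ew_norm _
  · rw [ws_ge (by omega)] at hw
    rw [mem_singleton_iff.1 hw]
    exact ew_norm _

end W63

end Tri

end Pool.Agent.Lib.MP_84984d_gt
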