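import Pool.Agent.Lib.MP_84984d_gt.Tri.Blk92
import Pool.Agent.Lib.MP_84984d_gt.Tri.BW63

/-!
The smooth coordinate on the arcs (helper63).
-/

set_option autoImplicit false

namespace Pool.Agent.Lib.MP_84984d_gt.Tri

/-- The statement `StArc` of the 4-blocks. -/
theorem stArc_63 : StArc := fun j _ => W63.left_inverse (j : ℕ)

end Pool.Agent.Lib.MP_84984d_gt.Tri
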