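import Pool.Agent.Lib.MP_84984d_gt.Tri.Run92

set_option autoImplicit false

/-!
The shellings of the three 4-dimensional handlebodies and of the three walls (helper92).
-/

namespace Pool.Agent.Lib.MP_84984d_gt.Tri

/-- The 4-cells. -/
def ok4 (c : ℕ × ℕ × ℕ) : Bool := decide (c.1 < 18) && decide (c.2.1 < 2) && decide (c.2.2 < 3)

/-- The 3-cells. -/
def ok3 (c : ℕ × ℕ × ℕ) : Bool :=
  (decide (c.1 < 18) && decide (c.2.1 < 2) && decide (3 ≤ c.2.2) && decide (c.2.2 < 6)) ||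
  (decide (c.1 < 18) && decide (c.2.1 = 2) && decide (c.2.2 < 3)) ||
  (decide (18 ≤ c.1) && decide (c.1 < 45) && decide (c.2.1 < 2) && decide (c.2.2 < 3))

/-- The shelling `x0`. -/
def lx0 : List Stp := [
  ⟨(11, 1, 2), false, 3, [(3, true)]⟩,
  ⟨(10, 1, 0), false, 2, [(2, true)]⟩,
  ⟨(10, 1, 2), false, 2, [(2, true), (3, true)]⟩,
  ⟨(11, 0, 0), false, 1, [(1, false)]⟩,
  ⟨(10, 0, 0), false, 1, [(1, false), (2, true)]⟩,
  ⟨(9, 0, 0), false, 2, [(2, true)]⟩,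
  ⟨(8, 0, 0), false, 2, [(2, true)]⟩,
  ⟨(5, 0, 0), false, 1, [(1, true)]⟩,
  ⟨(7, 0, 0), false, 2, [(2, true)]⟩,
  ⟨(1, 0, 0), false, 1, [(1, true)]⟩,
  ⟨(13, 0, 0), false, 1, [(1, true)]⟩,
  ⟨(2, 0, 0), false, 2, [(2, false)]⟩,
  ⟨(4, 0, 0), false, 2, [(2, true)]⟩,
  ⟨(9, 1, 0), false, 1, [(1, false), (2, true)]⟩,
  ⟨(0, 0, 0), false, 1, [(1, true), (2, false), (2, true)]⟩,
  ⟨(17, 0, 0), false, 1, [(1, true)]⟩,
  ⟨(14, 0, 0), false, 1, [(1, true), (2, false)]⟩,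
  ⟨(13, 1, 0), false, 1, [(1, false)]⟩,
  ⟨(13, 1, 2), false, 3, [(3, true)]⟩,
  ⟨(9, 1, 2), false, 2, [(2, true), (3, true)]⟩,
  ⟨(14, 1, 0), false, 1, [(1, false), (2, false)]⟩,
  ⟨(16, 0, 0), false, 1, [(1, true), (2, true)]⟩,
  ⟨(14, 1, 2), false, 2, [(2, false), (3, true)]⟩,
  ⟨(15, 0, 0), true, 2, []⟩,
  ⟨(3, 0, 0), false, 1, [(1, true), (2, false), (2, true)]⟩,
  ⟨(15, 1, 0), false, 1, [(1, false), (2, false)]⟩,
  ⟨(15, 1, 2), false, 2, [(2, false), (3, true)]⟩,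
  ⟨(13, 1, 1), true, 3, []⟩,
  ⟨(14, 1, 1), false, 2, [(2, false), (3, false), (3, true)]⟩,
  ⟨(15, 1, 1), false, 2, [(2, false), (3, false), (3, true)]⟩,
  ⟨(11, 1, 1), true, 3, []⟩,
  ⟨(10, 1, 1), false, 2, [(2, true), (3, false), (3, true)]⟩,
  ⟨(9, 1, 1), false, 2, [(2, true), (3, false), (3, true)]⟩,
  ⟨(6, 0, 0), true, 2, []⟩,
  ⟨(12, 0, 0), false, 1, [(1, true), (2, false), (2, true)]⟩]

/-- Its mask. -/
def mx0 : ℕ := 43420327054255527388453775266042055210518913680032579000206777820883000911855926443955385558562197672838538032833886852465447033393131787981500462711348641331090817087922410004995318979088034736974508803500516021900991115372810968387657522511249735476809852698118135803695947944385288436451877963611306910053750637112282091471072896464123339069027718525864928266926699559026854304360813858253945217810681824103104729540195227541254336464622441160402131103861857939371806064742425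

theorem run_x0 : ok4 (11, 1, 0) = true ∧
    run 2 (fun _ => true) ok4 fc4 lx0 (mask (11, 1, 0)) 0 = some (mx0, 4) := by
  decide +kernel

/-- The shelling `x1`. -/
def lx1 : List Stp := [
  ⟨(9, 0, 1), false, 2, [(2, false)]⟩,
  ⟨(0, 0, 1), false, 1, [(1, true)]⟩,
  ⟨(5, 0, 1), false, 2, [(2, true)]⟩,
  ⟨(0, 1, 1), false, 1, [(1, false)]⟩,
  ⟨(4, 0, 1), false, 2, [(2, true)]⟩,
  ⟨(16, 0, 1), false, 1, [(1, true)]⟩,
  ⟨(16, 1, 1), false, 1, [(1, false)]⟩,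
  ⟨(16, 1, 0), false, 3, [(3, true)]⟩,
  ⟨(15, 0, 1), false, 2, [(2, true)]⟩,
  ⟨(3, 0, 1), false, 1, [(1, true), (2, true)]⟩,
  ⟨(0, 1, 2), false, 3, [(3, false)]⟩,
  ⟨(17, 0, 1), false, 2, [(2, false)]⟩,
  ⟨(1, 0, 1), false, 1, [(1, true), (2, false)]⟩,
  ⟨(11, 0, 1), false, 1, [(1, true)]⟩,
  ⟨(10, 0, 1), false, 1, [(1, true), (2, false), (2, true)]⟩,
  ⟨(17, 1, 1), false, 1, [(1, false), (2, false)]⟩,
  ⟨(1, 1, 1), false, 1, [(1, false), (2, false)]⟩,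
  ⟨(17, 1, 0), false, 2, [(2, false), (3, true)]⟩,
  ⟨(12, 0, 1), false, 2, [(2, false)]⟩,
  ⟨(6, 0, 1), false, 1, [(1, true), (2, false)]⟩,
  ⟨(1, 1, 2), false, 2, [(2, false), (3, false)]⟩,
  ⟨(12, 1, 1), false, 1, [(1, false), (2, false)]⟩,
  ⟨(12, 1, 0), false, 2, [(2, false), (3, true)]⟩,
  ⟨(0, 1, 0), true, 3, []⟩,
  ⟨(1, 1, 0), false, 2, [(2, false), (3, false), (3, true)]⟩,
  ⟨(2, 0, 1), true, 2, []⟩,
  ⟨(2, 1, 1), false, 1, [(1, false), (2, false)]⟩,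
  ⟨(2, 1, 2), false, 2, [(2, false), (3, false)]⟩,
  ⟨(2, 1, 0), false, 2, [(2, false), (3, false), (3, true)]⟩,
  ⟨(14, 0, 1), false, 1, [(1, true), (2, true)]⟩,
  ⟨(7, 0, 1), true, 2, []⟩,
  ⟨(13, 0, 1), false, 1, [(1, true), (2, false), (2, true)]⟩,
  ⟨(16, 1, 2), true, 3, []⟩,
  ⟨(17, 1, 2), false, 2, [(2, false), (3, false), (3, true)]⟩,
  ⟨(12, 1, 2), false, 2, [(2, false), (3, false), (3, true)]⟩]

/-- Its mask. -/
def mx1 : ℕ := 43420328065213833678441534950130703815221747576892466967419001945298020787491131244354611585713822811440190460758679920003240320404189696671497126488684980291559300508114445627584596865024574513535821109624823685165066803279595841542388187414737580405696060544099530114847684482193783125885592338274489152055057844742284968255592799474312193007757097356400648781844488189545375256641321350575086522035211748893964121710536550404461464804673092785140340709109197458704659543752690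

theorem run_x1 : ok4 (8, 0, 1) = true ∧
    run 2 (fun _ => true) ok4 fc4 lx1 (mask (8, 0, 1)) 0 = some (mx1, 4) := by
  decide +kernel

/-- The shelling `x2`. -/
def lx2 : List Stp := [
  ⟨(2, 0, 2), false, 2, [(2, true)]⟩,
  ⟨(1, 0, 2), false, 2, [(2, true)]⟩,
  ⟨(4, 0, 2), false, 2, [(2, false)]⟩,
  ⟨(4, 1, 2), false, 1, [(1, false)]⟩,
  ⟨(5, 0, 2), false, 2, [(2, false)]⟩,
  ⟨(8, 0, 2), false, 1, [(1, true)]⟩,
  ⟨(16, 0, 2), false, 1, [(1, true)]⟩,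
  ⟨(5, 1, 2), false, 1, [(1, false), (2, false)]⟩,
  ⟨(15, 0, 2), false, 1, [(1, true), (2, true)]⟩,
  ⟨(3, 1, 2), false, 1, [(1, false), (2, true)]⟩,
  ⟨(14, 0, 2), false, 1, [(1, true), (2, true)]⟩,
  ⟨(17, 0, 2), false, 2, [(2, false)]⟩,
  ⟨(4, 1, 0), false, 3, [(3, false)]⟩,
  ⟨(12, 0, 2), false, 2, [(2, false)]⟩,
  ⟨(11, 0, 2), false, 1, [(1, true)]⟩,
  ⟨(8, 1, 2), false, 1, [(1, false)]⟩,
  ⟨(10, 0, 2), false, 1, [(1, true), (2, true)]⟩,
  ⟨(8, 1, 1), false, 3, [(3, true)]⟩,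
  ⟨(5, 1, 0), false, 2, [(2, false), (3, false)]⟩,
  ⟨(6, 0, 2), false, 1, [(1, true), (2, false)]⟩,
  ⟨(6, 1, 2), false, 1, [(1, false)]⟩,
  ⟨(3, 1, 0), false, 2, [(2, true), (3, false)]⟩,
  ⟨(6, 1, 0), false, 3, [(3, false)]⟩,
  ⟨(7, 0, 2), true, 2, []⟩,
  ⟨(13, 0, 2), false, 1, [(1, true), (2, false), (2, true)]⟩,
  ⟨(7, 1, 2), false, 1, [(1, false), (2, false), (2, true)]⟩,
  ⟨(5, 1, 1), true, 3, []⟩,
  ⟨(4, 1, 1), false, 2, [(2, true), (3, false), (3, true)]⟩,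
  ⟨(3, 1, 1), false, 2, [(2, true), (3, false), (3, true)]⟩,
  ⟨(6, 1, 1), true, 3, []⟩,
  ⟨(7, 1, 1), false, 3, [(2, false), (2, true), (3, true)]⟩,
  ⟨(7, 1, 0), false, 2, [(2, false), (3, false), (3, true)]⟩,
  ⟨(8, 1, 0), false, 2, [(2, false), (3, false), (3, true)]⟩,
  ⟨(0, 0, 2), true, 2, []⟩,
  ⟨(9, 0, 2), false, 1, [(1, true), (2, false), (2, true)]⟩]

/-- Its mask. -/
def mx2 : ℕ := 43420327822583840168844472625949428150093067441646093855288068155438416009927099571744917523119856538666825756167127728759570280259884323844326334723062004321598061433059163776577837663578352588593475767746147705187078609798543549242903096384335395318629639882243027339517699866901851908867008980685845949939358644731371700668934126441421955234968109075102182358486313970483779799919137775917970340556353608645397670691931675748749287093969462720385571634931080274031462499663916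

theorem run_x2 : ok4 (3, 0, 2) = true ∧
    run 2 (fun _ => true) ok4 fc4 lx2 (mask (3, 0, 2)) 0 = some (mx2, 4) := by
  decide +kernel

/-- The shelling `w01`. -/
def lw01 : List Stp := [
  ⟨(10, 0, 4), false, 1, [(1, true)]⟩,
  ⟨(0, 0, 4), false, 2, [(2, false)]⟩,
  ⟨(4, 0, 4), false, 2, [(2, true)]⟩,
  ⟨(0, 2, 0), false, 2, [(2, true)]⟩,
  ⟨(9, 0, 4), false, 1, [(1, true), (2, true)]⟩,
  ⟨(16, 0, 4), false, 1, [(1, true)]⟩,
  ⟨(15, 0, 4), false, 2, [(2, true)]⟩,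
  ⟨(17, 0, 4), false, 2, [(2, false)]⟩,
  ⟨(11, 0, 4), false, 1, [(1, true), (2, false)]⟩,
  ⟨(17, 2, 0), false, 2, [(2, true)]⟩,
  ⟨(6, 0, 4), false, 2, [(2, false)]⟩,
  ⟨(1, 2, 0), false, 1, [(1, false)]⟩,
  ⟨(16, 2, 0), false, 1, [(1, true), (2, true)]⟩,
  ⟨(1, 0, 4), false, 1, [(1, false), (2, false)]⟩,
  ⟨(15, 2, 1), false, 2, [(2, false)]⟩,
  ⟨(34, 1, 0), false, 1, [(1, false)]⟩,
  ⟨(11, 2, 1), false, 2, [(2, false)]⟩,
  ⟨(3, 0, 4), false, 1, [(1, true), (2, true)]⟩,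
  ⟨(12, 0, 4), false, 1, [(1, true), (2, false)]⟩,
  ⟨(10, 2, 1), false, 1, [(1, true), (2, false)]⟩,
  ⟨(9, 2, 1), false, 1, [(1, true), (2, false)]⟩,
  ⟨(34, 1, 1), false, 1, [(1, false), (2, false)]⟩,
  ⟨(8, 0, 4), false, 1, [(1, true), (2, true)]⟩,
  ⟨(12, 2, 0), false, 1, [(1, false), (2, true)]⟩,
  ⟨(31, 1, 0), false, 1, [(1, false)]⟩,
  ⟨(31, 1, 1), false, 2, [(2, false)]⟩,
  ⟨(2, 0, 4), true, 2, []⟩,
  ⟨(2, 2, 0), false, 1, [(1, false), (2, true)]⟩,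
  ⟨(14, 0, 4), false, 1, [(1, true), (2, true)]⟩,
  ⟨(14, 2, 1), false, 1, [(1, true), (2, false)]⟩,
  ⟨(36, 1, 1), true, 0, []⟩,
  ⟨(36, 1, 0), false, 2, [(0, false), (0, true), (2, true)]⟩,
  ⟨(44, 1, 0), true, 0, []⟩,
  ⟨(44, 1, 1), false, 2, [(0, false), (0, true), (2, false)]⟩,
  ⟨(40, 1, 1), true, 0, []⟩,
  ⟨(40, 1, 0), false, 2, [(0, false), (0, true), (2, true)]⟩,
  ⟨(31, 1, 2), true, 2, []⟩,
  ⟨(13, 2, 1), true, 1, []⟩,
  ⟨(13, 0, 4), false, 1, [(1, false), (2, false), (2, true)]⟩,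
  ⟨(7, 0, 4), false, 1, [(1, true), (2, false), (2, true)]⟩,
  ⟨(44, 1, 2), true, 2, []⟩,
  ⟨(36, 1, 2), true, 2, []⟩,
  ⟨(34, 1, 2), true, 2, []⟩,
  ⟨(40, 1, 2), true, 2, []⟩]

/-- Its mask. -/
def mw01 : ℕ := 43420326690310537124058181779770141712825893477163019332010377136093593756627252720781486608018076396368043512231023429508692413969267208706635918963477939260460284370668678510717795202875838621949724962057738767608049410046024002749531588769985367730551726107213915041192085261582438180425003186862702796296560937625522564757818321120723226227527743700084896509024139246224062964382674543293147246693622139704412070436388941785357368432432239818819132843428237385485110462484496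

theorem run_w01 : ok3 (5, 0, 4) = true ∧
    run 1 sh3 ok3 fc3 lw01 (mask (5, 0, 4)) 0 = some (mw01, 10) := by
  decide +kernel

/-- The shelling `w12`. -/
def lw12 : List Stp := [
  ⟨(18, 1, 2), false, 2, [(2, true)]⟩,
  ⟨(0, 2, 2), false, 1, [(1, false)]⟩,
  ⟨(0, 0, 5), false, 1, [(1, false)]⟩,
  ⟨(9, 0, 5), false, 1, [(1, true)]⟩,
  ⟨(1, 0, 5), false, 2, [(2, false)]⟩,
  ⟨(5, 0, 5), false, 2, [(2, true)]⟩,
  ⟨(8, 0, 5), false, 1, [(1, true), (2, true)]⟩,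
  ⟨(4, 0, 5), false, 2, [(2, true)]⟩,
  ⟨(16, 0, 5), false, 1, [(1, true)]⟩,
  ⟨(17, 0, 5), false, 2, [(2, false)]⟩,
  ⟨(4, 2, 1), false, 2, [(2, true)]⟩,
  ⟨(12, 0, 5), false, 2, [(2, false)]⟩,
  ⟨(1, 2, 2), false, 1, [(1, false), (2, false)]⟩,
  ⟨(16, 2, 2), false, 2, [(2, false)]⟩,
  ⟨(15, 0, 5), false, 2, [(2, true)]⟩,
  ⟨(6, 0, 5), false, 1, [(1, true)]⟩,
  ⟨(10, 0, 5), false, 1, [(1, true), (2, false)]⟩,
  ⟨(8, 2, 1), false, 2, [(2, true)]⟩,
  ⟨(6, 2, 1), false, 2, [(2, true)]⟩,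
  ⟨(12, 2, 2), false, 2, [(2, false)]⟩,
  ⟨(3, 0, 5), false, 1, [(1, true), (2, true)]⟩,
  ⟨(3, 2, 1), false, 1, [(1, true), (2, true)]⟩,
  ⟨(21, 1, 1), false, 1, [(1, false)]⟩,
  ⟨(17, 2, 2), false, 2, [(1, false), (1, true), (2, false)]⟩,
  ⟨(11, 0, 5), false, 1, [(1, true), (2, false), (2, true)]⟩,
  ⟨(21, 1, 2), false, 2, [(2, false)]⟩,
  ⟨(43, 1, 1), true, 0, []⟩,
  ⟨(43, 1, 2), false, 2, [(0, false), (0, true), (2, false)]⟩,
  ⟨(2, 2, 2), true, 1, []⟩,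
  ⟨(2, 0, 5), false, 1, [(1, false), (2, false), (2, true)]⟩,
  ⟨(14, 0, 5), false, 1, [(1, true), (2, true)]⟩,
  ⟨(39, 1, 2), true, 0, []⟩,
  ⟨(39, 1, 1), false, 2, [(0, false), (0, true), (2, true)]⟩,
  ⟨(7, 2, 1), true, 1, []⟩,
  ⟨(7, 0, 5), false, 1, [(1, false), (2, false), (2, true)]⟩,
  ⟨(13, 0, 5), false, 1, [(1, true), (2, false), (2, true)]⟩,
  ⟨(18, 1, 1), true, 2, []⟩,
  ⟨(5, 2, 1), false, 2, [(1, false), (1, true), (2, true)]⟩,
  ⟨(38, 1, 1), true, 0, []⟩,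
  ⟨(38, 1, 2), false, 2, [(0, false), (0, true), (2, false)]⟩,
  ⟨(38, 1, 0), true, 2, []⟩,
  ⟨(43, 1, 0), true, 2, []⟩,
  ⟨(21, 1, 0), true, 2, []⟩,
  ⟨(39, 1, 0), true, 2, []⟩]

/-- Its mask. -/
def mw12 : ℕ := 43420327337323853149650347977586876819835707171153347631026200575719206469622201274179718923860524321181625107468442283912626033342350505740865111498106494110820900891701377819123927928262057238811807963249557939985697877485087909838847806779044736394375988126286633075001392627529709710156471164302131106685989023120639180806650121111786684640526606198139375711130921131435745533608387603668307048130700164474612990019725862907909652666558615837699133668126536299397062356811808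

theorem run_w12 : ok3 (18, 1, 0) = true ∧
    run 1 sh3 ok3 fc3 lw12 (mask (18, 1, 0)) 0 = some (mw12, 10) := by
  decide +kernel

/-- The shelling `w02`. -/
def lw02 : List Stp := [
  ⟨(2, 0, 3), false, 2, [(2, true)]⟩,
  ⟨(1, 0, 3), false, 2, [(2, true)]⟩,
  ⟨(4, 0, 3), false, 2, [(2, false)]⟩,
  ⟨(4, 2, 0), false, 2, [(2, false)]⟩,
  ⟨(8, 0, 3), false, 1, [(1, true)]⟩,
  ⟨(7, 0, 3), false, 2, [(2, true)]⟩,
  ⟨(14, 0, 3), false, 1, [(1, true)]⟩,
  ⟨(5, 2, 0), false, 1, [(1, false)]⟩,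
  ⟨(3, 2, 0), false, 1, [(1, true), (2, false)]⟩,
  ⟨(7, 2, 0), false, 2, [(2, false)]⟩,
  ⟨(15, 0, 3), false, 1, [(1, true), (2, false)]⟩,
  ⟨(15, 2, 2), false, 2, [(2, true)]⟩,
  ⟨(16, 0, 3), false, 1, [(1, true), (2, false)]⟩,
  ⟨(14, 2, 2), false, 1, [(1, true), (2, true)]⟩,
  ⟨(13, 0, 3), false, 1, [(1, true), (2, true)]⟩,
  ⟨(6, 2, 0), false, 1, [(1, true)]⟩,
  ⟨(24, 1, 0), false, 1, [(1, false)]⟩,
  ⟨(13, 2, 2), false, 1, [(1, true), (2, true)]⟩,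
  ⟨(24, 1, 2), false, 2, [(2, true)]⟩,
  ⟨(6, 0, 3), false, 1, [(1, false), (2, true)]⟩,
  ⟨(5, 0, 3), false, 1, [(1, false), (2, false)]⟩,
  ⟨(8, 2, 0), false, 1, [(1, false), (2, false)]⟩,
  ⟨(12, 0, 3), false, 1, [(1, true), (2, true)]⟩,
  ⟨(27, 1, 0), false, 1, [(1, false)]⟩,
  ⟨(27, 1, 1), false, 2, [(2, false)]⟩,
  ⟨(10, 0, 3), false, 1, [(1, true)]⟩,
  ⟨(10, 2, 2), false, 2, [(2, true)]⟩,
  ⟨(37, 1, 2), true, 0, []⟩,
  ⟨(37, 1, 0), false, 2, [(0, false), (0, true), (2, false)]⟩,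
  ⟨(41, 1, 0), true, 0, []⟩,
  ⟨(41, 1, 2), false, 2, [(0, false), (0, true), (2, true)]⟩,
  ⟨(11, 2, 2), true, 1, []⟩,
  ⟨(11, 0, 3), false, 1, [(1, false), (2, false), (2, true)]⟩,
  ⟨(17, 0, 3), false, 1, [(1, true), (2, false), (2, true)]⟩,
  ⟨(24, 1, 1), true, 2, []⟩,
  ⟨(27, 1, 2), true, 2, []⟩,
  ⟨(9, 0, 3), true, 2, []⟩,
  ⟨(0, 0, 3), false, 1, [(1, true), (2, false), (2, true)]⟩,
  ⟨(9, 2, 2), false, 2, [(1, false), (1, true), (2, true)]⟩,
  ⟨(41, 1, 1), true, 2, []⟩,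
  ⟨(42, 1, 0), true, 0, []⟩,
  ⟨(42, 1, 2), false, 2, [(0, false), (0, true), (2, true)]⟩,
  ⟨(42, 1, 1), true, 2, []⟩,
  ⟨(37, 1, 1), true, 2, []⟩]

/-- Its mask. -/
def mw02 : ℕ := 43420326366803879111262098680861774159320986630167855182502465416280787389012404665244259446280636162918208055575589890338229288829182343327067340879798424941678342177901371418382721713909840246752888717309387537371901341291522661981381172038712280956274401273656641299274820252490228846746318749314228533091603437520984137894937553219623028478369057449104608852252646131474249522257845309780823163862484771494581591474327544007983003377567281632326943109102286405211681751859208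

theorem run_w02 : ok3 (3, 0, 3) = true ∧
    run 1 sh3 ok3 fc3 lw02 (mask (3, 0, 3)) 0 = some (mw02, 10) := by
  decide +kernel

theorem masks_ok : (mx0 ||| mx1 ||| mx2) &&& vm = vm ∧ (mx0 &&& mx1) &&& vm = mw01 &&& vm ∧
    (mx1 &&& mx2) &&& vm = mw12 &&& vm ∧ (mx0 &&& mx2) &&& vm = mw02 &&& vm := by
  decide +kernel

end Pool.Agent.Lib.MP_84984d_gt.Tri
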