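import Pool.Agent.Lib.MP_84984d_gt.Tri.Cube92
import Pool.Agent.Lib.MP_84984d_gt.Tri.Data92
import Pool.Agent.Lib.MP_84984d_gt.Model

set_option autoImplicit false

/-!
The trisection (helper92).
-/

namespace Pool.Agent.Lib.MP_84984d_gt.Tri

open Set

theorem X0_eq : MM 1 ×ˢ Metric.sphere (0 : ℂ) 1 = X0 := by
  ext p
  simp [MM, X0]

theorem nx_lt18 {k : ℕ} (h : k < 18) : nx k < 18 := nx_lt h

theorem fc4_lt {c : ℕ × ℕ × ℕ} (h : ok4 c = true) (i : ℕ) (b : Bool) :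
    (fc4 c i b).1 < 53 ∧ (fc4 c i b).2.1 < 5 ∧ (fc4 c i b).2.2 < 6 := by
  unfold ok4 at h
  simp only [Bool.and_eq_true, decide_eq_true_eq] at h
  obtain ⟨⟨h1, h2⟩, h3⟩ := h
  have hc := co_lt c.1
  have hn := nx_lt h1
  unfold fc4
  split_ifs <;> simp only <;> omega

theorem ok3_is {c : ℕ × ℕ × ℕ} (h : ok3 c = true) : Is3 c := by
  unfold ok3 at h
  simp only [Bool.and_eq_true, Bool.or_eq_true, decide_eq_true_eq] at h
  unfold Is3
  tauto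

theorem fc3_lt {c : ℕ × ℕ × ℕ} (h : Is3 c) (i : ℕ) (b : Bool) :
    (fc3 c i b).1 < 53 ∧ (fc3 c i b).2.1 < 5 ∧ (fc3 c i b).2.2 < 6 := by
  unfold Is3 at h
  have hc := co_lt c.1
  have hs1 := sv_lt (c.1 - 18)
  have hs2 := sv_lt (nx (cf (c.1 - 36)))
  have hs3 := sv_lt (cf (c.1 - 36))
  have hn : c.1 < 18 → nx c.1 < 18 := fun h => nx_lt h
  unfold fc3
  split_ifs <;> simp only <;> omega

theorem hasTri (hB : StBase) (hE : StEnd) (hC : StCore) (hP : StPos) (hW : StW) (hA : StArc) :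
    HasTrisection (MM 1 ×ˢ Metric.sphere (0 : ℂ) 1) 10 4 4 4 := by
  have h4 := block4 hB hE hC hA
  have h3 := block3 hB hW h4
  obtain ⟨t, hv, ht⟩ := exists_code hB hW hP
  have hcell : ∀ c : ℕ × ℕ × ℕ, c.1 < 53 → c.2.1 < 5 → c.2.2 < 6 → cell c = rz t (mask c) := by
    intro c h1 h2 h3
    ext p
    constructor
    · intro hp
      have hp' : p ∈ X0 := ⟨hp.1, hp.2.1⟩
      exact ⟨hp', (ht c h1 h2 h3 p hp').1 hp⟩
    · rintro ⟨hp, hp'⟩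
      exact (ht c h1 h2 h3 p hp).2 hp'
  have a4 : ∀ (c : ℕ × ℕ × ℕ) (l : List Stp) (Y k : ℕ), ok4 c = true ∧
      run 2 (fun _ => true) ok4 fc4 l (mask c) 0 = some (Y, k) → IsHandlebody 2 k (rz t Y) := by
    rintro c l Y k ⟨h, hr⟩
    have hg : ∀ c, ok4 c = true → ∃ f : (Fin (2 + 2) → ℝ) → (ℂ × ℂ) × ℂ,
        IsBlock true 2 f ∧ f '' Body true 2 = cell c ∧ ∀ i ∈ Dirs true 2, ∀ b,
        f '' Facet true 2 i b = cell (fc4 c i b) := by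
      rintro ⟨a, z, w⟩ h
      unfold ok4 at h
      simp only [Bool.and_eq_true, decide_eq_true_eq] at h
      obtain ⟨⟨h1, h2⟩, h3⟩ := h
      obtain ⟨f, b1, b2, b3, _⟩ := h4 a h1 z h2 w h3
      exact ⟨f, b1, b2, b3⟩
    have hlt : ∀ c, ok4 c = true → c.1 < 53 ∧ c.2.1 < 5 ∧ c.2.2 < 6 := by
      intro c h
      unfold ok4 at h
      simp only [Bool.and_eq_true, decide_eq_true_eq] at h
      omega
    refine run_sound (L := fun _ => true) hv ht hlt (fun c h i b => fc4_lt h i b) hg l ?_ hr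
    obtain ⟨f, b1, b2, _⟩ := hg c h
    obtain ⟨c1, c2, c3⟩ := hlt c h
    rw [← hcell c c1 c2 c3, ← b2]
    exact IsHandlebody.block true f b1
  have a3 : ∀ (c : ℕ × ℕ × ℕ) (l : List Stp) (Y k : ℕ), ok3 c = true ∧
      run 1 sh3 ok3 fc3 l (mask c) 0 = some (Y, k) → IsHandlebody 1 k (rz t Y) := by
    rintro c l Y k ⟨h, hr⟩
    have hlt : ∀ c, ok3 c = true → c.1 < 53 ∧ c.2.1 < 5 ∧ c.2.2 < 6 := by
      intro c h
      have := ok3_is h
      unfold Is3 at this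
      omega
    have hg : ∀ c, ok3 c = true → ∃ f : (Fin (1 + 2) → ℝ) → (ℂ × ℂ) × ℂ,
        IsBlock (sh3 c) 1 f ∧ f '' Body (sh3 c) 1 = cell c ∧ ∀ i ∈ Dirs (sh3 c) 1, ∀ b,
        f '' Facet (sh3 c) 1 i b = cell (fc3 c i b) := fun c h => h3 c (ok3_is h)
    refine run_sound (L := sh3) hv ht hlt (fun c h i b => fc3_lt (ok3_is h) i b) hg l ?_ hr
    obtain ⟨f, b1, b2, _⟩ := hg c h
    obtain ⟨c1, c2, c3⟩ := hlt c h
    rw [← hcell c c1 c2 c3, ← b2]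
    exact IsHandlebody.block (sh3 c) f b1
  obtain ⟨m1, m2, m3, m4⟩ := masks_ok
  refine ⟨rz t mx0, rz t mx1, rz t mx2, ?_, a4 _ _ _ _ run_x0, a4 _ _ _ _ run_x1,
    a4 _ _ _ _ run_x2, ?_, ?_, ?_⟩
  · rw [X0_eq, ← rz_or, ← rz_or, ← rz_vm t hv, m1]
    ext p
    exact ⟨fun h => ⟨h, hv p h⟩, fun h => h.1⟩
  · rw [← rz_and, rz_congr t hv m2]
    exact a3 _ _ _ _ run_w01
  · rw [← rz_and, rz_congr t hv m3]
    exact a3 _ _ _ _ run_w12
  · rw [← rz_and, rz_congr t hv m4]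
    exact a3 _ _ _ _ run_w02

end Pool.Agent.Lib.MP_84984d_gt.Tri
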