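import Pool.Agent.Lib.MP_84984d_gt.Tri.Run92

set_option autoImplicit false

/-!
MODULE B3 from MODULE B4: the 3-cells are restrictions of the charts of the 4-cells (helper22).
-/

namespace Pool.Agent.Lib.MP_84984d_gt

open Set

namespace Tri

namespace B3x22

open scoped ContDiff

/-- restriction of a chart -/
theorem comp {E : Type*} [NormedAddCommGroup E] [NormedSpace ℝ E] {L L' : Bool} {n m : ℕ}
    {f : (Fin (n + 2) → ℝ) → E} (hf : IsBlock L n f)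
    (ι : (Fin (m + 2) → ℝ) → (Fin (n + 2) → ℝ)) (ρ : (Fin (n + 2) → ℝ) → (Fin (m + 2) → ℝ))
    (A : Set (Fin (m + 2) → ℝ)) (W : Set (Fin (n + 2) → ℝ)) (hA : IsOpen A) (hW : IsOpen W)
    (hι : ContDiff ℝ ∞ ι) (hρ : ContDiffOn ℝ ∞ ρ W) (hAW : MapsTo ι A W)
    (hinv : ∀ x ∈ A, ρ (ι x) = x) (hbA : Body L' m ⊆ A)
    (hb : MapsTo ι (Body L' m) (Body L n)) : IsBlock L' m (f ∘ ι) := by
  obtain ⟨U, V, g, hU, hV, hBU, hUV, hfU, hgV, hgf⟩ := hf
  refine ⟨A ∩ ι ⁻¹' U, V ∩ g ⁻¹' W, ρ ∘ g, hA.inter (hU.preimage hι.continuous),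
    hgV.continuousOn.isOpen_inter_preimage hV hW, ?_, ?_, ?_, ?_, ?_⟩
  · intro x hx
    exact ⟨hbA hx, hBU (hb hx)⟩
  · rintro x ⟨hxA, hxU⟩
    refine ⟨hUV hxU, ?_⟩
    show g (f (ι x)) ∈ W
    rw [hgf _ hxU]
    exact hAW hxA
  · exact hfU.comp hι.contDiffOn (fun x hx => hx.2)
  · exact hρ.comp (hgV.mono inter_subset_left) (fun x hx => hx.2)
  · rintro x ⟨hxA, hxU⟩
    show ρ (g (f (ι x))) = x
    rw [hgf _ hxU, hinv x hxA]

theorem inj {E : Type*} [NormedAddCommGroup E] [NormedSpace ℝ E] {L : Bool} {n : ℕ}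
    {f : (Fin (n + 2) → ℝ) → E} (hf : IsBlock L n f) : InjOn f (Body L n) := by
  obtain ⟨U, V, g, -, -, hBU, -, -, -, hgf⟩ := hf
  intro x hx y hy h
  rw [← hgf x (hBU hx), h, hgf y (hBU hy)]

theorem img {α β : Type*} {ι : α → β} {ρ : β → α} {S : Set α} {T : Set β}
    (h1 : ∀ x ∈ S, ι x ∈ T) (h2 : ∀ y ∈ T, ρ y ∈ S ∧ ι (ρ y) = y) : ι '' S = T := by
  ext y
  constructor
  · rintro ⟨x, hx, rfl⟩
    exact h1 x hx
  · intro hy
    exact ⟨ρ y, (h2 y hy).1, (h2 y hy).2⟩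

/-! ### explicit forms -/

theorem mb4 {y : Fin (2 + 2) → ℝ} : y ∈ Body true 2 ↔ (0 ≤ y 1 ∧ 0 ≤ 1 - y 0 ^ 2 - y 1 ^ 2) ∧
    (0 ≤ y 2 ∧ 0 ≤ 1 - y 2) ∧ 0 ≤ y 3 ∧ 0 ≤ 1 - y 3 := by
  constructor
  · intro h
    have h1 := h 1 (fun _ => by decide)
    have h2 := h 2 (fun _ => by decide)
    have h3 := h 3 (fun _ => by decide)
    have e2 : ¬ (true = true ∧ (2 : Fin (2 + 2)) = 1) := by decide
    have e3 : ¬ (true = true ∧ (3 : Fin (2 + 2)) = 1) := by decide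
    unfold Hi at h1 h2 h3
    rw [if_pos ⟨rfl, rfl⟩] at h1
    rw [if_neg e2] at h2
    rw [if_neg e3] at h3
    exact ⟨h1, h2, h3⟩
  · rintro ⟨h1, h2, h3⟩ i hi
    have hi0 : i ≠ 0 := hi rfl
    have e2 : ¬ (true = true ∧ (2 : Fin (2 + 2)) = 1) := by decide
    have e3 : ¬ (true = true ∧ (3 : Fin (2 + 2)) = 1) := by decide
    unfold Hi
    fin_cases i
    · exact (hi0 rfl).elim
    · exact h1
    · exact h2
    · exact h3

theorem mb3 {y : Fin (1 + 2) → ℝ} : y ∈ Body true 1 ↔ (0 ≤ y 1 ∧ 0 ≤ 1 - y 0 ^ 2 - y 1 ^ 2) ∧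
    0 ≤ y 2 ∧ 0 ≤ 1 - y 2 := by
  constructor
  · intro h
    have h1 := h 1 (fun _ => by decide)
    have h2 := h 2 (fun _ => by decide)
    have e2 : ¬ (true = true ∧ (2 : Fin (1 + 2)) = 1) := by decide
    unfold Hi at h1 h2
    rw [if_pos ⟨rfl, rfl⟩] at h1
    rw [if_neg e2] at h2
    exact ⟨h1, h2⟩
  · rintro ⟨h1, h2⟩ i hi
    have hi0 : i ≠ 0 := hi rfl
    unfold Hi
    fin_cases i
    · exact (hi0 rfl).elim
    · exact h1
    · exact h2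

theorem mc3 {y : Fin (1 + 2) → ℝ} : y ∈ Body false 1 ↔ (0 ≤ y 0 ∧ 0 ≤ 1 - y 0) ∧
    (0 ≤ y 1 ∧ 0 ≤ 1 - y 1) ∧ 0 ≤ y 2 ∧ 0 ≤ 1 - y 2 := by
  constructor
  · intro h
    exact ⟨h 0 (fun h => by cases h), h 1 (fun h => by cases h), h 2 (fun h => by cases h)⟩
  · rintro ⟨h0, h1, h2⟩ i hi
    unfold Hi
    fin_cases i
    · exact h0
    · exact h1
    · exact h2

/-- the coordinate which vanishes on the facet -/
theorem mf {L : Bool} {n : ℕ} {i : Fin (n + 2)} {b : Bool} {y : Fin (n + 2) → ℝ} :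
    y ∈ Facet L n i b ↔ y ∈ Body L n ∧ (if b then Hi L i y else y i) = 0 := Iff.rfl

theorem f4_1f {y : Fin (2 + 2) → ℝ} : y ∈ Facet true 2 1 false ↔ y ∈ Body true 2 ∧ y 1 = 0 :=
  Iff.rfl

theorem f4_1t {y : Fin (2 + 2) → ℝ} :
    y ∈ Facet true 2 1 true ↔ y ∈ Body true 2 ∧ 1 - y 0 ^ 2 - y 1 ^ 2 = 0 := Iff.rfl

theorem f4_2f {y : Fin (2 + 2) → ℝ} : y ∈ Facet true 2 2 false ↔ y ∈ Body true 2 ∧ y 2 = 0 :=
  Iff.rfl

theorem f4_2t {y : Fin (2 + 2) → ℝ} : y ∈ Facet true 2 2 true ↔ y ∈ Body true 2 ∧ 1 - y 2 = 0 :=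
  Iff.rfl

theorem f4_3f {y : Fin (2 + 2) → ℝ} : y ∈ Facet true 2 3 false ↔ y ∈ Body true 2 ∧ y 3 = 0 :=
  Iff.rfl

theorem f4_3t {y : Fin (2 + 2) → ℝ} : y ∈ Facet true 2 3 true ↔ y ∈ Body true 2 ∧ 1 - y 3 = 0 :=
  Iff.rfl

/-! ### intersections of cells -/

theorem inter_cell (hB : StBase) (hW : StW) {a b c : ℕ × ℕ × ℕ} (ha : a.1 < 53) (hb : b.1 < 53)
    (hc : c.1 < 53) (ha' : a.2.1 < 5) (hb' : b.2.1 < 5) (hc' : c.2.1 < 5) (ha2 : a.2.2 < 6)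
    (hb2 : b.2.2 < 6) (hc2 : c.2.2 < 6) (h1 : bm a.1 &&& bm b.1 = bm c.1)
    (h2 : zm a.2.1 &&& zm b.2.1 = zm c.2.1) (h3 : wm a.2.2 &&& wm b.2.2 = wm c.2.2) :
    cell a ∩ cell b = cell c := by
  ext p
  by_cases hp : ‖p.1.2‖ ^ 2 = GG 2 p.1.1 ∧ ‖p.2‖ = 1
  · obtain ⟨s, hs, hs'⟩ := hB p.1.1 (by rw [← hp.1]; positivity)
    obtain ⟨t, ht, -, ht'⟩ := zs_open p.1.2
    obtain ⟨o, ho, ho'⟩ := hW p.2 hp.2
    have e1 : (p.1.1 ∈ bs a.1 ∧ p.1.1 ∈ bs b.1) ↔ p.1.1 ∈ bs c.1 := by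
      rw [hs' _ ha, hs' _ hb, hs' _ hc, ← h1, Nat.testBit_and, Bool.and_eq_true]
    have e2 : (p.1.2 ∈ zs a.2.1 ∧ p.1.2 ∈ zs b.2.1) ↔ p.1.2 ∈ zs c.2.1 := by
      rw [ht' _ ha', ht' _ hb', ht' _ hc', ← h2, Nat.testBit_and, Bool.and_eq_true]
    have e3 : (p.2 ∈ ws a.2.2 ∧ p.2 ∈ ws b.2.2) ↔ p.2 ∈ ws c.2.2 := by
      rw [ho' _ ha2, ho' _ hb2, ho' _ hc2, ← h3, Nat.testBit_and, Bool.and_eq_true]
    constructor
    · rintro ⟨⟨p1, p2, p3, p4, p5⟩, ⟨q1, q2, q3, q4, q5⟩⟩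
      exact ⟨p1, p2, e1.1 ⟨p3, q3⟩, e2.1 ⟨p4, q4⟩, e3.1 ⟨p5, q5⟩⟩
    · rintro ⟨p1, p2, p3, p4, p5⟩
      exact ⟨⟨p1, p2, (e1.2 p3).1, (e2.2 p4).1, (e3.2 p5).1⟩,
        ⟨p1, p2, (e1.2 p3).2, (e2.2 p4).2, (e3.2 p5).2⟩⟩
  · constructor
    · rintro ⟨⟨p1, p2, -⟩, -⟩
      exact (hp ⟨p1, p2⟩).elim
    · rintro ⟨p1, p2, -⟩
      exact (hp ⟨p1, p2⟩).elim

theorem wmA {j : ℕ} (hj : j < 3) : wm j &&& wm (3 + j) = wm (3 + j) ∧
    wm j &&& wm (3 + (j + 1) % 3) = wm (3 + (j + 1) % 3) ∧ wm j &&& wm j = wm j ∧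
    wm (3 + j) &&& wm (3 + j) = wm (3 + j) ∧
    wm (3 + j) &&& wm j = wm (3 + j) ∧
    wm (3 + (j + 1) % 3) &&& wm j = wm (3 + (j + 1) % 3) := by
  interval_cases j <;> decide

theorem zmA {z : ℕ} (hz : z < 2) : zm z &&& zm z = zm z ∧ zm 2 &&& zm z = zm 2 ∧
    zm z &&& zm 2 = zm 2 := by
  interval_cases z <;> decide

theorem bmA : ∀ k < 18, bm (36 + co k) &&& bm k = bm (36 + co k) ∧ bm k &&& bm k = bm k ∧
    bm (18 + nx k) &&& bm k = bm (18 + nx k) ∧ bm (18 + k) &&& bm k = bm (18 + k) ∧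
    bm (36 + co k) &&& bm (18 + k) = bm (45 + sv k) ∧ bm k &&& bm (18 + k) = bm (18 + k) ∧
    bm (18 + nx k) &&& bm (36 + co k) = bm (45 + sv (nx k)) ∧
    bm (18 + k) &&& bm (36 + co k) = bm (45 + sv k) ∧
    bm k &&& bm (36 + co k) = bm (36 + co k) ∧
    nx k < 18 ∧ co k < 9 ∧ sv k < 8 ∧ sv (nx k) < 8 := by
  decide

theorem cfA : ∀ j < 9, cf j < 18 ∧ co (cf j) = j := by decide

/-- the 4-chart and its facets -/
structure Ch (k z j : ℕ) (f : (Fin (2 + 2) → ℝ) → (ℂ × ℂ) × ℂ) : Prop where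
  bl : IsBlock true 2 f
  bd : f '' Body true 2 = cell (k, z, j)
  f1t : f '' Facet true 2 1 true = cell (36 + co k, z, j)
  f1f : f '' Facet true 2 1 false = cell (k, 2, j)
  f2t : f '' Facet true 2 2 true = cell (18 + nx k, z, j)
  f2f : f '' Facet true 2 2 false = cell (18 + k, z, j)
  f3t : f '' Facet true 2 3 true = cell (k, z, 3 + (j + 1) % 3)
  f3f : f '' Facet true 2 3 false = cell (k, z, 3 + j)
  re1 : ∀ y ∈ Body true 2, (0 ≤ (f y).1.2.re ↔ 0 ≤ y 0)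
  re2 : ∀ y ∈ Body true 2, ((f y).1.2.re ≤ 0 ↔ y 0 ≤ 0)

theorem exists_ch (h4 : StBlock4) {k z j : ℕ} (hk : k < 18) (hz : z < 2) (hj : j < 3) :
    ∃ f, Ch k z j f := by
  obtain ⟨f, h1, h2, h3, h5⟩ := h4 k hk z hz j hj
  refine ⟨f, ⟨h1, h2, ?_, ?_, ?_, ?_, ?_, ?_, fun y hy => (h5 y hy).1, fun y hy => (h5 y hy).2⟩⟩
  · exact h3 1 (fun _ => by decide) true
  · exact h3 1 (fun _ => by decide) false
  · exact h3 2 (fun _ => by decide) true
  · exact h3 2 (fun _ => by decide) false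
  · exact h3 3 (fun _ => by decide) true
  · exact h3 3 (fun _ => by decide) false

theorem fsub {i : Fin (2 + 2)} {b : Bool} : Facet true 2 i b ⊆ Body true 2 := fun _ h => h.1

theorem Ch.inter {k z j : ℕ} {f : (Fin (2 + 2) → ℝ) → (ℂ × ℂ) × ℂ} (h : Ch k z j f)
    {i i' : Fin (2 + 2)} {b b' : Bool} :
    f '' (Facet true 2 i b ∩ Facet true 2 i' b') =
      f '' Facet true 2 i b ∩ f '' Facet true 2 i' b' :=
  (inj h.bl).image_inter fsub fsub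

/-! ### case A: the end of the arc -/

/-- the inclusion `y 3 = 0` -/
def iA (y : Fin (1 + 2) → ℝ) : Fin (2 + 2) → ℝ := ![y 0, y 1, y 2, 0]

/-- forget the last coordinate -/
def rA (y : Fin (2 + 2) → ℝ) : Fin (1 + 2) → ℝ := ![y 0, y 1, y 2]

theorem iA_smooth : ContDiff ℝ ∞ iA := by
  rw [contDiff_pi]
  intro i
  fin_cases i
  · exact contDiff_apply ℝ ℝ 0
  · exact contDiff_apply ℝ ℝ 1
  · exact contDiff_apply ℝ ℝ 2
  · exact contDiff_const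

theorem rA_smooth : ContDiff ℝ ∞ rA := by
  rw [contDiff_pi]
  intro i
  fin_cases i
  · exact contDiff_apply ℝ ℝ 0
  · exact contDiff_apply ℝ ℝ 1
  · exact contDiff_apply ℝ ℝ 2

theorem iA_0 (y : Fin (1 + 2) → ℝ) : iA y 0 = y 0 := rfl
theorem iA_1 (y : Fin (1 + 2) → ℝ) : iA y 1 = y 1 := rfl
theorem iA_2 (y : Fin (1 + 2) → ℝ) : iA y 2 = y 2 := rfl
theorem iA_3 (y : Fin (1 + 2) → ℝ) : iA y 3 = 0 := rfl

theorem ext3 {x y : Fin (1 + 2) → ℝ} (h0 : x 0 = y 0) (h1 : x 1 = y 1) (h2 : x 2 = y 2) :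
    x = y := by
  funext i
  fin_cases i
  · exact h0
  · exact h1
  · exact h2

theorem ext4 {x y : Fin (2 + 2) → ℝ} (h0 : x 0 = y 0) (h1 : x 1 = y 1) (h2 : x 2 = y 2)
    (h3 : x 3 = y 3) : x = y := by
  funext i
  fin_cases i
  · exact h0
  · exact h1
  · exact h2
  · exact h3

theorem iA_body (y : Fin (1 + 2) → ℝ) : iA y ∈ Body true 2 ↔ y ∈ Body true 1 := by
  rw [mb4, mb3, iA_0, iA_1, iA_2, iA_3]
  constructor
  · rintro ⟨h1, h2, -⟩
    exact ⟨h1, h2⟩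
  · rintro ⟨h1, h2⟩
    exact ⟨h1, h2, le_rfl, by norm_num⟩

theorem iA_r {y : Fin (2 + 2) → ℝ} (h : y 3 = 0) : iA (rA y) = y :=
  ext4 rfl rfl rfl h.symm

theorem A_body : iA '' Body true 1 = Facet true 2 3 false := by
  refine img (ρ := rA) ?_ ?_
  · intro x hx
    exact ⟨(iA_body x).2 hx, rfl⟩
  · intro y hy
    have e := iA_r hy.2
    refine ⟨?_, e⟩
    rw [← iA_body, e]
    exact hy.1

theorem A_facet (i : Fin (1 + 2)) (i' : Fin (2 + 2)) (b : Bool)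
    (h : ∀ y : Fin (1 + 2) → ℝ, (if b then Hi true i y else y i) =
      (if b then Hi true i' (iA y) else iA y i')) :
    iA '' Facet true 1 i b = Facet true 2 i' b ∩ Facet true 2 3 false := by
  refine img (ρ := rA) ?_ ?_
  · intro x hx
    refine ⟨⟨(iA_body x).2 hx.1, ?_⟩, ⟨(iA_body x).2 hx.1, rfl⟩⟩
    rw [← h]
    exact hx.2
  · rintro y ⟨hy1, hy2⟩
    have e := iA_r hy2.2
    refine ⟨⟨?_, ?_⟩, e⟩
    · rw [← iA_body, e]
      exact hy1.1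
    · rw [h, e]
      exact hy1.2

theorem caseA (hB : StBase) (hW : StW) {k z j : ℕ} (hk : k < 18) (hz : z < 2) (hj : j < 3)
    {f : (Fin (2 + 2) → ℝ) → (ℂ × ℂ) × ℂ} (h : Ch k z j f) :
    IsBlock true 1 (f ∘ iA) ∧ (f ∘ iA) '' Body true 1 = cell (k, z, 3 + j) ∧
    (f ∘ iA) '' Facet true 1 1 true = cell (36 + co k, z, 3 + j) ∧
    (f ∘ iA) '' Facet true 1 1 false = cell (k, 2, 3 + j) ∧
    (f ∘ iA) '' Facet true 1 2 true = cell (18 + nx k, z, 3 + j) ∧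
    (f ∘ iA) '' Facet true 1 2 false = cell (18 + k, z, 3 + j) := by
  obtain ⟨b1, b2, b3, b4, b5, b6, b7, b8, b9, n1, n2, n3, n4⟩ := bmA k hk
  obtain ⟨w1, w2, w3, w4, w5, w6⟩ := wmA hj
  obtain ⟨z1, z2, z3⟩ := zmA hz
  refine ⟨?_, ?_, ?_, ?_, ?_, ?_⟩
  · exact comp h.bl iA rA univ univ isOpen_univ isOpen_univ iA_smooth rA_smooth.contDiffOn
      (fun _ _ => mem_univ _) (fun x _ => ext3 rfl rfl rfl) (subset_univ _)
      (fun x hx => (iA_body x).2 hx)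
  · rw [image_comp, A_body, h.f3f]
  · rw [image_comp, A_facet 1 1 true (fun y => rfl), h.inter, h.f1t, h.f3f]
    exact inter_cell hB hW (by simp; omega) (by simp; omega) (by simp; omega) (by simp; omega)
      (by simp; omega) (by simp; omega) (by simp; omega) (by simp; omega) (by simp; omega)
      b1 z1 w1
  · rw [image_comp, A_facet 1 1 false (fun y => rfl), h.inter, h.f1f, h.f3f]
    exact inter_cell hB hW (by simp; omega) (by simp; omega) (by simp; omega) (by simp)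
      (by simp; omega) (by simp) (by simp; omega) (by simp; omega) (by simp; omega)
      b2 z2 w1
  · rw [image_comp, A_facet 2 2 true (fun y => rfl), h.inter, h.f2t, h.f3f]
    exact inter_cell hB hW (by simp; omega) (by simp; omega) (by simp; omega) (by simp; omega)
      (by simp; omega) (by simp; omega) (by simp; omega) (by simp; omega) (by simp; omega)
      b3 z1 w1
  · rw [image_comp, A_facet 2 2 false (fun y => rfl), h.inter, h.f2f, h.f3f]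
    exact inter_cell hB hW (by simp; omega) (by simp; omega) (by simp; omega) (by simp; omega)
      (by simp; omega) (by simp; omega) (by simp; omega) (by simp; omega) (by simp; omega)
      b4 z1 w1

/-! ### case C: the first ray -/

/-- the inclusion `y 2 = 0` -/
def iC (y : Fin (1 + 2) → ℝ) : Fin (2 + 2) → ℝ := ![y 0, y 1, 0, y 2]

/-- forget the coordinate `2` -/
def rC (y : Fin (2 + 2) → ℝ) : Fin (1 + 2) → ℝ := ![y 0, y 1, y 3]

theorem iC_smooth : ContDiff ℝ ∞ iC := by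
  rw [contDiff_pi]
  intro i
  fin_cases i
  · exact contDiff_apply ℝ ℝ 0
  · exact contDiff_apply ℝ ℝ 1
  · exact contDiff_const
  · exact contDiff_apply ℝ ℝ 2

theorem rC_smooth : ContDiff ℝ ∞ rC := by
  rw [contDiff_pi]
  intro i
  fin_cases i
  · exact contDiff_apply ℝ ℝ 0
  · exact contDiff_apply ℝ ℝ 1
  · exact contDiff_apply ℝ ℝ 3

theorem iC_0 (y : Fin (1 + 2) → ℝ) : iC y 0 = y 0 := rfl
theorem iC_1 (y : Fin (1 + 2) → ℝ) : iC y 1 = y 1 := rfl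
theorem iC_2 (y : Fin (1 + 2) → ℝ) : iC y 2 = 0 := rfl
theorem iC_3 (y : Fin (1 + 2) → ℝ) : iC y 3 = y 2 := rfl

theorem iC_body (y : Fin (1 + 2) → ℝ) : iC y ∈ Body true 2 ↔ y ∈ Body true 1 := by
  rw [mb4, mb3, iC_0, iC_1, iC_2, iC_3]
  constructor
  · rintro ⟨h1, -, h2⟩
    exact ⟨h1, h2⟩
  · rintro ⟨h1, h2⟩
    exact ⟨h1, ⟨le_rfl, by norm_num⟩, h2⟩

theorem iC_r {y : Fin (2 + 2) → ℝ} (h : y 2 = 0) : iC (rC y) = y :=
  ext4 rfl rfl h.symm rfl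

theorem C_body : iC '' Body true 1 = Facet true 2 2 false := by
  refine img (ρ := rC) ?_ ?_
  · intro x hx
    exact ⟨(iC_body x).2 hx, rfl⟩
  · intro y hy
    have e := iC_r hy.2
    refine ⟨?_, e⟩
    rw [← iC_body, e]
    exact hy.1

theorem C_facet (i : Fin (1 + 2)) (i' : Fin (2 + 2)) (b : Bool)
    (h : ∀ y : Fin (1 + 2) → ℝ, (if b then Hi true i y else y i) =
      (if b then Hi true i' (iC y) else iC y i')) :
    iC '' Facet true 1 i b = Facet true 2 i' b ∩ Facet true 2 2 false := by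
  refine img (ρ := rC) ?_ ?_
  · intro x hx
    refine ⟨⟨(iC_body x).2 hx.1, ?_⟩, ⟨(iC_body x).2 hx.1, rfl⟩⟩
    rw [← h]
    exact hx.2
  · rintro y ⟨hy1, hy2⟩
    have e := iC_r hy2.2
    refine ⟨⟨?_, ?_⟩, e⟩
    · rw [← iC_body, e]
      exact hy1.1
    · rw [h, e]
      exact hy1.2

theorem caseC (hB : StBase) (hW : StW) {k z j : ℕ} (hk : k < 18) (hz : z < 2) (hj : j < 3)
    {f : (Fin (2 + 2) → ℝ) → (ℂ × ℂ) × ℂ} (h : Ch k z j f) :
    IsBlock true 1 (f ∘ iC) ∧ (f ∘ iC) '' Body true 1 = cell (18 + k, z, j) ∧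
    (f ∘ iC) '' Facet true 1 1 true = cell (45 + sv k, z, j) ∧
    (f ∘ iC) '' Facet true 1 1 false = cell (18 + k, 2, j) ∧
    (f ∘ iC) '' Facet true 1 2 true = cell (18 + k, z, 3 + (j + 1) % 3) ∧
    (f ∘ iC) '' Facet true 1 2 false = cell (18 + k, z, 3 + j) := by
  obtain ⟨b1, b2, b3, b4, b5, b6, b7, b8, b9, n1, n2, n3, n4⟩ := bmA k hk
  obtain ⟨w1, w2, w3, w4, w5, w6⟩ := wmA hj
  obtain ⟨z1, z2, z3⟩ := zmA hz
  refine ⟨?_, ?_, ?_, ?_, ?_, ?_⟩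
  · exact comp h.bl iC rC univ univ isOpen_univ isOpen_univ iC_smooth rC_smooth.contDiffOn
      (fun _ _ => mem_univ _) (fun x _ => ext3 rfl rfl rfl) (subset_univ _)
      (fun x hx => (iC_body x).2 hx)
  · rw [image_comp, C_body, h.f2f]
  · rw [image_comp, C_facet 1 1 true (fun y => rfl), h.inter, h.f1t, h.f2f]
    exact inter_cell hB hW (by simp; omega) (by simp; omega) (by simp; omega) (by simp; omega)
      (by simp; omega) (by simp; omega) (by simp; omega) (by simp; omega) (by simp; omega)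
      b5 z1 w3
  · rw [image_comp, C_facet 1 1 false (fun y => rfl), h.inter, h.f1f, h.f2f]
    exact inter_cell hB hW (by simp; omega) (by simp; omega) (by simp; omega) (by simp)
      (by simp; omega) (by simp) (by simp; omega) (by simp; omega) (by simp; omega)
      b6 z2 w3
  · rw [image_comp, C_facet 2 3 true (fun y => rfl), h.inter, h.f3t, h.f2f]
    exact inter_cell hB hW (by simp; omega) (by simp; omega) (by simp; omega) (by simp; omega)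
      (by simp; omega) (by simp; omega) (by simp; omega) (by simp; omega) (by simp; omega)
      b6 z1 w6
  · rw [image_comp, C_facet 2 3 false (fun y => rfl), h.inter, h.f3f, h.f2f]
    exact inter_cell hB hW (by simp; omega) (by simp; omega) (by simp; omega) (by simp; omega)
      (by simp; omega) (by simp; omega) (by simp; omega) (by simp; omega) (by simp; omega)
      b6 z1 w5

end B3x22

end Tri

end Pool.Agent.Lib.MP_84984d_gt
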