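import Pool.Agent.Lib.MP_84984d_gt.Tri.B3x22

set_option autoImplicit false

/-!
MODULE B3 from MODULE B4, second part: the cubes, and the assembly (helper22).
-/

namespace Pool.Agent.Lib.MP_84984d_gt

open Set

namespace Tri

namespace B3x22

open scoped ContDiff

/-! ### case B: `y 1 = 0` -/

/-- the inclusion `y 1 = 0` of a cube -/
noncomputable def iB (t : Fin (1 + 2) → ℝ) : Fin (2 + 2) → ℝ := ![2 * t 0 - 1, 0, t 1, t 2]

/-- its left inverse -/
noncomputable def rB (y : Fin (2 + 2) → ℝ) : Fin (1 + 2) → ℝ := ![(y 0 + 1) / 2, y 2, y 3]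

theorem iB_smooth : ContDiff ℝ ∞ iB := by
  rw [contDiff_pi]
  intro i
  fin_cases i
  · show ContDiff ℝ ∞ (fun t : Fin (1 + 2) → ℝ => 2 * t 0 - 1)
    fun_prop
  · exact contDiff_const
  · exact contDiff_apply ℝ ℝ 1
  · exact contDiff_apply ℝ ℝ 2

theorem rB_smooth : ContDiff ℝ ∞ rB := by
  rw [contDiff_pi]
  intro i
  fin_cases i
  · show ContDiff ℝ ∞ (fun y : Fin (2 + 2) → ℝ => (y 0 + 1) / 2)
    fun_prop
  · exact contDiff_apply ℝ ℝ 2
  · exact contDiff_apply ℝ ℝ 3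

theorem iB_0 (t : Fin (1 + 2) → ℝ) : iB t 0 = 2 * t 0 - 1 := rfl
theorem iB_1 (t : Fin (1 + 2) → ℝ) : iB t 1 = 0 := rfl
theorem iB_2 (t : Fin (1 + 2) → ℝ) : iB t 2 = t 1 := rfl
theorem iB_3 (t : Fin (1 + 2) → ℝ) : iB t 3 = t 2 := rfl
theorem rB_0 (y : Fin (2 + 2) → ℝ) : rB y 0 = (y 0 + 1) / 2 := rfl

theorem iB_body (t : Fin (1 + 2) → ℝ) : iB t ∈ Body true 2 ↔ t ∈ Body false 1 := by
  rw [mb4, mc3, iB_0, iB_1, iB_2, iB_3]
  constructor
  · rintro ⟨⟨-, h1⟩, h2, h3⟩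
    refine ⟨⟨?_, ?_⟩, h2, h3⟩
    · nlinarith
    · nlinarith
  · rintro ⟨⟨h0, h1⟩, h2, h3⟩
    refine ⟨⟨le_rfl, ?_⟩, h2, h3⟩
    nlinarith [mul_nonneg h0 h1]

theorem iB_r {y : Fin (2 + 2) → ℝ} (h : y 1 = 0) : iB (rB y) = y := by
  refine ext4 ?_ h.symm rfl rfl
  rw [iB_0, rB_0]
  ring

theorem B_body : iB '' Body false 1 = Facet true 2 1 false := by
  refine img (ρ := rB) ?_ ?_
  · intro x hx
    exact ⟨(iB_body x).2 hx, rfl⟩
  · intro y hy
    have e := iB_r hy.2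
    refine ⟨?_, e⟩
    rw [← iB_body, e]
    exact hy.1

theorem B_facet (i : Fin (1 + 2)) (i' : Fin (2 + 2)) (b : Bool)
    (h : ∀ y : Fin (1 + 2) → ℝ, (if b then Hi false i y else y i) =
      (if b then Hi true i' (iB y) else iB y i')) :
    iB '' Facet false 1 i b = Facet true 2 i' b ∩ Facet true 2 1 false := by
  refine img (ρ := rB) ?_ ?_
  · intro x hx
    refine ⟨⟨(iB_body x).2 hx.1, ?_⟩, ⟨(iB_body x).2 hx.1, rfl⟩⟩
    rw [← h]
    exact hx.2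
  · rintro y ⟨hy1, hy2⟩
    have e := iB_r hy2.2
    refine ⟨⟨?_, ?_⟩, e⟩
    · rw [← iB_body, e]
      exact hy1.1
    · rw [h, e]
      exact hy1.2

theorem B_f0 : iB '' Facet false 1 0 false =
    (Facet true 2 1 true ∩ Facet true 2 1 false) ∩ {y | y 0 ≤ 0} := by
  refine img (ρ := rB) ?_ ?_
  · intro x hx
    have hx0 : x 0 = 0 := hx.2
    refine ⟨⟨⟨(iB_body x).2 hx.1, ?_⟩, ⟨(iB_body x).2 hx.1, rfl⟩⟩, ?_⟩
    · show 1 - iB x 0 ^ 2 - iB x 1 ^ 2 = 0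
      rw [iB_0, iB_1, hx0]
      norm_num
    · show iB x 0 ≤ 0
      rw [iB_0, hx0]
      norm_num
  · rintro y ⟨⟨hy1, hy2⟩, hy3⟩
    have e := iB_r hy2.2
    have h1 : 1 - y 0 ^ 2 - y 1 ^ 2 = 0 := hy1.2
    have h2 : y 1 = 0 := hy2.2
    have h3 : y 0 ≤ 0 := hy3
    rw [h2] at h1
    have h4 : y 0 = -1 := by nlinarith
    refine ⟨⟨?_, ?_⟩, e⟩
    · rw [← iB_body, e]
      exact hy1.1
    · show rB y 0 = 0
      rw [rB_0, h4]
      norm_num

theorem B_f1 : iB '' Facet false 1 0 true =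
    (Facet true 2 1 true ∩ Facet true 2 1 false) ∩ {y | 0 ≤ y 0} := by
  refine img (ρ := rB) ?_ ?_
  · intro x hx
    have hx0' : 1 - x 0 = 0 := hx.2
    have hx0 : x 0 = 1 := by linarith
    refine ⟨⟨⟨(iB_body x).2 hx.1, ?_⟩, ⟨(iB_body x).2 hx.1, rfl⟩⟩, ?_⟩
    · show 1 - iB x 0 ^ 2 - iB x 1 ^ 2 = 0
      rw [iB_0, iB_1, hx0]
      norm_num
    · show 0 ≤ iB x 0
      rw [iB_0, hx0]
      norm_num
  · rintro y ⟨⟨hy1, hy2⟩, hy3⟩
    have e := iB_r hy2.2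
    have h1 : 1 - y 0 ^ 2 - y 1 ^ 2 = 0 := hy1.2
    have h2 : y 1 = 0 := hy2.2
    have h3 : 0 ≤ y 0 := hy3
    rw [h2] at h1
    have h4 : y 0 = 1 := by nlinarith
    refine ⟨⟨?_, ?_⟩, e⟩
    · rw [← iB_body, e]
      exact hy1.1
    · show 1 - rB y 0 = 0
      rw [rB_0, h4]
      norm_num

/-! ### the two ends of the half circle -/

theorem z4 (c : ℕ × ℕ × ℕ) : cell (c.1, 2, c.2.2) ∩ {p | p.1.2.re ≤ 0} = cell (c.1, 4, c.2.2) := by
  ext p
  constructor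
  · rintro ⟨⟨h1, h2, h3, h4, h5⟩, h6⟩
    exact ⟨h1, h2, h3, ⟨h4, h6⟩, h5⟩
  · rintro ⟨h1, h2, h3, ⟨h4, h6⟩, h5⟩
    exact ⟨⟨h1, h2, h3, h4, h5⟩, h6⟩

theorem z3 (c : ℕ × ℕ × ℕ) : cell (c.1, 2, c.2.2) ∩ {p | 0 ≤ p.1.2.re} = cell (c.1, 3, c.2.2) := by
  ext p
  constructor
  · rintro ⟨⟨h1, h2, h3, h4, h5⟩, h6⟩
    exact ⟨h1, h2, h3, ⟨h4, h6⟩, h5⟩
  · rintro ⟨h1, h2, h3, ⟨h4, h6⟩, h5⟩
    exact ⟨⟨h1, h2, h3, h4, h5⟩, h6⟩

variable {k z j : ℕ} {f : (Fin (2 + 2) → ℝ) → (ℂ × ℂ) × ℂ}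

theorem Ch.neg (h : Ch k z j f) {T : Set (Fin (2 + 2) → ℝ)} (hT : T ⊆ Body true 2) :
    f '' (T ∩ {y | y 0 ≤ 0}) = f '' T ∩ {p | p.1.2.re ≤ 0} := by
  ext p
  constructor
  · rintro ⟨y, ⟨hy, hy0⟩, rfl⟩
    exact ⟨⟨y, hy, rfl⟩, (h.re2 y (hT hy)).2 hy0⟩
  · rintro ⟨⟨y, hy, rfl⟩, hp⟩
    exact ⟨y, ⟨hy, (h.re2 y (hT hy)).1 hp⟩, rfl⟩

theorem Ch.pos (h : Ch k z j f) {T : Set (Fin (2 + 2) → ℝ)} (hT : T ⊆ Body true 2) :
    f '' (T ∩ {y | 0 ≤ y 0}) = f '' T ∩ {p | 0 ≤ p.1.2.re} := by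
  ext p
  constructor
  · rintro ⟨y, ⟨hy, hy0⟩, rfl⟩
    exact ⟨⟨y, hy, rfl⟩, (h.re1 y (hT hy)).2 hy0⟩
  · rintro ⟨⟨y, hy, rfl⟩, hp⟩
    exact ⟨y, ⟨hy, (h.re1 y (hT hy)).1 hp⟩, rfl⟩

theorem ends (hB : StBase) (hW : StW) (hk : k < 18) (hz : z < 2) (hj : j < 3) (h : Ch k z j f) :
    f '' (Facet true 2 1 true ∩ Facet true 2 1 false) = cell (36 + co k, 2, j) := by
  obtain ⟨b1, b2, b3, b4, b5, b6, b7, b8, b9, n1, n2, n3, n4⟩ := bmA k hk
  obtain ⟨w1, w2, w3, w4, w5, w6⟩ := wmA hj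
  obtain ⟨z1, z2, z3⟩ := zmA hz
  rw [h.inter, h.f1t, h.f1f]
  exact inter_cell hB hW (by simp; omega) (by simp; omega) (by simp; omega) (by simp; omega)
    (by simp) (by simp) (by simp; omega) (by simp; omega) (by simp; omega) b1 z3 w3

theorem caseB (hB : StBase) (hW : StW) (hk : k < 18) (hz : z < 2) (hj : j < 3)
    (h : Ch k z j f) :
    IsBlock false 1 (f ∘ iB) ∧ (f ∘ iB) '' Body false 1 = cell (k, 2, j) ∧
    (f ∘ iB) '' Facet false 1 0 true = cell (36 + co k, 3, j) ∧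
    (f ∘ iB) '' Facet false 1 0 false = cell (36 + co k, 4, j) ∧
    (f ∘ iB) '' Facet false 1 1 true = cell (18 + nx k, 2, j) ∧
    (f ∘ iB) '' Facet false 1 1 false = cell (18 + k, 2, j) ∧
    (f ∘ iB) '' Facet false 1 2 true = cell (k, 2, 3 + (j + 1) % 3) ∧
    (f ∘ iB) '' Facet false 1 2 false = cell (k, 2, 3 + j) := by
  obtain ⟨b1, b2, b3, b4, b5, b6, b7, b8, b9, n1, n2, n3, n4⟩ := bmA k hk
  obtain ⟨w1, w2, w3, w4, w5, w6⟩ := wmA hj
  obtain ⟨z1, z2, z3'⟩ := zmA hz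
  have hT : (Facet true 2 1 true ∩ Facet true 2 1 false) ⊆ Body true 2 := fun _ h => h.1.1
  refine ⟨?_, ?_, ?_, ?_, ?_, ?_, ?_, ?_⟩
  · refine comp h.bl iB rB univ univ isOpen_univ isOpen_univ iB_smooth rB_smooth.contDiffOn
      (fun _ _ => mem_univ _) (fun x _ => ext3 ?_ rfl rfl) (subset_univ _)
      (fun x hx => (iB_body x).2 hx)
    rw [rB_0, iB_0]
    ring
  · rw [image_comp, B_body, h.f1f]
  · rw [image_comp, B_f1, h.pos hT, ends hB hW hk hz hj h]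
    exact z3 (36 + co k, z, j)
  · rw [image_comp, B_f0, h.neg hT, ends hB hW hk hz hj h]
    exact z4 (36 + co k, z, j)
  · rw [image_comp, B_facet 1 2 true (fun y => rfl), h.inter, h.f2t, h.f1f]
    exact inter_cell hB hW (by simp; omega) (by simp; omega) (by simp; omega) (by simp; omega)
      (by simp) (by simp) (by simp; omega) (by simp; omega) (by simp; omega) b3 z3' w3
  · rw [image_comp, B_facet 1 2 false (fun y => rfl), h.inter, h.f2f, h.f1f]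
    exact inter_cell hB hW (by simp; omega) (by simp; omega) (by simp; omega) (by simp; omega)
      (by simp) (by simp) (by simp; omega) (by simp; omega) (by simp; omega) b4 z3' w3
  · rw [image_comp, B_facet 2 3 true (fun y => rfl), h.inter, h.f3t, h.f1f]
    exact inter_cell hB hW (by simp; omega) (by simp; omega) (by simp; omega) (by simp; omega)
      (by simp) (by simp) (by simp; omega) (by simp; omega) (by simp; omega) b2 z3' w6
  · rw [image_comp, B_facet 2 3 false (fun y => rfl), h.inter, h.f3f, h.f1f]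
    exact inter_cell hB hW (by simp; omega) (by simp; omega) (by simp; omega) (by simp; omega)
      (by simp) (by simp) (by simp; omega) (by simp; omega) (by simp; omega) b2 z3' w5

/-! ### case D: the half circle -/

/-- the half circle -/
noncomputable def iD (t : Fin (1 + 2) → ℝ) : Fin (2 + 2) → ℝ :=
  ![Real.cos (Real.pi * t 0), Real.sin (Real.pi * t 0), t 1, t 2]

/-- the smooth left inverse -/
noncomputable def rD (y : Fin (2 + 2) → ℝ) : Fin (1 + 2) → ℝ :=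
  ![1 / 2 + (Complex.log ((y 1 : ℂ) - (y 0 : ℂ) * Complex.I)).im / Real.pi, y 2, y 3]

/-- the left inverse on the half circle -/
noncomputable def rE (y : Fin (2 + 2) → ℝ) : Fin (1 + 2) → ℝ :=
  ![Real.arccos (y 0) / Real.pi, y 2, y 3]

/-- the domain of the left inverse -/
def WD : Set (Fin (2 + 2) → ℝ) := {y | (y 1 : ℂ) - (y 0 : ℂ) * Complex.I ∈ Complex.slitPlane}

theorem iD_0 (t : Fin (1 + 2) → ℝ) : iD t 0 = Real.cos (Real.pi * t 0) := rfl
theorem iD_1 (t : Fin (1 + 2) → ℝ) : iD t 1 = Real.sin (Real.pi * t 0) := rfl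
theorem iD_2 (t : Fin (1 + 2) → ℝ) : iD t 2 = t 1 := rfl
theorem iD_3 (t : Fin (1 + 2) → ℝ) : iD t 3 = t 2 := rfl
theorem rE_0 (y : Fin (2 + 2) → ℝ) : rE y 0 = Real.arccos (y 0) / Real.pi := rfl
theorem rD_0 (y : Fin (2 + 2) → ℝ) : rD y 0 =
  1 / 2 + (Complex.log ((y 1 : ℂ) - (y 0 : ℂ) * Complex.I)).im / Real.pi := rfl

theorem iD_smooth : ContDiff ℝ ∞ iD := by
  rw [contDiff_pi]
  intro i
  fin_cases i
  · show ContDiff ℝ ∞ (fun t : Fin (1 + 2) → ℝ => Real.cos (Real.pi * t 0))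
    exact Real.contDiff_cos.comp (contDiff_const.mul (contDiff_apply ℝ ℝ 0))
  · show ContDiff ℝ ∞ (fun t : Fin (1 + 2) → ℝ => Real.sin (Real.pi * t 0))
    exact Real.contDiff_sin.comp (contDiff_const.mul (contDiff_apply ℝ ℝ 0))
  · exact contDiff_apply ℝ ℝ 1
  · exact contDiff_apply ℝ ℝ 2

theorem lin_smooth : ContDiff ℝ ∞
    (fun y : Fin (2 + 2) → ℝ => (y 1 : ℂ) - (y 0 : ℂ) * Complex.I) := by
  have h1 : ContDiff ℝ ∞ (fun y : Fin (2 + 2) → ℝ => (y 1 : ℂ)) :=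
    Complex.ofRealCLM.contDiff.comp (contDiff_apply ℝ ℝ 1)
  have h0 : ContDiff ℝ ∞ (fun y : Fin (2 + 2) → ℝ => (y 0 : ℂ)) :=
    Complex.ofRealCLM.contDiff.comp (contDiff_apply ℝ ℝ 0)
  exact h1.sub (h0.mul contDiff_const)

theorem WD_open : IsOpen WD := Complex.isOpen_slitPlane.preimage lin_smooth.continuous

theorem rD_smooth : ContDiffOn ℝ ∞ rD WD := by
  rw [contDiffOn_pi]
  intro i
  fin_cases i
  · intro y hy
    have h1 : ContDiffAt ℝ ∞ Complex.log ((y 1 : ℂ) - (y 0 : ℂ) * Complex.I) :=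
      (Complex.contDiffAt_log hy).restrict_scalars ℝ
    have h3 : ContDiffAt ℝ ∞ (fun y : Fin (2 + 2) → ℝ =>
        Complex.log ((y 1 : ℂ) - (y 0 : ℂ) * Complex.I)) y :=
      ContDiffAt.comp (g := Complex.log) y h1 lin_smooth.contDiffAt
    have h4 : ContDiffAt ℝ ∞ (fun y : Fin (2 + 2) → ℝ =>
        (Complex.log ((y 1 : ℂ) - (y 0 : ℂ) * Complex.I)).im) y :=
      Complex.imCLM.contDiff.contDiffAt.comp y h3
    exact (contDiffAt_const.add (h4.div_const _)).contDiffWithinAt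
  · exact (contDiff_apply ℝ ℝ 2).contDiffOn
  · exact (contDiff_apply ℝ ℝ 3).contDiffOn

theorem turn (φ : ℝ) : ((Real.sin φ : ℝ) : ℂ) - ((Real.cos φ : ℝ) : ℂ) * Complex.I =
    Complex.exp (((φ - Real.pi / 2 : ℝ) : ℂ) * Complex.I) := by
  rw [Complex.exp_mul_I, ← Complex.ofReal_cos, ← Complex.ofReal_sin, Real.cos_sub_pi_div_two,
    Real.sin_sub_pi_div_two]
  push_cast
  ring

theorem turn_arg {φ : ℝ} (h1 : -(Real.pi / 2) < φ) (h2 : φ < 3 * Real.pi / 2) :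
    (((Real.sin φ : ℝ) : ℂ) - ((Real.cos φ : ℝ) : ℂ) * Complex.I).arg = φ - Real.pi / 2 := by
  rw [turn, Complex.arg_exp_mul_I]
  exact (toIocMod_eq_self Real.two_pi_pos).2 ⟨by linarith, by linarith⟩

/-- the parameter domain -/
def AD : Set (Fin (1 + 2) → ℝ) := {t | -(1 / 2) < t 0 ∧ t 0 < 3 / 2}

theorem AD_open : IsOpen AD := by
  have h : Continuous (fun t : Fin (1 + 2) → ℝ => t 0) := continuous_apply 0
  exact (isOpen_lt continuous_const h).inter (isOpen_lt h continuous_const)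

theorem AD_ang {t : Fin (1 + 2) → ℝ} (ht : t ∈ AD) :
    -(Real.pi / 2) < Real.pi * t 0 ∧ Real.pi * t 0 < 3 * Real.pi / 2 := by
  have hp := Real.pi_pos
  obtain ⟨h1, h2⟩ := ht
  constructor <;> nlinarith

theorem iD_W : MapsTo iD AD WD := by
  intro t ht
  obtain ⟨h1, h2⟩ := AD_ang ht
  show ((iD t 1 : ℝ) : ℂ) - ((iD t 0 : ℝ) : ℂ) * Complex.I ∈ Complex.slitPlane
  rw [iD_0, iD_1, Complex.mem_slitPlane_iff_arg]
  refine ⟨?_, ?_⟩
  · rw [turn_arg h1 h2]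
    intro h
    linarith
  · rw [turn]
    exact Complex.exp_ne_zero _

theorem rD_iD {t : Fin (1 + 2) → ℝ} (ht : t ∈ AD) : rD (iD t) = t := by
  obtain ⟨h1, h2⟩ := AD_ang ht
  refine ext3 ?_ rfl rfl
  rw [rD_0, iD_0, iD_1, Complex.log_im, turn_arg h1 h2]
  have hp := Real.pi_pos
  field_simp
  ring

theorem iD_mem {t : Fin (1 + 2) → ℝ} (ht : t ∈ Body false 1) :
    iD t ∈ Body true 2 ∧ 1 - iD t 0 ^ 2 - iD t 1 ^ 2 = 0 := by
  rw [mc3] at ht
  obtain ⟨⟨h0, h1⟩, h2, h3⟩ := ht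
  have hp := Real.pi_pos
  have e : 1 - iD t 0 ^ 2 - iD t 1 ^ 2 = 0 := by
    rw [iD_0, iD_1]
    have := Real.sin_sq_add_cos_sq (Real.pi * t 0)
    linarith
  refine ⟨?_, e⟩
  rw [mb4]
  refine ⟨⟨?_, ?_⟩, h2, h3⟩
  · rw [iD_1]
    apply Real.sin_nonneg_of_nonneg_of_le_pi
    · positivity
    · nlinarith
  · rw [e]

theorem rE_mem {y : Fin (2 + 2) → ℝ} (hy : y ∈ Body true 2) (h : 1 - y 0 ^ 2 - y 1 ^ 2 = 0) :
    rE y ∈ Body false 1 ∧ iD (rE y) = y := by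
  rw [mb4] at hy
  obtain ⟨⟨h1, -⟩, h2, h3⟩ := hy
  have hp := Real.pi_pos
  have hb : -1 ≤ y 0 ∧ y 0 ≤ 1 := by
    constructor <;> nlinarith [sq_nonneg (y 1)]
  have e0 : Real.pi * (Real.arccos (y 0) / Real.pi) = Real.arccos (y 0) := by field_simp
  constructor
  · rw [mc3]
    refine ⟨⟨?_, ?_⟩, h2, h3⟩
    · rw [rE_0]
      exact div_nonneg (Real.arccos_nonneg _) hp.le
    · rw [rE_0, sub_nonneg, div_le_one hp]
      exact Real.arccos_le_pi _
  · refine ext4 ?_ ?_ rfl rfl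
    · rw [iD_0, rE_0, e0, Real.cos_arccos hb.1 hb.2]
    · rw [iD_1, rE_0, e0, Real.sin_arccos]
      have h4 : 1 - y 0 ^ 2 = y 1 ^ 2 := by linarith
      rw [h4, Real.sqrt_sq h1]

theorem D_body : iD '' Body false 1 = Facet true 2 1 true :=
  img (ρ := rE) (fun _ hx => iD_mem hx) (fun _ hy => rE_mem hy.1 hy.2)

theorem D_facet (i : Fin (1 + 2)) (i' : Fin (2 + 2)) (b : Bool)
    (h : ∀ y : Fin (1 + 2) → ℝ, (if b then Hi false i y else y i) =
      (if b then Hi true i' (iD y) else iD y i')) :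
    iD '' Facet false 1 i b = Facet true 2 i' b ∩ Facet true 2 1 true := by
  refine img (ρ := rE) ?_ ?_
  · intro x hx
    obtain ⟨e1, e2⟩ := iD_mem hx.1
    refine ⟨⟨e1, ?_⟩, ⟨e1, e2⟩⟩
    rw [← h]
    exact hx.2
  · rintro y ⟨hy1, hy2⟩
    obtain ⟨e1, e2⟩ := rE_mem hy2.1 hy2.2
    refine ⟨⟨e1, ?_⟩, e2⟩
    rw [h, e2]
    exact hy1.2

theorem D_f0 : iD '' Facet false 1 0 false =
    (Facet true 2 1 true ∩ Facet true 2 1 false) ∩ {y | 0 ≤ y 0} := by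
  refine img (ρ := rE) ?_ ?_
  · intro x hx
    obtain ⟨e1, e2⟩ := iD_mem hx.1
    have hx0 : x 0 = 0 := hx.2
    refine ⟨⟨⟨e1, e2⟩, ⟨e1, ?_⟩⟩, ?_⟩
    · show iD x 1 = 0
      rw [iD_1, hx0, mul_zero, Real.sin_zero]
    · show 0 ≤ iD x 0
      rw [iD_0, hx0, mul_zero, Real.cos_zero]
      norm_num
  · rintro y ⟨⟨hy1, hy2⟩, hy3⟩
    obtain ⟨e1, e2⟩ := rE_mem hy1.1 hy1.2
    have h1 : 1 - y 0 ^ 2 - y 1 ^ 2 = 0 := hy1.2
    have h2 : y 1 = 0 := hy2.2
    have h3 : 0 ≤ y 0 := hy3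
    rw [h2] at h1
    have h4 : y 0 = 1 := by nlinarith
    refine ⟨⟨e1, ?_⟩, e2⟩
    show rE y 0 = 0
    rw [rE_0, h4, Real.arccos_one, zero_div]

theorem D_f1 : iD '' Facet false 1 0 true =
    (Facet true 2 1 true ∩ Facet true 2 1 false) ∩ {y | y 0 ≤ 0} := by
  have hp := Real.pi_pos
  refine img (ρ := rE) ?_ ?_
  · intro x hx
    obtain ⟨e1, e2⟩ := iD_mem hx.1
    have hx0' : 1 - x 0 = 0 := hx.2
    have hx0 : x 0 = 1 := by linarith
    refine ⟨⟨⟨e1, e2⟩, ⟨e1, ?_⟩⟩, ?_⟩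
    · show iD x 1 = 0
      rw [iD_1, hx0, mul_one, Real.sin_pi]
    · show iD x 0 ≤ 0
      rw [iD_0, hx0, mul_one, Real.cos_pi]
      norm_num
  · rintro y ⟨⟨hy1, hy2⟩, hy3⟩
    obtain ⟨e1, e2⟩ := rE_mem hy1.1 hy1.2
    have h1 : 1 - y 0 ^ 2 - y 1 ^ 2 = 0 := hy1.2
    have h2 : y 1 = 0 := hy2.2
    have h3 : y 0 ≤ 0 := hy3
    rw [h2] at h1
    have h4 : y 0 = -1 := by nlinarith
    refine ⟨⟨e1, ?_⟩, e2⟩
    show 1 - rE y 0 = 0
    rw [rE_0, h4, Real.arccos_neg_one, div_self hp.ne', sub_self]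

theorem caseD (hB : StBase) (hW : StW) (hk : k < 18) (hz : z < 2) (hj : j < 3)
    (h : Ch k z j f) :
    IsBlock false 1 (f ∘ iD) ∧ (f ∘ iD) '' Body false 1 = cell (36 + co k, z, j) ∧
    (f ∘ iD) '' Facet false 1 0 true = cell (36 + co k, 4, j) ∧
    (f ∘ iD) '' Facet false 1 0 false = cell (36 + co k, 3, j) ∧
    (f ∘ iD) '' Facet false 1 1 true = cell (45 + sv (nx k), z, j) ∧
    (f ∘ iD) '' Facet false 1 1 false = cell (45 + sv k, z, j) ∧
    (f ∘ iD) '' Facet false 1 2 true = cell (36 + co k, z, 3 + (j + 1) % 3) ∧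
    (f ∘ iD) '' Facet false 1 2 false = cell (36 + co k, z, 3 + j) := by
  obtain ⟨b1, b2, b3, b4, b5, b6, b7, b8, b9, n1, n2, n3, n4⟩ := bmA k hk
  obtain ⟨w1, w2, w3, w4, w5, w6⟩ := wmA hj
  obtain ⟨z1, z2, z3'⟩ := zmA hz
  have hT : (Facet true 2 1 true ∩ Facet true 2 1 false) ⊆ Body true 2 := fun _ h => h.1.1
  refine ⟨?_, ?_, ?_, ?_, ?_, ?_, ?_, ?_⟩
  · refine comp h.bl iD rD AD WD AD_open WD_open iD_smooth rD_smooth iD_W (fun x hx => rD_iD hx)
      (fun x hx => ?_) (fun x hx => (iD_mem hx).1)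
    rw [mc3] at hx
    exact ⟨by linarith [hx.1.1], by linarith [hx.1.2]⟩
  · rw [image_comp, D_body, h.f1t]
  · rw [image_comp, D_f1, h.neg hT, ends hB hW hk hz hj h]
    exact z4 (36 + co k, z, j)
  · rw [image_comp, D_f0, h.pos hT, ends hB hW hk hz hj h]
    exact z3 (36 + co k, z, j)
  · rw [image_comp, D_facet 1 2 true (fun y => rfl), h.inter, h.f2t, h.f1t]
    exact inter_cell hB hW (by simp; omega) (by simp; omega) (by simp; omega) (by simp; omega)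
      (by simp; omega) (by simp; omega) (by simp; omega) (by simp; omega) (by simp; omega) b7 z1 w3
  · rw [image_comp, D_facet 1 2 false (fun y => rfl), h.inter, h.f2f, h.f1t]
    exact inter_cell hB hW (by simp; omega) (by simp; omega) (by simp; omega) (by simp; omega)
      (by simp; omega) (by simp; omega) (by simp; omega) (by simp; omega) (by simp; omega) b8 z1 w3
  · rw [image_comp, D_facet 2 3 true (fun y => rfl), h.inter, h.f3t, h.f1t]
    exact inter_cell hB hW (by simp; omega) (by simp; omega) (by simp; omega) (by simp; omega)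
      (by simp; omega) (by simp; omega) (by simp; omega) (by simp; omega) (by simp; omega) b9 z1 w6
  · rw [image_comp, D_facet 2 3 false (fun y => rfl), h.inter, h.f3f, h.f1t]
    exact inter_cell hB hW (by simp; omega) (by simp; omega) (by simp; omega) (by simp; omega)
      (by simp; omega) (by simp; omega) (by simp; omega) (by simp; omega) (by simp; omega) b9 z1 w5

end B3x22

open B3x22 in
/-- **MODULE B3 from MODULE B4** -/
theorem stBlock3_22 (hB : StBase) (hW : StW) (h4 : StBlock4) : StBlock3 := by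
  rintro ⟨k, z, w⟩ hc
  rcases hc with ⟨hk, hz, hw3, hw6⟩ | ⟨hk, hz, hw⟩ | ⟨h18, h45, hz, hw⟩
  · simp only at hk hz hw3 hw6
    obtain ⟨j, rfl⟩ : ∃ j, w = 3 + j := ⟨w - 3, by omega⟩
    have hj : j < 3 := by omega
    obtain ⟨f, hf⟩ := exists_ch h4 hk hz hj
    obtain ⟨a1, a2, a3, a4, a5, a6⟩ := caseA hB hW hk hz hj hf
    have hz2 : ¬ z = 2 := by omega
    have hsh : sh3 (k, z, 3 + j) = true := by
      simp only [sh3, if_pos hk]
      simp [hz2]
    rw [hsh]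
    refine ⟨f ∘ iA, a1, a2, ?_⟩
    intro i hi b
    have hi0 : i ≠ 0 := hi rfl
    simp only [fc3, if_pos hk, if_neg hz2]
    fin_cases i
    · exact (hi0 rfl).elim
    · cases b
      · exact a4
      · exact a3
    · cases b
      · exact a6
      · exact a5
  · simp only at hk hz hw
    subst hz
    obtain ⟨f, hf⟩ := exists_ch h4 hk (show 0 < 2 by norm_num) hw
    obtain ⟨a1, a2, a3, a4, a5, a6, a7, a8⟩ := caseB hB hW hk (by norm_num) hw hf
    have hsh : sh3 (k, 2, w) = false := by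
      simp only [sh3, if_pos hk]
      decide
    rw [hsh]
    refine ⟨f ∘ iB, a1, a2, ?_⟩
    intro i _ b
    simp only [fc3, if_pos hk, if_true]
    fin_cases i
    · cases b
      · exact a4
      · exact a3
    · cases b
      · exact a6
      · exact a5
    · cases b
      · exact a8
      · exact a7
  · simp only at h18 h45 hz hw
    have h18' : ¬ k < 18 := by omega
    by_cases h36 : k < 36
    · obtain ⟨l, rfl⟩ : ∃ l, k = 18 + l := ⟨k - 18, by omega⟩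
      have hl : l < 18 := by omega
      obtain ⟨f, hf⟩ := exists_ch h4 hl hz hw
      obtain ⟨a1, a2, a3, a4, a5, a6⟩ := caseC hB hW hl hz hw hf
      have hsh : sh3 (18 + l, z, w) = true := by
        simp only [sh3, if_neg h18']
        simp [h36]
      have hs : 18 + l - 18 = l := by omega
      rw [hsh]
      refine ⟨f ∘ iC, a1, a2, ?_⟩
      intro i hi b
      have hi0 : i ≠ 0 := hi rfl
      simp only [fc3, if_neg h18', if_pos h36, hs]
      fin_cases i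
      · exact (hi0 rfl).elim
      · cases b
        · exact a4
        · exact a3
      · cases b
        · exact a6
        · exact a5
    · obtain ⟨l, rfl⟩ : ∃ l, k = 36 + l := ⟨k - 36, by omega⟩
      have hl : l < 9 := by omega
      obtain ⟨hc1, hc2⟩ := cfA l hl
      obtain ⟨f, hf⟩ := exists_ch h4 hc1 hz hw
      obtain ⟨a1, a2, a3, a4, a5, a6, a7, a8⟩ := caseD hB hW hc1 hz hw hf
      rw [hc2] at a2 a3 a4 a7 a8
      have hsh : sh3 (36 + l, z, w) = false := by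
        simp only [sh3, if_neg h18']
        simp [h36]
      have hs : 36 + l - 36 = l := by omega
      rw [hsh]
      refine ⟨f ∘ iD, a1, a2, ?_⟩
      intro i _ b
      simp only [fc3, if_neg h18', if_neg h36, hs]
      fin_cases i
      · cases b
        · exact a4
        · exact a3
      · cases b
        · exact a6
        · exact a5
      · cases b
        · exact a8
        · exact a7

end Tri

end Pool.Agent.Lib.MP_84984d_gt
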