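import Pool.Agent.Lib.MP_84984d_gt.Tri.Sec92

set_option autoImplicit false

/-!
The 4-blocks: the instances (helper92).
-/

namespace Pool.Agent.Lib.MP_84984d_gt.Tri

open Set
open scoped ContDiff

/-- A smooth coordinate on the arcs. -/
def StArc : Prop := ∀ j < 3, ∃ (V : Set ℂ) (T : ℂ → ℝ), IsOpen V ∧ ContDiffOn ℝ ∞ T V ∧
  ∀ t : ℝ, -(1 / 2) < t → t < 3 / 2 → ew ((j : ℕ) + t) ∈ V ∧ T (ew ((j : ℕ) + t)) = t

/-- Intersections of cells of the base. -/
theorem bs_inter (hB : StBase) {κ κ' κ'' : ℕ} (h1 : κ < 53) (h2 : κ' < 53) (h3 : κ'' < 53)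
    (h : bm κ &&& bm κ' = bm κ'') {x : ℂ} (hx : 0 ≤ GG 2 x) :
    x ∈ bs κ'' ↔ x ∈ bs κ ∧ x ∈ bs κ' := by
  obtain ⟨s, _, hs⟩ := hB x hx
  rw [hs _ h1, hs _ h2, hs _ h3, ← h, Nat.testBit_and, Bool.and_eq_true]

theorem co_lt (k : ℕ) : co k < 9 := by
  by_cases h : k < 18
  · interval_cases k <;> decide
  · have : co k = 0 := by
      unfold co
      rw [List.getD_eq_default]
      simpa using h
    rw [this]
    norm_num

theorem nx_lt {k : ℕ} (h : k < 18) : nx k < 18 := by
  interval_cases k <;> decide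

theorem bm_ray {k : ℕ} (h : k < 18) : bm k &&& bm (18 + k) = bm (18 + k) := by
  interval_cases k <;> decide

theorem bm_ray' {k : ℕ} (h : k < 18) : bm k &&& bm (18 + nx k) = bm (18 + nx k) := by
  interval_cases k <;> decide

theorem bm_seg {k : ℕ} (h : k < 18) : bm k &&& bm (36 + co k) = bm (36 + co k) := by
  interval_cases k <;> decide

theorem bs_sec {k : ℕ} (h : k < 18) : bs k = sec k := by
  unfold bs
  rw [if_pos h]

theorem bs_ray {k : ℕ} (h : k < 18) {x : ℂ} : x ∈ bs (18 + k) ↔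
    x ∈ sec k ∧ l1 (ce k) (p1 k) x = 0 := by
  unfold bs
  rw [if_neg (by omega), if_pos (by omega)]
  simp only [Nat.add_sub_cancel_left]
  rfl

/-- The sign for the two halves. -/
def ee (z : ℕ) : ℝ := if z = 0 then 1 else -1

theorem ee_cases (z : ℕ) : ee z = 1 ∨ ee z = -1 := by
  unfold ee
  split_ifs
  · exact Or.inl rfl
  · exact Or.inr rfl

theorem mem_zs {z : ℕ} (hz : z < 2) {u : ℂ} : u ∈ zs z ↔ 0 ≤ ee z * u.im := by
  interval_cases z
  · simp [zs, ee]
  · simp [zs, ee]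

theorem cell_cG {k z w : ℕ} (hk : k < 18) (hz : z < 2) (hw : w < 3) :
    cell (k, z, w) = cG (ce k) (p1 k) (p2 k) (sg k) (ee z) w := by
  ext p
  unfold cell cG
  simp only [mem_ofPred_eq, bs_sec hk, mem_sec, mem_zs hz]
  unfold ws
  rw [if_pos hw]

theorem image_eq {A B : Type*} {f : A → B} {g : B → A} {K : Set A} {C : Set B}
    (h1 : ∀ y ∈ K, g (f y) = y ∧ f y ∈ C) (h2 : ∀ p ∈ C, g p ∈ K ∧ f (g p) = p)
    {S : Set A} (hS : S ⊆ K) : f '' S = {p | p ∈ C ∧ g p ∈ S} := by
  ext p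
  constructor
  · rintro ⟨y, hy, rfl⟩
    obtain ⟨h3, h4⟩ := h1 y (hS hy)
    refine ⟨h4, ?_⟩
    rw [h3]
    exact hy
  · rintro ⟨hp, hg⟩
    exact ⟨g p, hg, (h2 p hp).2⟩

theorem ew_per (t : ℝ) : ew (t + 3) = ew t := by
  unfold ew
  rw [show ((2 * Real.pi * (t + 3) / 3 : ℝ) : ℂ) * Complex.I =
    ((2 * Real.pi * t / 3 : ℝ) : ℂ) * Complex.I + 2 * Real.pi * Complex.I by push_cast; ring,
    Complex.exp_add, Complex.exp_two_pi_mul_I, mul_one]

theorem ws_pt {m : ℕ} : ws (3 + m) = {ew (m : ℝ)} := by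
  unfold ws
  rw [if_neg (by omega)]
  simp

theorem ws_next {j : ℕ} (hj : j < 3) : ws (3 + (j + 1) % 3) = {ew ((j : ℝ) + 1)} := by
  rw [ws_pt]
  interval_cases j
  · simp
  · norm_num
  · have := ew_per 0
    norm_num at this ⊢
    rw [this]

theorem ws_arc {j : ℕ} (hj : j < 3) {w : ℂ} :
    w ∈ ws j ↔ ∃ t : ℝ, (0 ≤ t ∧ t ≤ 1) ∧ ew ((j : ℝ) + t) = w := by
  unfold ws
  rw [if_pos hj]
  rfl

/-- The block lemma, in terms of the coordinates. -/
theorem block4 (hB : StBase) (hE : StEnd) (hC : StCore) (hA : StArc) : StBlock4 := by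
  intro k hk z hz w hw
  obtain ⟨V, T, hV, hTV, hT⟩ := hA w hw
  have hT' : ∀ t : ℝ, -(1 / 2) < t → t < 3 / 2 → T (ew (w + t)) = t :=
    fun t h1 h2 => (hT t h1 h2).2
  have he := ee_cases z
  have hσ := sg_cases k
  have hR := ra_pos k
  have hD := cr_pos hk
  have hH := hh_smooth k
  have hG := GG_hh k
  have hseg := seg_pos hk
  have hpos := hh_pos hk
  have hcell := cell_cG hk hz hw
  set f := ff (ce k) (p1 k) (p2 k) (ra k) (sg k) (ee z) (hh k) w with hf
  set g := gg (ce k) (p1 k) (p2 k) (ra k) (sg k) (ee z) (hh k) T with hg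
  have hfg : ∀ y ∈ Body true 2, g (f y) = y ∧ f y ∈ cell (k, z, w) := by
    intro y hy
    have h1 := ff_mem (j := w) he hR hD hG hseg hpos hy
    exact ⟨gg_ff he hD hT' h1.1, by rw [hcell]; exact h1.2⟩
  have hgf : ∀ p ∈ cell (k, z, w), g p ∈ Body true 2 ∧ f (g p) = p := by
    intro p hp
    rw [hcell] at hp
    exact gg_mem he hσ hR hD hG hseg hpos hT' hp
  refine ⟨f, ff_block he hR hD hH hG hseg hpos hV hTV hT, ?_, ?_, ?_⟩
  · rw [image_eq hfg hgf subset_rfl]
    ext p
    exact ⟨fun h => h.1, fun h => ⟨h, (hgf p h).1⟩⟩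
  · intro i hi b
    rw [image_eq hfg hgf (fun x hx => hx.1)]
    have hset : {p | p ∈ cell (k, z, w) ∧ g p ∈ Facet true 2 i b} =
        {p | p ∈ cell (k, z, w) ∧ (if b then Hi true i (g p) else g p i) = 0} := by
      ext p
      exact ⟨fun h => ⟨h.1, h.2.2⟩, fun h => ⟨h.1, (hgf p h.1).1, h.2⟩⟩
    rw [hset]
    have hfacts : ∀ p ∈ cell (k, z, w), _ := fun p hp =>
      gg_facts (e := ee z) (j := w) hσ hR hD hG hseg hpos (p := p) (by rw [← hcell]; exact hp)
    have hGG : ∀ p ∈ cell (k, z, w), 0 ≤ GG 2 p.1.1 := fun p hp => by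
      rw [← hp.1]; positivity
    fin_cases i
    · exact absurd rfl (hi rfl)
    · cases b with
      | false =>
        show {p | p ∈ cell (k, z, w) ∧ g p 1 = 0} = cell (k, 2, w)
        ext p
        have hzs : p.1.2 ∈ zs 2 ↔ p.1.2.im = 0 := by simp [zs]
        constructor
        · rintro ⟨h1, h2⟩
          have h3 := (hfacts p h1).2.2.2.2.1
          have h4 : ee z * p.1.2.im / qq (p1 k) (p2 k) (ra k) (sg k) (hh k)
            (ss (ce k) (p1 k) (p2 k) p.1.1) p.1.1 = 0 := h2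
          rw [div_eq_zero_iff] at h4
          have h5 := (mul_eq_zero.1 (h4.resolve_right h3.ne')).resolve_left
            (by rcases he with h | h <;> rw [h] <;> norm_num)
          exact ⟨h1.1, h1.2.1, h1.2.2.1, hzs.2 h5, h1.2.2.2.2⟩
        · intro h1
          have h2 := hzs.1 h1.2.2.2.1
          refine ⟨⟨h1.1, h1.2.1, h1.2.2.1, (mem_zs hz).2 (by rw [h2, mul_zero]), h1.2.2.2.2⟩, ?_⟩
          show ee z * p.1.2.im / _ = 0
          rw [h2, mul_zero, zero_div]
      | true =>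
        show {p | p ∈ cell (k, z, w) ∧ 1 - g p 0 ^ 2 - g p 1 ^ 2 = 0} = cell (36 + co k, z, w)
        have key : ∀ p ∈ cell (k, z, w), (1 - g p 0 ^ 2 - g p 1 ^ 2 = 0 ↔
            p.1.1 ∈ bs (36 + co k)) := by
          intro p hp
          obtain ⟨h1, h2, h3, h4, h5, h6⟩ := hfacts p hp
          have hρ := gg_rho (T := T) (j := w) he hσ hR hD hG hseg hpos (p := p)
            (by rw [← hcell]; exact hp)
          have hn := nn_pos hD (ss (ce k) (p1 k) (p2 k) p.1.1)
          have hμ := div_pos h1 hD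
          have h7 := rho_eq hσ hn hμ (hseg _ h2 h3) hρ
          have h8 : p.1.1 ∈ sec k := by rw [← bs_sec hk]; exact hp.2.2.1
          rw [← hC k hk _ h8, ln_eq]
          have h9 : (l1 (ce k) (p1 k) p.1.1 + l2 (ce k) (p2 k) p.1.1) / cr (p1 k) (p2 k) = 1 ↔
              cr (p1 k) (p2 k) - l1 (ce k) (p1 k) p.1.1 - l2 (ce k) (p2 k) p.1.1 = 0 := by
            rw [div_eq_one_iff_eq hD.ne']
            constructor <;> intro h <;> linarith
          rw [← h9, ← h7]
          constructor <;> intro h <;> linarith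
        ext p
        constructor
        · rintro ⟨h1, h2⟩
          exact ⟨h1.1, h1.2.1, (key p h1).1 h2, h1.2.2.2⟩
        · intro h1
          have h2 : p ∈ cell (k, z, w) := by
            refine ⟨h1.1, h1.2.1, ?_, h1.2.2.2⟩
            have h3 := (bs_inter hB (by omega) (by have := co_lt k; omega)
              (by have := co_lt k; omega) (bm_seg hk) (x := p.1.1) (by rw [← h1.1]; positivity)).1
              h1.2.2.1
            exact h3.1
          exact ⟨h2, (key p h2).2 h1.2.2.1⟩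
    · cases b with
      | false =>
        show {p | p ∈ cell (k, z, w) ∧ g p 2 = 0} = cell (18 + k, z, w)
        ext p
        constructor
        · rintro ⟨h1, h2⟩
          have h3 := (hfacts p h1).1
          have h4 : l1 (ce k) (p1 k) p.1.1 /
            (l1 (ce k) (p1 k) p.1.1 + l2 (ce k) (p2 k) p.1.1) = 0 := h2
          rw [div_eq_zero_iff] at h4
          refine ⟨h1.1, h1.2.1, (bs_ray hk).2 ⟨?_, h4.resolve_right h3.ne'⟩, h1.2.2.2⟩
          rw [← bs_sec hk]
          exact h1.2.2.1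
        · intro h1
          have h2 := (bs_ray hk).1 h1.2.2.1
          refine ⟨⟨h1.1, h1.2.1, ?_, h1.2.2.2⟩, ?_⟩
          · show p.1.1 ∈ bs k
            rw [bs_sec hk]
            exact h2.1
          · show l1 (ce k) (p1 k) p.1.1 / _ = 0
            rw [h2.2, zero_div]
      | true =>
        show {p | p ∈ cell (k, z, w) ∧ 1 - g p 2 = 0} = cell (18 + nx k, z, w)
        have key : ∀ p ∈ cell (k, z, w), (1 - g p 2 = 0 ↔ p.1.1 ∈ bs (18 + nx k)) := by
          intro p hp
          have h3 := (hfacts p hp).1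
          have h8 : p.1.1 ∈ sec k := by rw [← bs_sec hk]; exact hp.2.2.1
          rw [← hE k hk _ h8]
          show 1 - l1 (ce k) (p1 k) p.1.1 /
            (l1 (ce k) (p1 k) p.1.1 + l2 (ce k) (p2 k) p.1.1) = 0 ↔ l2 (ce k) (p2 k) p.1.1 = 0
          rw [sub_eq_zero, eq_comm, div_eq_one_iff_eq h3.ne']
          constructor <;> intro h <;> linarith
        ext p
        constructor
        · rintro ⟨h1, h2⟩
          exact ⟨h1.1, h1.2.1, (key p h1).1 h2, h1.2.2.2⟩
        · intro h1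
          have h2 : p ∈ cell (k, z, w) := by
            refine ⟨h1.1, h1.2.1, ?_, h1.2.2.2⟩
            have h3 := (bs_inter hB (by omega) (by have := nx_lt hk; omega)
              (by have := nx_lt hk; omega) (bm_ray' hk) (x := p.1.1)
              (by rw [← h1.1]; positivity)).1 h1.2.2.1
            exact h3.1
          exact ⟨h2, (key p h2).2 h1.2.2.1⟩
    · have hTp : ∀ p ∈ cell (k, z, w), ∃ t : ℝ, (0 ≤ t ∧ t ≤ 1) ∧ ew ((w : ℝ) + t) = p.2 ∧
          T p.2 = t := by
        intro p hp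
        obtain ⟨t, ht, ht'⟩ := (ws_arc hw).1 hp.2.2.2.2
        refine ⟨t, ht, ht', ?_⟩
        rw [← ht']
        exact hT' t (by linarith [ht.1]) (by linarith [ht.2])
      cases b with
      | false =>
        show {p | p ∈ cell (k, z, w) ∧ T p.2 = 0} = cell (k, z, 3 + w)
        ext p
        constructor
        · rintro ⟨h1, h2⟩
          obtain ⟨t, _, h3, h4⟩ := hTp p h1
          refine ⟨h1.1, h1.2.1, h1.2.2.1, h1.2.2.2.1, ?_⟩
          show p.2 ∈ ws (3 + w)
          rw [ws_pt, ← h3, ← h4, h2, add_zero]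
          rfl
        · intro h1
          have h2 : p.2 ∈ ws (3 + w) := h1.2.2.2.2
          rw [ws_pt] at h2
          have h2 : p.2 = ew w := h2
          have h3 := hT' 0 (by norm_num) (by norm_num)
          rw [add_zero] at h3
          refine ⟨⟨h1.1, h1.2.1, h1.2.2.1, h1.2.2.2.1, ?_⟩, by rw [h2]; exact h3⟩
          exact (ws_arc hw).2 ⟨0, by norm_num, by rw [add_zero, h2]⟩
      | true =>
        show {p | p ∈ cell (k, z, w) ∧ 1 - T p.2 = 0} = cell (k, z, 3 + (w + 1) % 3)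
        ext p
        constructor
        · rintro ⟨h1, h2⟩
          obtain ⟨t, _, h3, h4⟩ := hTp p h1
          refine ⟨h1.1, h1.2.1, h1.2.2.1, h1.2.2.2.1, ?_⟩
          show p.2 ∈ ws (3 + (w + 1) % 3)
          have h5 : t = 1 := by linarith
          rw [ws_next hw, ← h3, h5]
          rfl
        · intro h1
          have h2 : p.2 ∈ ws (3 + (w + 1) % 3) := h1.2.2.2.2
          rw [ws_next hw] at h2
          have h2 : p.2 = ew (w + 1) := h2
          have h3 := hT' 1 (by norm_num) (by norm_num)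
          refine ⟨⟨h1.1, h1.2.1, h1.2.2.1, h1.2.2.2.1, ?_⟩, by rw [h2, h3, sub_self]⟩
          exact (ws_arc hw).2 ⟨1, by norm_num, h2.symm⟩
  · intro y hy
    have h1 := (ff_mem (j := w) he hR hD hG hseg hpos hy).1
    have h2 : 0 < qq (p1 k) (p2 k) (ra k) (sg k) (hh k) (y 2) (xx (ce k) (p1 k) (p2 k) (ra k) y) :=
      Real.sqrt_pos.2 (mul_pos h1.1.1.2 h1.2)
    have h3 : (f y).1.2.re = y 0 * qq (p1 k) (p2 k) (ra k) (sg k) (hh k) (y 2)
      (xx (ce k) (p1 k) (p2 k) (ra k) y) := rfl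
    rw [h3]
    constructor
    · rw [mul_nonneg_iff_of_pos_right h2]
    · constructor
      · intro h
        by_contra h4
        exact absurd (mul_pos (not_le.1 h4) h2) (not_lt.2 h)
      · intro h
        exact mul_nonpos_of_nonpos_of_nonneg h h2.le

end Pool.Agent.Lib.MP_84984d_gt.Tri
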