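import Pool.Agent.Lib.MP_84984d_gt.Tri.Blk92

set_option autoImplicit false

/-!
The 3-blocks (helper92).
-/

namespace Pool.Agent.Lib.MP_84984d_gt.Tri

open Set
open scoped ContDiff

/-- Intersections of cells. -/
theorem cell_inter (hB : StBase) (hW : StW) {a a' a'' b b' b'' m m' m'' : ℕ}
    (ha : a < 53) (ha' : a' < 53) (ha'' : a'' < 53) (hb : b < 5) (hb' : b' < 5) (hb'' : b'' < 5)
    (hm : m < 6) (hm' : m' < 6) (hm'' : m'' < 6) (h1 : bm a &&& bm a' = bm a'')
    (h2 : zm b &&& zm b' = zm b'') (h3 : wm m &&& wm m' = wm m'') {p : (ℂ × ℂ) × ℂ} :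
    p ∈ cell (a'', b'', m'') ↔ p ∈ cell (a, b, m) ∧ p ∈ cell (a', b', m') := by
  have key : ∀ q : (ℂ × ℂ) × ℂ, ‖q.1.2‖ ^ 2 = GG 2 q.1.1 → ‖q.2‖ = 1 →
      ((q.1.1 ∈ bs a'' ∧ q.1.2 ∈ zs b'' ∧ q.2 ∈ ws m'') ↔
        (q.1.1 ∈ bs a ∧ q.1.2 ∈ zs b ∧ q.2 ∈ ws m) ∧
        (q.1.1 ∈ bs a' ∧ q.1.2 ∈ zs b' ∧ q.2 ∈ ws m')) := by
    intro q hq1 hq2
    have c1 := bs_inter hB ha ha' ha'' h1 (x := q.1.1) (by rw [← hq1]; positivity)
    obtain ⟨o, _, ho⟩ := hW q.2 hq2
    obtain ⟨u, _, _, hu⟩ := zs_open q.1.2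
    have c2 : q.1.2 ∈ zs b'' ↔ q.1.2 ∈ zs b ∧ q.1.2 ∈ zs b' := by
      rw [hu _ hb, hu _ hb', hu _ hb'', ← h2, Nat.testBit_and, Bool.and_eq_true]
    have c3 : q.2 ∈ ws m'' ↔ q.2 ∈ ws m ∧ q.2 ∈ ws m' := by
      rw [ho _ hm, ho _ hm', ho _ hm'', ← h3, Nat.testBit_and, Bool.and_eq_true]
    rw [c1, c2, c3]
    tauto
  constructor
  · rintro ⟨h1, h2, h3⟩
    obtain ⟨h4, h5⟩ := (key p h1 h2).1 h3
    exact ⟨⟨h1, h2, h4⟩, ⟨h1, h2, h5⟩⟩
  · rintro ⟨⟨h1, h2, h3⟩, _, _, h4⟩
    exact ⟨h1, h2, (key p h1 h2).2 ⟨h3, h4⟩⟩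

/-- The 4-block in terms of points. -/
theorem pt4 (h4 : StBlock4) {k z w : ℕ} (hk : k < 18) (hz : z < 2) (hw : w < 3) :
    ∃ (f : (Fin (2 + 2) → ℝ) → (ℂ × ℂ) × ℂ) (U : Set (Fin (2 + 2) → ℝ))
      (V : Set ((ℂ × ℂ) × ℂ)) (g : (ℂ × ℂ) × ℂ → Fin (2 + 2) → ℝ),
      (IsOpen U ∧ IsOpen V ∧ Body true 2 ⊆ U ∧ MapsTo f U V ∧ ContDiffOn ℝ ∞ f U ∧
        ContDiffOn ℝ ∞ g V ∧ ∀ x ∈ U, g (f x) = x) ∧
      (∀ y ∈ Body true 2, f y ∈ cell (k, z, w)) ∧
      (∀ p ∈ cell (k, z, w), g p ∈ Body true 2 ∧ f (g p) = p) ∧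
      (∀ i ∈ Dirs true 2, ∀ b, ∀ p ∈ cell (k, z, w), (p ∈ cell (fc4 (k, z, w) i b) ↔
        (if b then Hi true i (g p) else g p i) = 0)) ∧
      ∀ p ∈ cell (k, z, w), (0 ≤ p.1.2.re ↔ 0 ≤ g p 0) ∧ (p.1.2.re ≤ 0 ↔ g p 0 ≤ 0) := by
  obtain ⟨f, ⟨U, V, g, h1, h2, h3, h4', h5, h6, h7⟩, h8, h9, h10⟩ := h4 k hk z hz w hw
  have hg : ∀ p ∈ cell (k, z, w), g p ∈ Body true 2 ∧ f (g p) = p := by
    intro p hp
    rw [← h8] at hp
    obtain ⟨y, hy, rfl⟩ := hp
    rw [h7 y (h3 hy)]
    exact ⟨hy, rfl⟩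
  refine ⟨f, U, V, g, ⟨h1, h2, h3, h4', h5, h6, h7⟩, ?_, hg, ?_, ?_⟩
  · intro y hy
    rw [← h8]
    exact ⟨y, hy, rfl⟩
  · intro i hi b p hp
    rw [← h9 i hi b]
    constructor
    · rintro ⟨y, hy, rfl⟩
      rw [h7 y (h3 hy.1)]
      exact hy.2
    · intro h
      exact ⟨g p, ⟨(hg p hp).1, h⟩, (hg p hp).2⟩
  · intro p hp
    obtain ⟨h11, h12⟩ := hg p hp
    have := h10 _ h11
    rw [h12] at this
    exact this

/-- The general 3-block. -/
theorem block3_gen {f : (Fin (2 + 2) → ℝ) → (ℂ × ℂ) × ℂ} {U : Set (Fin (2 + 2) → ℝ)}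
    {V : Set ((ℂ × ℂ) × ℂ)} {g : (ℂ × ℂ) × ℂ → Fin (2 + 2) → ℝ}
    (h4 : IsOpen U ∧ IsOpen V ∧ Body true 2 ⊆ U ∧ MapsTo f U V ∧ ContDiffOn ℝ ∞ f U ∧
        ContDiffOn ℝ ∞ g V ∧ ∀ x ∈ U, g (f x) = x)
    {L : Bool} {c : ℕ × ℕ × ℕ}
    {ι : (Fin (1 + 2) → ℝ) → Fin (2 + 2) → ℝ} {l : (Fin (2 + 2) → ℝ) → Fin (1 + 2) → ℝ}
    {W : Set (Fin (1 + 2) → ℝ)} {W' : Set (Fin (2 + 2) → ℝ)} (hW : IsOpen W) (hW' : IsOpen W')
    (hι : ContDiff ℝ ∞ ι) (hl : ContDiffOn ℝ ∞ l W') (hm : MapsTo ι W W')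
    (hli : ∀ y ∈ W, l (ι y) = y) (hBW : Body L 1 ⊆ W)
    (h1 : ∀ y ∈ Body L 1, ι y ∈ Body true 2 ∧ f (ι y) ∈ cell c)
    (h2 : ∀ p ∈ cell c, f (g p) = p ∧ l (g p) ∈ Body L 1 ∧ ι (l (g p)) = g p)
    (h3 : ∀ i ∈ Dirs L 1, ∀ b, ∀ p, p ∈ cell (fc3 c i b) ↔ p ∈ cell c ∧
      (if b then Hi L i (l (g p)) else l (g p) i) = 0) :
    ∃ f : (Fin (1 + 2) → ℝ) → (ℂ × ℂ) × ℂ,
      IsBlock L 1 f ∧ f '' Body L 1 = cell c ∧
      ∀ i ∈ Dirs L 1, ∀ b, f '' Facet L 1 i b = cell (fc3 c i b) := by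
  obtain ⟨hU, hV, hBU, hfm, hf, hg, hgf⟩ := h4
  have hfg : ∀ y ∈ Body L 1, (l ∘ g) ((f ∘ ι) y) = y ∧ (f ∘ ι) y ∈ cell c := by
    intro y hy
    refine ⟨?_, (h1 y hy).2⟩
    show l (g (f (ι y))) = y
    rw [hgf _ (hBU (h1 y hy).1), hli y (hBW hy)]
  have hgf' : ∀ p ∈ cell c, (l ∘ g) p ∈ Body L 1 ∧ (f ∘ ι) ((l ∘ g) p) = p := by
    intro p hp
    obtain ⟨a1, a2, a3⟩ := h2 p hp
    refine ⟨a2, ?_⟩
    show f (ι (l (g p))) = p
    rw [a3, a1]
  refine ⟨f ∘ ι, ⟨W ∩ ι ⁻¹' U, V ∩ g ⁻¹' W', l ∘ g, hW.inter (hU.preimage hι.continuous),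
    hg.continuousOn.isOpen_inter_preimage hV hW', ?_, ?_, ?_, ?_, ?_⟩, ?_, ?_⟩
  · exact fun y hy => ⟨hBW hy, hBU (h1 y hy).1⟩
  · intro y hy
    refine ⟨hfm hy.2, ?_⟩
    show g (f (ι y)) ∈ W'
    rw [hgf _ hy.2]
    exact hm hy.1
  · exact hf.comp hι.contDiffOn fun y hy => hy.2
  · exact hl.comp (hg.mono inter_subset_left) fun p hp => hp.2
  · intro y hy
    show l (g (f (ι y))) = y
    rw [hgf _ hy.2, hli y hy.1]
  · rw [image_eq hfg hgf' subset_rfl]
    ext p
    exact ⟨fun h => h.1, fun h => ⟨h, (hgf' p h).1⟩⟩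
  · intro i hi b
    rw [image_eq hfg hgf' (fun x hx => hx.1)]
    ext p
    rw [h3 i hi b p]
    exact ⟨fun h => ⟨h.1, h.2.2⟩, fun h => ⟨h.1, (hgf' p h.1).1, h.2⟩⟩

theorem mem_body1 {y : Fin (1 + 2) → ℝ} : y ∈ Body true 1 ↔
    (0 ≤ y 1 ∧ y 0 ^ 2 + y 1 ^ 2 ≤ 1) ∧ (0 ≤ y 2 ∧ y 2 ≤ 1) := by
  have h1 : y ∈ Body true 1 ↔ ∀ i : Fin (1 + 2), (true = true → i ≠ 0) →
    0 ≤ y i ∧ 0 ≤ Hi true i y := Iff.rfl
  have c1 : Hi true 1 y = 1 - y 0 ^ 2 - y 1 ^ 2 := if_pos ⟨rfl, rfl⟩
  have c2 : Hi true 2 y = 1 - y 2 := if_neg (by decide)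
  rw [h1]
  constructor
  · intro h
    have b1 := h 1 (fun _ => by decide)
    have b2 := h 2 (fun _ => by decide)
    rw [c1] at b1
    rw [c2] at b2
    exact ⟨⟨b1.1, by linarith [b1.2]⟩, b2.1, by linarith [b2.2]⟩
  · rintro ⟨⟨a1, a2⟩, a3, a4⟩ i hi
    fin_cases i
    · exact absurd rfl (hi rfl)
    · exact ⟨a1, by rw [Fin.mk_one, c1]; linarith⟩
    · exact ⟨a3, by simp only [Fin.reduceFinMk]; rw [c2]; linarith⟩

theorem mem_body0 {y : Fin (1 + 2) → ℝ} : y ∈ Body false 1 ↔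
    (0 ≤ y 0 ∧ y 0 ≤ 1) ∧ (0 ≤ y 1 ∧ y 1 ≤ 1) ∧ (0 ≤ y 2 ∧ y 2 ≤ 1) := by
  have h1 : y ∈ Body false 1 ↔ ∀ i : Fin (1 + 2), (false = true → i ≠ 0) →
    0 ≤ y i ∧ 0 ≤ Hi false i y := Iff.rfl
  have c (i) : Hi false i y = 1 - y i := if_neg (by simp)
  rw [h1]
  constructor
  · intro h
    have b0 := h 0 (by simp)
    have b1 := h 1 (by simp)
    have b2 := h 2 (by simp)
    rw [c] at b0 b1 b2
    exact ⟨⟨b0.1, by linarith [b0.2]⟩, ⟨b1.1, by linarith [b1.2]⟩, b2.1, by linarith [b2.2]⟩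
  · rintro ⟨⟨a1, a2⟩, ⟨a3, a4⟩, a5, a6⟩ i _
    rw [c]
    fin_cases i
    · exact ⟨a1, by simpa using a2⟩
    · exact ⟨a3, by simpa using a4⟩
    · exact ⟨a5, by simpa using a6⟩

theorem zm_idem (z : ℕ) : zm z &&& zm z = zm z := Nat.and_self _

theorem zm_two {z : ℕ} (hz : z < 2) : zm 2 &&& zm z = zm 2 := by
  interval_cases z <;> decide

theorem wm_pt {j : ℕ} (hj : j < 3) : wm (3 + j) &&& wm j = wm (3 + j) := by
  interval_cases j <;> decide

theorem wm_nx {j : ℕ} (hj : j < 3) : wm (3 + (j + 1) % 3) &&& wm j = wm (3 + (j + 1) % 3) := by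
  interval_cases j <;> decide

theorem bm_seg' {k : ℕ} (h : k < 18) : bm (36 + co k) &&& bm k = bm (36 + co k) := by
  rw [Nat.land_comm, bm_seg h]

theorem bm_r1 {k : ℕ} (h : k < 18) : bm (18 + k) &&& bm k = bm (18 + k) := by
  rw [Nat.land_comm, bm_ray h]

theorem bm_r2 {k : ℕ} (h : k < 18) : bm (18 + nx k) &&& bm k = bm (18 + nx k) := by
  rw [Nat.land_comm, bm_ray' h]

theorem bm_v1 {k : ℕ} (h : k < 18) : bm (36 + co k) &&& bm (18 + k) = bm (45 + sv k) := by
  interval_cases k <;> decide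

theorem bm_v2 {k : ℕ} (h : k < 18) : bm (36 + co k) &&& bm (18 + nx k) = bm (45 + sv (nx k)) := by
  interval_cases k <;> decide

theorem sv_lt (k : ℕ) : sv k < 8 := by
  by_cases h : k < 18
  · interval_cases k <;> decide
  · have : sv k = 0 := by
      unfold sv
      rw [List.getD_eq_default]
      simpa using h
    rw [this]
    norm_num

theorem wm_pt' {j : ℕ} (hj : j < 3) : wm j &&& wm (3 + j) = wm (3 + j) := by
  interval_cases j <;> decide

/-- The logic of the facets. -/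
theorem fct {p : (ℂ × ℂ) × ℂ} {c c4 d d' : ℕ × ℕ × ℕ} {P : Prop}
    (h1 : p ∈ cell d' ↔ p ∈ cell d ∧ p ∈ cell c) (h2 : p ∈ cell c4 → (p ∈ cell d ↔ P))
    (h3 : p ∈ cell c → p ∈ cell c4) : p ∈ cell d' ↔ p ∈ cell c ∧ P := by
  tauto

/-- Type 1: the 3-cells over a point of the circle. -/
theorem block3_T1 (hB : StBase) (hW : StW) (h4 : StBlock4) {k z j : ℕ} (hk : k < 18) (hz : z < 2)
    (hj : j < 3) : ∃ f : (Fin (1 + 2) → ℝ) → (ℂ × ℂ) × ℂ,
      IsBlock true 1 f ∧ f '' Body true 1 = cell (k, z, 3 + j) ∧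
      ∀ i ∈ Dirs true 1, ∀ b, f '' Facet true 1 i b = cell (fc3 (k, z, 3 + j) i b) := by
  obtain ⟨f, U, V, g, hb, hf, hg, hF, hS⟩ := pt4 h4 hk hz hj
  have hc := co_lt k
  have hn := nx_lt hk
  have hsub : ∀ p, p ∈ cell (k, z, 3 + j) ↔ p ∈ cell (k, z, j) ∧ g p 3 = 0 := by
    intro p
    rw [cell_inter hB hW (p := p) (a := k) (a' := k) (b := z) (b' := z) (m := 3 + j) (m' := j)
      (by omega) (by omega) (by omega) (by omega) (by omega) (by omega) (by omega) (by omega)
      (by omega) (Nat.and_self _) (Nat.and_self _) (wm_pt hj)]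
    constructor
    · rintro ⟨h1, h2⟩
      exact ⟨h2, (hF 3 (fun _ => by decide) false p h2).1 h1⟩
    · rintro ⟨h1, h2⟩
      exact ⟨(hF 3 (fun _ => by decide) false p h1).2 h2, h1⟩
  refine block3_gen hb (ι := fun y => ![y 0, y 1, y 2, 0]) (l := fun x => ![x 0, x 1, x 2])
    (W := univ) (W' := univ) isOpen_univ isOpen_univ ?_ ?_ (mapsTo_univ _ _) ?_
    (subset_univ _) ?_ ?_ ?_
  · refine contDiff_pi.2 fun i => ?_
    fin_cases i
    · exact contDiff_ap 0
    · exact contDiff_ap 1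
    · exact contDiff_ap 2
    · exact contDiff_const
  · refine (contDiff_pi.2 fun i => ?_).contDiffOn
    fin_cases i
    · exact contDiff_ap 0
    · exact contDiff_ap 1
    · exact contDiff_ap 2
  · intro y _
    funext i
    fin_cases i <;> rfl
  · intro y hy
    obtain ⟨h1, h2⟩ := mem_body1.1 hy
    have h3 : (![y 0, y 1, y 2, 0] : Fin (2 + 2) → ℝ) ∈ Body true 2 :=
      mem_body.2 ⟨h1, h2, le_refl (0 : ℝ), zero_le_one⟩
    refine ⟨h3, (hsub _).2 ⟨hf _ h3, ?_⟩⟩
    rw [hb.2.2.2.2.2.2 _ (hb.2.2.1 h3)]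
    rfl
  · intro p hp
    obtain ⟨h1, h2⟩ := (hsub p).1 hp
    obtain ⟨h3, h5⟩ := hg p h1
    obtain ⟨a1, a2, a3⟩ := mem_body.1 h3
    refine ⟨h5, mem_body1.2 ⟨a1, a2⟩, ?_⟩
    funext i
    fin_cases i
    · rfl
    · rfl
    · rfl
    · exact h2.symm
  · intro i hi b p
    have hsub' : p ∈ cell (k, z, 3 + j) → p ∈ cell (k, z, j) := fun h => ((hsub p).1 h).1
    have e1 : ∀ i b, fc3 (k, z, 3 + j) i b = if i = 1 then
        (if b then (36 + co k, z, 3 + j) else (k, 2, 3 + j)) else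
        (if b then (18 + nx k, z, 3 + j) else (18 + k, z, 3 + j)) := by
      intro i b
      unfold fc3
      simp only
      rw [if_pos hk, if_neg (show z ≠ 2 by omega)]
    rw [e1]
    fin_cases i
    · exact absurd rfl (hi rfl)
    · cases b with
      | false =>
        exact fct (cell_inter hB hW (p := p) (a := k) (a' := k) (b := 2) (b' := z)
          (m := j) (m' := 3 + j) (by omega) (by omega) (by omega) (by omega) (by omega)
          (by omega) (by omega) (by omega) (by omega) (Nat.and_self _) (zm_two hz) (wm_pt' hj))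
          (hF 1 (fun _ => by decide) false p) hsub'
      | true =>
        exact fct (cell_inter hB hW (p := p) (a := 36 + co k) (a' := k) (b := z) (b' := z)
          (m := j) (m' := 3 + j) (by omega) (by omega) (by omega) (by omega) (by omega)
          (by omega) (by omega) (by omega) (by omega) (bm_seg' hk) (zm_idem z) (wm_pt' hj))
          (hF 1 (fun _ => by decide) true p) hsub'
    · cases b with
      | false =>
        exact fct (cell_inter hB hW (p := p) (a := 18 + k) (a' := k) (b := z) (b' := z)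
          (m := j) (m' := 3 + j) (by omega) (by omega) (by omega) (by omega) (by omega)
          (by omega) (by omega) (by omega) (by omega) (bm_r1 hk) (zm_idem z) (wm_pt' hj))
          (hF 2 (fun _ => by decide) false p) hsub'
      | true =>
        exact fct (cell_inter hB hW (p := p) (a := 18 + nx k) (a' := k) (b := z) (b' := z)
          (m := j) (m' := 3 + j) (by omega) (by omega) (by omega) (by omega) (by omega)
          (by omega) (by omega) (by omega) (by omega) (bm_r2 hk) (zm_idem z) (wm_pt' hj))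
          (hF 2 (fun _ => by decide) true p) hsub'

/-- Type 2: the 3-cells over a ray. -/
theorem block3_T2 (hB : StBase) (hW : StW) (h4 : StBlock4) {k z j : ℕ} (hk : k < 18) (hz : z < 2)
    (hj : j < 3) : ∃ f : (Fin (1 + 2) → ℝ) → (ℂ × ℂ) × ℂ,
      IsBlock true 1 f ∧ f '' Body true 1 = cell (18 + k, z, j) ∧
      ∀ i ∈ Dirs true 1, ∀ b, f '' Facet true 1 i b = cell (fc3 (18 + k, z, j) i b) := by
  obtain ⟨f, U, V, g, hb, hf, hg, hF, hS⟩ := pt4 h4 hk hz hj
  have hc := co_lt k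
  have hn := nx_lt hk
  have hv := sv_lt k
  have hsub : ∀ p, p ∈ cell (18 + k, z, j) ↔ p ∈ cell (k, z, j) ∧ g p 2 = 0 := by
    intro p
    rw [cell_inter hB hW (p := p) (a := 18 + k) (a' := k) (b := z) (b' := z) (m := j) (m' := j)
      (by omega) (by omega) (by omega) (by omega) (by omega) (by omega) (by omega) (by omega)
      (by omega) (bm_r1 hk) (Nat.and_self _) (Nat.and_self _)]
    constructor
    · rintro ⟨h1, h2⟩
      exact ⟨h2, (hF 2 (fun _ => by decide) false p h2).1 h1⟩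
    · rintro ⟨h1, h2⟩
      exact ⟨(hF 2 (fun _ => by decide) false p h1).2 h2, h1⟩
  refine block3_gen hb (ι := fun y => ![y 0, y 1, 0, y 2]) (l := fun x => ![x 0, x 1, x 3])
    (W := univ) (W' := univ) isOpen_univ isOpen_univ ?_ ?_ (mapsTo_univ _ _) ?_
    (subset_univ _) ?_ ?_ ?_
  · refine contDiff_pi.2 fun i => ?_
    fin_cases i
    · exact contDiff_ap 0
    · exact contDiff_ap 1
    · exact contDiff_const
    · exact contDiff_ap 2
  · refine (contDiff_pi.2 fun i => ?_).contDiffOn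
    fin_cases i
    · exact contDiff_ap 0
    · exact contDiff_ap 1
    · exact contDiff_ap 3
  · intro y _
    funext i
    fin_cases i <;> rfl
  · intro y hy
    obtain ⟨h1, h2⟩ := mem_body1.1 hy
    have h3 : (![y 0, y 1, 0, y 2] : Fin (2 + 2) → ℝ) ∈ Body true 2 :=
      mem_body.2 ⟨h1, ⟨le_refl (0 : ℝ), zero_le_one⟩, h2⟩
    refine ⟨h3, (hsub _).2 ⟨hf _ h3, ?_⟩⟩
    rw [hb.2.2.2.2.2.2 _ (hb.2.2.1 h3)]
    rfl
  · intro p hp
    obtain ⟨h1, h2⟩ := (hsub p).1 hp
    obtain ⟨h3, h5⟩ := hg p h1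
    obtain ⟨a1, a2, a3⟩ := mem_body.1 h3
    refine ⟨h5, mem_body1.2 ⟨a1, a3⟩, ?_⟩
    funext i
    fin_cases i
    · rfl
    · rfl
    · exact h2.symm
    · rfl
  · intro i hi b p
    have hsub' : p ∈ cell (18 + k, z, j) → p ∈ cell (k, z, j) := fun h => ((hsub p).1 h).1
    have e1 : ∀ i b, fc3 (18 + k, z, j) i b = if i = 1 then
        (if b then (45 + sv k, z, j) else (18 + k, 2, j)) else
        (18 + k, z, if b then 3 + (j + 1) % 3 else 3 + j) := by
      intro i b
      unfold fc3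
      simp only
      rw [if_neg (by omega), if_pos (by omega), Nat.add_sub_cancel_left]
    rw [e1]
    fin_cases i
    · exact absurd rfl (hi rfl)
    · cases b with
      | false =>
        exact fct (cell_inter hB hW (p := p) (a := k) (a' := 18 + k) (b := 2) (b' := z)
          (m := j) (m' := j) (by omega) (by omega) (by omega) (by omega) (by omega)
          (by omega) (by omega) (by omega) (by omega) (bm_ray hk) (zm_two hz) (Nat.and_self _))
          (hF 1 (fun _ => by decide) false p) hsub'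
      | true =>
        exact fct (cell_inter hB hW (p := p) (a := 36 + co k) (a' := 18 + k) (b := z) (b' := z)
          (m := j) (m' := j) (by omega) (by omega) (by omega) (by omega) (by omega)
          (by omega) (by omega) (by omega) (by omega) (bm_v1 hk) (zm_idem z) (Nat.and_self _))
          (hF 1 (fun _ => by decide) true p) hsub'
    · cases b with
      | false =>
        exact fct (cell_inter hB hW (p := p) (a := k) (a' := 18 + k) (b := z) (b' := z)
          (m := 3 + j) (m' := j) (by omega) (by omega) (by omega) (by omega) (by omega)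
          (by omega) (by omega) (by omega) (by omega) (bm_ray hk) (zm_idem z) (wm_pt hj))
          (hF 3 (fun _ => by decide) false p) hsub'
      | true =>
        exact fct (cell_inter hB hW (p := p) (a := k) (a' := 18 + k) (b := z) (b' := z)
          (m := 3 + (j + 1) % 3) (m' := j) (by omega) (by omega) (by omega) (by omega) (by omega)
          (by omega) (by omega) (by omega) (by omega) (bm_ray hk) (zm_idem z) (wm_nx hj))
          (hF 3 (fun _ => by decide) true p) hsub'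

theorem zs_four {u : ℂ} : u ∈ zs 4 ↔ u ∈ zs 2 ∧ u.re ≤ 0 := by
  simp [zs]

theorem zs_three {u : ℂ} : u ∈ zs 3 ↔ u ∈ zs 2 ∧ 0 ≤ u.re := by
  simp [zs]

theorem cell_four {a m : ℕ} {p : (ℂ × ℂ) × ℂ} :
    p ∈ cell (a, 4, m) ↔ p ∈ cell (a, 2, m) ∧ p.1.2.re ≤ 0 := by
  constructor
  · rintro ⟨h1, h2, h3, h4, h5⟩
    have h6 := zs_four.1 h4
    exact ⟨⟨h1, h2, h3, h6.1, h5⟩, h6.2⟩
  · rintro ⟨⟨h1, h2, h3, h4, h5⟩, h6⟩
    exact ⟨h1, h2, h3, zs_four.2 ⟨h4, h6⟩, h5⟩

theorem cell_three {a m : ℕ} {p : (ℂ × ℂ) × ℂ} :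
    p ∈ cell (a, 3, m) ↔ p ∈ cell (a, 2, m) ∧ 0 ≤ p.1.2.re := by
  constructor
  · rintro ⟨h1, h2, h3, h4, h5⟩
    have h6 := zs_three.1 h4
    exact ⟨⟨h1, h2, h3, h6.1, h5⟩, h6.2⟩
  · rintro ⟨⟨h1, h2, h3, h4, h5⟩, h6⟩
    exact ⟨h1, h2, h3, zs_three.2 ⟨h4, h6⟩, h5⟩

/-- Type 3: the 3-cells with `z` real. -/
theorem block3_T3 (hB : StBase) (hW : StW) (h4 : StBlock4) {k j : ℕ} (hk : k < 18)
    (hj : j < 3) : ∃ f : (Fin (1 + 2) → ℝ) → (ℂ × ℂ) × ℂ,
      IsBlock false 1 f ∧ f '' Body false 1 = cell (k, 2, j) ∧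
      ∀ i ∈ Dirs false 1, ∀ b, f '' Facet false 1 i b = cell (fc3 (k, 2, j) i b) := by
  have hz : 0 < 2 := by norm_num
  obtain ⟨f, U, V, g, hb, hf, hg, hF, hS⟩ := pt4 h4 hk hz hj
  have hc := co_lt k
  have hn := nx_lt hk
  have hsub : ∀ p, p ∈ cell (k, 2, j) ↔ p ∈ cell (k, 0, j) ∧ g p 1 = 0 := by
    intro p
    rw [cell_inter hB hW (p := p) (a := k) (a' := k) (b := 2) (b' := 0) (m := j) (m' := j)
      (by omega) (by omega) (by omega) (by omega) (by omega) (by omega) (by omega) (by omega)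
      (by omega) (Nat.and_self _) (zm_two hz) (Nat.and_self _)]
    constructor
    · rintro ⟨h1, h2⟩
      exact ⟨h2, (hF 1 (fun _ => by decide) false p h2).1 h1⟩
    · rintro ⟨h1, h2⟩
      exact ⟨(hF 1 (fun _ => by decide) false p h1).2 h2, h1⟩
  refine block3_gen hb (ι := fun y => ![2 * y 0 - 1, 0, y 1, y 2])
    (l := fun x => ![(x 0 + 1) / 2, x 2, x 3])
    (W := univ) (W' := univ) isOpen_univ isOpen_univ ?_ ?_ (mapsTo_univ _ _) ?_
    (subset_univ _) ?_ ?_ ?_
  · refine contDiff_pi.2 fun i => ?_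
    fin_cases i
    · exact (contDiff_const.mul (contDiff_ap 0)).sub contDiff_const
    · exact contDiff_const
    · exact contDiff_ap 1
    · exact contDiff_ap 2
  · refine (contDiff_pi.2 fun i => ?_).contDiffOn
    fin_cases i
    · exact ((contDiff_ap 0).add contDiff_const).div_const 2
    · exact contDiff_ap 2
    · exact contDiff_ap 3
  · intro y _
    funext i
    fin_cases i
    · show (2 * y 0 - 1 + 1) / 2 = y 0
      ring
    · rfl
    · rfl
  · intro y hy
    obtain ⟨⟨h0, h0'⟩, h1, h2⟩ := mem_body0.1 hy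
    have h3 : (![2 * y 0 - 1, 0, y 1, y 2] : Fin (2 + 2) → ℝ) ∈ Body true 2 := by
      refine mem_body.2 ⟨⟨le_refl (0 : ℝ), ?_⟩, h1, h2⟩
      show (2 * y 0 - 1) ^ 2 + (0 : ℝ) ^ 2 ≤ 1
      nlinarith
    refine ⟨h3, (hsub _).2 ⟨hf _ h3, ?_⟩⟩
    rw [hb.2.2.2.2.2.2 _ (hb.2.2.1 h3)]
    rfl
  · intro p hp
    obtain ⟨h1, h2⟩ := (hsub p).1 hp
    obtain ⟨h3, h5⟩ := hg p h1
    obtain ⟨⟨a1, a1'⟩, a2, a3⟩ := mem_body.1 h3
    rw [h2] at a1'
    have a4 : -1 ≤ g p 0 := by nlinarith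
    have a5 : g p 0 ≤ 1 := by nlinarith
    refine ⟨h5, mem_body0.2 ⟨⟨?_, ?_⟩, a2, a3⟩, ?_⟩
    · show 0 ≤ (g p 0 + 1) / 2
      linarith
    · show (g p 0 + 1) / 2 ≤ 1
      linarith
    · funext i
      fin_cases i
      · show 2 * ((g p 0 + 1) / 2) - 1 = g p 0
        ring
      · exact h2.symm
      · rfl
      · rfl
  · intro i hi b p
    have hsub' : p ∈ cell (k, 2, j) → p ∈ cell (k, 0, j) := fun h => ((hsub p).1 h).1
    have e1 : ∀ i b, fc3 (k, 2, j) i b = if i = 0 then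
        (36 + co k, if b then 3 else 4, j) else if i = 1 then
        (if b then (18 + nx k, 2, j) else (18 + k, 2, j)) else
        (k, 2, if b then 3 + (j + 1) % 3 else 3 + j) := by
      intro i b
      unfold fc3
      simp only
      rw [if_pos hk]
      simp only [reduceIte]
    have e2 : p ∈ cell (36 + co k, 4, j) ↔ p ∈ cell (36 + co k, 0, j) ∧ p ∈ cell (k, 4, j) :=
      cell_inter hB hW (p := p) (a := 36 + co k) (a' := k) (b := 0) (b' := 4)
          (m := j) (m' := j) (by omega) (by omega) (by omega) (by omega) (by omega)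
          (by omega) (by omega) (by omega) (by omega) (bm_seg' hk) (by decide) (Nat.and_self _)
    have e3 : p ∈ cell (36 + co k, 3, j) ↔ p ∈ cell (36 + co k, 0, j) ∧ p ∈ cell (k, 3, j) :=
      cell_inter hB hW (p := p) (a := 36 + co k) (a' := k) (b := 0) (b' := 3)
          (m := j) (m' := j) (by omega) (by omega) (by omega) (by omega) (by omega)
          (by omega) (by omega) (by omega) (by omega) (bm_seg' hk) (by decide) (Nat.and_self _)
    have e4 : p ∈ cell (k, 0, j) → (p ∈ cell (36 + co k, 0, j) ↔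
        1 - g p 0 ^ 2 - g p 1 ^ 2 = 0) := hF 1 (fun _ => by decide) true p
    rw [e1]
    fin_cases i
    · cases b with
      | false =>
        show p ∈ cell (36 + co k, 4, j) ↔ p ∈ cell (k, 2, j) ∧ (g p 0 + 1) / 2 = 0
        rw [e2, cell_four]
        constructor
        · rintro ⟨h1, h2, h3⟩
          obtain ⟨h5, h6⟩ := (hsub p).1 h2
          have h7 := (e4 h5).1 h1
          have h8 := (hS p h5).2.1 h3
          rw [h6] at h7
          refine ⟨h2, ?_⟩
          have h9 : (g p 0 + 1) * (1 - g p 0) = 0 := by linarith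
          rcases mul_eq_zero.1 h9 with h | h
          · rw [h, zero_div]
          · linarith
        · rintro ⟨h2, h3⟩
          obtain ⟨h5, h6⟩ := (hsub p).1 h2
          have h7 : g p 0 = -1 := by linarith
          refine ⟨(e4 h5).2 (by rw [h6, h7]; norm_num), h2, (hS p h5).2.2 (by rw [h7]; norm_num)⟩
      | true =>
        show p ∈ cell (36 + co k, 3, j) ↔ p ∈ cell (k, 2, j) ∧ 1 - (g p 0 + 1) / 2 = 0
        rw [e3, cell_three]
        constructor
        · rintro ⟨h1, h2, h3⟩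
          obtain ⟨h5, h6⟩ := (hsub p).1 h2
          have h7 := (e4 h5).1 h1
          have h8 := (hS p h5).1.1 h3
          rw [h6] at h7
          refine ⟨h2, ?_⟩
          have h9 : (g p 0 + 1) * (1 - g p 0) = 0 := by linarith
          rcases mul_eq_zero.1 h9 with h | h
          · linarith
          · linarith
        · rintro ⟨h2, h3⟩
          obtain ⟨h5, h6⟩ := (hsub p).1 h2
          have h7 : g p 0 = 1 := by linarith
          refine ⟨(e4 h5).2 (by rw [h6, h7]; norm_num), h2, (hS p h5).1.2 (by rw [h7]; norm_num)⟩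
    · cases b with
      | false =>
        exact fct (cell_inter hB hW (p := p) (a := 18 + k) (a' := k) (b := 0) (b' := 2)
          (m := j) (m' := j) (by omega) (by omega) (by omega) (by omega) (by omega)
          (by omega) (by omega) (by omega) (by omega) (bm_r1 hk) (by decide) (Nat.and_self _))
          (hF 2 (fun _ => by decide) false p) hsub'
      | true =>
        exact fct (cell_inter hB hW (p := p) (a := 18 + nx k) (a' := k) (b := 0) (b' := 2)
          (m := j) (m' := j) (by omega) (by omega) (by omega) (by omega) (by omega)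
          (by omega) (by omega) (by omega) (by omega) (bm_r2 hk) (by decide) (Nat.and_self _))
          (hF 2 (fun _ => by decide) true p) hsub'
    · cases b with
      | false =>
        exact fct (cell_inter hB hW (p := p) (a := k) (a' := k) (b := 0) (b' := 2)
          (m := 3 + j) (m' := j) (by omega) (by omega) (by omega) (by omega) (by omega)
          (by omega) (by omega) (by omega) (by omega) (Nat.and_self _) (by decide) (wm_pt hj))
          (hF 3 (fun _ => by decide) false p) hsub'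
      | true =>
        exact fct (cell_inter hB hW (p := p) (a := k) (a' := k) (b := 0) (b' := 2)
          (m := 3 + (j + 1) % 3) (m' := j) (by omega) (by omega) (by omega) (by omega) (by omega)
          (by omega) (by omega) (by omega) (by omega) (Nat.and_self _) (by decide) (wm_nx hj))
          (hF 3 (fun _ => by decide) true p) hsub'

theorem co_cf {j : ℕ} (hj : j < 9) : co (cf j) = j := by
  interval_cases j <;> decide

theorem cf_lt {j : ℕ} (hj : j < 9) : cf j < 18 := by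
  interval_cases j <;> decide

/-- The angle. -/
theorem angle {θ : ℝ} (h1 : -(Real.pi / 2) < θ) (h2 : θ < 3 * Real.pi / 2) :
    Real.pi / 2 - 2 * Real.arctan (Real.cos θ / (1 + Real.sin θ)) = θ := by
  have h3 : Real.arctan (Real.cos θ / (1 + Real.sin θ)) = (Real.pi / 2 - θ) / 2 := by
    have h4 : Real.cos θ / (1 + Real.sin θ) = Real.tan ((Real.pi / 2 - θ) / 2) := by
      have h5 : 0 < Real.cos ((Real.pi / 2 - θ) / 2) :=
        Real.cos_pos_of_mem_Ioo ⟨by linarith, by linarith⟩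
      have h6 : Real.cos θ = 2 * Real.sin ((Real.pi / 2 - θ) / 2) *
          Real.cos ((Real.pi / 2 - θ) / 2) := by
        rw [← Real.sin_two_mul, ← Real.sin_pi_div_two_sub]
        congr 1
        ring
      have h7 : 1 + Real.sin θ = 2 * Real.cos ((Real.pi / 2 - θ) / 2) ^ 2 := by
        rw [Real.cos_sq, ← Real.cos_pi_div_two_sub θ]
        rw [show 2 * ((Real.pi / 2 - θ) / 2) = Real.pi / 2 - θ by ring]
        ring
      rw [h6, h7, Real.tan_eq_sin_div_cos]
      field_simp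
    rw [h4, Real.arctan_tan (by linarith) (by linarith)]
  rw [h3]
  ring

/-- The inverse of the angle. -/
noncomputable def ang (x : Fin (2 + 2) → ℝ) : ℝ := 1 / 2 - 2 / Real.pi * Real.arctan (x 0 / (1 + x 1))

theorem ang_eq {θ : ℝ} (h1 : -(1 / 2) < θ) (h2 : θ < 3 / 2) {x : Fin (2 + 2) → ℝ}
    (hx0 : x 0 = Real.cos (Real.pi * θ)) (hx1 : x 1 = Real.sin (Real.pi * θ)) : ang x = θ := by
  have h3 := Real.pi_pos
  have h4 := angle (θ := Real.pi * θ) (by nlinarith) (by nlinarith)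
  unfold ang
  rw [hx0, hx1]
  generalize Real.arctan (Real.cos (Real.pi * θ) / (1 + Real.sin (Real.pi * θ))) = A at h4 ⊢
  have h5 : 1 / 2 - 2 / Real.pi * A = (Real.pi / 2 - 2 * A) / Real.pi := by
    field_simp
  rw [h5, h4, mul_div_cancel_left₀ _ h3.ne']

/-- Type 4: the 3-cells over a segment. -/
theorem block3_T4 (hB : StBase) (hW : StW) (h4 : StBlock4) {i' z j : ℕ} (hi' : i' < 9)
    (hz : z < 2) (hj : j < 3) : ∃ f : (Fin (1 + 2) → ℝ) → (ℂ × ℂ) × ℂ,
      IsBlock false 1 f ∧ f '' Body false 1 = cell (36 + i', z, j) ∧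
      ∀ i ∈ Dirs false 1, ∀ b, f '' Facet false 1 i b = cell (fc3 (36 + i', z, j) i b) := by
  have hco := co_cf hi'
  have hk := cf_lt hi'
  generalize hkk : cf i' = k at hco hk
  obtain ⟨f, U, V, g, hb, hf, hg, hF, hS⟩ := pt4 h4 hk hz hj
  have hn := nx_lt hk
  have hv := sv_lt k
  have hv' := sv_lt (nx k)
  have bs' := bm_seg' hk
  have bv1 := bm_v1 hk
  have bv2 := bm_v2 hk
  rw [hco] at bs' bv1 bv2
  have bs0 : bm k &&& bm (36 + i') = bm (36 + i') := by rw [Nat.land_comm, bs']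
  have bv1' : bm (18 + k) &&& bm (36 + i') = bm (45 + sv k) := by rw [Nat.land_comm, bv1]
  have bv2' : bm (18 + nx k) &&& bm (36 + i') = bm (45 + sv (nx k)) := by
    rw [Nat.land_comm, bv2]
  have hF1 : ∀ p ∈ cell (k, z, j), (p ∈ cell (36 + i', z, j) ↔
      1 - g p 0 ^ 2 - g p 1 ^ 2 = 0) := by
    intro p hp
    have := hF 1 (fun _ => by decide) true p hp
    have h5 : fc4 (k, z, j) 1 true = (36 + i', z, j) := by
      rw [← hco]
      rfl
    rw [← h5]
    exact this
  have hsub : ∀ p, p ∈ cell (36 + i', z, j) ↔ p ∈ cell (k, z, j) ∧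
      1 - g p 0 ^ 2 - g p 1 ^ 2 = 0 := by
    intro p
    rw [cell_inter hB hW (p := p) (a := 36 + i') (a' := k) (b := z) (b' := z) (m := j) (m' := j)
      (by omega) (by omega) (by omega) (by omega) (by omega) (by omega) (by omega) (by omega)
      (by omega) bs' (Nat.and_self _) (Nat.and_self _)]
    constructor
    · rintro ⟨h1, h2⟩
      exact ⟨h2, (hF1 p h2).1 h1⟩
    · rintro ⟨h1, h2⟩
      exact ⟨(hF1 p h1).2 h2, h1⟩
  have hpi := Real.pi_pos
  have hθ : ∀ p ∈ cell (36 + i', z, j), ∃ θ : ℝ, (0 ≤ θ ∧ θ ≤ 1) ∧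
      g p 0 = Real.cos (Real.pi * θ) ∧ g p 1 = Real.sin (Real.pi * θ) := by
    intro p hp
    obtain ⟨h1, h2⟩ := (hsub p).1 hp
    obtain ⟨⟨a1, a1'⟩, a2, a3⟩ := mem_body.1 (hg p h1).1
    have b1 : -1 ≤ g p 0 := by nlinarith [sq_nonneg (g p 1)]
    have b2 : g p 0 ≤ 1 := by nlinarith [sq_nonneg (g p 1)]
    refine ⟨Real.arccos (g p 0) / Real.pi, ⟨div_nonneg (Real.arccos_nonneg _) hpi.le,
      (div_le_one hpi).2 (Real.arccos_le_pi _)⟩, ?_, ?_⟩
    · rw [mul_div_cancel₀ _ hpi.ne', Real.cos_arccos b1 b2]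
    · rw [mul_div_cancel₀ _ hpi.ne', Real.sin_arccos,
        show 1 - g p 0 ^ 2 = g p 1 ^ 2 by linarith, Real.sqrt_sq a1]
  refine block3_gen hb
    (ι := fun y => ![Real.cos (Real.pi * y 0), Real.sin (Real.pi * y 0), y 1, y 2])
    (l := fun x => ![ang x, x 2, x 3])
    (W := {y | -(1 / 2) < y 0 ∧ y 0 < 3 / 2}) (W' := {x | 0 < 1 + x 1}) ?_ ?_ ?_ ?_ ?_ ?_
    ?_ ?_ ?_ ?_
  · have h5 : Continuous (fun y : Fin (1 + 2) → ℝ => y 0) := continuous_apply 0
    have a1 : IsOpen {y : Fin (1 + 2) → ℝ | -(1 / 2) < y 0} := isOpen_lt continuous_const h5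
    have a2 : IsOpen {y : Fin (1 + 2) → ℝ | y 0 < 3 / 2} := isOpen_lt h5 continuous_const
    exact a1.inter a2
  · have h5 : Continuous (fun y : Fin (2 + 2) → ℝ => 1 + y 1) :=
      continuous_const.add (continuous_apply 1)
    exact isOpen_lt continuous_const h5
  · refine contDiff_pi.2 fun i => ?_
    have h5 : ContDiff ℝ ∞ (fun y : Fin (1 + 2) → ℝ => Real.pi * y 0) :=
      contDiff_const.mul (contDiff_ap 0)
    fin_cases i
    · exact Real.contDiff_cos.comp h5
    · exact Real.contDiff_sin.comp h5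
    · exact contDiff_ap 1
    · exact contDiff_ap 2
  · refine contDiffOn_pi.2 fun i => ?_
    fin_cases i
    · show ContDiffOn ℝ ∞ (fun x => ang x) _
      unfold ang
      refine contDiffOn_const.sub (contDiffOn_const.mul (Real.contDiff_arctan.comp_contDiffOn ?_))
      exact (contDiff_ap 0).contDiffOn.div (contDiff_const.add (contDiff_ap 1)).contDiffOn
        fun x hx => ne_of_gt hx
    · exact (contDiff_ap 2).contDiffOn
    · exact (contDiff_ap 3).contDiffOn
  · intro y hy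
    show 0 < 1 + Real.sin (Real.pi * y 0)
    have h5 : Real.cos (Real.pi / 2 - Real.pi * y 0) = Real.sin (Real.pi * y 0) :=
      Real.cos_pi_div_two_sub _
    have h6 : 0 < Real.cos ((Real.pi / 2 - Real.pi * y 0) / 2) := by
      apply Real.cos_pos_of_mem_Ioo
      constructor <;> nlinarith [hy.1, hy.2]
    have h7 : Real.cos (Real.pi / 2 - Real.pi * y 0) =
        2 * Real.cos ((Real.pi / 2 - Real.pi * y 0) / 2) ^ 2 - 1 := by
      rw [← Real.cos_two_mul]
      congr 1
      ring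
    rw [← h5, h7]
    have := pow_pos h6 2
    linarith
  · intro y hy
    funext i
    fin_cases i
    · exact ang_eq hy.1 hy.2 rfl rfl
    · rfl
    · rfl
  · intro y hy
    obtain ⟨⟨h0, h0'⟩, h1, h2⟩ := mem_body0.1 hy
    exact ⟨by linarith, by linarith⟩
  · intro y hy
    obtain ⟨⟨h0, h0'⟩, h1, h2⟩ := mem_body0.1 hy
    have h5 : 0 ≤ Real.sin (Real.pi * y 0) :=
      Real.sin_nonneg_of_nonneg_of_le_pi (by positivity) (by nlinarith)
    have h6 := Real.cos_sq_add_sin_sq (Real.pi * y 0)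
    have h3 : (![Real.cos (Real.pi * y 0), Real.sin (Real.pi * y 0), y 1, y 2] :
        Fin (2 + 2) → ℝ) ∈ Body true 2 := mem_body.2 ⟨⟨h5, le_of_eq h6⟩, h1, h2⟩
    refine ⟨h3, (hsub _).2 ⟨hf _ h3, ?_⟩⟩
    rw [hb.2.2.2.2.2.2 _ (hb.2.2.1 h3)]
    show 1 - Real.cos (Real.pi * y 0) ^ 2 - Real.sin (Real.pi * y 0) ^ 2 = 0
    linarith
  · intro p hp
    obtain ⟨θ, ⟨t1, t2⟩, t3, t4⟩ := hθ p hp
    obtain ⟨h1, h2⟩ := (hsub p).1 hp
    obtain ⟨h3, h5⟩ := hg p h1
    obtain ⟨a1, a2, a3⟩ := mem_body.1 h3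
    have h6 : ang (g p) = θ := ang_eq (by linarith) (by linarith) t3 t4
    refine ⟨h5, mem_body0.2 ⟨?_, a2, a3⟩, ?_⟩
    · show 0 ≤ ang (g p) ∧ ang (g p) ≤ 1
      rw [h6]
      exact ⟨t1, t2⟩
    · funext i
      fin_cases i
      · show Real.cos (Real.pi * ang (g p)) = g p 0
        rw [h6, t3]
      · show Real.sin (Real.pi * ang (g p)) = g p 1
        rw [h6, t4]
      · rfl
      · rfl
  · intro i hi b p
    have hsub' : p ∈ cell (36 + i', z, j) → p ∈ cell (k, z, j) := fun h => ((hsub p).1 h).1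
    have e1 : ∀ i b, fc3 (36 + i', z, j) i b = if i = 0 then
        (36 + i', if b then 4 else 3, j) else if i = 1 then
        (45 + sv (if b then nx k else k), z, j) else
        (36 + i', z, if b then 3 + (j + 1) % 3 else 3 + j) := by
      intro i b
      unfold fc3
      simp only
      rw [if_neg (by omega), if_neg (by omega), Nat.add_sub_cancel_left, hkk]
    have e2 : ∀ y, (y = 3 ∨ y = 4) → (p ∈ cell (36 + i', y, j) ↔
        p ∈ cell (36 + i', z, j) ∧ p ∈ cell (k, y, j)) := by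
      intro y hy
      exact cell_inter hB hW (p := p) (a := 36 + i') (a' := k) (b := z) (b' := y)
          (m := j) (m' := j) (by omega) (by omega) (by omega) (by omega) (by omega)
          (by omega) (by omega) (by omega) (by omega) bs'
          (by interval_cases z <;> rcases hy with rfl | rfl <;> decide) (Nat.and_self _)
    have e5 : p ∈ cell (k, z, j) → (p ∈ cell (k, 2, j) ↔ g p 1 = 0) :=
      hF 1 (fun _ => by decide) false p
    rw [e1]
    fin_cases i
    · cases b with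
      | false =>
        show p ∈ cell (36 + i', 3, j) ↔ p ∈ cell (36 + i', z, j) ∧ ang (g p) = 0
        rw [e2 3 (Or.inl rfl), cell_three]
        constructor
        · rintro ⟨h1, h2, h3⟩
          obtain ⟨θ, ⟨t1, t2⟩, t3, t4⟩ := hθ p h1
          have h6 : ang (g p) = θ := ang_eq (by linarith) (by linarith) t3 t4
          have h7 := (e5 (hsub' h1)).1 h2
          have h8 := (hS p (hsub' h1)).1.1 h3
          refine ⟨h1, ?_⟩
          rw [h6]
          by_contra h9
          have h10 : 0 < θ := lt_of_le_of_ne t1 (Ne.symm h9)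
          rcases t2.eq_or_lt with rfl | h11
          · rw [mul_one, Real.cos_pi] at t3
            linarith
          · have := Real.sin_pos_of_pos_of_lt_pi (x := Real.pi * θ) (by positivity) (by nlinarith)
            linarith
        · rintro ⟨h1, h2⟩
          obtain ⟨θ, ⟨t1, t2⟩, t3, t4⟩ := hθ p h1
          have h6 : ang (g p) = θ := ang_eq (by linarith) (by linarith) t3 t4
          rw [h6] at h2
          rw [h2, mul_zero] at t3 t4
          rw [Real.cos_zero] at t3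
          rw [Real.sin_zero] at t4
          exact ⟨h1, (e5 (hsub' h1)).2 t4, (hS p (hsub' h1)).1.2 (by rw [t3]; norm_num)⟩
      | true =>
        show p ∈ cell (36 + i', 4, j) ↔ p ∈ cell (36 + i', z, j) ∧ 1 - ang (g p) = 0
        rw [e2 4 (Or.inr rfl), cell_four]
        constructor
        · rintro ⟨h1, h2, h3⟩
          obtain ⟨θ, ⟨t1, t2⟩, t3, t4⟩ := hθ p h1
          have h6 : ang (g p) = θ := ang_eq (by linarith) (by linarith) t3 t4
          have h7 := (e5 (hsub' h1)).1 h2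
          have h8 := (hS p (hsub' h1)).2.1 h3
          refine ⟨h1, ?_⟩
          rw [h6]
          by_contra h9
          have h10 : θ < 1 := lt_of_le_of_ne t2 (fun h => h9 (by rw [h]; ring))
          rcases t1.eq_or_lt with rfl | h11
          · rw [mul_zero, Real.cos_zero] at t3
            linarith
          · have := Real.sin_pos_of_pos_of_lt_pi (x := Real.pi * θ) (by positivity) (by nlinarith)
            linarith
        · rintro ⟨h1, h2⟩
          obtain ⟨θ, ⟨t1, t2⟩, t3, t4⟩ := hθ p h1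
          have h6 : ang (g p) = θ := ang_eq (by linarith) (by linarith) t3 t4
          have h7 : θ = 1 := by linarith
          rw [h7, mul_one] at t3 t4
          rw [Real.cos_pi] at t3
          rw [Real.sin_pi] at t4
          exact ⟨h1, (e5 (hsub' h1)).2 t4, (hS p (hsub' h1)).2.2 (by rw [t3]; norm_num)⟩
    · cases b with
      | false =>
        exact fct (cell_inter hB hW (p := p) (a := 18 + k) (a' := 36 + i') (b := z) (b' := z)
          (m := j) (m' := j) (by omega) (by omega) (by omega) (by omega) (by omega)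
          (by omega) (by omega) (by omega) (by omega) (bv1') (zm_idem z) (Nat.and_self _))
          (hF 2 (fun _ => by decide) false p) hsub'
      | true =>
        exact fct (cell_inter hB hW (p := p) (a := 18 + nx k) (a' := 36 + i') (b := z) (b' := z)
          (m := j) (m' := j) (by omega) (by omega) (by omega) (by omega) (by omega)
          (by omega) (by omega) (by omega) (by omega) (bv2') (zm_idem z) (Nat.and_self _))
          (hF 2 (fun _ => by decide) true p) hsub'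
    · cases b with
      | false =>
        exact fct (cell_inter hB hW (p := p) (a := k) (a' := 36 + i') (b := z) (b' := z)
          (m := 3 + j) (m' := j) (by omega) (by omega) (by omega) (by omega) (by omega)
          (by omega) (by omega) (by omega) (by omega) (bs0) (zm_idem z) (wm_pt hj))
          (hF 3 (fun _ => by decide) false p) hsub'
      | true =>
        exact fct (cell_inter hB hW (p := p) (a := k) (a' := 36 + i') (b := z) (b' := z)
          (m := 3 + (j + 1) % 3) (m' := j) (by omega) (by omega) (by omega) (by omega) (by omega)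
          (by omega) (by omega) (by omega) (by omega) (bs0) (zm_idem z) (wm_nx hj))
          (hF 3 (fun _ => by decide) true p) hsub'

/-- The 3-cells are blocks. -/
theorem block3 (hB : StBase) (hW : StW) (h4 : StBlock4) : StBlock3 := by
  rintro ⟨a, z, w⟩ (⟨h1, h2, h3, h5⟩ | ⟨h1, h2, h3⟩ | ⟨h1, h2, h3, h5⟩)
  · simp only at h1 h2 h3 h5
    obtain ⟨j, rfl⟩ : ∃ j, w = 3 + j := ⟨w - 3, by omega⟩
    have e : sh3 (a, z, 3 + j) = true := by
      unfold sh3
      simp only
      rw [if_pos h1]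
      simp
      omega
    rw [e]
    exact block3_T1 hB hW h4 h1 h2 (by omega)
  · simp only at h1 h2 h3
    subst h2
    have e : sh3 (a, 2, w) = false := by
      unfold sh3
      simp only
      rw [if_pos h1]
      rfl
    rw [e]
    exact block3_T3 hB hW h4 h1 h3
  · simp only at h1 h2 h3 h5
    by_cases h6 : a < 36
    · obtain ⟨k, rfl⟩ : ∃ k, a = 18 + k := ⟨a - 18, by omega⟩
      have e : sh3 (18 + k, z, w) = true := by
        unfold sh3
        simp only
        rw [if_neg (by omega)]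
        simp
        omega
      rw [e]
      exact block3_T2 hB hW h4 (by omega) h3 h5
    · obtain ⟨k, rfl⟩ : ∃ k, a = 36 + k := ⟨a - 36, by omega⟩
      have e : sh3 (36 + k, z, w) = false := by
        unfold sh3
        simp only
        rw [if_neg (by omega)]
        simp
      rw [e]
      exact block3_T4 hB hW h4 (by omega) h3 h5

end Pool.Agent.Lib.MP_84984d_gt.Tri
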