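import Mathlib

set_option autoImplicit false

/-!
Smooth handlebodies and trisections (helper92).
-/

namespace Pool.Agent.Lib.MP_84984d_gt

open Set

/-! ## Blocks, handlebodies, trisections -/

/-- `x i` and `Hi L i x` are the two functions that are nonnegative on the standard block and
vanish on two opposite facets: `Hi` is `1 - x i`, except for the direction `1` of a lens, where
it is `1 - x₀² - x₁²`. -/
def Hi (L : Bool) {n : ℕ} (i : Fin (n + 2)) (x : Fin (n + 2) → ℝ) : ℝ :=
  if L = true ∧ i = 1 then 1 - x 0 ^ 2 - x 1 ^ 2 else 1 - x i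

/-- The directions of the standard block: all of them for a cube, those different from `0` for a
lens. -/
def Dirs (L : Bool) (n : ℕ) : Set (Fin (n + 2)) := {i | L = true → i ≠ 0}

/-- The standard blocks of dimension `n + 2`: the cube `0 ≤ x i ≤ 1` (`L = false`) and the lens
(`L = true`), the product of the half disc `x₀² + x₁² ≤ 1`, `0 ≤ x₁`, with a cube. -/
def Body (L : Bool) (n : ℕ) : Set (Fin (n + 2) → ℝ) :=
  {x | ∀ i ∈ Dirs L n, 0 ≤ x i ∧ 0 ≤ Hi L i x}

/-- The facets of the standard blocks; `(i, false)` and `(i, true)` are opposite. -/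
def Facet (L : Bool) (n : ℕ) (i : Fin (n + 2)) (b : Bool) : Set (Fin (n + 2) → ℝ) :=
  {x ∈ Body L n | (if b then Hi L i x else x i) = 0}

section

open scoped ContDiff

variable {E : Type*} [NormedAddCommGroup E] [NormedSpace ℝ E]

/-- `f` embeds a neighbourhood of the standard block smoothly, with a smooth left inverse. -/
def IsBlock (L : Bool) (n : ℕ) (f : (Fin (n + 2) → ℝ) → E) : Prop :=
  ∃ (U : Set (Fin (n + 2) → ℝ)) (V : Set E) (g : E → Fin (n + 2) → ℝ), IsOpen U ∧ IsOpen V ∧
    Body L n ⊆ U ∧ MapsTo f U V ∧ ContDiffOn ℝ ∞ f U ∧ ContDiffOn ℝ ∞ g V ∧ ∀ x ∈ U, g (f x) = x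

/-- Smooth handlebodies (with corners) of dimension `n + 2` and genus `k` in the space `E`: they
are built from a smoothly embedded block by adding smoothly embedded blocks, one at a time. The
new block meets the old part in a union of facets which contains exactly one of two opposite
facets (a ball of dimension `n + 1`), or it meets it exactly in two opposite disjoint facets
(the new block is a 1-handle). -/
inductive IsHandlebody (n : ℕ) : ℕ → Set E → Prop
  | block (L : Bool) (f : (Fin (n + 2) → ℝ) → E) (hf : IsBlock L n f) :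
      IsHandlebody n 0 (f '' Body L n)
  | glue (k : ℕ) (Y : Set E) (L : Bool) (f : (Fin (n + 2) → ℝ) → E)
      (F : Set (Fin (n + 2) × Bool)) (i : Fin (n + 2)) (hY : IsHandlebody n k Y)
      (hf : IsBlock L n f) (hF : ∀ φ ∈ F, φ.1 ∈ Dirs L n) (hi : i ∈ Dirs L n)
      (h1 : (i, false) ∈ F ↔ (i, true) ∉ F)
      (h : f '' Body L n ∩ Y = ⋃ φ ∈ F, f '' Facet L n φ.1 φ.2) :
      IsHandlebody n k (Y ∪ f '' Body L n)
  | handle (k : ℕ) (Y : Set E) (L : Bool) (f : (Fin (n + 2) → ℝ) → E) (i : Fin (n + 2))
      (hY : IsHandlebody n k Y) (hf : IsBlock L n f) (hi : i ∈ Dirs L n)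
      (hi' : L = true → i ≠ 1)
      (h : f '' Body L n ∩ Y = f '' Facet L n i false ∪ f '' Facet L n i true) :
      IsHandlebody n (k + 1) (Y ∪ f '' Body L n)

/-- The closed smooth 4-manifold `X` in `E` has an `(h; k₁, k₂, k₃)`-trisection: it is the union
of three smooth 4-dimensional handlebodies of genus `k₁, k₂, k₃` whose pairwise intersections are
smooth 3-dimensional handlebodies of genus `h`. Corners are to be rounded, as usual. A block of
dimension 4 inside `X` meets the old part exactly in facets, hence (invariance of domain) in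
boundary points of the old part. The pairwise intersections have no interior in `X`, so they lie
in the closed 3-manifolds `∂ X_i`, and the same holds there for the blocks of dimension 3. -/
def HasTrisection (X : Set E) (h k₁ k₂ k₃ : ℕ) : Prop :=
  ∃ X₁ X₂ X₃ : Set E, X = X₁ ∪ X₂ ∪ X₃ ∧ IsHandlebody 2 k₁ X₁ ∧ IsHandlebody 2 k₂ X₂ ∧
    IsHandlebody 2 k₃ X₃ ∧ IsHandlebody 1 h (X₁ ∩ X₂) ∧ IsHandlebody 1 h (X₂ ∩ X₃) ∧
    IsHandlebody 1 h (X₁ ∩ X₃)

end

end Pool.Agent.Lib.MP_84984d_gt
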