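import Pool.Agent.Lib.MP_84984d_gt.Tri.Stmts
import Pool.Agent.Lib.MP_84984d_gt.Smooth

set_option autoImplicit false

/-!
The general form of the smooth 4-blocks (helper92).
-/

namespace Pool.Agent.Lib.MP_84984d_gt.Tri

open Set
open scoped ContDiff

theorem contDiffOn_mk {E : Type*} [NormedAddCommGroup E] [NormedSpace ℝ E] {a b : E → ℝ}
    {s : Set E} (ha : ContDiffOn ℝ ∞ a s) (hb : ContDiffOn ℝ ∞ b s) :
    ContDiffOn ℝ ∞ (fun x => (⟨a x, b x⟩ : ℂ)) s :=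
  Complex.equivRealProdCLM.symm.contDiff.comp_contDiffOn (ha.prodMk hb)

theorem contDiff_re : ContDiff ℝ ∞ Complex.re := Complex.reCLM.contDiff

theorem contDiff_im : ContDiff ℝ ∞ Complex.im := Complex.imCLM.contDiff

theorem contDiffOn_sqrt' {E : Type*} [NormedAddCommGroup E] [NormedSpace ℝ E] {a : E → ℝ}
    {s : Set E} (ha : ContDiffOn ℝ ∞ a s) (h : ∀ x ∈ s, 0 < a x) :
    ContDiffOn ℝ ∞ (fun x => √(a x)) s :=
  ha.sqrt fun x hx => (h x hx).ne'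

theorem contDiff_ap {n : ℕ} (i : Fin n) : ContDiff ℝ ∞ (fun y : Fin n → ℝ => y i) :=
  contDiff_apply ℝ ℝ i

section

variable (c P1 P2 : ℂ) (R σ e : ℝ) (H : ℂ → ℝ) (j : ℕ) (T : ℂ → ℝ)

/-- The square of the norm of the point of the segment. -/
def nn (s : ℝ) : ℝ := (P1.re + s * (P2.re - P1.re)) ^ 2 + (P1.im + s * (P2.im - P1.im)) ^ 2

/-- The square of the distance from the centre. -/
def NN (y : Fin (2 + 2) → ℝ) : ℝ := R ^ 2 + (y 0 ^ 2 + y 1 ^ 2) * (nn P1 P2 (y 2) - R ^ 2)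

/-- The ratio of the distances from the centre. -/
noncomputable def mm (y : Fin (2 + 2) → ℝ) : ℝ := √(NN P1 P2 R y) / √(nn P1 P2 (y 2))

/-- The point of the base. -/
noncomputable def xx (y : Fin (2 + 2) → ℝ) : ℂ :=
  ⟨c.re + mm P1 P2 R y * (P1.re + y 2 * (P2.re - P1.re)),
    c.im + mm P1 P2 R y * (P1.im + y 2 * (P2.im - P1.im))⟩

/-- The scale of the `z`-part. -/
noncomputable def qq (s : ℝ) (x : ℂ) : ℝ := √(σ * (nn P1 P2 s - R ^ 2) * H x)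

/-- The embedding of the block. -/
noncomputable def ff (y : Fin (2 + 2) → ℝ) : (ℂ × ℂ) × ℂ :=
  ((xx c P1 P2 R y, ⟨y 0 * qq P1 P2 R σ H (y 2) (xx c P1 P2 R y),
    e * (y 1 * qq P1 P2 R σ H (y 2) (xx c P1 P2 R y))⟩), ew (j + y 3))

/-- The first linear form. -/
def l1 (x : ℂ) : ℝ := cr P1 (x - c)

/-- The second linear form. -/
def l2 (x : ℂ) : ℝ := cr (x - c) P2

/-- The coordinate along the segment. -/
noncomputable def ss (x : ℂ) : ℝ := l1 c P1 x / (l1 c P1 x + l2 c P2 x)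

/-- The left inverse. -/
noncomputable def gg (p : (ℂ × ℂ) × ℂ) : Fin (2 + 2) → ℝ :=
  ![p.1.2.re / qq P1 P2 R σ H (ss c P1 P2 p.1.1) p.1.1,
    e * p.1.2.im / qq P1 P2 R σ H (ss c P1 P2 p.1.1) p.1.1, ss c P1 P2 p.1.1, T p.2]

/-- The domain. -/
def UU : Set (Fin (2 + 2) → ℝ) :=
  {y | (0 < NN P1 P2 R y ∧ 0 < σ * (nn P1 P2 (y 2) - R ^ 2)) ∧ (-(1 / 2) < y 3 ∧ y 3 < 3 / 2)} ∩
    {y | 0 < H (xx c P1 P2 R y)}

/-- The domain of the left inverse. -/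
def VV (V : Set ℂ) : Set ((ℂ × ℂ) × ℂ) :=
  {p | (0 < l1 c P1 p.1.1 + l2 c P2 p.1.1 ∧ 0 < H p.1.1 ∧ p.2 ∈ V) ∧
    0 < σ * (nn P1 P2 (ss c P1 P2 p.1.1) - R ^ 2)}

variable {c P1 P2 R σ e H j T}

theorem nn_pos (hD : 0 < cr P1 P2) (s : ℝ) : 0 < nn P1 P2 s := by
  by_contra h
  have h1 : P1.re + s * (P2.re - P1.re) = 0 := by
    unfold nn at h
    nlinarith [sq_nonneg (P1.re + s * (P2.re - P1.re)), sq_nonneg (P1.im + s * (P2.im - P1.im))]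
  have h2 : P1.im + s * (P2.im - P1.im) = 0 := by
    unfold nn at h
    nlinarith [sq_nonneg (P1.re + s * (P2.re - P1.re)), sq_nonneg (P1.im + s * (P2.im - P1.im))]
  have h3 : s * cr P1 P2 = 0 := by
    unfold cr
    linear_combination P1.re * h2 - P1.im * h1
  have h4 : (1 - s) * cr P1 P2 = 0 := by
    unfold cr
    linear_combination P2.im * h1 - P2.re * h2
  nlinarith

theorem mm_pos (hD : 0 < cr P1 P2) {y : Fin (2 + 2) → ℝ} (hN : 0 < NN P1 P2 R y) :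
    0 < mm P1 P2 R y :=
  div_pos (Real.sqrt_pos.2 hN) (Real.sqrt_pos.2 (nn_pos hD _))

theorem l1_xx (y : Fin (2 + 2) → ℝ) : l1 c P1 (xx c P1 P2 R y) = mm P1 P2 R y * y 2 * cr P1 P2 := by
  unfold l1 xx cr
  simp only [Complex.sub_re, Complex.sub_im]
  ring

theorem l2_xx (y : Fin (2 + 2) → ℝ) :
    l2 c P2 (xx c P1 P2 R y) = mm P1 P2 R y * (1 - y 2) * cr P1 P2 := by
  unfold l2 xx cr
  simp only [Complex.sub_re, Complex.sub_im]
  ring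

theorem norm_xx (hD : 0 < cr P1 P2) {y : Fin (2 + 2) → ℝ} (hN : 0 < NN P1 P2 R y) :
    ‖xx c P1 P2 R y - c‖ ^ 2 = NN P1 P2 R y := by
  have h1 : mm P1 P2 R y ^ 2 * nn P1 P2 (y 2) = NN P1 P2 R y := by
    unfold mm
    rw [div_pow, Real.sq_sqrt hN.le, Real.sq_sqrt (nn_pos hD _).le,
      div_mul_cancel₀ _ (nn_pos hD _).ne']
  rw [← h1, norm_sq]
  unfold xx nn
  simp only [Complex.sub_re, Complex.sub_im]
  ring

theorem ss_xx (hD : 0 < cr P1 P2) {y : Fin (2 + 2) → ℝ} (hN : 0 < NN P1 P2 R y) :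
    ss c P1 P2 (xx c P1 P2 R y) = y 2 := by
  have h1 := mm_pos hD hN
  unfold ss
  rw [l1_xx, l2_xx]
  field_simp
  ring

theorem gg_ff (he : e = 1 ∨ e = -1) (hD : 0 < cr P1 P2)
    (hT : ∀ t : ℝ, -(1 / 2) < t → t < 3 / 2 → T (ew (j + t)) = t) {y : Fin (2 + 2) → ℝ}
    (hy : y ∈ UU c P1 P2 R σ H) : gg c P1 P2 R σ e H T (ff c P1 P2 R σ e H j y) = y := by
  obtain ⟨⟨⟨h1, h2⟩, h3, h4⟩, h5⟩ := hy
  have h5 : 0 < H (xx c P1 P2 R y) := h5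
  have h6 : 0 < qq P1 P2 R σ H (y 2) (xx c P1 P2 R y) := Real.sqrt_pos.2 (mul_pos h2 h5)
  have he' : e * e = 1 := by rcases he with rfl | rfl <;> norm_num
  funext i
  unfold gg ff
  simp only [ss_xx hD h1]
  fin_cases i
  · simp [h6.ne']
  · simp only [Fin.mk_one, Matrix.cons_val_one, Matrix.cons_val_zero]
    rw [← mul_assoc, he', one_mul, mul_div_assoc, div_self h6.ne', mul_one]
  · rfl
  · simp only [Fin.reduceFinMk, Matrix.cons_val]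
    exact hT _ h3 h4

theorem nn_smooth : ContDiff ℝ ∞ (nn P1 P2) := by
  unfold nn
  fun_prop

theorem NN_smooth : ContDiff ℝ ∞ (NN P1 P2 R) := by
  unfold NN
  have h1 : ContDiff ℝ ∞ (fun y : Fin (2 + 2) → ℝ => nn P1 P2 (y 2)) :=
    nn_smooth.comp (contDiff_ap 2)
  exact contDiff_const.add ((((contDiff_ap 0).pow 2).add ((contDiff_ap 1).pow 2)).mul
    (h1.sub contDiff_const))

theorem mm_smooth (hD : 0 < cr P1 P2) : ContDiffOn ℝ ∞ (mm P1 P2 R) {y | 0 < NN P1 P2 R y} := by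
  unfold mm
  refine (contDiffOn_sqrt' NN_smooth.contDiffOn fun y hy => hy).div
    (contDiffOn_sqrt' (nn_smooth.comp (contDiff_ap 2)).contDiffOn fun _ _ => nn_pos hD _)
    fun _ _ => (Real.sqrt_pos.2 (nn_pos hD _)).ne'

theorem xx_smooth (hD : 0 < cr P1 P2) :
    ContDiffOn ℝ ∞ (xx c P1 P2 R) {y | 0 < NN P1 P2 R y} := by
  unfold xx
  have h1 := mm_smooth (R := R) hD
  exact contDiffOn_mk
    (contDiffOn_const.add (h1.mul (contDiffOn_const.add ((contDiff_ap 2).contDiffOn.mul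
      contDiffOn_const))))
    (contDiffOn_const.add (h1.mul (contDiffOn_const.add ((contDiff_ap 2).contDiffOn.mul
      contDiffOn_const))))

theorem UU_open (hD : 0 < cr P1 P2) (hH : ContDiff ℝ ∞ H) : IsOpen (UU c P1 P2 R σ H) := by
  have h1 : IsOpen {y : Fin (2 + 2) → ℝ | (0 < NN P1 P2 R y ∧
      0 < σ * (nn P1 P2 (y 2) - R ^ 2)) ∧ (-(1 / 2) < y 3 ∧ y 3 < 3 / 2)} := by
    have h2 : Continuous (NN P1 P2 R) := NN_smooth.continuous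
    have h3 : Continuous (nn P1 P2) := nn_smooth.continuous
    have h4 : Continuous (fun y : Fin (2 + 2) → ℝ => σ * (nn P1 P2 (y 2) - R ^ 2)) :=
      continuous_const.mul ((h3.comp (continuous_apply 2)).sub continuous_const)
    have h5 : Continuous (fun y : Fin (2 + 2) → ℝ => y 3) := continuous_apply 3
    have a1 : IsOpen {y : Fin (2 + 2) → ℝ | 0 < NN P1 P2 R y} := isOpen_lt continuous_const h2
    have a2 : IsOpen {y : Fin (2 + 2) → ℝ | 0 < σ * (nn P1 P2 (y 2) - R ^ 2)} :=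
      isOpen_lt continuous_const h4
    have a3 : IsOpen {y : Fin (2 + 2) → ℝ | -(1 / 2) < y 3} := isOpen_lt continuous_const h5
    have a4 : IsOpen {y : Fin (2 + 2) → ℝ | y 3 < 3 / 2} := isOpen_lt h5 continuous_const
    exact (a1.inter a2).inter (a3.inter a4)
  have h2 : ContinuousOn (fun y => H (xx c P1 P2 R y)) {y : Fin (2 + 2) → ℝ |
      (0 < NN P1 P2 R y ∧ 0 < σ * (nn P1 P2 (y 2) - R ^ 2)) ∧ (-(1 / 2) < y 3 ∧ y 3 < 3 / 2)} :=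
    hH.continuous.comp_continuousOn ((xx_smooth hD).continuousOn.mono fun y hy => hy.1.1)
  exact h2.isOpen_inter_preimage h1 isOpen_Ioi

theorem ff_smooth (hD : 0 < cr P1 P2) (hH : ContDiff ℝ ∞ H) :
    ContDiffOn ℝ ∞ (ff c P1 P2 R σ e H j) (UU c P1 P2 R σ H) := by
  have h1 : ContDiffOn ℝ ∞ (xx c P1 P2 R) (UU c P1 P2 R σ H) :=
    (xx_smooth hD).mono fun y hy => hy.1.1.1
  have h2 : ContDiffOn ℝ ∞ (fun y => qq P1 P2 R σ H (y 2) (xx c P1 P2 R y))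
      (UU c P1 P2 R σ H) := by
    unfold qq
    refine contDiffOn_sqrt' ?_ fun y hy => mul_pos hy.1.1.2 hy.2
    exact (contDiffOn_const.mul (((nn_smooth.comp (contDiff_ap 2)).contDiffOn).sub
      contDiffOn_const)).mul (hH.comp_contDiffOn h1)
  have h3 : ContDiff ℝ ∞ (fun y : Fin (2 + 2) → ℝ => ew (j + y 3)) := by
    unfold ew
    have h4 : ContDiff ℝ ∞ (fun y : Fin (2 + 2) → ℝ => 2 * Real.pi * ((j : ℝ) + y 3) / 3) :=
      (contDiff_const.mul (contDiff_const.add (contDiff_ap 3))).div_const 3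
    exact ((Complex.ofRealCLM.contDiff.comp h4).mul contDiff_const).cexp
  unfold ff
  exact (h1.prodMk (contDiffOn_mk ((contDiff_ap 0).contDiffOn.mul h2)
    (contDiffOn_const.mul ((contDiff_ap 1).contDiffOn.mul h2)))).prodMk h3.contDiffOn

theorem l1_smooth : ContDiff ℝ ∞ (l1 c P1) := by
  unfold l1 cr
  have h1 : ContDiff ℝ ∞ (fun x : ℂ => x - c) := contDiff_id.sub contDiff_const
  exact (contDiff_const.mul (contDiff_im.comp h1)).sub (contDiff_const.mul (contDiff_re.comp h1))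

theorem l2_smooth : ContDiff ℝ ∞ (l2 c P2) := by
  unfold l2 cr
  have h1 : ContDiff ℝ ∞ (fun x : ℂ => x - c) := contDiff_id.sub contDiff_const
  exact ((contDiff_re.comp h1).mul contDiff_const).sub ((contDiff_im.comp h1).mul contDiff_const)

theorem ss_smooth : ContDiffOn ℝ ∞ (ss c P1 P2) {x | 0 < l1 c P1 x + l2 c P2 x} :=
  l1_smooth.contDiffOn.div (l1_smooth.add l2_smooth).contDiffOn fun _ hx => ne_of_gt hx

theorem VV_open {V : Set ℂ} (hV : IsOpen V) (hH : ContDiff ℝ ∞ H) :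
    IsOpen (VV c P1 P2 R σ H V) := by
  have h1 : IsOpen {p : (ℂ × ℂ) × ℂ | 0 < l1 c P1 p.1.1 + l2 c P2 p.1.1 ∧ 0 < H p.1.1 ∧
      p.2 ∈ V} := by
    have h3 : Continuous (fun p : (ℂ × ℂ) × ℂ => p.1.1) := continuous_fst.comp continuous_fst
    have h4 : Continuous (fun x : ℂ => l1 c P1 x + l2 c P2 x) :=
      l1_smooth.continuous.add l2_smooth.continuous
    have a1 : IsOpen {p : (ℂ × ℂ) × ℂ | 0 < l1 c P1 p.1.1 + l2 c P2 p.1.1} :=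
      isOpen_lt continuous_const (h4.comp h3)
    have a2 : IsOpen {p : (ℂ × ℂ) × ℂ | 0 < H p.1.1} :=
      isOpen_lt continuous_const (hH.continuous.comp h3)
    have a3 : IsOpen {p : (ℂ × ℂ) × ℂ | p.2 ∈ V} := hV.preimage continuous_snd
    exact a1.inter (a2.inter a3)
  have h2 : ContinuousOn (fun p : (ℂ × ℂ) × ℂ => σ * (nn P1 P2 (ss c P1 P2 p.1.1) - R ^ 2))
      {p : (ℂ × ℂ) × ℂ | 0 < l1 c P1 p.1.1 + l2 c P2 p.1.1 ∧ 0 < H p.1.1 ∧ p.2 ∈ V} := by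
    refine continuousOn_const.mul (ContinuousOn.sub (nn_smooth.continuous.comp_continuousOn ?_)
      continuousOn_const)
    exact ss_smooth.continuousOn.comp (continuous_fst.comp continuous_fst).continuousOn
      fun p hp => hp.1
  exact h2.isOpen_inter_preimage h1 isOpen_Ioi

theorem gg_smooth {V : Set ℂ} (hT : ContDiffOn ℝ ∞ T V) (hH : ContDiff ℝ ∞ H) :
    ContDiffOn ℝ ∞ (gg c P1 P2 R σ e H T) (VV c P1 P2 R σ H V) := by
  have h0 : ContDiff ℝ ∞ (fun p : (ℂ × ℂ) × ℂ => p.1.1) := contDiff_fst.comp contDiff_fst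
  have h0' : ContDiff ℝ ∞ (fun p : (ℂ × ℂ) × ℂ => p.1.2) := contDiff_snd.comp contDiff_fst
  have h1 : ContDiffOn ℝ ∞ (fun p : (ℂ × ℂ) × ℂ => ss c P1 P2 p.1.1) (VV c P1 P2 R σ H V) :=
    ss_smooth.comp h0.contDiffOn fun p hp => hp.1.1
  have h2 : ContDiffOn ℝ ∞ (fun p : (ℂ × ℂ) × ℂ => qq P1 P2 R σ H (ss c P1 P2 p.1.1) p.1.1)
      (VV c P1 P2 R σ H V) := by
    unfold qq
    refine contDiffOn_sqrt' ?_ fun y hy => mul_pos hy.2 hy.1.2.1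
    exact (contDiffOn_const.mul ((nn_smooth.comp_contDiffOn h1).sub
      contDiffOn_const)).mul (hH.comp h0).contDiffOn
  have h3 : ∀ p ∈ VV c P1 P2 R σ H V, qq P1 P2 R σ H (ss c P1 P2 p.1.1) p.1.1 ≠ 0 :=
    fun p hp => (Real.sqrt_pos.2 (mul_pos hp.2 hp.1.2.1)).ne'
  refine contDiffOn_pi.2 fun i => ?_
  unfold gg
  fin_cases i
  · exact ((contDiff_re.comp h0').contDiffOn).div h2 h3
  · exact (contDiffOn_const.mul (contDiff_im.comp h0').contDiffOn).div h2 h3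
  · exact h1
  · exact hT.comp contDiff_snd.contDiffOn fun p hp => hp.1.2.2

variable (c P1 P2 σ e j) in
/-- The block. -/
def cG : Set ((ℂ × ℂ) × ℂ) :=
  {p | ‖p.1.2‖ ^ 2 = GG 2 p.1.1 ∧ ‖p.2‖ = 1 ∧ (0 ≤ l1 c P1 p.1.1 ∧ 0 ≤ l2 c P2 p.1.1 ∧
    0 ≤ σ * (cr P1 P2 - l1 c P1 p.1.1 - l2 c P2 p.1.1)) ∧ 0 ≤ e * p.1.2.im ∧
    p.2 ∈ (fun t : ℝ => ew (j + t)) '' Icc 0 1}

theorem mem_body {y : Fin (2 + 2) → ℝ} : y ∈ Body true 2 ↔
    (0 ≤ y 1 ∧ y 0 ^ 2 + y 1 ^ 2 ≤ 1) ∧ (0 ≤ y 2 ∧ y 2 ≤ 1) ∧ (0 ≤ y 3 ∧ y 3 ≤ 1) := by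
  have h1 : y ∈ Body true 2 ↔ ∀ i : Fin (2 + 2), (true = true → i ≠ 0) →
    0 ≤ y i ∧ 0 ≤ Hi true i y := Iff.rfl
  rw [h1]
  constructor
  · intro h
    have b1 := h 1 (fun _ => by decide)
    have b2 := h 2 (fun _ => by decide)
    have b3 := h 3 (fun _ => by decide)
    have c1 : Hi true 1 y = 1 - y 0 ^ 2 - y 1 ^ 2 := if_pos ⟨rfl, rfl⟩
    have c2 : Hi true 2 y = 1 - y 2 := if_neg (by decide)
    have c3 : Hi true 3 y = 1 - y 3 := if_neg (by decide)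
    rw [c1] at b1
    rw [c2] at b2
    rw [c3] at b3
    exact ⟨⟨b1.1, by linarith [b1.2]⟩, ⟨b2.1, by linarith [b2.2]⟩, b3.1, by linarith [b3.2]⟩
  · rintro ⟨⟨a1, a2⟩, ⟨a3, a4⟩, a5, a6⟩ i hi
    have c1 : Hi true 1 y = 1 - y 0 ^ 2 - y 1 ^ 2 := if_pos ⟨rfl, rfl⟩
    have c2 : Hi true 2 y = 1 - y 2 := if_neg (by decide)
    have c3 : Hi true 3 y = 1 - y 3 := if_neg (by decide)
    fin_cases i
    · exact absurd rfl (hi rfl)
    · exact ⟨a1, by rw [Fin.mk_one, c1]; linarith⟩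
    · exact ⟨a3, by simp only [Fin.reduceFinMk]; rw [c2]; linarith⟩
    · exact ⟨a5, by simp only [Fin.reduceFinMk]; rw [c3]; linarith⟩

theorem ew_norm (t : ℝ) : ‖ew t‖ = 1 := by
  unfold ew
  exact Complex.norm_exp_ofReal_mul_I _

/-- The inequalities between the numbers. -/
theorem aux1 {R n ρ : ℝ} (hR : 0 < R) (hn : 0 < n) (h0 : 0 ≤ ρ) (h1 : ρ ≤ 1) : 0 < R ^ 2 + ρ * (n - R ^ 2) := by
  have h2 : 0 < R ^ 2 := by positivity
  have h3 : R ^ 2 + ρ * (n - R ^ 2) = (1 - ρ) * R ^ 2 + ρ * n := by ring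
  rw [h3]
  rcases h0.eq_or_lt with rfl | h0
  · simpa using h2
  · have h4 : 0 < ρ * n := mul_pos h0 hn
    have h5 : 0 ≤ (1 - ρ) * R ^ 2 := mul_nonneg (by linarith) h2.le
    linarith

theorem aux2 {σ R n ρ m : ℝ} (hn : 0 < n) (h1 : ρ ≤ 1)
    (h : 0 < σ * (n - R ^ 2)) (hm : 0 < m) (hm2 : m ^ 2 * n = R ^ 2 + ρ * (n - R ^ 2)) :
    0 ≤ σ * (1 - m) := by
  have h3 : σ * (1 - m) * ((1 + m) * n) = (1 - ρ) * (σ * (n - R ^ 2)) := by
    linear_combination -σ * hm2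
  have h4 : 0 ≤ σ * (1 - m) * ((1 + m) * n) := by
    rw [h3]
    exact mul_nonneg (by linarith) h.le
  have h5 : 0 < (1 + m) * n := by positivity
  exact nonneg_of_mul_nonneg_left h4 h5

theorem ff_mem (he : e = 1 ∨ e = -1) (hR : 0 < R) (hD : 0 < cr P1 P2)
    (hG : ∀ x, GG 2 x = σ * (‖x - c‖ ^ 2 - R ^ 2) * H x)
    (hseg : ∀ s, 0 ≤ s → s ≤ 1 → 0 < σ * (nn P1 P2 s - R ^ 2))
    (hpos : ∀ x, 0 ≤ l1 c P1 x → 0 ≤ l2 c P2 x →
      0 ≤ σ * (cr P1 P2 - l1 c P1 x - l2 c P2 x) → 0 < H x)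
    {y : Fin (2 + 2) → ℝ} (hy : y ∈ Body true 2) :
    y ∈ UU c P1 P2 R σ H ∧ ff c P1 P2 R σ e H j y ∈ cG c P1 P2 σ e j := by
  obtain ⟨⟨h1, h2⟩, ⟨h3, h4⟩, h5, h6⟩ := mem_body.1 hy
  have he' : e * e = 1 := by rcases he with rfl | rfl <;> norm_num
  have hn := nn_pos hD (y 2)
  have hs := hseg _ h3 h4
  have hρ : 0 ≤ y 0 ^ 2 + y 1 ^ 2 := by positivity
  have hN : 0 < NN P1 P2 R y := aux1 hR hn hρ h2
  have hm := mm_pos hD hN
  have hm2 : mm P1 P2 R y ^ 2 * nn P1 P2 (y 2) = NN P1 P2 R y := by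
    unfold mm
    rw [div_pow, Real.sq_sqrt hN.le, Real.sq_sqrt hn.le, div_mul_cancel₀ _ hn.ne']
  have hsm : 0 ≤ σ * (1 - mm P1 P2 R y) := aux2 hn h2 hs hm hm2
  have a1 : 0 ≤ l1 c P1 (xx c P1 P2 R y) := by
    rw [l1_xx]
    positivity
  have a2 : 0 ≤ l2 c P2 (xx c P1 P2 R y) := by
    rw [l2_xx]
    exact mul_nonneg (mul_nonneg hm.le (by linarith)) hD.le
  have a3 : 0 ≤ σ * (cr P1 P2 - l1 c P1 (xx c P1 P2 R y) - l2 c P2 (xx c P1 P2 R y)) := by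
    rw [l1_xx, l2_xx]
    have : σ * (cr P1 P2 - mm P1 P2 R y * y 2 * cr P1 P2 - mm P1 P2 R y * (1 - y 2) * cr P1 P2)
      = σ * (1 - mm P1 P2 R y) * cr P1 P2 := by ring
    rw [this]
    exact mul_nonneg hsm hD.le
  have hHx := hpos _ a1 a2 a3
  have hq : 0 < σ * (nn P1 P2 (y 2) - R ^ 2) * H (xx c P1 P2 R y) := mul_pos hs hHx
  refine ⟨⟨⟨⟨hN, hs⟩, by linarith, by linarith⟩, hHx⟩, ?_, ew_norm _, ⟨a1, a2, a3⟩, ?_, ?_⟩
  · unfold ff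
    simp only
    rw [hG, norm_xx hD hN, norm_sq]
    simp only
    have hq2 : qq P1 P2 R σ H (y 2) (xx c P1 P2 R y) ^ 2 =
        σ * (nn P1 P2 (y 2) - R ^ 2) * H (xx c P1 P2 R y) := by
      unfold qq
      rw [Real.sq_sqrt hq.le]
    unfold NN
    linear_combination (y 0 ^ 2 + e * e * y 1 ^ 2) * hq2 +
      (y 1 ^ 2) * (σ * (nn P1 P2 (y 2) - R ^ 2) * H (xx c P1 P2 R y)) * he'
  · unfold ff
    simp only
    rw [← mul_assoc, he', one_mul]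
    exact mul_nonneg h1 (Real.sqrt_nonneg _)
  · exact ⟨y 3, ⟨h5, h6⟩, rfl⟩

/-- The facts about a point of the block. -/
theorem gg_facts (hσ : σ = 1 ∨ σ = -1) (hR : 0 < R) (hD : 0 < cr P1 P2)
    (hG : ∀ x, GG 2 x = σ * (‖x - c‖ ^ 2 - R ^ 2) * H x)
    (hseg : ∀ s, 0 ≤ s → s ≤ 1 → 0 < σ * (nn P1 P2 s - R ^ 2))
    (hpos : ∀ x, 0 ≤ l1 c P1 x → 0 ≤ l2 c P2 x →
      0 ≤ σ * (cr P1 P2 - l1 c P1 x - l2 c P2 x) → 0 < H x)
    {p : (ℂ × ℂ) × ℂ} (hp : p ∈ cG c P1 P2 σ e j) :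
    0 < l1 c P1 p.1.1 + l2 c P2 p.1.1 ∧ 0 ≤ ss c P1 P2 p.1.1 ∧ ss c P1 P2 p.1.1 ≤ 1 ∧
    0 < H p.1.1 ∧ 0 < qq P1 P2 R σ H (ss c P1 P2 p.1.1) p.1.1 ∧
    (qq P1 P2 R σ H (ss c P1 P2 p.1.1) p.1.1) ^ 2 =
      σ * (nn P1 P2 (ss c P1 P2 p.1.1) - R ^ 2) * H p.1.1 := by
  obtain ⟨h1, h2, ⟨h3, h4, h5⟩, h6, h7⟩ := hp
  have hHx := hpos _ h3 h4 h5
  have hs : 0 < l1 c P1 p.1.1 + l2 c P2 p.1.1 := by
    by_contra hs
    have e1 : l1 c P1 p.1.1 = 0 := by linarith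
    have e2 : l2 c P2 p.1.1 = 0 := by linarith
    have e3 : p.1.1 - c = 0 := by
      unfold l1 cr at e1
      unfold l2 cr at e2
      unfold cr at hD
      apply Complex.ext
      · have : (P1.re * P2.im - P1.im * P2.re) * (p.1.1 - c).re = 0 := by
          linear_combination P1.re * e2 + P2.re * e1
        simpa [hD.ne'] using this
      · have : (P1.re * P2.im - P1.im * P2.re) * (p.1.1 - c).im = 0 := by
          linear_combination P1.im * e2 + P2.im * e1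
        simpa [hD.ne'] using this
    have e4 := hG p.1.1
    rw [e3, norm_zero, ← h1] at e4
    rw [e1, e2] at h5
    rcases hσ with rfl | rfl
    · nlinarith [sq_nonneg ‖p.1.2‖, mul_pos (pow_pos hR 2) hHx]
    · linarith
  have s0 : 0 ≤ ss c P1 P2 p.1.1 := div_nonneg h3 hs.le
  have s1 : ss c P1 P2 p.1.1 ≤ 1 := (div_le_one hs).2 (by linarith)
  have hq := mul_pos (hseg _ s0 s1) hHx
  refine ⟨hs, s0, s1, hHx, Real.sqrt_pos.2 hq, ?_⟩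
  unfold qq
  rw [Real.sq_sqrt hq.le]

/-- Cramer's rule. -/
theorem cramer (hD : 0 < cr P1 P2) {x : ℂ} (hs : 0 < l1 c P1 x + l2 c P2 x) :
    (x - c).re = (l1 c P1 x + l2 c P2 x) / cr P1 P2 *
      (P1.re + ss c P1 P2 x * (P2.re - P1.re)) ∧
    (x - c).im = (l1 c P1 x + l2 c P2 x) / cr P1 P2 *
      (P1.im + ss c P1 P2 x * (P2.im - P1.im)) := by
  have hs' := hs.ne'
  have hD' := hD.ne'
  constructor
  · unfold ss
    rw [div_mul_eq_mul_div, eq_div_iff hD', mul_add, ← mul_assoc, mul_div_cancel₀ _ hs']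
    unfold l1 l2 cr
    ring
  · unfold ss
    rw [div_mul_eq_mul_div, eq_div_iff hD', mul_add, ← mul_assoc, mul_div_cancel₀ _ hs']
    unfold l1 l2 cr
    ring

theorem norm_cramer (hD : 0 < cr P1 P2) {x : ℂ} (hs : 0 < l1 c P1 x + l2 c P2 x) :
    ‖x - c‖ ^ 2 = ((l1 c P1 x + l2 c P2 x) / cr P1 P2) ^ 2 * nn P1 P2 (ss c P1 P2 x) := by
  obtain ⟨h1, h2⟩ := cramer hD hs
  rw [norm_sq, h1, h2]
  unfold nn
  ring

/-- The first two coordinates of the left inverse. -/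
theorem gg_rho (he : e = 1 ∨ e = -1) (hσ : σ = 1 ∨ σ = -1) (hR : 0 < R) (hD : 0 < cr P1 P2)
    (hG : ∀ x, GG 2 x = σ * (‖x - c‖ ^ 2 - R ^ 2) * H x)
    (hseg : ∀ s, 0 ≤ s → s ≤ 1 → 0 < σ * (nn P1 P2 s - R ^ 2))
    (hpos : ∀ x, 0 ≤ l1 c P1 x → 0 ≤ l2 c P2 x →
      0 ≤ σ * (cr P1 P2 - l1 c P1 x - l2 c P2 x) → 0 < H x)
    {p : (ℂ × ℂ) × ℂ} (hp : p ∈ cG c P1 P2 σ e j) :
    ((gg c P1 P2 R σ e H T p 0) ^ 2 + (gg c P1 P2 R σ e H T p 1) ^ 2) *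
      (nn P1 P2 (ss c P1 P2 p.1.1) - R ^ 2) =
      ((l1 c P1 p.1.1 + l2 c P2 p.1.1) / cr P1 P2) ^ 2 * nn P1 P2 (ss c P1 P2 p.1.1) - R ^ 2 := by
  obtain ⟨h1, h2, h3, h4, h5, h6⟩ := gg_facts hσ hR hD hG hseg hpos hp
  have he' : e * e = 1 := by rcases he with rfl | rfl <;> norm_num
  have h7 : (gg c P1 P2 R σ e H T p 0) ^ 2 + (gg c P1 P2 R σ e H T p 1) ^ 2 =
      ‖p.1.2‖ ^ 2 / (qq P1 P2 R σ H (ss c P1 P2 p.1.1) p.1.1) ^ 2 := by
    unfold gg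
    simp only [Matrix.cons_val_zero, Matrix.cons_val_one]
    rw [norm_sq, div_pow, div_pow, ← add_div]
    congr 1
    linear_combination p.1.2.im ^ 2 * he'
  have h8 := hseg _ h2 h3
  have h9 : σ ≠ 0 := by rcases hσ with rfl | rfl <;> norm_num
  have h10 : nn P1 P2 (ss c P1 P2 p.1.1) - R ^ 2 ≠ 0 := by
    intro h
    rw [h, mul_zero] at h8
    exact lt_irrefl _ h8
  rw [h7, h6, hp.1, hG, ← norm_cramer hD h1]
  field_simp

/-- `ρ = 1` exactly on the segment. -/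
theorem rho_le {σ R n ρ μ : ℝ} (hn : 0 < n) (hμ : 0 < μ) (h : 0 < σ * (n - R ^ 2))
    (hρ : ρ * (n - R ^ 2) = μ ^ 2 * n - R ^ 2) (h1 : 0 ≤ σ * (1 - μ)) : ρ ≤ 1 := by
  have h2 : (1 - ρ) * (σ * (n - R ^ 2)) = σ * (1 - μ) * ((1 + μ) * n) := by
    linear_combination -σ * hρ
  have h3 : 0 ≤ (1 - ρ) * (σ * (n - R ^ 2)) := by
    rw [h2]
    positivity
  have := nonneg_of_mul_nonneg_left h3 h
  linarith

theorem rho_eq {σ R n ρ μ : ℝ} (hσ : σ = 1 ∨ σ = -1) (hn : 0 < n) (hμ : 0 < μ)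
    (h : 0 < σ * (n - R ^ 2)) (hρ : ρ * (n - R ^ 2) = μ ^ 2 * n - R ^ 2) :
    ρ = 1 ↔ μ = 1 := by
  have h2 : (1 - ρ) * (σ * (n - R ^ 2)) = σ * (1 - μ) * ((1 + μ) * n) := by
    linear_combination -σ * hρ
  have h9 : σ ≠ 0 := by rcases hσ with rfl | rfl <;> norm_num
  constructor
  · intro h3
    rw [h3, sub_self, zero_mul] at h2
    have h4 : (1 + μ) * n ≠ 0 := by positivity
    have h5 := (mul_eq_zero.1 h2.symm).resolve_right h4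
    have h6 := (mul_eq_zero.1 h5).resolve_left h9
    linarith
  · intro h3
    rw [h3, sub_self, mul_zero, zero_mul] at h2
    have h6 := (mul_eq_zero.1 h2).resolve_right h.ne'
    linarith

theorem gg_mem (he : e = 1 ∨ e = -1) (hσ : σ = 1 ∨ σ = -1) (hR : 0 < R) (hD : 0 < cr P1 P2)
    (hG : ∀ x, GG 2 x = σ * (‖x - c‖ ^ 2 - R ^ 2) * H x)
    (hseg : ∀ s, 0 ≤ s → s ≤ 1 → 0 < σ * (nn P1 P2 s - R ^ 2))
    (hpos : ∀ x, 0 ≤ l1 c P1 x → 0 ≤ l2 c P2 x →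
      0 ≤ σ * (cr P1 P2 - l1 c P1 x - l2 c P2 x) → 0 < H x)
    (hT : ∀ t : ℝ, -(1 / 2) < t → t < 3 / 2 → T (ew (j + t)) = t)
    {p : (ℂ × ℂ) × ℂ} (hp : p ∈ cG c P1 P2 σ e j) :
    gg c P1 P2 R σ e H T p ∈ Body true 2 ∧
      ff c P1 P2 R σ e H j (gg c P1 P2 R σ e H T p) = p := by
  obtain ⟨h1, h2, h3, h4, h5, h6⟩ := gg_facts hσ hR hD hG hseg hpos hp
  have hρ := gg_rho (T := T) he hσ hR hD hG hseg hpos hp
  have he' : e * e = 1 := by rcases he with rfl | rfl <;> norm_num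
  have hn := nn_pos hD (ss c P1 P2 p.1.1)
  have hμ : 0 < (l1 c P1 p.1.1 + l2 c P2 p.1.1) / cr P1 P2 := div_pos h1 hD
  have hs := hseg _ h2 h3
  obtain ⟨t, ⟨ht0, ht1⟩, ht⟩ := hp.2.2.2.2
  have ht : ew (j + t) = p.2 := ht
  have hTt : T p.2 = t := by
    rw [← ht]
    exact hT t (by linarith) (by linarith)
  have hμ1 : 0 ≤ σ * (1 - (l1 c P1 p.1.1 + l2 c P2 p.1.1) / cr P1 P2) := by
    have h7 := hp.2.2.1.2.2
    have h8 : σ * (1 - (l1 c P1 p.1.1 + l2 c P2 p.1.1) / cr P1 P2) =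
        σ * (cr P1 P2 - l1 c P1 p.1.1 - l2 c P2 p.1.1) / cr P1 P2 := by
      field_simp
      ring
    rw [h8]
    exact div_nonneg h7 hD.le
  have hρ1 := rho_le hn hμ hs hρ hμ1
  have g2 : gg c P1 P2 R σ e H T p 2 = ss c P1 P2 p.1.1 := rfl
  have g3 : gg c P1 P2 R σ e H T p 3 = t := hTt
  have g0 : gg c P1 P2 R σ e H T p 0 =
    p.1.2.re / qq P1 P2 R σ H (ss c P1 P2 p.1.1) p.1.1 := rfl
  have g1 : gg c P1 P2 R σ e H T p 1 =
    e * p.1.2.im / qq P1 P2 R σ H (ss c P1 P2 p.1.1) p.1.1 := rfl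
  refine ⟨mem_body.2 ⟨⟨?_, hρ1⟩, ⟨h2, h3⟩, ?_⟩, ?_⟩
  · rw [g1]
    exact div_nonneg hp.2.2.2.1 h5.le
  · rw [g3]
    exact ⟨ht0, ht1⟩
  · have hN : NN P1 P2 R (gg c P1 P2 R σ e H T p) =
        ((l1 c P1 p.1.1 + l2 c P2 p.1.1) / cr P1 P2) ^ 2 * nn P1 P2 (ss c P1 P2 p.1.1) := by
      unfold NN
      rw [g2, hρ]
      ring
    have hm : mm P1 P2 R (gg c P1 P2 R σ e H T p) =
        (l1 c P1 p.1.1 + l2 c P2 p.1.1) / cr P1 P2 := by
      unfold mm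
      rw [hN, g2, Real.sqrt_mul (by positivity), Real.sqrt_sq hμ.le,
        mul_div_assoc, div_self (Real.sqrt_pos.2 hn).ne', mul_one]
    have hx : xx c P1 P2 R (gg c P1 P2 R σ e H T p) = p.1.1 := by
      obtain ⟨c1, c2⟩ := cramer hD h1
      unfold xx
      rw [hm, g2, ← c1, ← c2]
      apply Complex.ext
      · simp
      · simp
    unfold ff
    rw [hx, g0, g1, g2, g3, ht]
    apply Prod.ext
    · apply Prod.ext
      · rfl
      · apply Complex.ext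
        · simp only
          rw [div_mul_cancel₀ _ h5.ne']
        · simp only
          rw [div_mul_cancel₀ _ h5.ne', ← mul_assoc, he', one_mul]
    · rfl

/-- The embedding is a block. -/
theorem ff_block (he : e = 1 ∨ e = -1) (hR : 0 < R) (hD : 0 < cr P1 P2)
    (hH : ContDiff ℝ ∞ H)
    (hG : ∀ x, GG 2 x = σ * (‖x - c‖ ^ 2 - R ^ 2) * H x)
    (hseg : ∀ s, 0 ≤ s → s ≤ 1 → 0 < σ * (nn P1 P2 s - R ^ 2))
    (hpos : ∀ x, 0 ≤ l1 c P1 x → 0 ≤ l2 c P2 x →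
      0 ≤ σ * (cr P1 P2 - l1 c P1 x - l2 c P2 x) → 0 < H x)
    {V : Set ℂ} (hV : IsOpen V) (hTV : ContDiffOn ℝ ∞ T V)
    (hT : ∀ t : ℝ, -(1 / 2) < t → t < 3 / 2 → ew (j + t) ∈ V ∧ T (ew (j + t)) = t) :
    IsBlock true 2 (ff c P1 P2 R σ e H j) := by
  refine ⟨UU c P1 P2 R σ H, VV c P1 P2 R σ H V, gg c P1 P2 R σ e H T, UU_open hD hH,
    VV_open hV hH, fun y hy => (ff_mem (j := j) he hR hD hG hseg hpos hy).1, ?_,
    ff_smooth hD hH, gg_smooth hTV hH,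
    fun y hy => gg_ff he hD (fun t h1 h2 => (hT t h1 h2).2) hy⟩
  intro y hy
  have h1 := mm_pos hD hy.1.1.1
  refine ⟨⟨?_, hy.2, (hT _ hy.1.2.1 hy.1.2.2).1⟩, ?_⟩
  · show 0 < l1 c P1 (xx c P1 P2 R y) + l2 c P2 (xx c P1 P2 R y)
    rw [l1_xx, l2_xx]
    have : mm P1 P2 R y * y 2 * cr P1 P2 + mm P1 P2 R y * (1 - y 2) * cr P1 P2 =
      mm P1 P2 R y * cr P1 P2 := by ring
    rw [this]
    exact mul_pos h1 hD
  · show 0 < σ * (nn P1 P2 (ss c P1 P2 (xx c P1 P2 R y)) - R ^ 2)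
    rw [ss_xx hD hy.1.1.1]
    exact hy.1.1.2

end

end Pool.Agent.Lib.MP_84984d_gt.Tri
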