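import Pool.Agent.Lib.MP_84984d_gt.Tri.Stmts

set_option autoImplicit false

/-!
Bit masks for the cells of `X` (helper92).
-/

namespace Pool.Agent.Lib.MP_84984d_gt.Tri

open Set

/-- The product of the masks `m` and `n < 2 ^ w`. -/
def bp (w m n : ℕ) : ℕ → ℕ
  | 0 => 0
  | k + 1 => bp w m n k ||| (if m.testBit k then n <<< (k * w) else 0)

theorem bp_testBit {w m n : ℕ} (hn : n < 2 ^ w) (k : ℕ) {i j : ℕ} (hj : j < w) :
    (bp w m n k).testBit (i * w + j) = (decide (i < k) && m.testBit i && n.testBit j) := by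
  induction k with
  | zero => simp [bp]
  | succ k ih =>
    have hw : 0 < w := by omega
    unfold bp
    rw [Nat.testBit_or, ih]
    by_cases hm : m.testBit k = true
    · rw [if_pos hm, Nat.testBit_shiftLeft]
      rcases lt_trichotomy i k with h | h | h
      · have h1 : ¬ (i * w + j ≥ k * w) := by
          have : (i + 1) * w ≤ k * w := Nat.mul_le_mul_right w h
          rw [Nat.add_mul] at this
          omega
        simp [h1, h, Nat.lt_succ_of_lt h]
      · subst h
        have h1 : i * w + j - i * w = j := by omega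
        simp [h1, hm]
      · have h1 : ¬ i < k := by omega
        have h2 : ¬ i < k + 1 := by omega
        have h3 : n.testBit (i * w + j - k * w) = false := by
          apply Nat.testBit_eq_false_of_lt
          refine lt_of_lt_of_le hn (Nat.pow_le_pow_right (by norm_num) ?_)
          have : (k + 1) * w ≤ i * w := Nat.mul_le_mul_right w h
          rw [Nat.add_mul] at this
          omega
        simp [h1, h2, h3]
    · rw [if_neg hm]
      rcases lt_trichotomy i k with h | h | h
      · simp [h, Nat.lt_succ_of_lt h]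
      · subst h
        simp [hm]
      · have h1 : ¬ i < k := by omega
        have h2 : ¬ i < k + 1 := by omega
        simp [h1, h2]

theorem bp_lt {w m n : ℕ} (hn : n < 2 ^ w) (k : ℕ) : bp w m n k < 2 ^ (k * w) := by
  induction k with
  | zero => simp [bp]
  | succ k ih =>
    unfold bp
    apply Nat.or_lt_two_pow
    · exact lt_of_lt_of_le ih (Nat.pow_le_pow_right (by norm_num) (by rw [Nat.add_mul]; omega))
    · split_ifs
      · rw [Nat.shiftLeft_eq, Nat.add_mul, one_mul, add_comm, Nat.pow_add]
        exact Nat.mul_lt_mul_of_pos_right hn (by positivity)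
      · positivity

/-- The mask of a cell. -/
def mask (c : ℕ × ℕ × ℕ) : ℕ := bp 30 (bm c.1) (bp 6 (zm c.2.1) (wm c.2.2) 5) 53

/-- The mask of the open cells that occur: over segments and vertices `z ≠ 0`. -/
def vm : ℕ := bp 30 (2 ^ 36 - 1) (2 ^ 30 - 1) 53 |||
  bp 30 (2 ^ 53 - 2 ^ 36) (bp 6 27 63 5) 53

/-- The position of an open cell. -/
def pos (s a o : ℕ) : ℕ := s * 30 + (a * 6 + o)

theorem wm_lt {m : ℕ} (hm : m < 6) : wm m < 2 ^ 6 := by
  interval_cases m <;> decide

theorem mask_testBit {c : ℕ × ℕ × ℕ} {s a o : ℕ} (hs : s < 53) (ha : a < 5) (ho : o < 6)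
    (hc : c.2.2 < 6) :
    (mask c).testBit (pos s a o) =
      ((bm c.1).testBit s && (zm c.2.1).testBit a && (wm c.2.2).testBit o) := by
  unfold mask pos
  rw [bp_testBit (bp_lt (wm_lt hc) 5) 53 (by omega), bp_testBit (wm_lt hc) 5 ho]
  simp [hs, ha, Bool.and_assoc]

theorem vm_testBit {s a o : ℕ} (hs : s < 53) (ha : a < 5) (ho : o < 6) :
    vm.testBit (pos s a o) = (decide (s < 36) || decide (a ≠ 2)) := by
  unfold vm pos
  have h1 : bp 6 27 63 5 < 2 ^ 30 := bp_lt (w := 6) (by norm_num) 5
  have h2 : a * 6 + o < 30 := by omega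
  have h3 : (2 ^ 53 - 2 ^ 36 : ℕ).testBit s = decide (36 ≤ s) := by
    interval_cases s <;> decide
  have h4 : (27 : ℕ).testBit a = decide (a ≠ 2) := by
    interval_cases a <;> decide
  have h5 : (63 : ℕ).testBit o = true := by
    interval_cases o <;> decide
  rw [Nat.testBit_or, bp_testBit (by norm_num) 53 h2, bp_testBit h1 53 h2,
    bp_testBit (by norm_num) 5 ho, Nat.testBit_two_pow_sub_one, Nat.testBit_two_pow_sub_one, h3,
    h4, h5]
  by_cases h6 : s < 36
  · simp [h6, hs, h2, Nat.not_le.2 h6]
  · simp [h6, hs, ha, Nat.not_lt.1 h6]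

end Pool.Agent.Lib.MP_84984d_gt.Tri
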