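import Pool.Agent.Lib.MP_84984d_gt.Tri.PLa21

set_option autoImplicit false

/-!
TRI (MP_84984d_gt), numeric facts for the module B4 (helper21): the cofactor `HH k` of the circle
of the sector `k`, its positivity on the sector, and the radial coordinates of the sector.
-/

namespace Pool.Agent.Lib.MP_84984d_gt.Tri.PL21

open Set

/-- the cofactor of the circle of the sector -/
noncomputable def HH (k : ℕ) (x : ℂ) : ℝ :=
  if k < 6 then (81 - ‖x‖ ^ 2) * (‖x - 4‖ ^ 2 - 1)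
  else if k < 12 then (81 - ‖x‖ ^ 2) * (‖x‖ ^ 2 - 1)
  else (‖x‖ ^ 2 - 1) * (‖x - 4‖ ^ 2 - 1)

/-- the determinant of the two rays -/
def DD (k : ℕ) : ℝ := cr (p1 k) (p2 k)

/-- the point of the opposite segment, seen from the centre -/
noncomputable def us (k : ℕ) (s : ℝ) : ℂ := p1 k + s * (p2 k - p1 k)

theorem nsq (x : ℂ) : ‖x‖ ^ 2 = x.re ^ 2 + x.im ^ 2 := by
  rw [Complex.sq_norm, Complex.normSq_apply]
  ring

theorem nsq4 (x : ℂ) : ‖x - 4‖ ^ 2 = (x.re - 4) ^ 2 + x.im ^ 2 := by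
  rw [nsq]
  simp

theorem four_eq : (⟨4, 0⟩ : ℂ) = 4 := Complex.ext rfl rfl

/-- the factorization -/
theorem GG_fac (k : ℕ) (x : ℂ) :
    GG 2 x = sg k * (‖x - ce k‖ ^ 2 - ra k ^ 2) * HH k x := by
  rw [GG_two]
  unfold sg ce ra HH
  by_cases h1 : k < 6
  · have h2 : ¬ 6 ≤ k := by omega
    have h3 : k < 12 := by omega
    simp only [h1, h2, h3, if_true, false_and, if_false, sub_zero]
    ring
  · by_cases h3 : k < 12
    · have h2 : 6 ≤ k := by omega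
      simp only [h1, h2, h3, and_self, if_true, if_false, four_eq]
      ring
    · simp only [h1, h3, and_false, if_false, sub_zero]
      ring

theorem HH_smooth (k : ℕ) : ContDiff ℝ ⊤ (HH k) := by
  have h1 : ContDiff ℝ ⊤ fun x : ℂ => ‖x‖ ^ 2 := contDiff_norm_sq ℝ
  have h2 : ContDiff ℝ ⊤ fun x : ℂ => ‖x - 4‖ ^ 2 :=
    (contDiff_id.sub contDiff_const).norm_sq ℝ
  unfold HH
  split_ifs
  · exact (contDiff_const.sub h1).mul (h2.sub contDiff_const)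
  · exact (contDiff_const.sub h1).mul (h1.sub contDiff_const)
  · exact (h1.sub contDiff_const).mul (h2.sub contDiff_const)

theorem H_in0 (x : ℂ) (b1 : -2 ≤ x.re) (b2 : x.re ≤ 2) (b3 : -2 ≤ x.im) (b4 : x.im ≤ 2) :
    0 < (81 - ‖x‖ ^ 2) * (‖x - 4‖ ^ 2 - 1) := by
  rw [nsq, nsq4]
  apply mul_pos <;> nlinarith [mul_nonneg (sub_nonneg.2 b1) (sub_nonneg.2 b2),
      mul_nonneg (sub_nonneg.2 b3) (sub_nonneg.2 b4), sq_nonneg x.im]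

theorem H_in4 (x : ℂ) (b1 : 2 ≤ x.re) (b2 : x.re ≤ 6) (b3 : -2 ≤ x.im) (b4 : x.im ≤ 2) :
    0 < (81 - ‖x‖ ^ 2) * (‖x‖ ^ 2 - 1) := by
  rw [nsq]
  apply mul_pos <;> nlinarith [mul_nonneg (sub_nonneg.2 b1) (sub_nonneg.2 b2),
      mul_nonneg (sub_nonneg.2 b3) (sub_nonneg.2 b4), sq_nonneg x.im]

theorem H_out (x : ℂ) (h : 6 ≤ x.re ∨ 2 ≤ x.im ∨ x.re ≤ -2 ∨ x.im ≤ -2) :
    0 < (‖x‖ ^ 2 - 1) * (‖x - 4‖ ^ 2 - 1) := by
  rw [nsq, nsq4]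
  apply mul_pos <;> rcases h with h | h | h | h <;>
    nlinarith [sq_nonneg x.im, sq_nonneg x.re, sq_nonneg (x.re - 4)]

/-- positivity on the sector -/
theorem HH_pos {k : ℕ} (hk : k < 18) {x : ℂ} (hx : x ∈ sec k) : 0 < HH k x := by
  unfold HH
  interval_cases k
  · obtain ⟨h1, h2, h3⟩ := (ss0 x).1 hx
    simpa using H_in0 x (by linarith) (by linarith) (by linarith) (by linarith)
  · obtain ⟨h1, h2, h3⟩ := (ss1 x).1 hx
    simpa using H_in0 x (by linarith) (by linarith) (by linarith) (by linarith)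
  · obtain ⟨h1, h2, h3⟩ := (ss2 x).1 hx
    simpa using H_in0 x (by linarith) (by linarith) (by linarith) (by linarith)
  · obtain ⟨h1, h2, h3⟩ := (ss3 x).1 hx
    simpa using H_in0 x (by linarith) (by linarith) (by linarith) (by linarith)
  · obtain ⟨h1, h2, h3⟩ := (ss4 x).1 hx
    simpa using H_in0 x (by linarith) (by linarith) (by linarith) (by linarith)
  · obtain ⟨h1, h2, h3⟩ := (ss5 x).1 hx
    simpa using H_in0 x (by linarith) (by linarith) (by linarith) (by linarith)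
  · obtain ⟨h1, h2, h3⟩ := (ss6 x).1 hx
    simpa using H_in4 x (by linarith) (by linarith) (by linarith) (by linarith)
  · obtain ⟨h1, h2, h3⟩ := (ss7 x).1 hx
    simpa using H_in4 x (by linarith) (by linarith) (by linarith) (by linarith)
  · obtain ⟨h1, h2, h3⟩ := (ss8 x).1 hx
    simpa using H_in4 x (by linarith) (by linarith) (by linarith) (by linarith)
  · obtain ⟨h1, h2, h3⟩ := (ss9 x).1 hx
    simpa using H_in4 x (by linarith) (by linarith) (by linarith) (by linarith)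
  · obtain ⟨h1, h2, h3⟩ := (ss10 x).1 hx
    simpa using H_in4 x (by linarith) (by linarith) (by linarith) (by linarith)
  · obtain ⟨h1, h2, h3⟩ := (ss11 x).1 hx
    simpa using H_in4 x (by linarith) (by linarith) (by linarith) (by linarith)
  · obtain ⟨h1, h2, h3⟩ := (ss12 x).1 hx
    simpa using H_out x (Or.inl (by linarith))
  · obtain ⟨h1, h2, h3⟩ := (ss13 x).1 hx
    simpa using H_out x (Or.inr (Or.inl (by linarith)))
  · obtain ⟨h1, h2, h3⟩ := (ss14 x).1 hx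
    simpa using H_out x (Or.inr (Or.inl (by linarith)))
  · obtain ⟨h1, h2, h3⟩ := (ss15 x).1 hx
    simpa using H_out x (Or.inr (Or.inr (Or.inl (by linarith))))
  · obtain ⟨h1, h2, h3⟩ := (ss16 x).1 hx
    simpa using H_out x (Or.inr (Or.inr (Or.inr (by linarith))))
  · obtain ⟨h1, h2, h3⟩ := (ss17 x).1 hx
    simpa using H_out x (Or.inr (Or.inr (Or.inr (by linarith))))

theorem D_eq {k : ℕ} {c a b : ℂ} (hc : ce k = c) (h1 : vx (sv k) = a) (h2 : vx (sv (nx k)) = b) :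
    DD k = (a.re - c.re) * (b.im - c.im) - (a.im - c.im) * (b.re - c.re) := by
  subst hc h1 h2
  rfl

theorem DD_pos {k : ℕ} (hk : k < 18) : 0 < DD k := by
  interval_cases k
  · rw [D_eq (c := ⟨0, 0⟩) (a := ⟨2, -1⟩) (b := ⟨2, 1⟩) (by simp [ce]; rfl) rfl rfl]
    norm_num
  · rw [D_eq (c := ⟨0, 0⟩) (a := ⟨2, 1⟩) (b := ⟨2, 2⟩) (by simp [ce]; rfl) rfl rfl]
    norm_num
  · rw [D_eq (c := ⟨0, 0⟩) (a := ⟨2, 2⟩) (b := ⟨-2, 2⟩) (by simp [ce]; rfl) rfl rfl]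
    norm_num
  · rw [D_eq (c := ⟨0, 0⟩) (a := ⟨-2, 2⟩) (b := ⟨-2, -2⟩) (by simp [ce]; rfl) rfl rfl]
    norm_num
  · rw [D_eq (c := ⟨0, 0⟩) (a := ⟨-2, -2⟩) (b := ⟨2, -2⟩) (by simp [ce]; rfl) rfl rfl]
    norm_num
  · rw [D_eq (c := ⟨0, 0⟩) (a := ⟨2, -2⟩) (b := ⟨2, -1⟩) (by simp [ce]; rfl) rfl rfl]
    norm_num
  · rw [D_eq (c := ⟨4, 0⟩) (a := ⟨6, -2⟩) (b := ⟨6, 2⟩) (by simp [ce]) rfl rfl]
    norm_num
  · rw [D_eq (c := ⟨4, 0⟩) (a := ⟨6, 2⟩) (b := ⟨2, 2⟩) (by simp [ce]) rfl rfl]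
    norm_num
  · rw [D_eq (c := ⟨4, 0⟩) (a := ⟨2, 2⟩) (b := ⟨2, 1⟩) (by simp [ce]) rfl rfl]
    norm_num
  · rw [D_eq (c := ⟨4, 0⟩) (a := ⟨2, 1⟩) (b := ⟨2, -1⟩) (by simp [ce]) rfl rfl]
    norm_num
  · rw [D_eq (c := ⟨4, 0⟩) (a := ⟨2, -1⟩) (b := ⟨2, -2⟩) (by simp [ce]) rfl rfl]
    norm_num
  · rw [D_eq (c := ⟨4, 0⟩) (a := ⟨2, -2⟩) (b := ⟨6, -2⟩) (by simp [ce]) rfl rfl]
    norm_num
  · rw [D_eq (c := ⟨0, 0⟩) (a := ⟨6, -2⟩) (b := ⟨6, 2⟩) (by simp [ce]; rfl) rfl rfl]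
    norm_num
  · rw [D_eq (c := ⟨0, 0⟩) (a := ⟨6, 2⟩) (b := ⟨2, 2⟩) (by simp [ce]; rfl) rfl rfl]
    norm_num
  · rw [D_eq (c := ⟨0, 0⟩) (a := ⟨2, 2⟩) (b := ⟨-2, 2⟩) (by simp [ce]; rfl) rfl rfl]
    norm_num
  · rw [D_eq (c := ⟨0, 0⟩) (a := ⟨-2, 2⟩) (b := ⟨-2, -2⟩) (by simp [ce]; rfl) rfl rfl]
    norm_num
  · rw [D_eq (c := ⟨0, 0⟩) (a := ⟨-2, -2⟩) (b := ⟨2, -2⟩) (by simp [ce]; rfl) rfl rfl]
    norm_num
  · rw [D_eq (c := ⟨0, 0⟩) (a := ⟨2, -2⟩) (b := ⟨6, -2⟩) (by simp [ce]; rfl) rfl rfl]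
    norm_num

theorem us_re {k : ℕ} {c a b : ℂ} (hc : ce k = c) (h1 : vx (sv k) = a)
    (h2 : vx (sv (nx k)) = b) (s : ℝ) :
    (us k s).re = a.re - c.re + s * (b.re - a.re) := by
  subst hc h1 h2
  unfold us p1 p2
  simp

theorem us_im {k : ℕ} {c a b : ℂ} (hc : ce k = c) (h1 : vx (sv k) = a)
    (h2 : vx (sv (nx k)) = b) (s : ℝ) :
    (us k s).im = a.im - c.im + s * (b.im - a.im) := by
  subst hc h1 h2
  unfold us p1 p2
  simp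

/-- the opposite segment lies outside the inner circles and inside the outer circle -/
theorem us_pos {k : ℕ} (hk : k < 18) {s : ℝ} (h0 : 0 ≤ s) (h1 : s ≤ 1) :
    0 < sg k * (‖us k s‖ ^ 2 - ra k ^ 2) := by
  rw [nsq]
  interval_cases k
  · rw [us_re (c := ⟨0, 0⟩) (a := ⟨2, -1⟩) (b := ⟨2, 1⟩) (by simp [ce]; rfl) rfl rfl,
      us_im (c := ⟨0, 0⟩) (a := ⟨2, -1⟩) (b := ⟨2, 1⟩) (by simp [ce]; rfl) rfl rfl]
    norm_num [sg, ra]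
    nlinarith [mul_nonneg h0 (sub_nonneg.2 h1)]
  · rw [us_re (c := ⟨0, 0⟩) (a := ⟨2, 1⟩) (b := ⟨2, 2⟩) (by simp [ce]; rfl) rfl rfl,
      us_im (c := ⟨0, 0⟩) (a := ⟨2, 1⟩) (b := ⟨2, 2⟩) (by simp [ce]; rfl) rfl rfl]
    norm_num [sg, ra]
    nlinarith [mul_nonneg h0 (sub_nonneg.2 h1)]
  · rw [us_re (c := ⟨0, 0⟩) (a := ⟨2, 2⟩) (b := ⟨-2, 2⟩) (by simp [ce]; rfl) rfl rfl,
      us_im (c := ⟨0, 0⟩) (a := ⟨2, 2⟩) (b := ⟨-2, 2⟩) (by simp [ce]; rfl) rfl rfl]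
    norm_num [sg, ra]
    nlinarith [mul_nonneg h0 (sub_nonneg.2 h1)]
  · rw [us_re (c := ⟨0, 0⟩) (a := ⟨-2, 2⟩) (b := ⟨-2, -2⟩) (by simp [ce]; rfl) rfl rfl,
      us_im (c := ⟨0, 0⟩) (a := ⟨-2, 2⟩) (b := ⟨-2, -2⟩) (by simp [ce]; rfl) rfl rfl]
    norm_num [sg, ra]
    nlinarith [mul_nonneg h0 (sub_nonneg.2 h1)]
  · rw [us_re (c := ⟨0, 0⟩) (a := ⟨-2, -2⟩) (b := ⟨2, -2⟩) (by simp [ce]; rfl) rfl rfl,
      us_im (c := ⟨0, 0⟩) (a := ⟨-2, -2⟩) (b := ⟨2, -2⟩) (by simp [ce]; rfl) rfl rfl]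
    norm_num [sg, ra]
    nlinarith [mul_nonneg h0 (sub_nonneg.2 h1)]
  · rw [us_re (c := ⟨0, 0⟩) (a := ⟨2, -2⟩) (b := ⟨2, -1⟩) (by simp [ce]; rfl) rfl rfl,
      us_im (c := ⟨0, 0⟩) (a := ⟨2, -2⟩) (b := ⟨2, -1⟩) (by simp [ce]; rfl) rfl rfl]
    norm_num [sg, ra]
    nlinarith [mul_nonneg h0 (sub_nonneg.2 h1)]
  · rw [us_re (c := ⟨4, 0⟩) (a := ⟨6, -2⟩) (b := ⟨6, 2⟩) (by simp [ce]) rfl rfl,
      us_im (c := ⟨4, 0⟩) (a := ⟨6, -2⟩) (b := ⟨6, 2⟩) (by simp [ce]) rfl rfl]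
    norm_num [sg, ra]
    nlinarith [mul_nonneg h0 (sub_nonneg.2 h1)]
  · rw [us_re (c := ⟨4, 0⟩) (a := ⟨6, 2⟩) (b := ⟨2, 2⟩) (by simp [ce]) rfl rfl,
      us_im (c := ⟨4, 0⟩) (a := ⟨6, 2⟩) (b := ⟨2, 2⟩) (by simp [ce]) rfl rfl]
    norm_num [sg, ra]
    nlinarith [mul_nonneg h0 (sub_nonneg.2 h1)]
  · rw [us_re (c := ⟨4, 0⟩) (a := ⟨2, 2⟩) (b := ⟨2, 1⟩) (by simp [ce]) rfl rfl,
      us_im (c := ⟨4, 0⟩) (a := ⟨2, 2⟩) (b := ⟨2, 1⟩) (by simp [ce]) rfl rfl]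
    norm_num [sg, ra]
    nlinarith [mul_nonneg h0 (sub_nonneg.2 h1)]
  · rw [us_re (c := ⟨4, 0⟩) (a := ⟨2, 1⟩) (b := ⟨2, -1⟩) (by simp [ce]) rfl rfl,
      us_im (c := ⟨4, 0⟩) (a := ⟨2, 1⟩) (b := ⟨2, -1⟩) (by simp [ce]) rfl rfl]
    norm_num [sg, ra]
    nlinarith [mul_nonneg h0 (sub_nonneg.2 h1)]
  · rw [us_re (c := ⟨4, 0⟩) (a := ⟨2, -1⟩) (b := ⟨2, -2⟩) (by simp [ce]) rfl rfl,
      us_im (c := ⟨4, 0⟩) (a := ⟨2, -1⟩) (b := ⟨2, -2⟩) (by simp [ce]) rfl rfl]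
    norm_num [sg, ra]
    nlinarith [mul_nonneg h0 (sub_nonneg.2 h1)]
  · rw [us_re (c := ⟨4, 0⟩) (a := ⟨2, -2⟩) (b := ⟨6, -2⟩) (by simp [ce]) rfl rfl,
      us_im (c := ⟨4, 0⟩) (a := ⟨2, -2⟩) (b := ⟨6, -2⟩) (by simp [ce]) rfl rfl]
    norm_num [sg, ra]
    nlinarith [mul_nonneg h0 (sub_nonneg.2 h1)]
  · rw [us_re (c := ⟨0, 0⟩) (a := ⟨6, -2⟩) (b := ⟨6, 2⟩) (by simp [ce]; rfl) rfl rfl,
      us_im (c := ⟨0, 0⟩) (a := ⟨6, -2⟩) (b := ⟨6, 2⟩) (by simp [ce]; rfl) rfl rfl]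
    norm_num [sg, ra]
    nlinarith [mul_nonneg h0 (sub_nonneg.2 h1)]
  · rw [us_re (c := ⟨0, 0⟩) (a := ⟨6, 2⟩) (b := ⟨2, 2⟩) (by simp [ce]; rfl) rfl rfl,
      us_im (c := ⟨0, 0⟩) (a := ⟨6, 2⟩) (b := ⟨2, 2⟩) (by simp [ce]; rfl) rfl rfl]
    norm_num [sg, ra]
    nlinarith [mul_nonneg h0 (sub_nonneg.2 h1)]
  · rw [us_re (c := ⟨0, 0⟩) (a := ⟨2, 2⟩) (b := ⟨-2, 2⟩) (by simp [ce]; rfl) rfl rfl,
      us_im (c := ⟨0, 0⟩) (a := ⟨2, 2⟩) (b := ⟨-2, 2⟩) (by simp [ce]; rfl) rfl rfl]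
    norm_num [sg, ra]
    nlinarith [mul_nonneg h0 (sub_nonneg.2 h1)]
  · rw [us_re (c := ⟨0, 0⟩) (a := ⟨-2, 2⟩) (b := ⟨-2, -2⟩) (by simp [ce]; rfl) rfl rfl,
      us_im (c := ⟨0, 0⟩) (a := ⟨-2, 2⟩) (b := ⟨-2, -2⟩) (by simp [ce]; rfl) rfl rfl]
    norm_num [sg, ra]
    nlinarith [mul_nonneg h0 (sub_nonneg.2 h1)]
  · rw [us_re (c := ⟨0, 0⟩) (a := ⟨-2, -2⟩) (b := ⟨2, -2⟩) (by simp [ce]; rfl) rfl rfl,
      us_im (c := ⟨0, 0⟩) (a := ⟨-2, -2⟩) (b := ⟨2, -2⟩) (by simp [ce]; rfl) rfl rfl]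
    norm_num [sg, ra]
    nlinarith [mul_nonneg h0 (sub_nonneg.2 h1)]
  · rw [us_re (c := ⟨0, 0⟩) (a := ⟨2, -2⟩) (b := ⟨6, -2⟩) (by simp [ce]; rfl) rfl rfl,
      us_im (c := ⟨0, 0⟩) (a := ⟨2, -2⟩) (b := ⟨6, -2⟩) (by simp [ce]; rfl) rfl rfl]
    norm_num [sg, ra]
    nlinarith [mul_nonneg h0 (sub_nonneg.2 h1)]

theorem ra_pos (k : ℕ) : 0 < ra k := by
  unfold ra
  split_ifs <;> norm_num

theorem sg_sq (k : ℕ) : sg k * sg k = 1 := by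
  unfold sg
  split_ifs <;> norm_num

/-! ### radial coordinates -/

theorem cr_left (a b : ℂ) (m s : ℝ) : cr a (m * (a + s * (b - a))) = m * s * cr a b := by
  unfold cr
  simp
  ring

theorem cr_right (a b : ℂ) (m s : ℝ) :
    cr (m * (a + s * (b - a))) b = m * (1 - s) * cr a b := by
  unfold cr
  simp
  ring

theorem cr_line (a b : ℂ) (m s : ℝ) :
    cr (b - a) (m * (a + s * (b - a)) - a) = cr a b * (1 - m) := by
  unfold cr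
  simp
  ring

theorem cr_p1 (k : ℕ) (m s : ℝ) : cr (p1 k) (ce k + m * us k s - ce k) = m * s * DD k := by
  rw [add_sub_cancel_left]
  exact cr_left _ _ _ _

theorem cr_p2 (k : ℕ) (m s : ℝ) :
    cr (ce k + m * us k s - ce k) (p2 k) = m * (1 - s) * DD k := by
  rw [add_sub_cancel_left]
  exact cr_right _ _ _ _

theorem ln_radial (k : ℕ) (m s : ℝ) : ln k (ce k + m * us k s) = DD k * (1 - m) := by
  have h1 : vx (sv (nx k)) - vx (sv k) = p2 k - p1 k := by unfold p1 p2; ring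
  have h2 : ce k + m * us k s - vx (sv k) = m * us k s - p1 k := by unfold p1; ring
  unfold ln
  rw [h1, h2]
  exact cr_line _ _ _ _

/-- Cramer -/
theorem cramer (a b y : ℂ) : (cr a b : ℂ) * y = (cr y b : ℂ) * a + (cr a y : ℂ) * b := by
  unfold cr
  apply Complex.ext <;> simp <;> ring

/-- the radial coordinates of a point -/
theorem radial {k : ℕ} (hk : k < 18) {x : ℂ} (h1 : 0 ≤ cr (p1 k) (x - ce k))
    (h2 : 0 ≤ cr (x - ce k) (p2 k)) (hx : x ≠ ce k) :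
    0 < cr (p1 k) (x - ce k) + cr (x - ce k) (p2 k) ∧
    x = ce k + ((cr (p1 k) (x - ce k) + cr (x - ce k) (p2 k)) / DD k : ℝ) *
      us k (cr (p1 k) (x - ce k) / (cr (p1 k) (x - ce k) + cr (x - ce k) (p2 k))) := by
  have hD := DD_pos hk
  set L1 := cr (p1 k) (x - ce k) with hL1
  set L2 := cr (x - ce k) (p2 k) with hL2
  have hc := cramer (p1 k) (p2 k) (x - ce k)
  rw [← hL1, ← hL2] at hc
  have hDc : ((cr (p1 k) (p2 k) : ℝ) : ℂ) ≠ 0 := by exact_mod_cast hD.ne'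
  have hL : 0 < L1 + L2 := by
    rcases h1.lt_or_eq with h | h
    · linarith
    · rcases h2.lt_or_eq with h' | h'
      · linarith
      · exfalso
        apply hx
        rw [← h, ← h'] at hc
        simp only [Complex.ofReal_zero, zero_mul, add_zero, mul_eq_zero, hDc, false_or] at hc
        exact sub_eq_zero.1 hc
  refine ⟨hL, ?_⟩
  have hLc : ((L1 + L2 : ℝ) : ℂ) ≠ 0 := by exact_mod_cast hL.ne'
  have e : x - ce k = ((L1 + L2) / DD k : ℝ) * us k (L1 / (L1 + L2)) := by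
    have hDc' : ((DD k : ℝ) : ℂ) ≠ 0 := hDc
    have hc' : ((DD k : ℝ) : ℂ) * (x - ce k) = (L2 : ℂ) * p1 k + (L1 : ℂ) * p2 k := hc
    apply mul_left_cancel₀ hDc'
    rw [hc']
    unfold us
    push_cast at hLc ⊢
    field_simp
    ring
  rw [← e]
  ring

/-- the points of the sector other than the centre -/
theorem mem_sec_iff {k : ℕ} (hk : k < 18) {x : ℂ} (hx : x ≠ ce k) :
    x ∈ sec k ↔ ∃ m s : ℝ, 0 < m ∧ 0 ≤ s ∧ s ≤ 1 ∧ 0 ≤ sg k * (1 - m) ∧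
      x = ce k + m * us k s := by
  have hD := DD_pos hk
  constructor
  · rintro ⟨h1, h2, h3⟩
    obtain ⟨hL, e⟩ := radial hk h1 h2 hx
    refine ⟨_, _, div_pos hL hD, div_nonneg h1 hL.le, ?_, ?_, e⟩
    · rw [div_le_one hL]
      linarith
    · rw [e, ln_radial] at h3
      by_contra hcon
      rw [not_le] at hcon
      have : sg k * (DD k * (1 - (cr (p1 k) (x - ce k) + cr (x - ce k) (p2 k)) / DD k)) < 0 := by
        have := mul_neg_of_pos_of_neg hD hcon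
        linarith
      linarith
  · rintro ⟨m, s, hm, hs0, hs1, hg, rfl⟩
    refine ⟨?_, ?_, ?_⟩
    · rw [cr_p1]
      positivity
    · rw [cr_p2]
      have : 0 ≤ 1 - s := by linarith
      positivity
    · rw [ln_radial]
      have := mul_nonneg hD.le hg
      linarith

end Pool.Agent.Lib.MP_84984d_gt.Tri.PL21
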