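import Pool.Agent.Lib.MP_84984d_gt.Tri.PLa21

set_option autoImplicit false

/-!
TRI (MP_84984d_gt), module PL1: every point of the disc with two holes lies in exactly one open
cell (helper21).
-/

namespace Pool.Agent.Lib.MP_84984d_gt.Tri.PL21

open Set

/-- the open cell 0 -/
theorem oo0 (x : ℂ) (h1 : 0 < x.re + 2 * x.im)
    (h2 : 0 < x.re - 2 * x.im)
    (h3 : 0 < -(2 * x.re) + 4) : ∀ κ < 53,
    (x ∈ bs κ ↔ (bm κ).testBit 0 = true) := by
  intro κ hκ
  interval_cases κ
  · exact iff_of_true ((bb0 x).2 ⟨by linarith, by linarith, by linarith⟩) (by decide)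
  · exact iff_of_false (fun g => by obtain ⟨g1, g2, g3⟩ := (bb1 x).1 g; linarith) (by decide)
  · exact iff_of_false (fun g => by obtain ⟨g1, g2, g3⟩ := (bb2 x).1 g; linarith) (by decide)
  · exact iff_of_false (fun g => by obtain ⟨g1, g2, g3⟩ := (bb3 x).1 g; linarith) (by decide)
  · exact iff_of_false (fun g => by obtain ⟨g1, g2, g3⟩ := (bb4 x).1 g; linarith) (by decide)
  · exact iff_of_false (fun g => by obtain ⟨g1, g2, g3⟩ := (bb5 x).1 g; linarith) (by decide)
  · exact iff_of_false (fun g => by obtain ⟨g1, g2, g3⟩ := (bb6 x).1 g; linarith) (by decide)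
  · exact iff_of_false (fun g => by obtain ⟨g1, g2, g3⟩ := (bb7 x).1 g; linarith) (by decide)
  · exact iff_of_false (fun g => by obtain ⟨g1, g2, g3⟩ := (bb8 x).1 g; linarith) (by decide)
  · exact iff_of_false (fun g => by obtain ⟨g1, g2, g3⟩ := (bb9 x).1 g; linarith) (by decide)
  · exact iff_of_false (fun g => by obtain ⟨g1, g2, g3⟩ := (bb10 x).1 g; linarith) (by decide)
  · exact iff_of_false (fun g => by obtain ⟨g1, g2, g3⟩ := (bb11 x).1 g; linarith) (by decide)
  · exact iff_of_false (fun g => by obtain ⟨g1, g2, g3⟩ := (bb12 x).1 g; linarith) (by decide)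
  · exact iff_of_false (fun g => by obtain ⟨g1, g2, g3⟩ := (bb13 x).1 g; linarith) (by decide)
  · exact iff_of_false (fun g => by obtain ⟨g1, g2, g3⟩ := (bb14 x).1 g; linarith) (by decide)
  · exact iff_of_false (fun g => by obtain ⟨g1, g2, g3⟩ := (bb15 x).1 g; linarith) (by decide)
  · exact iff_of_false (fun g => by obtain ⟨g1, g2, g3⟩ := (bb16 x).1 g; linarith) (by decide)
  · exact iff_of_false (fun g => by obtain ⟨g1, g2, g3⟩ := (bb17 x).1 g; linarith) (by decide)
  · exact iff_of_false (fun g => by obtain ⟨⟨g1, g2, g3⟩, g4⟩ := (bb18 x).1 g; linarith) (by decide)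
  · exact iff_of_false (fun g => by obtain ⟨⟨g1, g2, g3⟩, g4⟩ := (bb19 x).1 g; linarith) (by decide)
  · exact iff_of_false (fun g => by obtain ⟨⟨g1, g2, g3⟩, g4⟩ := (bb20 x).1 g; linarith) (by decide)
  · exact iff_of_false (fun g => by obtain ⟨⟨g1, g2, g3⟩, g4⟩ := (bb21 x).1 g; linarith) (by decide)
  · exact iff_of_false (fun g => by obtain ⟨⟨g1, g2, g3⟩, g4⟩ := (bb22 x).1 g; linarith) (by decide)
  · exact iff_of_false (fun g => by obtain ⟨⟨g1, g2, g3⟩, g4⟩ := (bb23 x).1 g; linarith) (by decide)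
  · exact iff_of_false (fun g => by obtain ⟨⟨g1, g2, g3⟩, g4⟩ := (bb24 x).1 g; linarith) (by decide)
  · exact iff_of_false (fun g => by obtain ⟨⟨g1, g2, g3⟩, g4⟩ := (bb25 x).1 g; linarith) (by decide)
  · exact iff_of_false (fun g => by obtain ⟨⟨g1, g2, g3⟩, g4⟩ := (bb26 x).1 g; linarith) (by decide)
  · exact iff_of_false (fun g => by obtain ⟨⟨g1, g2, g3⟩, g4⟩ := (bb27 x).1 g; linarith) (by decide)
  · exact iff_of_false (fun g => by obtain ⟨⟨g1, g2, g3⟩, g4⟩ := (bb28 x).1 g; linarith) (by decide)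
  · exact iff_of_false (fun g => by obtain ⟨⟨g1, g2, g3⟩, g4⟩ := (bb29 x).1 g; linarith) (by decide)
  · exact iff_of_false (fun g => by obtain ⟨⟨g1, g2, g3⟩, g4⟩ := (bb30 x).1 g; linarith) (by decide)
  · exact iff_of_false (fun g => by obtain ⟨⟨g1, g2, g3⟩, g4⟩ := (bb31 x).1 g; linarith) (by decide)
  · exact iff_of_false (fun g => by obtain ⟨⟨g1, g2, g3⟩, g4⟩ := (bb32 x).1 g; linarith) (by decide)
  · exact iff_of_false (fun g => by obtain ⟨⟨g1, g2, g3⟩, g4⟩ := (bb33 x).1 g; linarith) (by decide)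
  · exact iff_of_false (fun g => by obtain ⟨⟨g1, g2, g3⟩, g4⟩ := (bb34 x).1 g; linarith) (by decide)
  · exact iff_of_false (fun g => by obtain ⟨⟨g1, g2, g3⟩, g4⟩ := (bb35 x).1 g; linarith) (by decide)
  · exact iff_of_false (fun g => by obtain ⟨⟨g1, g2, g3⟩, g4⟩ := (bb36 x).1 g; linarith) (by decide)
  · exact iff_of_false (fun g => by obtain ⟨⟨g1, g2, g3⟩, g4⟩ := (bb37 x).1 g; linarith) (by decide)
  · exact iff_of_false (fun g => by obtain ⟨⟨g1, g2, g3⟩, g4⟩ := (bb38 x).1 g; linarith) (by decide)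
  · exact iff_of_false (fun g => by obtain ⟨⟨g1, g2, g3⟩, g4⟩ := (bb39 x).1 g; linarith) (by decide)
  · exact iff_of_false (fun g => by obtain ⟨⟨g1, g2, g3⟩, g4⟩ := (bb40 x).1 g; linarith) (by decide)
  · exact iff_of_false (fun g => by obtain ⟨⟨g1, g2, g3⟩, g4⟩ := (bb41 x).1 g; linarith) (by decide)
  · exact iff_of_false (fun g => by obtain ⟨⟨g1, g2, g3⟩, g4⟩ := (bb42 x).1 g; linarith) (by decide)
  · exact iff_of_false (fun g => by obtain ⟨⟨g1, g2, g3⟩, g4⟩ := (bb43 x).1 g; linarith) (by decide)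
  · exact iff_of_false (fun g => by obtain ⟨⟨g1, g2, g3⟩, g4⟩ := (bb44 x).1 g; linarith) (by decide)
  · exact iff_of_false (fun g => by obtain ⟨g1, g2⟩ := (bb45 x).1 g; linarith) (by decide)
  · exact iff_of_false (fun g => by obtain ⟨g1, g2⟩ := (bb46 x).1 g; linarith) (by decide)
  · exact iff_of_false (fun g => by obtain ⟨g1, g2⟩ := (bb47 x).1 g; linarith) (by decide)
  · exact iff_of_false (fun g => by obtain ⟨g1, g2⟩ := (bb48 x).1 g; linarith) (by decide)
  · exact iff_of_false (fun g => by obtain ⟨g1, g2⟩ := (bb49 x).1 g; linarith) (by decide)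
  · exact iff_of_false (fun g => by obtain ⟨g1, g2⟩ := (bb50 x).1 g; linarith) (by decide)
  · exact iff_of_false (fun g => by obtain ⟨g1, g2⟩ := (bb51 x).1 g; linarith) (by decide)
  · exact iff_of_false (fun g => by obtain ⟨g1, g2⟩ := (bb52 x).1 g; linarith) (by decide)

/-- the open cell 1 -/
theorem oo1 (x : ℂ) (h1 : 0 < -x.re + 2 * x.im)
    (h2 : 0 < 2 * x.re - 2 * x.im)
    (h3 : 0 < -x.re + 2) : ∀ κ < 53,
    (x ∈ bs κ ↔ (bm κ).testBit 1 = true) := by
  intro κ hκ
  interval_cases κ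
  · exact iff_of_false (fun g => by obtain ⟨g1, g2, g3⟩ := (bb0 x).1 g; linarith) (by decide)
  · exact iff_of_true ((bb1 x).2 ⟨by linarith, by linarith, by linarith⟩) (by decide)
  · exact iff_of_false (fun g => by obtain ⟨g1, g2, g3⟩ := (bb2 x).1 g; linarith) (by decide)
  · exact iff_of_false (fun g => by obtain ⟨g1, g2, g3⟩ := (bb3 x).1 g; linarith) (by decide)
  · exact iff_of_false (fun g => by obtain ⟨g1, g2, g3⟩ := (bb4 x).1 g; linarith) (by decide)
  · exact iff_of_false (fun g => by obtain ⟨g1, g2, g3⟩ := (bb5 x).1 g; linarith) (by decide)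
  · exact iff_of_false (fun g => by obtain ⟨g1, g2, g3⟩ := (bb6 x).1 g; linarith) (by decide)
  · exact iff_of_false (fun g => by obtain ⟨g1, g2, g3⟩ := (bb7 x).1 g; linarith) (by decide)
  · exact iff_of_false (fun g => by obtain ⟨g1, g2, g3⟩ := (bb8 x).1 g; linarith) (by decide)
  · exact iff_of_false (fun g => by obtain ⟨g1, g2, g3⟩ := (bb9 x).1 g; linarith) (by decide)
  · exact iff_of_false (fun g => by obtain ⟨g1, g2, g3⟩ := (bb10 x).1 g; linarith) (by decide)
  · exact iff_of_false (fun g => by obtain ⟨g1, g2, g3⟩ := (bb11 x).1 g; linarith) (by decide)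
  · exact iff_of_false (fun g => by obtain ⟨g1, g2, g3⟩ := (bb12 x).1 g; linarith) (by decide)
  · exact iff_of_false (fun g => by obtain ⟨g1, g2, g3⟩ := (bb13 x).1 g; linarith) (by decide)
  · exact iff_of_false (fun g => by obtain ⟨g1, g2, g3⟩ := (bb14 x).1 g; linarith) (by decide)
  · exact iff_of_false (fun g => by obtain ⟨g1, g2, g3⟩ := (bb15 x).1 g; linarith) (by decide)
  · exact iff_of_false (fun g => by obtain ⟨g1, g2, g3⟩ := (bb16 x).1 g; linarith) (by decide)
  · exact iff_of_false (fun g => by obtain ⟨g1, g2, g3⟩ := (bb17 x).1 g; linarith) (by decide)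
  · exact iff_of_false (fun g => by obtain ⟨⟨g1, g2, g3⟩, g4⟩ := (bb18 x).1 g; linarith) (by decide)
  · exact iff_of_false (fun g => by obtain ⟨⟨g1, g2, g3⟩, g4⟩ := (bb19 x).1 g; linarith) (by decide)
  · exact iff_of_false (fun g => by obtain ⟨⟨g1, g2, g3⟩, g4⟩ := (bb20 x).1 g; linarith) (by decide)
  · exact iff_of_false (fun g => by obtain ⟨⟨g1, g2, g3⟩, g4⟩ := (bb21 x).1 g; linarith) (by decide)
  · exact iff_of_false (fun g => by obtain ⟨⟨g1, g2, g3⟩, g4⟩ := (bb22 x).1 g; linarith) (by decide)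
  · exact iff_of_false (fun g => by obtain ⟨⟨g1, g2, g3⟩, g4⟩ := (bb23 x).1 g; linarith) (by decide)
  · exact iff_of_false (fun g => by obtain ⟨⟨g1, g2, g3⟩, g4⟩ := (bb24 x).1 g; linarith) (by decide)
  · exact iff_of_false (fun g => by obtain ⟨⟨g1, g2, g3⟩, g4⟩ := (bb25 x).1 g; linarith) (by decide)
  · exact iff_of_false (fun g => by obtain ⟨⟨g1, g2, g3⟩, g4⟩ := (bb26 x).1 g; linarith) (by decide)
  · exact iff_of_false (fun g => by obtain ⟨⟨g1, g2, g3⟩, g4⟩ := (bb27 x).1 g; linarith) (by decide)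
  · exact iff_of_false (fun g => by obtain ⟨⟨g1, g2, g3⟩, g4⟩ := (bb28 x).1 g; linarith) (by decide)
  · exact iff_of_false (fun g => by obtain ⟨⟨g1, g2, g3⟩, g4⟩ := (bb29 x).1 g; linarith) (by decide)
  · exact iff_of_false (fun g => by obtain ⟨⟨g1, g2, g3⟩, g4⟩ := (bb30 x).1 g; linarith) (by decide)
  · exact iff_of_false (fun g => by obtain ⟨⟨g1, g2, g3⟩, g4⟩ := (bb31 x).1 g; linarith) (by decide)
  · exact iff_of_false (fun g => by obtain ⟨⟨g1, g2, g3⟩, g4⟩ := (bb32 x).1 g; linarith) (by decide)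
  · exact iff_of_false (fun g => by obtain ⟨⟨g1, g2, g3⟩, g4⟩ := (bb33 x).1 g; linarith) (by decide)
  · exact iff_of_false (fun g => by obtain ⟨⟨g1, g2, g3⟩, g4⟩ := (bb34 x).1 g; linarith) (by decide)
  · exact iff_of_false (fun g => by obtain ⟨⟨g1, g2, g3⟩, g4⟩ := (bb35 x).1 g; linarith) (by decide)
  · exact iff_of_false (fun g => by obtain ⟨⟨g1, g2, g3⟩, g4⟩ := (bb36 x).1 g; linarith) (by decide)
  · exact iff_of_false (fun g => by obtain ⟨⟨g1, g2, g3⟩, g4⟩ := (bb37 x).1 g; linarith) (by decide)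
  · exact iff_of_false (fun g => by obtain ⟨⟨g1, g2, g3⟩, g4⟩ := (bb38 x).1 g; linarith) (by decide)
  · exact iff_of_false (fun g => by obtain ⟨⟨g1, g2, g3⟩, g4⟩ := (bb39 x).1 g; linarith) (by decide)
  · exact iff_of_false (fun g => by obtain ⟨⟨g1, g2, g3⟩, g4⟩ := (bb40 x).1 g; linarith) (by decide)
  · exact iff_of_false (fun g => by obtain ⟨⟨g1, g2, g3⟩, g4⟩ := (bb41 x).1 g; linarith) (by decide)
  · exact iff_of_false (fun g => by obtain ⟨⟨g1, g2, g3⟩, g4⟩ := (bb42 x).1 g; linarith) (by decide)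
  · exact iff_of_false (fun g => by obtain ⟨⟨g1, g2, g3⟩, g4⟩ := (bb43 x).1 g; linarith) (by decide)
  · exact iff_of_false (fun g => by obtain ⟨⟨g1, g2, g3⟩, g4⟩ := (bb44 x).1 g; linarith) (by decide)
  · exact iff_of_false (fun g => by obtain ⟨g1, g2⟩ := (bb45 x).1 g; linarith) (by decide)
  · exact iff_of_false (fun g => by obtain ⟨g1, g2⟩ := (bb46 x).1 g; linarith) (by decide)
  · exact iff_of_false (fun g => by obtain ⟨g1, g2⟩ := (bb47 x).1 g; linarith) (by decide)
  · exact iff_of_false (fun g => by obtain ⟨g1, g2⟩ := (bb48 x).1 g; linarith) (by decide)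
  · exact iff_of_false (fun g => by obtain ⟨g1, g2⟩ := (bb49 x).1 g; linarith) (by decide)
  · exact iff_of_false (fun g => by obtain ⟨g1, g2⟩ := (bb50 x).1 g; linarith) (by decide)
  · exact iff_of_false (fun g => by obtain ⟨g1, g2⟩ := (bb51 x).1 g; linarith) (by decide)
  · exact iff_of_false (fun g => by obtain ⟨g1, g2⟩ := (bb52 x).1 g; linarith) (by decide)

/-- the open cell 2 -/
theorem oo2 (x : ℂ) (h1 : 0 < -(2 * x.re) + 2 * x.im)
    (h2 : 0 < 2 * x.re + 2 * x.im)
    (h3 : 0 < -(4 * x.im) + 8) : ∀ κ < 53,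
    (x ∈ bs κ ↔ (bm κ).testBit 2 = true) := by
  intro κ hκ
  interval_cases κ
  · exact iff_of_false (fun g => by obtain ⟨g1, g2, g3⟩ := (bb0 x).1 g; linarith) (by decide)
  · exact iff_of_false (fun g => by obtain ⟨g1, g2, g3⟩ := (bb1 x).1 g; linarith) (by decide)
  · exact iff_of_true ((bb2 x).2 ⟨by linarith, by linarith, by linarith⟩) (by decide)
  · exact iff_of_false (fun g => by obtain ⟨g1, g2, g3⟩ := (bb3 x).1 g; linarith) (by decide)
  · exact iff_of_false (fun g => by obtain ⟨g1, g2, g3⟩ := (bb4 x).1 g; linarith) (by decide)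
  · exact iff_of_false (fun g => by obtain ⟨g1, g2, g3⟩ := (bb5 x).1 g; linarith) (by decide)
  · exact iff_of_false (fun g => by obtain ⟨g1, g2, g3⟩ := (bb6 x).1 g; linarith) (by decide)
  · exact iff_of_false (fun g => by obtain ⟨g1, g2, g3⟩ := (bb7 x).1 g; linarith) (by decide)
  · exact iff_of_false (fun g => by obtain ⟨g1, g2, g3⟩ := (bb8 x).1 g; linarith) (by decide)
  · exact iff_of_false (fun g => by obtain ⟨g1, g2, g3⟩ := (bb9 x).1 g; linarith) (by decide)
  · exact iff_of_false (fun g => by obtain ⟨g1, g2, g3⟩ := (bb10 x).1 g; linarith) (by decide)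
  · exact iff_of_false (fun g => by obtain ⟨g1, g2, g3⟩ := (bb11 x).1 g; linarith) (by decide)
  · exact iff_of_false (fun g => by obtain ⟨g1, g2, g3⟩ := (bb12 x).1 g; linarith) (by decide)
  · exact iff_of_false (fun g => by obtain ⟨g1, g2, g3⟩ := (bb13 x).1 g; linarith) (by decide)
  · exact iff_of_false (fun g => by obtain ⟨g1, g2, g3⟩ := (bb14 x).1 g; linarith) (by decide)
  · exact iff_of_false (fun g => by obtain ⟨g1, g2, g3⟩ := (bb15 x).1 g; linarith) (by decide)
  · exact iff_of_false (fun g => by obtain ⟨g1, g2, g3⟩ := (bb16 x).1 g; linarith) (by decide)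
  · exact iff_of_false (fun g => by obtain ⟨g1, g2, g3⟩ := (bb17 x).1 g; linarith) (by decide)
  · exact iff_of_false (fun g => by obtain ⟨⟨g1, g2, g3⟩, g4⟩ := (bb18 x).1 g; linarith) (by decide)
  · exact iff_of_false (fun g => by obtain ⟨⟨g1, g2, g3⟩, g4⟩ := (bb19 x).1 g; linarith) (by decide)
  · exact iff_of_false (fun g => by obtain ⟨⟨g1, g2, g3⟩, g4⟩ := (bb20 x).1 g; linarith) (by decide)
  · exact iff_of_false (fun g => by obtain ⟨⟨g1, g2, g3⟩, g4⟩ := (bb21 x).1 g; linarith) (by decide)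
  · exact iff_of_false (fun g => by obtain ⟨⟨g1, g2, g3⟩, g4⟩ := (bb22 x).1 g; linarith) (by decide)
  · exact iff_of_false (fun g => by obtain ⟨⟨g1, g2, g3⟩, g4⟩ := (bb23 x).1 g; linarith) (by decide)
  · exact iff_of_false (fun g => by obtain ⟨⟨g1, g2, g3⟩, g4⟩ := (bb24 x).1 g; linarith) (by decide)
  · exact iff_of_false (fun g => by obtain ⟨⟨g1, g2, g3⟩, g4⟩ := (bb25 x).1 g; linarith) (by decide)
  · exact iff_of_false (fun g => by obtain ⟨⟨g1, g2, g3⟩, g4⟩ := (bb26 x).1 g; linarith) (by decide)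
  · exact iff_of_false (fun g => by obtain ⟨⟨g1, g2, g3⟩, g4⟩ := (bb27 x).1 g; linarith) (by decide)
  · exact iff_of_false (fun g => by obtain ⟨⟨g1, g2, g3⟩, g4⟩ := (bb28 x).1 g; linarith) (by decide)
  · exact iff_of_false (fun g => by obtain ⟨⟨g1, g2, g3⟩, g4⟩ := (bb29 x).1 g; linarith) (by decide)
  · exact iff_of_false (fun g => by obtain ⟨⟨g1, g2, g3⟩, g4⟩ := (bb30 x).1 g; linarith) (by decide)
  · exact iff_of_false (fun g => by obtain ⟨⟨g1, g2, g3⟩, g4⟩ := (bb31 x).1 g; linarith) (by decide)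
  · exact iff_of_false (fun g => by obtain ⟨⟨g1, g2, g3⟩, g4⟩ := (bb32 x).1 g; linarith) (by decide)
  · exact iff_of_false (fun g => by obtain ⟨⟨g1, g2, g3⟩, g4⟩ := (bb33 x).1 g; linarith) (by decide)
  · exact iff_of_false (fun g => by obtain ⟨⟨g1, g2, g3⟩, g4⟩ := (bb34 x).1 g; linarith) (by decide)
  · exact iff_of_false (fun g => by obtain ⟨⟨g1, g2, g3⟩, g4⟩ := (bb35 x).1 g; linarith) (by decide)
  · exact iff_of_false (fun g => by obtain ⟨⟨g1, g2, g3⟩, g4⟩ := (bb36 x).1 g; linarith) (by decide)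
  · exact iff_of_false (fun g => by obtain ⟨⟨g1, g2, g3⟩, g4⟩ := (bb37 x).1 g; linarith) (by decide)
  · exact iff_of_false (fun g => by obtain ⟨⟨g1, g2, g3⟩, g4⟩ := (bb38 x).1 g; linarith) (by decide)
  · exact iff_of_false (fun g => by obtain ⟨⟨g1, g2, g3⟩, g4⟩ := (bb39 x).1 g; linarith) (by decide)
  · exact iff_of_false (fun g => by obtain ⟨⟨g1, g2, g3⟩, g4⟩ := (bb40 x).1 g; linarith) (by decide)
  · exact iff_of_false (fun g => by obtain ⟨⟨g1, g2, g3⟩, g4⟩ := (bb41 x).1 g; linarith) (by decide)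
  · exact iff_of_false (fun g => by obtain ⟨⟨g1, g2, g3⟩, g4⟩ := (bb42 x).1 g; linarith) (by decide)
  · exact iff_of_false (fun g => by obtain ⟨⟨g1, g2, g3⟩, g4⟩ := (bb43 x).1 g; linarith) (by decide)
  · exact iff_of_false (fun g => by obtain ⟨⟨g1, g2, g3⟩, g4⟩ := (bb44 x).1 g; linarith) (by decide)
  · exact iff_of_false (fun g => by obtain ⟨g1, g2⟩ := (bb45 x).1 g; linarith) (by decide)
  · exact iff_of_false (fun g => by obtain ⟨g1, g2⟩ := (bb46 x).1 g; linarith) (by decide)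
  · exact iff_of_false (fun g => by obtain ⟨g1, g2⟩ := (bb47 x).1 g; linarith) (by decide)
  · exact iff_of_false (fun g => by obtain ⟨g1, g2⟩ := (bb48 x).1 g; linarith) (by decide)
  · exact iff_of_false (fun g => by obtain ⟨g1, g2⟩ := (bb49 x).1 g; linarith) (by decide)
  · exact iff_of_false (fun g => by obtain ⟨g1, g2⟩ := (bb50 x).1 g; linarith) (by decide)
  · exact iff_of_false (fun g => by obtain ⟨g1, g2⟩ := (bb51 x).1 g; linarith) (by decide)
  · exact iff_of_false (fun g => by obtain ⟨g1, g2⟩ := (bb52 x).1 g; linarith) (by decide)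

/-- the open cell 3 -/
theorem oo3 (x : ℂ) (h1 : 0 < -(2 * x.re) - 2 * x.im)
    (h2 : 0 < -(2 * x.re) + 2 * x.im)
    (h3 : 0 < 4 * x.re + 8) : ∀ κ < 53,
    (x ∈ bs κ ↔ (bm κ).testBit 3 = true) := by
  intro κ hκ
  interval_cases κ
  · exact iff_of_false (fun g => by obtain ⟨g1, g2, g3⟩ := (bb0 x).1 g; linarith) (by decide)
  · exact iff_of_false (fun g => by obtain ⟨g1, g2, g3⟩ := (bb1 x).1 g; linarith) (by decide)
  · exact iff_of_false (fun g => by obtain ⟨g1, g2, g3⟩ := (bb2 x).1 g; linarith) (by decide)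
  · exact iff_of_true ((bb3 x).2 ⟨by linarith, by linarith, by linarith⟩) (by decide)
  · exact iff_of_false (fun g => by obtain ⟨g1, g2, g3⟩ := (bb4 x).1 g; linarith) (by decide)
  · exact iff_of_false (fun g => by obtain ⟨g1, g2, g3⟩ := (bb5 x).1 g; linarith) (by decide)
  · exact iff_of_false (fun g => by obtain ⟨g1, g2, g3⟩ := (bb6 x).1 g; linarith) (by decide)
  · exact iff_of_false (fun g => by obtain ⟨g1, g2, g3⟩ := (bb7 x).1 g; linarith) (by decide)
  · exact iff_of_false (fun g => by obtain ⟨g1, g2, g3⟩ := (bb8 x).1 g; linarith) (by decide)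
  · exact iff_of_false (fun g => by obtain ⟨g1, g2, g3⟩ := (bb9 x).1 g; linarith) (by decide)
  · exact iff_of_false (fun g => by obtain ⟨g1, g2, g3⟩ := (bb10 x).1 g; linarith) (by decide)
  · exact iff_of_false (fun g => by obtain ⟨g1, g2, g3⟩ := (bb11 x).1 g; linarith) (by decide)
  · exact iff_of_false (fun g => by obtain ⟨g1, g2, g3⟩ := (bb12 x).1 g; linarith) (by decide)
  · exact iff_of_false (fun g => by obtain ⟨g1, g2, g3⟩ := (bb13 x).1 g; linarith) (by decide)
  · exact iff_of_false (fun g => by obtain ⟨g1, g2, g3⟩ := (bb14 x).1 g; linarith) (by decide)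
  · exact iff_of_false (fun g => by obtain ⟨g1, g2, g3⟩ := (bb15 x).1 g; linarith) (by decide)
  · exact iff_of_false (fun g => by obtain ⟨g1, g2, g3⟩ := (bb16 x).1 g; linarith) (by decide)
  · exact iff_of_false (fun g => by obtain ⟨g1, g2, g3⟩ := (bb17 x).1 g; linarith) (by decide)
  · exact iff_of_false (fun g => by obtain ⟨⟨g1, g2, g3⟩, g4⟩ := (bb18 x).1 g; linarith) (by decide)
  · exact iff_of_false (fun g => by obtain ⟨⟨g1, g2, g3⟩, g4⟩ := (bb19 x).1 g; linarith) (by decide)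
  · exact iff_of_false (fun g => by obtain ⟨⟨g1, g2, g3⟩, g4⟩ := (bb20 x).1 g; linarith) (by decide)
  · exact iff_of_false (fun g => by obtain ⟨⟨g1, g2, g3⟩, g4⟩ := (bb21 x).1 g; linarith) (by decide)
  · exact iff_of_false (fun g => by obtain ⟨⟨g1, g2, g3⟩, g4⟩ := (bb22 x).1 g; linarith) (by decide)
  · exact iff_of_false (fun g => by obtain ⟨⟨g1, g2, g3⟩, g4⟩ := (bb23 x).1 g; linarith) (by decide)
  · exact iff_of_false (fun g => by obtain ⟨⟨g1, g2, g3⟩, g4⟩ := (bb24 x).1 g; linarith) (by decide)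
  · exact iff_of_false (fun g => by obtain ⟨⟨g1, g2, g3⟩, g4⟩ := (bb25 x).1 g; linarith) (by decide)
  · exact iff_of_false (fun g => by obtain ⟨⟨g1, g2, g3⟩, g4⟩ := (bb26 x).1 g; linarith) (by decide)
  · exact iff_of_false (fun g => by obtain ⟨⟨g1, g2, g3⟩, g4⟩ := (bb27 x).1 g; linarith) (by decide)
  · exact iff_of_false (fun g => by obtain ⟨⟨g1, g2, g3⟩, g4⟩ := (bb28 x).1 g; linarith) (by decide)
  · exact iff_of_false (fun g => by obtain ⟨⟨g1, g2, g3⟩, g4⟩ := (bb29 x).1 g; linarith) (by decide)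
  · exact iff_of_false (fun g => by obtain ⟨⟨g1, g2, g3⟩, g4⟩ := (bb30 x).1 g; linarith) (by decide)
  · exact iff_of_false (fun g => by obtain ⟨⟨g1, g2, g3⟩, g4⟩ := (bb31 x).1 g; linarith) (by decide)
  · exact iff_of_false (fun g => by obtain ⟨⟨g1, g2, g3⟩, g4⟩ := (bb32 x).1 g; linarith) (by decide)
  · exact iff_of_false (fun g => by obtain ⟨⟨g1, g2, g3⟩, g4⟩ := (bb33 x).1 g; linarith) (by decide)
  · exact iff_of_false (fun g => by obtain ⟨⟨g1, g2, g3⟩, g4⟩ := (bb34 x).1 g; linarith) (by decide)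
  · exact iff_of_false (fun g => by obtain ⟨⟨g1, g2, g3⟩, g4⟩ := (bb35 x).1 g; linarith) (by decide)
  · exact iff_of_false (fun g => by obtain ⟨⟨g1, g2, g3⟩, g4⟩ := (bb36 x).1 g; linarith) (by decide)
  · exact iff_of_false (fun g => by obtain ⟨⟨g1, g2, g3⟩, g4⟩ := (bb37 x).1 g; linarith) (by decide)
  · exact iff_of_false (fun g => by obtain ⟨⟨g1, g2, g3⟩, g4⟩ := (bb38 x).1 g; linarith) (by decide)
  · exact iff_of_false (fun g => by obtain ⟨⟨g1, g2, g3⟩, g4⟩ := (bb39 x).1 g; linarith) (by decide)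
  · exact iff_of_false (fun g => by obtain ⟨⟨g1, g2, g3⟩, g4⟩ := (bb40 x).1 g; linarith) (by decide)
  · exact iff_of_false (fun g => by obtain ⟨⟨g1, g2, g3⟩, g4⟩ := (bb41 x).1 g; linarith) (by decide)
  · exact iff_of_false (fun g => by obtain ⟨⟨g1, g2, g3⟩, g4⟩ := (bb42 x).1 g; linarith) (by decide)
  · exact iff_of_false (fun g => by obtain ⟨⟨g1, g2, g3⟩, g4⟩ := (bb43 x).1 g; linarith) (by decide)
  · exact iff_of_false (fun g => by obtain ⟨⟨g1, g2, g3⟩, g4⟩ := (bb44 x).1 g; linarith) (by decide)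
  · exact iff_of_false (fun g => by obtain ⟨g1, g2⟩ := (bb45 x).1 g; linarith) (by decide)
  · exact iff_of_false (fun g => by obtain ⟨g1, g2⟩ := (bb46 x).1 g; linarith) (by decide)
  · exact iff_of_false (fun g => by obtain ⟨g1, g2⟩ := (bb47 x).1 g; linarith) (by decide)
  · exact iff_of_false (fun g => by obtain ⟨g1, g2⟩ := (bb48 x).1 g; linarith) (by decide)
  · exact iff_of_false (fun g => by obtain ⟨g1, g2⟩ := (bb49 x).1 g; linarith) (by decide)
  · exact iff_of_false (fun g => by obtain ⟨g1, g2⟩ := (bb50 x).1 g; linarith) (by decide)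
  · exact iff_of_false (fun g => by obtain ⟨g1, g2⟩ := (bb51 x).1 g; linarith) (by decide)
  · exact iff_of_false (fun g => by obtain ⟨g1, g2⟩ := (bb52 x).1 g; linarith) (by decide)

/-- the open cell 4 -/
theorem oo4 (x : ℂ) (h1 : 0 < 2 * x.re - 2 * x.im)
    (h2 : 0 < -(2 * x.re) - 2 * x.im)
    (h3 : 0 < 4 * x.im + 8) : ∀ κ < 53,
    (x ∈ bs κ ↔ (bm κ).testBit 4 = true) := by
  intro κ hκ
  interval_cases κ
  · exact iff_of_false (fun g => by obtain ⟨g1, g2, g3⟩ := (bb0 x).1 g; linarith) (by decide)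
  · exact iff_of_false (fun g => by obtain ⟨g1, g2, g3⟩ := (bb1 x).1 g; linarith) (by decide)
  · exact iff_of_false (fun g => by obtain ⟨g1, g2, g3⟩ := (bb2 x).1 g; linarith) (by decide)
  · exact iff_of_false (fun g => by obtain ⟨g1, g2, g3⟩ := (bb3 x).1 g; linarith) (by decide)
  · exact iff_of_true ((bb4 x).2 ⟨by linarith, by linarith, by linarith⟩) (by decide)
  · exact iff_of_false (fun g => by obtain ⟨g1, g2, g3⟩ := (bb5 x).1 g; linarith) (by decide)
  · exact iff_of_false (fun g => by obtain ⟨g1, g2, g3⟩ := (bb6 x).1 g; linarith) (by decide)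
  · exact iff_of_false (fun g => by obtain ⟨g1, g2, g3⟩ := (bb7 x).1 g; linarith) (by decide)
  · exact iff_of_false (fun g => by obtain ⟨g1, g2, g3⟩ := (bb8 x).1 g; linarith) (by decide)
  · exact iff_of_false (fun g => by obtain ⟨g1, g2, g3⟩ := (bb9 x).1 g; linarith) (by decide)
  · exact iff_of_false (fun g => by obtain ⟨g1, g2, g3⟩ := (bb10 x).1 g; linarith) (by decide)
  · exact iff_of_false (fun g => by obtain ⟨g1, g2, g3⟩ := (bb11 x).1 g; linarith) (by decide)
  · exact iff_of_false (fun g => by obtain ⟨g1, g2, g3⟩ := (bb12 x).1 g; linarith) (by decide)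
  · exact iff_of_false (fun g => by obtain ⟨g1, g2, g3⟩ := (bb13 x).1 g; linarith) (by decide)
  · exact iff_of_false (fun g => by obtain ⟨g1, g2, g3⟩ := (bb14 x).1 g; linarith) (by decide)
  · exact iff_of_false (fun g => by obtain ⟨g1, g2, g3⟩ := (bb15 x).1 g; linarith) (by decide)
  · exact iff_of_false (fun g => by obtain ⟨g1, g2, g3⟩ := (bb16 x).1 g; linarith) (by decide)
  · exact iff_of_false (fun g => by obtain ⟨g1, g2, g3⟩ := (bb17 x).1 g; linarith) (by decide)
  · exact iff_of_false (fun g => by obtain ⟨⟨g1, g2, g3⟩, g4⟩ := (bb18 x).1 g; linarith) (by decide)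
  · exact iff_of_false (fun g => by obtain ⟨⟨g1, g2, g3⟩, g4⟩ := (bb19 x).1 g; linarith) (by decide)
  · exact iff_of_false (fun g => by obtain ⟨⟨g1, g2, g3⟩, g4⟩ := (bb20 x).1 g; linarith) (by decide)
  · exact iff_of_false (fun g => by obtain ⟨⟨g1, g2, g3⟩, g4⟩ := (bb21 x).1 g; linarith) (by decide)
  · exact iff_of_false (fun g => by obtain ⟨⟨g1, g2, g3⟩, g4⟩ := (bb22 x).1 g; linarith) (by decide)
  · exact iff_of_false (fun g => by obtain ⟨⟨g1, g2, g3⟩, g4⟩ := (bb23 x).1 g; linarith) (by decide)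
  · exact iff_of_false (fun g => by obtain ⟨⟨g1, g2, g3⟩, g4⟩ := (bb24 x).1 g; linarith) (by decide)
  · exact iff_of_false (fun g => by obtain ⟨⟨g1, g2, g3⟩, g4⟩ := (bb25 x).1 g; linarith) (by decide)
  · exact iff_of_false (fun g => by obtain ⟨⟨g1, g2, g3⟩, g4⟩ := (bb26 x).1 g; linarith) (by decide)
  · exact iff_of_false (fun g => by obtain ⟨⟨g1, g2, g3⟩, g4⟩ := (bb27 x).1 g; linarith) (by decide)
  · exact iff_of_false (fun g => by obtain ⟨⟨g1, g2, g3⟩, g4⟩ := (bb28 x).1 g; linarith) (by decide)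
  · exact iff_of_false (fun g => by obtain ⟨⟨g1, g2, g3⟩, g4⟩ := (bb29 x).1 g; linarith) (by decide)
  · exact iff_of_false (fun g => by obtain ⟨⟨g1, g2, g3⟩, g4⟩ := (bb30 x).1 g; linarith) (by decide)
  · exact iff_of_false (fun g => by obtain ⟨⟨g1, g2, g3⟩, g4⟩ := (bb31 x).1 g; linarith) (by decide)
  · exact iff_of_false (fun g => by obtain ⟨⟨g1, g2, g3⟩, g4⟩ := (bb32 x).1 g; linarith) (by decide)
  · exact iff_of_false (fun g => by obtain ⟨⟨g1, g2, g3⟩, g4⟩ := (bb33 x).1 g; linarith) (by decide)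
  · exact iff_of_false (fun g => by obtain ⟨⟨g1, g2, g3⟩, g4⟩ := (bb34 x).1 g; linarith) (by decide)
  · exact iff_of_false (fun g => by obtain ⟨⟨g1, g2, g3⟩, g4⟩ := (bb35 x).1 g; linarith) (by decide)
  · exact iff_of_false (fun g => by obtain ⟨⟨g1, g2, g3⟩, g4⟩ := (bb36 x).1 g; linarith) (by decide)
  · exact iff_of_false (fun g => by obtain ⟨⟨g1, g2, g3⟩, g4⟩ := (bb37 x).1 g; linarith) (by decide)
  · exact iff_of_false (fun g => by obtain ⟨⟨g1, g2, g3⟩, g4⟩ := (bb38 x).1 g; linarith) (by decide)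
  · exact iff_of_false (fun g => by obtain ⟨⟨g1, g2, g3⟩, g4⟩ := (bb39 x).1 g; linarith) (by decide)
  · exact iff_of_false (fun g => by obtain ⟨⟨g1, g2, g3⟩, g4⟩ := (bb40 x).1 g; linarith) (by decide)
  · exact iff_of_false (fun g => by obtain ⟨⟨g1, g2, g3⟩, g4⟩ := (bb41 x).1 g; linarith) (by decide)
  · exact iff_of_false (fun g => by obtain ⟨⟨g1, g2, g3⟩, g4⟩ := (bb42 x).1 g; linarith) (by decide)
  · exact iff_of_false (fun g => by obtain ⟨⟨g1, g2, g3⟩, g4⟩ := (bb43 x).1 g; linarith) (by decide)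
  · exact iff_of_false (fun g => by obtain ⟨⟨g1, g2, g3⟩, g4⟩ := (bb44 x).1 g; linarith) (by decide)
  · exact iff_of_false (fun g => by obtain ⟨g1, g2⟩ := (bb45 x).1 g; linarith) (by decide)
  · exact iff_of_false (fun g => by obtain ⟨g1, g2⟩ := (bb46 x).1 g; linarith) (by decide)
  · exact iff_of_false (fun g => by obtain ⟨g1, g2⟩ := (bb47 x).1 g; linarith) (by decide)
  · exact iff_of_false (fun g => by obtain ⟨g1, g2⟩ := (bb48 x).1 g; linarith) (by decide)
  · exact iff_of_false (fun g => by obtain ⟨g1, g2⟩ := (bb49 x).1 g; linarith) (by decide)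
  · exact iff_of_false (fun g => by obtain ⟨g1, g2⟩ := (bb50 x).1 g; linarith) (by decide)
  · exact iff_of_false (fun g => by obtain ⟨g1, g2⟩ := (bb51 x).1 g; linarith) (by decide)
  · exact iff_of_false (fun g => by obtain ⟨g1, g2⟩ := (bb52 x).1 g; linarith) (by decide)

/-- the open cell 5 -/
theorem oo5 (x : ℂ) (h1 : 0 < 2 * x.re + 2 * x.im)
    (h2 : 0 < -x.re - 2 * x.im)
    (h3 : 0 < -x.re + 2) : ∀ κ < 53,
    (x ∈ bs κ ↔ (bm κ).testBit 5 = true) := by
  intro κ hκ
  interval_cases κ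
  · exact iff_of_false (fun g => by obtain ⟨g1, g2, g3⟩ := (bb0 x).1 g; linarith) (by decide)
  · exact iff_of_false (fun g => by obtain ⟨g1, g2, g3⟩ := (bb1 x).1 g; linarith) (by decide)
  · exact iff_of_false (fun g => by obtain ⟨g1, g2, g3⟩ := (bb2 x).1 g; linarith) (by decide)
  · exact iff_of_false (fun g => by obtain ⟨g1, g2, g3⟩ := (bb3 x).1 g; linarith) (by decide)
  · exact iff_of_false (fun g => by obtain ⟨g1, g2, g3⟩ := (bb4 x).1 g; linarith) (by decide)
  · exact iff_of_true ((bb5 x).2 ⟨by linarith, by linarith, by linarith⟩) (by decide)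
  · exact iff_of_false (fun g => by obtain ⟨g1, g2, g3⟩ := (bb6 x).1 g; linarith) (by decide)
  · exact iff_of_false (fun g => by obtain ⟨g1, g2, g3⟩ := (bb7 x).1 g; linarith) (by decide)
  · exact iff_of_false (fun g => by obtain ⟨g1, g2, g3⟩ := (bb8 x).1 g; linarith) (by decide)
  · exact iff_of_false (fun g => by obtain ⟨g1, g2, g3⟩ := (bb9 x).1 g; linarith) (by decide)
  · exact iff_of_false (fun g => by obtain ⟨g1, g2, g3⟩ := (bb10 x).1 g; linarith) (by decide)
  · exact iff_of_false (fun g => by obtain ⟨g1, g2, g3⟩ := (bb11 x).1 g; linarith) (by decide)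
  · exact iff_of_false (fun g => by obtain ⟨g1, g2, g3⟩ := (bb12 x).1 g; linarith) (by decide)
  · exact iff_of_false (fun g => by obtain ⟨g1, g2, g3⟩ := (bb13 x).1 g; linarith) (by decide)
  · exact iff_of_false (fun g => by obtain ⟨g1, g2, g3⟩ := (bb14 x).1 g; linarith) (by decide)
  · exact iff_of_false (fun g => by obtain ⟨g1, g2, g3⟩ := (bb15 x).1 g; linarith) (by decide)
  · exact iff_of_false (fun g => by obtain ⟨g1, g2, g3⟩ := (bb16 x).1 g; linarith) (by decide)
  · exact iff_of_false (fun g => by obtain ⟨g1, g2, g3⟩ := (bb17 x).1 g; linarith) (by decide)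
  · exact iff_of_false (fun g => by obtain ⟨⟨g1, g2, g3⟩, g4⟩ := (bb18 x).1 g; linarith) (by decide)
  · exact iff_of_false (fun g => by obtain ⟨⟨g1, g2, g3⟩, g4⟩ := (bb19 x).1 g; linarith) (by decide)
  · exact iff_of_false (fun g => by obtain ⟨⟨g1, g2, g3⟩, g4⟩ := (bb20 x).1 g; linarith) (by decide)
  · exact iff_of_false (fun g => by obtain ⟨⟨g1, g2, g3⟩, g4⟩ := (bb21 x).1 g; linarith) (by decide)
  · exact iff_of_false (fun g => by obtain ⟨⟨g1, g2, g3⟩, g4⟩ := (bb22 x).1 g; linarith) (by decide)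
  · exact iff_of_false (fun g => by obtain ⟨⟨g1, g2, g3⟩, g4⟩ := (bb23 x).1 g; linarith) (by decide)
  · exact iff_of_false (fun g => by obtain ⟨⟨g1, g2, g3⟩, g4⟩ := (bb24 x).1 g; linarith) (by decide)
  · exact iff_of_false (fun g => by obtain ⟨⟨g1, g2, g3⟩, g4⟩ := (bb25 x).1 g; linarith) (by decide)
  · exact iff_of_false (fun g => by obtain ⟨⟨g1, g2, g3⟩, g4⟩ := (bb26 x).1 g; linarith) (by decide)
  · exact iff_of_false (fun g => by obtain ⟨⟨g1, g2, g3⟩, g4⟩ := (bb27 x).1 g; linarith) (by decide)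
  · exact iff_of_false (fun g => by obtain ⟨⟨g1, g2, g3⟩, g4⟩ := (bb28 x).1 g; linarith) (by decide)
  · exact iff_of_false (fun g => by obtain ⟨⟨g1, g2, g3⟩, g4⟩ := (bb29 x).1 g; linarith) (by decide)
  · exact iff_of_false (fun g => by obtain ⟨⟨g1, g2, g3⟩, g4⟩ := (bb30 x).1 g; linarith) (by decide)
  · exact iff_of_false (fun g => by obtain ⟨⟨g1, g2, g3⟩, g4⟩ := (bb31 x).1 g; linarith) (by decide)
  · exact iff_of_false (fun g => by obtain ⟨⟨g1, g2, g3⟩, g4⟩ := (bb32 x).1 g; linarith) (by decide)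
  · exact iff_of_false (fun g => by obtain ⟨⟨g1, g2, g3⟩, g4⟩ := (bb33 x).1 g; linarith) (by decide)
  · exact iff_of_false (fun g => by obtain ⟨⟨g1, g2, g3⟩, g4⟩ := (bb34 x).1 g; linarith) (by decide)
  · exact iff_of_false (fun g => by obtain ⟨⟨g1, g2, g3⟩, g4⟩ := (bb35 x).1 g; linarith) (by decide)
  · exact iff_of_false (fun g => by obtain ⟨⟨g1, g2, g3⟩, g4⟩ := (bb36 x).1 g; linarith) (by decide)
  · exact iff_of_false (fun g => by obtain ⟨⟨g1, g2, g3⟩, g4⟩ := (bb37 x).1 g; linarith) (by decide)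
  · exact iff_of_false (fun g => by obtain ⟨⟨g1, g2, g3⟩, g4⟩ := (bb38 x).1 g; linarith) (by decide)
  · exact iff_of_false (fun g => by obtain ⟨⟨g1, g2, g3⟩, g4⟩ := (bb39 x).1 g; linarith) (by decide)
  · exact iff_of_false (fun g => by obtain ⟨⟨g1, g2, g3⟩, g4⟩ := (bb40 x).1 g; linarith) (by decide)
  · exact iff_of_false (fun g => by obtain ⟨⟨g1, g2, g3⟩, g4⟩ := (bb41 x).1 g; linarith) (by decide)
  · exact iff_of_false (fun g => by obtain ⟨⟨g1, g2, g3⟩, g4⟩ := (bb42 x).1 g; linarith) (by decide)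
  · exact iff_of_false (fun g => by obtain ⟨⟨g1, g2, g3⟩, g4⟩ := (bb43 x).1 g; linarith) (by decide)
  · exact iff_of_false (fun g => by obtain ⟨⟨g1, g2, g3⟩, g4⟩ := (bb44 x).1 g; linarith) (by decide)
  · exact iff_of_false (fun g => by obtain ⟨g1, g2⟩ := (bb45 x).1 g; linarith) (by decide)
  · exact iff_of_false (fun g => by obtain ⟨g1, g2⟩ := (bb46 x).1 g; linarith) (by decide)
  · exact iff_of_false (fun g => by obtain ⟨g1, g2⟩ := (bb47 x).1 g; linarith) (by decide)
  · exact iff_of_false (fun g => by obtain ⟨g1, g2⟩ := (bb48 x).1 g; linarith) (by decide)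
  · exact iff_of_false (fun g => by obtain ⟨g1, g2⟩ := (bb49 x).1 g; linarith) (by decide)
  · exact iff_of_false (fun g => by obtain ⟨g1, g2⟩ := (bb50 x).1 g; linarith) (by decide)
  · exact iff_of_false (fun g => by obtain ⟨g1, g2⟩ := (bb51 x).1 g; linarith) (by decide)
  · exact iff_of_false (fun g => by obtain ⟨g1, g2⟩ := (bb52 x).1 g; linarith) (by decide)

/-- the open cell 6 -/
theorem oo6 (x : ℂ) (h1 : 0 < 2 * x.re + 2 * x.im - 8)
    (h2 : 0 < 2 * x.re - 2 * x.im - 8)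
    (h3 : 0 < -(4 * x.re) + 24) : ∀ κ < 53,
    (x ∈ bs κ ↔ (bm κ).testBit 6 = true) := by
  intro κ hκ
  interval_cases κ
  · exact iff_of_false (fun g => by obtain ⟨g1, g2, g3⟩ := (bb0 x).1 g; linarith) (by decide)
  · exact iff_of_false (fun g => by obtain ⟨g1, g2, g3⟩ := (bb1 x).1 g; linarith) (by decide)
  · exact iff_of_false (fun g => by obtain ⟨g1, g2, g3⟩ := (bb2 x).1 g; linarith) (by decide)
  · exact iff_of_false (fun g => by obtain ⟨g1, g2, g3⟩ := (bb3 x).1 g; linarith) (by decide)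
  · exact iff_of_false (fun g => by obtain ⟨g1, g2, g3⟩ := (bb4 x).1 g; linarith) (by decide)
  · exact iff_of_false (fun g => by obtain ⟨g1, g2, g3⟩ := (bb5 x).1 g; linarith) (by decide)
  · exact iff_of_true ((bb6 x).2 ⟨by linarith, by linarith, by linarith⟩) (by decide)
  · exact iff_of_false (fun g => by obtain ⟨g1, g2, g3⟩ := (bb7 x).1 g; linarith) (by decide)
  · exact iff_of_false (fun g => by obtain ⟨g1, g2, g3⟩ := (bb8 x).1 g; linarith) (by decide)
  · exact iff_of_false (fun g => by obtain ⟨g1, g2, g3⟩ := (bb9 x).1 g; linarith) (by decide)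
  · exact iff_of_false (fun g => by obtain ⟨g1, g2, g3⟩ := (bb10 x).1 g; linarith) (by decide)
  · exact iff_of_false (fun g => by obtain ⟨g1, g2, g3⟩ := (bb11 x).1 g; linarith) (by decide)
  · exact iff_of_false (fun g => by obtain ⟨g1, g2, g3⟩ := (bb12 x).1 g; linarith) (by decide)
  · exact iff_of_false (fun g => by obtain ⟨g1, g2, g3⟩ := (bb13 x).1 g; linarith) (by decide)
  · exact iff_of_false (fun g => by obtain ⟨g1, g2, g3⟩ := (bb14 x).1 g; linarith) (by decide)
  · exact iff_of_false (fun g => by obtain ⟨g1, g2, g3⟩ := (bb15 x).1 g; linarith) (by decide)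
  · exact iff_of_false (fun g => by obtain ⟨g1, g2, g3⟩ := (bb16 x).1 g; linarith) (by decide)
  · exact iff_of_false (fun g => by obtain ⟨g1, g2, g3⟩ := (bb17 x).1 g; linarith) (by decide)
  · exact iff_of_false (fun g => by obtain ⟨⟨g1, g2, g3⟩, g4⟩ := (bb18 x).1 g; linarith) (by decide)
  · exact iff_of_false (fun g => by obtain ⟨⟨g1, g2, g3⟩, g4⟩ := (bb19 x).1 g; linarith) (by decide)
  · exact iff_of_false (fun g => by obtain ⟨⟨g1, g2, g3⟩, g4⟩ := (bb20 x).1 g; linarith) (by decide)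
  · exact iff_of_false (fun g => by obtain ⟨⟨g1, g2, g3⟩, g4⟩ := (bb21 x).1 g; linarith) (by decide)
  · exact iff_of_false (fun g => by obtain ⟨⟨g1, g2, g3⟩, g4⟩ := (bb22 x).1 g; linarith) (by decide)
  · exact iff_of_false (fun g => by obtain ⟨⟨g1, g2, g3⟩, g4⟩ := (bb23 x).1 g; linarith) (by decide)
  · exact iff_of_false (fun g => by obtain ⟨⟨g1, g2, g3⟩, g4⟩ := (bb24 x).1 g; linarith) (by decide)
  · exact iff_of_false (fun g => by obtain ⟨⟨g1, g2, g3⟩, g4⟩ := (bb25 x).1 g; linarith) (by decide)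
  · exact iff_of_false (fun g => by obtain ⟨⟨g1, g2, g3⟩, g4⟩ := (bb26 x).1 g; linarith) (by decide)
  · exact iff_of_false (fun g => by obtain ⟨⟨g1, g2, g3⟩, g4⟩ := (bb27 x).1 g; linarith) (by decide)
  · exact iff_of_false (fun g => by obtain ⟨⟨g1, g2, g3⟩, g4⟩ := (bb28 x).1 g; linarith) (by decide)
  · exact iff_of_false (fun g => by obtain ⟨⟨g1, g2, g3⟩, g4⟩ := (bb29 x).1 g; linarith) (by decide)
  · exact iff_of_false (fun g => by obtain ⟨⟨g1, g2, g3⟩, g4⟩ := (bb30 x).1 g; linarith) (by decide)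
  · exact iff_of_false (fun g => by obtain ⟨⟨g1, g2, g3⟩, g4⟩ := (bb31 x).1 g; linarith) (by decide)
  · exact iff_of_false (fun g => by obtain ⟨⟨g1, g2, g3⟩, g4⟩ := (bb32 x).1 g; linarith) (by decide)
  · exact iff_of_false (fun g => by obtain ⟨⟨g1, g2, g3⟩, g4⟩ := (bb33 x).1 g; linarith) (by decide)
  · exact iff_of_false (fun g => by obtain ⟨⟨g1, g2, g3⟩, g4⟩ := (bb34 x).1 g; linarith) (by decide)
  · exact iff_of_false (fun g => by obtain ⟨⟨g1, g2, g3⟩, g4⟩ := (bb35 x).1 g; linarith) (by decide)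
  · exact iff_of_false (fun g => by obtain ⟨⟨g1, g2, g3⟩, g4⟩ := (bb36 x).1 g; linarith) (by decide)
  · exact iff_of_false (fun g => by obtain ⟨⟨g1, g2, g3⟩, g4⟩ := (bb37 x).1 g; linarith) (by decide)
  · exact iff_of_false (fun g => by obtain ⟨⟨g1, g2, g3⟩, g4⟩ := (bb38 x).1 g; linarith) (by decide)
  · exact iff_of_false (fun g => by obtain ⟨⟨g1, g2, g3⟩, g4⟩ := (bb39 x).1 g; linarith) (by decide)
  · exact iff_of_false (fun g => by obtain ⟨⟨g1, g2, g3⟩, g4⟩ := (bb40 x).1 g; linarith) (by decide)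
  · exact iff_of_false (fun g => by obtain ⟨⟨g1, g2, g3⟩, g4⟩ := (bb41 x).1 g; linarith) (by decide)
  · exact iff_of_false (fun g => by obtain ⟨⟨g1, g2, g3⟩, g4⟩ := (bb42 x).1 g; linarith) (by decide)
  · exact iff_of_false (fun g => by obtain ⟨⟨g1, g2, g3⟩, g4⟩ := (bb43 x).1 g; linarith) (by decide)
  · exact iff_of_false (fun g => by obtain ⟨⟨g1, g2, g3⟩, g4⟩ := (bb44 x).1 g; linarith) (by decide)
  · exact iff_of_false (fun g => by obtain ⟨g1, g2⟩ := (bb45 x).1 g; linarith) (by decide)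
  · exact iff_of_false (fun g => by obtain ⟨g1, g2⟩ := (bb46 x).1 g; linarith) (by decide)
  · exact iff_of_false (fun g => by obtain ⟨g1, g2⟩ := (bb47 x).1 g; linarith) (by decide)
  · exact iff_of_false (fun g => by obtain ⟨g1, g2⟩ := (bb48 x).1 g; linarith) (by decide)
  · exact iff_of_false (fun g => by obtain ⟨g1, g2⟩ := (bb49 x).1 g; linarith) (by decide)
  · exact iff_of_false (fun g => by obtain ⟨g1, g2⟩ := (bb50 x).1 g; linarith) (by decide)
  · exact iff_of_false (fun g => by obtain ⟨g1, g2⟩ := (bb51 x).1 g; linarith) (by decide)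
  · exact iff_of_false (fun g => by obtain ⟨g1, g2⟩ := (bb52 x).1 g; linarith) (by decide)

/-- the open cell 7 -/
theorem oo7 (x : ℂ) (h1 : 0 < -(2 * x.re) + 2 * x.im + 8)
    (h2 : 0 < 2 * x.re + 2 * x.im - 8)
    (h3 : 0 < -(4 * x.im) + 8) : ∀ κ < 53,
    (x ∈ bs κ ↔ (bm κ).testBit 7 = true) := by
  intro κ hκ
  interval_cases κ
  · exact iff_of_false (fun g => by obtain ⟨g1, g2, g3⟩ := (bb0 x).1 g; linarith) (by decide)
  · exact iff_of_false (fun g => by obtain ⟨g1, g2, g3⟩ := (bb1 x).1 g; linarith) (by decide)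
  · exact iff_of_false (fun g => by obtain ⟨g1, g2, g3⟩ := (bb2 x).1 g; linarith) (by decide)
  · exact iff_of_false (fun g => by obtain ⟨g1, g2, g3⟩ := (bb3 x).1 g; linarith) (by decide)
  · exact iff_of_false (fun g => by obtain ⟨g1, g2, g3⟩ := (bb4 x).1 g; linarith) (by decide)
  · exact iff_of_false (fun g => by obtain ⟨g1, g2, g3⟩ := (bb5 x).1 g; linarith) (by decide)
  · exact iff_of_false (fun g => by obtain ⟨g1, g2, g3⟩ := (bb6 x).1 g; linarith) (by decide)
  · exact iff_of_true ((bb7 x).2 ⟨by linarith, by linarith, by linarith⟩) (by decide)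
  · exact iff_of_false (fun g => by obtain ⟨g1, g2, g3⟩ := (bb8 x).1 g; linarith) (by decide)
  · exact iff_of_false (fun g => by obtain ⟨g1, g2, g3⟩ := (bb9 x).1 g; linarith) (by decide)
  · exact iff_of_false (fun g => by obtain ⟨g1, g2, g3⟩ := (bb10 x).1 g; linarith) (by decide)
  · exact iff_of_false (fun g => by obtain ⟨g1, g2, g3⟩ := (bb11 x).1 g; linarith) (by decide)
  · exact iff_of_false (fun g => by obtain ⟨g1, g2, g3⟩ := (bb12 x).1 g; linarith) (by decide)
  · exact iff_of_false (fun g => by obtain ⟨g1, g2, g3⟩ := (bb13 x).1 g; linarith) (by decide)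
  · exact iff_of_false (fun g => by obtain ⟨g1, g2, g3⟩ := (bb14 x).1 g; linarith) (by decide)
  · exact iff_of_false (fun g => by obtain ⟨g1, g2, g3⟩ := (bb15 x).1 g; linarith) (by decide)
  · exact iff_of_false (fun g => by obtain ⟨g1, g2, g3⟩ := (bb16 x).1 g; linarith) (by decide)
  · exact iff_of_false (fun g => by obtain ⟨g1, g2, g3⟩ := (bb17 x).1 g; linarith) (by decide)
  · exact iff_of_false (fun g => by obtain ⟨⟨g1, g2, g3⟩, g4⟩ := (bb18 x).1 g; linarith) (by decide)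
  · exact iff_of_false (fun g => by obtain ⟨⟨g1, g2, g3⟩, g4⟩ := (bb19 x).1 g; linarith) (by decide)
  · exact iff_of_false (fun g => by obtain ⟨⟨g1, g2, g3⟩, g4⟩ := (bb20 x).1 g; linarith) (by decide)
  · exact iff_of_false (fun g => by obtain ⟨⟨g1, g2, g3⟩, g4⟩ := (bb21 x).1 g; linarith) (by decide)
  · exact iff_of_false (fun g => by obtain ⟨⟨g1, g2, g3⟩, g4⟩ := (bb22 x).1 g; linarith) (by decide)
  · exact iff_of_false (fun g => by obtain ⟨⟨g1, g2, g3⟩, g4⟩ := (bb23 x).1 g; linarith) (by decide)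
  · exact iff_of_false (fun g => by obtain ⟨⟨g1, g2, g3⟩, g4⟩ := (bb24 x).1 g; linarith) (by decide)
  · exact iff_of_false (fun g => by obtain ⟨⟨g1, g2, g3⟩, g4⟩ := (bb25 x).1 g; linarith) (by decide)
  · exact iff_of_false (fun g => by obtain ⟨⟨g1, g2, g3⟩, g4⟩ := (bb26 x).1 g; linarith) (by decide)
  · exact iff_of_false (fun g => by obtain ⟨⟨g1, g2, g3⟩, g4⟩ := (bb27 x).1 g; linarith) (by decide)
  · exact iff_of_false (fun g => by obtain ⟨⟨g1, g2, g3⟩, g4⟩ := (bb28 x).1 g; linarith) (by decide)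
  · exact iff_of_false (fun g => by obtain ⟨⟨g1, g2, g3⟩, g4⟩ := (bb29 x).1 g; linarith) (by decide)
  · exact iff_of_false (fun g => by obtain ⟨⟨g1, g2, g3⟩, g4⟩ := (bb30 x).1 g; linarith) (by decide)
  · exact iff_of_false (fun g => by obtain ⟨⟨g1, g2, g3⟩, g4⟩ := (bb31 x).1 g; linarith) (by decide)
  · exact iff_of_false (fun g => by obtain ⟨⟨g1, g2, g3⟩, g4⟩ := (bb32 x).1 g; linarith) (by decide)
  · exact iff_of_false (fun g => by obtain ⟨⟨g1, g2, g3⟩, g4⟩ := (bb33 x).1 g; linarith) (by decide)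
  · exact iff_of_false (fun g => by obtain ⟨⟨g1, g2, g3⟩, g4⟩ := (bb34 x).1 g; linarith) (by decide)
  · exact iff_of_false (fun g => by obtain ⟨⟨g1, g2, g3⟩, g4⟩ := (bb35 x).1 g; linarith) (by decide)
  · exact iff_of_false (fun g => by obtain ⟨⟨g1, g2, g3⟩, g4⟩ := (bb36 x).1 g; linarith) (by decide)
  · exact iff_of_false (fun g => by obtain ⟨⟨g1, g2, g3⟩, g4⟩ := (bb37 x).1 g; linarith) (by decide)
  · exact iff_of_false (fun g => by obtain ⟨⟨g1, g2, g3⟩, g4⟩ := (bb38 x).1 g; linarith) (by decide)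
  · exact iff_of_false (fun g => by obtain ⟨⟨g1, g2, g3⟩, g4⟩ := (bb39 x).1 g; linarith) (by decide)
  · exact iff_of_false (fun g => by obtain ⟨⟨g1, g2, g3⟩, g4⟩ := (bb40 x).1 g; linarith) (by decide)
  · exact iff_of_false (fun g => by obtain ⟨⟨g1, g2, g3⟩, g4⟩ := (bb41 x).1 g; linarith) (by decide)
  · exact iff_of_false (fun g => by obtain ⟨⟨g1, g2, g3⟩, g4⟩ := (bb42 x).1 g; linarith) (by decide)
  · exact iff_of_false (fun g => by obtain ⟨⟨g1, g2, g3⟩, g4⟩ := (bb43 x).1 g; linarith) (by decide)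
  · exact iff_of_false (fun g => by obtain ⟨⟨g1, g2, g3⟩, g4⟩ := (bb44 x).1 g; linarith) (by decide)
  · exact iff_of_false (fun g => by obtain ⟨g1, g2⟩ := (bb45 x).1 g; linarith) (by decide)
  · exact iff_of_false (fun g => by obtain ⟨g1, g2⟩ := (bb46 x).1 g; linarith) (by decide)
  · exact iff_of_false (fun g => by obtain ⟨g1, g2⟩ := (bb47 x).1 g; linarith) (by decide)
  · exact iff_of_false (fun g => by obtain ⟨g1, g2⟩ := (bb48 x).1 g; linarith) (by decide)
  · exact iff_of_false (fun g => by obtain ⟨g1, g2⟩ := (bb49 x).1 g; linarith) (by decide)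
  · exact iff_of_false (fun g => by obtain ⟨g1, g2⟩ := (bb50 x).1 g; linarith) (by decide)
  · exact iff_of_false (fun g => by obtain ⟨g1, g2⟩ := (bb51 x).1 g; linarith) (by decide)
  · exact iff_of_false (fun g => by obtain ⟨g1, g2⟩ := (bb52 x).1 g; linarith) (by decide)

/-- the open cell 8 -/
theorem oo8 (x : ℂ) (h1 : 0 < -(2 * x.re) - 2 * x.im + 8)
    (h2 : 0 < x.re + 2 * x.im - 4)
    (h3 : 0 < x.re - 2) : ∀ κ < 53,
    (x ∈ bs κ ↔ (bm κ).testBit 8 = true) := by
  intro κ hκ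
  interval_cases κ
  · exact iff_of_false (fun g => by obtain ⟨g1, g2, g3⟩ := (bb0 x).1 g; linarith) (by decide)
  · exact iff_of_false (fun g => by obtain ⟨g1, g2, g3⟩ := (bb1 x).1 g; linarith) (by decide)
  · exact iff_of_false (fun g => by obtain ⟨g1, g2, g3⟩ := (bb2 x).1 g; linarith) (by decide)
  · exact iff_of_false (fun g => by obtain ⟨g1, g2, g3⟩ := (bb3 x).1 g; linarith) (by decide)
  · exact iff_of_false (fun g => by obtain ⟨g1, g2, g3⟩ := (bb4 x).1 g; linarith) (by decide)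
  · exact iff_of_false (fun g => by obtain ⟨g1, g2, g3⟩ := (bb5 x).1 g; linarith) (by decide)
  · exact iff_of_false (fun g => by obtain ⟨g1, g2, g3⟩ := (bb6 x).1 g; linarith) (by decide)
  · exact iff_of_false (fun g => by obtain ⟨g1, g2, g3⟩ := (bb7 x).1 g; linarith) (by decide)
  · exact iff_of_true ((bb8 x).2 ⟨by linarith, by linarith, by linarith⟩) (by decide)
  · exact iff_of_false (fun g => by obtain ⟨g1, g2, g3⟩ := (bb9 x).1 g; linarith) (by decide)
  · exact iff_of_false (fun g => by obtain ⟨g1, g2, g3⟩ := (bb10 x).1 g; linarith) (by decide)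
  · exact iff_of_false (fun g => by obtain ⟨g1, g2, g3⟩ := (bb11 x).1 g; linarith) (by decide)
  · exact iff_of_false (fun g => by obtain ⟨g1, g2, g3⟩ := (bb12 x).1 g; linarith) (by decide)
  · exact iff_of_false (fun g => by obtain ⟨g1, g2, g3⟩ := (bb13 x).1 g; linarith) (by decide)
  · exact iff_of_false (fun g => by obtain ⟨g1, g2, g3⟩ := (bb14 x).1 g; linarith) (by decide)
  · exact iff_of_false (fun g => by obtain ⟨g1, g2, g3⟩ := (bb15 x).1 g; linarith) (by decide)
  · exact iff_of_false (fun g => by obtain ⟨g1, g2, g3⟩ := (bb16 x).1 g; linarith) (by decide)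
  · exact iff_of_false (fun g => by obtain ⟨g1, g2, g3⟩ := (bb17 x).1 g; linarith) (by decide)
  · exact iff_of_false (fun g => by obtain ⟨⟨g1, g2, g3⟩, g4⟩ := (bb18 x).1 g; linarith) (by decide)
  · exact iff_of_false (fun g => by obtain ⟨⟨g1, g2, g3⟩, g4⟩ := (bb19 x).1 g; linarith) (by decide)
  · exact iff_of_false (fun g => by obtain ⟨⟨g1, g2, g3⟩, g4⟩ := (bb20 x).1 g; linarith) (by decide)
  · exact iff_of_false (fun g => by obtain ⟨⟨g1, g2, g3⟩, g4⟩ := (bb21 x).1 g; linarith) (by decide)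
  · exact iff_of_false (fun g => by obtain ⟨⟨g1, g2, g3⟩, g4⟩ := (bb22 x).1 g; linarith) (by decide)
  · exact iff_of_false (fun g => by obtain ⟨⟨g1, g2, g3⟩, g4⟩ := (bb23 x).1 g; linarith) (by decide)
  · exact iff_of_false (fun g => by obtain ⟨⟨g1, g2, g3⟩, g4⟩ := (bb24 x).1 g; linarith) (by decide)
  · exact iff_of_false (fun g => by obtain ⟨⟨g1, g2, g3⟩, g4⟩ := (bb25 x).1 g; linarith) (by decide)
  · exact iff_of_false (fun g => by obtain ⟨⟨g1, g2, g3⟩, g4⟩ := (bb26 x).1 g; linarith) (by decide)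
  · exact iff_of_false (fun g => by obtain ⟨⟨g1, g2, g3⟩, g4⟩ := (bb27 x).1 g; linarith) (by decide)
  · exact iff_of_false (fun g => by obtain ⟨⟨g1, g2, g3⟩, g4⟩ := (bb28 x).1 g; linarith) (by decide)
  · exact iff_of_false (fun g => by obtain ⟨⟨g1, g2, g3⟩, g4⟩ := (bb29 x).1 g; linarith) (by decide)
  · exact iff_of_false (fun g => by obtain ⟨⟨g1, g2, g3⟩, g4⟩ := (bb30 x).1 g; linarith) (by decide)
  · exact iff_of_false (fun g => by obtain ⟨⟨g1, g2, g3⟩, g4⟩ := (bb31 x).1 g; linarith) (by decide)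
  · exact iff_of_false (fun g => by obtain ⟨⟨g1, g2, g3⟩, g4⟩ := (bb32 x).1 g; linarith) (by decide)
  · exact iff_of_false (fun g => by obtain ⟨⟨g1, g2, g3⟩, g4⟩ := (bb33 x).1 g; linarith) (by decide)
  · exact iff_of_false (fun g => by obtain ⟨⟨g1, g2, g3⟩, g4⟩ := (bb34 x).1 g; linarith) (by decide)
  · exact iff_of_false (fun g => by obtain ⟨⟨g1, g2, g3⟩, g4⟩ := (bb35 x).1 g; linarith) (by decide)
  · exact iff_of_false (fun g => by obtain ⟨⟨g1, g2, g3⟩, g4⟩ := (bb36 x).1 g; linarith) (by decide)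
  · exact iff_of_false (fun g => by obtain ⟨⟨g1, g2, g3⟩, g4⟩ := (bb37 x).1 g; linarith) (by decide)
  · exact iff_of_false (fun g => by obtain ⟨⟨g1, g2, g3⟩, g4⟩ := (bb38 x).1 g; linarith) (by decide)
  · exact iff_of_false (fun g => by obtain ⟨⟨g1, g2, g3⟩, g4⟩ := (bb39 x).1 g; linarith) (by decide)
  · exact iff_of_false (fun g => by obtain ⟨⟨g1, g2, g3⟩, g4⟩ := (bb40 x).1 g; linarith) (by decide)
  · exact iff_of_false (fun g => by obtain ⟨⟨g1, g2, g3⟩, g4⟩ := (bb41 x).1 g; linarith) (by decide)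
  · exact iff_of_false (fun g => by obtain ⟨⟨g1, g2, g3⟩, g4⟩ := (bb42 x).1 g; linarith) (by decide)
  · exact iff_of_false (fun g => by obtain ⟨⟨g1, g2, g3⟩, g4⟩ := (bb43 x).1 g; linarith) (by decide)
  · exact iff_of_false (fun g => by obtain ⟨⟨g1, g2, g3⟩, g4⟩ := (bb44 x).1 g; linarith) (by decide)
  · exact iff_of_false (fun g => by obtain ⟨g1, g2⟩ := (bb45 x).1 g; linarith) (by decide)
  · exact iff_of_false (fun g => by obtain ⟨g1, g2⟩ := (bb46 x).1 g; linarith) (by decide)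
  · exact iff_of_false (fun g => by obtain ⟨g1, g2⟩ := (bb47 x).1 g; linarith) (by decide)
  · exact iff_of_false (fun g => by obtain ⟨g1, g2⟩ := (bb48 x).1 g; linarith) (by decide)
  · exact iff_of_false (fun g => by obtain ⟨g1, g2⟩ := (bb49 x).1 g; linarith) (by decide)
  · exact iff_of_false (fun g => by obtain ⟨g1, g2⟩ := (bb50 x).1 g; linarith) (by decide)
  · exact iff_of_false (fun g => by obtain ⟨g1, g2⟩ := (bb51 x).1 g; linarith) (by decide)
  · exact iff_of_false (fun g => by obtain ⟨g1, g2⟩ := (bb52 x).1 g; linarith) (by decide)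

/-- the open cell 9 -/
theorem oo9 (x : ℂ) (h1 : 0 < -x.re - 2 * x.im + 4)
    (h2 : 0 < -x.re + 2 * x.im + 4)
    (h3 : 0 < 2 * x.re - 4) : ∀ κ < 53,
    (x ∈ bs κ ↔ (bm κ).testBit 9 = true) := by
  intro κ hκ
  interval_cases κ
  · exact iff_of_false (fun g => by obtain ⟨g1, g2, g3⟩ := (bb0 x).1 g; linarith) (by decide)
  · exact iff_of_false (fun g => by obtain ⟨g1, g2, g3⟩ := (bb1 x).1 g; linarith) (by decide)
  · exact iff_of_false (fun g => by obtain ⟨g1, g2, g3⟩ := (bb2 x).1 g; linarith) (by decide)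
  · exact iff_of_false (fun g => by obtain ⟨g1, g2, g3⟩ := (bb3 x).1 g; linarith) (by decide)
  · exact iff_of_false (fun g => by obtain ⟨g1, g2, g3⟩ := (bb4 x).1 g; linarith) (by decide)
  · exact iff_of_false (fun g => by obtain ⟨g1, g2, g3⟩ := (bb5 x).1 g; linarith) (by decide)
  · exact iff_of_false (fun g => by obtain ⟨g1, g2, g3⟩ := (bb6 x).1 g; linarith) (by decide)
  · exact iff_of_false (fun g => by obtain ⟨g1, g2, g3⟩ := (bb7 x).1 g; linarith) (by decide)
  · exact iff_of_false (fun g => by obtain ⟨g1, g2, g3⟩ := (bb8 x).1 g; linarith) (by decide)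
  · exact iff_of_true ((bb9 x).2 ⟨by linarith, by linarith, by linarith⟩) (by decide)
  · exact iff_of_false (fun g => by obtain ⟨g1, g2, g3⟩ := (bb10 x).1 g; linarith) (by decide)
  · exact iff_of_false (fun g => by obtain ⟨g1, g2, g3⟩ := (bb11 x).1 g; linarith) (by decide)
  · exact iff_of_false (fun g => by obtain ⟨g1, g2, g3⟩ := (bb12 x).1 g; linarith) (by decide)
  · exact iff_of_false (fun g => by obtain ⟨g1, g2, g3⟩ := (bb13 x).1 g; linarith) (by decide)
  · exact iff_of_false (fun g => by obtain ⟨g1, g2, g3⟩ := (bb14 x).1 g; linarith) (by decide)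
  · exact iff_of_false (fun g => by obtain ⟨g1, g2, g3⟩ := (bb15 x).1 g; linarith) (by decide)
  · exact iff_of_false (fun g => by obtain ⟨g1, g2, g3⟩ := (bb16 x).1 g; linarith) (by decide)
  · exact iff_of_false (fun g => by obtain ⟨g1, g2, g3⟩ := (bb17 x).1 g; linarith) (by decide)
  · exact iff_of_false (fun g => by obtain ⟨⟨g1, g2, g3⟩, g4⟩ := (bb18 x).1 g; linarith) (by decide)
  · exact iff_of_false (fun g => by obtain ⟨⟨g1, g2, g3⟩, g4⟩ := (bb19 x).1 g; linarith) (by decide)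
  · exact iff_of_false (fun g => by obtain ⟨⟨g1, g2, g3⟩, g4⟩ := (bb20 x).1 g; linarith) (by decide)
  · exact iff_of_false (fun g => by obtain ⟨⟨g1, g2, g3⟩, g4⟩ := (bb21 x).1 g; linarith) (by decide)
  · exact iff_of_false (fun g => by obtain ⟨⟨g1, g2, g3⟩, g4⟩ := (bb22 x).1 g; linarith) (by decide)
  · exact iff_of_false (fun g => by obtain ⟨⟨g1, g2, g3⟩, g4⟩ := (bb23 x).1 g; linarith) (by decide)
  · exact iff_of_false (fun g => by obtain ⟨⟨g1, g2, g3⟩, g4⟩ := (bb24 x).1 g; linarith) (by decide)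
  · exact iff_of_false (fun g => by obtain ⟨⟨g1, g2, g3⟩, g4⟩ := (bb25 x).1 g; linarith) (by decide)
  · exact iff_of_false (fun g => by obtain ⟨⟨g1, g2, g3⟩, g4⟩ := (bb26 x).1 g; linarith) (by decide)
  · exact iff_of_false (fun g => by obtain ⟨⟨g1, g2, g3⟩, g4⟩ := (bb27 x).1 g; linarith) (by decide)
  · exact iff_of_false (fun g => by obtain ⟨⟨g1, g2, g3⟩, g4⟩ := (bb28 x).1 g; linarith) (by decide)
  · exact iff_of_false (fun g => by obtain ⟨⟨g1, g2, g3⟩, g4⟩ := (bb29 x).1 g; linarith) (by decide)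
  · exact iff_of_false (fun g => by obtain ⟨⟨g1, g2, g3⟩, g4⟩ := (bb30 x).1 g; linarith) (by decide)
  · exact iff_of_false (fun g => by obtain ⟨⟨g1, g2, g3⟩, g4⟩ := (bb31 x).1 g; linarith) (by decide)
  · exact iff_of_false (fun g => by obtain ⟨⟨g1, g2, g3⟩, g4⟩ := (bb32 x).1 g; linarith) (by decide)
  · exact iff_of_false (fun g => by obtain ⟨⟨g1, g2, g3⟩, g4⟩ := (bb33 x).1 g; linarith) (by decide)
  · exact iff_of_false (fun g => by obtain ⟨⟨g1, g2, g3⟩, g4⟩ := (bb34 x).1 g; linarith) (by decide)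
  · exact iff_of_false (fun g => by obtain ⟨⟨g1, g2, g3⟩, g4⟩ := (bb35 x).1 g; linarith) (by decide)
  · exact iff_of_false (fun g => by obtain ⟨⟨g1, g2, g3⟩, g4⟩ := (bb36 x).1 g; linarith) (by decide)
  · exact iff_of_false (fun g => by obtain ⟨⟨g1, g2, g3⟩, g4⟩ := (bb37 x).1 g; linarith) (by decide)
  · exact iff_of_false (fun g => by obtain ⟨⟨g1, g2, g3⟩, g4⟩ := (bb38 x).1 g; linarith) (by decide)
  · exact iff_of_false (fun g => by obtain ⟨⟨g1, g2, g3⟩, g4⟩ := (bb39 x).1 g; linarith) (by decide)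
  · exact iff_of_false (fun g => by obtain ⟨⟨g1, g2, g3⟩, g4⟩ := (bb40 x).1 g; linarith) (by decide)
  · exact iff_of_false (fun g => by obtain ⟨⟨g1, g2, g3⟩, g4⟩ := (bb41 x).1 g; linarith) (by decide)
  · exact iff_of_false (fun g => by obtain ⟨⟨g1, g2, g3⟩, g4⟩ := (bb42 x).1 g; linarith) (by decide)
  · exact iff_of_false (fun g => by obtain ⟨⟨g1, g2, g3⟩, g4⟩ := (bb43 x).1 g; linarith) (by decide)
  · exact iff_of_false (fun g => by obtain ⟨⟨g1, g2, g3⟩, g4⟩ := (bb44 x).1 g; linarith) (by decide)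
  · exact iff_of_false (fun g => by obtain ⟨g1, g2⟩ := (bb45 x).1 g; linarith) (by decide)
  · exact iff_of_false (fun g => by obtain ⟨g1, g2⟩ := (bb46 x).1 g; linarith) (by decide)
  · exact iff_of_false (fun g => by obtain ⟨g1, g2⟩ := (bb47 x).1 g; linarith) (by decide)
  · exact iff_of_false (fun g => by obtain ⟨g1, g2⟩ := (bb48 x).1 g; linarith) (by decide)
  · exact iff_of_false (fun g => by obtain ⟨g1, g2⟩ := (bb49 x).1 g; linarith) (by decide)
  · exact iff_of_false (fun g => by obtain ⟨g1, g2⟩ := (bb50 x).1 g; linarith) (by decide)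
  · exact iff_of_false (fun g => by obtain ⟨g1, g2⟩ := (bb51 x).1 g; linarith) (by decide)
  · exact iff_of_false (fun g => by obtain ⟨g1, g2⟩ := (bb52 x).1 g; linarith) (by decide)

/-- the open cell 10 -/
theorem oo10 (x : ℂ) (h1 : 0 < x.re - 2 * x.im - 4)
    (h2 : 0 < -(2 * x.re) + 2 * x.im + 8)
    (h3 : 0 < x.re - 2) : ∀ κ < 53,
    (x ∈ bs κ ↔ (bm κ).testBit 10 = true) := by
  intro κ hκ
  interval_cases κ
  · exact iff_of_false (fun g => by obtain ⟨g1, g2, g3⟩ := (bb0 x).1 g; linarith) (by decide)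
  · exact iff_of_false (fun g => by obtain ⟨g1, g2, g3⟩ := (bb1 x).1 g; linarith) (by decide)
  · exact iff_of_false (fun g => by obtain ⟨g1, g2, g3⟩ := (bb2 x).1 g; linarith) (by decide)
  · exact iff_of_false (fun g => by obtain ⟨g1, g2, g3⟩ := (bb3 x).1 g; linarith) (by decide)
  · exact iff_of_false (fun g => by obtain ⟨g1, g2, g3⟩ := (bb4 x).1 g; linarith) (by decide)
  · exact iff_of_false (fun g => by obtain ⟨g1, g2, g3⟩ := (bb5 x).1 g; linarith) (by decide)
  · exact iff_of_false (fun g => by obtain ⟨g1, g2, g3⟩ := (bb6 x).1 g; linarith) (by decide)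
  · exact iff_of_false (fun g => by obtain ⟨g1, g2, g3⟩ := (bb7 x).1 g; linarith) (by decide)
  · exact iff_of_false (fun g => by obtain ⟨g1, g2, g3⟩ := (bb8 x).1 g; linarith) (by decide)
  · exact iff_of_false (fun g => by obtain ⟨g1, g2, g3⟩ := (bb9 x).1 g; linarith) (by decide)
  · exact iff_of_true ((bb10 x).2 ⟨by linarith, by linarith, by linarith⟩) (by decide)
  · exact iff_of_false (fun g => by obtain ⟨g1, g2, g3⟩ := (bb11 x).1 g; linarith) (by decide)
  · exact iff_of_false (fun g => by obtain ⟨g1, g2, g3⟩ := (bb12 x).1 g; linarith) (by decide)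
  · exact iff_of_false (fun g => by obtain ⟨g1, g2, g3⟩ := (bb13 x).1 g; linarith) (by decide)
  · exact iff_of_false (fun g => by obtain ⟨g1, g2, g3⟩ := (bb14 x).1 g; linarith) (by decide)
  · exact iff_of_false (fun g => by obtain ⟨g1, g2, g3⟩ := (bb15 x).1 g; linarith) (by decide)
  · exact iff_of_false (fun g => by obtain ⟨g1, g2, g3⟩ := (bb16 x).1 g; linarith) (by decide)
  · exact iff_of_false (fun g => by obtain ⟨g1, g2, g3⟩ := (bb17 x).1 g; linarith) (by decide)
  · exact iff_of_false (fun g => by obtain ⟨⟨g1, g2, g3⟩, g4⟩ := (bb18 x).1 g; linarith) (by decide)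
  · exact iff_of_false (fun g => by obtain ⟨⟨g1, g2, g3⟩, g4⟩ := (bb19 x).1 g; linarith) (by decide)
  · exact iff_of_false (fun g => by obtain ⟨⟨g1, g2, g3⟩, g4⟩ := (bb20 x).1 g; linarith) (by decide)
  · exact iff_of_false (fun g => by obtain ⟨⟨g1, g2, g3⟩, g4⟩ := (bb21 x).1 g; linarith) (by decide)
  · exact iff_of_false (fun g => by obtain ⟨⟨g1, g2, g3⟩, g4⟩ := (bb22 x).1 g; linarith) (by decide)
  · exact iff_of_false (fun g => by obtain ⟨⟨g1, g2, g3⟩, g4⟩ := (bb23 x).1 g; linarith) (by decide)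
  · exact iff_of_false (fun g => by obtain ⟨⟨g1, g2, g3⟩, g4⟩ := (bb24 x).1 g; linarith) (by decide)
  · exact iff_of_false (fun g => by obtain ⟨⟨g1, g2, g3⟩, g4⟩ := (bb25 x).1 g; linarith) (by decide)
  · exact iff_of_false (fun g => by obtain ⟨⟨g1, g2, g3⟩, g4⟩ := (bb26 x).1 g; linarith) (by decide)
  · exact iff_of_false (fun g => by obtain ⟨⟨g1, g2, g3⟩, g4⟩ := (bb27 x).1 g; linarith) (by decide)
  · exact iff_of_false (fun g => by obtain ⟨⟨g1, g2, g3⟩, g4⟩ := (bb28 x).1 g; linarith) (by decide)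
  · exact iff_of_false (fun g => by obtain ⟨⟨g1, g2, g3⟩, g4⟩ := (bb29 x).1 g; linarith) (by decide)
  · exact iff_of_false (fun g => by obtain ⟨⟨g1, g2, g3⟩, g4⟩ := (bb30 x).1 g; linarith) (by decide)
  · exact iff_of_false (fun g => by obtain ⟨⟨g1, g2, g3⟩, g4⟩ := (bb31 x).1 g; linarith) (by decide)
  · exact iff_of_false (fun g => by obtain ⟨⟨g1, g2, g3⟩, g4⟩ := (bb32 x).1 g; linarith) (by decide)
  · exact iff_of_false (fun g => by obtain ⟨⟨g1, g2, g3⟩, g4⟩ := (bb33 x).1 g; linarith) (by decide)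
  · exact iff_of_false (fun g => by obtain ⟨⟨g1, g2, g3⟩, g4⟩ := (bb34 x).1 g; linarith) (by decide)
  · exact iff_of_false (fun g => by obtain ⟨⟨g1, g2, g3⟩, g4⟩ := (bb35 x).1 g; linarith) (by decide)
  · exact iff_of_false (fun g => by obtain ⟨⟨g1, g2, g3⟩, g4⟩ := (bb36 x).1 g; linarith) (by decide)
  · exact iff_of_false (fun g => by obtain ⟨⟨g1, g2, g3⟩, g4⟩ := (bb37 x).1 g; linarith) (by decide)
  · exact iff_of_false (fun g => by obtain ⟨⟨g1, g2, g3⟩, g4⟩ := (bb38 x).1 g; linarith) (by decide)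
  · exact iff_of_false (fun g => by obtain ⟨⟨g1, g2, g3⟩, g4⟩ := (bb39 x).1 g; linarith) (by decide)
  · exact iff_of_false (fun g => by obtain ⟨⟨g1, g2, g3⟩, g4⟩ := (bb40 x).1 g; linarith) (by decide)
  · exact iff_of_false (fun g => by obtain ⟨⟨g1, g2, g3⟩, g4⟩ := (bb41 x).1 g; linarith) (by decide)
  · exact iff_of_false (fun g => by obtain ⟨⟨g1, g2, g3⟩, g4⟩ := (bb42 x).1 g; linarith) (by decide)
  · exact iff_of_false (fun g => by obtain ⟨⟨g1, g2, g3⟩, g4⟩ := (bb43 x).1 g; linarith) (by decide)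
  · exact iff_of_false (fun g => by obtain ⟨⟨g1, g2, g3⟩, g4⟩ := (bb44 x).1 g; linarith) (by decide)
  · exact iff_of_false (fun g => by obtain ⟨g1, g2⟩ := (bb45 x).1 g; linarith) (by decide)
  · exact iff_of_false (fun g => by obtain ⟨g1, g2⟩ := (bb46 x).1 g; linarith) (by decide)
  · exact iff_of_false (fun g => by obtain ⟨g1, g2⟩ := (bb47 x).1 g; linarith) (by decide)
  · exact iff_of_false (fun g => by obtain ⟨g1, g2⟩ := (bb48 x).1 g; linarith) (by decide)
  · exact iff_of_false (fun g => by obtain ⟨g1, g2⟩ := (bb49 x).1 g; linarith) (by decide)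
  · exact iff_of_false (fun g => by obtain ⟨g1, g2⟩ := (bb50 x).1 g; linarith) (by decide)
  · exact iff_of_false (fun g => by obtain ⟨g1, g2⟩ := (bb51 x).1 g; linarith) (by decide)
  · exact iff_of_false (fun g => by obtain ⟨g1, g2⟩ := (bb52 x).1 g; linarith) (by decide)

/-- the open cell 11 -/
theorem oo11 (x : ℂ) (h1 : 0 < 2 * x.re - 2 * x.im - 8)
    (h2 : 0 < -(2 * x.re) - 2 * x.im + 8)
    (h3 : 0 < 4 * x.im + 8) : ∀ κ < 53,
    (x ∈ bs κ ↔ (bm κ).testBit 11 = true) := by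
  intro κ hκ
  interval_cases κ
  · exact iff_of_false (fun g => by obtain ⟨g1, g2, g3⟩ := (bb0 x).1 g; linarith) (by decide)
  · exact iff_of_false (fun g => by obtain ⟨g1, g2, g3⟩ := (bb1 x).1 g; linarith) (by decide)
  · exact iff_of_false (fun g => by obtain ⟨g1, g2, g3⟩ := (bb2 x).1 g; linarith) (by decide)
  · exact iff_of_false (fun g => by obtain ⟨g1, g2, g3⟩ := (bb3 x).1 g; linarith) (by decide)
  · exact iff_of_false (fun g => by obtain ⟨g1, g2, g3⟩ := (bb4 x).1 g; linarith) (by decide)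
  · exact iff_of_false (fun g => by obtain ⟨g1, g2, g3⟩ := (bb5 x).1 g; linarith) (by decide)
  · exact iff_of_false (fun g => by obtain ⟨g1, g2, g3⟩ := (bb6 x).1 g; linarith) (by decide)
  · exact iff_of_false (fun g => by obtain ⟨g1, g2, g3⟩ := (bb7 x).1 g; linarith) (by decide)
  · exact iff_of_false (fun g => by obtain ⟨g1, g2, g3⟩ := (bb8 x).1 g; linarith) (by decide)
  · exact iff_of_false (fun g => by obtain ⟨g1, g2, g3⟩ := (bb9 x).1 g; linarith) (by decide)
  · exact iff_of_false (fun g => by obtain ⟨g1, g2, g3⟩ := (bb10 x).1 g; linarith) (by decide)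
  · exact iff_of_true ((bb11 x).2 ⟨by linarith, by linarith, by linarith⟩) (by decide)
  · exact iff_of_false (fun g => by obtain ⟨g1, g2, g3⟩ := (bb12 x).1 g; linarith) (by decide)
  · exact iff_of_false (fun g => by obtain ⟨g1, g2, g3⟩ := (bb13 x).1 g; linarith) (by decide)
  · exact iff_of_false (fun g => by obtain ⟨g1, g2, g3⟩ := (bb14 x).1 g; linarith) (by decide)
  · exact iff_of_false (fun g => by obtain ⟨g1, g2, g3⟩ := (bb15 x).1 g; linarith) (by decide)
  · exact iff_of_false (fun g => by obtain ⟨g1, g2, g3⟩ := (bb16 x).1 g; linarith) (by decide)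
  · exact iff_of_false (fun g => by obtain ⟨g1, g2, g3⟩ := (bb17 x).1 g; linarith) (by decide)
  · exact iff_of_false (fun g => by obtain ⟨⟨g1, g2, g3⟩, g4⟩ := (bb18 x).1 g; linarith) (by decide)
  · exact iff_of_false (fun g => by obtain ⟨⟨g1, g2, g3⟩, g4⟩ := (bb19 x).1 g; linarith) (by decide)
  · exact iff_of_false (fun g => by obtain ⟨⟨g1, g2, g3⟩, g4⟩ := (bb20 x).1 g; linarith) (by decide)
  · exact iff_of_false (fun g => by obtain ⟨⟨g1, g2, g3⟩, g4⟩ := (bb21 x).1 g; linarith) (by decide)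
  · exact iff_of_false (fun g => by obtain ⟨⟨g1, g2, g3⟩, g4⟩ := (bb22 x).1 g; linarith) (by decide)
  · exact iff_of_false (fun g => by obtain ⟨⟨g1, g2, g3⟩, g4⟩ := (bb23 x).1 g; linarith) (by decide)
  · exact iff_of_false (fun g => by obtain ⟨⟨g1, g2, g3⟩, g4⟩ := (bb24 x).1 g; linarith) (by decide)
  · exact iff_of_false (fun g => by obtain ⟨⟨g1, g2, g3⟩, g4⟩ := (bb25 x).1 g; linarith) (by decide)
  · exact iff_of_false (fun g => by obtain ⟨⟨g1, g2, g3⟩, g4⟩ := (bb26 x).1 g; linarith) (by decide)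
  · exact iff_of_false (fun g => by obtain ⟨⟨g1, g2, g3⟩, g4⟩ := (bb27 x).1 g; linarith) (by decide)
  · exact iff_of_false (fun g => by obtain ⟨⟨g1, g2, g3⟩, g4⟩ := (bb28 x).1 g; linarith) (by decide)
  · exact iff_of_false (fun g => by obtain ⟨⟨g1, g2, g3⟩, g4⟩ := (bb29 x).1 g; linarith) (by decide)
  · exact iff_of_false (fun g => by obtain ⟨⟨g1, g2, g3⟩, g4⟩ := (bb30 x).1 g; linarith) (by decide)
  · exact iff_of_false (fun g => by obtain ⟨⟨g1, g2, g3⟩, g4⟩ := (bb31 x).1 g; linarith) (by decide)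
  · exact iff_of_false (fun g => by obtain ⟨⟨g1, g2, g3⟩, g4⟩ := (bb32 x).1 g; linarith) (by decide)
  · exact iff_of_false (fun g => by obtain ⟨⟨g1, g2, g3⟩, g4⟩ := (bb33 x).1 g; linarith) (by decide)
  · exact iff_of_false (fun g => by obtain ⟨⟨g1, g2, g3⟩, g4⟩ := (bb34 x).1 g; linarith) (by decide)
  · exact iff_of_false (fun g => by obtain ⟨⟨g1, g2, g3⟩, g4⟩ := (bb35 x).1 g; linarith) (by decide)
  · exact iff_of_false (fun g => by obtain ⟨⟨g1, g2, g3⟩, g4⟩ := (bb36 x).1 g; linarith) (by decide)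
  · exact iff_of_false (fun g => by obtain ⟨⟨g1, g2, g3⟩, g4⟩ := (bb37 x).1 g; linarith) (by decide)
  · exact iff_of_false (fun g => by obtain ⟨⟨g1, g2, g3⟩, g4⟩ := (bb38 x).1 g; linarith) (by decide)
  · exact iff_of_false (fun g => by obtain ⟨⟨g1, g2, g3⟩, g4⟩ := (bb39 x).1 g; linarith) (by decide)
  · exact iff_of_false (fun g => by obtain ⟨⟨g1, g2, g3⟩, g4⟩ := (bb40 x).1 g; linarith) (by decide)
  · exact iff_of_false (fun g => by obtain ⟨⟨g1, g2, g3⟩, g4⟩ := (bb41 x).1 g; linarith) (by decide)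
  · exact iff_of_false (fun g => by obtain ⟨⟨g1, g2, g3⟩, g4⟩ := (bb42 x).1 g; linarith) (by decide)
  · exact iff_of_false (fun g => by obtain ⟨⟨g1, g2, g3⟩, g4⟩ := (bb43 x).1 g; linarith) (by decide)
  · exact iff_of_false (fun g => by obtain ⟨⟨g1, g2, g3⟩, g4⟩ := (bb44 x).1 g; linarith) (by decide)
  · exact iff_of_false (fun g => by obtain ⟨g1, g2⟩ := (bb45 x).1 g; linarith) (by decide)
  · exact iff_of_false (fun g => by obtain ⟨g1, g2⟩ := (bb46 x).1 g; linarith) (by decide)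
  · exact iff_of_false (fun g => by obtain ⟨g1, g2⟩ := (bb47 x).1 g; linarith) (by decide)
  · exact iff_of_false (fun g => by obtain ⟨g1, g2⟩ := (bb48 x).1 g; linarith) (by decide)
  · exact iff_of_false (fun g => by obtain ⟨g1, g2⟩ := (bb49 x).1 g; linarith) (by decide)
  · exact iff_of_false (fun g => by obtain ⟨g1, g2⟩ := (bb50 x).1 g; linarith) (by decide)
  · exact iff_of_false (fun g => by obtain ⟨g1, g2⟩ := (bb51 x).1 g; linarith) (by decide)
  · exact iff_of_false (fun g => by obtain ⟨g1, g2⟩ := (bb52 x).1 g; linarith) (by decide)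

/-- the open cell 12 -/
theorem oo12 (x : ℂ) (h1 : 0 < 2 * x.re + 6 * x.im)
    (h2 : 0 < 2 * x.re - 6 * x.im)
    (h3 : 0 < 4 * x.re - 24) : ∀ κ < 53,
    (x ∈ bs κ ↔ (bm κ).testBit 12 = true) := by
  intro κ hκ
  interval_cases κ
  · exact iff_of_false (fun g => by obtain ⟨g1, g2, g3⟩ := (bb0 x).1 g; linarith) (by decide)
  · exact iff_of_false (fun g => by obtain ⟨g1, g2, g3⟩ := (bb1 x).1 g; linarith) (by decide)
  · exact iff_of_false (fun g => by obtain ⟨g1, g2, g3⟩ := (bb2 x).1 g; linarith) (by decide)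
  · exact iff_of_false (fun g => by obtain ⟨g1, g2, g3⟩ := (bb3 x).1 g; linarith) (by decide)
  · exact iff_of_false (fun g => by obtain ⟨g1, g2, g3⟩ := (bb4 x).1 g; linarith) (by decide)
  · exact iff_of_false (fun g => by obtain ⟨g1, g2, g3⟩ := (bb5 x).1 g; linarith) (by decide)
  · exact iff_of_false (fun g => by obtain ⟨g1, g2, g3⟩ := (bb6 x).1 g; linarith) (by decide)
  · exact iff_of_false (fun g => by obtain ⟨g1, g2, g3⟩ := (bb7 x).1 g; linarith) (by decide)
  · exact iff_of_false (fun g => by obtain ⟨g1, g2, g3⟩ := (bb8 x).1 g; linarith) (by decide)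
  · exact iff_of_false (fun g => by obtain ⟨g1, g2, g3⟩ := (bb9 x).1 g; linarith) (by decide)
  · exact iff_of_false (fun g => by obtain ⟨g1, g2, g3⟩ := (bb10 x).1 g; linarith) (by decide)
  · exact iff_of_false (fun g => by obtain ⟨g1, g2, g3⟩ := (bb11 x).1 g; linarith) (by decide)
  · exact iff_of_true ((bb12 x).2 ⟨by linarith, by linarith, by linarith⟩) (by decide)
  · exact iff_of_false (fun g => by obtain ⟨g1, g2, g3⟩ := (bb13 x).1 g; linarith) (by decide)
  · exact iff_of_false (fun g => by obtain ⟨g1, g2, g3⟩ := (bb14 x).1 g; linarith) (by decide)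
  · exact iff_of_false (fun g => by obtain ⟨g1, g2, g3⟩ := (bb15 x).1 g; linarith) (by decide)
  · exact iff_of_false (fun g => by obtain ⟨g1, g2, g3⟩ := (bb16 x).1 g; linarith) (by decide)
  · exact iff_of_false (fun g => by obtain ⟨g1, g2, g3⟩ := (bb17 x).1 g; linarith) (by decide)
  · exact iff_of_false (fun g => by obtain ⟨⟨g1, g2, g3⟩, g4⟩ := (bb18 x).1 g; linarith) (by decide)
  · exact iff_of_false (fun g => by obtain ⟨⟨g1, g2, g3⟩, g4⟩ := (bb19 x).1 g; linarith) (by decide)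
  · exact iff_of_false (fun g => by obtain ⟨⟨g1, g2, g3⟩, g4⟩ := (bb20 x).1 g; linarith) (by decide)
  · exact iff_of_false (fun g => by obtain ⟨⟨g1, g2, g3⟩, g4⟩ := (bb21 x).1 g; linarith) (by decide)
  · exact iff_of_false (fun g => by obtain ⟨⟨g1, g2, g3⟩, g4⟩ := (bb22 x).1 g; linarith) (by decide)
  · exact iff_of_false (fun g => by obtain ⟨⟨g1, g2, g3⟩, g4⟩ := (bb23 x).1 g; linarith) (by decide)
  · exact iff_of_false (fun g => by obtain ⟨⟨g1, g2, g3⟩, g4⟩ := (bb24 x).1 g; linarith) (by decide)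
  · exact iff_of_false (fun g => by obtain ⟨⟨g1, g2, g3⟩, g4⟩ := (bb25 x).1 g; linarith) (by decide)
  · exact iff_of_false (fun g => by obtain ⟨⟨g1, g2, g3⟩, g4⟩ := (bb26 x).1 g; linarith) (by decide)
  · exact iff_of_false (fun g => by obtain ⟨⟨g1, g2, g3⟩, g4⟩ := (bb27 x).1 g; linarith) (by decide)
  · exact iff_of_false (fun g => by obtain ⟨⟨g1, g2, g3⟩, g4⟩ := (bb28 x).1 g; linarith) (by decide)
  · exact iff_of_false (fun g => by obtain ⟨⟨g1, g2, g3⟩, g4⟩ := (bb29 x).1 g; linarith) (by decide)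
  · exact iff_of_false (fun g => by obtain ⟨⟨g1, g2, g3⟩, g4⟩ := (bb30 x).1 g; linarith) (by decide)
  · exact iff_of_false (fun g => by obtain ⟨⟨g1, g2, g3⟩, g4⟩ := (bb31 x).1 g; linarith) (by decide)
  · exact iff_of_false (fun g => by obtain ⟨⟨g1, g2, g3⟩, g4⟩ := (bb32 x).1 g; linarith) (by decide)
  · exact iff_of_false (fun g => by obtain ⟨⟨g1, g2, g3⟩, g4⟩ := (bb33 x).1 g; linarith) (by decide)
  · exact iff_of_false (fun g => by obtain ⟨⟨g1, g2, g3⟩, g4⟩ := (bb34 x).1 g; linarith) (by decide)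
  · exact iff_of_false (fun g => by obtain ⟨⟨g1, g2, g3⟩, g4⟩ := (bb35 x).1 g; linarith) (by decide)
  · exact iff_of_false (fun g => by obtain ⟨⟨g1, g2, g3⟩, g4⟩ := (bb36 x).1 g; linarith) (by decide)
  · exact iff_of_false (fun g => by obtain ⟨⟨g1, g2, g3⟩, g4⟩ := (bb37 x).1 g; linarith) (by decide)
  · exact iff_of_false (fun g => by obtain ⟨⟨g1, g2, g3⟩, g4⟩ := (bb38 x).1 g; linarith) (by decide)
  · exact iff_of_false (fun g => by obtain ⟨⟨g1, g2, g3⟩, g4⟩ := (bb39 x).1 g; linarith) (by decide)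
  · exact iff_of_false (fun g => by obtain ⟨⟨g1, g2, g3⟩, g4⟩ := (bb40 x).1 g; linarith) (by decide)
  · exact iff_of_false (fun g => by obtain ⟨⟨g1, g2, g3⟩, g4⟩ := (bb41 x).1 g; linarith) (by decide)
  · exact iff_of_false (fun g => by obtain ⟨⟨g1, g2, g3⟩, g4⟩ := (bb42 x).1 g; linarith) (by decide)
  · exact iff_of_false (fun g => by obtain ⟨⟨g1, g2, g3⟩, g4⟩ := (bb43 x).1 g; linarith) (by decide)
  · exact iff_of_false (fun g => by obtain ⟨⟨g1, g2, g3⟩, g4⟩ := (bb44 x).1 g; linarith) (by decide)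
  · exact iff_of_false (fun g => by obtain ⟨g1, g2⟩ := (bb45 x).1 g; linarith) (by decide)
  · exact iff_of_false (fun g => by obtain ⟨g1, g2⟩ := (bb46 x).1 g; linarith) (by decide)
  · exact iff_of_false (fun g => by obtain ⟨g1, g2⟩ := (bb47 x).1 g; linarith) (by decide)
  · exact iff_of_false (fun g => by obtain ⟨g1, g2⟩ := (bb48 x).1 g; linarith) (by decide)
  · exact iff_of_false (fun g => by obtain ⟨g1, g2⟩ := (bb49 x).1 g; linarith) (by decide)
  · exact iff_of_false (fun g => by obtain ⟨g1, g2⟩ := (bb50 x).1 g; linarith) (by decide)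
  · exact iff_of_false (fun g => by obtain ⟨g1, g2⟩ := (bb51 x).1 g; linarith) (by decide)
  · exact iff_of_false (fun g => by obtain ⟨g1, g2⟩ := (bb52 x).1 g; linarith) (by decide)

/-- the open cell 13 -/
theorem oo13 (x : ℂ) (h1 : 0 < -(2 * x.re) + 6 * x.im)
    (h2 : 0 < 2 * x.re - 2 * x.im)
    (h3 : 0 < 4 * x.im - 8) : ∀ κ < 53,
    (x ∈ bs κ ↔ (bm κ).testBit 13 = true) := by
  intro κ hκ
  interval_cases κ
  · exact iff_of_false (fun g => by obtain ⟨g1, g2, g3⟩ := (bb0 x).1 g; linarith) (by decide)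
  · exact iff_of_false (fun g => by obtain ⟨g1, g2, g3⟩ := (bb1 x).1 g; linarith) (by decide)
  · exact iff_of_false (fun g => by obtain ⟨g1, g2, g3⟩ := (bb2 x).1 g; linarith) (by decide)
  · exact iff_of_false (fun g => by obtain ⟨g1, g2, g3⟩ := (bb3 x).1 g; linarith) (by decide)
  · exact iff_of_false (fun g => by obtain ⟨g1, g2, g3⟩ := (bb4 x).1 g; linarith) (by decide)
  · exact iff_of_false (fun g => by obtain ⟨g1, g2, g3⟩ := (bb5 x).1 g; linarith) (by decide)
  · exact iff_of_false (fun g => by obtain ⟨g1, g2, g3⟩ := (bb6 x).1 g; linarith) (by decide)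
  · exact iff_of_false (fun g => by obtain ⟨g1, g2, g3⟩ := (bb7 x).1 g; linarith) (by decide)
  · exact iff_of_false (fun g => by obtain ⟨g1, g2, g3⟩ := (bb8 x).1 g; linarith) (by decide)
  · exact iff_of_false (fun g => by obtain ⟨g1, g2, g3⟩ := (bb9 x).1 g; linarith) (by decide)
  · exact iff_of_false (fun g => by obtain ⟨g1, g2, g3⟩ := (bb10 x).1 g; linarith) (by decide)
  · exact iff_of_false (fun g => by obtain ⟨g1, g2, g3⟩ := (bb11 x).1 g; linarith) (by decide)
  · exact iff_of_false (fun g => by obtain ⟨g1, g2, g3⟩ := (bb12 x).1 g; linarith) (by decide)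
  · exact iff_of_true ((bb13 x).2 ⟨by linarith, by linarith, by linarith⟩) (by decide)
  · exact iff_of_false (fun g => by obtain ⟨g1, g2, g3⟩ := (bb14 x).1 g; linarith) (by decide)
  · exact iff_of_false (fun g => by obtain ⟨g1, g2, g3⟩ := (bb15 x).1 g; linarith) (by decide)
  · exact iff_of_false (fun g => by obtain ⟨g1, g2, g3⟩ := (bb16 x).1 g; linarith) (by decide)
  · exact iff_of_false (fun g => by obtain ⟨g1, g2, g3⟩ := (bb17 x).1 g; linarith) (by decide)
  · exact iff_of_false (fun g => by obtain ⟨⟨g1, g2, g3⟩, g4⟩ := (bb18 x).1 g; linarith) (by decide)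
  · exact iff_of_false (fun g => by obtain ⟨⟨g1, g2, g3⟩, g4⟩ := (bb19 x).1 g; linarith) (by decide)
  · exact iff_of_false (fun g => by obtain ⟨⟨g1, g2, g3⟩, g4⟩ := (bb20 x).1 g; linarith) (by decide)
  · exact iff_of_false (fun g => by obtain ⟨⟨g1, g2, g3⟩, g4⟩ := (bb21 x).1 g; linarith) (by decide)
  · exact iff_of_false (fun g => by obtain ⟨⟨g1, g2, g3⟩, g4⟩ := (bb22 x).1 g; linarith) (by decide)
  · exact iff_of_false (fun g => by obtain ⟨⟨g1, g2, g3⟩, g4⟩ := (bb23 x).1 g; linarith) (by decide)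
  · exact iff_of_false (fun g => by obtain ⟨⟨g1, g2, g3⟩, g4⟩ := (bb24 x).1 g; linarith) (by decide)
  · exact iff_of_false (fun g => by obtain ⟨⟨g1, g2, g3⟩, g4⟩ := (bb25 x).1 g; linarith) (by decide)
  · exact iff_of_false (fun g => by obtain ⟨⟨g1, g2, g3⟩, g4⟩ := (bb26 x).1 g; linarith) (by decide)
  · exact iff_of_false (fun g => by obtain ⟨⟨g1, g2, g3⟩, g4⟩ := (bb27 x).1 g; linarith) (by decide)
  · exact iff_of_false (fun g => by obtain ⟨⟨g1, g2, g3⟩, g4⟩ := (bb28 x).1 g; linarith) (by decide)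
  · exact iff_of_false (fun g => by obtain ⟨⟨g1, g2, g3⟩, g4⟩ := (bb29 x).1 g; linarith) (by decide)
  · exact iff_of_false (fun g => by obtain ⟨⟨g1, g2, g3⟩, g4⟩ := (bb30 x).1 g; linarith) (by decide)
  · exact iff_of_false (fun g => by obtain ⟨⟨g1, g2, g3⟩, g4⟩ := (bb31 x).1 g; linarith) (by decide)
  · exact iff_of_false (fun g => by obtain ⟨⟨g1, g2, g3⟩, g4⟩ := (bb32 x).1 g; linarith) (by decide)
  · exact iff_of_false (fun g => by obtain ⟨⟨g1, g2, g3⟩, g4⟩ := (bb33 x).1 g; linarith) (by decide)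
  · exact iff_of_false (fun g => by obtain ⟨⟨g1, g2, g3⟩, g4⟩ := (bb34 x).1 g; linarith) (by decide)
  · exact iff_of_false (fun g => by obtain ⟨⟨g1, g2, g3⟩, g4⟩ := (bb35 x).1 g; linarith) (by decide)
  · exact iff_of_false (fun g => by obtain ⟨⟨g1, g2, g3⟩, g4⟩ := (bb36 x).1 g; linarith) (by decide)
  · exact iff_of_false (fun g => by obtain ⟨⟨g1, g2, g3⟩, g4⟩ := (bb37 x).1 g; linarith) (by decide)
  · exact iff_of_false (fun g => by obtain ⟨⟨g1, g2, g3⟩, g4⟩ := (bb38 x).1 g; linarith) (by decide)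
  · exact iff_of_false (fun g => by obtain ⟨⟨g1, g2, g3⟩, g4⟩ := (bb39 x).1 g; linarith) (by decide)
  · exact iff_of_false (fun g => by obtain ⟨⟨g1, g2, g3⟩, g4⟩ := (bb40 x).1 g; linarith) (by decide)
  · exact iff_of_false (fun g => by obtain ⟨⟨g1, g2, g3⟩, g4⟩ := (bb41 x).1 g; linarith) (by decide)
  · exact iff_of_false (fun g => by obtain ⟨⟨g1, g2, g3⟩, g4⟩ := (bb42 x).1 g; linarith) (by decide)
  · exact iff_of_false (fun g => by obtain ⟨⟨g1, g2, g3⟩, g4⟩ := (bb43 x).1 g; linarith) (by decide)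
  · exact iff_of_false (fun g => by obtain ⟨⟨g1, g2, g3⟩, g4⟩ := (bb44 x).1 g; linarith) (by decide)
  · exact iff_of_false (fun g => by obtain ⟨g1, g2⟩ := (bb45 x).1 g; linarith) (by decide)
  · exact iff_of_false (fun g => by obtain ⟨g1, g2⟩ := (bb46 x).1 g; linarith) (by decide)
  · exact iff_of_false (fun g => by obtain ⟨g1, g2⟩ := (bb47 x).1 g; linarith) (by decide)
  · exact iff_of_false (fun g => by obtain ⟨g1, g2⟩ := (bb48 x).1 g; linarith) (by decide)
  · exact iff_of_false (fun g => by obtain ⟨g1, g2⟩ := (bb49 x).1 g; linarith) (by decide)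
  · exact iff_of_false (fun g => by obtain ⟨g1, g2⟩ := (bb50 x).1 g; linarith) (by decide)
  · exact iff_of_false (fun g => by obtain ⟨g1, g2⟩ := (bb51 x).1 g; linarith) (by decide)
  · exact iff_of_false (fun g => by obtain ⟨g1, g2⟩ := (bb52 x).1 g; linarith) (by decide)

/-- the open cell 14 -/
theorem oo14 (x : ℂ) (h1 : 0 < -(2 * x.re) + 2 * x.im)
    (h2 : 0 < 2 * x.re + 2 * x.im)
    (h3 : 0 < 4 * x.im - 8) : ∀ κ < 53,
    (x ∈ bs κ ↔ (bm κ).testBit 14 = true) := by
  intro κ hκ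
  interval_cases κ
  · exact iff_of_false (fun g => by obtain ⟨g1, g2, g3⟩ := (bb0 x).1 g; linarith) (by decide)
  · exact iff_of_false (fun g => by obtain ⟨g1, g2, g3⟩ := (bb1 x).1 g; linarith) (by decide)
  · exact iff_of_false (fun g => by obtain ⟨g1, g2, g3⟩ := (bb2 x).1 g; linarith) (by decide)
  · exact iff_of_false (fun g => by obtain ⟨g1, g2, g3⟩ := (bb3 x).1 g; linarith) (by decide)
  · exact iff_of_false (fun g => by obtain ⟨g1, g2, g3⟩ := (bb4 x).1 g; linarith) (by decide)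
  · exact iff_of_false (fun g => by obtain ⟨g1, g2, g3⟩ := (bb5 x).1 g; linarith) (by decide)
  · exact iff_of_false (fun g => by obtain ⟨g1, g2, g3⟩ := (bb6 x).1 g; linarith) (by decide)
  · exact iff_of_false (fun g => by obtain ⟨g1, g2, g3⟩ := (bb7 x).1 g; linarith) (by decide)
  · exact iff_of_false (fun g => by obtain ⟨g1, g2, g3⟩ := (bb8 x).1 g; linarith) (by decide)
  · exact iff_of_false (fun g => by obtain ⟨g1, g2, g3⟩ := (bb9 x).1 g; linarith) (by decide)
  · exact iff_of_false (fun g => by obtain ⟨g1, g2, g3⟩ := (bb10 x).1 g; linarith) (by decide)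
  · exact iff_of_false (fun g => by obtain ⟨g1, g2, g3⟩ := (bb11 x).1 g; linarith) (by decide)
  · exact iff_of_false (fun g => by obtain ⟨g1, g2, g3⟩ := (bb12 x).1 g; linarith) (by decide)
  · exact iff_of_false (fun g => by obtain ⟨g1, g2, g3⟩ := (bb13 x).1 g; linarith) (by decide)
  · exact iff_of_true ((bb14 x).2 ⟨by linarith, by linarith, by linarith⟩) (by decide)
  · exact iff_of_false (fun g => by obtain ⟨g1, g2, g3⟩ := (bb15 x).1 g; linarith) (by decide)
  · exact iff_of_false (fun g => by obtain ⟨g1, g2, g3⟩ := (bb16 x).1 g; linarith) (by decide)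
  · exact iff_of_false (fun g => by obtain ⟨g1, g2, g3⟩ := (bb17 x).1 g; linarith) (by decide)
  · exact iff_of_false (fun g => by obtain ⟨⟨g1, g2, g3⟩, g4⟩ := (bb18 x).1 g; linarith) (by decide)
  · exact iff_of_false (fun g => by obtain ⟨⟨g1, g2, g3⟩, g4⟩ := (bb19 x).1 g; linarith) (by decide)
  · exact iff_of_false (fun g => by obtain ⟨⟨g1, g2, g3⟩, g4⟩ := (bb20 x).1 g; linarith) (by decide)
  · exact iff_of_false (fun g => by obtain ⟨⟨g1, g2, g3⟩, g4⟩ := (bb21 x).1 g; linarith) (by decide)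
  · exact iff_of_false (fun g => by obtain ⟨⟨g1, g2, g3⟩, g4⟩ := (bb22 x).1 g; linarith) (by decide)
  · exact iff_of_false (fun g => by obtain ⟨⟨g1, g2, g3⟩, g4⟩ := (bb23 x).1 g; linarith) (by decide)
  · exact iff_of_false (fun g => by obtain ⟨⟨g1, g2, g3⟩, g4⟩ := (bb24 x).1 g; linarith) (by decide)
  · exact iff_of_false (fun g => by obtain ⟨⟨g1, g2, g3⟩, g4⟩ := (bb25 x).1 g; linarith) (by decide)
  · exact iff_of_false (fun g => by obtain ⟨⟨g1, g2, g3⟩, g4⟩ := (bb26 x).1 g; linarith) (by decide)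
  · exact iff_of_false (fun g => by obtain ⟨⟨g1, g2, g3⟩, g4⟩ := (bb27 x).1 g; linarith) (by decide)
  · exact iff_of_false (fun g => by obtain ⟨⟨g1, g2, g3⟩, g4⟩ := (bb28 x).1 g; linarith) (by decide)
  · exact iff_of_false (fun g => by obtain ⟨⟨g1, g2, g3⟩, g4⟩ := (bb29 x).1 g; linarith) (by decide)
  · exact iff_of_false (fun g => by obtain ⟨⟨g1, g2, g3⟩, g4⟩ := (bb30 x).1 g; linarith) (by decide)
  · exact iff_of_false (fun g => by obtain ⟨⟨g1, g2, g3⟩, g4⟩ := (bb31 x).1 g; linarith) (by decide)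
  · exact iff_of_false (fun g => by obtain ⟨⟨g1, g2, g3⟩, g4⟩ := (bb32 x).1 g; linarith) (by decide)
  · exact iff_of_false (fun g => by obtain ⟨⟨g1, g2, g3⟩, g4⟩ := (bb33 x).1 g; linarith) (by decide)
  · exact iff_of_false (fun g => by obtain ⟨⟨g1, g2, g3⟩, g4⟩ := (bb34 x).1 g; linarith) (by decide)
  · exact iff_of_false (fun g => by obtain ⟨⟨g1, g2, g3⟩, g4⟩ := (bb35 x).1 g; linarith) (by decide)
  · exact iff_of_false (fun g => by obtain ⟨⟨g1, g2, g3⟩, g4⟩ := (bb36 x).1 g; linarith) (by decide)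
  · exact iff_of_false (fun g => by obtain ⟨⟨g1, g2, g3⟩, g4⟩ := (bb37 x).1 g; linarith) (by decide)
  · exact iff_of_false (fun g => by obtain ⟨⟨g1, g2, g3⟩, g4⟩ := (bb38 x).1 g; linarith) (by decide)
  · exact iff_of_false (fun g => by obtain ⟨⟨g1, g2, g3⟩, g4⟩ := (bb39 x).1 g; linarith) (by decide)
  · exact iff_of_false (fun g => by obtain ⟨⟨g1, g2, g3⟩, g4⟩ := (bb40 x).1 g; linarith) (by decide)
  · exact iff_of_false (fun g => by obtain ⟨⟨g1, g2, g3⟩, g4⟩ := (bb41 x).1 g; linarith) (by decide)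
  · exact iff_of_false (fun g => by obtain ⟨⟨g1, g2, g3⟩, g4⟩ := (bb42 x).1 g; linarith) (by decide)
  · exact iff_of_false (fun g => by obtain ⟨⟨g1, g2, g3⟩, g4⟩ := (bb43 x).1 g; linarith) (by decide)
  · exact iff_of_false (fun g => by obtain ⟨⟨g1, g2, g3⟩, g4⟩ := (bb44 x).1 g; linarith) (by decide)
  · exact iff_of_false (fun g => by obtain ⟨g1, g2⟩ := (bb45 x).1 g; linarith) (by decide)
  · exact iff_of_false (fun g => by obtain ⟨g1, g2⟩ := (bb46 x).1 g; linarith) (by decide)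
  · exact iff_of_false (fun g => by obtain ⟨g1, g2⟩ := (bb47 x).1 g; linarith) (by decide)
  · exact iff_of_false (fun g => by obtain ⟨g1, g2⟩ := (bb48 x).1 g; linarith) (by decide)
  · exact iff_of_false (fun g => by obtain ⟨g1, g2⟩ := (bb49 x).1 g; linarith) (by decide)
  · exact iff_of_false (fun g => by obtain ⟨g1, g2⟩ := (bb50 x).1 g; linarith) (by decide)
  · exact iff_of_false (fun g => by obtain ⟨g1, g2⟩ := (bb51 x).1 g; linarith) (by decide)
  · exact iff_of_false (fun g => by obtain ⟨g1, g2⟩ := (bb52 x).1 g; linarith) (by decide)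

/-- the open cell 15 -/
theorem oo15 (x : ℂ) (h1 : 0 < -(2 * x.re) - 2 * x.im)
    (h2 : 0 < -(2 * x.re) + 2 * x.im)
    (h3 : 0 < -(4 * x.re) - 8) : ∀ κ < 53,
    (x ∈ bs κ ↔ (bm κ).testBit 15 = true) := by
  intro κ hκ
  interval_cases κ
  · exact iff_of_false (fun g => by obtain ⟨g1, g2, g3⟩ := (bb0 x).1 g; linarith) (by decide)
  · exact iff_of_false (fun g => by obtain ⟨g1, g2, g3⟩ := (bb1 x).1 g; linarith) (by decide)
  · exact iff_of_false (fun g => by obtain ⟨g1, g2, g3⟩ := (bb2 x).1 g; linarith) (by decide)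
  · exact iff_of_false (fun g => by obtain ⟨g1, g2, g3⟩ := (bb3 x).1 g; linarith) (by decide)
  · exact iff_of_false (fun g => by obtain ⟨g1, g2, g3⟩ := (bb4 x).1 g; linarith) (by decide)
  · exact iff_of_false (fun g => by obtain ⟨g1, g2, g3⟩ := (bb5 x).1 g; linarith) (by decide)
  · exact iff_of_false (fun g => by obtain ⟨g1, g2, g3⟩ := (bb6 x).1 g; linarith) (by decide)
  · exact iff_of_false (fun g => by obtain ⟨g1, g2, g3⟩ := (bb7 x).1 g; linarith) (by decide)
  · exact iff_of_false (fun g => by obtain ⟨g1, g2, g3⟩ := (bb8 x).1 g; linarith) (by decide)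
  · exact iff_of_false (fun g => by obtain ⟨g1, g2, g3⟩ := (bb9 x).1 g; linarith) (by decide)
  · exact iff_of_false (fun g => by obtain ⟨g1, g2, g3⟩ := (bb10 x).1 g; linarith) (by decide)
  · exact iff_of_false (fun g => by obtain ⟨g1, g2, g3⟩ := (bb11 x).1 g; linarith) (by decide)
  · exact iff_of_false (fun g => by obtain ⟨g1, g2, g3⟩ := (bb12 x).1 g; linarith) (by decide)
  · exact iff_of_false (fun g => by obtain ⟨g1, g2, g3⟩ := (bb13 x).1 g; linarith) (by decide)
  · exact iff_of_false (fun g => by obtain ⟨g1, g2, g3⟩ := (bb14 x).1 g; linarith) (by decide)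
  · exact iff_of_true ((bb15 x).2 ⟨by linarith, by linarith, by linarith⟩) (by decide)
  · exact iff_of_false (fun g => by obtain ⟨g1, g2, g3⟩ := (bb16 x).1 g; linarith) (by decide)
  · exact iff_of_false (fun g => by obtain ⟨g1, g2, g3⟩ := (bb17 x).1 g; linarith) (by decide)
  · exact iff_of_false (fun g => by obtain ⟨⟨g1, g2, g3⟩, g4⟩ := (bb18 x).1 g; linarith) (by decide)
  · exact iff_of_false (fun g => by obtain ⟨⟨g1, g2, g3⟩, g4⟩ := (bb19 x).1 g; linarith) (by decide)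
  · exact iff_of_false (fun g => by obtain ⟨⟨g1, g2, g3⟩, g4⟩ := (bb20 x).1 g; linarith) (by decide)
  · exact iff_of_false (fun g => by obtain ⟨⟨g1, g2, g3⟩, g4⟩ := (bb21 x).1 g; linarith) (by decide)
  · exact iff_of_false (fun g => by obtain ⟨⟨g1, g2, g3⟩, g4⟩ := (bb22 x).1 g; linarith) (by decide)
  · exact iff_of_false (fun g => by obtain ⟨⟨g1, g2, g3⟩, g4⟩ := (bb23 x).1 g; linarith) (by decide)
  · exact iff_of_false (fun g => by obtain ⟨⟨g1, g2, g3⟩, g4⟩ := (bb24 x).1 g; linarith) (by decide)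
  · exact iff_of_false (fun g => by obtain ⟨⟨g1, g2, g3⟩, g4⟩ := (bb25 x).1 g; linarith) (by decide)
  · exact iff_of_false (fun g => by obtain ⟨⟨g1, g2, g3⟩, g4⟩ := (bb26 x).1 g; linarith) (by decide)
  · exact iff_of_false (fun g => by obtain ⟨⟨g1, g2, g3⟩, g4⟩ := (bb27 x).1 g; linarith) (by decide)
  · exact iff_of_false (fun g => by obtain ⟨⟨g1, g2, g3⟩, g4⟩ := (bb28 x).1 g; linarith) (by decide)
  · exact iff_of_false (fun g => by obtain ⟨⟨g1, g2, g3⟩, g4⟩ := (bb29 x).1 g; linarith) (by decide)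
  · exact iff_of_false (fun g => by obtain ⟨⟨g1, g2, g3⟩, g4⟩ := (bb30 x).1 g; linarith) (by decide)
  · exact iff_of_false (fun g => by obtain ⟨⟨g1, g2, g3⟩, g4⟩ := (bb31 x).1 g; linarith) (by decide)
  · exact iff_of_false (fun g => by obtain ⟨⟨g1, g2, g3⟩, g4⟩ := (bb32 x).1 g; linarith) (by decide)
  · exact iff_of_false (fun g => by obtain ⟨⟨g1, g2, g3⟩, g4⟩ := (bb33 x).1 g; linarith) (by decide)
  · exact iff_of_false (fun g => by obtain ⟨⟨g1, g2, g3⟩, g4⟩ := (bb34 x).1 g; linarith) (by decide)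
  · exact iff_of_false (fun g => by obtain ⟨⟨g1, g2, g3⟩, g4⟩ := (bb35 x).1 g; linarith) (by decide)
  · exact iff_of_false (fun g => by obtain ⟨⟨g1, g2, g3⟩, g4⟩ := (bb36 x).1 g; linarith) (by decide)
  · exact iff_of_false (fun g => by obtain ⟨⟨g1, g2, g3⟩, g4⟩ := (bb37 x).1 g; linarith) (by decide)
  · exact iff_of_false (fun g => by obtain ⟨⟨g1, g2, g3⟩, g4⟩ := (bb38 x).1 g; linarith) (by decide)
  · exact iff_of_false (fun g => by obtain ⟨⟨g1, g2, g3⟩, g4⟩ := (bb39 x).1 g; linarith) (by decide)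
  · exact iff_of_false (fun g => by obtain ⟨⟨g1, g2, g3⟩, g4⟩ := (bb40 x).1 g; linarith) (by decide)
  · exact iff_of_false (fun g => by obtain ⟨⟨g1, g2, g3⟩, g4⟩ := (bb41 x).1 g; linarith) (by decide)
  · exact iff_of_false (fun g => by obtain ⟨⟨g1, g2, g3⟩, g4⟩ := (bb42 x).1 g; linarith) (by decide)
  · exact iff_of_false (fun g => by obtain ⟨⟨g1, g2, g3⟩, g4⟩ := (bb43 x).1 g; linarith) (by decide)
  · exact iff_of_false (fun g => by obtain ⟨⟨g1, g2, g3⟩, g4⟩ := (bb44 x).1 g; linarith) (by decide)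
  · exact iff_of_false (fun g => by obtain ⟨g1, g2⟩ := (bb45 x).1 g; linarith) (by decide)
  · exact iff_of_false (fun g => by obtain ⟨g1, g2⟩ := (bb46 x).1 g; linarith) (by decide)
  · exact iff_of_false (fun g => by obtain ⟨g1, g2⟩ := (bb47 x).1 g; linarith) (by decide)
  · exact iff_of_false (fun g => by obtain ⟨g1, g2⟩ := (bb48 x).1 g; linarith) (by decide)
  · exact iff_of_false (fun g => by obtain ⟨g1, g2⟩ := (bb49 x).1 g; linarith) (by decide)
  · exact iff_of_false (fun g => by obtain ⟨g1, g2⟩ := (bb50 x).1 g; linarith) (by decide)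
  · exact iff_of_false (fun g => by obtain ⟨g1, g2⟩ := (bb51 x).1 g; linarith) (by decide)
  · exact iff_of_false (fun g => by obtain ⟨g1, g2⟩ := (bb52 x).1 g; linarith) (by decide)

/-- the open cell 16 -/
theorem oo16 (x : ℂ) (h1 : 0 < 2 * x.re - 2 * x.im)
    (h2 : 0 < -(2 * x.re) - 2 * x.im)
    (h3 : 0 < -(4 * x.im) - 8) : ∀ κ < 53,
    (x ∈ bs κ ↔ (bm κ).testBit 16 = true) := by
  intro κ hκ
  interval_cases κ
  · exact iff_of_false (fun g => by obtain ⟨g1, g2, g3⟩ := (bb0 x).1 g; linarith) (by decide)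
  · exact iff_of_false (fun g => by obtain ⟨g1, g2, g3⟩ := (bb1 x).1 g; linarith) (by decide)
  · exact iff_of_false (fun g => by obtain ⟨g1, g2, g3⟩ := (bb2 x).1 g; linarith) (by decide)
  · exact iff_of_false (fun g => by obtain ⟨g1, g2, g3⟩ := (bb3 x).1 g; linarith) (by decide)
  · exact iff_of_false (fun g => by obtain ⟨g1, g2, g3⟩ := (bb4 x).1 g; linarith) (by decide)
  · exact iff_of_false (fun g => by obtain ⟨g1, g2, g3⟩ := (bb5 x).1 g; linarith) (by decide)
  · exact iff_of_false (fun g => by obtain ⟨g1, g2, g3⟩ := (bb6 x).1 g; linarith) (by decide)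
  · exact iff_of_false (fun g => by obtain ⟨g1, g2, g3⟩ := (bb7 x).1 g; linarith) (by decide)
  · exact iff_of_false (fun g => by obtain ⟨g1, g2, g3⟩ := (bb8 x).1 g; linarith) (by decide)
  · exact iff_of_false (fun g => by obtain ⟨g1, g2, g3⟩ := (bb9 x).1 g; linarith) (by decide)
  · exact iff_of_false (fun g => by obtain ⟨g1, g2, g3⟩ := (bb10 x).1 g; linarith) (by decide)
  · exact iff_of_false (fun g => by obtain ⟨g1, g2, g3⟩ := (bb11 x).1 g; linarith) (by decide)
  · exact iff_of_false (fun g => by obtain ⟨g1, g2, g3⟩ := (bb12 x).1 g; linarith) (by decide)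
  · exact iff_of_false (fun g => by obtain ⟨g1, g2, g3⟩ := (bb13 x).1 g; linarith) (by decide)
  · exact iff_of_false (fun g => by obtain ⟨g1, g2, g3⟩ := (bb14 x).1 g; linarith) (by decide)
  · exact iff_of_false (fun g => by obtain ⟨g1, g2, g3⟩ := (bb15 x).1 g; linarith) (by decide)
  · exact iff_of_true ((bb16 x).2 ⟨by linarith, by linarith, by linarith⟩) (by decide)
  · exact iff_of_false (fun g => by obtain ⟨g1, g2, g3⟩ := (bb17 x).1 g; linarith) (by decide)
  · exact iff_of_false (fun g => by obtain ⟨⟨g1, g2, g3⟩, g4⟩ := (bb18 x).1 g; linarith) (by decide)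
  · exact iff_of_false (fun g => by obtain ⟨⟨g1, g2, g3⟩, g4⟩ := (bb19 x).1 g; linarith) (by decide)
  · exact iff_of_false (fun g => by obtain ⟨⟨g1, g2, g3⟩, g4⟩ := (bb20 x).1 g; linarith) (by decide)
  · exact iff_of_false (fun g => by obtain ⟨⟨g1, g2, g3⟩, g4⟩ := (bb21 x).1 g; linarith) (by decide)
  · exact iff_of_false (fun g => by obtain ⟨⟨g1, g2, g3⟩, g4⟩ := (bb22 x).1 g; linarith) (by decide)
  · exact iff_of_false (fun g => by obtain ⟨⟨g1, g2, g3⟩, g4⟩ := (bb23 x).1 g; linarith) (by decide)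
  · exact iff_of_false (fun g => by obtain ⟨⟨g1, g2, g3⟩, g4⟩ := (bb24 x).1 g; linarith) (by decide)
  · exact iff_of_false (fun g => by obtain ⟨⟨g1, g2, g3⟩, g4⟩ := (bb25 x).1 g; linarith) (by decide)
  · exact iff_of_false (fun g => by obtain ⟨⟨g1, g2, g3⟩, g4⟩ := (bb26 x).1 g; linarith) (by decide)
  · exact iff_of_false (fun g => by obtain ⟨⟨g1, g2, g3⟩, g4⟩ := (bb27 x).1 g; linarith) (by decide)
  · exact iff_of_false (fun g => by obtain ⟨⟨g1, g2, g3⟩, g4⟩ := (bb28 x).1 g; linarith) (by decide)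
  · exact iff_of_false (fun g => by obtain ⟨⟨g1, g2, g3⟩, g4⟩ := (bb29 x).1 g; linarith) (by decide)
  · exact iff_of_false (fun g => by obtain ⟨⟨g1, g2, g3⟩, g4⟩ := (bb30 x).1 g; linarith) (by decide)
  · exact iff_of_false (fun g => by obtain ⟨⟨g1, g2, g3⟩, g4⟩ := (bb31 x).1 g; linarith) (by decide)
  · exact iff_of_false (fun g => by obtain ⟨⟨g1, g2, g3⟩, g4⟩ := (bb32 x).1 g; linarith) (by decide)
  · exact iff_of_false (fun g => by obtain ⟨⟨g1, g2, g3⟩, g4⟩ := (bb33 x).1 g; linarith) (by decide)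
  · exact iff_of_false (fun g => by obtain ⟨⟨g1, g2, g3⟩, g4⟩ := (bb34 x).1 g; linarith) (by decide)
  · exact iff_of_false (fun g => by obtain ⟨⟨g1, g2, g3⟩, g4⟩ := (bb35 x).1 g; linarith) (by decide)
  · exact iff_of_false (fun g => by obtain ⟨⟨g1, g2, g3⟩, g4⟩ := (bb36 x).1 g; linarith) (by decide)
  · exact iff_of_false (fun g => by obtain ⟨⟨g1, g2, g3⟩, g4⟩ := (bb37 x).1 g; linarith) (by decide)
  · exact iff_of_false (fun g => by obtain ⟨⟨g1, g2, g3⟩, g4⟩ := (bb38 x).1 g; linarith) (by decide)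
  · exact iff_of_false (fun g => by obtain ⟨⟨g1, g2, g3⟩, g4⟩ := (bb39 x).1 g; linarith) (by decide)
  · exact iff_of_false (fun g => by obtain ⟨⟨g1, g2, g3⟩, g4⟩ := (bb40 x).1 g; linarith) (by decide)
  · exact iff_of_false (fun g => by obtain ⟨⟨g1, g2, g3⟩, g4⟩ := (bb41 x).1 g; linarith) (by decide)
  · exact iff_of_false (fun g => by obtain ⟨⟨g1, g2, g3⟩, g4⟩ := (bb42 x).1 g; linarith) (by decide)
  · exact iff_of_false (fun g => by obtain ⟨⟨g1, g2, g3⟩, g4⟩ := (bb43 x).1 g; linarith) (by decide)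
  · exact iff_of_false (fun g => by obtain ⟨⟨g1, g2, g3⟩, g4⟩ := (bb44 x).1 g; linarith) (by decide)
  · exact iff_of_false (fun g => by obtain ⟨g1, g2⟩ := (bb45 x).1 g; linarith) (by decide)
  · exact iff_of_false (fun g => by obtain ⟨g1, g2⟩ := (bb46 x).1 g; linarith) (by decide)
  · exact iff_of_false (fun g => by obtain ⟨g1, g2⟩ := (bb47 x).1 g; linarith) (by decide)
  · exact iff_of_false (fun g => by obtain ⟨g1, g2⟩ := (bb48 x).1 g; linarith) (by decide)
  · exact iff_of_false (fun g => by obtain ⟨g1, g2⟩ := (bb49 x).1 g; linarith) (by decide)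
  · exact iff_of_false (fun g => by obtain ⟨g1, g2⟩ := (bb50 x).1 g; linarith) (by decide)
  · exact iff_of_false (fun g => by obtain ⟨g1, g2⟩ := (bb51 x).1 g; linarith) (by decide)
  · exact iff_of_false (fun g => by obtain ⟨g1, g2⟩ := (bb52 x).1 g; linarith) (by decide)

/-- the open cell 17 -/
theorem oo17 (x : ℂ) (h1 : 0 < 2 * x.re + 2 * x.im)
    (h2 : 0 < -(2 * x.re) - 6 * x.im)
    (h3 : 0 < -(4 * x.im) - 8) : ∀ κ < 53,
    (x ∈ bs κ ↔ (bm κ).testBit 17 = true) := by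
  intro κ hκ
  interval_cases κ
  · exact iff_of_false (fun g => by obtain ⟨g1, g2, g3⟩ := (bb0 x).1 g; linarith) (by decide)
  · exact iff_of_false (fun g => by obtain ⟨g1, g2, g3⟩ := (bb1 x).1 g; linarith) (by decide)
  · exact iff_of_false (fun g => by obtain ⟨g1, g2, g3⟩ := (bb2 x).1 g; linarith) (by decide)
  · exact iff_of_false (fun g => by obtain ⟨g1, g2, g3⟩ := (bb3 x).1 g; linarith) (by decide)
  · exact iff_of_false (fun g => by obtain ⟨g1, g2, g3⟩ := (bb4 x).1 g; linarith) (by decide)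
  · exact iff_of_false (fun g => by obtain ⟨g1, g2, g3⟩ := (bb5 x).1 g; linarith) (by decide)
  · exact iff_of_false (fun g => by obtain ⟨g1, g2, g3⟩ := (bb6 x).1 g; linarith) (by decide)
  · exact iff_of_false (fun g => by obtain ⟨g1, g2, g3⟩ := (bb7 x).1 g; linarith) (by decide)
  · exact iff_of_false (fun g => by obtain ⟨g1, g2, g3⟩ := (bb8 x).1 g; linarith) (by decide)
  · exact iff_of_false (fun g => by obtain ⟨g1, g2, g3⟩ := (bb9 x).1 g; linarith) (by decide)
  · exact iff_of_false (fun g => by obtain ⟨g1, g2, g3⟩ := (bb10 x).1 g; linarith) (by decide)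
  · exact iff_of_false (fun g => by obtain ⟨g1, g2, g3⟩ := (bb11 x).1 g; linarith) (by decide)
  · exact iff_of_false (fun g => by obtain ⟨g1, g2, g3⟩ := (bb12 x).1 g; linarith) (by decide)
  · exact iff_of_false (fun g => by obtain ⟨g1, g2, g3⟩ := (bb13 x).1 g; linarith) (by decide)
  · exact iff_of_false (fun g => by obtain ⟨g1, g2, g3⟩ := (bb14 x).1 g; linarith) (by decide)
  · exact iff_of_false (fun g => by obtain ⟨g1, g2, g3⟩ := (bb15 x).1 g; linarith) (by decide)
  · exact iff_of_false (fun g => by obtain ⟨g1, g2, g3⟩ := (bb16 x).1 g; linarith) (by decide)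
  · exact iff_of_true ((bb17 x).2 ⟨by linarith, by linarith, by linarith⟩) (by decide)
  · exact iff_of_false (fun g => by obtain ⟨⟨g1, g2, g3⟩, g4⟩ := (bb18 x).1 g; linarith) (by decide)
  · exact iff_of_false (fun g => by obtain ⟨⟨g1, g2, g3⟩, g4⟩ := (bb19 x).1 g; linarith) (by decide)
  · exact iff_of_false (fun g => by obtain ⟨⟨g1, g2, g3⟩, g4⟩ := (bb20 x).1 g; linarith) (by decide)
  · exact iff_of_false (fun g => by obtain ⟨⟨g1, g2, g3⟩, g4⟩ := (bb21 x).1 g; linarith) (by decide)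
  · exact iff_of_false (fun g => by obtain ⟨⟨g1, g2, g3⟩, g4⟩ := (bb22 x).1 g; linarith) (by decide)
  · exact iff_of_false (fun g => by obtain ⟨⟨g1, g2, g3⟩, g4⟩ := (bb23 x).1 g; linarith) (by decide)
  · exact iff_of_false (fun g => by obtain ⟨⟨g1, g2, g3⟩, g4⟩ := (bb24 x).1 g; linarith) (by decide)
  · exact iff_of_false (fun g => by obtain ⟨⟨g1, g2, g3⟩, g4⟩ := (bb25 x).1 g; linarith) (by decide)
  · exact iff_of_false (fun g => by obtain ⟨⟨g1, g2, g3⟩, g4⟩ := (bb26 x).1 g; linarith) (by decide)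
  · exact iff_of_false (fun g => by obtain ⟨⟨g1, g2, g3⟩, g4⟩ := (bb27 x).1 g; linarith) (by decide)
  · exact iff_of_false (fun g => by obtain ⟨⟨g1, g2, g3⟩, g4⟩ := (bb28 x).1 g; linarith) (by decide)
  · exact iff_of_false (fun g => by obtain ⟨⟨g1, g2, g3⟩, g4⟩ := (bb29 x).1 g; linarith) (by decide)
  · exact iff_of_false (fun g => by obtain ⟨⟨g1, g2, g3⟩, g4⟩ := (bb30 x).1 g; linarith) (by decide)
  · exact iff_of_false (fun g => by obtain ⟨⟨g1, g2, g3⟩, g4⟩ := (bb31 x).1 g; linarith) (by decide)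
  · exact iff_of_false (fun g => by obtain ⟨⟨g1, g2, g3⟩, g4⟩ := (bb32 x).1 g; linarith) (by decide)
  · exact iff_of_false (fun g => by obtain ⟨⟨g1, g2, g3⟩, g4⟩ := (bb33 x).1 g; linarith) (by decide)
  · exact iff_of_false (fun g => by obtain ⟨⟨g1, g2, g3⟩, g4⟩ := (bb34 x).1 g; linarith) (by decide)
  · exact iff_of_false (fun g => by obtain ⟨⟨g1, g2, g3⟩, g4⟩ := (bb35 x).1 g; linarith) (by decide)
  · exact iff_of_false (fun g => by obtain ⟨⟨g1, g2, g3⟩, g4⟩ := (bb36 x).1 g; linarith) (by decide)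
  · exact iff_of_false (fun g => by obtain ⟨⟨g1, g2, g3⟩, g4⟩ := (bb37 x).1 g; linarith) (by decide)
  · exact iff_of_false (fun g => by obtain ⟨⟨g1, g2, g3⟩, g4⟩ := (bb38 x).1 g; linarith) (by decide)
  · exact iff_of_false (fun g => by obtain ⟨⟨g1, g2, g3⟩, g4⟩ := (bb39 x).1 g; linarith) (by decide)
  · exact iff_of_false (fun g => by obtain ⟨⟨g1, g2, g3⟩, g4⟩ := (bb40 x).1 g; linarith) (by decide)
  · exact iff_of_false (fun g => by obtain ⟨⟨g1, g2, g3⟩, g4⟩ := (bb41 x).1 g; linarith) (by decide)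
  · exact iff_of_false (fun g => by obtain ⟨⟨g1, g2, g3⟩, g4⟩ := (bb42 x).1 g; linarith) (by decide)
  · exact iff_of_false (fun g => by obtain ⟨⟨g1, g2, g3⟩, g4⟩ := (bb43 x).1 g; linarith) (by decide)
  · exact iff_of_false (fun g => by obtain ⟨⟨g1, g2, g3⟩, g4⟩ := (bb44 x).1 g; linarith) (by decide)
  · exact iff_of_false (fun g => by obtain ⟨g1, g2⟩ := (bb45 x).1 g; linarith) (by decide)
  · exact iff_of_false (fun g => by obtain ⟨g1, g2⟩ := (bb46 x).1 g; linarith) (by decide)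
  · exact iff_of_false (fun g => by obtain ⟨g1, g2⟩ := (bb47 x).1 g; linarith) (by decide)
  · exact iff_of_false (fun g => by obtain ⟨g1, g2⟩ := (bb48 x).1 g; linarith) (by decide)
  · exact iff_of_false (fun g => by obtain ⟨g1, g2⟩ := (bb49 x).1 g; linarith) (by decide)
  · exact iff_of_false (fun g => by obtain ⟨g1, g2⟩ := (bb50 x).1 g; linarith) (by decide)
  · exact iff_of_false (fun g => by obtain ⟨g1, g2⟩ := (bb51 x).1 g; linarith) (by decide)
  · exact iff_of_false (fun g => by obtain ⟨g1, g2⟩ := (bb52 x).1 g; linarith) (by decide)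

/-- the open cell 18 -/
theorem oo18 (x : ℂ) (h1 : x.re + 2 * x.im = 0)
    (h2 : 0 < x.re - 2 * x.im)
    (h3 : 0 < -(2 * x.re) + 4) : ∀ κ < 53,
    (x ∈ bs κ ↔ (bm κ).testBit 18 = true) := by
  intro κ hκ
  interval_cases κ
  · exact iff_of_true ((bb0 x).2 ⟨by linarith, by linarith, by linarith⟩) (by decide)
  · exact iff_of_false (fun g => by obtain ⟨g1, g2, g3⟩ := (bb1 x).1 g; linarith) (by decide)
  · exact iff_of_false (fun g => by obtain ⟨g1, g2, g3⟩ := (bb2 x).1 g; linarith) (by decide)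
  · exact iff_of_false (fun g => by obtain ⟨g1, g2, g3⟩ := (bb3 x).1 g; linarith) (by decide)
  · exact iff_of_false (fun g => by obtain ⟨g1, g2, g3⟩ := (bb4 x).1 g; linarith) (by decide)
  · exact iff_of_true ((bb5 x).2 ⟨by linarith, by linarith, by linarith⟩) (by decide)
  · exact iff_of_false (fun g => by obtain ⟨g1, g2, g3⟩ := (bb6 x).1 g; linarith) (by decide)
  · exact iff_of_false (fun g => by obtain ⟨g1, g2, g3⟩ := (bb7 x).1 g; linarith) (by decide)
  · exact iff_of_false (fun g => by obtain ⟨g1, g2, g3⟩ := (bb8 x).1 g; linarith) (by decide)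
  · exact iff_of_false (fun g => by obtain ⟨g1, g2, g3⟩ := (bb9 x).1 g; linarith) (by decide)
  · exact iff_of_false (fun g => by obtain ⟨g1, g2, g3⟩ := (bb10 x).1 g; linarith) (by decide)
  · exact iff_of_false (fun g => by obtain ⟨g1, g2, g3⟩ := (bb11 x).1 g; linarith) (by decide)
  · exact iff_of_false (fun g => by obtain ⟨g1, g2, g3⟩ := (bb12 x).1 g; linarith) (by decide)
  · exact iff_of_false (fun g => by obtain ⟨g1, g2, g3⟩ := (bb13 x).1 g; linarith) (by decide)
  · exact iff_of_false (fun g => by obtain ⟨g1, g2, g3⟩ := (bb14 x).1 g; linarith) (by decide)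
  · exact iff_of_false (fun g => by obtain ⟨g1, g2, g3⟩ := (bb15 x).1 g; linarith) (by decide)
  · exact iff_of_false (fun g => by obtain ⟨g1, g2, g3⟩ := (bb16 x).1 g; linarith) (by decide)
  · exact iff_of_false (fun g => by obtain ⟨g1, g2, g3⟩ := (bb17 x).1 g; linarith) (by decide)
  · exact iff_of_true ((bb18 x).2 ⟨⟨by linarith, by linarith, by linarith⟩, by linarith⟩) (by decide)
  · exact iff_of_false (fun g => by obtain ⟨⟨g1, g2, g3⟩, g4⟩ := (bb19 x).1 g; linarith) (by decide)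
  · exact iff_of_false (fun g => by obtain ⟨⟨g1, g2, g3⟩, g4⟩ := (bb20 x).1 g; linarith) (by decide)
  · exact iff_of_false (fun g => by obtain ⟨⟨g1, g2, g3⟩, g4⟩ := (bb21 x).1 g; linarith) (by decide)
  · exact iff_of_false (fun g => by obtain ⟨⟨g1, g2, g3⟩, g4⟩ := (bb22 x).1 g; linarith) (by decide)
  · exact iff_of_false (fun g => by obtain ⟨⟨g1, g2, g3⟩, g4⟩ := (bb23 x).1 g; linarith) (by decide)
  · exact iff_of_false (fun g => by obtain ⟨⟨g1, g2, g3⟩, g4⟩ := (bb24 x).1 g; linarith) (by decide)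
  · exact iff_of_false (fun g => by obtain ⟨⟨g1, g2, g3⟩, g4⟩ := (bb25 x).1 g; linarith) (by decide)
  · exact iff_of_false (fun g => by obtain ⟨⟨g1, g2, g3⟩, g4⟩ := (bb26 x).1 g; linarith) (by decide)
  · exact iff_of_false (fun g => by obtain ⟨⟨g1, g2, g3⟩, g4⟩ := (bb27 x).1 g; linarith) (by decide)
  · exact iff_of_false (fun g => by obtain ⟨⟨g1, g2, g3⟩, g4⟩ := (bb28 x).1 g; linarith) (by decide)
  · exact iff_of_false (fun g => by obtain ⟨⟨g1, g2, g3⟩, g4⟩ := (bb29 x).1 g; linarith) (by decide)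
  · exact iff_of_false (fun g => by obtain ⟨⟨g1, g2, g3⟩, g4⟩ := (bb30 x).1 g; linarith) (by decide)
  · exact iff_of_false (fun g => by obtain ⟨⟨g1, g2, g3⟩, g4⟩ := (bb31 x).1 g; linarith) (by decide)
  · exact iff_of_false (fun g => by obtain ⟨⟨g1, g2, g3⟩, g4⟩ := (bb32 x).1 g; linarith) (by decide)
  · exact iff_of_false (fun g => by obtain ⟨⟨g1, g2, g3⟩, g4⟩ := (bb33 x).1 g; linarith) (by decide)
  · exact iff_of_false (fun g => by obtain ⟨⟨g1, g2, g3⟩, g4⟩ := (bb34 x).1 g; linarith) (by decide)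
  · exact iff_of_false (fun g => by obtain ⟨⟨g1, g2, g3⟩, g4⟩ := (bb35 x).1 g; linarith) (by decide)
  · exact iff_of_false (fun g => by obtain ⟨⟨g1, g2, g3⟩, g4⟩ := (bb36 x).1 g; linarith) (by decide)
  · exact iff_of_false (fun g => by obtain ⟨⟨g1, g2, g3⟩, g4⟩ := (bb37 x).1 g; linarith) (by decide)
  · exact iff_of_false (fun g => by obtain ⟨⟨g1, g2, g3⟩, g4⟩ := (bb38 x).1 g; linarith) (by decide)
  · exact iff_of_false (fun g => by obtain ⟨⟨g1, g2, g3⟩, g4⟩ := (bb39 x).1 g; linarith) (by decide)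
  · exact iff_of_false (fun g => by obtain ⟨⟨g1, g2, g3⟩, g4⟩ := (bb40 x).1 g; linarith) (by decide)
  · exact iff_of_false (fun g => by obtain ⟨⟨g1, g2, g3⟩, g4⟩ := (bb41 x).1 g; linarith) (by decide)
  · exact iff_of_false (fun g => by obtain ⟨⟨g1, g2, g3⟩, g4⟩ := (bb42 x).1 g; linarith) (by decide)
  · exact iff_of_false (fun g => by obtain ⟨⟨g1, g2, g3⟩, g4⟩ := (bb43 x).1 g; linarith) (by decide)
  · exact iff_of_false (fun g => by obtain ⟨⟨g1, g2, g3⟩, g4⟩ := (bb44 x).1 g; linarith) (by decide)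
  · exact iff_of_false (fun g => by obtain ⟨g1, g2⟩ := (bb45 x).1 g; linarith) (by decide)
  · exact iff_of_false (fun g => by obtain ⟨g1, g2⟩ := (bb46 x).1 g; linarith) (by decide)
  · exact iff_of_false (fun g => by obtain ⟨g1, g2⟩ := (bb47 x).1 g; linarith) (by decide)
  · exact iff_of_false (fun g => by obtain ⟨g1, g2⟩ := (bb48 x).1 g; linarith) (by decide)
  · exact iff_of_false (fun g => by obtain ⟨g1, g2⟩ := (bb49 x).1 g; linarith) (by decide)
  · exact iff_of_false (fun g => by obtain ⟨g1, g2⟩ := (bb50 x).1 g; linarith) (by decide)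
  · exact iff_of_false (fun g => by obtain ⟨g1, g2⟩ := (bb51 x).1 g; linarith) (by decide)
  · exact iff_of_false (fun g => by obtain ⟨g1, g2⟩ := (bb52 x).1 g; linarith) (by decide)

/-- the open cell 19 -/
theorem oo19 (x : ℂ) (h1 : -x.re + 2 * x.im = 0)
    (h2 : 0 < 2 * x.re - 2 * x.im)
    (h3 : 0 < -x.re + 2) : ∀ κ < 53,
    (x ∈ bs κ ↔ (bm κ).testBit 19 = true) := by
  intro κ hκ
  interval_cases κ
  · exact iff_of_true ((bb0 x).2 ⟨by linarith, by linarith, by linarith⟩) (by decide)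
  · exact iff_of_true ((bb1 x).2 ⟨by linarith, by linarith, by linarith⟩) (by decide)
  · exact iff_of_false (fun g => by obtain ⟨g1, g2, g3⟩ := (bb2 x).1 g; linarith) (by decide)
  · exact iff_of_false (fun g => by obtain ⟨g1, g2, g3⟩ := (bb3 x).1 g; linarith) (by decide)
  · exact iff_of_false (fun g => by obtain ⟨g1, g2, g3⟩ := (bb4 x).1 g; linarith) (by decide)
  · exact iff_of_false (fun g => by obtain ⟨g1, g2, g3⟩ := (bb5 x).1 g; linarith) (by decide)
  · exact iff_of_false (fun g => by obtain ⟨g1, g2, g3⟩ := (bb6 x).1 g; linarith) (by decide)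
  · exact iff_of_false (fun g => by obtain ⟨g1, g2, g3⟩ := (bb7 x).1 g; linarith) (by decide)
  · exact iff_of_false (fun g => by obtain ⟨g1, g2, g3⟩ := (bb8 x).1 g; linarith) (by decide)
  · exact iff_of_false (fun g => by obtain ⟨g1, g2, g3⟩ := (bb9 x).1 g; linarith) (by decide)
  · exact iff_of_false (fun g => by obtain ⟨g1, g2, g3⟩ := (bb10 x).1 g; linarith) (by decide)
  · exact iff_of_false (fun g => by obtain ⟨g1, g2, g3⟩ := (bb11 x).1 g; linarith) (by decide)
  · exact iff_of_false (fun g => by obtain ⟨g1, g2, g3⟩ := (bb12 x).1 g; linarith) (by decide)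
  · exact iff_of_false (fun g => by obtain ⟨g1, g2, g3⟩ := (bb13 x).1 g; linarith) (by decide)
  · exact iff_of_false (fun g => by obtain ⟨g1, g2, g3⟩ := (bb14 x).1 g; linarith) (by decide)
  · exact iff_of_false (fun g => by obtain ⟨g1, g2, g3⟩ := (bb15 x).1 g; linarith) (by decide)
  · exact iff_of_false (fun g => by obtain ⟨g1, g2, g3⟩ := (bb16 x).1 g; linarith) (by decide)
  · exact iff_of_false (fun g => by obtain ⟨g1, g2, g3⟩ := (bb17 x).1 g; linarith) (by decide)
  · exact iff_of_false (fun g => by obtain ⟨⟨g1, g2, g3⟩, g4⟩ := (bb18 x).1 g; linarith) (by decide)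
  · exact iff_of_true ((bb19 x).2 ⟨⟨by linarith, by linarith, by linarith⟩, by linarith⟩) (by decide)
  · exact iff_of_false (fun g => by obtain ⟨⟨g1, g2, g3⟩, g4⟩ := (bb20 x).1 g; linarith) (by decide)
  · exact iff_of_false (fun g => by obtain ⟨⟨g1, g2, g3⟩, g4⟩ := (bb21 x).1 g; linarith) (by decide)
  · exact iff_of_false (fun g => by obtain ⟨⟨g1, g2, g3⟩, g4⟩ := (bb22 x).1 g; linarith) (by decide)
  · exact iff_of_false (fun g => by obtain ⟨⟨g1, g2, g3⟩, g4⟩ := (bb23 x).1 g; linarith) (by decide)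
  · exact iff_of_false (fun g => by obtain ⟨⟨g1, g2, g3⟩, g4⟩ := (bb24 x).1 g; linarith) (by decide)
  · exact iff_of_false (fun g => by obtain ⟨⟨g1, g2, g3⟩, g4⟩ := (bb25 x).1 g; linarith) (by decide)
  · exact iff_of_false (fun g => by obtain ⟨⟨g1, g2, g3⟩, g4⟩ := (bb26 x).1 g; linarith) (by decide)
  · exact iff_of_false (fun g => by obtain ⟨⟨g1, g2, g3⟩, g4⟩ := (bb27 x).1 g; linarith) (by decide)
  · exact iff_of_false (fun g => by obtain ⟨⟨g1, g2, g3⟩, g4⟩ := (bb28 x).1 g; linarith) (by decide)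
  · exact iff_of_false (fun g => by obtain ⟨⟨g1, g2, g3⟩, g4⟩ := (bb29 x).1 g; linarith) (by decide)
  · exact iff_of_false (fun g => by obtain ⟨⟨g1, g2, g3⟩, g4⟩ := (bb30 x).1 g; linarith) (by decide)
  · exact iff_of_false (fun g => by obtain ⟨⟨g1, g2, g3⟩, g4⟩ := (bb31 x).1 g; linarith) (by decide)
  · exact iff_of_false (fun g => by obtain ⟨⟨g1, g2, g3⟩, g4⟩ := (bb32 x).1 g; linarith) (by decide)
  · exact iff_of_false (fun g => by obtain ⟨⟨g1, g2, g3⟩, g4⟩ := (bb33 x).1 g; linarith) (by decide)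
  · exact iff_of_false (fun g => by obtain ⟨⟨g1, g2, g3⟩, g4⟩ := (bb34 x).1 g; linarith) (by decide)
  · exact iff_of_false (fun g => by obtain ⟨⟨g1, g2, g3⟩, g4⟩ := (bb35 x).1 g; linarith) (by decide)
  · exact iff_of_false (fun g => by obtain ⟨⟨g1, g2, g3⟩, g4⟩ := (bb36 x).1 g; linarith) (by decide)
  · exact iff_of_false (fun g => by obtain ⟨⟨g1, g2, g3⟩, g4⟩ := (bb37 x).1 g; linarith) (by decide)
  · exact iff_of_false (fun g => by obtain ⟨⟨g1, g2, g3⟩, g4⟩ := (bb38 x).1 g; linarith) (by decide)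
  · exact iff_of_false (fun g => by obtain ⟨⟨g1, g2, g3⟩, g4⟩ := (bb39 x).1 g; linarith) (by decide)
  · exact iff_of_false (fun g => by obtain ⟨⟨g1, g2, g3⟩, g4⟩ := (bb40 x).1 g; linarith) (by decide)
  · exact iff_of_false (fun g => by obtain ⟨⟨g1, g2, g3⟩, g4⟩ := (bb41 x).1 g; linarith) (by decide)
  · exact iff_of_false (fun g => by obtain ⟨⟨g1, g2, g3⟩, g4⟩ := (bb42 x).1 g; linarith) (by decide)
  · exact iff_of_false (fun g => by obtain ⟨⟨g1, g2, g3⟩, g4⟩ := (bb43 x).1 g; linarith) (by decide)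
  · exact iff_of_false (fun g => by obtain ⟨⟨g1, g2, g3⟩, g4⟩ := (bb44 x).1 g; linarith) (by decide)
  · exact iff_of_false (fun g => by obtain ⟨g1, g2⟩ := (bb45 x).1 g; linarith) (by decide)
  · exact iff_of_false (fun g => by obtain ⟨g1, g2⟩ := (bb46 x).1 g; linarith) (by decide)
  · exact iff_of_false (fun g => by obtain ⟨g1, g2⟩ := (bb47 x).1 g; linarith) (by decide)
  · exact iff_of_false (fun g => by obtain ⟨g1, g2⟩ := (bb48 x).1 g; linarith) (by decide)
  · exact iff_of_false (fun g => by obtain ⟨g1, g2⟩ := (bb49 x).1 g; linarith) (by decide)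
  · exact iff_of_false (fun g => by obtain ⟨g1, g2⟩ := (bb50 x).1 g; linarith) (by decide)
  · exact iff_of_false (fun g => by obtain ⟨g1, g2⟩ := (bb51 x).1 g; linarith) (by decide)
  · exact iff_of_false (fun g => by obtain ⟨g1, g2⟩ := (bb52 x).1 g; linarith) (by decide)

/-- the open cell 20 -/
theorem oo20 (x : ℂ) (h1 : -(2 * x.re) + 2 * x.im = 0)
    (h2 : 0 < 2 * x.re + 2 * x.im)
    (h3 : 0 < -(4 * x.im) + 8) : ∀ κ < 53,
    (x ∈ bs κ ↔ (bm κ).testBit 20 = true) := by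
  intro κ hκ
  interval_cases κ
  · exact iff_of_false (fun g => by obtain ⟨g1, g2, g3⟩ := (bb0 x).1 g; linarith) (by decide)
  · exact iff_of_true ((bb1 x).2 ⟨by linarith, by linarith, by linarith⟩) (by decide)
  · exact iff_of_true ((bb2 x).2 ⟨by linarith, by linarith, by linarith⟩) (by decide)
  · exact iff_of_false (fun g => by obtain ⟨g1, g2, g3⟩ := (bb3 x).1 g; linarith) (by decide)
  · exact iff_of_false (fun g => by obtain ⟨g1, g2, g3⟩ := (bb4 x).1 g; linarith) (by decide)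
  · exact iff_of_false (fun g => by obtain ⟨g1, g2, g3⟩ := (bb5 x).1 g; linarith) (by decide)
  · exact iff_of_false (fun g => by obtain ⟨g1, g2, g3⟩ := (bb6 x).1 g; linarith) (by decide)
  · exact iff_of_false (fun g => by obtain ⟨g1, g2, g3⟩ := (bb7 x).1 g; linarith) (by decide)
  · exact iff_of_false (fun g => by obtain ⟨g1, g2, g3⟩ := (bb8 x).1 g; linarith) (by decide)
  · exact iff_of_false (fun g => by obtain ⟨g1, g2, g3⟩ := (bb9 x).1 g; linarith) (by decide)
  · exact iff_of_false (fun g => by obtain ⟨g1, g2, g3⟩ := (bb10 x).1 g; linarith) (by decide)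
  · exact iff_of_false (fun g => by obtain ⟨g1, g2, g3⟩ := (bb11 x).1 g; linarith) (by decide)
  · exact iff_of_false (fun g => by obtain ⟨g1, g2, g3⟩ := (bb12 x).1 g; linarith) (by decide)
  · exact iff_of_false (fun g => by obtain ⟨g1, g2, g3⟩ := (bb13 x).1 g; linarith) (by decide)
  · exact iff_of_false (fun g => by obtain ⟨g1, g2, g3⟩ := (bb14 x).1 g; linarith) (by decide)
  · exact iff_of_false (fun g => by obtain ⟨g1, g2, g3⟩ := (bb15 x).1 g; linarith) (by decide)
  · exact iff_of_false (fun g => by obtain ⟨g1, g2, g3⟩ := (bb16 x).1 g; linarith) (by decide)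
  · exact iff_of_false (fun g => by obtain ⟨g1, g2, g3⟩ := (bb17 x).1 g; linarith) (by decide)
  · exact iff_of_false (fun g => by obtain ⟨⟨g1, g2, g3⟩, g4⟩ := (bb18 x).1 g; linarith) (by decide)
  · exact iff_of_false (fun g => by obtain ⟨⟨g1, g2, g3⟩, g4⟩ := (bb19 x).1 g; linarith) (by decide)
  · exact iff_of_true ((bb20 x).2 ⟨⟨by linarith, by linarith, by linarith⟩, by linarith⟩) (by decide)
  · exact iff_of_false (fun g => by obtain ⟨⟨g1, g2, g3⟩, g4⟩ := (bb21 x).1 g; linarith) (by decide)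
  · exact iff_of_false (fun g => by obtain ⟨⟨g1, g2, g3⟩, g4⟩ := (bb22 x).1 g; linarith) (by decide)
  · exact iff_of_false (fun g => by obtain ⟨⟨g1, g2, g3⟩, g4⟩ := (bb23 x).1 g; linarith) (by decide)
  · exact iff_of_false (fun g => by obtain ⟨⟨g1, g2, g3⟩, g4⟩ := (bb24 x).1 g; linarith) (by decide)
  · exact iff_of_false (fun g => by obtain ⟨⟨g1, g2, g3⟩, g4⟩ := (bb25 x).1 g; linarith) (by decide)
  · exact iff_of_false (fun g => by obtain ⟨⟨g1, g2, g3⟩, g4⟩ := (bb26 x).1 g; linarith) (by decide)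
  · exact iff_of_false (fun g => by obtain ⟨⟨g1, g2, g3⟩, g4⟩ := (bb27 x).1 g; linarith) (by decide)
  · exact iff_of_false (fun g => by obtain ⟨⟨g1, g2, g3⟩, g4⟩ := (bb28 x).1 g; linarith) (by decide)
  · exact iff_of_false (fun g => by obtain ⟨⟨g1, g2, g3⟩, g4⟩ := (bb29 x).1 g; linarith) (by decide)
  · exact iff_of_false (fun g => by obtain ⟨⟨g1, g2, g3⟩, g4⟩ := (bb30 x).1 g; linarith) (by decide)
  · exact iff_of_false (fun g => by obtain ⟨⟨g1, g2, g3⟩, g4⟩ := (bb31 x).1 g; linarith) (by decide)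
  · exact iff_of_false (fun g => by obtain ⟨⟨g1, g2, g3⟩, g4⟩ := (bb32 x).1 g; linarith) (by decide)
  · exact iff_of_false (fun g => by obtain ⟨⟨g1, g2, g3⟩, g4⟩ := (bb33 x).1 g; linarith) (by decide)
  · exact iff_of_false (fun g => by obtain ⟨⟨g1, g2, g3⟩, g4⟩ := (bb34 x).1 g; linarith) (by decide)
  · exact iff_of_false (fun g => by obtain ⟨⟨g1, g2, g3⟩, g4⟩ := (bb35 x).1 g; linarith) (by decide)
  · exact iff_of_false (fun g => by obtain ⟨⟨g1, g2, g3⟩, g4⟩ := (bb36 x).1 g; linarith) (by decide)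
  · exact iff_of_false (fun g => by obtain ⟨⟨g1, g2, g3⟩, g4⟩ := (bb37 x).1 g; linarith) (by decide)
  · exact iff_of_false (fun g => by obtain ⟨⟨g1, g2, g3⟩, g4⟩ := (bb38 x).1 g; linarith) (by decide)
  · exact iff_of_false (fun g => by obtain ⟨⟨g1, g2, g3⟩, g4⟩ := (bb39 x).1 g; linarith) (by decide)
  · exact iff_of_false (fun g => by obtain ⟨⟨g1, g2, g3⟩, g4⟩ := (bb40 x).1 g; linarith) (by decide)
  · exact iff_of_false (fun g => by obtain ⟨⟨g1, g2, g3⟩, g4⟩ := (bb41 x).1 g; linarith) (by decide)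
  · exact iff_of_false (fun g => by obtain ⟨⟨g1, g2, g3⟩, g4⟩ := (bb42 x).1 g; linarith) (by decide)
  · exact iff_of_false (fun g => by obtain ⟨⟨g1, g2, g3⟩, g4⟩ := (bb43 x).1 g; linarith) (by decide)
  · exact iff_of_false (fun g => by obtain ⟨⟨g1, g2, g3⟩, g4⟩ := (bb44 x).1 g; linarith) (by decide)
  · exact iff_of_false (fun g => by obtain ⟨g1, g2⟩ := (bb45 x).1 g; linarith) (by decide)
  · exact iff_of_false (fun g => by obtain ⟨g1, g2⟩ := (bb46 x).1 g; linarith) (by decide)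
  · exact iff_of_false (fun g => by obtain ⟨g1, g2⟩ := (bb47 x).1 g; linarith) (by decide)
  · exact iff_of_false (fun g => by obtain ⟨g1, g2⟩ := (bb48 x).1 g; linarith) (by decide)
  · exact iff_of_false (fun g => by obtain ⟨g1, g2⟩ := (bb49 x).1 g; linarith) (by decide)
  · exact iff_of_false (fun g => by obtain ⟨g1, g2⟩ := (bb50 x).1 g; linarith) (by decide)
  · exact iff_of_false (fun g => by obtain ⟨g1, g2⟩ := (bb51 x).1 g; linarith) (by decide)
  · exact iff_of_false (fun g => by obtain ⟨g1, g2⟩ := (bb52 x).1 g; linarith) (by decide)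

/-- the open cell 21 -/
theorem oo21 (x : ℂ) (h1 : -(2 * x.re) - 2 * x.im = 0)
    (h2 : 0 < -(2 * x.re) + 2 * x.im)
    (h3 : 0 < 4 * x.re + 8) : ∀ κ < 53,
    (x ∈ bs κ ↔ (bm κ).testBit 21 = true) := by
  intro κ hκ
  interval_cases κ
  · exact iff_of_false (fun g => by obtain ⟨g1, g2, g3⟩ := (bb0 x).1 g; linarith) (by decide)
  · exact iff_of_false (fun g => by obtain ⟨g1, g2, g3⟩ := (bb1 x).1 g; linarith) (by decide)
  · exact iff_of_true ((bb2 x).2 ⟨by linarith, by linarith, by linarith⟩) (by decide)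
  · exact iff_of_true ((bb3 x).2 ⟨by linarith, by linarith, by linarith⟩) (by decide)
  · exact iff_of_false (fun g => by obtain ⟨g1, g2, g3⟩ := (bb4 x).1 g; linarith) (by decide)
  · exact iff_of_false (fun g => by obtain ⟨g1, g2, g3⟩ := (bb5 x).1 g; linarith) (by decide)
  · exact iff_of_false (fun g => by obtain ⟨g1, g2, g3⟩ := (bb6 x).1 g; linarith) (by decide)
  · exact iff_of_false (fun g => by obtain ⟨g1, g2, g3⟩ := (bb7 x).1 g; linarith) (by decide)
  · exact iff_of_false (fun g => by obtain ⟨g1, g2, g3⟩ := (bb8 x).1 g; linarith) (by decide)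
  · exact iff_of_false (fun g => by obtain ⟨g1, g2, g3⟩ := (bb9 x).1 g; linarith) (by decide)
  · exact iff_of_false (fun g => by obtain ⟨g1, g2, g3⟩ := (bb10 x).1 g; linarith) (by decide)
  · exact iff_of_false (fun g => by obtain ⟨g1, g2, g3⟩ := (bb11 x).1 g; linarith) (by decide)
  · exact iff_of_false (fun g => by obtain ⟨g1, g2, g3⟩ := (bb12 x).1 g; linarith) (by decide)
  · exact iff_of_false (fun g => by obtain ⟨g1, g2, g3⟩ := (bb13 x).1 g; linarith) (by decide)
  · exact iff_of_false (fun g => by obtain ⟨g1, g2, g3⟩ := (bb14 x).1 g; linarith) (by decide)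
  · exact iff_of_false (fun g => by obtain ⟨g1, g2, g3⟩ := (bb15 x).1 g; linarith) (by decide)
  · exact iff_of_false (fun g => by obtain ⟨g1, g2, g3⟩ := (bb16 x).1 g; linarith) (by decide)
  · exact iff_of_false (fun g => by obtain ⟨g1, g2, g3⟩ := (bb17 x).1 g; linarith) (by decide)
  · exact iff_of_false (fun g => by obtain ⟨⟨g1, g2, g3⟩, g4⟩ := (bb18 x).1 g; linarith) (by decide)
  · exact iff_of_false (fun g => by obtain ⟨⟨g1, g2, g3⟩, g4⟩ := (bb19 x).1 g; linarith) (by decide)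
  · exact iff_of_false (fun g => by obtain ⟨⟨g1, g2, g3⟩, g4⟩ := (bb20 x).1 g; linarith) (by decide)
  · exact iff_of_true ((bb21 x).2 ⟨⟨by linarith, by linarith, by linarith⟩, by linarith⟩) (by decide)
  · exact iff_of_false (fun g => by obtain ⟨⟨g1, g2, g3⟩, g4⟩ := (bb22 x).1 g; linarith) (by decide)
  · exact iff_of_false (fun g => by obtain ⟨⟨g1, g2, g3⟩, g4⟩ := (bb23 x).1 g; linarith) (by decide)
  · exact iff_of_false (fun g => by obtain ⟨⟨g1, g2, g3⟩, g4⟩ := (bb24 x).1 g; linarith) (by decide)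
  · exact iff_of_false (fun g => by obtain ⟨⟨g1, g2, g3⟩, g4⟩ := (bb25 x).1 g; linarith) (by decide)
  · exact iff_of_false (fun g => by obtain ⟨⟨g1, g2, g3⟩, g4⟩ := (bb26 x).1 g; linarith) (by decide)
  · exact iff_of_false (fun g => by obtain ⟨⟨g1, g2, g3⟩, g4⟩ := (bb27 x).1 g; linarith) (by decide)
  · exact iff_of_false (fun g => by obtain ⟨⟨g1, g2, g3⟩, g4⟩ := (bb28 x).1 g; linarith) (by decide)
  · exact iff_of_false (fun g => by obtain ⟨⟨g1, g2, g3⟩, g4⟩ := (bb29 x).1 g; linarith) (by decide)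
  · exact iff_of_false (fun g => by obtain ⟨⟨g1, g2, g3⟩, g4⟩ := (bb30 x).1 g; linarith) (by decide)
  · exact iff_of_false (fun g => by obtain ⟨⟨g1, g2, g3⟩, g4⟩ := (bb31 x).1 g; linarith) (by decide)
  · exact iff_of_false (fun g => by obtain ⟨⟨g1, g2, g3⟩, g4⟩ := (bb32 x).1 g; linarith) (by decide)
  · exact iff_of_false (fun g => by obtain ⟨⟨g1, g2, g3⟩, g4⟩ := (bb33 x).1 g; linarith) (by decide)
  · exact iff_of_false (fun g => by obtain ⟨⟨g1, g2, g3⟩, g4⟩ := (bb34 x).1 g; linarith) (by decide)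
  · exact iff_of_false (fun g => by obtain ⟨⟨g1, g2, g3⟩, g4⟩ := (bb35 x).1 g; linarith) (by decide)
  · exact iff_of_false (fun g => by obtain ⟨⟨g1, g2, g3⟩, g4⟩ := (bb36 x).1 g; linarith) (by decide)
  · exact iff_of_false (fun g => by obtain ⟨⟨g1, g2, g3⟩, g4⟩ := (bb37 x).1 g; linarith) (by decide)
  · exact iff_of_false (fun g => by obtain ⟨⟨g1, g2, g3⟩, g4⟩ := (bb38 x).1 g; linarith) (by decide)
  · exact iff_of_false (fun g => by obtain ⟨⟨g1, g2, g3⟩, g4⟩ := (bb39 x).1 g; linarith) (by decide)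
  · exact iff_of_false (fun g => by obtain ⟨⟨g1, g2, g3⟩, g4⟩ := (bb40 x).1 g; linarith) (by decide)
  · exact iff_of_false (fun g => by obtain ⟨⟨g1, g2, g3⟩, g4⟩ := (bb41 x).1 g; linarith) (by decide)
  · exact iff_of_false (fun g => by obtain ⟨⟨g1, g2, g3⟩, g4⟩ := (bb42 x).1 g; linarith) (by decide)
  · exact iff_of_false (fun g => by obtain ⟨⟨g1, g2, g3⟩, g4⟩ := (bb43 x).1 g; linarith) (by decide)
  · exact iff_of_false (fun g => by obtain ⟨⟨g1, g2, g3⟩, g4⟩ := (bb44 x).1 g; linarith) (by decide)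
  · exact iff_of_false (fun g => by obtain ⟨g1, g2⟩ := (bb45 x).1 g; linarith) (by decide)
  · exact iff_of_false (fun g => by obtain ⟨g1, g2⟩ := (bb46 x).1 g; linarith) (by decide)
  · exact iff_of_false (fun g => by obtain ⟨g1, g2⟩ := (bb47 x).1 g; linarith) (by decide)
  · exact iff_of_false (fun g => by obtain ⟨g1, g2⟩ := (bb48 x).1 g; linarith) (by decide)
  · exact iff_of_false (fun g => by obtain ⟨g1, g2⟩ := (bb49 x).1 g; linarith) (by decide)
  · exact iff_of_false (fun g => by obtain ⟨g1, g2⟩ := (bb50 x).1 g; linarith) (by decide)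
  · exact iff_of_false (fun g => by obtain ⟨g1, g2⟩ := (bb51 x).1 g; linarith) (by decide)
  · exact iff_of_false (fun g => by obtain ⟨g1, g2⟩ := (bb52 x).1 g; linarith) (by decide)

/-- the open cell 22 -/
theorem oo22 (x : ℂ) (h1 : 2 * x.re - 2 * x.im = 0)
    (h2 : 0 < -(2 * x.re) - 2 * x.im)
    (h3 : 0 < 4 * x.im + 8) : ∀ κ < 53,
    (x ∈ bs κ ↔ (bm κ).testBit 22 = true) := by
  intro κ hκ
  interval_cases κ
  · exact iff_of_false (fun g => by obtain ⟨g1, g2, g3⟩ := (bb0 x).1 g; linarith) (by decide)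
  · exact iff_of_false (fun g => by obtain ⟨g1, g2, g3⟩ := (bb1 x).1 g; linarith) (by decide)
  · exact iff_of_false (fun g => by obtain ⟨g1, g2, g3⟩ := (bb2 x).1 g; linarith) (by decide)
  · exact iff_of_true ((bb3 x).2 ⟨by linarith, by linarith, by linarith⟩) (by decide)
  · exact iff_of_true ((bb4 x).2 ⟨by linarith, by linarith, by linarith⟩) (by decide)
  · exact iff_of_false (fun g => by obtain ⟨g1, g2, g3⟩ := (bb5 x).1 g; linarith) (by decide)
  · exact iff_of_false (fun g => by obtain ⟨g1, g2, g3⟩ := (bb6 x).1 g; linarith) (by decide)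
  · exact iff_of_false (fun g => by obtain ⟨g1, g2, g3⟩ := (bb7 x).1 g; linarith) (by decide)
  · exact iff_of_false (fun g => by obtain ⟨g1, g2, g3⟩ := (bb8 x).1 g; linarith) (by decide)
  · exact iff_of_false (fun g => by obtain ⟨g1, g2, g3⟩ := (bb9 x).1 g; linarith) (by decide)
  · exact iff_of_false (fun g => by obtain ⟨g1, g2, g3⟩ := (bb10 x).1 g; linarith) (by decide)
  · exact iff_of_false (fun g => by obtain ⟨g1, g2, g3⟩ := (bb11 x).1 g; linarith) (by decide)
  · exact iff_of_false (fun g => by obtain ⟨g1, g2, g3⟩ := (bb12 x).1 g; linarith) (by decide)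
  · exact iff_of_false (fun g => by obtain ⟨g1, g2, g3⟩ := (bb13 x).1 g; linarith) (by decide)
  · exact iff_of_false (fun g => by obtain ⟨g1, g2, g3⟩ := (bb14 x).1 g; linarith) (by decide)
  · exact iff_of_false (fun g => by obtain ⟨g1, g2, g3⟩ := (bb15 x).1 g; linarith) (by decide)
  · exact iff_of_false (fun g => by obtain ⟨g1, g2, g3⟩ := (bb16 x).1 g; linarith) (by decide)
  · exact iff_of_false (fun g => by obtain ⟨g1, g2, g3⟩ := (bb17 x).1 g; linarith) (by decide)
  · exact iff_of_false (fun g => by obtain ⟨⟨g1, g2, g3⟩, g4⟩ := (bb18 x).1 g; linarith) (by decide)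
  · exact iff_of_false (fun g => by obtain ⟨⟨g1, g2, g3⟩, g4⟩ := (bb19 x).1 g; linarith) (by decide)
  · exact iff_of_false (fun g => by obtain ⟨⟨g1, g2, g3⟩, g4⟩ := (bb20 x).1 g; linarith) (by decide)
  · exact iff_of_false (fun g => by obtain ⟨⟨g1, g2, g3⟩, g4⟩ := (bb21 x).1 g; linarith) (by decide)
  · exact iff_of_true ((bb22 x).2 ⟨⟨by linarith, by linarith, by linarith⟩, by linarith⟩) (by decide)
  · exact iff_of_false (fun g => by obtain ⟨⟨g1, g2, g3⟩, g4⟩ := (bb23 x).1 g; linarith) (by decide)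
  · exact iff_of_false (fun g => by obtain ⟨⟨g1, g2, g3⟩, g4⟩ := (bb24 x).1 g; linarith) (by decide)
  · exact iff_of_false (fun g => by obtain ⟨⟨g1, g2, g3⟩, g4⟩ := (bb25 x).1 g; linarith) (by decide)
  · exact iff_of_false (fun g => by obtain ⟨⟨g1, g2, g3⟩, g4⟩ := (bb26 x).1 g; linarith) (by decide)
  · exact iff_of_false (fun g => by obtain ⟨⟨g1, g2, g3⟩, g4⟩ := (bb27 x).1 g; linarith) (by decide)
  · exact iff_of_false (fun g => by obtain ⟨⟨g1, g2, g3⟩, g4⟩ := (bb28 x).1 g; linarith) (by decide)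
  · exact iff_of_false (fun g => by obtain ⟨⟨g1, g2, g3⟩, g4⟩ := (bb29 x).1 g; linarith) (by decide)
  · exact iff_of_false (fun g => by obtain ⟨⟨g1, g2, g3⟩, g4⟩ := (bb30 x).1 g; linarith) (by decide)
  · exact iff_of_false (fun g => by obtain ⟨⟨g1, g2, g3⟩, g4⟩ := (bb31 x).1 g; linarith) (by decide)
  · exact iff_of_false (fun g => by obtain ⟨⟨g1, g2, g3⟩, g4⟩ := (bb32 x).1 g; linarith) (by decide)
  · exact iff_of_false (fun g => by obtain ⟨⟨g1, g2, g3⟩, g4⟩ := (bb33 x).1 g; linarith) (by decide)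
  · exact iff_of_false (fun g => by obtain ⟨⟨g1, g2, g3⟩, g4⟩ := (bb34 x).1 g; linarith) (by decide)
  · exact iff_of_false (fun g => by obtain ⟨⟨g1, g2, g3⟩, g4⟩ := (bb35 x).1 g; linarith) (by decide)
  · exact iff_of_false (fun g => by obtain ⟨⟨g1, g2, g3⟩, g4⟩ := (bb36 x).1 g; linarith) (by decide)
  · exact iff_of_false (fun g => by obtain ⟨⟨g1, g2, g3⟩, g4⟩ := (bb37 x).1 g; linarith) (by decide)
  · exact iff_of_false (fun g => by obtain ⟨⟨g1, g2, g3⟩, g4⟩ := (bb38 x).1 g; linarith) (by decide)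
  · exact iff_of_false (fun g => by obtain ⟨⟨g1, g2, g3⟩, g4⟩ := (bb39 x).1 g; linarith) (by decide)
  · exact iff_of_false (fun g => by obtain ⟨⟨g1, g2, g3⟩, g4⟩ := (bb40 x).1 g; linarith) (by decide)
  · exact iff_of_false (fun g => by obtain ⟨⟨g1, g2, g3⟩, g4⟩ := (bb41 x).1 g; linarith) (by decide)
  · exact iff_of_false (fun g => by obtain ⟨⟨g1, g2, g3⟩, g4⟩ := (bb42 x).1 g; linarith) (by decide)
  · exact iff_of_false (fun g => by obtain ⟨⟨g1, g2, g3⟩, g4⟩ := (bb43 x).1 g; linarith) (by decide)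
  · exact iff_of_false (fun g => by obtain ⟨⟨g1, g2, g3⟩, g4⟩ := (bb44 x).1 g; linarith) (by decide)
  · exact iff_of_false (fun g => by obtain ⟨g1, g2⟩ := (bb45 x).1 g; linarith) (by decide)
  · exact iff_of_false (fun g => by obtain ⟨g1, g2⟩ := (bb46 x).1 g; linarith) (by decide)
  · exact iff_of_false (fun g => by obtain ⟨g1, g2⟩ := (bb47 x).1 g; linarith) (by decide)
  · exact iff_of_false (fun g => by obtain ⟨g1, g2⟩ := (bb48 x).1 g; linarith) (by decide)
  · exact iff_of_false (fun g => by obtain ⟨g1, g2⟩ := (bb49 x).1 g; linarith) (by decide)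
  · exact iff_of_false (fun g => by obtain ⟨g1, g2⟩ := (bb50 x).1 g; linarith) (by decide)
  · exact iff_of_false (fun g => by obtain ⟨g1, g2⟩ := (bb51 x).1 g; linarith) (by decide)
  · exact iff_of_false (fun g => by obtain ⟨g1, g2⟩ := (bb52 x).1 g; linarith) (by decide)

/-- the open cell 23 -/
theorem oo23 (x : ℂ) (h1 : 2 * x.re + 2 * x.im = 0)
    (h2 : 0 < -x.re - 2 * x.im)
    (h3 : 0 < -x.re + 2) : ∀ κ < 53,
    (x ∈ bs κ ↔ (bm κ).testBit 23 = true) := by
  intro κ hκ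
  interval_cases κ
  · exact iff_of_false (fun g => by obtain ⟨g1, g2, g3⟩ := (bb0 x).1 g; linarith) (by decide)
  · exact iff_of_false (fun g => by obtain ⟨g1, g2, g3⟩ := (bb1 x).1 g; linarith) (by decide)
  · exact iff_of_false (fun g => by obtain ⟨g1, g2, g3⟩ := (bb2 x).1 g; linarith) (by decide)
  · exact iff_of_false (fun g => by obtain ⟨g1, g2, g3⟩ := (bb3 x).1 g; linarith) (by decide)
  · exact iff_of_true ((bb4 x).2 ⟨by linarith, by linarith, by linarith⟩) (by decide)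
  · exact iff_of_true ((bb5 x).2 ⟨by linarith, by linarith, by linarith⟩) (by decide)
  · exact iff_of_false (fun g => by obtain ⟨g1, g2, g3⟩ := (bb6 x).1 g; linarith) (by decide)
  · exact iff_of_false (fun g => by obtain ⟨g1, g2, g3⟩ := (bb7 x).1 g; linarith) (by decide)
  · exact iff_of_false (fun g => by obtain ⟨g1, g2, g3⟩ := (bb8 x).1 g; linarith) (by decide)
  · exact iff_of_false (fun g => by obtain ⟨g1, g2, g3⟩ := (bb9 x).1 g; linarith) (by decide)
  · exact iff_of_false (fun g => by obtain ⟨g1, g2, g3⟩ := (bb10 x).1 g; linarith) (by decide)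
  · exact iff_of_false (fun g => by obtain ⟨g1, g2, g3⟩ := (bb11 x).1 g; linarith) (by decide)
  · exact iff_of_false (fun g => by obtain ⟨g1, g2, g3⟩ := (bb12 x).1 g; linarith) (by decide)
  · exact iff_of_false (fun g => by obtain ⟨g1, g2, g3⟩ := (bb13 x).1 g; linarith) (by decide)
  · exact iff_of_false (fun g => by obtain ⟨g1, g2, g3⟩ := (bb14 x).1 g; linarith) (by decide)
  · exact iff_of_false (fun g => by obtain ⟨g1, g2, g3⟩ := (bb15 x).1 g; linarith) (by decide)
  · exact iff_of_false (fun g => by obtain ⟨g1, g2, g3⟩ := (bb16 x).1 g; linarith) (by decide)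
  · exact iff_of_false (fun g => by obtain ⟨g1, g2, g3⟩ := (bb17 x).1 g; linarith) (by decide)
  · exact iff_of_false (fun g => by obtain ⟨⟨g1, g2, g3⟩, g4⟩ := (bb18 x).1 g; linarith) (by decide)
  · exact iff_of_false (fun g => by obtain ⟨⟨g1, g2, g3⟩, g4⟩ := (bb19 x).1 g; linarith) (by decide)
  · exact iff_of_false (fun g => by obtain ⟨⟨g1, g2, g3⟩, g4⟩ := (bb20 x).1 g; linarith) (by decide)
  · exact iff_of_false (fun g => by obtain ⟨⟨g1, g2, g3⟩, g4⟩ := (bb21 x).1 g; linarith) (by decide)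
  · exact iff_of_false (fun g => by obtain ⟨⟨g1, g2, g3⟩, g4⟩ := (bb22 x).1 g; linarith) (by decide)
  · exact iff_of_true ((bb23 x).2 ⟨⟨by linarith, by linarith, by linarith⟩, by linarith⟩) (by decide)
  · exact iff_of_false (fun g => by obtain ⟨⟨g1, g2, g3⟩, g4⟩ := (bb24 x).1 g; linarith) (by decide)
  · exact iff_of_false (fun g => by obtain ⟨⟨g1, g2, g3⟩, g4⟩ := (bb25 x).1 g; linarith) (by decide)
  · exact iff_of_false (fun g => by obtain ⟨⟨g1, g2, g3⟩, g4⟩ := (bb26 x).1 g; linarith) (by decide)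
  · exact iff_of_false (fun g => by obtain ⟨⟨g1, g2, g3⟩, g4⟩ := (bb27 x).1 g; linarith) (by decide)
  · exact iff_of_false (fun g => by obtain ⟨⟨g1, g2, g3⟩, g4⟩ := (bb28 x).1 g; linarith) (by decide)
  · exact iff_of_false (fun g => by obtain ⟨⟨g1, g2, g3⟩, g4⟩ := (bb29 x).1 g; linarith) (by decide)
  · exact iff_of_false (fun g => by obtain ⟨⟨g1, g2, g3⟩, g4⟩ := (bb30 x).1 g; linarith) (by decide)
  · exact iff_of_false (fun g => by obtain ⟨⟨g1, g2, g3⟩, g4⟩ := (bb31 x).1 g; linarith) (by decide)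
  · exact iff_of_false (fun g => by obtain ⟨⟨g1, g2, g3⟩, g4⟩ := (bb32 x).1 g; linarith) (by decide)
  · exact iff_of_false (fun g => by obtain ⟨⟨g1, g2, g3⟩, g4⟩ := (bb33 x).1 g; linarith) (by decide)
  · exact iff_of_false (fun g => by obtain ⟨⟨g1, g2, g3⟩, g4⟩ := (bb34 x).1 g; linarith) (by decide)
  · exact iff_of_false (fun g => by obtain ⟨⟨g1, g2, g3⟩, g4⟩ := (bb35 x).1 g; linarith) (by decide)
  · exact iff_of_false (fun g => by obtain ⟨⟨g1, g2, g3⟩, g4⟩ := (bb36 x).1 g; linarith) (by decide)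
  · exact iff_of_false (fun g => by obtain ⟨⟨g1, g2, g3⟩, g4⟩ := (bb37 x).1 g; linarith) (by decide)
  · exact iff_of_false (fun g => by obtain ⟨⟨g1, g2, g3⟩, g4⟩ := (bb38 x).1 g; linarith) (by decide)
  · exact iff_of_false (fun g => by obtain ⟨⟨g1, g2, g3⟩, g4⟩ := (bb39 x).1 g; linarith) (by decide)
  · exact iff_of_false (fun g => by obtain ⟨⟨g1, g2, g3⟩, g4⟩ := (bb40 x).1 g; linarith) (by decide)
  · exact iff_of_false (fun g => by obtain ⟨⟨g1, g2, g3⟩, g4⟩ := (bb41 x).1 g; linarith) (by decide)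
  · exact iff_of_false (fun g => by obtain ⟨⟨g1, g2, g3⟩, g4⟩ := (bb42 x).1 g; linarith) (by decide)
  · exact iff_of_false (fun g => by obtain ⟨⟨g1, g2, g3⟩, g4⟩ := (bb43 x).1 g; linarith) (by decide)
  · exact iff_of_false (fun g => by obtain ⟨⟨g1, g2, g3⟩, g4⟩ := (bb44 x).1 g; linarith) (by decide)
  · exact iff_of_false (fun g => by obtain ⟨g1, g2⟩ := (bb45 x).1 g; linarith) (by decide)
  · exact iff_of_false (fun g => by obtain ⟨g1, g2⟩ := (bb46 x).1 g; linarith) (by decide)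
  · exact iff_of_false (fun g => by obtain ⟨g1, g2⟩ := (bb47 x).1 g; linarith) (by decide)
  · exact iff_of_false (fun g => by obtain ⟨g1, g2⟩ := (bb48 x).1 g; linarith) (by decide)
  · exact iff_of_false (fun g => by obtain ⟨g1, g2⟩ := (bb49 x).1 g; linarith) (by decide)
  · exact iff_of_false (fun g => by obtain ⟨g1, g2⟩ := (bb50 x).1 g; linarith) (by decide)
  · exact iff_of_false (fun g => by obtain ⟨g1, g2⟩ := (bb51 x).1 g; linarith) (by decide)
  · exact iff_of_false (fun g => by obtain ⟨g1, g2⟩ := (bb52 x).1 g; linarith) (by decide)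

/-- the open cell 24 -/
theorem oo24 (x : ℂ) (h1 : 2 * x.re + 2 * x.im - 8 = 0)
    (h2 : 0 < 2 * x.re - 2 * x.im - 8)
    (h3 : 0 < -(4 * x.re) + 24) : ∀ κ < 53,
    (x ∈ bs κ ↔ (bm κ).testBit 24 = true) := by
  intro κ hκ
  interval_cases κ
  · exact iff_of_false (fun g => by obtain ⟨g1, g2, g3⟩ := (bb0 x).1 g; linarith) (by decide)
  · exact iff_of_false (fun g => by obtain ⟨g1, g2, g3⟩ := (bb1 x).1 g; linarith) (by decide)
  · exact iff_of_false (fun g => by obtain ⟨g1, g2, g3⟩ := (bb2 x).1 g; linarith) (by decide)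
  · exact iff_of_false (fun g => by obtain ⟨g1, g2, g3⟩ := (bb3 x).1 g; linarith) (by decide)
  · exact iff_of_false (fun g => by obtain ⟨g1, g2, g3⟩ := (bb4 x).1 g; linarith) (by decide)
  · exact iff_of_false (fun g => by obtain ⟨g1, g2, g3⟩ := (bb5 x).1 g; linarith) (by decide)
  · exact iff_of_true ((bb6 x).2 ⟨by linarith, by linarith, by linarith⟩) (by decide)
  · exact iff_of_false (fun g => by obtain ⟨g1, g2, g3⟩ := (bb7 x).1 g; linarith) (by decide)
  · exact iff_of_false (fun g => by obtain ⟨g1, g2, g3⟩ := (bb8 x).1 g; linarith) (by decide)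
  · exact iff_of_false (fun g => by obtain ⟨g1, g2, g3⟩ := (bb9 x).1 g; linarith) (by decide)
  · exact iff_of_false (fun g => by obtain ⟨g1, g2, g3⟩ := (bb10 x).1 g; linarith) (by decide)
  · exact iff_of_true ((bb11 x).2 ⟨by linarith, by linarith, by linarith⟩) (by decide)
  · exact iff_of_false (fun g => by obtain ⟨g1, g2, g3⟩ := (bb12 x).1 g; linarith) (by decide)
  · exact iff_of_false (fun g => by obtain ⟨g1, g2, g3⟩ := (bb13 x).1 g; linarith) (by decide)
  · exact iff_of_false (fun g => by obtain ⟨g1, g2, g3⟩ := (bb14 x).1 g; linarith) (by decide)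
  · exact iff_of_false (fun g => by obtain ⟨g1, g2, g3⟩ := (bb15 x).1 g; linarith) (by decide)
  · exact iff_of_false (fun g => by obtain ⟨g1, g2, g3⟩ := (bb16 x).1 g; linarith) (by decide)
  · exact iff_of_false (fun g => by obtain ⟨g1, g2, g3⟩ := (bb17 x).1 g; linarith) (by decide)
  · exact iff_of_false (fun g => by obtain ⟨⟨g1, g2, g3⟩, g4⟩ := (bb18 x).1 g; linarith) (by decide)
  · exact iff_of_false (fun g => by obtain ⟨⟨g1, g2, g3⟩, g4⟩ := (bb19 x).1 g; linarith) (by decide)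
  · exact iff_of_false (fun g => by obtain ⟨⟨g1, g2, g3⟩, g4⟩ := (bb20 x).1 g; linarith) (by decide)
  · exact iff_of_false (fun g => by obtain ⟨⟨g1, g2, g3⟩, g4⟩ := (bb21 x).1 g; linarith) (by decide)
  · exact iff_of_false (fun g => by obtain ⟨⟨g1, g2, g3⟩, g4⟩ := (bb22 x).1 g; linarith) (by decide)
  · exact iff_of_false (fun g => by obtain ⟨⟨g1, g2, g3⟩, g4⟩ := (bb23 x).1 g; linarith) (by decide)
  · exact iff_of_true ((bb24 x).2 ⟨⟨by linarith, by linarith, by linarith⟩, by linarith⟩) (by decide)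
  · exact iff_of_false (fun g => by obtain ⟨⟨g1, g2, g3⟩, g4⟩ := (bb25 x).1 g; linarith) (by decide)
  · exact iff_of_false (fun g => by obtain ⟨⟨g1, g2, g3⟩, g4⟩ := (bb26 x).1 g; linarith) (by decide)
  · exact iff_of_false (fun g => by obtain ⟨⟨g1, g2, g3⟩, g4⟩ := (bb27 x).1 g; linarith) (by decide)
  · exact iff_of_false (fun g => by obtain ⟨⟨g1, g2, g3⟩, g4⟩ := (bb28 x).1 g; linarith) (by decide)
  · exact iff_of_false (fun g => by obtain ⟨⟨g1, g2, g3⟩, g4⟩ := (bb29 x).1 g; linarith) (by decide)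
  · exact iff_of_false (fun g => by obtain ⟨⟨g1, g2, g3⟩, g4⟩ := (bb30 x).1 g; linarith) (by decide)
  · exact iff_of_false (fun g => by obtain ⟨⟨g1, g2, g3⟩, g4⟩ := (bb31 x).1 g; linarith) (by decide)
  · exact iff_of_false (fun g => by obtain ⟨⟨g1, g2, g3⟩, g4⟩ := (bb32 x).1 g; linarith) (by decide)
  · exact iff_of_false (fun g => by obtain ⟨⟨g1, g2, g3⟩, g4⟩ := (bb33 x).1 g; linarith) (by decide)
  · exact iff_of_false (fun g => by obtain ⟨⟨g1, g2, g3⟩, g4⟩ := (bb34 x).1 g; linarith) (by decide)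
  · exact iff_of_false (fun g => by obtain ⟨⟨g1, g2, g3⟩, g4⟩ := (bb35 x).1 g; linarith) (by decide)
  · exact iff_of_false (fun g => by obtain ⟨⟨g1, g2, g3⟩, g4⟩ := (bb36 x).1 g; linarith) (by decide)
  · exact iff_of_false (fun g => by obtain ⟨⟨g1, g2, g3⟩, g4⟩ := (bb37 x).1 g; linarith) (by decide)
  · exact iff_of_false (fun g => by obtain ⟨⟨g1, g2, g3⟩, g4⟩ := (bb38 x).1 g; linarith) (by decide)
  · exact iff_of_false (fun g => by obtain ⟨⟨g1, g2, g3⟩, g4⟩ := (bb39 x).1 g; linarith) (by decide)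
  · exact iff_of_false (fun g => by obtain ⟨⟨g1, g2, g3⟩, g4⟩ := (bb40 x).1 g; linarith) (by decide)
  · exact iff_of_false (fun g => by obtain ⟨⟨g1, g2, g3⟩, g4⟩ := (bb41 x).1 g; linarith) (by decide)
  · exact iff_of_false (fun g => by obtain ⟨⟨g1, g2, g3⟩, g4⟩ := (bb42 x).1 g; linarith) (by decide)
  · exact iff_of_false (fun g => by obtain ⟨⟨g1, g2, g3⟩, g4⟩ := (bb43 x).1 g; linarith) (by decide)
  · exact iff_of_false (fun g => by obtain ⟨⟨g1, g2, g3⟩, g4⟩ := (bb44 x).1 g; linarith) (by decide)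
  · exact iff_of_false (fun g => by obtain ⟨g1, g2⟩ := (bb45 x).1 g; linarith) (by decide)
  · exact iff_of_false (fun g => by obtain ⟨g1, g2⟩ := (bb46 x).1 g; linarith) (by decide)
  · exact iff_of_false (fun g => by obtain ⟨g1, g2⟩ := (bb47 x).1 g; linarith) (by decide)
  · exact iff_of_false (fun g => by obtain ⟨g1, g2⟩ := (bb48 x).1 g; linarith) (by decide)
  · exact iff_of_false (fun g => by obtain ⟨g1, g2⟩ := (bb49 x).1 g; linarith) (by decide)
  · exact iff_of_false (fun g => by obtain ⟨g1, g2⟩ := (bb50 x).1 g; linarith) (by decide)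
  · exact iff_of_false (fun g => by obtain ⟨g1, g2⟩ := (bb51 x).1 g; linarith) (by decide)
  · exact iff_of_false (fun g => by obtain ⟨g1, g2⟩ := (bb52 x).1 g; linarith) (by decide)

/-- the open cell 25 -/
theorem oo25 (x : ℂ) (h1 : -(2 * x.re) + 2 * x.im + 8 = 0)
    (h2 : 0 < 2 * x.re + 2 * x.im - 8)
    (h3 : 0 < -(4 * x.im) + 8) : ∀ κ < 53,
    (x ∈ bs κ ↔ (bm κ).testBit 25 = true) := by
  intro κ hκ
  interval_cases κ
  · exact iff_of_false (fun g => by obtain ⟨g1, g2, g3⟩ := (bb0 x).1 g; linarith) (by decide)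
  · exact iff_of_false (fun g => by obtain ⟨g1, g2, g3⟩ := (bb1 x).1 g; linarith) (by decide)
  · exact iff_of_false (fun g => by obtain ⟨g1, g2, g3⟩ := (bb2 x).1 g; linarith) (by decide)
  · exact iff_of_false (fun g => by obtain ⟨g1, g2, g3⟩ := (bb3 x).1 g; linarith) (by decide)
  · exact iff_of_false (fun g => by obtain ⟨g1, g2, g3⟩ := (bb4 x).1 g; linarith) (by decide)
  · exact iff_of_false (fun g => by obtain ⟨g1, g2, g3⟩ := (bb5 x).1 g; linarith) (by decide)
  · exact iff_of_true ((bb6 x).2 ⟨by linarith, by linarith, by linarith⟩) (by decide)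
  · exact iff_of_true ((bb7 x).2 ⟨by linarith, by linarith, by linarith⟩) (by decide)
  · exact iff_of_false (fun g => by obtain ⟨g1, g2, g3⟩ := (bb8 x).1 g; linarith) (by decide)
  · exact iff_of_false (fun g => by obtain ⟨g1, g2, g3⟩ := (bb9 x).1 g; linarith) (by decide)
  · exact iff_of_false (fun g => by obtain ⟨g1, g2, g3⟩ := (bb10 x).1 g; linarith) (by decide)
  · exact iff_of_false (fun g => by obtain ⟨g1, g2, g3⟩ := (bb11 x).1 g; linarith) (by decide)
  · exact iff_of_false (fun g => by obtain ⟨g1, g2, g3⟩ := (bb12 x).1 g; linarith) (by decide)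
  · exact iff_of_false (fun g => by obtain ⟨g1, g2, g3⟩ := (bb13 x).1 g; linarith) (by decide)
  · exact iff_of_false (fun g => by obtain ⟨g1, g2, g3⟩ := (bb14 x).1 g; linarith) (by decide)
  · exact iff_of_false (fun g => by obtain ⟨g1, g2, g3⟩ := (bb15 x).1 g; linarith) (by decide)
  · exact iff_of_false (fun g => by obtain ⟨g1, g2, g3⟩ := (bb16 x).1 g; linarith) (by decide)
  · exact iff_of_false (fun g => by obtain ⟨g1, g2, g3⟩ := (bb17 x).1 g; linarith) (by decide)
  · exact iff_of_false (fun g => by obtain ⟨⟨g1, g2, g3⟩, g4⟩ := (bb18 x).1 g; linarith) (by decide)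
  · exact iff_of_false (fun g => by obtain ⟨⟨g1, g2, g3⟩, g4⟩ := (bb19 x).1 g; linarith) (by decide)
  · exact iff_of_false (fun g => by obtain ⟨⟨g1, g2, g3⟩, g4⟩ := (bb20 x).1 g; linarith) (by decide)
  · exact iff_of_false (fun g => by obtain ⟨⟨g1, g2, g3⟩, g4⟩ := (bb21 x).1 g; linarith) (by decide)
  · exact iff_of_false (fun g => by obtain ⟨⟨g1, g2, g3⟩, g4⟩ := (bb22 x).1 g; linarith) (by decide)
  · exact iff_of_false (fun g => by obtain ⟨⟨g1, g2, g3⟩, g4⟩ := (bb23 x).1 g; linarith) (by decide)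
  · exact iff_of_false (fun g => by obtain ⟨⟨g1, g2, g3⟩, g4⟩ := (bb24 x).1 g; linarith) (by decide)
  · exact iff_of_true ((bb25 x).2 ⟨⟨by linarith, by linarith, by linarith⟩, by linarith⟩) (by decide)
  · exact iff_of_false (fun g => by obtain ⟨⟨g1, g2, g3⟩, g4⟩ := (bb26 x).1 g; linarith) (by decide)
  · exact iff_of_false (fun g => by obtain ⟨⟨g1, g2, g3⟩, g4⟩ := (bb27 x).1 g; linarith) (by decide)
  · exact iff_of_false (fun g => by obtain ⟨⟨g1, g2, g3⟩, g4⟩ := (bb28 x).1 g; linarith) (by decide)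
  · exact iff_of_false (fun g => by obtain ⟨⟨g1, g2, g3⟩, g4⟩ := (bb29 x).1 g; linarith) (by decide)
  · exact iff_of_false (fun g => by obtain ⟨⟨g1, g2, g3⟩, g4⟩ := (bb30 x).1 g; linarith) (by decide)
  · exact iff_of_false (fun g => by obtain ⟨⟨g1, g2, g3⟩, g4⟩ := (bb31 x).1 g; linarith) (by decide)
  · exact iff_of_false (fun g => by obtain ⟨⟨g1, g2, g3⟩, g4⟩ := (bb32 x).1 g; linarith) (by decide)
  · exact iff_of_false (fun g => by obtain ⟨⟨g1, g2, g3⟩, g4⟩ := (bb33 x).1 g; linarith) (by decide)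
  · exact iff_of_false (fun g => by obtain ⟨⟨g1, g2, g3⟩, g4⟩ := (bb34 x).1 g; linarith) (by decide)
  · exact iff_of_false (fun g => by obtain ⟨⟨g1, g2, g3⟩, g4⟩ := (bb35 x).1 g; linarith) (by decide)
  · exact iff_of_false (fun g => by obtain ⟨⟨g1, g2, g3⟩, g4⟩ := (bb36 x).1 g; linarith) (by decide)
  · exact iff_of_false (fun g => by obtain ⟨⟨g1, g2, g3⟩, g4⟩ := (bb37 x).1 g; linarith) (by decide)
  · exact iff_of_false (fun g => by obtain ⟨⟨g1, g2, g3⟩, g4⟩ := (bb38 x).1 g; linarith) (by decide)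
  · exact iff_of_false (fun g => by obtain ⟨⟨g1, g2, g3⟩, g4⟩ := (bb39 x).1 g; linarith) (by decide)
  · exact iff_of_false (fun g => by obtain ⟨⟨g1, g2, g3⟩, g4⟩ := (bb40 x).1 g; linarith) (by decide)
  · exact iff_of_false (fun g => by obtain ⟨⟨g1, g2, g3⟩, g4⟩ := (bb41 x).1 g; linarith) (by decide)
  · exact iff_of_false (fun g => by obtain ⟨⟨g1, g2, g3⟩, g4⟩ := (bb42 x).1 g; linarith) (by decide)
  · exact iff_of_false (fun g => by obtain ⟨⟨g1, g2, g3⟩, g4⟩ := (bb43 x).1 g; linarith) (by decide)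
  · exact iff_of_false (fun g => by obtain ⟨⟨g1, g2, g3⟩, g4⟩ := (bb44 x).1 g; linarith) (by decide)
  · exact iff_of_false (fun g => by obtain ⟨g1, g2⟩ := (bb45 x).1 g; linarith) (by decide)
  · exact iff_of_false (fun g => by obtain ⟨g1, g2⟩ := (bb46 x).1 g; linarith) (by decide)
  · exact iff_of_false (fun g => by obtain ⟨g1, g2⟩ := (bb47 x).1 g; linarith) (by decide)
  · exact iff_of_false (fun g => by obtain ⟨g1, g2⟩ := (bb48 x).1 g; linarith) (by decide)
  · exact iff_of_false (fun g => by obtain ⟨g1, g2⟩ := (bb49 x).1 g; linarith) (by decide)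
  · exact iff_of_false (fun g => by obtain ⟨g1, g2⟩ := (bb50 x).1 g; linarith) (by decide)
  · exact iff_of_false (fun g => by obtain ⟨g1, g2⟩ := (bb51 x).1 g; linarith) (by decide)
  · exact iff_of_false (fun g => by obtain ⟨g1, g2⟩ := (bb52 x).1 g; linarith) (by decide)

/-- the open cell 26 -/
theorem oo26 (x : ℂ) (h1 : -(2 * x.re) - 2 * x.im + 8 = 0)
    (h2 : 0 < x.re + 2 * x.im - 4)
    (h3 : 0 < x.re - 2) : ∀ κ < 53,
    (x ∈ bs κ ↔ (bm κ).testBit 26 = true) := by
  intro κ hκ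
  interval_cases κ
  · exact iff_of_false (fun g => by obtain ⟨g1, g2, g3⟩ := (bb0 x).1 g; linarith) (by decide)
  · exact iff_of_false (fun g => by obtain ⟨g1, g2, g3⟩ := (bb1 x).1 g; linarith) (by decide)
  · exact iff_of_false (fun g => by obtain ⟨g1, g2, g3⟩ := (bb2 x).1 g; linarith) (by decide)
  · exact iff_of_false (fun g => by obtain ⟨g1, g2, g3⟩ := (bb3 x).1 g; linarith) (by decide)
  · exact iff_of_false (fun g => by obtain ⟨g1, g2, g3⟩ := (bb4 x).1 g; linarith) (by decide)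
  · exact iff_of_false (fun g => by obtain ⟨g1, g2, g3⟩ := (bb5 x).1 g; linarith) (by decide)
  · exact iff_of_false (fun g => by obtain ⟨g1, g2, g3⟩ := (bb6 x).1 g; linarith) (by decide)
  · exact iff_of_true ((bb7 x).2 ⟨by linarith, by linarith, by linarith⟩) (by decide)
  · exact iff_of_true ((bb8 x).2 ⟨by linarith, by linarith, by linarith⟩) (by decide)
  · exact iff_of_false (fun g => by obtain ⟨g1, g2, g3⟩ := (bb9 x).1 g; linarith) (by decide)
  · exact iff_of_false (fun g => by obtain ⟨g1, g2, g3⟩ := (bb10 x).1 g; linarith) (by decide)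
  · exact iff_of_false (fun g => by obtain ⟨g1, g2, g3⟩ := (bb11 x).1 g; linarith) (by decide)
  · exact iff_of_false (fun g => by obtain ⟨g1, g2, g3⟩ := (bb12 x).1 g; linarith) (by decide)
  · exact iff_of_false (fun g => by obtain ⟨g1, g2, g3⟩ := (bb13 x).1 g; linarith) (by decide)
  · exact iff_of_false (fun g => by obtain ⟨g1, g2, g3⟩ := (bb14 x).1 g; linarith) (by decide)
  · exact iff_of_false (fun g => by obtain ⟨g1, g2, g3⟩ := (bb15 x).1 g; linarith) (by decide)
  · exact iff_of_false (fun g => by obtain ⟨g1, g2, g3⟩ := (bb16 x).1 g; linarith) (by decide)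
  · exact iff_of_false (fun g => by obtain ⟨g1, g2, g3⟩ := (bb17 x).1 g; linarith) (by decide)
  · exact iff_of_false (fun g => by obtain ⟨⟨g1, g2, g3⟩, g4⟩ := (bb18 x).1 g; linarith) (by decide)
  · exact iff_of_false (fun g => by obtain ⟨⟨g1, g2, g3⟩, g4⟩ := (bb19 x).1 g; linarith) (by decide)
  · exact iff_of_false (fun g => by obtain ⟨⟨g1, g2, g3⟩, g4⟩ := (bb20 x).1 g; linarith) (by decide)
  · exact iff_of_false (fun g => by obtain ⟨⟨g1, g2, g3⟩, g4⟩ := (bb21 x).1 g; linarith) (by decide)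
  · exact iff_of_false (fun g => by obtain ⟨⟨g1, g2, g3⟩, g4⟩ := (bb22 x).1 g; linarith) (by decide)
  · exact iff_of_false (fun g => by obtain ⟨⟨g1, g2, g3⟩, g4⟩ := (bb23 x).1 g; linarith) (by decide)
  · exact iff_of_false (fun g => by obtain ⟨⟨g1, g2, g3⟩, g4⟩ := (bb24 x).1 g; linarith) (by decide)
  · exact iff_of_false (fun g => by obtain ⟨⟨g1, g2, g3⟩, g4⟩ := (bb25 x).1 g; linarith) (by decide)
  · exact iff_of_true ((bb26 x).2 ⟨⟨by linarith, by linarith, by linarith⟩, by linarith⟩) (by decide)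
  · exact iff_of_false (fun g => by obtain ⟨⟨g1, g2, g3⟩, g4⟩ := (bb27 x).1 g; linarith) (by decide)
  · exact iff_of_false (fun g => by obtain ⟨⟨g1, g2, g3⟩, g4⟩ := (bb28 x).1 g; linarith) (by decide)
  · exact iff_of_false (fun g => by obtain ⟨⟨g1, g2, g3⟩, g4⟩ := (bb29 x).1 g; linarith) (by decide)
  · exact iff_of_false (fun g => by obtain ⟨⟨g1, g2, g3⟩, g4⟩ := (bb30 x).1 g; linarith) (by decide)
  · exact iff_of_false (fun g => by obtain ⟨⟨g1, g2, g3⟩, g4⟩ := (bb31 x).1 g; linarith) (by decide)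
  · exact iff_of_false (fun g => by obtain ⟨⟨g1, g2, g3⟩, g4⟩ := (bb32 x).1 g; linarith) (by decide)
  · exact iff_of_false (fun g => by obtain ⟨⟨g1, g2, g3⟩, g4⟩ := (bb33 x).1 g; linarith) (by decide)
  · exact iff_of_false (fun g => by obtain ⟨⟨g1, g2, g3⟩, g4⟩ := (bb34 x).1 g; linarith) (by decide)
  · exact iff_of_false (fun g => by obtain ⟨⟨g1, g2, g3⟩, g4⟩ := (bb35 x).1 g; linarith) (by decide)
  · exact iff_of_false (fun g => by obtain ⟨⟨g1, g2, g3⟩, g4⟩ := (bb36 x).1 g; linarith) (by decide)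
  · exact iff_of_false (fun g => by obtain ⟨⟨g1, g2, g3⟩, g4⟩ := (bb37 x).1 g; linarith) (by decide)
  · exact iff_of_false (fun g => by obtain ⟨⟨g1, g2, g3⟩, g4⟩ := (bb38 x).1 g; linarith) (by decide)
  · exact iff_of_false (fun g => by obtain ⟨⟨g1, g2, g3⟩, g4⟩ := (bb39 x).1 g; linarith) (by decide)
  · exact iff_of_false (fun g => by obtain ⟨⟨g1, g2, g3⟩, g4⟩ := (bb40 x).1 g; linarith) (by decide)
  · exact iff_of_false (fun g => by obtain ⟨⟨g1, g2, g3⟩, g4⟩ := (bb41 x).1 g; linarith) (by decide)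
  · exact iff_of_false (fun g => by obtain ⟨⟨g1, g2, g3⟩, g4⟩ := (bb42 x).1 g; linarith) (by decide)
  · exact iff_of_false (fun g => by obtain ⟨⟨g1, g2, g3⟩, g4⟩ := (bb43 x).1 g; linarith) (by decide)
  · exact iff_of_false (fun g => by obtain ⟨⟨g1, g2, g3⟩, g4⟩ := (bb44 x).1 g; linarith) (by decide)
  · exact iff_of_false (fun g => by obtain ⟨g1, g2⟩ := (bb45 x).1 g; linarith) (by decide)
  · exact iff_of_false (fun g => by obtain ⟨g1, g2⟩ := (bb46 x).1 g; linarith) (by decide)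
  · exact iff_of_false (fun g => by obtain ⟨g1, g2⟩ := (bb47 x).1 g; linarith) (by decide)
  · exact iff_of_false (fun g => by obtain ⟨g1, g2⟩ := (bb48 x).1 g; linarith) (by decide)
  · exact iff_of_false (fun g => by obtain ⟨g1, g2⟩ := (bb49 x).1 g; linarith) (by decide)
  · exact iff_of_false (fun g => by obtain ⟨g1, g2⟩ := (bb50 x).1 g; linarith) (by decide)
  · exact iff_of_false (fun g => by obtain ⟨g1, g2⟩ := (bb51 x).1 g; linarith) (by decide)
  · exact iff_of_false (fun g => by obtain ⟨g1, g2⟩ := (bb52 x).1 g; linarith) (by decide)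

/-- the open cell 27 -/
theorem oo27 (x : ℂ) (h1 : -x.re - 2 * x.im + 4 = 0)
    (h2 : 0 < -x.re + 2 * x.im + 4)
    (h3 : 0 < 2 * x.re - 4) : ∀ κ < 53,
    (x ∈ bs κ ↔ (bm κ).testBit 27 = true) := by
  intro κ hκ
  interval_cases κ
  · exact iff_of_false (fun g => by obtain ⟨g1, g2, g3⟩ := (bb0 x).1 g; linarith) (by decide)
  · exact iff_of_false (fun g => by obtain ⟨g1, g2, g3⟩ := (bb1 x).1 g; linarith) (by decide)
  · exact iff_of_false (fun g => by obtain ⟨g1, g2, g3⟩ := (bb2 x).1 g; linarith) (by decide)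
  · exact iff_of_false (fun g => by obtain ⟨g1, g2, g3⟩ := (bb3 x).1 g; linarith) (by decide)
  · exact iff_of_false (fun g => by obtain ⟨g1, g2, g3⟩ := (bb4 x).1 g; linarith) (by decide)
  · exact iff_of_false (fun g => by obtain ⟨g1, g2, g3⟩ := (bb5 x).1 g; linarith) (by decide)
  · exact iff_of_false (fun g => by obtain ⟨g1, g2, g3⟩ := (bb6 x).1 g; linarith) (by decide)
  · exact iff_of_false (fun g => by obtain ⟨g1, g2, g3⟩ := (bb7 x).1 g; linarith) (by decide)
  · exact iff_of_true ((bb8 x).2 ⟨by linarith, by linarith, by linarith⟩) (by decide)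
  · exact iff_of_true ((bb9 x).2 ⟨by linarith, by linarith, by linarith⟩) (by decide)
  · exact iff_of_false (fun g => by obtain ⟨g1, g2, g3⟩ := (bb10 x).1 g; linarith) (by decide)
  · exact iff_of_false (fun g => by obtain ⟨g1, g2, g3⟩ := (bb11 x).1 g; linarith) (by decide)
  · exact iff_of_false (fun g => by obtain ⟨g1, g2, g3⟩ := (bb12 x).1 g; linarith) (by decide)
  · exact iff_of_false (fun g => by obtain ⟨g1, g2, g3⟩ := (bb13 x).1 g; linarith) (by decide)
  · exact iff_of_false (fun g => by obtain ⟨g1, g2, g3⟩ := (bb14 x).1 g; linarith) (by decide)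
  · exact iff_of_false (fun g => by obtain ⟨g1, g2, g3⟩ := (bb15 x).1 g; linarith) (by decide)
  · exact iff_of_false (fun g => by obtain ⟨g1, g2, g3⟩ := (bb16 x).1 g; linarith) (by decide)
  · exact iff_of_false (fun g => by obtain ⟨g1, g2, g3⟩ := (bb17 x).1 g; linarith) (by decide)
  · exact iff_of_false (fun g => by obtain ⟨⟨g1, g2, g3⟩, g4⟩ := (bb18 x).1 g; linarith) (by decide)
  · exact iff_of_false (fun g => by obtain ⟨⟨g1, g2, g3⟩, g4⟩ := (bb19 x).1 g; linarith) (by decide)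
  · exact iff_of_false (fun g => by obtain ⟨⟨g1, g2, g3⟩, g4⟩ := (bb20 x).1 g; linarith) (by decide)
  · exact iff_of_false (fun g => by obtain ⟨⟨g1, g2, g3⟩, g4⟩ := (bb21 x).1 g; linarith) (by decide)
  · exact iff_of_false (fun g => by obtain ⟨⟨g1, g2, g3⟩, g4⟩ := (bb22 x).1 g; linarith) (by decide)
  · exact iff_of_false (fun g => by obtain ⟨⟨g1, g2, g3⟩, g4⟩ := (bb23 x).1 g; linarith) (by decide)
  · exact iff_of_false (fun g => by obtain ⟨⟨g1, g2, g3⟩, g4⟩ := (bb24 x).1 g; linarith) (by decide)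
  · exact iff_of_false (fun g => by obtain ⟨⟨g1, g2, g3⟩, g4⟩ := (bb25 x).1 g; linarith) (by decide)
  · exact iff_of_false (fun g => by obtain ⟨⟨g1, g2, g3⟩, g4⟩ := (bb26 x).1 g; linarith) (by decide)
  · exact iff_of_true ((bb27 x).2 ⟨⟨by linarith, by linarith, by linarith⟩, by linarith⟩) (by decide)
  · exact iff_of_false (fun g => by obtain ⟨⟨g1, g2, g3⟩, g4⟩ := (bb28 x).1 g; linarith) (by decide)
  · exact iff_of_false (fun g => by obtain ⟨⟨g1, g2, g3⟩, g4⟩ := (bb29 x).1 g; linarith) (by decide)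
  · exact iff_of_false (fun g => by obtain ⟨⟨g1, g2, g3⟩, g4⟩ := (bb30 x).1 g; linarith) (by decide)
  · exact iff_of_false (fun g => by obtain ⟨⟨g1, g2, g3⟩, g4⟩ := (bb31 x).1 g; linarith) (by decide)
  · exact iff_of_false (fun g => by obtain ⟨⟨g1, g2, g3⟩, g4⟩ := (bb32 x).1 g; linarith) (by decide)
  · exact iff_of_false (fun g => by obtain ⟨⟨g1, g2, g3⟩, g4⟩ := (bb33 x).1 g; linarith) (by decide)
  · exact iff_of_false (fun g => by obtain ⟨⟨g1, g2, g3⟩, g4⟩ := (bb34 x).1 g; linarith) (by decide)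
  · exact iff_of_false (fun g => by obtain ⟨⟨g1, g2, g3⟩, g4⟩ := (bb35 x).1 g; linarith) (by decide)
  · exact iff_of_false (fun g => by obtain ⟨⟨g1, g2, g3⟩, g4⟩ := (bb36 x).1 g; linarith) (by decide)
  · exact iff_of_false (fun g => by obtain ⟨⟨g1, g2, g3⟩, g4⟩ := (bb37 x).1 g; linarith) (by decide)
  · exact iff_of_false (fun g => by obtain ⟨⟨g1, g2, g3⟩, g4⟩ := (bb38 x).1 g; linarith) (by decide)
  · exact iff_of_false (fun g => by obtain ⟨⟨g1, g2, g3⟩, g4⟩ := (bb39 x).1 g; linarith) (by decide)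
  · exact iff_of_false (fun g => by obtain ⟨⟨g1, g2, g3⟩, g4⟩ := (bb40 x).1 g; linarith) (by decide)
  · exact iff_of_false (fun g => by obtain ⟨⟨g1, g2, g3⟩, g4⟩ := (bb41 x).1 g; linarith) (by decide)
  · exact iff_of_false (fun g => by obtain ⟨⟨g1, g2, g3⟩, g4⟩ := (bb42 x).1 g; linarith) (by decide)
  · exact iff_of_false (fun g => by obtain ⟨⟨g1, g2, g3⟩, g4⟩ := (bb43 x).1 g; linarith) (by decide)
  · exact iff_of_false (fun g => by obtain ⟨⟨g1, g2, g3⟩, g4⟩ := (bb44 x).1 g; linarith) (by decide)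
  · exact iff_of_false (fun g => by obtain ⟨g1, g2⟩ := (bb45 x).1 g; linarith) (by decide)
  · exact iff_of_false (fun g => by obtain ⟨g1, g2⟩ := (bb46 x).1 g; linarith) (by decide)
  · exact iff_of_false (fun g => by obtain ⟨g1, g2⟩ := (bb47 x).1 g; linarith) (by decide)
  · exact iff_of_false (fun g => by obtain ⟨g1, g2⟩ := (bb48 x).1 g; linarith) (by decide)
  · exact iff_of_false (fun g => by obtain ⟨g1, g2⟩ := (bb49 x).1 g; linarith) (by decide)
  · exact iff_of_false (fun g => by obtain ⟨g1, g2⟩ := (bb50 x).1 g; linarith) (by decide)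
  · exact iff_of_false (fun g => by obtain ⟨g1, g2⟩ := (bb51 x).1 g; linarith) (by decide)
  · exact iff_of_false (fun g => by obtain ⟨g1, g2⟩ := (bb52 x).1 g; linarith) (by decide)

/-- the open cell 28 -/
theorem oo28 (x : ℂ) (h1 : x.re - 2 * x.im - 4 = 0)
    (h2 : 0 < -(2 * x.re) + 2 * x.im + 8)
    (h3 : 0 < x.re - 2) : ∀ κ < 53,
    (x ∈ bs κ ↔ (bm κ).testBit 28 = true) := by
  intro κ hκ
  interval_cases κ
  · exact iff_of_false (fun g => by obtain ⟨g1, g2, g3⟩ := (bb0 x).1 g; linarith) (by decide)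
  · exact iff_of_false (fun g => by obtain ⟨g1, g2, g3⟩ := (bb1 x).1 g; linarith) (by decide)
  · exact iff_of_false (fun g => by obtain ⟨g1, g2, g3⟩ := (bb2 x).1 g; linarith) (by decide)
  · exact iff_of_false (fun g => by obtain ⟨g1, g2, g3⟩ := (bb3 x).1 g; linarith) (by decide)
  · exact iff_of_false (fun g => by obtain ⟨g1, g2, g3⟩ := (bb4 x).1 g; linarith) (by decide)
  · exact iff_of_false (fun g => by obtain ⟨g1, g2, g3⟩ := (bb5 x).1 g; linarith) (by decide)
  · exact iff_of_false (fun g => by obtain ⟨g1, g2, g3⟩ := (bb6 x).1 g; linarith) (by decide)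
  · exact iff_of_false (fun g => by obtain ⟨g1, g2, g3⟩ := (bb7 x).1 g; linarith) (by decide)
  · exact iff_of_false (fun g => by obtain ⟨g1, g2, g3⟩ := (bb8 x).1 g; linarith) (by decide)
  · exact iff_of_true ((bb9 x).2 ⟨by linarith, by linarith, by linarith⟩) (by decide)
  · exact iff_of_true ((bb10 x).2 ⟨by linarith, by linarith, by linarith⟩) (by decide)
  · exact iff_of_false (fun g => by obtain ⟨g1, g2, g3⟩ := (bb11 x).1 g; linarith) (by decide)
  · exact iff_of_false (fun g => by obtain ⟨g1, g2, g3⟩ := (bb12 x).1 g; linarith) (by decide)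
  · exact iff_of_false (fun g => by obtain ⟨g1, g2, g3⟩ := (bb13 x).1 g; linarith) (by decide)
  · exact iff_of_false (fun g => by obtain ⟨g1, g2, g3⟩ := (bb14 x).1 g; linarith) (by decide)
  · exact iff_of_false (fun g => by obtain ⟨g1, g2, g3⟩ := (bb15 x).1 g; linarith) (by decide)
  · exact iff_of_false (fun g => by obtain ⟨g1, g2, g3⟩ := (bb16 x).1 g; linarith) (by decide)
  · exact iff_of_false (fun g => by obtain ⟨g1, g2, g3⟩ := (bb17 x).1 g; linarith) (by decide)
  · exact iff_of_false (fun g => by obtain ⟨⟨g1, g2, g3⟩, g4⟩ := (bb18 x).1 g; linarith) (by decide)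
  · exact iff_of_false (fun g => by obtain ⟨⟨g1, g2, g3⟩, g4⟩ := (bb19 x).1 g; linarith) (by decide)
  · exact iff_of_false (fun g => by obtain ⟨⟨g1, g2, g3⟩, g4⟩ := (bb20 x).1 g; linarith) (by decide)
  · exact iff_of_false (fun g => by obtain ⟨⟨g1, g2, g3⟩, g4⟩ := (bb21 x).1 g; linarith) (by decide)
  · exact iff_of_false (fun g => by obtain ⟨⟨g1, g2, g3⟩, g4⟩ := (bb22 x).1 g; linarith) (by decide)
  · exact iff_of_false (fun g => by obtain ⟨⟨g1, g2, g3⟩, g4⟩ := (bb23 x).1 g; linarith) (by decide)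
  · exact iff_of_false (fun g => by obtain ⟨⟨g1, g2, g3⟩, g4⟩ := (bb24 x).1 g; linarith) (by decide)
  · exact iff_of_false (fun g => by obtain ⟨⟨g1, g2, g3⟩, g4⟩ := (bb25 x).1 g; linarith) (by decide)
  · exact iff_of_false (fun g => by obtain ⟨⟨g1, g2, g3⟩, g4⟩ := (bb26 x).1 g; linarith) (by decide)
  · exact iff_of_false (fun g => by obtain ⟨⟨g1, g2, g3⟩, g4⟩ := (bb27 x).1 g; linarith) (by decide)
  · exact iff_of_true ((bb28 x).2 ⟨⟨by linarith, by linarith, by linarith⟩, by linarith⟩) (by decide)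
  · exact iff_of_false (fun g => by obtain ⟨⟨g1, g2, g3⟩, g4⟩ := (bb29 x).1 g; linarith) (by decide)
  · exact iff_of_false (fun g => by obtain ⟨⟨g1, g2, g3⟩, g4⟩ := (bb30 x).1 g; linarith) (by decide)
  · exact iff_of_false (fun g => by obtain ⟨⟨g1, g2, g3⟩, g4⟩ := (bb31 x).1 g; linarith) (by decide)
  · exact iff_of_false (fun g => by obtain ⟨⟨g1, g2, g3⟩, g4⟩ := (bb32 x).1 g; linarith) (by decide)
  · exact iff_of_false (fun g => by obtain ⟨⟨g1, g2, g3⟩, g4⟩ := (bb33 x).1 g; linarith) (by decide)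
  · exact iff_of_false (fun g => by obtain ⟨⟨g1, g2, g3⟩, g4⟩ := (bb34 x).1 g; linarith) (by decide)
  · exact iff_of_false (fun g => by obtain ⟨⟨g1, g2, g3⟩, g4⟩ := (bb35 x).1 g; linarith) (by decide)
  · exact iff_of_false (fun g => by obtain ⟨⟨g1, g2, g3⟩, g4⟩ := (bb36 x).1 g; linarith) (by decide)
  · exact iff_of_false (fun g => by obtain ⟨⟨g1, g2, g3⟩, g4⟩ := (bb37 x).1 g; linarith) (by decide)
  · exact iff_of_false (fun g => by obtain ⟨⟨g1, g2, g3⟩, g4⟩ := (bb38 x).1 g; linarith) (by decide)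
  · exact iff_of_false (fun g => by obtain ⟨⟨g1, g2, g3⟩, g4⟩ := (bb39 x).1 g; linarith) (by decide)
  · exact iff_of_false (fun g => by obtain ⟨⟨g1, g2, g3⟩, g4⟩ := (bb40 x).1 g; linarith) (by decide)
  · exact iff_of_false (fun g => by obtain ⟨⟨g1, g2, g3⟩, g4⟩ := (bb41 x).1 g; linarith) (by decide)
  · exact iff_of_false (fun g => by obtain ⟨⟨g1, g2, g3⟩, g4⟩ := (bb42 x).1 g; linarith) (by decide)
  · exact iff_of_false (fun g => by obtain ⟨⟨g1, g2, g3⟩, g4⟩ := (bb43 x).1 g; linarith) (by decide)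
  · exact iff_of_false (fun g => by obtain ⟨⟨g1, g2, g3⟩, g4⟩ := (bb44 x).1 g; linarith) (by decide)
  · exact iff_of_false (fun g => by obtain ⟨g1, g2⟩ := (bb45 x).1 g; linarith) (by decide)
  · exact iff_of_false (fun g => by obtain ⟨g1, g2⟩ := (bb46 x).1 g; linarith) (by decide)
  · exact iff_of_false (fun g => by obtain ⟨g1, g2⟩ := (bb47 x).1 g; linarith) (by decide)
  · exact iff_of_false (fun g => by obtain ⟨g1, g2⟩ := (bb48 x).1 g; linarith) (by decide)
  · exact iff_of_false (fun g => by obtain ⟨g1, g2⟩ := (bb49 x).1 g; linarith) (by decide)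
  · exact iff_of_false (fun g => by obtain ⟨g1, g2⟩ := (bb50 x).1 g; linarith) (by decide)
  · exact iff_of_false (fun g => by obtain ⟨g1, g2⟩ := (bb51 x).1 g; linarith) (by decide)
  · exact iff_of_false (fun g => by obtain ⟨g1, g2⟩ := (bb52 x).1 g; linarith) (by decide)

/-- the open cell 29 -/
theorem oo29 (x : ℂ) (h1 : 2 * x.re - 2 * x.im - 8 = 0)
    (h2 : 0 < -(2 * x.re) - 2 * x.im + 8)
    (h3 : 0 < 4 * x.im + 8) : ∀ κ < 53,
    (x ∈ bs κ ↔ (bm κ).testBit 29 = true) := by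
  intro κ hκ
  interval_cases κ
  · exact iff_of_false (fun g => by obtain ⟨g1, g2, g3⟩ := (bb0 x).1 g; linarith) (by decide)
  · exact iff_of_false (fun g => by obtain ⟨g1, g2, g3⟩ := (bb1 x).1 g; linarith) (by decide)
  · exact iff_of_false (fun g => by obtain ⟨g1, g2, g3⟩ := (bb2 x).1 g; linarith) (by decide)
  · exact iff_of_false (fun g => by obtain ⟨g1, g2, g3⟩ := (bb3 x).1 g; linarith) (by decide)
  · exact iff_of_false (fun g => by obtain ⟨g1, g2, g3⟩ := (bb4 x).1 g; linarith) (by decide)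
  · exact iff_of_false (fun g => by obtain ⟨g1, g2, g3⟩ := (bb5 x).1 g; linarith) (by decide)
  · exact iff_of_false (fun g => by obtain ⟨g1, g2, g3⟩ := (bb6 x).1 g; linarith) (by decide)
  · exact iff_of_false (fun g => by obtain ⟨g1, g2, g3⟩ := (bb7 x).1 g; linarith) (by decide)
  · exact iff_of_false (fun g => by obtain ⟨g1, g2, g3⟩ := (bb8 x).1 g; linarith) (by decide)
  · exact iff_of_false (fun g => by obtain ⟨g1, g2, g3⟩ := (bb9 x).1 g; linarith) (by decide)
  · exact iff_of_true ((bb10 x).2 ⟨by linarith, by linarith, by linarith⟩) (by decide)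
  · exact iff_of_true ((bb11 x).2 ⟨by linarith, by linarith, by linarith⟩) (by decide)
  · exact iff_of_false (fun g => by obtain ⟨g1, g2, g3⟩ := (bb12 x).1 g; linarith) (by decide)
  · exact iff_of_false (fun g => by obtain ⟨g1, g2, g3⟩ := (bb13 x).1 g; linarith) (by decide)
  · exact iff_of_false (fun g => by obtain ⟨g1, g2, g3⟩ := (bb14 x).1 g; linarith) (by decide)
  · exact iff_of_false (fun g => by obtain ⟨g1, g2, g3⟩ := (bb15 x).1 g; linarith) (by decide)
  · exact iff_of_false (fun g => by obtain ⟨g1, g2, g3⟩ := (bb16 x).1 g; linarith) (by decide)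
  · exact iff_of_false (fun g => by obtain ⟨g1, g2, g3⟩ := (bb17 x).1 g; linarith) (by decide)
  · exact iff_of_false (fun g => by obtain ⟨⟨g1, g2, g3⟩, g4⟩ := (bb18 x).1 g; linarith) (by decide)
  · exact iff_of_false (fun g => by obtain ⟨⟨g1, g2, g3⟩, g4⟩ := (bb19 x).1 g; linarith) (by decide)
  · exact iff_of_false (fun g => by obtain ⟨⟨g1, g2, g3⟩, g4⟩ := (bb20 x).1 g; linarith) (by decide)
  · exact iff_of_false (fun g => by obtain ⟨⟨g1, g2, g3⟩, g4⟩ := (bb21 x).1 g; linarith) (by decide)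
  · exact iff_of_false (fun g => by obtain ⟨⟨g1, g2, g3⟩, g4⟩ := (bb22 x).1 g; linarith) (by decide)
  · exact iff_of_false (fun g => by obtain ⟨⟨g1, g2, g3⟩, g4⟩ := (bb23 x).1 g; linarith) (by decide)
  · exact iff_of_false (fun g => by obtain ⟨⟨g1, g2, g3⟩, g4⟩ := (bb24 x).1 g; linarith) (by decide)
  · exact iff_of_false (fun g => by obtain ⟨⟨g1, g2, g3⟩, g4⟩ := (bb25 x).1 g; linarith) (by decide)
  · exact iff_of_false (fun g => by obtain ⟨⟨g1, g2, g3⟩, g4⟩ := (bb26 x).1 g; linarith) (by decide)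
  · exact iff_of_false (fun g => by obtain ⟨⟨g1, g2, g3⟩, g4⟩ := (bb27 x).1 g; linarith) (by decide)
  · exact iff_of_false (fun g => by obtain ⟨⟨g1, g2, g3⟩, g4⟩ := (bb28 x).1 g; linarith) (by decide)
  · exact iff_of_true ((bb29 x).2 ⟨⟨by linarith, by linarith, by linarith⟩, by linarith⟩) (by decide)
  · exact iff_of_false (fun g => by obtain ⟨⟨g1, g2, g3⟩, g4⟩ := (bb30 x).1 g; linarith) (by decide)
  · exact iff_of_false (fun g => by obtain ⟨⟨g1, g2, g3⟩, g4⟩ := (bb31 x).1 g; linarith) (by decide)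
  · exact iff_of_false (fun g => by obtain ⟨⟨g1, g2, g3⟩, g4⟩ := (bb32 x).1 g; linarith) (by decide)
  · exact iff_of_false (fun g => by obtain ⟨⟨g1, g2, g3⟩, g4⟩ := (bb33 x).1 g; linarith) (by decide)
  · exact iff_of_false (fun g => by obtain ⟨⟨g1, g2, g3⟩, g4⟩ := (bb34 x).1 g; linarith) (by decide)
  · exact iff_of_false (fun g => by obtain ⟨⟨g1, g2, g3⟩, g4⟩ := (bb35 x).1 g; linarith) (by decide)
  · exact iff_of_false (fun g => by obtain ⟨⟨g1, g2, g3⟩, g4⟩ := (bb36 x).1 g; linarith) (by decide)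
  · exact iff_of_false (fun g => by obtain ⟨⟨g1, g2, g3⟩, g4⟩ := (bb37 x).1 g; linarith) (by decide)
  · exact iff_of_false (fun g => by obtain ⟨⟨g1, g2, g3⟩, g4⟩ := (bb38 x).1 g; linarith) (by decide)
  · exact iff_of_false (fun g => by obtain ⟨⟨g1, g2, g3⟩, g4⟩ := (bb39 x).1 g; linarith) (by decide)
  · exact iff_of_false (fun g => by obtain ⟨⟨g1, g2, g3⟩, g4⟩ := (bb40 x).1 g; linarith) (by decide)
  · exact iff_of_false (fun g => by obtain ⟨⟨g1, g2, g3⟩, g4⟩ := (bb41 x).1 g; linarith) (by decide)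
  · exact iff_of_false (fun g => by obtain ⟨⟨g1, g2, g3⟩, g4⟩ := (bb42 x).1 g; linarith) (by decide)
  · exact iff_of_false (fun g => by obtain ⟨⟨g1, g2, g3⟩, g4⟩ := (bb43 x).1 g; linarith) (by decide)
  · exact iff_of_false (fun g => by obtain ⟨⟨g1, g2, g3⟩, g4⟩ := (bb44 x).1 g; linarith) (by decide)
  · exact iff_of_false (fun g => by obtain ⟨g1, g2⟩ := (bb45 x).1 g; linarith) (by decide)
  · exact iff_of_false (fun g => by obtain ⟨g1, g2⟩ := (bb46 x).1 g; linarith) (by decide)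
  · exact iff_of_false (fun g => by obtain ⟨g1, g2⟩ := (bb47 x).1 g; linarith) (by decide)
  · exact iff_of_false (fun g => by obtain ⟨g1, g2⟩ := (bb48 x).1 g; linarith) (by decide)
  · exact iff_of_false (fun g => by obtain ⟨g1, g2⟩ := (bb49 x).1 g; linarith) (by decide)
  · exact iff_of_false (fun g => by obtain ⟨g1, g2⟩ := (bb50 x).1 g; linarith) (by decide)
  · exact iff_of_false (fun g => by obtain ⟨g1, g2⟩ := (bb51 x).1 g; linarith) (by decide)
  · exact iff_of_false (fun g => by obtain ⟨g1, g2⟩ := (bb52 x).1 g; linarith) (by decide)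

/-- the open cell 30 -/
theorem oo30 (x : ℂ) (h1 : 2 * x.re + 6 * x.im = 0)
    (h2 : 0 < 2 * x.re - 6 * x.im)
    (h3 : 0 < 4 * x.re - 24) : ∀ κ < 53,
    (x ∈ bs κ ↔ (bm κ).testBit 30 = true) := by
  intro κ hκ
  interval_cases κ
  · exact iff_of_false (fun g => by obtain ⟨g1, g2, g3⟩ := (bb0 x).1 g; linarith) (by decide)
  · exact iff_of_false (fun g => by obtain ⟨g1, g2, g3⟩ := (bb1 x).1 g; linarith) (by decide)
  · exact iff_of_false (fun g => by obtain ⟨g1, g2, g3⟩ := (bb2 x).1 g; linarith) (by decide)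
  · exact iff_of_false (fun g => by obtain ⟨g1, g2, g3⟩ := (bb3 x).1 g; linarith) (by decide)
  · exact iff_of_false (fun g => by obtain ⟨g1, g2, g3⟩ := (bb4 x).1 g; linarith) (by decide)
  · exact iff_of_false (fun g => by obtain ⟨g1, g2, g3⟩ := (bb5 x).1 g; linarith) (by decide)
  · exact iff_of_false (fun g => by obtain ⟨g1, g2, g3⟩ := (bb6 x).1 g; linarith) (by decide)
  · exact iff_of_false (fun g => by obtain ⟨g1, g2, g3⟩ := (bb7 x).1 g; linarith) (by decide)
  · exact iff_of_false (fun g => by obtain ⟨g1, g2, g3⟩ := (bb8 x).1 g; linarith) (by decide)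
  · exact iff_of_false (fun g => by obtain ⟨g1, g2, g3⟩ := (bb9 x).1 g; linarith) (by decide)
  · exact iff_of_false (fun g => by obtain ⟨g1, g2, g3⟩ := (bb10 x).1 g; linarith) (by decide)
  · exact iff_of_false (fun g => by obtain ⟨g1, g2, g3⟩ := (bb11 x).1 g; linarith) (by decide)
  · exact iff_of_true ((bb12 x).2 ⟨by linarith, by linarith, by linarith⟩) (by decide)
  · exact iff_of_false (fun g => by obtain ⟨g1, g2, g3⟩ := (bb13 x).1 g; linarith) (by decide)
  · exact iff_of_false (fun g => by obtain ⟨g1, g2, g3⟩ := (bb14 x).1 g; linarith) (by decide)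
  · exact iff_of_false (fun g => by obtain ⟨g1, g2, g3⟩ := (bb15 x).1 g; linarith) (by decide)
  · exact iff_of_false (fun g => by obtain ⟨g1, g2, g3⟩ := (bb16 x).1 g; linarith) (by decide)
  · exact iff_of_true ((bb17 x).2 ⟨by linarith, by linarith, by linarith⟩) (by decide)
  · exact iff_of_false (fun g => by obtain ⟨⟨g1, g2, g3⟩, g4⟩ := (bb18 x).1 g; linarith) (by decide)
  · exact iff_of_false (fun g => by obtain ⟨⟨g1, g2, g3⟩, g4⟩ := (bb19 x).1 g; linarith) (by decide)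
  · exact iff_of_false (fun g => by obtain ⟨⟨g1, g2, g3⟩, g4⟩ := (bb20 x).1 g; linarith) (by decide)
  · exact iff_of_false (fun g => by obtain ⟨⟨g1, g2, g3⟩, g4⟩ := (bb21 x).1 g; linarith) (by decide)
  · exact iff_of_false (fun g => by obtain ⟨⟨g1, g2, g3⟩, g4⟩ := (bb22 x).1 g; linarith) (by decide)
  · exact iff_of_false (fun g => by obtain ⟨⟨g1, g2, g3⟩, g4⟩ := (bb23 x).1 g; linarith) (by decide)
  · exact iff_of_false (fun g => by obtain ⟨⟨g1, g2, g3⟩, g4⟩ := (bb24 x).1 g; linarith) (by decide)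
  · exact iff_of_false (fun g => by obtain ⟨⟨g1, g2, g3⟩, g4⟩ := (bb25 x).1 g; linarith) (by decide)
  · exact iff_of_false (fun g => by obtain ⟨⟨g1, g2, g3⟩, g4⟩ := (bb26 x).1 g; linarith) (by decide)
  · exact iff_of_false (fun g => by obtain ⟨⟨g1, g2, g3⟩, g4⟩ := (bb27 x).1 g; linarith) (by decide)
  · exact iff_of_false (fun g => by obtain ⟨⟨g1, g2, g3⟩, g4⟩ := (bb28 x).1 g; linarith) (by decide)
  · exact iff_of_false (fun g => by obtain ⟨⟨g1, g2, g3⟩, g4⟩ := (bb29 x).1 g; linarith) (by decide)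
  · exact iff_of_true ((bb30 x).2 ⟨⟨by linarith, by linarith, by linarith⟩, by linarith⟩) (by decide)
  · exact iff_of_false (fun g => by obtain ⟨⟨g1, g2, g3⟩, g4⟩ := (bb31 x).1 g; linarith) (by decide)
  · exact iff_of_false (fun g => by obtain ⟨⟨g1, g2, g3⟩, g4⟩ := (bb32 x).1 g; linarith) (by decide)
  · exact iff_of_false (fun g => by obtain ⟨⟨g1, g2, g3⟩, g4⟩ := (bb33 x).1 g; linarith) (by decide)
  · exact iff_of_false (fun g => by obtain ⟨⟨g1, g2, g3⟩, g4⟩ := (bb34 x).1 g; linarith) (by decide)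
  · exact iff_of_false (fun g => by obtain ⟨⟨g1, g2, g3⟩, g4⟩ := (bb35 x).1 g; linarith) (by decide)
  · exact iff_of_false (fun g => by obtain ⟨⟨g1, g2, g3⟩, g4⟩ := (bb36 x).1 g; linarith) (by decide)
  · exact iff_of_false (fun g => by obtain ⟨⟨g1, g2, g3⟩, g4⟩ := (bb37 x).1 g; linarith) (by decide)
  · exact iff_of_false (fun g => by obtain ⟨⟨g1, g2, g3⟩, g4⟩ := (bb38 x).1 g; linarith) (by decide)
  · exact iff_of_false (fun g => by obtain ⟨⟨g1, g2, g3⟩, g4⟩ := (bb39 x).1 g; linarith) (by decide)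
  · exact iff_of_false (fun g => by obtain ⟨⟨g1, g2, g3⟩, g4⟩ := (bb40 x).1 g; linarith) (by decide)
  · exact iff_of_false (fun g => by obtain ⟨⟨g1, g2, g3⟩, g4⟩ := (bb41 x).1 g; linarith) (by decide)
  · exact iff_of_false (fun g => by obtain ⟨⟨g1, g2, g3⟩, g4⟩ := (bb42 x).1 g; linarith) (by decide)
  · exact iff_of_false (fun g => by obtain ⟨⟨g1, g2, g3⟩, g4⟩ := (bb43 x).1 g; linarith) (by decide)
  · exact iff_of_false (fun g => by obtain ⟨⟨g1, g2, g3⟩, g4⟩ := (bb44 x).1 g; linarith) (by decide)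
  · exact iff_of_false (fun g => by obtain ⟨g1, g2⟩ := (bb45 x).1 g; linarith) (by decide)
  · exact iff_of_false (fun g => by obtain ⟨g1, g2⟩ := (bb46 x).1 g; linarith) (by decide)
  · exact iff_of_false (fun g => by obtain ⟨g1, g2⟩ := (bb47 x).1 g; linarith) (by decide)
  · exact iff_of_false (fun g => by obtain ⟨g1, g2⟩ := (bb48 x).1 g; linarith) (by decide)
  · exact iff_of_false (fun g => by obtain ⟨g1, g2⟩ := (bb49 x).1 g; linarith) (by decide)
  · exact iff_of_false (fun g => by obtain ⟨g1, g2⟩ := (bb50 x).1 g; linarith) (by decide)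
  · exact iff_of_false (fun g => by obtain ⟨g1, g2⟩ := (bb51 x).1 g; linarith) (by decide)
  · exact iff_of_false (fun g => by obtain ⟨g1, g2⟩ := (bb52 x).1 g; linarith) (by decide)

/-- the open cell 31 -/
theorem oo31 (x : ℂ) (h1 : -(2 * x.re) + 6 * x.im = 0)
    (h2 : 0 < 2 * x.re - 2 * x.im)
    (h3 : 0 < 4 * x.im - 8) : ∀ κ < 53,
    (x ∈ bs κ ↔ (bm κ).testBit 31 = true) := by
  intro κ hκ
  interval_cases κ
  · exact iff_of_false (fun g => by obtain ⟨g1, g2, g3⟩ := (bb0 x).1 g; linarith) (by decide)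
  · exact iff_of_false (fun g => by obtain ⟨g1, g2, g3⟩ := (bb1 x).1 g; linarith) (by decide)
  · exact iff_of_false (fun g => by obtain ⟨g1, g2, g3⟩ := (bb2 x).1 g; linarith) (by decide)
  · exact iff_of_false (fun g => by obtain ⟨g1, g2, g3⟩ := (bb3 x).1 g; linarith) (by decide)
  · exact iff_of_false (fun g => by obtain ⟨g1, g2, g3⟩ := (bb4 x).1 g; linarith) (by decide)
  · exact iff_of_false (fun g => by obtain ⟨g1, g2, g3⟩ := (bb5 x).1 g; linarith) (by decide)
  · exact iff_of_false (fun g => by obtain ⟨g1, g2, g3⟩ := (bb6 x).1 g; linarith) (by decide)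
  · exact iff_of_false (fun g => by obtain ⟨g1, g2, g3⟩ := (bb7 x).1 g; linarith) (by decide)
  · exact iff_of_false (fun g => by obtain ⟨g1, g2, g3⟩ := (bb8 x).1 g; linarith) (by decide)
  · exact iff_of_false (fun g => by obtain ⟨g1, g2, g3⟩ := (bb9 x).1 g; linarith) (by decide)
  · exact iff_of_false (fun g => by obtain ⟨g1, g2, g3⟩ := (bb10 x).1 g; linarith) (by decide)
  · exact iff_of_false (fun g => by obtain ⟨g1, g2, g3⟩ := (bb11 x).1 g; linarith) (by decide)
  · exact iff_of_true ((bb12 x).2 ⟨by linarith, by linarith, by linarith⟩) (by decide)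
  · exact iff_of_true ((bb13 x).2 ⟨by linarith, by linarith, by linarith⟩) (by decide)
  · exact iff_of_false (fun g => by obtain ⟨g1, g2, g3⟩ := (bb14 x).1 g; linarith) (by decide)
  · exact iff_of_false (fun g => by obtain ⟨g1, g2, g3⟩ := (bb15 x).1 g; linarith) (by decide)
  · exact iff_of_false (fun g => by obtain ⟨g1, g2, g3⟩ := (bb16 x).1 g; linarith) (by decide)
  · exact iff_of_false (fun g => by obtain ⟨g1, g2, g3⟩ := (bb17 x).1 g; linarith) (by decide)
  · exact iff_of_false (fun g => by obtain ⟨⟨g1, g2, g3⟩, g4⟩ := (bb18 x).1 g; linarith) (by decide)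
  · exact iff_of_false (fun g => by obtain ⟨⟨g1, g2, g3⟩, g4⟩ := (bb19 x).1 g; linarith) (by decide)
  · exact iff_of_false (fun g => by obtain ⟨⟨g1, g2, g3⟩, g4⟩ := (bb20 x).1 g; linarith) (by decide)
  · exact iff_of_false (fun g => by obtain ⟨⟨g1, g2, g3⟩, g4⟩ := (bb21 x).1 g; linarith) (by decide)
  · exact iff_of_false (fun g => by obtain ⟨⟨g1, g2, g3⟩, g4⟩ := (bb22 x).1 g; linarith) (by decide)
  · exact iff_of_false (fun g => by obtain ⟨⟨g1, g2, g3⟩, g4⟩ := (bb23 x).1 g; linarith) (by decide)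
  · exact iff_of_false (fun g => by obtain ⟨⟨g1, g2, g3⟩, g4⟩ := (bb24 x).1 g; linarith) (by decide)
  · exact iff_of_false (fun g => by obtain ⟨⟨g1, g2, g3⟩, g4⟩ := (bb25 x).1 g; linarith) (by decide)
  · exact iff_of_false (fun g => by obtain ⟨⟨g1, g2, g3⟩, g4⟩ := (bb26 x).1 g; linarith) (by decide)
  · exact iff_of_false (fun g => by obtain ⟨⟨g1, g2, g3⟩, g4⟩ := (bb27 x).1 g; linarith) (by decide)
  · exact iff_of_false (fun g => by obtain ⟨⟨g1, g2, g3⟩, g4⟩ := (bb28 x).1 g; linarith) (by decide)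
  · exact iff_of_false (fun g => by obtain ⟨⟨g1, g2, g3⟩, g4⟩ := (bb29 x).1 g; linarith) (by decide)
  · exact iff_of_false (fun g => by obtain ⟨⟨g1, g2, g3⟩, g4⟩ := (bb30 x).1 g; linarith) (by decide)
  · exact iff_of_true ((bb31 x).2 ⟨⟨by linarith, by linarith, by linarith⟩, by linarith⟩) (by decide)
  · exact iff_of_false (fun g => by obtain ⟨⟨g1, g2, g3⟩, g4⟩ := (bb32 x).1 g; linarith) (by decide)
  · exact iff_of_false (fun g => by obtain ⟨⟨g1, g2, g3⟩, g4⟩ := (bb33 x).1 g; linarith) (by decide)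
  · exact iff_of_false (fun g => by obtain ⟨⟨g1, g2, g3⟩, g4⟩ := (bb34 x).1 g; linarith) (by decide)
  · exact iff_of_false (fun g => by obtain ⟨⟨g1, g2, g3⟩, g4⟩ := (bb35 x).1 g; linarith) (by decide)
  · exact iff_of_false (fun g => by obtain ⟨⟨g1, g2, g3⟩, g4⟩ := (bb36 x).1 g; linarith) (by decide)
  · exact iff_of_false (fun g => by obtain ⟨⟨g1, g2, g3⟩, g4⟩ := (bb37 x).1 g; linarith) (by decide)
  · exact iff_of_false (fun g => by obtain ⟨⟨g1, g2, g3⟩, g4⟩ := (bb38 x).1 g; linarith) (by decide)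
  · exact iff_of_false (fun g => by obtain ⟨⟨g1, g2, g3⟩, g4⟩ := (bb39 x).1 g; linarith) (by decide)
  · exact iff_of_false (fun g => by obtain ⟨⟨g1, g2, g3⟩, g4⟩ := (bb40 x).1 g; linarith) (by decide)
  · exact iff_of_false (fun g => by obtain ⟨⟨g1, g2, g3⟩, g4⟩ := (bb41 x).1 g; linarith) (by decide)
  · exact iff_of_false (fun g => by obtain ⟨⟨g1, g2, g3⟩, g4⟩ := (bb42 x).1 g; linarith) (by decide)
  · exact iff_of_false (fun g => by obtain ⟨⟨g1, g2, g3⟩, g4⟩ := (bb43 x).1 g; linarith) (by decide)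
  · exact iff_of_false (fun g => by obtain ⟨⟨g1, g2, g3⟩, g4⟩ := (bb44 x).1 g; linarith) (by decide)
  · exact iff_of_false (fun g => by obtain ⟨g1, g2⟩ := (bb45 x).1 g; linarith) (by decide)
  · exact iff_of_false (fun g => by obtain ⟨g1, g2⟩ := (bb46 x).1 g; linarith) (by decide)
  · exact iff_of_false (fun g => by obtain ⟨g1, g2⟩ := (bb47 x).1 g; linarith) (by decide)
  · exact iff_of_false (fun g => by obtain ⟨g1, g2⟩ := (bb48 x).1 g; linarith) (by decide)
  · exact iff_of_false (fun g => by obtain ⟨g1, g2⟩ := (bb49 x).1 g; linarith) (by decide)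
  · exact iff_of_false (fun g => by obtain ⟨g1, g2⟩ := (bb50 x).1 g; linarith) (by decide)
  · exact iff_of_false (fun g => by obtain ⟨g1, g2⟩ := (bb51 x).1 g; linarith) (by decide)
  · exact iff_of_false (fun g => by obtain ⟨g1, g2⟩ := (bb52 x).1 g; linarith) (by decide)

/-- the open cell 32 -/
theorem oo32 (x : ℂ) (h1 : -(2 * x.re) + 2 * x.im = 0)
    (h2 : 0 < 2 * x.re + 2 * x.im)
    (h3 : 0 < 4 * x.im - 8) : ∀ κ < 53,
    (x ∈ bs κ ↔ (bm κ).testBit 32 = true) := by
  intro κ hκ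
  interval_cases κ
  · exact iff_of_false (fun g => by obtain ⟨g1, g2, g3⟩ := (bb0 x).1 g; linarith) (by decide)
  · exact iff_of_false (fun g => by obtain ⟨g1, g2, g3⟩ := (bb1 x).1 g; linarith) (by decide)
  · exact iff_of_false (fun g => by obtain ⟨g1, g2, g3⟩ := (bb2 x).1 g; linarith) (by decide)
  · exact iff_of_false (fun g => by obtain ⟨g1, g2, g3⟩ := (bb3 x).1 g; linarith) (by decide)
  · exact iff_of_false (fun g => by obtain ⟨g1, g2, g3⟩ := (bb4 x).1 g; linarith) (by decide)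
  · exact iff_of_false (fun g => by obtain ⟨g1, g2, g3⟩ := (bb5 x).1 g; linarith) (by decide)
  · exact iff_of_false (fun g => by obtain ⟨g1, g2, g3⟩ := (bb6 x).1 g; linarith) (by decide)
  · exact iff_of_false (fun g => by obtain ⟨g1, g2, g3⟩ := (bb7 x).1 g; linarith) (by decide)
  · exact iff_of_false (fun g => by obtain ⟨g1, g2, g3⟩ := (bb8 x).1 g; linarith) (by decide)
  · exact iff_of_false (fun g => by obtain ⟨g1, g2, g3⟩ := (bb9 x).1 g; linarith) (by decide)
  · exact iff_of_false (fun g => by obtain ⟨g1, g2, g3⟩ := (bb10 x).1 g; linarith) (by decide)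
  · exact iff_of_false (fun g => by obtain ⟨g1, g2, g3⟩ := (bb11 x).1 g; linarith) (by decide)
  · exact iff_of_false (fun g => by obtain ⟨g1, g2, g3⟩ := (bb12 x).1 g; linarith) (by decide)
  · exact iff_of_true ((bb13 x).2 ⟨by linarith, by linarith, by linarith⟩) (by decide)
  · exact iff_of_true ((bb14 x).2 ⟨by linarith, by linarith, by linarith⟩) (by decide)
  · exact iff_of_false (fun g => by obtain ⟨g1, g2, g3⟩ := (bb15 x).1 g; linarith) (by decide)
  · exact iff_of_false (fun g => by obtain ⟨g1, g2, g3⟩ := (bb16 x).1 g; linarith) (by decide)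
  · exact iff_of_false (fun g => by obtain ⟨g1, g2, g3⟩ := (bb17 x).1 g; linarith) (by decide)
  · exact iff_of_false (fun g => by obtain ⟨⟨g1, g2, g3⟩, g4⟩ := (bb18 x).1 g; linarith) (by decide)
  · exact iff_of_false (fun g => by obtain ⟨⟨g1, g2, g3⟩, g4⟩ := (bb19 x).1 g; linarith) (by decide)
  · exact iff_of_false (fun g => by obtain ⟨⟨g1, g2, g3⟩, g4⟩ := (bb20 x).1 g; linarith) (by decide)
  · exact iff_of_false (fun g => by obtain ⟨⟨g1, g2, g3⟩, g4⟩ := (bb21 x).1 g; linarith) (by decide)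
  · exact iff_of_false (fun g => by obtain ⟨⟨g1, g2, g3⟩, g4⟩ := (bb22 x).1 g; linarith) (by decide)
  · exact iff_of_false (fun g => by obtain ⟨⟨g1, g2, g3⟩, g4⟩ := (bb23 x).1 g; linarith) (by decide)
  · exact iff_of_false (fun g => by obtain ⟨⟨g1, g2, g3⟩, g4⟩ := (bb24 x).1 g; linarith) (by decide)
  · exact iff_of_false (fun g => by obtain ⟨⟨g1, g2, g3⟩, g4⟩ := (bb25 x).1 g; linarith) (by decide)
  · exact iff_of_false (fun g => by obtain ⟨⟨g1, g2, g3⟩, g4⟩ := (bb26 x).1 g; linarith) (by decide)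
  · exact iff_of_false (fun g => by obtain ⟨⟨g1, g2, g3⟩, g4⟩ := (bb27 x).1 g; linarith) (by decide)
  · exact iff_of_false (fun g => by obtain ⟨⟨g1, g2, g3⟩, g4⟩ := (bb28 x).1 g; linarith) (by decide)
  · exact iff_of_false (fun g => by obtain ⟨⟨g1, g2, g3⟩, g4⟩ := (bb29 x).1 g; linarith) (by decide)
  · exact iff_of_false (fun g => by obtain ⟨⟨g1, g2, g3⟩, g4⟩ := (bb30 x).1 g; linarith) (by decide)
  · exact iff_of_false (fun g => by obtain ⟨⟨g1, g2, g3⟩, g4⟩ := (bb31 x).1 g; linarith) (by decide)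
  · exact iff_of_true ((bb32 x).2 ⟨⟨by linarith, by linarith, by linarith⟩, by linarith⟩) (by decide)
  · exact iff_of_false (fun g => by obtain ⟨⟨g1, g2, g3⟩, g4⟩ := (bb33 x).1 g; linarith) (by decide)
  · exact iff_of_false (fun g => by obtain ⟨⟨g1, g2, g3⟩, g4⟩ := (bb34 x).1 g; linarith) (by decide)
  · exact iff_of_false (fun g => by obtain ⟨⟨g1, g2, g3⟩, g4⟩ := (bb35 x).1 g; linarith) (by decide)
  · exact iff_of_false (fun g => by obtain ⟨⟨g1, g2, g3⟩, g4⟩ := (bb36 x).1 g; linarith) (by decide)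
  · exact iff_of_false (fun g => by obtain ⟨⟨g1, g2, g3⟩, g4⟩ := (bb37 x).1 g; linarith) (by decide)
  · exact iff_of_false (fun g => by obtain ⟨⟨g1, g2, g3⟩, g4⟩ := (bb38 x).1 g; linarith) (by decide)
  · exact iff_of_false (fun g => by obtain ⟨⟨g1, g2, g3⟩, g4⟩ := (bb39 x).1 g; linarith) (by decide)
  · exact iff_of_false (fun g => by obtain ⟨⟨g1, g2, g3⟩, g4⟩ := (bb40 x).1 g; linarith) (by decide)
  · exact iff_of_false (fun g => by obtain ⟨⟨g1, g2, g3⟩, g4⟩ := (bb41 x).1 g; linarith) (by decide)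
  · exact iff_of_false (fun g => by obtain ⟨⟨g1, g2, g3⟩, g4⟩ := (bb42 x).1 g; linarith) (by decide)
  · exact iff_of_false (fun g => by obtain ⟨⟨g1, g2, g3⟩, g4⟩ := (bb43 x).1 g; linarith) (by decide)
  · exact iff_of_false (fun g => by obtain ⟨⟨g1, g2, g3⟩, g4⟩ := (bb44 x).1 g; linarith) (by decide)
  · exact iff_of_false (fun g => by obtain ⟨g1, g2⟩ := (bb45 x).1 g; linarith) (by decide)
  · exact iff_of_false (fun g => by obtain ⟨g1, g2⟩ := (bb46 x).1 g; linarith) (by decide)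
  · exact iff_of_false (fun g => by obtain ⟨g1, g2⟩ := (bb47 x).1 g; linarith) (by decide)
  · exact iff_of_false (fun g => by obtain ⟨g1, g2⟩ := (bb48 x).1 g; linarith) (by decide)
  · exact iff_of_false (fun g => by obtain ⟨g1, g2⟩ := (bb49 x).1 g; linarith) (by decide)
  · exact iff_of_false (fun g => by obtain ⟨g1, g2⟩ := (bb50 x).1 g; linarith) (by decide)
  · exact iff_of_false (fun g => by obtain ⟨g1, g2⟩ := (bb51 x).1 g; linarith) (by decide)
  · exact iff_of_false (fun g => by obtain ⟨g1, g2⟩ := (bb52 x).1 g; linarith) (by decide)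

/-- the open cell 33 -/
theorem oo33 (x : ℂ) (h1 : -(2 * x.re) - 2 * x.im = 0)
    (h2 : 0 < -(2 * x.re) + 2 * x.im)
    (h3 : 0 < -(4 * x.re) - 8) : ∀ κ < 53,
    (x ∈ bs κ ↔ (bm κ).testBit 33 = true) := by
  intro κ hκ
  interval_cases κ
  · exact iff_of_false (fun g => by obtain ⟨g1, g2, g3⟩ := (bb0 x).1 g; linarith) (by decide)
  · exact iff_of_false (fun g => by obtain ⟨g1, g2, g3⟩ := (bb1 x).1 g; linarith) (by decide)
  · exact iff_of_false (fun g => by obtain ⟨g1, g2, g3⟩ := (bb2 x).1 g; linarith) (by decide)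
  · exact iff_of_false (fun g => by obtain ⟨g1, g2, g3⟩ := (bb3 x).1 g; linarith) (by decide)
  · exact iff_of_false (fun g => by obtain ⟨g1, g2, g3⟩ := (bb4 x).1 g; linarith) (by decide)
  · exact iff_of_false (fun g => by obtain ⟨g1, g2, g3⟩ := (bb5 x).1 g; linarith) (by decide)
  · exact iff_of_false (fun g => by obtain ⟨g1, g2, g3⟩ := (bb6 x).1 g; linarith) (by decide)
  · exact iff_of_false (fun g => by obtain ⟨g1, g2, g3⟩ := (bb7 x).1 g; linarith) (by decide)
  · exact iff_of_false (fun g => by obtain ⟨g1, g2, g3⟩ := (bb8 x).1 g; linarith) (by decide)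
  · exact iff_of_false (fun g => by obtain ⟨g1, g2, g3⟩ := (bb9 x).1 g; linarith) (by decide)
  · exact iff_of_false (fun g => by obtain ⟨g1, g2, g3⟩ := (bb10 x).1 g; linarith) (by decide)
  · exact iff_of_false (fun g => by obtain ⟨g1, g2, g3⟩ := (bb11 x).1 g; linarith) (by decide)
  · exact iff_of_false (fun g => by obtain ⟨g1, g2, g3⟩ := (bb12 x).1 g; linarith) (by decide)
  · exact iff_of_false (fun g => by obtain ⟨g1, g2, g3⟩ := (bb13 x).1 g; linarith) (by decide)
  · exact iff_of_true ((bb14 x).2 ⟨by linarith, by linarith, by linarith⟩) (by decide)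
  · exact iff_of_true ((bb15 x).2 ⟨by linarith, by linarith, by linarith⟩) (by decide)
  · exact iff_of_false (fun g => by obtain ⟨g1, g2, g3⟩ := (bb16 x).1 g; linarith) (by decide)
  · exact iff_of_false (fun g => by obtain ⟨g1, g2, g3⟩ := (bb17 x).1 g; linarith) (by decide)
  · exact iff_of_false (fun g => by obtain ⟨⟨g1, g2, g3⟩, g4⟩ := (bb18 x).1 g; linarith) (by decide)
  · exact iff_of_false (fun g => by obtain ⟨⟨g1, g2, g3⟩, g4⟩ := (bb19 x).1 g; linarith) (by decide)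
  · exact iff_of_false (fun g => by obtain ⟨⟨g1, g2, g3⟩, g4⟩ := (bb20 x).1 g; linarith) (by decide)
  · exact iff_of_false (fun g => by obtain ⟨⟨g1, g2, g3⟩, g4⟩ := (bb21 x).1 g; linarith) (by decide)
  · exact iff_of_false (fun g => by obtain ⟨⟨g1, g2, g3⟩, g4⟩ := (bb22 x).1 g; linarith) (by decide)
  · exact iff_of_false (fun g => by obtain ⟨⟨g1, g2, g3⟩, g4⟩ := (bb23 x).1 g; linarith) (by decide)
  · exact iff_of_false (fun g => by obtain ⟨⟨g1, g2, g3⟩, g4⟩ := (bb24 x).1 g; linarith) (by decide)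
  · exact iff_of_false (fun g => by obtain ⟨⟨g1, g2, g3⟩, g4⟩ := (bb25 x).1 g; linarith) (by decide)
  · exact iff_of_false (fun g => by obtain ⟨⟨g1, g2, g3⟩, g4⟩ := (bb26 x).1 g; linarith) (by decide)
  · exact iff_of_false (fun g => by obtain ⟨⟨g1, g2, g3⟩, g4⟩ := (bb27 x).1 g; linarith) (by decide)
  · exact iff_of_false (fun g => by obtain ⟨⟨g1, g2, g3⟩, g4⟩ := (bb28 x).1 g; linarith) (by decide)
  · exact iff_of_false (fun g => by obtain ⟨⟨g1, g2, g3⟩, g4⟩ := (bb29 x).1 g; linarith) (by decide)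
  · exact iff_of_false (fun g => by obtain ⟨⟨g1, g2, g3⟩, g4⟩ := (bb30 x).1 g; linarith) (by decide)
  · exact iff_of_false (fun g => by obtain ⟨⟨g1, g2, g3⟩, g4⟩ := (bb31 x).1 g; linarith) (by decide)
  · exact iff_of_false (fun g => by obtain ⟨⟨g1, g2, g3⟩, g4⟩ := (bb32 x).1 g; linarith) (by decide)
  · exact iff_of_true ((bb33 x).2 ⟨⟨by linarith, by linarith, by linarith⟩, by linarith⟩) (by decide)
  · exact iff_of_false (fun g => by obtain ⟨⟨g1, g2, g3⟩, g4⟩ := (bb34 x).1 g; linarith) (by decide)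
  · exact iff_of_false (fun g => by obtain ⟨⟨g1, g2, g3⟩, g4⟩ := (bb35 x).1 g; linarith) (by decide)
  · exact iff_of_false (fun g => by obtain ⟨⟨g1, g2, g3⟩, g4⟩ := (bb36 x).1 g; linarith) (by decide)
  · exact iff_of_false (fun g => by obtain ⟨⟨g1, g2, g3⟩, g4⟩ := (bb37 x).1 g; linarith) (by decide)
  · exact iff_of_false (fun g => by obtain ⟨⟨g1, g2, g3⟩, g4⟩ := (bb38 x).1 g; linarith) (by decide)
  · exact iff_of_false (fun g => by obtain ⟨⟨g1, g2, g3⟩, g4⟩ := (bb39 x).1 g; linarith) (by decide)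
  · exact iff_of_false (fun g => by obtain ⟨⟨g1, g2, g3⟩, g4⟩ := (bb40 x).1 g; linarith) (by decide)
  · exact iff_of_false (fun g => by obtain ⟨⟨g1, g2, g3⟩, g4⟩ := (bb41 x).1 g; linarith) (by decide)
  · exact iff_of_false (fun g => by obtain ⟨⟨g1, g2, g3⟩, g4⟩ := (bb42 x).1 g; linarith) (by decide)
  · exact iff_of_false (fun g => by obtain ⟨⟨g1, g2, g3⟩, g4⟩ := (bb43 x).1 g; linarith) (by decide)
  · exact iff_of_false (fun g => by obtain ⟨⟨g1, g2, g3⟩, g4⟩ := (bb44 x).1 g; linarith) (by decide)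
  · exact iff_of_false (fun g => by obtain ⟨g1, g2⟩ := (bb45 x).1 g; linarith) (by decide)
  · exact iff_of_false (fun g => by obtain ⟨g1, g2⟩ := (bb46 x).1 g; linarith) (by decide)
  · exact iff_of_false (fun g => by obtain ⟨g1, g2⟩ := (bb47 x).1 g; linarith) (by decide)
  · exact iff_of_false (fun g => by obtain ⟨g1, g2⟩ := (bb48 x).1 g; linarith) (by decide)
  · exact iff_of_false (fun g => by obtain ⟨g1, g2⟩ := (bb49 x).1 g; linarith) (by decide)
  · exact iff_of_false (fun g => by obtain ⟨g1, g2⟩ := (bb50 x).1 g; linarith) (by decide)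
  · exact iff_of_false (fun g => by obtain ⟨g1, g2⟩ := (bb51 x).1 g; linarith) (by decide)
  · exact iff_of_false (fun g => by obtain ⟨g1, g2⟩ := (bb52 x).1 g; linarith) (by decide)

/-- the open cell 34 -/
theorem oo34 (x : ℂ) (h1 : 2 * x.re - 2 * x.im = 0)
    (h2 : 0 < -(2 * x.re) - 2 * x.im)
    (h3 : 0 < -(4 * x.im) - 8) : ∀ κ < 53,
    (x ∈ bs κ ↔ (bm κ).testBit 34 = true) := by
  intro κ hκ
  interval_cases κ
  · exact iff_of_false (fun g => by obtain ⟨g1, g2, g3⟩ := (bb0 x).1 g; linarith) (by decide)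
  · exact iff_of_false (fun g => by obtain ⟨g1, g2, g3⟩ := (bb1 x).1 g; linarith) (by decide)
  · exact iff_of_false (fun g => by obtain ⟨g1, g2, g3⟩ := (bb2 x).1 g; linarith) (by decide)
  · exact iff_of_false (fun g => by obtain ⟨g1, g2, g3⟩ := (bb3 x).1 g; linarith) (by decide)
  · exact iff_of_false (fun g => by obtain ⟨g1, g2, g3⟩ := (bb4 x).1 g; linarith) (by decide)
  · exact iff_of_false (fun g => by obtain ⟨g1, g2, g3⟩ := (bb5 x).1 g; linarith) (by decide)
  · exact iff_of_false (fun g => by obtain ⟨g1, g2, g3⟩ := (bb6 x).1 g; linarith) (by decide)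
  · exact iff_of_false (fun g => by obtain ⟨g1, g2, g3⟩ := (bb7 x).1 g; linarith) (by decide)
  · exact iff_of_false (fun g => by obtain ⟨g1, g2, g3⟩ := (bb8 x).1 g; linarith) (by decide)
  · exact iff_of_false (fun g => by obtain ⟨g1, g2, g3⟩ := (bb9 x).1 g; linarith) (by decide)
  · exact iff_of_false (fun g => by obtain ⟨g1, g2, g3⟩ := (bb10 x).1 g; linarith) (by decide)
  · exact iff_of_false (fun g => by obtain ⟨g1, g2, g3⟩ := (bb11 x).1 g; linarith) (by decide)
  · exact iff_of_false (fun g => by obtain ⟨g1, g2, g3⟩ := (bb12 x).1 g; linarith) (by decide)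
  · exact iff_of_false (fun g => by obtain ⟨g1, g2, g3⟩ := (bb13 x).1 g; linarith) (by decide)
  · exact iff_of_false (fun g => by obtain ⟨g1, g2, g3⟩ := (bb14 x).1 g; linarith) (by decide)
  · exact iff_of_true ((bb15 x).2 ⟨by linarith, by linarith, by linarith⟩) (by decide)
  · exact iff_of_true ((bb16 x).2 ⟨by linarith, by linarith, by linarith⟩) (by decide)
  · exact iff_of_false (fun g => by obtain ⟨g1, g2, g3⟩ := (bb17 x).1 g; linarith) (by decide)
  · exact iff_of_false (fun g => by obtain ⟨⟨g1, g2, g3⟩, g4⟩ := (bb18 x).1 g; linarith) (by decide)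
  · exact iff_of_false (fun g => by obtain ⟨⟨g1, g2, g3⟩, g4⟩ := (bb19 x).1 g; linarith) (by decide)
  · exact iff_of_false (fun g => by obtain ⟨⟨g1, g2, g3⟩, g4⟩ := (bb20 x).1 g; linarith) (by decide)
  · exact iff_of_false (fun g => by obtain ⟨⟨g1, g2, g3⟩, g4⟩ := (bb21 x).1 g; linarith) (by decide)
  · exact iff_of_false (fun g => by obtain ⟨⟨g1, g2, g3⟩, g4⟩ := (bb22 x).1 g; linarith) (by decide)
  · exact iff_of_false (fun g => by obtain ⟨⟨g1, g2, g3⟩, g4⟩ := (bb23 x).1 g; linarith) (by decide)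
  · exact iff_of_false (fun g => by obtain ⟨⟨g1, g2, g3⟩, g4⟩ := (bb24 x).1 g; linarith) (by decide)
  · exact iff_of_false (fun g => by obtain ⟨⟨g1, g2, g3⟩, g4⟩ := (bb25 x).1 g; linarith) (by decide)
  · exact iff_of_false (fun g => by obtain ⟨⟨g1, g2, g3⟩, g4⟩ := (bb26 x).1 g; linarith) (by decide)
  · exact iff_of_false (fun g => by obtain ⟨⟨g1, g2, g3⟩, g4⟩ := (bb27 x).1 g; linarith) (by decide)
  · exact iff_of_false (fun g => by obtain ⟨⟨g1, g2, g3⟩, g4⟩ := (bb28 x).1 g; linarith) (by decide)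
  · exact iff_of_false (fun g => by obtain ⟨⟨g1, g2, g3⟩, g4⟩ := (bb29 x).1 g; linarith) (by decide)
  · exact iff_of_false (fun g => by obtain ⟨⟨g1, g2, g3⟩, g4⟩ := (bb30 x).1 g; linarith) (by decide)
  · exact iff_of_false (fun g => by obtain ⟨⟨g1, g2, g3⟩, g4⟩ := (bb31 x).1 g; linarith) (by decide)
  · exact iff_of_false (fun g => by obtain ⟨⟨g1, g2, g3⟩, g4⟩ := (bb32 x).1 g; linarith) (by decide)
  · exact iff_of_false (fun g => by obtain ⟨⟨g1, g2, g3⟩, g4⟩ := (bb33 x).1 g; linarith) (by decide)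
  · exact iff_of_true ((bb34 x).2 ⟨⟨by linarith, by linarith, by linarith⟩, by linarith⟩) (by decide)
  · exact iff_of_false (fun g => by obtain ⟨⟨g1, g2, g3⟩, g4⟩ := (bb35 x).1 g; linarith) (by decide)
  · exact iff_of_false (fun g => by obtain ⟨⟨g1, g2, g3⟩, g4⟩ := (bb36 x).1 g; linarith) (by decide)
  · exact iff_of_false (fun g => by obtain ⟨⟨g1, g2, g3⟩, g4⟩ := (bb37 x).1 g; linarith) (by decide)
  · exact iff_of_false (fun g => by obtain ⟨⟨g1, g2, g3⟩, g4⟩ := (bb38 x).1 g; linarith) (by decide)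
  · exact iff_of_false (fun g => by obtain ⟨⟨g1, g2, g3⟩, g4⟩ := (bb39 x).1 g; linarith) (by decide)
  · exact iff_of_false (fun g => by obtain ⟨⟨g1, g2, g3⟩, g4⟩ := (bb40 x).1 g; linarith) (by decide)
  · exact iff_of_false (fun g => by obtain ⟨⟨g1, g2, g3⟩, g4⟩ := (bb41 x).1 g; linarith) (by decide)
  · exact iff_of_false (fun g => by obtain ⟨⟨g1, g2, g3⟩, g4⟩ := (bb42 x).1 g; linarith) (by decide)
  · exact iff_of_false (fun g => by obtain ⟨⟨g1, g2, g3⟩, g4⟩ := (bb43 x).1 g; linarith) (by decide)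
  · exact iff_of_false (fun g => by obtain ⟨⟨g1, g2, g3⟩, g4⟩ := (bb44 x).1 g; linarith) (by decide)
  · exact iff_of_false (fun g => by obtain ⟨g1, g2⟩ := (bb45 x).1 g; linarith) (by decide)
  · exact iff_of_false (fun g => by obtain ⟨g1, g2⟩ := (bb46 x).1 g; linarith) (by decide)
  · exact iff_of_false (fun g => by obtain ⟨g1, g2⟩ := (bb47 x).1 g; linarith) (by decide)
  · exact iff_of_false (fun g => by obtain ⟨g1, g2⟩ := (bb48 x).1 g; linarith) (by decide)
  · exact iff_of_false (fun g => by obtain ⟨g1, g2⟩ := (bb49 x).1 g; linarith) (by decide)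
  · exact iff_of_false (fun g => by obtain ⟨g1, g2⟩ := (bb50 x).1 g; linarith) (by decide)
  · exact iff_of_false (fun g => by obtain ⟨g1, g2⟩ := (bb51 x).1 g; linarith) (by decide)
  · exact iff_of_false (fun g => by obtain ⟨g1, g2⟩ := (bb52 x).1 g; linarith) (by decide)

/-- the open cell 35 -/
theorem oo35 (x : ℂ) (h1 : 2 * x.re + 2 * x.im = 0)
    (h2 : 0 < -(2 * x.re) - 6 * x.im)
    (h3 : 0 < -(4 * x.im) - 8) : ∀ κ < 53,
    (x ∈ bs κ ↔ (bm κ).testBit 35 = true) := by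
  intro κ hκ
  interval_cases κ
  · exact iff_of_false (fun g => by obtain ⟨g1, g2, g3⟩ := (bb0 x).1 g; linarith) (by decide)
  · exact iff_of_false (fun g => by obtain ⟨g1, g2, g3⟩ := (bb1 x).1 g; linarith) (by decide)
  · exact iff_of_false (fun g => by obtain ⟨g1, g2, g3⟩ := (bb2 x).1 g; linarith) (by decide)
  · exact iff_of_false (fun g => by obtain ⟨g1, g2, g3⟩ := (bb3 x).1 g; linarith) (by decide)
  · exact iff_of_false (fun g => by obtain ⟨g1, g2, g3⟩ := (bb4 x).1 g; linarith) (by decide)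
  · exact iff_of_false (fun g => by obtain ⟨g1, g2, g3⟩ := (bb5 x).1 g; linarith) (by decide)
  · exact iff_of_false (fun g => by obtain ⟨g1, g2, g3⟩ := (bb6 x).1 g; linarith) (by decide)
  · exact iff_of_false (fun g => by obtain ⟨g1, g2, g3⟩ := (bb7 x).1 g; linarith) (by decide)
  · exact iff_of_false (fun g => by obtain ⟨g1, g2, g3⟩ := (bb8 x).1 g; linarith) (by decide)
  · exact iff_of_false (fun g => by obtain ⟨g1, g2, g3⟩ := (bb9 x).1 g; linarith) (by decide)
  · exact iff_of_false (fun g => by obtain ⟨g1, g2, g3⟩ := (bb10 x).1 g; linarith) (by decide)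
  · exact iff_of_false (fun g => by obtain ⟨g1, g2, g3⟩ := (bb11 x).1 g; linarith) (by decide)
  · exact iff_of_false (fun g => by obtain ⟨g1, g2, g3⟩ := (bb12 x).1 g; linarith) (by decide)
  · exact iff_of_false (fun g => by obtain ⟨g1, g2, g3⟩ := (bb13 x).1 g; linarith) (by decide)
  · exact iff_of_false (fun g => by obtain ⟨g1, g2, g3⟩ := (bb14 x).1 g; linarith) (by decide)
  · exact iff_of_false (fun g => by obtain ⟨g1, g2, g3⟩ := (bb15 x).1 g; linarith) (by decide)
  · exact iff_of_true ((bb16 x).2 ⟨by linarith, by linarith, by linarith⟩) (by decide)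
  · exact iff_of_true ((bb17 x).2 ⟨by linarith, by linarith, by linarith⟩) (by decide)
  · exact iff_of_false (fun g => by obtain ⟨⟨g1, g2, g3⟩, g4⟩ := (bb18 x).1 g; linarith) (by decide)
  · exact iff_of_false (fun g => by obtain ⟨⟨g1, g2, g3⟩, g4⟩ := (bb19 x).1 g; linarith) (by decide)
  · exact iff_of_false (fun g => by obtain ⟨⟨g1, g2, g3⟩, g4⟩ := (bb20 x).1 g; linarith) (by decide)
  · exact iff_of_false (fun g => by obtain ⟨⟨g1, g2, g3⟩, g4⟩ := (bb21 x).1 g; linarith) (by decide)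
  · exact iff_of_false (fun g => by obtain ⟨⟨g1, g2, g3⟩, g4⟩ := (bb22 x).1 g; linarith) (by decide)
  · exact iff_of_false (fun g => by obtain ⟨⟨g1, g2, g3⟩, g4⟩ := (bb23 x).1 g; linarith) (by decide)
  · exact iff_of_false (fun g => by obtain ⟨⟨g1, g2, g3⟩, g4⟩ := (bb24 x).1 g; linarith) (by decide)
  · exact iff_of_false (fun g => by obtain ⟨⟨g1, g2, g3⟩, g4⟩ := (bb25 x).1 g; linarith) (by decide)
  · exact iff_of_false (fun g => by obtain ⟨⟨g1, g2, g3⟩, g4⟩ := (bb26 x).1 g; linarith) (by decide)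
  · exact iff_of_false (fun g => by obtain ⟨⟨g1, g2, g3⟩, g4⟩ := (bb27 x).1 g; linarith) (by decide)
  · exact iff_of_false (fun g => by obtain ⟨⟨g1, g2, g3⟩, g4⟩ := (bb28 x).1 g; linarith) (by decide)
  · exact iff_of_false (fun g => by obtain ⟨⟨g1, g2, g3⟩, g4⟩ := (bb29 x).1 g; linarith) (by decide)
  · exact iff_of_false (fun g => by obtain ⟨⟨g1, g2, g3⟩, g4⟩ := (bb30 x).1 g; linarith) (by decide)
  · exact iff_of_false (fun g => by obtain ⟨⟨g1, g2, g3⟩, g4⟩ := (bb31 x).1 g; linarith) (by decide)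
  · exact iff_of_false (fun g => by obtain ⟨⟨g1, g2, g3⟩, g4⟩ := (bb32 x).1 g; linarith) (by decide)
  · exact iff_of_false (fun g => by obtain ⟨⟨g1, g2, g3⟩, g4⟩ := (bb33 x).1 g; linarith) (by decide)
  · exact iff_of_false (fun g => by obtain ⟨⟨g1, g2, g3⟩, g4⟩ := (bb34 x).1 g; linarith) (by decide)
  · exact iff_of_true ((bb35 x).2 ⟨⟨by linarith, by linarith, by linarith⟩, by linarith⟩) (by decide)
  · exact iff_of_false (fun g => by obtain ⟨⟨g1, g2, g3⟩, g4⟩ := (bb36 x).1 g; linarith) (by decide)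
  · exact iff_of_false (fun g => by obtain ⟨⟨g1, g2, g3⟩, g4⟩ := (bb37 x).1 g; linarith) (by decide)
  · exact iff_of_false (fun g => by obtain ⟨⟨g1, g2, g3⟩, g4⟩ := (bb38 x).1 g; linarith) (by decide)
  · exact iff_of_false (fun g => by obtain ⟨⟨g1, g2, g3⟩, g4⟩ := (bb39 x).1 g; linarith) (by decide)
  · exact iff_of_false (fun g => by obtain ⟨⟨g1, g2, g3⟩, g4⟩ := (bb40 x).1 g; linarith) (by decide)
  · exact iff_of_false (fun g => by obtain ⟨⟨g1, g2, g3⟩, g4⟩ := (bb41 x).1 g; linarith) (by decide)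
  · exact iff_of_false (fun g => by obtain ⟨⟨g1, g2, g3⟩, g4⟩ := (bb42 x).1 g; linarith) (by decide)
  · exact iff_of_false (fun g => by obtain ⟨⟨g1, g2, g3⟩, g4⟩ := (bb43 x).1 g; linarith) (by decide)
  · exact iff_of_false (fun g => by obtain ⟨⟨g1, g2, g3⟩, g4⟩ := (bb44 x).1 g; linarith) (by decide)
  · exact iff_of_false (fun g => by obtain ⟨g1, g2⟩ := (bb45 x).1 g; linarith) (by decide)
  · exact iff_of_false (fun g => by obtain ⟨g1, g2⟩ := (bb46 x).1 g; linarith) (by decide)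
  · exact iff_of_false (fun g => by obtain ⟨g1, g2⟩ := (bb47 x).1 g; linarith) (by decide)
  · exact iff_of_false (fun g => by obtain ⟨g1, g2⟩ := (bb48 x).1 g; linarith) (by decide)
  · exact iff_of_false (fun g => by obtain ⟨g1, g2⟩ := (bb49 x).1 g; linarith) (by decide)
  · exact iff_of_false (fun g => by obtain ⟨g1, g2⟩ := (bb50 x).1 g; linarith) (by decide)
  · exact iff_of_false (fun g => by obtain ⟨g1, g2⟩ := (bb51 x).1 g; linarith) (by decide)
  · exact iff_of_false (fun g => by obtain ⟨g1, g2⟩ := (bb52 x).1 g; linarith) (by decide)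

/-- the open cell 36 -/
theorem oo36 (x : ℂ) (h1 : 0 < -(2 * x.re) + 2 * x.im)
    (h2 : 0 < 2 * x.re + 2 * x.im)
    (h3 : -(4 * x.im) + 8 = 0) : ∀ κ < 53,
    (x ∈ bs κ ↔ (bm κ).testBit 36 = true) := by
  intro κ hκ
  interval_cases κ
  · exact iff_of_false (fun g => by obtain ⟨g1, g2, g3⟩ := (bb0 x).1 g; linarith) (by decide)
  · exact iff_of_false (fun g => by obtain ⟨g1, g2, g3⟩ := (bb1 x).1 g; linarith) (by decide)
  · exact iff_of_true ((bb2 x).2 ⟨by linarith, by linarith, by linarith⟩) (by decide)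
  · exact iff_of_false (fun g => by obtain ⟨g1, g2, g3⟩ := (bb3 x).1 g; linarith) (by decide)
  · exact iff_of_false (fun g => by obtain ⟨g1, g2, g3⟩ := (bb4 x).1 g; linarith) (by decide)
  · exact iff_of_false (fun g => by obtain ⟨g1, g2, g3⟩ := (bb5 x).1 g; linarith) (by decide)
  · exact iff_of_false (fun g => by obtain ⟨g1, g2, g3⟩ := (bb6 x).1 g; linarith) (by decide)
  · exact iff_of_false (fun g => by obtain ⟨g1, g2, g3⟩ := (bb7 x).1 g; linarith) (by decide)
  · exact iff_of_false (fun g => by obtain ⟨g1, g2, g3⟩ := (bb8 x).1 g; linarith) (by decide)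
  · exact iff_of_false (fun g => by obtain ⟨g1, g2, g3⟩ := (bb9 x).1 g; linarith) (by decide)
  · exact iff_of_false (fun g => by obtain ⟨g1, g2, g3⟩ := (bb10 x).1 g; linarith) (by decide)
  · exact iff_of_false (fun g => by obtain ⟨g1, g2, g3⟩ := (bb11 x).1 g; linarith) (by decide)
  · exact iff_of_false (fun g => by obtain ⟨g1, g2, g3⟩ := (bb12 x).1 g; linarith) (by decide)
  · exact iff_of_false (fun g => by obtain ⟨g1, g2, g3⟩ := (bb13 x).1 g; linarith) (by decide)
  · exact iff_of_true ((bb14 x).2 ⟨by linarith, by linarith, by linarith⟩) (by decide)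
  · exact iff_of_false (fun g => by obtain ⟨g1, g2, g3⟩ := (bb15 x).1 g; linarith) (by decide)
  · exact iff_of_false (fun g => by obtain ⟨g1, g2, g3⟩ := (bb16 x).1 g; linarith) (by decide)
  · exact iff_of_false (fun g => by obtain ⟨g1, g2, g3⟩ := (bb17 x).1 g; linarith) (by decide)
  · exact iff_of_false (fun g => by obtain ⟨⟨g1, g2, g3⟩, g4⟩ := (bb18 x).1 g; linarith) (by decide)
  · exact iff_of_false (fun g => by obtain ⟨⟨g1, g2, g3⟩, g4⟩ := (bb19 x).1 g; linarith) (by decide)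
  · exact iff_of_false (fun g => by obtain ⟨⟨g1, g2, g3⟩, g4⟩ := (bb20 x).1 g; linarith) (by decide)
  · exact iff_of_false (fun g => by obtain ⟨⟨g1, g2, g3⟩, g4⟩ := (bb21 x).1 g; linarith) (by decide)
  · exact iff_of_false (fun g => by obtain ⟨⟨g1, g2, g3⟩, g4⟩ := (bb22 x).1 g; linarith) (by decide)
  · exact iff_of_false (fun g => by obtain ⟨⟨g1, g2, g3⟩, g4⟩ := (bb23 x).1 g; linarith) (by decide)
  · exact iff_of_false (fun g => by obtain ⟨⟨g1, g2, g3⟩, g4⟩ := (bb24 x).1 g; linarith) (by decide)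
  · exact iff_of_false (fun g => by obtain ⟨⟨g1, g2, g3⟩, g4⟩ := (bb25 x).1 g; linarith) (by decide)
  · exact iff_of_false (fun g => by obtain ⟨⟨g1, g2, g3⟩, g4⟩ := (bb26 x).1 g; linarith) (by decide)
  · exact iff_of_false (fun g => by obtain ⟨⟨g1, g2, g3⟩, g4⟩ := (bb27 x).1 g; linarith) (by decide)
  · exact iff_of_false (fun g => by obtain ⟨⟨g1, g2, g3⟩, g4⟩ := (bb28 x).1 g; linarith) (by decide)
  · exact iff_of_false (fun g => by obtain ⟨⟨g1, g2, g3⟩, g4⟩ := (bb29 x).1 g; linarith) (by decide)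
  · exact iff_of_false (fun g => by obtain ⟨⟨g1, g2, g3⟩, g4⟩ := (bb30 x).1 g; linarith) (by decide)
  · exact iff_of_false (fun g => by obtain ⟨⟨g1, g2, g3⟩, g4⟩ := (bb31 x).1 g; linarith) (by decide)
  · exact iff_of_false (fun g => by obtain ⟨⟨g1, g2, g3⟩, g4⟩ := (bb32 x).1 g; linarith) (by decide)
  · exact iff_of_false (fun g => by obtain ⟨⟨g1, g2, g3⟩, g4⟩ := (bb33 x).1 g; linarith) (by decide)
  · exact iff_of_false (fun g => by obtain ⟨⟨g1, g2, g3⟩, g4⟩ := (bb34 x).1 g; linarith) (by decide)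
  · exact iff_of_false (fun g => by obtain ⟨⟨g1, g2, g3⟩, g4⟩ := (bb35 x).1 g; linarith) (by decide)
  · exact iff_of_true ((bb36 x).2 ⟨⟨by linarith, by linarith, by linarith⟩, by linarith⟩) (by decide)
  · exact iff_of_false (fun g => by obtain ⟨⟨g1, g2, g3⟩, g4⟩ := (bb37 x).1 g; linarith) (by decide)
  · exact iff_of_false (fun g => by obtain ⟨⟨g1, g2, g3⟩, g4⟩ := (bb38 x).1 g; linarith) (by decide)
  · exact iff_of_false (fun g => by obtain ⟨⟨g1, g2, g3⟩, g4⟩ := (bb39 x).1 g; linarith) (by decide)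
  · exact iff_of_false (fun g => by obtain ⟨⟨g1, g2, g3⟩, g4⟩ := (bb40 x).1 g; linarith) (by decide)
  · exact iff_of_false (fun g => by obtain ⟨⟨g1, g2, g3⟩, g4⟩ := (bb41 x).1 g; linarith) (by decide)
  · exact iff_of_false (fun g => by obtain ⟨⟨g1, g2, g3⟩, g4⟩ := (bb42 x).1 g; linarith) (by decide)
  · exact iff_of_false (fun g => by obtain ⟨⟨g1, g2, g3⟩, g4⟩ := (bb43 x).1 g; linarith) (by decide)
  · exact iff_of_false (fun g => by obtain ⟨⟨g1, g2, g3⟩, g4⟩ := (bb44 x).1 g; linarith) (by decide)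
  · exact iff_of_false (fun g => by obtain ⟨g1, g2⟩ := (bb45 x).1 g; linarith) (by decide)
  · exact iff_of_false (fun g => by obtain ⟨g1, g2⟩ := (bb46 x).1 g; linarith) (by decide)
  · exact iff_of_false (fun g => by obtain ⟨g1, g2⟩ := (bb47 x).1 g; linarith) (by decide)
  · exact iff_of_false (fun g => by obtain ⟨g1, g2⟩ := (bb48 x).1 g; linarith) (by decide)
  · exact iff_of_false (fun g => by obtain ⟨g1, g2⟩ := (bb49 x).1 g; linarith) (by decide)
  · exact iff_of_false (fun g => by obtain ⟨g1, g2⟩ := (bb50 x).1 g; linarith) (by decide)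
  · exact iff_of_false (fun g => by obtain ⟨g1, g2⟩ := (bb51 x).1 g; linarith) (by decide)
  · exact iff_of_false (fun g => by obtain ⟨g1, g2⟩ := (bb52 x).1 g; linarith) (by decide)

/-- the open cell 37 -/
theorem oo37 (x : ℂ) (h1 : 0 < -(2 * x.re) - 2 * x.im)
    (h2 : 0 < -(2 * x.re) + 2 * x.im)
    (h3 : 4 * x.re + 8 = 0) : ∀ κ < 53,
    (x ∈ bs κ ↔ (bm κ).testBit 37 = true) := by
  intro κ hκ
  interval_cases κ
  · exact iff_of_false (fun g => by obtain ⟨g1, g2, g3⟩ := (bb0 x).1 g; linarith) (by decide)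
  · exact iff_of_false (fun g => by obtain ⟨g1, g2, g3⟩ := (bb1 x).1 g; linarith) (by decide)
  · exact iff_of_false (fun g => by obtain ⟨g1, g2, g3⟩ := (bb2 x).1 g; linarith) (by decide)
  · exact iff_of_true ((bb3 x).2 ⟨by linarith, by linarith, by linarith⟩) (by decide)
  · exact iff_of_false (fun g => by obtain ⟨g1, g2, g3⟩ := (bb4 x).1 g; linarith) (by decide)
  · exact iff_of_false (fun g => by obtain ⟨g1, g2, g3⟩ := (bb5 x).1 g; linarith) (by decide)
  · exact iff_of_false (fun g => by obtain ⟨g1, g2, g3⟩ := (bb6 x).1 g; linarith) (by decide)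
  · exact iff_of_false (fun g => by obtain ⟨g1, g2, g3⟩ := (bb7 x).1 g; linarith) (by decide)
  · exact iff_of_false (fun g => by obtain ⟨g1, g2, g3⟩ := (bb8 x).1 g; linarith) (by decide)
  · exact iff_of_false (fun g => by obtain ⟨g1, g2, g3⟩ := (bb9 x).1 g; linarith) (by decide)
  · exact iff_of_false (fun g => by obtain ⟨g1, g2, g3⟩ := (bb10 x).1 g; linarith) (by decide)
  · exact iff_of_false (fun g => by obtain ⟨g1, g2, g3⟩ := (bb11 x).1 g; linarith) (by decide)
  · exact iff_of_false (fun g => by obtain ⟨g1, g2, g3⟩ := (bb12 x).1 g; linarith) (by decide)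
  · exact iff_of_false (fun g => by obtain ⟨g1, g2, g3⟩ := (bb13 x).1 g; linarith) (by decide)
  · exact iff_of_false (fun g => by obtain ⟨g1, g2, g3⟩ := (bb14 x).1 g; linarith) (by decide)
  · exact iff_of_true ((bb15 x).2 ⟨by linarith, by linarith, by linarith⟩) (by decide)
  · exact iff_of_false (fun g => by obtain ⟨g1, g2, g3⟩ := (bb16 x).1 g; linarith) (by decide)
  · exact iff_of_false (fun g => by obtain ⟨g1, g2, g3⟩ := (bb17 x).1 g; linarith) (by decide)
  · exact iff_of_false (fun g => by obtain ⟨⟨g1, g2, g3⟩, g4⟩ := (bb18 x).1 g; linarith) (by decide)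
  · exact iff_of_false (fun g => by obtain ⟨⟨g1, g2, g3⟩, g4⟩ := (bb19 x).1 g; linarith) (by decide)
  · exact iff_of_false (fun g => by obtain ⟨⟨g1, g2, g3⟩, g4⟩ := (bb20 x).1 g; linarith) (by decide)
  · exact iff_of_false (fun g => by obtain ⟨⟨g1, g2, g3⟩, g4⟩ := (bb21 x).1 g; linarith) (by decide)
  · exact iff_of_false (fun g => by obtain ⟨⟨g1, g2, g3⟩, g4⟩ := (bb22 x).1 g; linarith) (by decide)
  · exact iff_of_false (fun g => by obtain ⟨⟨g1, g2, g3⟩, g4⟩ := (bb23 x).1 g; linarith) (by decide)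
  · exact iff_of_false (fun g => by obtain ⟨⟨g1, g2, g3⟩, g4⟩ := (bb24 x).1 g; linarith) (by decide)
  · exact iff_of_false (fun g => by obtain ⟨⟨g1, g2, g3⟩, g4⟩ := (bb25 x).1 g; linarith) (by decide)
  · exact iff_of_false (fun g => by obtain ⟨⟨g1, g2, g3⟩, g4⟩ := (bb26 x).1 g; linarith) (by decide)
  · exact iff_of_false (fun g => by obtain ⟨⟨g1, g2, g3⟩, g4⟩ := (bb27 x).1 g; linarith) (by decide)
  · exact iff_of_false (fun g => by obtain ⟨⟨g1, g2, g3⟩, g4⟩ := (bb28 x).1 g; linarith) (by decide)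
  · exact iff_of_false (fun g => by obtain ⟨⟨g1, g2, g3⟩, g4⟩ := (bb29 x).1 g; linarith) (by decide)
  · exact iff_of_false (fun g => by obtain ⟨⟨g1, g2, g3⟩, g4⟩ := (bb30 x).1 g; linarith) (by decide)
  · exact iff_of_false (fun g => by obtain ⟨⟨g1, g2, g3⟩, g4⟩ := (bb31 x).1 g; linarith) (by decide)
  · exact iff_of_false (fun g => by obtain ⟨⟨g1, g2, g3⟩, g4⟩ := (bb32 x).1 g; linarith) (by decide)
  · exact iff_of_false (fun g => by obtain ⟨⟨g1, g2, g3⟩, g4⟩ := (bb33 x).1 g; linarith) (by decide)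
  · exact iff_of_false (fun g => by obtain ⟨⟨g1, g2, g3⟩, g4⟩ := (bb34 x).1 g; linarith) (by decide)
  · exact iff_of_false (fun g => by obtain ⟨⟨g1, g2, g3⟩, g4⟩ := (bb35 x).1 g; linarith) (by decide)
  · exact iff_of_false (fun g => by obtain ⟨⟨g1, g2, g3⟩, g4⟩ := (bb36 x).1 g; linarith) (by decide)
  · exact iff_of_true ((bb37 x).2 ⟨⟨by linarith, by linarith, by linarith⟩, by linarith⟩) (by decide)
  · exact iff_of_false (fun g => by obtain ⟨⟨g1, g2, g3⟩, g4⟩ := (bb38 x).1 g; linarith) (by decide)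
  · exact iff_of_false (fun g => by obtain ⟨⟨g1, g2, g3⟩, g4⟩ := (bb39 x).1 g; linarith) (by decide)
  · exact iff_of_false (fun g => by obtain ⟨⟨g1, g2, g3⟩, g4⟩ := (bb40 x).1 g; linarith) (by decide)
  · exact iff_of_false (fun g => by obtain ⟨⟨g1, g2, g3⟩, g4⟩ := (bb41 x).1 g; linarith) (by decide)
  · exact iff_of_false (fun g => by obtain ⟨⟨g1, g2, g3⟩, g4⟩ := (bb42 x).1 g; linarith) (by decide)
  · exact iff_of_false (fun g => by obtain ⟨⟨g1, g2, g3⟩, g4⟩ := (bb43 x).1 g; linarith) (by decide)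
  · exact iff_of_false (fun g => by obtain ⟨⟨g1, g2, g3⟩, g4⟩ := (bb44 x).1 g; linarith) (by decide)
  · exact iff_of_false (fun g => by obtain ⟨g1, g2⟩ := (bb45 x).1 g; linarith) (by decide)
  · exact iff_of_false (fun g => by obtain ⟨g1, g2⟩ := (bb46 x).1 g; linarith) (by decide)
  · exact iff_of_false (fun g => by obtain ⟨g1, g2⟩ := (bb47 x).1 g; linarith) (by decide)
  · exact iff_of_false (fun g => by obtain ⟨g1, g2⟩ := (bb48 x).1 g; linarith) (by decide)
  · exact iff_of_false (fun g => by obtain ⟨g1, g2⟩ := (bb49 x).1 g; linarith) (by decide)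
  · exact iff_of_false (fun g => by obtain ⟨g1, g2⟩ := (bb50 x).1 g; linarith) (by decide)
  · exact iff_of_false (fun g => by obtain ⟨g1, g2⟩ := (bb51 x).1 g; linarith) (by decide)
  · exact iff_of_false (fun g => by obtain ⟨g1, g2⟩ := (bb52 x).1 g; linarith) (by decide)

/-- the open cell 38 -/
theorem oo38 (x : ℂ) (h1 : 0 < 2 * x.re - 2 * x.im)
    (h2 : 0 < -(2 * x.re) - 2 * x.im)
    (h3 : 4 * x.im + 8 = 0) : ∀ κ < 53,
    (x ∈ bs κ ↔ (bm κ).testBit 38 = true) := by
  intro κ hκ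
  interval_cases κ
  · exact iff_of_false (fun g => by obtain ⟨g1, g2, g3⟩ := (bb0 x).1 g; linarith) (by decide)
  · exact iff_of_false (fun g => by obtain ⟨g1, g2, g3⟩ := (bb1 x).1 g; linarith) (by decide)
  · exact iff_of_false (fun g => by obtain ⟨g1, g2, g3⟩ := (bb2 x).1 g; linarith) (by decide)
  · exact iff_of_false (fun g => by obtain ⟨g1, g2, g3⟩ := (bb3 x).1 g; linarith) (by decide)
  · exact iff_of_true ((bb4 x).2 ⟨by linarith, by linarith, by linarith⟩) (by decide)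
  · exact iff_of_false (fun g => by obtain ⟨g1, g2, g3⟩ := (bb5 x).1 g; linarith) (by decide)
  · exact iff_of_false (fun g => by obtain ⟨g1, g2, g3⟩ := (bb6 x).1 g; linarith) (by decide)
  · exact iff_of_false (fun g => by obtain ⟨g1, g2, g3⟩ := (bb7 x).1 g; linarith) (by decide)
  · exact iff_of_false (fun g => by obtain ⟨g1, g2, g3⟩ := (bb8 x).1 g; linarith) (by decide)
  · exact iff_of_false (fun g => by obtain ⟨g1, g2, g3⟩ := (bb9 x).1 g; linarith) (by decide)
  · exact iff_of_false (fun g => by obtain ⟨g1, g2, g3⟩ := (bb10 x).1 g; linarith) (by decide)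
  · exact iff_of_false (fun g => by obtain ⟨g1, g2, g3⟩ := (bb11 x).1 g; linarith) (by decide)
  · exact iff_of_false (fun g => by obtain ⟨g1, g2, g3⟩ := (bb12 x).1 g; linarith) (by decide)
  · exact iff_of_false (fun g => by obtain ⟨g1, g2, g3⟩ := (bb13 x).1 g; linarith) (by decide)
  · exact iff_of_false (fun g => by obtain ⟨g1, g2, g3⟩ := (bb14 x).1 g; linarith) (by decide)
  · exact iff_of_false (fun g => by obtain ⟨g1, g2, g3⟩ := (bb15 x).1 g; linarith) (by decide)
  · exact iff_of_true ((bb16 x).2 ⟨by linarith, by linarith, by linarith⟩) (by decide)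
  · exact iff_of_false (fun g => by obtain ⟨g1, g2, g3⟩ := (bb17 x).1 g; linarith) (by decide)
  · exact iff_of_false (fun g => by obtain ⟨⟨g1, g2, g3⟩, g4⟩ := (bb18 x).1 g; linarith) (by decide)
  · exact iff_of_false (fun g => by obtain ⟨⟨g1, g2, g3⟩, g4⟩ := (bb19 x).1 g; linarith) (by decide)
  · exact iff_of_false (fun g => by obtain ⟨⟨g1, g2, g3⟩, g4⟩ := (bb20 x).1 g; linarith) (by decide)
  · exact iff_of_false (fun g => by obtain ⟨⟨g1, g2, g3⟩, g4⟩ := (bb21 x).1 g; linarith) (by decide)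
  · exact iff_of_false (fun g => by obtain ⟨⟨g1, g2, g3⟩, g4⟩ := (bb22 x).1 g; linarith) (by decide)
  · exact iff_of_false (fun g => by obtain ⟨⟨g1, g2, g3⟩, g4⟩ := (bb23 x).1 g; linarith) (by decide)
  · exact iff_of_false (fun g => by obtain ⟨⟨g1, g2, g3⟩, g4⟩ := (bb24 x).1 g; linarith) (by decide)
  · exact iff_of_false (fun g => by obtain ⟨⟨g1, g2, g3⟩, g4⟩ := (bb25 x).1 g; linarith) (by decide)
  · exact iff_of_false (fun g => by obtain ⟨⟨g1, g2, g3⟩, g4⟩ := (bb26 x).1 g; linarith) (by decide)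
  · exact iff_of_false (fun g => by obtain ⟨⟨g1, g2, g3⟩, g4⟩ := (bb27 x).1 g; linarith) (by decide)
  · exact iff_of_false (fun g => by obtain ⟨⟨g1, g2, g3⟩, g4⟩ := (bb28 x).1 g; linarith) (by decide)
  · exact iff_of_false (fun g => by obtain ⟨⟨g1, g2, g3⟩, g4⟩ := (bb29 x).1 g; linarith) (by decide)
  · exact iff_of_false (fun g => by obtain ⟨⟨g1, g2, g3⟩, g4⟩ := (bb30 x).1 g; linarith) (by decide)
  · exact iff_of_false (fun g => by obtain ⟨⟨g1, g2, g3⟩, g4⟩ := (bb31 x).1 g; linarith) (by decide)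
  · exact iff_of_false (fun g => by obtain ⟨⟨g1, g2, g3⟩, g4⟩ := (bb32 x).1 g; linarith) (by decide)
  · exact iff_of_false (fun g => by obtain ⟨⟨g1, g2, g3⟩, g4⟩ := (bb33 x).1 g; linarith) (by decide)
  · exact iff_of_false (fun g => by obtain ⟨⟨g1, g2, g3⟩, g4⟩ := (bb34 x).1 g; linarith) (by decide)
  · exact iff_of_false (fun g => by obtain ⟨⟨g1, g2, g3⟩, g4⟩ := (bb35 x).1 g; linarith) (by decide)
  · exact iff_of_false (fun g => by obtain ⟨⟨g1, g2, g3⟩, g4⟩ := (bb36 x).1 g; linarith) (by decide)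
  · exact iff_of_false (fun g => by obtain ⟨⟨g1, g2, g3⟩, g4⟩ := (bb37 x).1 g; linarith) (by decide)
  · exact iff_of_true ((bb38 x).2 ⟨⟨by linarith, by linarith, by linarith⟩, by linarith⟩) (by decide)
  · exact iff_of_false (fun g => by obtain ⟨⟨g1, g2, g3⟩, g4⟩ := (bb39 x).1 g; linarith) (by decide)
  · exact iff_of_false (fun g => by obtain ⟨⟨g1, g2, g3⟩, g4⟩ := (bb40 x).1 g; linarith) (by decide)
  · exact iff_of_false (fun g => by obtain ⟨⟨g1, g2, g3⟩, g4⟩ := (bb41 x).1 g; linarith) (by decide)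
  · exact iff_of_false (fun g => by obtain ⟨⟨g1, g2, g3⟩, g4⟩ := (bb42 x).1 g; linarith) (by decide)
  · exact iff_of_false (fun g => by obtain ⟨⟨g1, g2, g3⟩, g4⟩ := (bb43 x).1 g; linarith) (by decide)
  · exact iff_of_false (fun g => by obtain ⟨⟨g1, g2, g3⟩, g4⟩ := (bb44 x).1 g; linarith) (by decide)
  · exact iff_of_false (fun g => by obtain ⟨g1, g2⟩ := (bb45 x).1 g; linarith) (by decide)
  · exact iff_of_false (fun g => by obtain ⟨g1, g2⟩ := (bb46 x).1 g; linarith) (by decide)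
  · exact iff_of_false (fun g => by obtain ⟨g1, g2⟩ := (bb47 x).1 g; linarith) (by decide)
  · exact iff_of_false (fun g => by obtain ⟨g1, g2⟩ := (bb48 x).1 g; linarith) (by decide)
  · exact iff_of_false (fun g => by obtain ⟨g1, g2⟩ := (bb49 x).1 g; linarith) (by decide)
  · exact iff_of_false (fun g => by obtain ⟨g1, g2⟩ := (bb50 x).1 g; linarith) (by decide)
  · exact iff_of_false (fun g => by obtain ⟨g1, g2⟩ := (bb51 x).1 g; linarith) (by decide)
  · exact iff_of_false (fun g => by obtain ⟨g1, g2⟩ := (bb52 x).1 g; linarith) (by decide)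

/-- the open cell 39 -/
theorem oo39 (x : ℂ) (h1 : 0 < -x.re + 2 * x.im)
    (h2 : 0 < 2 * x.re - 2 * x.im)
    (h3 : -x.re + 2 = 0) : ∀ κ < 53,
    (x ∈ bs κ ↔ (bm κ).testBit 39 = true) := by
  intro κ hκ
  interval_cases κ
  · exact iff_of_false (fun g => by obtain ⟨g1, g2, g3⟩ := (bb0 x).1 g; linarith) (by decide)
  · exact iff_of_true ((bb1 x).2 ⟨by linarith, by linarith, by linarith⟩) (by decide)
  · exact iff_of_false (fun g => by obtain ⟨g1, g2, g3⟩ := (bb2 x).1 g; linarith) (by decide)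
  · exact iff_of_false (fun g => by obtain ⟨g1, g2, g3⟩ := (bb3 x).1 g; linarith) (by decide)
  · exact iff_of_false (fun g => by obtain ⟨g1, g2, g3⟩ := (bb4 x).1 g; linarith) (by decide)
  · exact iff_of_false (fun g => by obtain ⟨g1, g2, g3⟩ := (bb5 x).1 g; linarith) (by decide)
  · exact iff_of_false (fun g => by obtain ⟨g1, g2, g3⟩ := (bb6 x).1 g; linarith) (by decide)
  · exact iff_of_false (fun g => by obtain ⟨g1, g2, g3⟩ := (bb7 x).1 g; linarith) (by decide)
  · exact iff_of_true ((bb8 x).2 ⟨by linarith, by linarith, by linarith⟩) (by decide)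
  · exact iff_of_false (fun g => by obtain ⟨g1, g2, g3⟩ := (bb9 x).1 g; linarith) (by decide)
  · exact iff_of_false (fun g => by obtain ⟨g1, g2, g3⟩ := (bb10 x).1 g; linarith) (by decide)
  · exact iff_of_false (fun g => by obtain ⟨g1, g2, g3⟩ := (bb11 x).1 g; linarith) (by decide)
  · exact iff_of_false (fun g => by obtain ⟨g1, g2, g3⟩ := (bb12 x).1 g; linarith) (by decide)
  · exact iff_of_false (fun g => by obtain ⟨g1, g2, g3⟩ := (bb13 x).1 g; linarith) (by decide)
  · exact iff_of_false (fun g => by obtain ⟨g1, g2, g3⟩ := (bb14 x).1 g; linarith) (by decide)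
  · exact iff_of_false (fun g => by obtain ⟨g1, g2, g3⟩ := (bb15 x).1 g; linarith) (by decide)
  · exact iff_of_false (fun g => by obtain ⟨g1, g2, g3⟩ := (bb16 x).1 g; linarith) (by decide)
  · exact iff_of_false (fun g => by obtain ⟨g1, g2, g3⟩ := (bb17 x).1 g; linarith) (by decide)
  · exact iff_of_false (fun g => by obtain ⟨⟨g1, g2, g3⟩, g4⟩ := (bb18 x).1 g; linarith) (by decide)
  · exact iff_of_false (fun g => by obtain ⟨⟨g1, g2, g3⟩, g4⟩ := (bb19 x).1 g; linarith) (by decide)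
  · exact iff_of_false (fun g => by obtain ⟨⟨g1, g2, g3⟩, g4⟩ := (bb20 x).1 g; linarith) (by decide)
  · exact iff_of_false (fun g => by obtain ⟨⟨g1, g2, g3⟩, g4⟩ := (bb21 x).1 g; linarith) (by decide)
  · exact iff_of_false (fun g => by obtain ⟨⟨g1, g2, g3⟩, g4⟩ := (bb22 x).1 g; linarith) (by decide)
  · exact iff_of_false (fun g => by obtain ⟨⟨g1, g2, g3⟩, g4⟩ := (bb23 x).1 g; linarith) (by decide)
  · exact iff_of_false (fun g => by obtain ⟨⟨g1, g2, g3⟩, g4⟩ := (bb24 x).1 g; linarith) (by decide)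
  · exact iff_of_false (fun g => by obtain ⟨⟨g1, g2, g3⟩, g4⟩ := (bb25 x).1 g; linarith) (by decide)
  · exact iff_of_false (fun g => by obtain ⟨⟨g1, g2, g3⟩, g4⟩ := (bb26 x).1 g; linarith) (by decide)
  · exact iff_of_false (fun g => by obtain ⟨⟨g1, g2, g3⟩, g4⟩ := (bb27 x).1 g; linarith) (by decide)
  · exact iff_of_false (fun g => by obtain ⟨⟨g1, g2, g3⟩, g4⟩ := (bb28 x).1 g; linarith) (by decide)
  · exact iff_of_false (fun g => by obtain ⟨⟨g1, g2, g3⟩, g4⟩ := (bb29 x).1 g; linarith) (by decide)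
  · exact iff_of_false (fun g => by obtain ⟨⟨g1, g2, g3⟩, g4⟩ := (bb30 x).1 g; linarith) (by decide)
  · exact iff_of_false (fun g => by obtain ⟨⟨g1, g2, g3⟩, g4⟩ := (bb31 x).1 g; linarith) (by decide)
  · exact iff_of_false (fun g => by obtain ⟨⟨g1, g2, g3⟩, g4⟩ := (bb32 x).1 g; linarith) (by decide)
  · exact iff_of_false (fun g => by obtain ⟨⟨g1, g2, g3⟩, g4⟩ := (bb33 x).1 g; linarith) (by decide)
  · exact iff_of_false (fun g => by obtain ⟨⟨g1, g2, g3⟩, g4⟩ := (bb34 x).1 g; linarith) (by decide)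
  · exact iff_of_false (fun g => by obtain ⟨⟨g1, g2, g3⟩, g4⟩ := (bb35 x).1 g; linarith) (by decide)
  · exact iff_of_false (fun g => by obtain ⟨⟨g1, g2, g3⟩, g4⟩ := (bb36 x).1 g; linarith) (by decide)
  · exact iff_of_false (fun g => by obtain ⟨⟨g1, g2, g3⟩, g4⟩ := (bb37 x).1 g; linarith) (by decide)
  · exact iff_of_false (fun g => by obtain ⟨⟨g1, g2, g3⟩, g4⟩ := (bb38 x).1 g; linarith) (by decide)
  · exact iff_of_true ((bb39 x).2 ⟨⟨by linarith, by linarith, by linarith⟩, by linarith⟩) (by decide)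
  · exact iff_of_false (fun g => by obtain ⟨⟨g1, g2, g3⟩, g4⟩ := (bb40 x).1 g; linarith) (by decide)
  · exact iff_of_false (fun g => by obtain ⟨⟨g1, g2, g3⟩, g4⟩ := (bb41 x).1 g; linarith) (by decide)
  · exact iff_of_false (fun g => by obtain ⟨⟨g1, g2, g3⟩, g4⟩ := (bb42 x).1 g; linarith) (by decide)
  · exact iff_of_false (fun g => by obtain ⟨⟨g1, g2, g3⟩, g4⟩ := (bb43 x).1 g; linarith) (by decide)
  · exact iff_of_false (fun g => by obtain ⟨⟨g1, g2, g3⟩, g4⟩ := (bb44 x).1 g; linarith) (by decide)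
  · exact iff_of_false (fun g => by obtain ⟨g1, g2⟩ := (bb45 x).1 g; linarith) (by decide)
  · exact iff_of_false (fun g => by obtain ⟨g1, g2⟩ := (bb46 x).1 g; linarith) (by decide)
  · exact iff_of_false (fun g => by obtain ⟨g1, g2⟩ := (bb47 x).1 g; linarith) (by decide)
  · exact iff_of_false (fun g => by obtain ⟨g1, g2⟩ := (bb48 x).1 g; linarith) (by decide)
  · exact iff_of_false (fun g => by obtain ⟨g1, g2⟩ := (bb49 x).1 g; linarith) (by decide)
  · exact iff_of_false (fun g => by obtain ⟨g1, g2⟩ := (bb50 x).1 g; linarith) (by decide)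
  · exact iff_of_false (fun g => by obtain ⟨g1, g2⟩ := (bb51 x).1 g; linarith) (by decide)
  · exact iff_of_false (fun g => by obtain ⟨g1, g2⟩ := (bb52 x).1 g; linarith) (by decide)

/-- the open cell 40 -/
theorem oo40 (x : ℂ) (h1 : 0 < x.re + 2 * x.im)
    (h2 : 0 < x.re - 2 * x.im)
    (h3 : -(2 * x.re) + 4 = 0) : ∀ κ < 53,
    (x ∈ bs κ ↔ (bm κ).testBit 40 = true) := by
  intro κ hκ
  interval_cases κ
  · exact iff_of_true ((bb0 x).2 ⟨by linarith, by linarith, by linarith⟩) (by decide)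
  · exact iff_of_false (fun g => by obtain ⟨g1, g2, g3⟩ := (bb1 x).1 g; linarith) (by decide)
  · exact iff_of_false (fun g => by obtain ⟨g1, g2, g3⟩ := (bb2 x).1 g; linarith) (by decide)
  · exact iff_of_false (fun g => by obtain ⟨g1, g2, g3⟩ := (bb3 x).1 g; linarith) (by decide)
  · exact iff_of_false (fun g => by obtain ⟨g1, g2, g3⟩ := (bb4 x).1 g; linarith) (by decide)
  · exact iff_of_false (fun g => by obtain ⟨g1, g2, g3⟩ := (bb5 x).1 g; linarith) (by decide)
  · exact iff_of_false (fun g => by obtain ⟨g1, g2, g3⟩ := (bb6 x).1 g; linarith) (by decide)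
  · exact iff_of_false (fun g => by obtain ⟨g1, g2, g3⟩ := (bb7 x).1 g; linarith) (by decide)
  · exact iff_of_false (fun g => by obtain ⟨g1, g2, g3⟩ := (bb8 x).1 g; linarith) (by decide)
  · exact iff_of_true ((bb9 x).2 ⟨by linarith, by linarith, by linarith⟩) (by decide)
  · exact iff_of_false (fun g => by obtain ⟨g1, g2, g3⟩ := (bb10 x).1 g; linarith) (by decide)
  · exact iff_of_false (fun g => by obtain ⟨g1, g2, g3⟩ := (bb11 x).1 g; linarith) (by decide)
  · exact iff_of_false (fun g => by obtain ⟨g1, g2, g3⟩ := (bb12 x).1 g; linarith) (by decide)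
  · exact iff_of_false (fun g => by obtain ⟨g1, g2, g3⟩ := (bb13 x).1 g; linarith) (by decide)
  · exact iff_of_false (fun g => by obtain ⟨g1, g2, g3⟩ := (bb14 x).1 g; linarith) (by decide)
  · exact iff_of_false (fun g => by obtain ⟨g1, g2, g3⟩ := (bb15 x).1 g; linarith) (by decide)
  · exact iff_of_false (fun g => by obtain ⟨g1, g2, g3⟩ := (bb16 x).1 g; linarith) (by decide)
  · exact iff_of_false (fun g => by obtain ⟨g1, g2, g3⟩ := (bb17 x).1 g; linarith) (by decide)
  · exact iff_of_false (fun g => by obtain ⟨⟨g1, g2, g3⟩, g4⟩ := (bb18 x).1 g; linarith) (by decide)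
  · exact iff_of_false (fun g => by obtain ⟨⟨g1, g2, g3⟩, g4⟩ := (bb19 x).1 g; linarith) (by decide)
  · exact iff_of_false (fun g => by obtain ⟨⟨g1, g2, g3⟩, g4⟩ := (bb20 x).1 g; linarith) (by decide)
  · exact iff_of_false (fun g => by obtain ⟨⟨g1, g2, g3⟩, g4⟩ := (bb21 x).1 g; linarith) (by decide)
  · exact iff_of_false (fun g => by obtain ⟨⟨g1, g2, g3⟩, g4⟩ := (bb22 x).1 g; linarith) (by decide)
  · exact iff_of_false (fun g => by obtain ⟨⟨g1, g2, g3⟩, g4⟩ := (bb23 x).1 g; linarith) (by decide)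
  · exact iff_of_false (fun g => by obtain ⟨⟨g1, g2, g3⟩, g4⟩ := (bb24 x).1 g; linarith) (by decide)
  · exact iff_of_false (fun g => by obtain ⟨⟨g1, g2, g3⟩, g4⟩ := (bb25 x).1 g; linarith) (by decide)
  · exact iff_of_false (fun g => by obtain ⟨⟨g1, g2, g3⟩, g4⟩ := (bb26 x).1 g; linarith) (by decide)
  · exact iff_of_false (fun g => by obtain ⟨⟨g1, g2, g3⟩, g4⟩ := (bb27 x).1 g; linarith) (by decide)
  · exact iff_of_false (fun g => by obtain ⟨⟨g1, g2, g3⟩, g4⟩ := (bb28 x).1 g; linarith) (by decide)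
  · exact iff_of_false (fun g => by obtain ⟨⟨g1, g2, g3⟩, g4⟩ := (bb29 x).1 g; linarith) (by decide)
  · exact iff_of_false (fun g => by obtain ⟨⟨g1, g2, g3⟩, g4⟩ := (bb30 x).1 g; linarith) (by decide)
  · exact iff_of_false (fun g => by obtain ⟨⟨g1, g2, g3⟩, g4⟩ := (bb31 x).1 g; linarith) (by decide)
  · exact iff_of_false (fun g => by obtain ⟨⟨g1, g2, g3⟩, g4⟩ := (bb32 x).1 g; linarith) (by decide)
  · exact iff_of_false (fun g => by obtain ⟨⟨g1, g2, g3⟩, g4⟩ := (bb33 x).1 g; linarith) (by decide)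
  · exact iff_of_false (fun g => by obtain ⟨⟨g1, g2, g3⟩, g4⟩ := (bb34 x).1 g; linarith) (by decide)
  · exact iff_of_false (fun g => by obtain ⟨⟨g1, g2, g3⟩, g4⟩ := (bb35 x).1 g; linarith) (by decide)
  · exact iff_of_false (fun g => by obtain ⟨⟨g1, g2, g3⟩, g4⟩ := (bb36 x).1 g; linarith) (by decide)
  · exact iff_of_false (fun g => by obtain ⟨⟨g1, g2, g3⟩, g4⟩ := (bb37 x).1 g; linarith) (by decide)
  · exact iff_of_false (fun g => by obtain ⟨⟨g1, g2, g3⟩, g4⟩ := (bb38 x).1 g; linarith) (by decide)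
  · exact iff_of_false (fun g => by obtain ⟨⟨g1, g2, g3⟩, g4⟩ := (bb39 x).1 g; linarith) (by decide)
  · exact iff_of_true ((bb40 x).2 ⟨⟨by linarith, by linarith, by linarith⟩, by linarith⟩) (by decide)
  · exact iff_of_false (fun g => by obtain ⟨⟨g1, g2, g3⟩, g4⟩ := (bb41 x).1 g; linarith) (by decide)
  · exact iff_of_false (fun g => by obtain ⟨⟨g1, g2, g3⟩, g4⟩ := (bb42 x).1 g; linarith) (by decide)
  · exact iff_of_false (fun g => by obtain ⟨⟨g1, g2, g3⟩, g4⟩ := (bb43 x).1 g; linarith) (by decide)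
  · exact iff_of_false (fun g => by obtain ⟨⟨g1, g2, g3⟩, g4⟩ := (bb44 x).1 g; linarith) (by decide)
  · exact iff_of_false (fun g => by obtain ⟨g1, g2⟩ := (bb45 x).1 g; linarith) (by decide)
  · exact iff_of_false (fun g => by obtain ⟨g1, g2⟩ := (bb46 x).1 g; linarith) (by decide)
  · exact iff_of_false (fun g => by obtain ⟨g1, g2⟩ := (bb47 x).1 g; linarith) (by decide)
  · exact iff_of_false (fun g => by obtain ⟨g1, g2⟩ := (bb48 x).1 g; linarith) (by decide)
  · exact iff_of_false (fun g => by obtain ⟨g1, g2⟩ := (bb49 x).1 g; linarith) (by decide)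
  · exact iff_of_false (fun g => by obtain ⟨g1, g2⟩ := (bb50 x).1 g; linarith) (by decide)
  · exact iff_of_false (fun g => by obtain ⟨g1, g2⟩ := (bb51 x).1 g; linarith) (by decide)
  · exact iff_of_false (fun g => by obtain ⟨g1, g2⟩ := (bb52 x).1 g; linarith) (by decide)

/-- the open cell 41 -/
theorem oo41 (x : ℂ) (h1 : 0 < 2 * x.re + 2 * x.im)
    (h2 : 0 < -x.re - 2 * x.im)
    (h3 : -x.re + 2 = 0) : ∀ κ < 53,
    (x ∈ bs κ ↔ (bm κ).testBit 41 = true) := by
  intro κ hκ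
  interval_cases κ
  · exact iff_of_false (fun g => by obtain ⟨g1, g2, g3⟩ := (bb0 x).1 g; linarith) (by decide)
  · exact iff_of_false (fun g => by obtain ⟨g1, g2, g3⟩ := (bb1 x).1 g; linarith) (by decide)
  · exact iff_of_false (fun g => by obtain ⟨g1, g2, g3⟩ := (bb2 x).1 g; linarith) (by decide)
  · exact iff_of_false (fun g => by obtain ⟨g1, g2, g3⟩ := (bb3 x).1 g; linarith) (by decide)
  · exact iff_of_false (fun g => by obtain ⟨g1, g2, g3⟩ := (bb4 x).1 g; linarith) (by decide)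
  · exact iff_of_true ((bb5 x).2 ⟨by linarith, by linarith, by linarith⟩) (by decide)
  · exact iff_of_false (fun g => by obtain ⟨g1, g2, g3⟩ := (bb6 x).1 g; linarith) (by decide)
  · exact iff_of_false (fun g => by obtain ⟨g1, g2, g3⟩ := (bb7 x).1 g; linarith) (by decide)
  · exact iff_of_false (fun g => by obtain ⟨g1, g2, g3⟩ := (bb8 x).1 g; linarith) (by decide)
  · exact iff_of_false (fun g => by obtain ⟨g1, g2, g3⟩ := (bb9 x).1 g; linarith) (by decide)
  · exact iff_of_true ((bb10 x).2 ⟨by linarith, by linarith, by linarith⟩) (by decide)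
  · exact iff_of_false (fun g => by obtain ⟨g1, g2, g3⟩ := (bb11 x).1 g; linarith) (by decide)
  · exact iff_of_false (fun g => by obtain ⟨g1, g2, g3⟩ := (bb12 x).1 g; linarith) (by decide)
  · exact iff_of_false (fun g => by obtain ⟨g1, g2, g3⟩ := (bb13 x).1 g; linarith) (by decide)
  · exact iff_of_false (fun g => by obtain ⟨g1, g2, g3⟩ := (bb14 x).1 g; linarith) (by decide)
  · exact iff_of_false (fun g => by obtain ⟨g1, g2, g3⟩ := (bb15 x).1 g; linarith) (by decide)
  · exact iff_of_false (fun g => by obtain ⟨g1, g2, g3⟩ := (bb16 x).1 g; linarith) (by decide)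
  · exact iff_of_false (fun g => by obtain ⟨g1, g2, g3⟩ := (bb17 x).1 g; linarith) (by decide)
  · exact iff_of_false (fun g => by obtain ⟨⟨g1, g2, g3⟩, g4⟩ := (bb18 x).1 g; linarith) (by decide)
  · exact iff_of_false (fun g => by obtain ⟨⟨g1, g2, g3⟩, g4⟩ := (bb19 x).1 g; linarith) (by decide)
  · exact iff_of_false (fun g => by obtain ⟨⟨g1, g2, g3⟩, g4⟩ := (bb20 x).1 g; linarith) (by decide)
  · exact iff_of_false (fun g => by obtain ⟨⟨g1, g2, g3⟩, g4⟩ := (bb21 x).1 g; linarith) (by decide)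
  · exact iff_of_false (fun g => by obtain ⟨⟨g1, g2, g3⟩, g4⟩ := (bb22 x).1 g; linarith) (by decide)
  · exact iff_of_false (fun g => by obtain ⟨⟨g1, g2, g3⟩, g4⟩ := (bb23 x).1 g; linarith) (by decide)
  · exact iff_of_false (fun g => by obtain ⟨⟨g1, g2, g3⟩, g4⟩ := (bb24 x).1 g; linarith) (by decide)
  · exact iff_of_false (fun g => by obtain ⟨⟨g1, g2, g3⟩, g4⟩ := (bb25 x).1 g; linarith) (by decide)
  · exact iff_of_false (fun g => by obtain ⟨⟨g1, g2, g3⟩, g4⟩ := (bb26 x).1 g; linarith) (by decide)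
  · exact iff_of_false (fun g => by obtain ⟨⟨g1, g2, g3⟩, g4⟩ := (bb27 x).1 g; linarith) (by decide)
  · exact iff_of_false (fun g => by obtain ⟨⟨g1, g2, g3⟩, g4⟩ := (bb28 x).1 g; linarith) (by decide)
  · exact iff_of_false (fun g => by obtain ⟨⟨g1, g2, g3⟩, g4⟩ := (bb29 x).1 g; linarith) (by decide)
  · exact iff_of_false (fun g => by obtain ⟨⟨g1, g2, g3⟩, g4⟩ := (bb30 x).1 g; linarith) (by decide)
  · exact iff_of_false (fun g => by obtain ⟨⟨g1, g2, g3⟩, g4⟩ := (bb31 x).1 g; linarith) (by decide)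
  · exact iff_of_false (fun g => by obtain ⟨⟨g1, g2, g3⟩, g4⟩ := (bb32 x).1 g; linarith) (by decide)
  · exact iff_of_false (fun g => by obtain ⟨⟨g1, g2, g3⟩, g4⟩ := (bb33 x).1 g; linarith) (by decide)
  · exact iff_of_false (fun g => by obtain ⟨⟨g1, g2, g3⟩, g4⟩ := (bb34 x).1 g; linarith) (by decide)
  · exact iff_of_false (fun g => by obtain ⟨⟨g1, g2, g3⟩, g4⟩ := (bb35 x).1 g; linarith) (by decide)
  · exact iff_of_false (fun g => by obtain ⟨⟨g1, g2, g3⟩, g4⟩ := (bb36 x).1 g; linarith) (by decide)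
  · exact iff_of_false (fun g => by obtain ⟨⟨g1, g2, g3⟩, g4⟩ := (bb37 x).1 g; linarith) (by decide)
  · exact iff_of_false (fun g => by obtain ⟨⟨g1, g2, g3⟩, g4⟩ := (bb38 x).1 g; linarith) (by decide)
  · exact iff_of_false (fun g => by obtain ⟨⟨g1, g2, g3⟩, g4⟩ := (bb39 x).1 g; linarith) (by decide)
  · exact iff_of_false (fun g => by obtain ⟨⟨g1, g2, g3⟩, g4⟩ := (bb40 x).1 g; linarith) (by decide)
  · exact iff_of_true ((bb41 x).2 ⟨⟨by linarith, by linarith, by linarith⟩, by linarith⟩) (by decide)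
  · exact iff_of_false (fun g => by obtain ⟨⟨g1, g2, g3⟩, g4⟩ := (bb42 x).1 g; linarith) (by decide)
  · exact iff_of_false (fun g => by obtain ⟨⟨g1, g2, g3⟩, g4⟩ := (bb43 x).1 g; linarith) (by decide)
  · exact iff_of_false (fun g => by obtain ⟨⟨g1, g2, g3⟩, g4⟩ := (bb44 x).1 g; linarith) (by decide)
  · exact iff_of_false (fun g => by obtain ⟨g1, g2⟩ := (bb45 x).1 g; linarith) (by decide)
  · exact iff_of_false (fun g => by obtain ⟨g1, g2⟩ := (bb46 x).1 g; linarith) (by decide)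
  · exact iff_of_false (fun g => by obtain ⟨g1, g2⟩ := (bb47 x).1 g; linarith) (by decide)
  · exact iff_of_false (fun g => by obtain ⟨g1, g2⟩ := (bb48 x).1 g; linarith) (by decide)
  · exact iff_of_false (fun g => by obtain ⟨g1, g2⟩ := (bb49 x).1 g; linarith) (by decide)
  · exact iff_of_false (fun g => by obtain ⟨g1, g2⟩ := (bb50 x).1 g; linarith) (by decide)
  · exact iff_of_false (fun g => by obtain ⟨g1, g2⟩ := (bb51 x).1 g; linarith) (by decide)
  · exact iff_of_false (fun g => by obtain ⟨g1, g2⟩ := (bb52 x).1 g; linarith) (by decide)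

/-- the open cell 42 -/
theorem oo42 (x : ℂ) (h1 : 0 < -(2 * x.re) + 2 * x.im + 8)
    (h2 : 0 < 2 * x.re + 2 * x.im - 8)
    (h3 : -(4 * x.im) + 8 = 0) : ∀ κ < 53,
    (x ∈ bs κ ↔ (bm κ).testBit 42 = true) := by
  intro κ hκ
  interval_cases κ
  · exact iff_of_false (fun g => by obtain ⟨g1, g2, g3⟩ := (bb0 x).1 g; linarith) (by decide)
  · exact iff_of_false (fun g => by obtain ⟨g1, g2, g3⟩ := (bb1 x).1 g; linarith) (by decide)
  · exact iff_of_false (fun g => by obtain ⟨g1, g2, g3⟩ := (bb2 x).1 g; linarith) (by decide)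
  · exact iff_of_false (fun g => by obtain ⟨g1, g2, g3⟩ := (bb3 x).1 g; linarith) (by decide)
  · exact iff_of_false (fun g => by obtain ⟨g1, g2, g3⟩ := (bb4 x).1 g; linarith) (by decide)
  · exact iff_of_false (fun g => by obtain ⟨g1, g2, g3⟩ := (bb5 x).1 g; linarith) (by decide)
  · exact iff_of_false (fun g => by obtain ⟨g1, g2, g3⟩ := (bb6 x).1 g; linarith) (by decide)
  · exact iff_of_true ((bb7 x).2 ⟨by linarith, by linarith, by linarith⟩) (by decide)
  · exact iff_of_false (fun g => by obtain ⟨g1, g2, g3⟩ := (bb8 x).1 g; linarith) (by decide)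
  · exact iff_of_false (fun g => by obtain ⟨g1, g2, g3⟩ := (bb9 x).1 g; linarith) (by decide)
  · exact iff_of_false (fun g => by obtain ⟨g1, g2, g3⟩ := (bb10 x).1 g; linarith) (by decide)
  · exact iff_of_false (fun g => by obtain ⟨g1, g2, g3⟩ := (bb11 x).1 g; linarith) (by decide)
  · exact iff_of_false (fun g => by obtain ⟨g1, g2, g3⟩ := (bb12 x).1 g; linarith) (by decide)
  · exact iff_of_true ((bb13 x).2 ⟨by linarith, by linarith, by linarith⟩) (by decide)
  · exact iff_of_false (fun g => by obtain ⟨g1, g2, g3⟩ := (bb14 x).1 g; linarith) (by decide)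
  · exact iff_of_false (fun g => by obtain ⟨g1, g2, g3⟩ := (bb15 x).1 g; linarith) (by decide)
  · exact iff_of_false (fun g => by obtain ⟨g1, g2, g3⟩ := (bb16 x).1 g; linarith) (by decide)
  · exact iff_of_false (fun g => by obtain ⟨g1, g2, g3⟩ := (bb17 x).1 g; linarith) (by decide)
  · exact iff_of_false (fun g => by obtain ⟨⟨g1, g2, g3⟩, g4⟩ := (bb18 x).1 g; linarith) (by decide)
  · exact iff_of_false (fun g => by obtain ⟨⟨g1, g2, g3⟩, g4⟩ := (bb19 x).1 g; linarith) (by decide)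
  · exact iff_of_false (fun g => by obtain ⟨⟨g1, g2, g3⟩, g4⟩ := (bb20 x).1 g; linarith) (by decide)
  · exact iff_of_false (fun g => by obtain ⟨⟨g1, g2, g3⟩, g4⟩ := (bb21 x).1 g; linarith) (by decide)
  · exact iff_of_false (fun g => by obtain ⟨⟨g1, g2, g3⟩, g4⟩ := (bb22 x).1 g; linarith) (by decide)
  · exact iff_of_false (fun g => by obtain ⟨⟨g1, g2, g3⟩, g4⟩ := (bb23 x).1 g; linarith) (by decide)
  · exact iff_of_false (fun g => by obtain ⟨⟨g1, g2, g3⟩, g4⟩ := (bb24 x).1 g; linarith) (by decide)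
  · exact iff_of_false (fun g => by obtain ⟨⟨g1, g2, g3⟩, g4⟩ := (bb25 x).1 g; linarith) (by decide)
  · exact iff_of_false (fun g => by obtain ⟨⟨g1, g2, g3⟩, g4⟩ := (bb26 x).1 g; linarith) (by decide)
  · exact iff_of_false (fun g => by obtain ⟨⟨g1, g2, g3⟩, g4⟩ := (bb27 x).1 g; linarith) (by decide)
  · exact iff_of_false (fun g => by obtain ⟨⟨g1, g2, g3⟩, g4⟩ := (bb28 x).1 g; linarith) (by decide)
  · exact iff_of_false (fun g => by obtain ⟨⟨g1, g2, g3⟩, g4⟩ := (bb29 x).1 g; linarith) (by decide)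
  · exact iff_of_false (fun g => by obtain ⟨⟨g1, g2, g3⟩, g4⟩ := (bb30 x).1 g; linarith) (by decide)
  · exact iff_of_false (fun g => by obtain ⟨⟨g1, g2, g3⟩, g4⟩ := (bb31 x).1 g; linarith) (by decide)
  · exact iff_of_false (fun g => by obtain ⟨⟨g1, g2, g3⟩, g4⟩ := (bb32 x).1 g; linarith) (by decide)
  · exact iff_of_false (fun g => by obtain ⟨⟨g1, g2, g3⟩, g4⟩ := (bb33 x).1 g; linarith) (by decide)
  · exact iff_of_false (fun g => by obtain ⟨⟨g1, g2, g3⟩, g4⟩ := (bb34 x).1 g; linarith) (by decide)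
  · exact iff_of_false (fun g => by obtain ⟨⟨g1, g2, g3⟩, g4⟩ := (bb35 x).1 g; linarith) (by decide)
  · exact iff_of_false (fun g => by obtain ⟨⟨g1, g2, g3⟩, g4⟩ := (bb36 x).1 g; linarith) (by decide)
  · exact iff_of_false (fun g => by obtain ⟨⟨g1, g2, g3⟩, g4⟩ := (bb37 x).1 g; linarith) (by decide)
  · exact iff_of_false (fun g => by obtain ⟨⟨g1, g2, g3⟩, g4⟩ := (bb38 x).1 g; linarith) (by decide)
  · exact iff_of_false (fun g => by obtain ⟨⟨g1, g2, g3⟩, g4⟩ := (bb39 x).1 g; linarith) (by decide)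
  · exact iff_of_false (fun g => by obtain ⟨⟨g1, g2, g3⟩, g4⟩ := (bb40 x).1 g; linarith) (by decide)
  · exact iff_of_false (fun g => by obtain ⟨⟨g1, g2, g3⟩, g4⟩ := (bb41 x).1 g; linarith) (by decide)
  · exact iff_of_true ((bb42 x).2 ⟨⟨by linarith, by linarith, by linarith⟩, by linarith⟩) (by decide)
  · exact iff_of_false (fun g => by obtain ⟨⟨g1, g2, g3⟩, g4⟩ := (bb43 x).1 g; linarith) (by decide)
  · exact iff_of_false (fun g => by obtain ⟨⟨g1, g2, g3⟩, g4⟩ := (bb44 x).1 g; linarith) (by decide)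
  · exact iff_of_false (fun g => by obtain ⟨g1, g2⟩ := (bb45 x).1 g; linarith) (by decide)
  · exact iff_of_false (fun g => by obtain ⟨g1, g2⟩ := (bb46 x).1 g; linarith) (by decide)
  · exact iff_of_false (fun g => by obtain ⟨g1, g2⟩ := (bb47 x).1 g; linarith) (by decide)
  · exact iff_of_false (fun g => by obtain ⟨g1, g2⟩ := (bb48 x).1 g; linarith) (by decide)
  · exact iff_of_false (fun g => by obtain ⟨g1, g2⟩ := (bb49 x).1 g; linarith) (by decide)
  · exact iff_of_false (fun g => by obtain ⟨g1, g2⟩ := (bb50 x).1 g; linarith) (by decide)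
  · exact iff_of_false (fun g => by obtain ⟨g1, g2⟩ := (bb51 x).1 g; linarith) (by decide)
  · exact iff_of_false (fun g => by obtain ⟨g1, g2⟩ := (bb52 x).1 g; linarith) (by decide)

/-- the open cell 43 -/
theorem oo43 (x : ℂ) (h1 : 0 < 2 * x.re + 2 * x.im - 8)
    (h2 : 0 < 2 * x.re - 2 * x.im - 8)
    (h3 : -(4 * x.re) + 24 = 0) : ∀ κ < 53,
    (x ∈ bs κ ↔ (bm κ).testBit 43 = true) := by
  intro κ hκ
  interval_cases κ
  · exact iff_of_false (fun g => by obtain ⟨g1, g2, g3⟩ := (bb0 x).1 g; linarith) (by decide)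
  · exact iff_of_false (fun g => by obtain ⟨g1, g2, g3⟩ := (bb1 x).1 g; linarith) (by decide)
  · exact iff_of_false (fun g => by obtain ⟨g1, g2, g3⟩ := (bb2 x).1 g; linarith) (by decide)
  · exact iff_of_false (fun g => by obtain ⟨g1, g2, g3⟩ := (bb3 x).1 g; linarith) (by decide)
  · exact iff_of_false (fun g => by obtain ⟨g1, g2, g3⟩ := (bb4 x).1 g; linarith) (by decide)
  · exact iff_of_false (fun g => by obtain ⟨g1, g2, g3⟩ := (bb5 x).1 g; linarith) (by decide)
  · exact iff_of_true ((bb6 x).2 ⟨by linarith, by linarith, by linarith⟩) (by decide)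
  · exact iff_of_false (fun g => by obtain ⟨g1, g2, g3⟩ := (bb7 x).1 g; linarith) (by decide)
  · exact iff_of_false (fun g => by obtain ⟨g1, g2, g3⟩ := (bb8 x).1 g; linarith) (by decide)
  · exact iff_of_false (fun g => by obtain ⟨g1, g2, g3⟩ := (bb9 x).1 g; linarith) (by decide)
  · exact iff_of_false (fun g => by obtain ⟨g1, g2, g3⟩ := (bb10 x).1 g; linarith) (by decide)
  · exact iff_of_false (fun g => by obtain ⟨g1, g2, g3⟩ := (bb11 x).1 g; linarith) (by decide)
  · exact iff_of_true ((bb12 x).2 ⟨by linarith, by linarith, by linarith⟩) (by decide)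
  · exact iff_of_false (fun g => by obtain ⟨g1, g2, g3⟩ := (bb13 x).1 g; linarith) (by decide)
  · exact iff_of_false (fun g => by obtain ⟨g1, g2, g3⟩ := (bb14 x).1 g; linarith) (by decide)
  · exact iff_of_false (fun g => by obtain ⟨g1, g2, g3⟩ := (bb15 x).1 g; linarith) (by decide)
  · exact iff_of_false (fun g => by obtain ⟨g1, g2, g3⟩ := (bb16 x).1 g; linarith) (by decide)
  · exact iff_of_false (fun g => by obtain ⟨g1, g2, g3⟩ := (bb17 x).1 g; linarith) (by decide)
  · exact iff_of_false (fun g => by obtain ⟨⟨g1, g2, g3⟩, g4⟩ := (bb18 x).1 g; linarith) (by decide)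
  · exact iff_of_false (fun g => by obtain ⟨⟨g1, g2, g3⟩, g4⟩ := (bb19 x).1 g; linarith) (by decide)
  · exact iff_of_false (fun g => by obtain ⟨⟨g1, g2, g3⟩, g4⟩ := (bb20 x).1 g; linarith) (by decide)
  · exact iff_of_false (fun g => by obtain ⟨⟨g1, g2, g3⟩, g4⟩ := (bb21 x).1 g; linarith) (by decide)
  · exact iff_of_false (fun g => by obtain ⟨⟨g1, g2, g3⟩, g4⟩ := (bb22 x).1 g; linarith) (by decide)
  · exact iff_of_false (fun g => by obtain ⟨⟨g1, g2, g3⟩, g4⟩ := (bb23 x).1 g; linarith) (by decide)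
  · exact iff_of_false (fun g => by obtain ⟨⟨g1, g2, g3⟩, g4⟩ := (bb24 x).1 g; linarith) (by decide)
  · exact iff_of_false (fun g => by obtain ⟨⟨g1, g2, g3⟩, g4⟩ := (bb25 x).1 g; linarith) (by decide)
  · exact iff_of_false (fun g => by obtain ⟨⟨g1, g2, g3⟩, g4⟩ := (bb26 x).1 g; linarith) (by decide)
  · exact iff_of_false (fun g => by obtain ⟨⟨g1, g2, g3⟩, g4⟩ := (bb27 x).1 g; linarith) (by decide)
  · exact iff_of_false (fun g => by obtain ⟨⟨g1, g2, g3⟩, g4⟩ := (bb28 x).1 g; linarith) (by decide)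
  · exact iff_of_false (fun g => by obtain ⟨⟨g1, g2, g3⟩, g4⟩ := (bb29 x).1 g; linarith) (by decide)
  · exact iff_of_false (fun g => by obtain ⟨⟨g1, g2, g3⟩, g4⟩ := (bb30 x).1 g; linarith) (by decide)
  · exact iff_of_false (fun g => by obtain ⟨⟨g1, g2, g3⟩, g4⟩ := (bb31 x).1 g; linarith) (by decide)
  · exact iff_of_false (fun g => by obtain ⟨⟨g1, g2, g3⟩, g4⟩ := (bb32 x).1 g; linarith) (by decide)
  · exact iff_of_false (fun g => by obtain ⟨⟨g1, g2, g3⟩, g4⟩ := (bb33 x).1 g; linarith) (by decide)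
  · exact iff_of_false (fun g => by obtain ⟨⟨g1, g2, g3⟩, g4⟩ := (bb34 x).1 g; linarith) (by decide)
  · exact iff_of_false (fun g => by obtain ⟨⟨g1, g2, g3⟩, g4⟩ := (bb35 x).1 g; linarith) (by decide)
  · exact iff_of_false (fun g => by obtain ⟨⟨g1, g2, g3⟩, g4⟩ := (bb36 x).1 g; linarith) (by decide)
  · exact iff_of_false (fun g => by obtain ⟨⟨g1, g2, g3⟩, g4⟩ := (bb37 x).1 g; linarith) (by decide)
  · exact iff_of_false (fun g => by obtain ⟨⟨g1, g2, g3⟩, g4⟩ := (bb38 x).1 g; linarith) (by decide)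
  · exact iff_of_false (fun g => by obtain ⟨⟨g1, g2, g3⟩, g4⟩ := (bb39 x).1 g; linarith) (by decide)
  · exact iff_of_false (fun g => by obtain ⟨⟨g1, g2, g3⟩, g4⟩ := (bb40 x).1 g; linarith) (by decide)
  · exact iff_of_false (fun g => by obtain ⟨⟨g1, g2, g3⟩, g4⟩ := (bb41 x).1 g; linarith) (by decide)
  · exact iff_of_false (fun g => by obtain ⟨⟨g1, g2, g3⟩, g4⟩ := (bb42 x).1 g; linarith) (by decide)
  · exact iff_of_true ((bb43 x).2 ⟨⟨by linarith, by linarith, by linarith⟩, by linarith⟩) (by decide)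
  · exact iff_of_false (fun g => by obtain ⟨⟨g1, g2, g3⟩, g4⟩ := (bb44 x).1 g; linarith) (by decide)
  · exact iff_of_false (fun g => by obtain ⟨g1, g2⟩ := (bb45 x).1 g; linarith) (by decide)
  · exact iff_of_false (fun g => by obtain ⟨g1, g2⟩ := (bb46 x).1 g; linarith) (by decide)
  · exact iff_of_false (fun g => by obtain ⟨g1, g2⟩ := (bb47 x).1 g; linarith) (by decide)
  · exact iff_of_false (fun g => by obtain ⟨g1, g2⟩ := (bb48 x).1 g; linarith) (by decide)
  · exact iff_of_false (fun g => by obtain ⟨g1, g2⟩ := (bb49 x).1 g; linarith) (by decide)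
  · exact iff_of_false (fun g => by obtain ⟨g1, g2⟩ := (bb50 x).1 g; linarith) (by decide)
  · exact iff_of_false (fun g => by obtain ⟨g1, g2⟩ := (bb51 x).1 g; linarith) (by decide)
  · exact iff_of_false (fun g => by obtain ⟨g1, g2⟩ := (bb52 x).1 g; linarith) (by decide)

/-- the open cell 44 -/
theorem oo44 (x : ℂ) (h1 : 0 < 2 * x.re - 2 * x.im - 8)
    (h2 : 0 < -(2 * x.re) - 2 * x.im + 8)
    (h3 : 4 * x.im + 8 = 0) : ∀ κ < 53,
    (x ∈ bs κ ↔ (bm κ).testBit 44 = true) := by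
  intro κ hκ
  interval_cases κ
  · exact iff_of_false (fun g => by obtain ⟨g1, g2, g3⟩ := (bb0 x).1 g; linarith) (by decide)
  · exact iff_of_false (fun g => by obtain ⟨g1, g2, g3⟩ := (bb1 x).1 g; linarith) (by decide)
  · exact iff_of_false (fun g => by obtain ⟨g1, g2, g3⟩ := (bb2 x).1 g; linarith) (by decide)
  · exact iff_of_false (fun g => by obtain ⟨g1, g2, g3⟩ := (bb3 x).1 g; linarith) (by decide)
  · exact iff_of_false (fun g => by obtain ⟨g1, g2, g3⟩ := (bb4 x).1 g; linarith) (by decide)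
  · exact iff_of_false (fun g => by obtain ⟨g1, g2, g3⟩ := (bb5 x).1 g; linarith) (by decide)
  · exact iff_of_false (fun g => by obtain ⟨g1, g2, g3⟩ := (bb6 x).1 g; linarith) (by decide)
  · exact iff_of_false (fun g => by obtain ⟨g1, g2, g3⟩ := (bb7 x).1 g; linarith) (by decide)
  · exact iff_of_false (fun g => by obtain ⟨g1, g2, g3⟩ := (bb8 x).1 g; linarith) (by decide)
  · exact iff_of_false (fun g => by obtain ⟨g1, g2, g3⟩ := (bb9 x).1 g; linarith) (by decide)
  · exact iff_of_false (fun g => by obtain ⟨g1, g2, g3⟩ := (bb10 x).1 g; linarith) (by decide)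
  · exact iff_of_true ((bb11 x).2 ⟨by linarith, by linarith, by linarith⟩) (by decide)
  · exact iff_of_false (fun g => by obtain ⟨g1, g2, g3⟩ := (bb12 x).1 g; linarith) (by decide)
  · exact iff_of_false (fun g => by obtain ⟨g1, g2, g3⟩ := (bb13 x).1 g; linarith) (by decide)
  · exact iff_of_false (fun g => by obtain ⟨g1, g2, g3⟩ := (bb14 x).1 g; linarith) (by decide)
  · exact iff_of_false (fun g => by obtain ⟨g1, g2, g3⟩ := (bb15 x).1 g; linarith) (by decide)
  · exact iff_of_false (fun g => by obtain ⟨g1, g2, g3⟩ := (bb16 x).1 g; linarith) (by decide)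
  · exact iff_of_true ((bb17 x).2 ⟨by linarith, by linarith, by linarith⟩) (by decide)
  · exact iff_of_false (fun g => by obtain ⟨⟨g1, g2, g3⟩, g4⟩ := (bb18 x).1 g; linarith) (by decide)
  · exact iff_of_false (fun g => by obtain ⟨⟨g1, g2, g3⟩, g4⟩ := (bb19 x).1 g; linarith) (by decide)
  · exact iff_of_false (fun g => by obtain ⟨⟨g1, g2, g3⟩, g4⟩ := (bb20 x).1 g; linarith) (by decide)
  · exact iff_of_false (fun g => by obtain ⟨⟨g1, g2, g3⟩, g4⟩ := (bb21 x).1 g; linarith) (by decide)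
  · exact iff_of_false (fun g => by obtain ⟨⟨g1, g2, g3⟩, g4⟩ := (bb22 x).1 g; linarith) (by decide)
  · exact iff_of_false (fun g => by obtain ⟨⟨g1, g2, g3⟩, g4⟩ := (bb23 x).1 g; linarith) (by decide)
  · exact iff_of_false (fun g => by obtain ⟨⟨g1, g2, g3⟩, g4⟩ := (bb24 x).1 g; linarith) (by decide)
  · exact iff_of_false (fun g => by obtain ⟨⟨g1, g2, g3⟩, g4⟩ := (bb25 x).1 g; linarith) (by decide)
  · exact iff_of_false (fun g => by obtain ⟨⟨g1, g2, g3⟩, g4⟩ := (bb26 x).1 g; linarith) (by decide)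
  · exact iff_of_false (fun g => by obtain ⟨⟨g1, g2, g3⟩, g4⟩ := (bb27 x).1 g; linarith) (by decide)
  · exact iff_of_false (fun g => by obtain ⟨⟨g1, g2, g3⟩, g4⟩ := (bb28 x).1 g; linarith) (by decide)
  · exact iff_of_false (fun g => by obtain ⟨⟨g1, g2, g3⟩, g4⟩ := (bb29 x).1 g; linarith) (by decide)
  · exact iff_of_false (fun g => by obtain ⟨⟨g1, g2, g3⟩, g4⟩ := (bb30 x).1 g; linarith) (by decide)
  · exact iff_of_false (fun g => by obtain ⟨⟨g1, g2, g3⟩, g4⟩ := (bb31 x).1 g; linarith) (by decide)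
  · exact iff_of_false (fun g => by obtain ⟨⟨g1, g2, g3⟩, g4⟩ := (bb32 x).1 g; linarith) (by decide)
  · exact iff_of_false (fun g => by obtain ⟨⟨g1, g2, g3⟩, g4⟩ := (bb33 x).1 g; linarith) (by decide)
  · exact iff_of_false (fun g => by obtain ⟨⟨g1, g2, g3⟩, g4⟩ := (bb34 x).1 g; linarith) (by decide)
  · exact iff_of_false (fun g => by obtain ⟨⟨g1, g2, g3⟩, g4⟩ := (bb35 x).1 g; linarith) (by decide)
  · exact iff_of_false (fun g => by obtain ⟨⟨g1, g2, g3⟩, g4⟩ := (bb36 x).1 g; linarith) (by decide)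
  · exact iff_of_false (fun g => by obtain ⟨⟨g1, g2, g3⟩, g4⟩ := (bb37 x).1 g; linarith) (by decide)
  · exact iff_of_false (fun g => by obtain ⟨⟨g1, g2, g3⟩, g4⟩ := (bb38 x).1 g; linarith) (by decide)
  · exact iff_of_false (fun g => by obtain ⟨⟨g1, g2, g3⟩, g4⟩ := (bb39 x).1 g; linarith) (by decide)
  · exact iff_of_false (fun g => by obtain ⟨⟨g1, g2, g3⟩, g4⟩ := (bb40 x).1 g; linarith) (by decide)
  · exact iff_of_false (fun g => by obtain ⟨⟨g1, g2, g3⟩, g4⟩ := (bb41 x).1 g; linarith) (by decide)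
  · exact iff_of_false (fun g => by obtain ⟨⟨g1, g2, g3⟩, g4⟩ := (bb42 x).1 g; linarith) (by decide)
  · exact iff_of_false (fun g => by obtain ⟨⟨g1, g2, g3⟩, g4⟩ := (bb43 x).1 g; linarith) (by decide)
  · exact iff_of_true ((bb44 x).2 ⟨⟨by linarith, by linarith, by linarith⟩, by linarith⟩) (by decide)
  · exact iff_of_false (fun g => by obtain ⟨g1, g2⟩ := (bb45 x).1 g; linarith) (by decide)
  · exact iff_of_false (fun g => by obtain ⟨g1, g2⟩ := (bb46 x).1 g; linarith) (by decide)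
  · exact iff_of_false (fun g => by obtain ⟨g1, g2⟩ := (bb47 x).1 g; linarith) (by decide)
  · exact iff_of_false (fun g => by obtain ⟨g1, g2⟩ := (bb48 x).1 g; linarith) (by decide)
  · exact iff_of_false (fun g => by obtain ⟨g1, g2⟩ := (bb49 x).1 g; linarith) (by decide)
  · exact iff_of_false (fun g => by obtain ⟨g1, g2⟩ := (bb50 x).1 g; linarith) (by decide)
  · exact iff_of_false (fun g => by obtain ⟨g1, g2⟩ := (bb51 x).1 g; linarith) (by decide)
  · exact iff_of_false (fun g => by obtain ⟨g1, g2⟩ := (bb52 x).1 g; linarith) (by decide)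

/-- the open cell 45 -/
theorem oo45 (x : ℂ) (h1 : x.re - 2 = 0)
    (h2 : x.im - 2 = 0) : ∀ κ < 53,
    (x ∈ bs κ ↔ (bm κ).testBit 45 = true) := by
  intro κ hκ
  interval_cases κ
  · exact iff_of_false (fun g => by obtain ⟨g1, g2, g3⟩ := (bb0 x).1 g; linarith) (by decide)
  · exact iff_of_true ((bb1 x).2 ⟨by linarith, by linarith, by linarith⟩) (by decide)
  · exact iff_of_true ((bb2 x).2 ⟨by linarith, by linarith, by linarith⟩) (by decide)
  · exact iff_of_false (fun g => by obtain ⟨g1, g2, g3⟩ := (bb3 x).1 g; linarith) (by decide)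
  · exact iff_of_false (fun g => by obtain ⟨g1, g2, g3⟩ := (bb4 x).1 g; linarith) (by decide)
  · exact iff_of_false (fun g => by obtain ⟨g1, g2, g3⟩ := (bb5 x).1 g; linarith) (by decide)
  · exact iff_of_false (fun g => by obtain ⟨g1, g2, g3⟩ := (bb6 x).1 g; linarith) (by decide)
  · exact iff_of_true ((bb7 x).2 ⟨by linarith, by linarith, by linarith⟩) (by decide)
  · exact iff_of_true ((bb8 x).2 ⟨by linarith, by linarith, by linarith⟩) (by decide)
  · exact iff_of_false (fun g => by obtain ⟨g1, g2, g3⟩ := (bb9 x).1 g; linarith) (by decide)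
  · exact iff_of_false (fun g => by obtain ⟨g1, g2, g3⟩ := (bb10 x).1 g; linarith) (by decide)
  · exact iff_of_false (fun g => by obtain ⟨g1, g2, g3⟩ := (bb11 x).1 g; linarith) (by decide)
  · exact iff_of_false (fun g => by obtain ⟨g1, g2, g3⟩ := (bb12 x).1 g; linarith) (by decide)
  · exact iff_of_true ((bb13 x).2 ⟨by linarith, by linarith, by linarith⟩) (by decide)
  · exact iff_of_true ((bb14 x).2 ⟨by linarith, by linarith, by linarith⟩) (by decide)
  · exact iff_of_false (fun g => by obtain ⟨g1, g2, g3⟩ := (bb15 x).1 g; linarith) (by decide)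
  · exact iff_of_false (fun g => by obtain ⟨g1, g2, g3⟩ := (bb16 x).1 g; linarith) (by decide)
  · exact iff_of_false (fun g => by obtain ⟨g1, g2, g3⟩ := (bb17 x).1 g; linarith) (by decide)
  · exact iff_of_false (fun g => by obtain ⟨⟨g1, g2, g3⟩, g4⟩ := (bb18 x).1 g; linarith) (by decide)
  · exact iff_of_false (fun g => by obtain ⟨⟨g1, g2, g3⟩, g4⟩ := (bb19 x).1 g; linarith) (by decide)
  · exact iff_of_true ((bb20 x).2 ⟨⟨by linarith, by linarith, by linarith⟩, by linarith⟩) (by decide)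
  · exact iff_of_false (fun g => by obtain ⟨⟨g1, g2, g3⟩, g4⟩ := (bb21 x).1 g; linarith) (by decide)
  · exact iff_of_false (fun g => by obtain ⟨⟨g1, g2, g3⟩, g4⟩ := (bb22 x).1 g; linarith) (by decide)
  · exact iff_of_false (fun g => by obtain ⟨⟨g1, g2, g3⟩, g4⟩ := (bb23 x).1 g; linarith) (by decide)
  · exact iff_of_false (fun g => by obtain ⟨⟨g1, g2, g3⟩, g4⟩ := (bb24 x).1 g; linarith) (by decide)
  · exact iff_of_false (fun g => by obtain ⟨⟨g1, g2, g3⟩, g4⟩ := (bb25 x).1 g; linarith) (by decide)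
  · exact iff_of_true ((bb26 x).2 ⟨⟨by linarith, by linarith, by linarith⟩, by linarith⟩) (by decide)
  · exact iff_of_false (fun g => by obtain ⟨⟨g1, g2, g3⟩, g4⟩ := (bb27 x).1 g; linarith) (by decide)
  · exact iff_of_false (fun g => by obtain ⟨⟨g1, g2, g3⟩, g4⟩ := (bb28 x).1 g; linarith) (by decide)
  · exact iff_of_false (fun g => by obtain ⟨⟨g1, g2, g3⟩, g4⟩ := (bb29 x).1 g; linarith) (by decide)
  · exact iff_of_false (fun g => by obtain ⟨⟨g1, g2, g3⟩, g4⟩ := (bb30 x).1 g; linarith) (by decide)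
  · exact iff_of_false (fun g => by obtain ⟨⟨g1, g2, g3⟩, g4⟩ := (bb31 x).1 g; linarith) (by decide)
  · exact iff_of_true ((bb32 x).2 ⟨⟨by linarith, by linarith, by linarith⟩, by linarith⟩) (by decide)
  · exact iff_of_false (fun g => by obtain ⟨⟨g1, g2, g3⟩, g4⟩ := (bb33 x).1 g; linarith) (by decide)
  · exact iff_of_false (fun g => by obtain ⟨⟨g1, g2, g3⟩, g4⟩ := (bb34 x).1 g; linarith) (by decide)
  · exact iff_of_false (fun g => by obtain ⟨⟨g1, g2, g3⟩, g4⟩ := (bb35 x).1 g; linarith) (by decide)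
  · exact iff_of_true ((bb36 x).2 ⟨⟨by linarith, by linarith, by linarith⟩, by linarith⟩) (by decide)
  · exact iff_of_false (fun g => by obtain ⟨⟨g1, g2, g3⟩, g4⟩ := (bb37 x).1 g; linarith) (by decide)
  · exact iff_of_false (fun g => by obtain ⟨⟨g1, g2, g3⟩, g4⟩ := (bb38 x).1 g; linarith) (by decide)
  · exact iff_of_true ((bb39 x).2 ⟨⟨by linarith, by linarith, by linarith⟩, by linarith⟩) (by decide)
  · exact iff_of_false (fun g => by obtain ⟨⟨g1, g2, g3⟩, g4⟩ := (bb40 x).1 g; linarith) (by decide)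
  · exact iff_of_false (fun g => by obtain ⟨⟨g1, g2, g3⟩, g4⟩ := (bb41 x).1 g; linarith) (by decide)
  · exact iff_of_true ((bb42 x).2 ⟨⟨by linarith, by linarith, by linarith⟩, by linarith⟩) (by decide)
  · exact iff_of_false (fun g => by obtain ⟨⟨g1, g2, g3⟩, g4⟩ := (bb43 x).1 g; linarith) (by decide)
  · exact iff_of_false (fun g => by obtain ⟨⟨g1, g2, g3⟩, g4⟩ := (bb44 x).1 g; linarith) (by decide)
  · exact iff_of_true ((bb45 x).2 ⟨by linarith, by linarith⟩) (by decide)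
  · exact iff_of_false (fun g => by obtain ⟨g1, g2⟩ := (bb46 x).1 g; linarith) (by decide)
  · exact iff_of_false (fun g => by obtain ⟨g1, g2⟩ := (bb47 x).1 g; linarith) (by decide)
  · exact iff_of_false (fun g => by obtain ⟨g1, g2⟩ := (bb48 x).1 g; linarith) (by decide)
  · exact iff_of_false (fun g => by obtain ⟨g1, g2⟩ := (bb49 x).1 g; linarith) (by decide)
  · exact iff_of_false (fun g => by obtain ⟨g1, g2⟩ := (bb50 x).1 g; linarith) (by decide)
  · exact iff_of_false (fun g => by obtain ⟨g1, g2⟩ := (bb51 x).1 g; linarith) (by decide)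
  · exact iff_of_false (fun g => by obtain ⟨g1, g2⟩ := (bb52 x).1 g; linarith) (by decide)

/-- the open cell 46 -/
theorem oo46 (x : ℂ) (h1 : x.re - 2 = 0)
    (h2 : x.im + 2 = 0) : ∀ κ < 53,
    (x ∈ bs κ ↔ (bm κ).testBit 46 = true) := by
  intro κ hκ
  interval_cases κ
  · exact iff_of_false (fun g => by obtain ⟨g1, g2, g3⟩ := (bb0 x).1 g; linarith) (by decide)
  · exact iff_of_false (fun g => by obtain ⟨g1, g2, g3⟩ := (bb1 x).1 g; linarith) (by decide)
  · exact iff_of_false (fun g => by obtain ⟨g1, g2, g3⟩ := (bb2 x).1 g; linarith) (by decide)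
  · exact iff_of_false (fun g => by obtain ⟨g1, g2, g3⟩ := (bb3 x).1 g; linarith) (by decide)
  · exact iff_of_true ((bb4 x).2 ⟨by linarith, by linarith, by linarith⟩) (by decide)
  · exact iff_of_true ((bb5 x).2 ⟨by linarith, by linarith, by linarith⟩) (by decide)
  · exact iff_of_false (fun g => by obtain ⟨g1, g2, g3⟩ := (bb6 x).1 g; linarith) (by decide)
  · exact iff_of_false (fun g => by obtain ⟨g1, g2, g3⟩ := (bb7 x).1 g; linarith) (by decide)
  · exact iff_of_false (fun g => by obtain ⟨g1, g2, g3⟩ := (bb8 x).1 g; linarith) (by decide)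
  · exact iff_of_false (fun g => by obtain ⟨g1, g2, g3⟩ := (bb9 x).1 g; linarith) (by decide)
  · exact iff_of_true ((bb10 x).2 ⟨by linarith, by linarith, by linarith⟩) (by decide)
  · exact iff_of_true ((bb11 x).2 ⟨by linarith, by linarith, by linarith⟩) (by decide)
  · exact iff_of_false (fun g => by obtain ⟨g1, g2, g3⟩ := (bb12 x).1 g; linarith) (by decide)
  · exact iff_of_false (fun g => by obtain ⟨g1, g2, g3⟩ := (bb13 x).1 g; linarith) (by decide)
  · exact iff_of_false (fun g => by obtain ⟨g1, g2, g3⟩ := (bb14 x).1 g; linarith) (by decide)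
  · exact iff_of_false (fun g => by obtain ⟨g1, g2, g3⟩ := (bb15 x).1 g; linarith) (by decide)
  · exact iff_of_true ((bb16 x).2 ⟨by linarith, by linarith, by linarith⟩) (by decide)
  · exact iff_of_true ((bb17 x).2 ⟨by linarith, by linarith, by linarith⟩) (by decide)
  · exact iff_of_false (fun g => by obtain ⟨⟨g1, g2, g3⟩, g4⟩ := (bb18 x).1 g; linarith) (by decide)
  · exact iff_of_false (fun g => by obtain ⟨⟨g1, g2, g3⟩, g4⟩ := (bb19 x).1 g; linarith) (by decide)
  · exact iff_of_false (fun g => by obtain ⟨⟨g1, g2, g3⟩, g4⟩ := (bb20 x).1 g; linarith) (by decide)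
  · exact iff_of_false (fun g => by obtain ⟨⟨g1, g2, g3⟩, g4⟩ := (bb21 x).1 g; linarith) (by decide)
  · exact iff_of_false (fun g => by obtain ⟨⟨g1, g2, g3⟩, g4⟩ := (bb22 x).1 g; linarith) (by decide)
  · exact iff_of_true ((bb23 x).2 ⟨⟨by linarith, by linarith, by linarith⟩, by linarith⟩) (by decide)
  · exact iff_of_false (fun g => by obtain ⟨⟨g1, g2, g3⟩, g4⟩ := (bb24 x).1 g; linarith) (by decide)
  · exact iff_of_false (fun g => by obtain ⟨⟨g1, g2, g3⟩, g4⟩ := (bb25 x).1 g; linarith) (by decide)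
  · exact iff_of_false (fun g => by obtain ⟨⟨g1, g2, g3⟩, g4⟩ := (bb26 x).1 g; linarith) (by decide)
  · exact iff_of_false (fun g => by obtain ⟨⟨g1, g2, g3⟩, g4⟩ := (bb27 x).1 g; linarith) (by decide)
  · exact iff_of_false (fun g => by obtain ⟨⟨g1, g2, g3⟩, g4⟩ := (bb28 x).1 g; linarith) (by decide)
  · exact iff_of_true ((bb29 x).2 ⟨⟨by linarith, by linarith, by linarith⟩, by linarith⟩) (by decide)
  · exact iff_of_false (fun g => by obtain ⟨⟨g1, g2, g3⟩, g4⟩ := (bb30 x).1 g; linarith) (by decide)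
  · exact iff_of_false (fun g => by obtain ⟨⟨g1, g2, g3⟩, g4⟩ := (bb31 x).1 g; linarith) (by decide)
  · exact iff_of_false (fun g => by obtain ⟨⟨g1, g2, g3⟩, g4⟩ := (bb32 x).1 g; linarith) (by decide)
  · exact iff_of_false (fun g => by obtain ⟨⟨g1, g2, g3⟩, g4⟩ := (bb33 x).1 g; linarith) (by decide)
  · exact iff_of_false (fun g => by obtain ⟨⟨g1, g2, g3⟩, g4⟩ := (bb34 x).1 g; linarith) (by decide)
  · exact iff_of_true ((bb35 x).2 ⟨⟨by linarith, by linarith, by linarith⟩, by linarith⟩) (by decide)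
  · exact iff_of_false (fun g => by obtain ⟨⟨g1, g2, g3⟩, g4⟩ := (bb36 x).1 g; linarith) (by decide)
  · exact iff_of_false (fun g => by obtain ⟨⟨g1, g2, g3⟩, g4⟩ := (bb37 x).1 g; linarith) (by decide)
  · exact iff_of_true ((bb38 x).2 ⟨⟨by linarith, by linarith, by linarith⟩, by linarith⟩) (by decide)
  · exact iff_of_false (fun g => by obtain ⟨⟨g1, g2, g3⟩, g4⟩ := (bb39 x).1 g; linarith) (by decide)
  · exact iff_of_false (fun g => by obtain ⟨⟨g1, g2, g3⟩, g4⟩ := (bb40 x).1 g; linarith) (by decide)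
  · exact iff_of_true ((bb41 x).2 ⟨⟨by linarith, by linarith, by linarith⟩, by linarith⟩) (by decide)
  · exact iff_of_false (fun g => by obtain ⟨⟨g1, g2, g3⟩, g4⟩ := (bb42 x).1 g; linarith) (by decide)
  · exact iff_of_false (fun g => by obtain ⟨⟨g1, g2, g3⟩, g4⟩ := (bb43 x).1 g; linarith) (by decide)
  · exact iff_of_true ((bb44 x).2 ⟨⟨by linarith, by linarith, by linarith⟩, by linarith⟩) (by decide)
  · exact iff_of_false (fun g => by obtain ⟨g1, g2⟩ := (bb45 x).1 g; linarith) (by decide)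
  · exact iff_of_true ((bb46 x).2 ⟨by linarith, by linarith⟩) (by decide)
  · exact iff_of_false (fun g => by obtain ⟨g1, g2⟩ := (bb47 x).1 g; linarith) (by decide)
  · exact iff_of_false (fun g => by obtain ⟨g1, g2⟩ := (bb48 x).1 g; linarith) (by decide)
  · exact iff_of_false (fun g => by obtain ⟨g1, g2⟩ := (bb49 x).1 g; linarith) (by decide)
  · exact iff_of_false (fun g => by obtain ⟨g1, g2⟩ := (bb50 x).1 g; linarith) (by decide)
  · exact iff_of_false (fun g => by obtain ⟨g1, g2⟩ := (bb51 x).1 g; linarith) (by decide)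
  · exact iff_of_false (fun g => by obtain ⟨g1, g2⟩ := (bb52 x).1 g; linarith) (by decide)

/-- the open cell 47 -/
theorem oo47 (x : ℂ) (h1 : x.re + 2 = 0)
    (h2 : x.im - 2 = 0) : ∀ κ < 53,
    (x ∈ bs κ ↔ (bm κ).testBit 47 = true) := by
  intro κ hκ
  interval_cases κ
  · exact iff_of_false (fun g => by obtain ⟨g1, g2, g3⟩ := (bb0 x).1 g; linarith) (by decide)
  · exact iff_of_false (fun g => by obtain ⟨g1, g2, g3⟩ := (bb1 x).1 g; linarith) (by decide)
  · exact iff_of_true ((bb2 x).2 ⟨by linarith, by linarith, by linarith⟩) (by decide)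
  · exact iff_of_true ((bb3 x).2 ⟨by linarith, by linarith, by linarith⟩) (by decide)
  · exact iff_of_false (fun g => by obtain ⟨g1, g2, g3⟩ := (bb4 x).1 g; linarith) (by decide)
  · exact iff_of_false (fun g => by obtain ⟨g1, g2, g3⟩ := (bb5 x).1 g; linarith) (by decide)
  · exact iff_of_false (fun g => by obtain ⟨g1, g2, g3⟩ := (bb6 x).1 g; linarith) (by decide)
  · exact iff_of_false (fun g => by obtain ⟨g1, g2, g3⟩ := (bb7 x).1 g; linarith) (by decide)
  · exact iff_of_false (fun g => by obtain ⟨g1, g2, g3⟩ := (bb8 x).1 g; linarith) (by decide)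
  · exact iff_of_false (fun g => by obtain ⟨g1, g2, g3⟩ := (bb9 x).1 g; linarith) (by decide)
  · exact iff_of_false (fun g => by obtain ⟨g1, g2, g3⟩ := (bb10 x).1 g; linarith) (by decide)
  · exact iff_of_false (fun g => by obtain ⟨g1, g2, g3⟩ := (bb11 x).1 g; linarith) (by decide)
  · exact iff_of_false (fun g => by obtain ⟨g1, g2, g3⟩ := (bb12 x).1 g; linarith) (by decide)
  · exact iff_of_false (fun g => by obtain ⟨g1, g2, g3⟩ := (bb13 x).1 g; linarith) (by decide)
  · exact iff_of_true ((bb14 x).2 ⟨by linarith, by linarith, by linarith⟩) (by decide)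
  · exact iff_of_true ((bb15 x).2 ⟨by linarith, by linarith, by linarith⟩) (by decide)
  · exact iff_of_false (fun g => by obtain ⟨g1, g2, g3⟩ := (bb16 x).1 g; linarith) (by decide)
  · exact iff_of_false (fun g => by obtain ⟨g1, g2, g3⟩ := (bb17 x).1 g; linarith) (by decide)
  · exact iff_of_false (fun g => by obtain ⟨⟨g1, g2, g3⟩, g4⟩ := (bb18 x).1 g; linarith) (by decide)
  · exact iff_of_false (fun g => by obtain ⟨⟨g1, g2, g3⟩, g4⟩ := (bb19 x).1 g; linarith) (by decide)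
  · exact iff_of_false (fun g => by obtain ⟨⟨g1, g2, g3⟩, g4⟩ := (bb20 x).1 g; linarith) (by decide)
  · exact iff_of_true ((bb21 x).2 ⟨⟨by linarith, by linarith, by linarith⟩, by linarith⟩) (by decide)
  · exact iff_of_false (fun g => by obtain ⟨⟨g1, g2, g3⟩, g4⟩ := (bb22 x).1 g; linarith) (by decide)
  · exact iff_of_false (fun g => by obtain ⟨⟨g1, g2, g3⟩, g4⟩ := (bb23 x).1 g; linarith) (by decide)
  · exact iff_of_false (fun g => by obtain ⟨⟨g1, g2, g3⟩, g4⟩ := (bb24 x).1 g; linarith) (by decide)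
  · exact iff_of_false (fun g => by obtain ⟨⟨g1, g2, g3⟩, g4⟩ := (bb25 x).1 g; linarith) (by decide)
  · exact iff_of_false (fun g => by obtain ⟨⟨g1, g2, g3⟩, g4⟩ := (bb26 x).1 g; linarith) (by decide)
  · exact iff_of_false (fun g => by obtain ⟨⟨g1, g2, g3⟩, g4⟩ := (bb27 x).1 g; linarith) (by decide)
  · exact iff_of_false (fun g => by obtain ⟨⟨g1, g2, g3⟩, g4⟩ := (bb28 x).1 g; linarith) (by decide)
  · exact iff_of_false (fun g => by obtain ⟨⟨g1, g2, g3⟩, g4⟩ := (bb29 x).1 g; linarith) (by decide)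
  · exact iff_of_false (fun g => by obtain ⟨⟨g1, g2, g3⟩, g4⟩ := (bb30 x).1 g; linarith) (by decide)
  · exact iff_of_false (fun g => by obtain ⟨⟨g1, g2, g3⟩, g4⟩ := (bb31 x).1 g; linarith) (by decide)
  · exact iff_of_false (fun g => by obtain ⟨⟨g1, g2, g3⟩, g4⟩ := (bb32 x).1 g; linarith) (by decide)
  · exact iff_of_true ((bb33 x).2 ⟨⟨by linarith, by linarith, by linarith⟩, by linarith⟩) (by decide)
  · exact iff_of_false (fun g => by obtain ⟨⟨g1, g2, g3⟩, g4⟩ := (bb34 x).1 g; linarith) (by decide)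
  · exact iff_of_false (fun g => by obtain ⟨⟨g1, g2, g3⟩, g4⟩ := (bb35 x).1 g; linarith) (by decide)
  · exact iff_of_true ((bb36 x).2 ⟨⟨by linarith, by linarith, by linarith⟩, by linarith⟩) (by decide)
  · exact iff_of_true ((bb37 x).2 ⟨⟨by linarith, by linarith, by linarith⟩, by linarith⟩) (by decide)
  · exact iff_of_false (fun g => by obtain ⟨⟨g1, g2, g3⟩, g4⟩ := (bb38 x).1 g; linarith) (by decide)
  · exact iff_of_false (fun g => by obtain ⟨⟨g1, g2, g3⟩, g4⟩ := (bb39 x).1 g; linarith) (by decide)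
  · exact iff_of_false (fun g => by obtain ⟨⟨g1, g2, g3⟩, g4⟩ := (bb40 x).1 g; linarith) (by decide)
  · exact iff_of_false (fun g => by obtain ⟨⟨g1, g2, g3⟩, g4⟩ := (bb41 x).1 g; linarith) (by decide)
  · exact iff_of_false (fun g => by obtain ⟨⟨g1, g2, g3⟩, g4⟩ := (bb42 x).1 g; linarith) (by decide)
  · exact iff_of_false (fun g => by obtain ⟨⟨g1, g2, g3⟩, g4⟩ := (bb43 x).1 g; linarith) (by decide)
  · exact iff_of_false (fun g => by obtain ⟨⟨g1, g2, g3⟩, g4⟩ := (bb44 x).1 g; linarith) (by decide)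
  · exact iff_of_false (fun g => by obtain ⟨g1, g2⟩ := (bb45 x).1 g; linarith) (by decide)
  · exact iff_of_false (fun g => by obtain ⟨g1, g2⟩ := (bb46 x).1 g; linarith) (by decide)
  · exact iff_of_true ((bb47 x).2 ⟨by linarith, by linarith⟩) (by decide)
  · exact iff_of_false (fun g => by obtain ⟨g1, g2⟩ := (bb48 x).1 g; linarith) (by decide)
  · exact iff_of_false (fun g => by obtain ⟨g1, g2⟩ := (bb49 x).1 g; linarith) (by decide)
  · exact iff_of_false (fun g => by obtain ⟨g1, g2⟩ := (bb50 x).1 g; linarith) (by decide)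
  · exact iff_of_false (fun g => by obtain ⟨g1, g2⟩ := (bb51 x).1 g; linarith) (by decide)
  · exact iff_of_false (fun g => by obtain ⟨g1, g2⟩ := (bb52 x).1 g; linarith) (by decide)

/-- the open cell 48 -/
theorem oo48 (x : ℂ) (h1 : x.re + 2 = 0)
    (h2 : x.im + 2 = 0) : ∀ κ < 53,
    (x ∈ bs κ ↔ (bm κ).testBit 48 = true) := by
  intro κ hκ
  interval_cases κ
  · exact iff_of_false (fun g => by obtain ⟨g1, g2, g3⟩ := (bb0 x).1 g; linarith) (by decide)
  · exact iff_of_false (fun g => by obtain ⟨g1, g2, g3⟩ := (bb1 x).1 g; linarith) (by decide)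
  · exact iff_of_false (fun g => by obtain ⟨g1, g2, g3⟩ := (bb2 x).1 g; linarith) (by decide)
  · exact iff_of_true ((bb3 x).2 ⟨by linarith, by linarith, by linarith⟩) (by decide)
  · exact iff_of_true ((bb4 x).2 ⟨by linarith, by linarith, by linarith⟩) (by decide)
  · exact iff_of_false (fun g => by obtain ⟨g1, g2, g3⟩ := (bb5 x).1 g; linarith) (by decide)
  · exact iff_of_false (fun g => by obtain ⟨g1, g2, g3⟩ := (bb6 x).1 g; linarith) (by decide)
  · exact iff_of_false (fun g => by obtain ⟨g1, g2, g3⟩ := (bb7 x).1 g; linarith) (by decide)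
  · exact iff_of_false (fun g => by obtain ⟨g1, g2, g3⟩ := (bb8 x).1 g; linarith) (by decide)
  · exact iff_of_false (fun g => by obtain ⟨g1, g2, g3⟩ := (bb9 x).1 g; linarith) (by decide)
  · exact iff_of_false (fun g => by obtain ⟨g1, g2, g3⟩ := (bb10 x).1 g; linarith) (by decide)
  · exact iff_of_false (fun g => by obtain ⟨g1, g2, g3⟩ := (bb11 x).1 g; linarith) (by decide)
  · exact iff_of_false (fun g => by obtain ⟨g1, g2, g3⟩ := (bb12 x).1 g; linarith) (by decide)
  · exact iff_of_false (fun g => by obtain ⟨g1, g2, g3⟩ := (bb13 x).1 g; linarith) (by decide)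
  · exact iff_of_false (fun g => by obtain ⟨g1, g2, g3⟩ := (bb14 x).1 g; linarith) (by decide)
  · exact iff_of_true ((bb15 x).2 ⟨by linarith, by linarith, by linarith⟩) (by decide)
  · exact iff_of_true ((bb16 x).2 ⟨by linarith, by linarith, by linarith⟩) (by decide)
  · exact iff_of_false (fun g => by obtain ⟨g1, g2, g3⟩ := (bb17 x).1 g; linarith) (by decide)
  · exact iff_of_false (fun g => by obtain ⟨⟨g1, g2, g3⟩, g4⟩ := (bb18 x).1 g; linarith) (by decide)
  · exact iff_of_false (fun g => by obtain ⟨⟨g1, g2, g3⟩, g4⟩ := (bb19 x).1 g; linarith) (by decide)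
  · exact iff_of_false (fun g => by obtain ⟨⟨g1, g2, g3⟩, g4⟩ := (bb20 x).1 g; linarith) (by decide)
  · exact iff_of_false (fun g => by obtain ⟨⟨g1, g2, g3⟩, g4⟩ := (bb21 x).1 g; linarith) (by decide)
  · exact iff_of_true ((bb22 x).2 ⟨⟨by linarith, by linarith, by linarith⟩, by linarith⟩) (by decide)
  · exact iff_of_false (fun g => by obtain ⟨⟨g1, g2, g3⟩, g4⟩ := (bb23 x).1 g; linarith) (by decide)
  · exact iff_of_false (fun g => by obtain ⟨⟨g1, g2, g3⟩, g4⟩ := (bb24 x).1 g; linarith) (by decide)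
  · exact iff_of_false (fun g => by obtain ⟨⟨g1, g2, g3⟩, g4⟩ := (bb25 x).1 g; linarith) (by decide)
  · exact iff_of_false (fun g => by obtain ⟨⟨g1, g2, g3⟩, g4⟩ := (bb26 x).1 g; linarith) (by decide)
  · exact iff_of_false (fun g => by obtain ⟨⟨g1, g2, g3⟩, g4⟩ := (bb27 x).1 g; linarith) (by decide)
  · exact iff_of_false (fun g => by obtain ⟨⟨g1, g2, g3⟩, g4⟩ := (bb28 x).1 g; linarith) (by decide)
  · exact iff_of_false (fun g => by obtain ⟨⟨g1, g2, g3⟩, g4⟩ := (bb29 x).1 g; linarith) (by decide)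
  · exact iff_of_false (fun g => by obtain ⟨⟨g1, g2, g3⟩, g4⟩ := (bb30 x).1 g; linarith) (by decide)
  · exact iff_of_false (fun g => by obtain ⟨⟨g1, g2, g3⟩, g4⟩ := (bb31 x).1 g; linarith) (by decide)
  · exact iff_of_false (fun g => by obtain ⟨⟨g1, g2, g3⟩, g4⟩ := (bb32 x).1 g; linarith) (by decide)
  · exact iff_of_false (fun g => by obtain ⟨⟨g1, g2, g3⟩, g4⟩ := (bb33 x).1 g; linarith) (by decide)
  · exact iff_of_true ((bb34 x).2 ⟨⟨by linarith, by linarith, by linarith⟩, by linarith⟩) (by decide)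
  · exact iff_of_false (fun g => by obtain ⟨⟨g1, g2, g3⟩, g4⟩ := (bb35 x).1 g; linarith) (by decide)
  · exact iff_of_false (fun g => by obtain ⟨⟨g1, g2, g3⟩, g4⟩ := (bb36 x).1 g; linarith) (by decide)
  · exact iff_of_true ((bb37 x).2 ⟨⟨by linarith, by linarith, by linarith⟩, by linarith⟩) (by decide)
  · exact iff_of_true ((bb38 x).2 ⟨⟨by linarith, by linarith, by linarith⟩, by linarith⟩) (by decide)
  · exact iff_of_false (fun g => by obtain ⟨⟨g1, g2, g3⟩, g4⟩ := (bb39 x).1 g; linarith) (by decide)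
  · exact iff_of_false (fun g => by obtain ⟨⟨g1, g2, g3⟩, g4⟩ := (bb40 x).1 g; linarith) (by decide)
  · exact iff_of_false (fun g => by obtain ⟨⟨g1, g2, g3⟩, g4⟩ := (bb41 x).1 g; linarith) (by decide)
  · exact iff_of_false (fun g => by obtain ⟨⟨g1, g2, g3⟩, g4⟩ := (bb42 x).1 g; linarith) (by decide)
  · exact iff_of_false (fun g => by obtain ⟨⟨g1, g2, g3⟩, g4⟩ := (bb43 x).1 g; linarith) (by decide)
  · exact iff_of_false (fun g => by obtain ⟨⟨g1, g2, g3⟩, g4⟩ := (bb44 x).1 g; linarith) (by decide)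
  · exact iff_of_false (fun g => by obtain ⟨g1, g2⟩ := (bb45 x).1 g; linarith) (by decide)
  · exact iff_of_false (fun g => by obtain ⟨g1, g2⟩ := (bb46 x).1 g; linarith) (by decide)
  · exact iff_of_false (fun g => by obtain ⟨g1, g2⟩ := (bb47 x).1 g; linarith) (by decide)
  · exact iff_of_true ((bb48 x).2 ⟨by linarith, by linarith⟩) (by decide)
  · exact iff_of_false (fun g => by obtain ⟨g1, g2⟩ := (bb49 x).1 g; linarith) (by decide)
  · exact iff_of_false (fun g => by obtain ⟨g1, g2⟩ := (bb50 x).1 g; linarith) (by decide)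
  · exact iff_of_false (fun g => by obtain ⟨g1, g2⟩ := (bb51 x).1 g; linarith) (by decide)
  · exact iff_of_false (fun g => by obtain ⟨g1, g2⟩ := (bb52 x).1 g; linarith) (by decide)

/-- the open cell 49 -/
theorem oo49 (x : ℂ) (h1 : x.re - 2 = 0)
    (h2 : x.im - 1 = 0) : ∀ κ < 53,
    (x ∈ bs κ ↔ (bm κ).testBit 49 = true) := by
  intro κ hκ
  interval_cases κ
  · exact iff_of_true ((bb0 x).2 ⟨by linarith, by linarith, by linarith⟩) (by decide)
  · exact iff_of_true ((bb1 x).2 ⟨by linarith, by linarith, by linarith⟩) (by decide)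
  · exact iff_of_false (fun g => by obtain ⟨g1, g2, g3⟩ := (bb2 x).1 g; linarith) (by decide)
  · exact iff_of_false (fun g => by obtain ⟨g1, g2, g3⟩ := (bb3 x).1 g; linarith) (by decide)
  · exact iff_of_false (fun g => by obtain ⟨g1, g2, g3⟩ := (bb4 x).1 g; linarith) (by decide)
  · exact iff_of_false (fun g => by obtain ⟨g1, g2, g3⟩ := (bb5 x).1 g; linarith) (by decide)
  · exact iff_of_false (fun g => by obtain ⟨g1, g2, g3⟩ := (bb6 x).1 g; linarith) (by decide)
  · exact iff_of_false (fun g => by obtain ⟨g1, g2, g3⟩ := (bb7 x).1 g; linarith) (by decide)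
  · exact iff_of_true ((bb8 x).2 ⟨by linarith, by linarith, by linarith⟩) (by decide)
  · exact iff_of_true ((bb9 x).2 ⟨by linarith, by linarith, by linarith⟩) (by decide)
  · exact iff_of_false (fun g => by obtain ⟨g1, g2, g3⟩ := (bb10 x).1 g; linarith) (by decide)
  · exact iff_of_false (fun g => by obtain ⟨g1, g2, g3⟩ := (bb11 x).1 g; linarith) (by decide)
  · exact iff_of_false (fun g => by obtain ⟨g1, g2, g3⟩ := (bb12 x).1 g; linarith) (by decide)
  · exact iff_of_false (fun g => by obtain ⟨g1, g2, g3⟩ := (bb13 x).1 g; linarith) (by decide)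
  · exact iff_of_false (fun g => by obtain ⟨g1, g2, g3⟩ := (bb14 x).1 g; linarith) (by decide)
  · exact iff_of_false (fun g => by obtain ⟨g1, g2, g3⟩ := (bb15 x).1 g; linarith) (by decide)
  · exact iff_of_false (fun g => by obtain ⟨g1, g2, g3⟩ := (bb16 x).1 g; linarith) (by decide)
  · exact iff_of_false (fun g => by obtain ⟨g1, g2, g3⟩ := (bb17 x).1 g; linarith) (by decide)
  · exact iff_of_false (fun g => by obtain ⟨⟨g1, g2, g3⟩, g4⟩ := (bb18 x).1 g; linarith) (by decide)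
  · exact iff_of_true ((bb19 x).2 ⟨⟨by linarith, by linarith, by linarith⟩, by linarith⟩) (by decide)
  · exact iff_of_false (fun g => by obtain ⟨⟨g1, g2, g3⟩, g4⟩ := (bb20 x).1 g; linarith) (by decide)
  · exact iff_of_false (fun g => by obtain ⟨⟨g1, g2, g3⟩, g4⟩ := (bb21 x).1 g; linarith) (by decide)
  · exact iff_of_false (fun g => by obtain ⟨⟨g1, g2, g3⟩, g4⟩ := (bb22 x).1 g; linarith) (by decide)
  · exact iff_of_false (fun g => by obtain ⟨⟨g1, g2, g3⟩, g4⟩ := (bb23 x).1 g; linarith) (by decide)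
  · exact iff_of_false (fun g => by obtain ⟨⟨g1, g2, g3⟩, g4⟩ := (bb24 x).1 g; linarith) (by decide)
  · exact iff_of_false (fun g => by obtain ⟨⟨g1, g2, g3⟩, g4⟩ := (bb25 x).1 g; linarith) (by decide)
  · exact iff_of_false (fun g => by obtain ⟨⟨g1, g2, g3⟩, g4⟩ := (bb26 x).1 g; linarith) (by decide)
  · exact iff_of_true ((bb27 x).2 ⟨⟨by linarith, by linarith, by linarith⟩, by linarith⟩) (by decide)
  · exact iff_of_false (fun g => by obtain ⟨⟨g1, g2, g3⟩, g4⟩ := (bb28 x).1 g; linarith) (by decide)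
  · exact iff_of_false (fun g => by obtain ⟨⟨g1, g2, g3⟩, g4⟩ := (bb29 x).1 g; linarith) (by decide)
  · exact iff_of_false (fun g => by obtain ⟨⟨g1, g2, g3⟩, g4⟩ := (bb30 x).1 g; linarith) (by decide)
  · exact iff_of_false (fun g => by obtain ⟨⟨g1, g2, g3⟩, g4⟩ := (bb31 x).1 g; linarith) (by decide)
  · exact iff_of_false (fun g => by obtain ⟨⟨g1, g2, g3⟩, g4⟩ := (bb32 x).1 g; linarith) (by decide)
  · exact iff_of_false (fun g => by obtain ⟨⟨g1, g2, g3⟩, g4⟩ := (bb33 x).1 g; linarith) (by decide)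
  · exact iff_of_false (fun g => by obtain ⟨⟨g1, g2, g3⟩, g4⟩ := (bb34 x).1 g; linarith) (by decide)
  · exact iff_of_false (fun g => by obtain ⟨⟨g1, g2, g3⟩, g4⟩ := (bb35 x).1 g; linarith) (by decide)
  · exact iff_of_false (fun g => by obtain ⟨⟨g1, g2, g3⟩, g4⟩ := (bb36 x).1 g; linarith) (by decide)
  · exact iff_of_false (fun g => by obtain ⟨⟨g1, g2, g3⟩, g4⟩ := (bb37 x).1 g; linarith) (by decide)
  · exact iff_of_false (fun g => by obtain ⟨⟨g1, g2, g3⟩, g4⟩ := (bb38 x).1 g; linarith) (by decide)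
  · exact iff_of_true ((bb39 x).2 ⟨⟨by linarith, by linarith, by linarith⟩, by linarith⟩) (by decide)
  · exact iff_of_true ((bb40 x).2 ⟨⟨by linarith, by linarith, by linarith⟩, by linarith⟩) (by decide)
  · exact iff_of_false (fun g => by obtain ⟨⟨g1, g2, g3⟩, g4⟩ := (bb41 x).1 g; linarith) (by decide)
  · exact iff_of_false (fun g => by obtain ⟨⟨g1, g2, g3⟩, g4⟩ := (bb42 x).1 g; linarith) (by decide)
  · exact iff_of_false (fun g => by obtain ⟨⟨g1, g2, g3⟩, g4⟩ := (bb43 x).1 g; linarith) (by decide)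
  · exact iff_of_false (fun g => by obtain ⟨⟨g1, g2, g3⟩, g4⟩ := (bb44 x).1 g; linarith) (by decide)
  · exact iff_of_false (fun g => by obtain ⟨g1, g2⟩ := (bb45 x).1 g; linarith) (by decide)
  · exact iff_of_false (fun g => by obtain ⟨g1, g2⟩ := (bb46 x).1 g; linarith) (by decide)
  · exact iff_of_false (fun g => by obtain ⟨g1, g2⟩ := (bb47 x).1 g; linarith) (by decide)
  · exact iff_of_false (fun g => by obtain ⟨g1, g2⟩ := (bb48 x).1 g; linarith) (by decide)
  · exact iff_of_true ((bb49 x).2 ⟨by linarith, by linarith⟩) (by decide)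
  · exact iff_of_false (fun g => by obtain ⟨g1, g2⟩ := (bb50 x).1 g; linarith) (by decide)
  · exact iff_of_false (fun g => by obtain ⟨g1, g2⟩ := (bb51 x).1 g; linarith) (by decide)
  · exact iff_of_false (fun g => by obtain ⟨g1, g2⟩ := (bb52 x).1 g; linarith) (by decide)

/-- the open cell 50 -/
theorem oo50 (x : ℂ) (h1 : x.re - 2 = 0)
    (h2 : x.im + 1 = 0) : ∀ κ < 53,
    (x ∈ bs κ ↔ (bm κ).testBit 50 = true) := by
  intro κ hκ
  interval_cases κ
  · exact iff_of_true ((bb0 x).2 ⟨by linarith, by linarith, by linarith⟩) (by decide)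
  · exact iff_of_false (fun g => by obtain ⟨g1, g2, g3⟩ := (bb1 x).1 g; linarith) (by decide)
  · exact iff_of_false (fun g => by obtain ⟨g1, g2, g3⟩ := (bb2 x).1 g; linarith) (by decide)
  · exact iff_of_false (fun g => by obtain ⟨g1, g2, g3⟩ := (bb3 x).1 g; linarith) (by decide)
  · exact iff_of_false (fun g => by obtain ⟨g1, g2, g3⟩ := (bb4 x).1 g; linarith) (by decide)
  · exact iff_of_true ((bb5 x).2 ⟨by linarith, by linarith, by linarith⟩) (by decide)
  · exact iff_of_false (fun g => by obtain ⟨g1, g2, g3⟩ := (bb6 x).1 g; linarith) (by decide)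
  · exact iff_of_false (fun g => by obtain ⟨g1, g2, g3⟩ := (bb7 x).1 g; linarith) (by decide)
  · exact iff_of_false (fun g => by obtain ⟨g1, g2, g3⟩ := (bb8 x).1 g; linarith) (by decide)
  · exact iff_of_true ((bb9 x).2 ⟨by linarith, by linarith, by linarith⟩) (by decide)
  · exact iff_of_true ((bb10 x).2 ⟨by linarith, by linarith, by linarith⟩) (by decide)
  · exact iff_of_false (fun g => by obtain ⟨g1, g2, g3⟩ := (bb11 x).1 g; linarith) (by decide)
  · exact iff_of_false (fun g => by obtain ⟨g1, g2, g3⟩ := (bb12 x).1 g; linarith) (by decide)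
  · exact iff_of_false (fun g => by obtain ⟨g1, g2, g3⟩ := (bb13 x).1 g; linarith) (by decide)
  · exact iff_of_false (fun g => by obtain ⟨g1, g2, g3⟩ := (bb14 x).1 g; linarith) (by decide)
  · exact iff_of_false (fun g => by obtain ⟨g1, g2, g3⟩ := (bb15 x).1 g; linarith) (by decide)
  · exact iff_of_false (fun g => by obtain ⟨g1, g2, g3⟩ := (bb16 x).1 g; linarith) (by decide)
  · exact iff_of_false (fun g => by obtain ⟨g1, g2, g3⟩ := (bb17 x).1 g; linarith) (by decide)
  · exact iff_of_true ((bb18 x).2 ⟨⟨by linarith, by linarith, by linarith⟩, by linarith⟩) (by decide)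
  · exact iff_of_false (fun g => by obtain ⟨⟨g1, g2, g3⟩, g4⟩ := (bb19 x).1 g; linarith) (by decide)
  · exact iff_of_false (fun g => by obtain ⟨⟨g1, g2, g3⟩, g4⟩ := (bb20 x).1 g; linarith) (by decide)
  · exact iff_of_false (fun g => by obtain ⟨⟨g1, g2, g3⟩, g4⟩ := (bb21 x).1 g; linarith) (by decide)
  · exact iff_of_false (fun g => by obtain ⟨⟨g1, g2, g3⟩, g4⟩ := (bb22 x).1 g; linarith) (by decide)
  · exact iff_of_false (fun g => by obtain ⟨⟨g1, g2, g3⟩, g4⟩ := (bb23 x).1 g; linarith) (by decide)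
  · exact iff_of_false (fun g => by obtain ⟨⟨g1, g2, g3⟩, g4⟩ := (bb24 x).1 g; linarith) (by decide)
  · exact iff_of_false (fun g => by obtain ⟨⟨g1, g2, g3⟩, g4⟩ := (bb25 x).1 g; linarith) (by decide)
  · exact iff_of_false (fun g => by obtain ⟨⟨g1, g2, g3⟩, g4⟩ := (bb26 x).1 g; linarith) (by decide)
  · exact iff_of_false (fun g => by obtain ⟨⟨g1, g2, g3⟩, g4⟩ := (bb27 x).1 g; linarith) (by decide)
  · exact iff_of_true ((bb28 x).2 ⟨⟨by linarith, by linarith, by linarith⟩, by linarith⟩) (by decide)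
  · exact iff_of_false (fun g => by obtain ⟨⟨g1, g2, g3⟩, g4⟩ := (bb29 x).1 g; linarith) (by decide)
  · exact iff_of_false (fun g => by obtain ⟨⟨g1, g2, g3⟩, g4⟩ := (bb30 x).1 g; linarith) (by decide)
  · exact iff_of_false (fun g => by obtain ⟨⟨g1, g2, g3⟩, g4⟩ := (bb31 x).1 g; linarith) (by decide)
  · exact iff_of_false (fun g => by obtain ⟨⟨g1, g2, g3⟩, g4⟩ := (bb32 x).1 g; linarith) (by decide)
  · exact iff_of_false (fun g => by obtain ⟨⟨g1, g2, g3⟩, g4⟩ := (bb33 x).1 g; linarith) (by decide)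
  · exact iff_of_false (fun g => by obtain ⟨⟨g1, g2, g3⟩, g4⟩ := (bb34 x).1 g; linarith) (by decide)
  · exact iff_of_false (fun g => by obtain ⟨⟨g1, g2, g3⟩, g4⟩ := (bb35 x).1 g; linarith) (by decide)
  · exact iff_of_false (fun g => by obtain ⟨⟨g1, g2, g3⟩, g4⟩ := (bb36 x).1 g; linarith) (by decide)
  · exact iff_of_false (fun g => by obtain ⟨⟨g1, g2, g3⟩, g4⟩ := (bb37 x).1 g; linarith) (by decide)
  · exact iff_of_false (fun g => by obtain ⟨⟨g1, g2, g3⟩, g4⟩ := (bb38 x).1 g; linarith) (by decide)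
  · exact iff_of_false (fun g => by obtain ⟨⟨g1, g2, g3⟩, g4⟩ := (bb39 x).1 g; linarith) (by decide)
  · exact iff_of_true ((bb40 x).2 ⟨⟨by linarith, by linarith, by linarith⟩, by linarith⟩) (by decide)
  · exact iff_of_true ((bb41 x).2 ⟨⟨by linarith, by linarith, by linarith⟩, by linarith⟩) (by decide)
  · exact iff_of_false (fun g => by obtain ⟨⟨g1, g2, g3⟩, g4⟩ := (bb42 x).1 g; linarith) (by decide)
  · exact iff_of_false (fun g => by obtain ⟨⟨g1, g2, g3⟩, g4⟩ := (bb43 x).1 g; linarith) (by decide)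
  · exact iff_of_false (fun g => by obtain ⟨⟨g1, g2, g3⟩, g4⟩ := (bb44 x).1 g; linarith) (by decide)
  · exact iff_of_false (fun g => by obtain ⟨g1, g2⟩ := (bb45 x).1 g; linarith) (by decide)
  · exact iff_of_false (fun g => by obtain ⟨g1, g2⟩ := (bb46 x).1 g; linarith) (by decide)
  · exact iff_of_false (fun g => by obtain ⟨g1, g2⟩ := (bb47 x).1 g; linarith) (by decide)
  · exact iff_of_false (fun g => by obtain ⟨g1, g2⟩ := (bb48 x).1 g; linarith) (by decide)
  · exact iff_of_false (fun g => by obtain ⟨g1, g2⟩ := (bb49 x).1 g; linarith) (by decide)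
  · exact iff_of_true ((bb50 x).2 ⟨by linarith, by linarith⟩) (by decide)
  · exact iff_of_false (fun g => by obtain ⟨g1, g2⟩ := (bb51 x).1 g; linarith) (by decide)
  · exact iff_of_false (fun g => by obtain ⟨g1, g2⟩ := (bb52 x).1 g; linarith) (by decide)

/-- the open cell 51 -/
theorem oo51 (x : ℂ) (h1 : x.re - 6 = 0)
    (h2 : x.im - 2 = 0) : ∀ κ < 53,
    (x ∈ bs κ ↔ (bm κ).testBit 51 = true) := by
  intro κ hκ
  interval_cases κ
  · exact iff_of_false (fun g => by obtain ⟨g1, g2, g3⟩ := (bb0 x).1 g; linarith) (by decide)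
  · exact iff_of_false (fun g => by obtain ⟨g1, g2, g3⟩ := (bb1 x).1 g; linarith) (by decide)
  · exact iff_of_false (fun g => by obtain ⟨g1, g2, g3⟩ := (bb2 x).1 g; linarith) (by decide)
  · exact iff_of_false (fun g => by obtain ⟨g1, g2, g3⟩ := (bb3 x).1 g; linarith) (by decide)
  · exact iff_of_false (fun g => by obtain ⟨g1, g2, g3⟩ := (bb4 x).1 g; linarith) (by decide)
  · exact iff_of_false (fun g => by obtain ⟨g1, g2, g3⟩ := (bb5 x).1 g; linarith) (by decide)
  · exact iff_of_true ((bb6 x).2 ⟨by linarith, by linarith, by linarith⟩) (by decide)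
  · exact iff_of_true ((bb7 x).2 ⟨by linarith, by linarith, by linarith⟩) (by decide)
  · exact iff_of_false (fun g => by obtain ⟨g1, g2, g3⟩ := (bb8 x).1 g; linarith) (by decide)
  · exact iff_of_false (fun g => by obtain ⟨g1, g2, g3⟩ := (bb9 x).1 g; linarith) (by decide)
  · exact iff_of_false (fun g => by obtain ⟨g1, g2, g3⟩ := (bb10 x).1 g; linarith) (by decide)
  · exact iff_of_false (fun g => by obtain ⟨g1, g2, g3⟩ := (bb11 x).1 g; linarith) (by decide)
  · exact iff_of_true ((bb12 x).2 ⟨by linarith, by linarith, by linarith⟩) (by decide)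
  · exact iff_of_true ((bb13 x).2 ⟨by linarith, by linarith, by linarith⟩) (by decide)
  · exact iff_of_false (fun g => by obtain ⟨g1, g2, g3⟩ := (bb14 x).1 g; linarith) (by decide)
  · exact iff_of_false (fun g => by obtain ⟨g1, g2, g3⟩ := (bb15 x).1 g; linarith) (by decide)
  · exact iff_of_false (fun g => by obtain ⟨g1, g2, g3⟩ := (bb16 x).1 g; linarith) (by decide)
  · exact iff_of_false (fun g => by obtain ⟨g1, g2, g3⟩ := (bb17 x).1 g; linarith) (by decide)
  · exact iff_of_false (fun g => by obtain ⟨⟨g1, g2, g3⟩, g4⟩ := (bb18 x).1 g; linarith) (by decide)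
  · exact iff_of_false (fun g => by obtain ⟨⟨g1, g2, g3⟩, g4⟩ := (bb19 x).1 g; linarith) (by decide)
  · exact iff_of_false (fun g => by obtain ⟨⟨g1, g2, g3⟩, g4⟩ := (bb20 x).1 g; linarith) (by decide)
  · exact iff_of_false (fun g => by obtain ⟨⟨g1, g2, g3⟩, g4⟩ := (bb21 x).1 g; linarith) (by decide)
  · exact iff_of_false (fun g => by obtain ⟨⟨g1, g2, g3⟩, g4⟩ := (bb22 x).1 g; linarith) (by decide)
  · exact iff_of_false (fun g => by obtain ⟨⟨g1, g2, g3⟩, g4⟩ := (bb23 x).1 g; linarith) (by decide)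
  · exact iff_of_false (fun g => by obtain ⟨⟨g1, g2, g3⟩, g4⟩ := (bb24 x).1 g; linarith) (by decide)
  · exact iff_of_true ((bb25 x).2 ⟨⟨by linarith, by linarith, by linarith⟩, by linarith⟩) (by decide)
  · exact iff_of_false (fun g => by obtain ⟨⟨g1, g2, g3⟩, g4⟩ := (bb26 x).1 g; linarith) (by decide)
  · exact iff_of_false (fun g => by obtain ⟨⟨g1, g2, g3⟩, g4⟩ := (bb27 x).1 g; linarith) (by decide)
  · exact iff_of_false (fun g => by obtain ⟨⟨g1, g2, g3⟩, g4⟩ := (bb28 x).1 g; linarith) (by decide)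
  · exact iff_of_false (fun g => by obtain ⟨⟨g1, g2, g3⟩, g4⟩ := (bb29 x).1 g; linarith) (by decide)
  · exact iff_of_false (fun g => by obtain ⟨⟨g1, g2, g3⟩, g4⟩ := (bb30 x).1 g; linarith) (by decide)
  · exact iff_of_true ((bb31 x).2 ⟨⟨by linarith, by linarith, by linarith⟩, by linarith⟩) (by decide)
  · exact iff_of_false (fun g => by obtain ⟨⟨g1, g2, g3⟩, g4⟩ := (bb32 x).1 g; linarith) (by decide)
  · exact iff_of_false (fun g => by obtain ⟨⟨g1, g2, g3⟩, g4⟩ := (bb33 x).1 g; linarith) (by decide)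
  · exact iff_of_false (fun g => by obtain ⟨⟨g1, g2, g3⟩, g4⟩ := (bb34 x).1 g; linarith) (by decide)
  · exact iff_of_false (fun g => by obtain ⟨⟨g1, g2, g3⟩, g4⟩ := (bb35 x).1 g; linarith) (by decide)
  · exact iff_of_false (fun g => by obtain ⟨⟨g1, g2, g3⟩, g4⟩ := (bb36 x).1 g; linarith) (by decide)
  · exact iff_of_false (fun g => by obtain ⟨⟨g1, g2, g3⟩, g4⟩ := (bb37 x).1 g; linarith) (by decide)
  · exact iff_of_false (fun g => by obtain ⟨⟨g1, g2, g3⟩, g4⟩ := (bb38 x).1 g; linarith) (by decide)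
  · exact iff_of_false (fun g => by obtain ⟨⟨g1, g2, g3⟩, g4⟩ := (bb39 x).1 g; linarith) (by decide)
  · exact iff_of_false (fun g => by obtain ⟨⟨g1, g2, g3⟩, g4⟩ := (bb40 x).1 g; linarith) (by decide)
  · exact iff_of_false (fun g => by obtain ⟨⟨g1, g2, g3⟩, g4⟩ := (bb41 x).1 g; linarith) (by decide)
  · exact iff_of_true ((bb42 x).2 ⟨⟨by linarith, by linarith, by linarith⟩, by linarith⟩) (by decide)
  · exact iff_of_true ((bb43 x).2 ⟨⟨by linarith, by linarith, by linarith⟩, by linarith⟩) (by decide)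
  · exact iff_of_false (fun g => by obtain ⟨⟨g1, g2, g3⟩, g4⟩ := (bb44 x).1 g; linarith) (by decide)
  · exact iff_of_false (fun g => by obtain ⟨g1, g2⟩ := (bb45 x).1 g; linarith) (by decide)
  · exact iff_of_false (fun g => by obtain ⟨g1, g2⟩ := (bb46 x).1 g; linarith) (by decide)
  · exact iff_of_false (fun g => by obtain ⟨g1, g2⟩ := (bb47 x).1 g; linarith) (by decide)
  · exact iff_of_false (fun g => by obtain ⟨g1, g2⟩ := (bb48 x).1 g; linarith) (by decide)
  · exact iff_of_false (fun g => by obtain ⟨g1, g2⟩ := (bb49 x).1 g; linarith) (by decide)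
  · exact iff_of_false (fun g => by obtain ⟨g1, g2⟩ := (bb50 x).1 g; linarith) (by decide)
  · exact iff_of_true ((bb51 x).2 ⟨by linarith, by linarith⟩) (by decide)
  · exact iff_of_false (fun g => by obtain ⟨g1, g2⟩ := (bb52 x).1 g; linarith) (by decide)

/-- the open cell 52 -/
theorem oo52 (x : ℂ) (h1 : x.re - 6 = 0)
    (h2 : x.im + 2 = 0) : ∀ κ < 53,
    (x ∈ bs κ ↔ (bm κ).testBit 52 = true) := by
  intro κ hκ
  interval_cases κ
  · exact iff_of_false (fun g => by obtain ⟨g1, g2, g3⟩ := (bb0 x).1 g; linarith) (by decide)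
  · exact iff_of_false (fun g => by obtain ⟨g1, g2, g3⟩ := (bb1 x).1 g; linarith) (by decide)
  · exact iff_of_false (fun g => by obtain ⟨g1, g2, g3⟩ := (bb2 x).1 g; linarith) (by decide)
  · exact iff_of_false (fun g => by obtain ⟨g1, g2, g3⟩ := (bb3 x).1 g; linarith) (by decide)
  · exact iff_of_false (fun g => by obtain ⟨g1, g2, g3⟩ := (bb4 x).1 g; linarith) (by decide)
  · exact iff_of_false (fun g => by obtain ⟨g1, g2, g3⟩ := (bb5 x).1 g; linarith) (by decide)
  · exact iff_of_true ((bb6 x).2 ⟨by linarith, by linarith, by linarith⟩) (by decide)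
  · exact iff_of_false (fun g => by obtain ⟨g1, g2, g3⟩ := (bb7 x).1 g; linarith) (by decide)
  · exact iff_of_false (fun g => by obtain ⟨g1, g2, g3⟩ := (bb8 x).1 g; linarith) (by decide)
  · exact iff_of_false (fun g => by obtain ⟨g1, g2, g3⟩ := (bb9 x).1 g; linarith) (by decide)
  · exact iff_of_false (fun g => by obtain ⟨g1, g2, g3⟩ := (bb10 x).1 g; linarith) (by decide)
  · exact iff_of_true ((bb11 x).2 ⟨by linarith, by linarith, by linarith⟩) (by decide)
  · exact iff_of_true ((bb12 x).2 ⟨by linarith, by linarith, by linarith⟩) (by decide)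
  · exact iff_of_false (fun g => by obtain ⟨g1, g2, g3⟩ := (bb13 x).1 g; linarith) (by decide)
  · exact iff_of_false (fun g => by obtain ⟨g1, g2, g3⟩ := (bb14 x).1 g; linarith) (by decide)
  · exact iff_of_false (fun g => by obtain ⟨g1, g2, g3⟩ := (bb15 x).1 g; linarith) (by decide)
  · exact iff_of_false (fun g => by obtain ⟨g1, g2, g3⟩ := (bb16 x).1 g; linarith) (by decide)
  · exact iff_of_true ((bb17 x).2 ⟨by linarith, by linarith, by linarith⟩) (by decide)
  · exact iff_of_false (fun g => by obtain ⟨⟨g1, g2, g3⟩, g4⟩ := (bb18 x).1 g; linarith) (by decide)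
  · exact iff_of_false (fun g => by obtain ⟨⟨g1, g2, g3⟩, g4⟩ := (bb19 x).1 g; linarith) (by decide)
  · exact iff_of_false (fun g => by obtain ⟨⟨g1, g2, g3⟩, g4⟩ := (bb20 x).1 g; linarith) (by decide)
  · exact iff_of_false (fun g => by obtain ⟨⟨g1, g2, g3⟩, g4⟩ := (bb21 x).1 g; linarith) (by decide)
  · exact iff_of_false (fun g => by obtain ⟨⟨g1, g2, g3⟩, g4⟩ := (bb22 x).1 g; linarith) (by decide)
  · exact iff_of_false (fun g => by obtain ⟨⟨g1, g2, g3⟩, g4⟩ := (bb23 x).1 g; linarith) (by decide)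
  · exact iff_of_true ((bb24 x).2 ⟨⟨by linarith, by linarith, by linarith⟩, by linarith⟩) (by decide)
  · exact iff_of_false (fun g => by obtain ⟨⟨g1, g2, g3⟩, g4⟩ := (bb25 x).1 g; linarith) (by decide)
  · exact iff_of_false (fun g => by obtain ⟨⟨g1, g2, g3⟩, g4⟩ := (bb26 x).1 g; linarith) (by decide)
  · exact iff_of_false (fun g => by obtain ⟨⟨g1, g2, g3⟩, g4⟩ := (bb27 x).1 g; linarith) (by decide)
  · exact iff_of_false (fun g => by obtain ⟨⟨g1, g2, g3⟩, g4⟩ := (bb28 x).1 g; linarith) (by decide)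
  · exact iff_of_false (fun g => by obtain ⟨⟨g1, g2, g3⟩, g4⟩ := (bb29 x).1 g; linarith) (by decide)
  · exact iff_of_true ((bb30 x).2 ⟨⟨by linarith, by linarith, by linarith⟩, by linarith⟩) (by decide)
  · exact iff_of_false (fun g => by obtain ⟨⟨g1, g2, g3⟩, g4⟩ := (bb31 x).1 g; linarith) (by decide)
  · exact iff_of_false (fun g => by obtain ⟨⟨g1, g2, g3⟩, g4⟩ := (bb32 x).1 g; linarith) (by decide)
  · exact iff_of_false (fun g => by obtain ⟨⟨g1, g2, g3⟩, g4⟩ := (bb33 x).1 g; linarith) (by decide)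
  · exact iff_of_false (fun g => by obtain ⟨⟨g1, g2, g3⟩, g4⟩ := (bb34 x).1 g; linarith) (by decide)
  · exact iff_of_false (fun g => by obtain ⟨⟨g1, g2, g3⟩, g4⟩ := (bb35 x).1 g; linarith) (by decide)
  · exact iff_of_false (fun g => by obtain ⟨⟨g1, g2, g3⟩, g4⟩ := (bb36 x).1 g; linarith) (by decide)
  · exact iff_of_false (fun g => by obtain ⟨⟨g1, g2, g3⟩, g4⟩ := (bb37 x).1 g; linarith) (by decide)
  · exact iff_of_false (fun g => by obtain ⟨⟨g1, g2, g3⟩, g4⟩ := (bb38 x).1 g; linarith) (by decide)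
  · exact iff_of_false (fun g => by obtain ⟨⟨g1, g2, g3⟩, g4⟩ := (bb39 x).1 g; linarith) (by decide)
  · exact iff_of_false (fun g => by obtain ⟨⟨g1, g2, g3⟩, g4⟩ := (bb40 x).1 g; linarith) (by decide)
  · exact iff_of_false (fun g => by obtain ⟨⟨g1, g2, g3⟩, g4⟩ := (bb41 x).1 g; linarith) (by decide)
  · exact iff_of_false (fun g => by obtain ⟨⟨g1, g2, g3⟩, g4⟩ := (bb42 x).1 g; linarith) (by decide)
  · exact iff_of_true ((bb43 x).2 ⟨⟨by linarith, by linarith, by linarith⟩, by linarith⟩) (by decide)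
  · exact iff_of_true ((bb44 x).2 ⟨⟨by linarith, by linarith, by linarith⟩, by linarith⟩) (by decide)
  · exact iff_of_false (fun g => by obtain ⟨g1, g2⟩ := (bb45 x).1 g; linarith) (by decide)
  · exact iff_of_false (fun g => by obtain ⟨g1, g2⟩ := (bb46 x).1 g; linarith) (by decide)
  · exact iff_of_false (fun g => by obtain ⟨g1, g2⟩ := (bb47 x).1 g; linarith) (by decide)
  · exact iff_of_false (fun g => by obtain ⟨g1, g2⟩ := (bb48 x).1 g; linarith) (by decide)
  · exact iff_of_false (fun g => by obtain ⟨g1, g2⟩ := (bb49 x).1 g; linarith) (by decide)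
  · exact iff_of_false (fun g => by obtain ⟨g1, g2⟩ := (bb50 x).1 g; linarith) (by decide)
  · exact iff_of_false (fun g => by obtain ⟨g1, g2⟩ := (bb51 x).1 g; linarith) (by decide)
  · exact iff_of_true ((bb52 x).2 ⟨by linarith, by linarith⟩) (by decide)

/-- **(PL1)** -/
theorem stBase_21 : StBase := by
  intro x hx
  have h0 : ¬ (x.re = 0 ∧ x.im = 0) := by
    rintro ⟨h1, h2⟩
    have h3 : x = 0 := Complex.ext h1 h2
    rw [h3, GG_two] at hx
    norm_num at hx
  have h4 : ¬ (x.re = 4 ∧ x.im = 0) := by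
    rintro ⟨h1, h2⟩
    have h3 : x = 4 := Complex.ext h1 h2
    rw [h3, GG_two] at hx
    norm_num at hx
  rcases lt_trichotomy (x.re - x.im) 0 with t1 | t1 | t1
  · rcases lt_trichotomy (x.re + x.im) 0 with t2 | t2 | t2
    · rcases lt_trichotomy (x.re + 2) 0 with t3 | t3 | t3
      · exact ⟨15, by norm_num, oo15 x (by linarith) (by linarith) (by linarith)⟩
      · exact ⟨37, by norm_num, oo37 x (by linarith) (by linarith) (by linarith)⟩
      · exact ⟨3, by norm_num, oo3 x (by linarith) (by linarith) (by linarith)⟩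
    · rcases lt_trichotomy (x.im - 2) 0 with t3 | t3 | t3
      · exact ⟨21, by norm_num, oo21 x (by linarith) (by linarith) (by linarith)⟩
      · exact ⟨47, by norm_num, oo47 x (by linarith) (by linarith)⟩
      · exact ⟨33, by norm_num, oo33 x (by linarith) (by linarith) (by linarith)⟩
    · rcases lt_trichotomy (x.im - 2) 0 with t3 | t3 | t3
      · exact ⟨2, by norm_num, oo2 x (by linarith) (by linarith) (by linarith)⟩
      · exact ⟨36, by norm_num, oo36 x (by linarith) (by linarith) (by linarith)⟩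
      · exact ⟨14, by norm_num, oo14 x (by linarith) (by linarith) (by linarith)⟩
  · rcases lt_trichotomy (x.re - 3 * x.im) 0 with t2 | t2 | t2
    · rcases lt_trichotomy (x.im - 2) 0 with t3 | t3 | t3
      · exact ⟨20, by norm_num, oo20 x (by linarith) (by linarith) (by linarith)⟩
      · exact ⟨45, by norm_num, oo45 x (by linarith) (by linarith)⟩
      · exact ⟨32, by norm_num, oo32 x (by linarith) (by linarith) (by linarith)⟩
    · exact absurd ⟨by linarith, by linarith⟩ h0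
    · rcases lt_trichotomy (x.im + 2) 0 with t3 | t3 | t3
      · exact ⟨34, by norm_num, oo34 x (by linarith) (by linarith) (by linarith)⟩
      · exact ⟨48, by norm_num, oo48 x (by linarith) (by linarith)⟩
      · exact ⟨22, by norm_num, oo22 x (by linarith) (by linarith) (by linarith)⟩
  · rcases lt_trichotomy (x.re + x.im - 4) 0 with t2 | t2 | t2
    · rcases lt_trichotomy (x.im + 2) 0 with t3 | t3 | t3
      · rcases lt_trichotomy (x.re + x.im) 0 with t4 | t4 | t4
        · exact ⟨16, by norm_num, oo16 x (by linarith) (by linarith) (by linarith)⟩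
        · exact ⟨35, by norm_num, oo35 x (by linarith) (by linarith) (by linarith)⟩
        · exact ⟨17, by norm_num, oo17 x (by linarith) (by linarith) (by linarith)⟩
      · rcases lt_trichotomy (x.re - x.im - 4) 0 with t4 | t4 | t4
        · exact ⟨38, by norm_num, oo38 x (by linarith) (by linarith) (by linarith)⟩
        · exact ⟨46, by norm_num, oo46 x (by linarith) (by linarith)⟩
        · exact ⟨44, by norm_num, oo44 x (by linarith) (by linarith) (by linarith)⟩
      · rcases lt_trichotomy (x.re - 2) 0 with t4 | t4 | t4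
        · rcases lt_trichotomy (x.re + 2 * x.im) 0 with t5 | t5 | t5
          · rcases lt_trichotomy (x.re + x.im) 0 with t6 | t6 | t6
            · exact ⟨4, by norm_num, oo4 x (by linarith) (by linarith) (by linarith)⟩
            · exact ⟨23, by norm_num, oo23 x (by linarith) (by linarith) (by linarith)⟩
            · exact ⟨5, by norm_num, oo5 x (by linarith) (by linarith) (by linarith)⟩
          · exact ⟨18, by norm_num, oo18 x (by linarith) (by linarith) (by linarith)⟩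
          · rcases lt_trichotomy (x.re - 2 * x.im) 0 with t6 | t6 | t6
            · exact ⟨1, by norm_num, oo1 x (by linarith) (by linarith) (by linarith)⟩
            · exact ⟨19, by norm_num, oo19 x (by linarith) (by linarith) (by linarith)⟩
            · exact ⟨0, by norm_num, oo0 x (by linarith) (by linarith) (by linarith)⟩
        · rcases lt_trichotomy (x.re - 2 * x.im - 4) 0 with t5 | t5 | t5
          · rcases lt_trichotomy (x.re - 2 * x.im) 0 with t6 | t6 | t6
            · exact ⟨39, by norm_num, oo39 x (by linarith) (by linarith) (by linarith)⟩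
            · exact ⟨49, by norm_num, oo49 x (by linarith) (by linarith)⟩
            · exact ⟨40, by norm_num, oo40 x (by linarith) (by linarith) (by linarith)⟩
          · exact ⟨50, by norm_num, oo50 x (by linarith) (by linarith)⟩
          · exact ⟨41, by norm_num, oo41 x (by linarith) (by linarith) (by linarith)⟩
        · rcases lt_trichotomy (x.re - 2 * x.im - 4) 0 with t5 | t5 | t5
          · rcases lt_trichotomy (x.re + 2 * x.im - 4) 0 with t6 | t6 | t6
            · exact ⟨9, by norm_num, oo9 x (by linarith) (by linarith) (by linarith)⟩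
            · exact ⟨27, by norm_num, oo27 x (by linarith) (by linarith) (by linarith)⟩
            · exact ⟨8, by norm_num, oo8 x (by linarith) (by linarith) (by linarith)⟩
          · exact ⟨28, by norm_num, oo28 x (by linarith) (by linarith) (by linarith)⟩
          · rcases lt_trichotomy (x.re - x.im - 4) 0 with t6 | t6 | t6
            · exact ⟨10, by norm_num, oo10 x (by linarith) (by linarith) (by linarith)⟩
            · exact ⟨29, by norm_num, oo29 x (by linarith) (by linarith) (by linarith)⟩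
            · exact ⟨11, by norm_num, oo11 x (by linarith) (by linarith) (by linarith)⟩
    · rcases lt_trichotomy (x.im + 2) 0 with t3 | t3 | t3
      · exact ⟨17, by norm_num, oo17 x (by linarith) (by linarith) (by linarith)⟩
      · exact ⟨52, by norm_num, oo52 x (by linarith) (by linarith)⟩
      · rcases lt_trichotomy (x.re - 2 * x.im - 4) 0 with t4 | t4 | t4
        · exact ⟨26, by norm_num, oo26 x (by linarith) (by linarith) (by linarith)⟩
        · exact absurd ⟨by linarith, by linarith⟩ h4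
        · exact ⟨24, by norm_num, oo24 x (by linarith) (by linarith) (by linarith)⟩
    · rcases lt_trichotomy (x.re - 6) 0 with t3 | t3 | t3
      · rcases lt_trichotomy (x.im - 2) 0 with t4 | t4 | t4
        · rcases lt_trichotomy (x.re - x.im - 4) 0 with t5 | t5 | t5
          · exact ⟨7, by norm_num, oo7 x (by linarith) (by linarith) (by linarith)⟩
          · exact ⟨25, by norm_num, oo25 x (by linarith) (by linarith) (by linarith)⟩
          · exact ⟨6, by norm_num, oo6 x (by linarith) (by linarith) (by linarith)⟩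
        · exact ⟨42, by norm_num, oo42 x (by linarith) (by linarith) (by linarith)⟩
        · exact ⟨13, by norm_num, oo13 x (by linarith) (by linarith) (by linarith)⟩
      · rcases lt_trichotomy (x.im - 2) 0 with t4 | t4 | t4
        · exact ⟨43, by norm_num, oo43 x (by linarith) (by linarith) (by linarith)⟩
        · exact ⟨51, by norm_num, oo51 x (by linarith) (by linarith)⟩
        · exact ⟨13, by norm_num, oo13 x (by linarith) (by linarith) (by linarith)⟩
      · rcases lt_trichotomy (x.re - 3 * x.im) 0 with t4 | t4 | t4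
        · exact ⟨13, by norm_num, oo13 x (by linarith) (by linarith) (by linarith)⟩
        · exact ⟨31, by norm_num, oo31 x (by linarith) (by linarith) (by linarith)⟩
        · rcases lt_trichotomy (x.re + 3 * x.im) 0 with t5 | t5 | t5
          · exact ⟨17, by norm_num, oo17 x (by linarith) (by linarith) (by linarith)⟩
          · exact ⟨30, by norm_num, oo30 x (by linarith) (by linarith) (by linarith)⟩
          · exact ⟨12, by norm_num, oo12 x (by linarith) (by linarith) (by linarith)⟩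

end Pool.Agent.Lib.MP_84984d_gt.Tri.PL21
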