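import Pool.Agent.Lib.MP_84984d_gt.Tri.Stmts
import Pool.Agent.Lib.MP_84984d_gt.Smooth

set_option autoImplicit false

/-!
TRI (MP_84984d_gt), modules PL1, PL2, PL3: the planar complex (helper21).  Every closed cell is
given by linear inequalities (`bb0`, ..., `bb52`), the open cells by strict ones (`oo0`, ..., `oo52`).
-/

namespace Pool.Agent.Lib.MP_84984d_gt.Tri.PL21

open Set

theorem sec_iff {k : ℕ} {c q1 q2 : ℂ} {s : ℝ} (hc : ce k = c) (h1 : vx (sv k) = q1)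
    (h2 : vx (sv (nx k)) = q2) (hs : sg k = s) (x : ℂ) : x ∈ sec k ↔
    0 ≤ (q1.re - c.re) * (x.im - c.im) - (q1.im - c.im) * (x.re - c.re) ∧
    0 ≤ (x.re - c.re) * (q2.im - c.im) - (x.im - c.im) * (q2.re - c.re) ∧
    0 ≤ s * ((q2.re - q1.re) * (x.im - q1.im) - (q2.im - q1.im) * (x.re - q1.re)) := by
  subst hc h1 h2 hs
  rfl

theorem p_eq {k : ℕ} {c q : ℂ} (hc : ce k = c) (h1 : vx (sv k) = q) (x : ℂ) :
    cr (p1 k) (x - ce k) = (q.re - c.re) * (x.im - c.im) - (q.im - c.im) * (x.re - c.re) := by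
  subst hc h1
  rfl

theorem q_eq {k : ℕ} {c q : ℂ} (hc : ce k = c) (h1 : vx (sv (nx k)) = q) (x : ℂ) :
    cr (x - ce k) (p2 k) = (x.re - c.re) * (q.im - c.im) - (x.im - c.im) * (q.re - c.re) := by
  subst hc h1
  rfl

theorem ln_eq {k : ℕ} {q1 q2 : ℂ} (h1 : vx (sv k) = q1) (h2 : vx (sv (nx k)) = q2) (x : ℂ) :
    ln k x = (q2.re - q1.re) * (x.im - q1.im) - (q2.im - q1.im) * (x.re - q1.re) := by
  subst h1 h2
  rfl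

/-- the sector 0 -/
theorem ss0 (x : ℂ) : x ∈ sec 0 ↔ 0 ≤ x.re + 2 * x.im ∧
    0 ≤ x.re - 2 * x.im ∧ 0 ≤ -(2 * x.re) + 4 := by
  rw [sec_iff (c := 0) (q1 := ⟨2, -1⟩) (q2 := ⟨2, 1⟩) (s := 1) (by simp [ce]) rfl rfl
    (by simp [sg])]
  simp only [Complex.zero_re, Complex.zero_im]
  constructor
  · rintro ⟨h1, h2, h3⟩
    exact ⟨by linarith, by linarith, by linarith⟩
  · rintro ⟨h1, h2, h3⟩
    exact ⟨by linarith, by linarith, by linarith⟩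

theorem pp0 (x : ℂ) : cr (p1 0) (x - ce 0) = x.re + 2 * x.im := by
  rw [p_eq (c := 0) (q := ⟨2, -1⟩) (by simp [ce]) rfl]
  simp only [Complex.zero_re, Complex.zero_im]
  ring

theorem qq0 (x : ℂ) : cr (x - ce 0) (p2 0) = x.re - 2 * x.im := by
  rw [q_eq (c := 0) (q := ⟨2, 1⟩) (by simp [ce]) rfl]
  simp only [Complex.zero_re, Complex.zero_im]
  ring

theorem ll0 (x : ℂ) : ln 0 x = -(2 * x.re) + 4 := by
  rw [ln_eq (q1 := ⟨2, -1⟩) (q2 := ⟨2, 1⟩) rfl rfl]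
  ring

/-- the sector 1 -/
theorem ss1 (x : ℂ) : x ∈ sec 1 ↔ 0 ≤ -x.re + 2 * x.im ∧
    0 ≤ 2 * x.re - 2 * x.im ∧ 0 ≤ -x.re + 2 := by
  rw [sec_iff (c := 0) (q1 := ⟨2, 1⟩) (q2 := ⟨2, 2⟩) (s := 1) (by simp [ce]) rfl rfl
    (by simp [sg])]
  simp only [Complex.zero_re, Complex.zero_im]
  constructor
  · rintro ⟨h1, h2, h3⟩
    exact ⟨by linarith, by linarith, by linarith⟩
  · rintro ⟨h1, h2, h3⟩
    exact ⟨by linarith, by linarith, by linarith⟩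

theorem pp1 (x : ℂ) : cr (p1 1) (x - ce 1) = -x.re + 2 * x.im := by
  rw [p_eq (c := 0) (q := ⟨2, 1⟩) (by simp [ce]) rfl]
  simp only [Complex.zero_re, Complex.zero_im]
  ring

theorem qq1 (x : ℂ) : cr (x - ce 1) (p2 1) = 2 * x.re - 2 * x.im := by
  rw [q_eq (c := 0) (q := ⟨2, 2⟩) (by simp [ce]) rfl]
  simp only [Complex.zero_re, Complex.zero_im]
  ring

theorem ll1 (x : ℂ) : ln 1 x = -x.re + 2 := by
  rw [ln_eq (q1 := ⟨2, 1⟩) (q2 := ⟨2, 2⟩) rfl rfl]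
  ring

/-- the sector 2 -/
theorem ss2 (x : ℂ) : x ∈ sec 2 ↔ 0 ≤ -(2 * x.re) + 2 * x.im ∧
    0 ≤ 2 * x.re + 2 * x.im ∧ 0 ≤ -(4 * x.im) + 8 := by
  rw [sec_iff (c := 0) (q1 := ⟨2, 2⟩) (q2 := ⟨-2, 2⟩) (s := 1) (by simp [ce]) rfl rfl
    (by simp [sg])]
  simp only [Complex.zero_re, Complex.zero_im]
  constructor
  · rintro ⟨h1, h2, h3⟩
    exact ⟨by linarith, by linarith, by linarith⟩
  · rintro ⟨h1, h2, h3⟩
    exact ⟨by linarith, by linarith, by linarith⟩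

theorem pp2 (x : ℂ) : cr (p1 2) (x - ce 2) = -(2 * x.re) + 2 * x.im := by
  rw [p_eq (c := 0) (q := ⟨2, 2⟩) (by simp [ce]) rfl]
  simp only [Complex.zero_re, Complex.zero_im]
  ring

theorem qq2 (x : ℂ) : cr (x - ce 2) (p2 2) = 2 * x.re + 2 * x.im := by
  rw [q_eq (c := 0) (q := ⟨-2, 2⟩) (by simp [ce]) rfl]
  simp only [Complex.zero_re, Complex.zero_im]
  ring

theorem ll2 (x : ℂ) : ln 2 x = -(4 * x.im) + 8 := by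
  rw [ln_eq (q1 := ⟨2, 2⟩) (q2 := ⟨-2, 2⟩) rfl rfl]
  ring

/-- the sector 3 -/
theorem ss3 (x : ℂ) : x ∈ sec 3 ↔ 0 ≤ -(2 * x.re) - 2 * x.im ∧
    0 ≤ -(2 * x.re) + 2 * x.im ∧ 0 ≤ 4 * x.re + 8 := by
  rw [sec_iff (c := 0) (q1 := ⟨-2, 2⟩) (q2 := ⟨-2, -2⟩) (s := 1) (by simp [ce]) rfl rfl
    (by simp [sg])]
  simp only [Complex.zero_re, Complex.zero_im]
  constructor
  · rintro ⟨h1, h2, h3⟩
    exact ⟨by linarith, by linarith, by linarith⟩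
  · rintro ⟨h1, h2, h3⟩
    exact ⟨by linarith, by linarith, by linarith⟩

theorem pp3 (x : ℂ) : cr (p1 3) (x - ce 3) = -(2 * x.re) - 2 * x.im := by
  rw [p_eq (c := 0) (q := ⟨-2, 2⟩) (by simp [ce]) rfl]
  simp only [Complex.zero_re, Complex.zero_im]
  ring

theorem qq3 (x : ℂ) : cr (x - ce 3) (p2 3) = -(2 * x.re) + 2 * x.im := by
  rw [q_eq (c := 0) (q := ⟨-2, -2⟩) (by simp [ce]) rfl]
  simp only [Complex.zero_re, Complex.zero_im]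
  ring

theorem ll3 (x : ℂ) : ln 3 x = 4 * x.re + 8 := by
  rw [ln_eq (q1 := ⟨-2, 2⟩) (q2 := ⟨-2, -2⟩) rfl rfl]
  ring

/-- the sector 4 -/
theorem ss4 (x : ℂ) : x ∈ sec 4 ↔ 0 ≤ 2 * x.re - 2 * x.im ∧
    0 ≤ -(2 * x.re) - 2 * x.im ∧ 0 ≤ 4 * x.im + 8 := by
  rw [sec_iff (c := 0) (q1 := ⟨-2, -2⟩) (q2 := ⟨2, -2⟩) (s := 1) (by simp [ce]) rfl rfl
    (by simp [sg])]
  simp only [Complex.zero_re, Complex.zero_im]
  constructor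
  · rintro ⟨h1, h2, h3⟩
    exact ⟨by linarith, by linarith, by linarith⟩
  · rintro ⟨h1, h2, h3⟩
    exact ⟨by linarith, by linarith, by linarith⟩

theorem pp4 (x : ℂ) : cr (p1 4) (x - ce 4) = 2 * x.re - 2 * x.im := by
  rw [p_eq (c := 0) (q := ⟨-2, -2⟩) (by simp [ce]) rfl]
  simp only [Complex.zero_re, Complex.zero_im]
  ring

theorem qq4 (x : ℂ) : cr (x - ce 4) (p2 4) = -(2 * x.re) - 2 * x.im := by
  rw [q_eq (c := 0) (q := ⟨2, -2⟩) (by simp [ce]) rfl]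
  simp only [Complex.zero_re, Complex.zero_im]
  ring

theorem ll4 (x : ℂ) : ln 4 x = 4 * x.im + 8 := by
  rw [ln_eq (q1 := ⟨-2, -2⟩) (q2 := ⟨2, -2⟩) rfl rfl]
  ring

/-- the sector 5 -/
theorem ss5 (x : ℂ) : x ∈ sec 5 ↔ 0 ≤ 2 * x.re + 2 * x.im ∧
    0 ≤ -x.re - 2 * x.im ∧ 0 ≤ -x.re + 2 := by
  rw [sec_iff (c := 0) (q1 := ⟨2, -2⟩) (q2 := ⟨2, -1⟩) (s := 1) (by simp [ce]) rfl rfl
    (by simp [sg])]
  simp only [Complex.zero_re, Complex.zero_im]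
  constructor
  · rintro ⟨h1, h2, h3⟩
    exact ⟨by linarith, by linarith, by linarith⟩
  · rintro ⟨h1, h2, h3⟩
    exact ⟨by linarith, by linarith, by linarith⟩

theorem pp5 (x : ℂ) : cr (p1 5) (x - ce 5) = 2 * x.re + 2 * x.im := by
  rw [p_eq (c := 0) (q := ⟨2, -2⟩) (by simp [ce]) rfl]
  simp only [Complex.zero_re, Complex.zero_im]
  ring

theorem qq5 (x : ℂ) : cr (x - ce 5) (p2 5) = -x.re - 2 * x.im := by
  rw [q_eq (c := 0) (q := ⟨2, -1⟩) (by simp [ce]) rfl]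
  simp only [Complex.zero_re, Complex.zero_im]
  ring

theorem ll5 (x : ℂ) : ln 5 x = -x.re + 2 := by
  rw [ln_eq (q1 := ⟨2, -2⟩) (q2 := ⟨2, -1⟩) rfl rfl]
  ring

/-- the sector 6 -/
theorem ss6 (x : ℂ) : x ∈ sec 6 ↔ 0 ≤ 2 * x.re + 2 * x.im - 8 ∧
    0 ≤ 2 * x.re - 2 * x.im - 8 ∧ 0 ≤ -(4 * x.re) + 24 := by
  rw [sec_iff (c := ⟨4, 0⟩) (q1 := ⟨6, -2⟩) (q2 := ⟨6, 2⟩) (s := 1) (by simp [ce]) rfl rfl
    (by simp [sg])]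
  constructor
  · rintro ⟨h1, h2, h3⟩
    exact ⟨by linarith, by linarith, by linarith⟩
  · rintro ⟨h1, h2, h3⟩
    exact ⟨by linarith, by linarith, by linarith⟩

theorem pp6 (x : ℂ) : cr (p1 6) (x - ce 6) = 2 * x.re + 2 * x.im - 8 := by
  rw [p_eq (c := ⟨4, 0⟩) (q := ⟨6, -2⟩) (by simp [ce]) rfl]
  ring

theorem qq6 (x : ℂ) : cr (x - ce 6) (p2 6) = 2 * x.re - 2 * x.im - 8 := by
  rw [q_eq (c := ⟨4, 0⟩) (q := ⟨6, 2⟩) (by simp [ce]) rfl]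
  ring

theorem ll6 (x : ℂ) : ln 6 x = -(4 * x.re) + 24 := by
  rw [ln_eq (q1 := ⟨6, -2⟩) (q2 := ⟨6, 2⟩) rfl rfl]
  ring

/-- the sector 7 -/
theorem ss7 (x : ℂ) : x ∈ sec 7 ↔ 0 ≤ -(2 * x.re) + 2 * x.im + 8 ∧
    0 ≤ 2 * x.re + 2 * x.im - 8 ∧ 0 ≤ -(4 * x.im) + 8 := by
  rw [sec_iff (c := ⟨4, 0⟩) (q1 := ⟨6, 2⟩) (q2 := ⟨2, 2⟩) (s := 1) (by simp [ce]) rfl rfl
    (by simp [sg])]
  constructor
  · rintro ⟨h1, h2, h3⟩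
    exact ⟨by linarith, by linarith, by linarith⟩
  · rintro ⟨h1, h2, h3⟩
    exact ⟨by linarith, by linarith, by linarith⟩

theorem pp7 (x : ℂ) : cr (p1 7) (x - ce 7) = -(2 * x.re) + 2 * x.im + 8 := by
  rw [p_eq (c := ⟨4, 0⟩) (q := ⟨6, 2⟩) (by simp [ce]) rfl]
  ring

theorem qq7 (x : ℂ) : cr (x - ce 7) (p2 7) = 2 * x.re + 2 * x.im - 8 := by
  rw [q_eq (c := ⟨4, 0⟩) (q := ⟨2, 2⟩) (by simp [ce]) rfl]
  ring

theorem ll7 (x : ℂ) : ln 7 x = -(4 * x.im) + 8 := by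
  rw [ln_eq (q1 := ⟨6, 2⟩) (q2 := ⟨2, 2⟩) rfl rfl]
  ring

/-- the sector 8 -/
theorem ss8 (x : ℂ) : x ∈ sec 8 ↔ 0 ≤ -(2 * x.re) - 2 * x.im + 8 ∧
    0 ≤ x.re + 2 * x.im - 4 ∧ 0 ≤ x.re - 2 := by
  rw [sec_iff (c := ⟨4, 0⟩) (q1 := ⟨2, 2⟩) (q2 := ⟨2, 1⟩) (s := 1) (by simp [ce]) rfl rfl
    (by simp [sg])]
  constructor
  · rintro ⟨h1, h2, h3⟩
    exact ⟨by linarith, by linarith, by linarith⟩
  · rintro ⟨h1, h2, h3⟩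
    exact ⟨by linarith, by linarith, by linarith⟩

theorem pp8 (x : ℂ) : cr (p1 8) (x - ce 8) = -(2 * x.re) - 2 * x.im + 8 := by
  rw [p_eq (c := ⟨4, 0⟩) (q := ⟨2, 2⟩) (by simp [ce]) rfl]
  ring

theorem qq8 (x : ℂ) : cr (x - ce 8) (p2 8) = x.re + 2 * x.im - 4 := by
  rw [q_eq (c := ⟨4, 0⟩) (q := ⟨2, 1⟩) (by simp [ce]) rfl]
  ring

theorem ll8 (x : ℂ) : ln 8 x = x.re - 2 := by
  rw [ln_eq (q1 := ⟨2, 2⟩) (q2 := ⟨2, 1⟩) rfl rfl]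
  ring

/-- the sector 9 -/
theorem ss9 (x : ℂ) : x ∈ sec 9 ↔ 0 ≤ -x.re - 2 * x.im + 4 ∧
    0 ≤ -x.re + 2 * x.im + 4 ∧ 0 ≤ 2 * x.re - 4 := by
  rw [sec_iff (c := ⟨4, 0⟩) (q1 := ⟨2, 1⟩) (q2 := ⟨2, -1⟩) (s := 1) (by simp [ce]) rfl rfl
    (by simp [sg])]
  constructor
  · rintro ⟨h1, h2, h3⟩
    exact ⟨by linarith, by linarith, by linarith⟩
  · rintro ⟨h1, h2, h3⟩
    exact ⟨by linarith, by linarith, by linarith⟩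

theorem pp9 (x : ℂ) : cr (p1 9) (x - ce 9) = -x.re - 2 * x.im + 4 := by
  rw [p_eq (c := ⟨4, 0⟩) (q := ⟨2, 1⟩) (by simp [ce]) rfl]
  ring

theorem qq9 (x : ℂ) : cr (x - ce 9) (p2 9) = -x.re + 2 * x.im + 4 := by
  rw [q_eq (c := ⟨4, 0⟩) (q := ⟨2, -1⟩) (by simp [ce]) rfl]
  ring

theorem ll9 (x : ℂ) : ln 9 x = 2 * x.re - 4 := by
  rw [ln_eq (q1 := ⟨2, 1⟩) (q2 := ⟨2, -1⟩) rfl rfl]
  ring

/-- the sector 10 -/
theorem ss10 (x : ℂ) : x ∈ sec 10 ↔ 0 ≤ x.re - 2 * x.im - 4 ∧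
    0 ≤ -(2 * x.re) + 2 * x.im + 8 ∧ 0 ≤ x.re - 2 := by
  rw [sec_iff (c := ⟨4, 0⟩) (q1 := ⟨2, -1⟩) (q2 := ⟨2, -2⟩) (s := 1) (by simp [ce]) rfl rfl
    (by simp [sg])]
  constructor
  · rintro ⟨h1, h2, h3⟩
    exact ⟨by linarith, by linarith, by linarith⟩
  · rintro ⟨h1, h2, h3⟩
    exact ⟨by linarith, by linarith, by linarith⟩

theorem pp10 (x : ℂ) : cr (p1 10) (x - ce 10) = x.re - 2 * x.im - 4 := by
  rw [p_eq (c := ⟨4, 0⟩) (q := ⟨2, -1⟩) (by simp [ce]) rfl]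
  ring

theorem qq10 (x : ℂ) : cr (x - ce 10) (p2 10) = -(2 * x.re) + 2 * x.im + 8 := by
  rw [q_eq (c := ⟨4, 0⟩) (q := ⟨2, -2⟩) (by simp [ce]) rfl]
  ring

theorem ll10 (x : ℂ) : ln 10 x = x.re - 2 := by
  rw [ln_eq (q1 := ⟨2, -1⟩) (q2 := ⟨2, -2⟩) rfl rfl]
  ring

/-- the sector 11 -/
theorem ss11 (x : ℂ) : x ∈ sec 11 ↔ 0 ≤ 2 * x.re - 2 * x.im - 8 ∧
    0 ≤ -(2 * x.re) - 2 * x.im + 8 ∧ 0 ≤ 4 * x.im + 8 := by
  rw [sec_iff (c := ⟨4, 0⟩) (q1 := ⟨2, -2⟩) (q2 := ⟨6, -2⟩) (s := 1) (by simp [ce]) rfl rfl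
    (by simp [sg])]
  constructor
  · rintro ⟨h1, h2, h3⟩
    exact ⟨by linarith, by linarith, by linarith⟩
  · rintro ⟨h1, h2, h3⟩
    exact ⟨by linarith, by linarith, by linarith⟩

theorem pp11 (x : ℂ) : cr (p1 11) (x - ce 11) = 2 * x.re - 2 * x.im - 8 := by
  rw [p_eq (c := ⟨4, 0⟩) (q := ⟨2, -2⟩) (by simp [ce]) rfl]
  ring

theorem qq11 (x : ℂ) : cr (x - ce 11) (p2 11) = -(2 * x.re) - 2 * x.im + 8 := by
  rw [q_eq (c := ⟨4, 0⟩) (q := ⟨6, -2⟩) (by simp [ce]) rfl]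
  ring

theorem ll11 (x : ℂ) : ln 11 x = 4 * x.im + 8 := by
  rw [ln_eq (q1 := ⟨2, -2⟩) (q2 := ⟨6, -2⟩) rfl rfl]
  ring

/-- the sector 12 -/
theorem ss12 (x : ℂ) : x ∈ sec 12 ↔ 0 ≤ 2 * x.re + 6 * x.im ∧
    0 ≤ 2 * x.re - 6 * x.im ∧ 0 ≤ 4 * x.re - 24 := by
  rw [sec_iff (c := 0) (q1 := ⟨6, -2⟩) (q2 := ⟨6, 2⟩) (s := -1) (by simp [ce]) rfl rfl
    (by simp [sg])]
  simp only [Complex.zero_re, Complex.zero_im]
  constructor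
  · rintro ⟨h1, h2, h3⟩
    exact ⟨by linarith, by linarith, by linarith⟩
  · rintro ⟨h1, h2, h3⟩
    exact ⟨by linarith, by linarith, by linarith⟩

theorem pp12 (x : ℂ) : cr (p1 12) (x - ce 12) = 2 * x.re + 6 * x.im := by
  rw [p_eq (c := 0) (q := ⟨6, -2⟩) (by simp [ce]) rfl]
  simp only [Complex.zero_re, Complex.zero_im]
  ring

theorem qq12 (x : ℂ) : cr (x - ce 12) (p2 12) = 2 * x.re - 6 * x.im := by
  rw [q_eq (c := 0) (q := ⟨6, 2⟩) (by simp [ce]) rfl]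
  simp only [Complex.zero_re, Complex.zero_im]
  ring

theorem ll12 (x : ℂ) : ln 12 x = -(4 * x.re) + 24 := by
  rw [ln_eq (q1 := ⟨6, -2⟩) (q2 := ⟨6, 2⟩) rfl rfl]
  ring

/-- the sector 13 -/
theorem ss13 (x : ℂ) : x ∈ sec 13 ↔ 0 ≤ -(2 * x.re) + 6 * x.im ∧
    0 ≤ 2 * x.re - 2 * x.im ∧ 0 ≤ 4 * x.im - 8 := by
  rw [sec_iff (c := 0) (q1 := ⟨6, 2⟩) (q2 := ⟨2, 2⟩) (s := -1) (by simp [ce]) rfl rfl
    (by simp [sg])]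
  simp only [Complex.zero_re, Complex.zero_im]
  constructor
  · rintro ⟨h1, h2, h3⟩
    exact ⟨by linarith, by linarith, by linarith⟩
  · rintro ⟨h1, h2, h3⟩
    exact ⟨by linarith, by linarith, by linarith⟩

theorem pp13 (x : ℂ) : cr (p1 13) (x - ce 13) = -(2 * x.re) + 6 * x.im := by
  rw [p_eq (c := 0) (q := ⟨6, 2⟩) (by simp [ce]) rfl]
  simp only [Complex.zero_re, Complex.zero_im]
  ring

theorem qq13 (x : ℂ) : cr (x - ce 13) (p2 13) = 2 * x.re - 2 * x.im := by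
  rw [q_eq (c := 0) (q := ⟨2, 2⟩) (by simp [ce]) rfl]
  simp only [Complex.zero_re, Complex.zero_im]
  ring

theorem ll13 (x : ℂ) : ln 13 x = -(4 * x.im) + 8 := by
  rw [ln_eq (q1 := ⟨6, 2⟩) (q2 := ⟨2, 2⟩) rfl rfl]
  ring

/-- the sector 14 -/
theorem ss14 (x : ℂ) : x ∈ sec 14 ↔ 0 ≤ -(2 * x.re) + 2 * x.im ∧
    0 ≤ 2 * x.re + 2 * x.im ∧ 0 ≤ 4 * x.im - 8 := by
  rw [sec_iff (c := 0) (q1 := ⟨2, 2⟩) (q2 := ⟨-2, 2⟩) (s := -1) (by simp [ce]) rfl rfl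
    (by simp [sg])]
  simp only [Complex.zero_re, Complex.zero_im]
  constructor
  · rintro ⟨h1, h2, h3⟩
    exact ⟨by linarith, by linarith, by linarith⟩
  · rintro ⟨h1, h2, h3⟩
    exact ⟨by linarith, by linarith, by linarith⟩

theorem pp14 (x : ℂ) : cr (p1 14) (x - ce 14) = -(2 * x.re) + 2 * x.im := by
  rw [p_eq (c := 0) (q := ⟨2, 2⟩) (by simp [ce]) rfl]
  simp only [Complex.zero_re, Complex.zero_im]
  ring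

theorem qq14 (x : ℂ) : cr (x - ce 14) (p2 14) = 2 * x.re + 2 * x.im := by
  rw [q_eq (c := 0) (q := ⟨-2, 2⟩) (by simp [ce]) rfl]
  simp only [Complex.zero_re, Complex.zero_im]
  ring

theorem ll14 (x : ℂ) : ln 14 x = -(4 * x.im) + 8 := by
  rw [ln_eq (q1 := ⟨2, 2⟩) (q2 := ⟨-2, 2⟩) rfl rfl]
  ring

/-- the sector 15 -/
theorem ss15 (x : ℂ) : x ∈ sec 15 ↔ 0 ≤ -(2 * x.re) - 2 * x.im ∧
    0 ≤ -(2 * x.re) + 2 * x.im ∧ 0 ≤ -(4 * x.re) - 8 := by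
  rw [sec_iff (c := 0) (q1 := ⟨-2, 2⟩) (q2 := ⟨-2, -2⟩) (s := -1) (by simp [ce]) rfl rfl
    (by simp [sg])]
  simp only [Complex.zero_re, Complex.zero_im]
  constructor
  · rintro ⟨h1, h2, h3⟩
    exact ⟨by linarith, by linarith, by linarith⟩
  · rintro ⟨h1, h2, h3⟩
    exact ⟨by linarith, by linarith, by linarith⟩

theorem pp15 (x : ℂ) : cr (p1 15) (x - ce 15) = -(2 * x.re) - 2 * x.im := by
  rw [p_eq (c := 0) (q := ⟨-2, 2⟩) (by simp [ce]) rfl]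
  simp only [Complex.zero_re, Complex.zero_im]
  ring

theorem qq15 (x : ℂ) : cr (x - ce 15) (p2 15) = -(2 * x.re) + 2 * x.im := by
  rw [q_eq (c := 0) (q := ⟨-2, -2⟩) (by simp [ce]) rfl]
  simp only [Complex.zero_re, Complex.zero_im]
  ring

theorem ll15 (x : ℂ) : ln 15 x = 4 * x.re + 8 := by
  rw [ln_eq (q1 := ⟨-2, 2⟩) (q2 := ⟨-2, -2⟩) rfl rfl]
  ring

/-- the sector 16 -/
theorem ss16 (x : ℂ) : x ∈ sec 16 ↔ 0 ≤ 2 * x.re - 2 * x.im ∧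
    0 ≤ -(2 * x.re) - 2 * x.im ∧ 0 ≤ -(4 * x.im) - 8 := by
  rw [sec_iff (c := 0) (q1 := ⟨-2, -2⟩) (q2 := ⟨2, -2⟩) (s := -1) (by simp [ce]) rfl rfl
    (by simp [sg])]
  simp only [Complex.zero_re, Complex.zero_im]
  constructor
  · rintro ⟨h1, h2, h3⟩
    exact ⟨by linarith, by linarith, by linarith⟩
  · rintro ⟨h1, h2, h3⟩
    exact ⟨by linarith, by linarith, by linarith⟩

theorem pp16 (x : ℂ) : cr (p1 16) (x - ce 16) = 2 * x.re - 2 * x.im := by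
  rw [p_eq (c := 0) (q := ⟨-2, -2⟩) (by simp [ce]) rfl]
  simp only [Complex.zero_re, Complex.zero_im]
  ring

theorem qq16 (x : ℂ) : cr (x - ce 16) (p2 16) = -(2 * x.re) - 2 * x.im := by
  rw [q_eq (c := 0) (q := ⟨2, -2⟩) (by simp [ce]) rfl]
  simp only [Complex.zero_re, Complex.zero_im]
  ring

theorem ll16 (x : ℂ) : ln 16 x = 4 * x.im + 8 := by
  rw [ln_eq (q1 := ⟨-2, -2⟩) (q2 := ⟨2, -2⟩) rfl rfl]
  ring

/-- the sector 17 -/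
theorem ss17 (x : ℂ) : x ∈ sec 17 ↔ 0 ≤ 2 * x.re + 2 * x.im ∧
    0 ≤ -(2 * x.re) - 6 * x.im ∧ 0 ≤ -(4 * x.im) - 8 := by
  rw [sec_iff (c := 0) (q1 := ⟨2, -2⟩) (q2 := ⟨6, -2⟩) (s := -1) (by simp [ce]) rfl rfl
    (by simp [sg])]
  simp only [Complex.zero_re, Complex.zero_im]
  constructor
  · rintro ⟨h1, h2, h3⟩
    exact ⟨by linarith, by linarith, by linarith⟩
  · rintro ⟨h1, h2, h3⟩
    exact ⟨by linarith, by linarith, by linarith⟩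

theorem pp17 (x : ℂ) : cr (p1 17) (x - ce 17) = 2 * x.re + 2 * x.im := by
  rw [p_eq (c := 0) (q := ⟨2, -2⟩) (by simp [ce]) rfl]
  simp only [Complex.zero_re, Complex.zero_im]
  ring

theorem qq17 (x : ℂ) : cr (x - ce 17) (p2 17) = -(2 * x.re) - 6 * x.im := by
  rw [q_eq (c := 0) (q := ⟨6, -2⟩) (by simp [ce]) rfl]
  simp only [Complex.zero_re, Complex.zero_im]
  ring

theorem ll17 (x : ℂ) : ln 17 x = 4 * x.im + 8 := by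
  rw [ln_eq (q1 := ⟨2, -2⟩) (q2 := ⟨6, -2⟩) rfl rfl]
  ring

theorem bb0 (x : ℂ) : x ∈ bs 0 ↔ 0 ≤ x.re + 2 * x.im ∧
    0 ≤ x.re - 2 * x.im ∧ 0 ≤ -(2 * x.re) + 4 :=
  ss0 x

theorem bb1 (x : ℂ) : x ∈ bs 1 ↔ 0 ≤ -x.re + 2 * x.im ∧
    0 ≤ 2 * x.re - 2 * x.im ∧ 0 ≤ -x.re + 2 :=
  ss1 x

theorem bb2 (x : ℂ) : x ∈ bs 2 ↔ 0 ≤ -(2 * x.re) + 2 * x.im ∧
    0 ≤ 2 * x.re + 2 * x.im ∧ 0 ≤ -(4 * x.im) + 8 :=
  ss2 x

theorem bb3 (x : ℂ) : x ∈ bs 3 ↔ 0 ≤ -(2 * x.re) - 2 * x.im ∧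
    0 ≤ -(2 * x.re) + 2 * x.im ∧ 0 ≤ 4 * x.re + 8 :=
  ss3 x

theorem bb4 (x : ℂ) : x ∈ bs 4 ↔ 0 ≤ 2 * x.re - 2 * x.im ∧
    0 ≤ -(2 * x.re) - 2 * x.im ∧ 0 ≤ 4 * x.im + 8 :=
  ss4 x

theorem bb5 (x : ℂ) : x ∈ bs 5 ↔ 0 ≤ 2 * x.re + 2 * x.im ∧
    0 ≤ -x.re - 2 * x.im ∧ 0 ≤ -x.re + 2 :=
  ss5 x

theorem bb6 (x : ℂ) : x ∈ bs 6 ↔ 0 ≤ 2 * x.re + 2 * x.im - 8 ∧
    0 ≤ 2 * x.re - 2 * x.im - 8 ∧ 0 ≤ -(4 * x.re) + 24 :=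
  ss6 x

theorem bb7 (x : ℂ) : x ∈ bs 7 ↔ 0 ≤ -(2 * x.re) + 2 * x.im + 8 ∧
    0 ≤ 2 * x.re + 2 * x.im - 8 ∧ 0 ≤ -(4 * x.im) + 8 :=
  ss7 x

theorem bb8 (x : ℂ) : x ∈ bs 8 ↔ 0 ≤ -(2 * x.re) - 2 * x.im + 8 ∧
    0 ≤ x.re + 2 * x.im - 4 ∧ 0 ≤ x.re - 2 :=
  ss8 x

theorem bb9 (x : ℂ) : x ∈ bs 9 ↔ 0 ≤ -x.re - 2 * x.im + 4 ∧
    0 ≤ -x.re + 2 * x.im + 4 ∧ 0 ≤ 2 * x.re - 4 :=
  ss9 x

theorem bb10 (x : ℂ) : x ∈ bs 10 ↔ 0 ≤ x.re - 2 * x.im - 4 ∧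
    0 ≤ -(2 * x.re) + 2 * x.im + 8 ∧ 0 ≤ x.re - 2 :=
  ss10 x

theorem bb11 (x : ℂ) : x ∈ bs 11 ↔ 0 ≤ 2 * x.re - 2 * x.im - 8 ∧
    0 ≤ -(2 * x.re) - 2 * x.im + 8 ∧ 0 ≤ 4 * x.im + 8 :=
  ss11 x

theorem bb12 (x : ℂ) : x ∈ bs 12 ↔ 0 ≤ 2 * x.re + 6 * x.im ∧
    0 ≤ 2 * x.re - 6 * x.im ∧ 0 ≤ 4 * x.re - 24 :=
  ss12 x

theorem bb13 (x : ℂ) : x ∈ bs 13 ↔ 0 ≤ -(2 * x.re) + 6 * x.im ∧
    0 ≤ 2 * x.re - 2 * x.im ∧ 0 ≤ 4 * x.im - 8 :=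
  ss13 x

theorem bb14 (x : ℂ) : x ∈ bs 14 ↔ 0 ≤ -(2 * x.re) + 2 * x.im ∧
    0 ≤ 2 * x.re + 2 * x.im ∧ 0 ≤ 4 * x.im - 8 :=
  ss14 x

theorem bb15 (x : ℂ) : x ∈ bs 15 ↔ 0 ≤ -(2 * x.re) - 2 * x.im ∧
    0 ≤ -(2 * x.re) + 2 * x.im ∧ 0 ≤ -(4 * x.re) - 8 :=
  ss15 x

theorem bb16 (x : ℂ) : x ∈ bs 16 ↔ 0 ≤ 2 * x.re - 2 * x.im ∧
    0 ≤ -(2 * x.re) - 2 * x.im ∧ 0 ≤ -(4 * x.im) - 8 :=
  ss16 x

theorem bb17 (x : ℂ) : x ∈ bs 17 ↔ 0 ≤ 2 * x.re + 2 * x.im ∧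
    0 ≤ -(2 * x.re) - 6 * x.im ∧ 0 ≤ -(4 * x.im) - 8 :=
  ss17 x

theorem bb18 (x : ℂ) : x ∈ bs 18 ↔ (0 ≤ x.re + 2 * x.im ∧
    0 ≤ x.re - 2 * x.im ∧ 0 ≤ -(2 * x.re) + 4) ∧
    x.re + 2 * x.im = 0 := by
  rw [← ss0, ← pp0]
  rfl

theorem bb19 (x : ℂ) : x ∈ bs 19 ↔ (0 ≤ -x.re + 2 * x.im ∧
    0 ≤ 2 * x.re - 2 * x.im ∧ 0 ≤ -x.re + 2) ∧
    -x.re + 2 * x.im = 0 := by
  rw [← ss1, ← pp1]
  rfl

theorem bb20 (x : ℂ) : x ∈ bs 20 ↔ (0 ≤ -(2 * x.re) + 2 * x.im ∧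
    0 ≤ 2 * x.re + 2 * x.im ∧ 0 ≤ -(4 * x.im) + 8) ∧
    -(2 * x.re) + 2 * x.im = 0 := by
  rw [← ss2, ← pp2]
  rfl

theorem bb21 (x : ℂ) : x ∈ bs 21 ↔ (0 ≤ -(2 * x.re) - 2 * x.im ∧
    0 ≤ -(2 * x.re) + 2 * x.im ∧ 0 ≤ 4 * x.re + 8) ∧
    -(2 * x.re) - 2 * x.im = 0 := by
  rw [← ss3, ← pp3]
  rfl

theorem bb22 (x : ℂ) : x ∈ bs 22 ↔ (0 ≤ 2 * x.re - 2 * x.im ∧
    0 ≤ -(2 * x.re) - 2 * x.im ∧ 0 ≤ 4 * x.im + 8) ∧
    2 * x.re - 2 * x.im = 0 := by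
  rw [← ss4, ← pp4]
  rfl

theorem bb23 (x : ℂ) : x ∈ bs 23 ↔ (0 ≤ 2 * x.re + 2 * x.im ∧
    0 ≤ -x.re - 2 * x.im ∧ 0 ≤ -x.re + 2) ∧
    2 * x.re + 2 * x.im = 0 := by
  rw [← ss5, ← pp5]
  rfl

theorem bb24 (x : ℂ) : x ∈ bs 24 ↔ (0 ≤ 2 * x.re + 2 * x.im - 8 ∧
    0 ≤ 2 * x.re - 2 * x.im - 8 ∧ 0 ≤ -(4 * x.re) + 24) ∧
    2 * x.re + 2 * x.im - 8 = 0 := by
  rw [← ss6, ← pp6]
  rfl

theorem bb25 (x : ℂ) : x ∈ bs 25 ↔ (0 ≤ -(2 * x.re) + 2 * x.im + 8 ∧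
    0 ≤ 2 * x.re + 2 * x.im - 8 ∧ 0 ≤ -(4 * x.im) + 8) ∧
    -(2 * x.re) + 2 * x.im + 8 = 0 := by
  rw [← ss7, ← pp7]
  rfl

theorem bb26 (x : ℂ) : x ∈ bs 26 ↔ (0 ≤ -(2 * x.re) - 2 * x.im + 8 ∧
    0 ≤ x.re + 2 * x.im - 4 ∧ 0 ≤ x.re - 2) ∧
    -(2 * x.re) - 2 * x.im + 8 = 0 := by
  rw [← ss8, ← pp8]
  rfl

theorem bb27 (x : ℂ) : x ∈ bs 27 ↔ (0 ≤ -x.re - 2 * x.im + 4 ∧
    0 ≤ -x.re + 2 * x.im + 4 ∧ 0 ≤ 2 * x.re - 4) ∧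
    -x.re - 2 * x.im + 4 = 0 := by
  rw [← ss9, ← pp9]
  rfl

theorem bb28 (x : ℂ) : x ∈ bs 28 ↔ (0 ≤ x.re - 2 * x.im - 4 ∧
    0 ≤ -(2 * x.re) + 2 * x.im + 8 ∧ 0 ≤ x.re - 2) ∧
    x.re - 2 * x.im - 4 = 0 := by
  rw [← ss10, ← pp10]
  rfl

theorem bb29 (x : ℂ) : x ∈ bs 29 ↔ (0 ≤ 2 * x.re - 2 * x.im - 8 ∧
    0 ≤ -(2 * x.re) - 2 * x.im + 8 ∧ 0 ≤ 4 * x.im + 8) ∧
    2 * x.re - 2 * x.im - 8 = 0 := by
  rw [← ss11, ← pp11]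
  rfl

theorem bb30 (x : ℂ) : x ∈ bs 30 ↔ (0 ≤ 2 * x.re + 6 * x.im ∧
    0 ≤ 2 * x.re - 6 * x.im ∧ 0 ≤ 4 * x.re - 24) ∧
    2 * x.re + 6 * x.im = 0 := by
  rw [← ss12, ← pp12]
  rfl

theorem bb31 (x : ℂ) : x ∈ bs 31 ↔ (0 ≤ -(2 * x.re) + 6 * x.im ∧
    0 ≤ 2 * x.re - 2 * x.im ∧ 0 ≤ 4 * x.im - 8) ∧
    -(2 * x.re) + 6 * x.im = 0 := by
  rw [← ss13, ← pp13]
  rfl

theorem bb32 (x : ℂ) : x ∈ bs 32 ↔ (0 ≤ -(2 * x.re) + 2 * x.im ∧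
    0 ≤ 2 * x.re + 2 * x.im ∧ 0 ≤ 4 * x.im - 8) ∧
    -(2 * x.re) + 2 * x.im = 0 := by
  rw [← ss14, ← pp14]
  rfl

theorem bb33 (x : ℂ) : x ∈ bs 33 ↔ (0 ≤ -(2 * x.re) - 2 * x.im ∧
    0 ≤ -(2 * x.re) + 2 * x.im ∧ 0 ≤ -(4 * x.re) - 8) ∧
    -(2 * x.re) - 2 * x.im = 0 := by
  rw [← ss15, ← pp15]
  rfl

theorem bb34 (x : ℂ) : x ∈ bs 34 ↔ (0 ≤ 2 * x.re - 2 * x.im ∧
    0 ≤ -(2 * x.re) - 2 * x.im ∧ 0 ≤ -(4 * x.im) - 8) ∧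
    2 * x.re - 2 * x.im = 0 := by
  rw [← ss16, ← pp16]
  rfl

theorem bb35 (x : ℂ) : x ∈ bs 35 ↔ (0 ≤ 2 * x.re + 2 * x.im ∧
    0 ≤ -(2 * x.re) - 6 * x.im ∧ 0 ≤ -(4 * x.im) - 8) ∧
    2 * x.re + 2 * x.im = 0 := by
  rw [← ss17, ← pp17]
  rfl

theorem bb36 (x : ℂ) : x ∈ bs 36 ↔ (0 ≤ -(2 * x.re) + 2 * x.im ∧
    0 ≤ 2 * x.re + 2 * x.im ∧ 0 ≤ -(4 * x.im) + 8) ∧
    -(4 * x.im) + 8 = 0 := by
  rw [← ss2, ← ll2]
  rfl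

theorem bb37 (x : ℂ) : x ∈ bs 37 ↔ (0 ≤ -(2 * x.re) - 2 * x.im ∧
    0 ≤ -(2 * x.re) + 2 * x.im ∧ 0 ≤ 4 * x.re + 8) ∧
    4 * x.re + 8 = 0 := by
  rw [← ss3, ← ll3]
  rfl

theorem bb38 (x : ℂ) : x ∈ bs 38 ↔ (0 ≤ 2 * x.re - 2 * x.im ∧
    0 ≤ -(2 * x.re) - 2 * x.im ∧ 0 ≤ 4 * x.im + 8) ∧
    4 * x.im + 8 = 0 := by
  rw [← ss4, ← ll4]
  rfl

theorem bb39 (x : ℂ) : x ∈ bs 39 ↔ (0 ≤ -x.re + 2 * x.im ∧
    0 ≤ 2 * x.re - 2 * x.im ∧ 0 ≤ -x.re + 2) ∧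
    -x.re + 2 = 0 := by
  rw [← ss1, ← ll1]
  rfl

theorem bb40 (x : ℂ) : x ∈ bs 40 ↔ (0 ≤ x.re + 2 * x.im ∧
    0 ≤ x.re - 2 * x.im ∧ 0 ≤ -(2 * x.re) + 4) ∧
    -(2 * x.re) + 4 = 0 := by
  rw [← ss0, ← ll0]
  rfl

theorem bb41 (x : ℂ) : x ∈ bs 41 ↔ (0 ≤ 2 * x.re + 2 * x.im ∧
    0 ≤ -x.re - 2 * x.im ∧ 0 ≤ -x.re + 2) ∧
    -x.re + 2 = 0 := by
  rw [← ss5, ← ll5]
  rfl

theorem bb42 (x : ℂ) : x ∈ bs 42 ↔ (0 ≤ -(2 * x.re) + 2 * x.im + 8 ∧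
    0 ≤ 2 * x.re + 2 * x.im - 8 ∧ 0 ≤ -(4 * x.im) + 8) ∧
    -(4 * x.im) + 8 = 0 := by
  rw [← ss7, ← ll7]
  rfl

theorem bb43 (x : ℂ) : x ∈ bs 43 ↔ (0 ≤ 2 * x.re + 2 * x.im - 8 ∧
    0 ≤ 2 * x.re - 2 * x.im - 8 ∧ 0 ≤ -(4 * x.re) + 24) ∧
    -(4 * x.re) + 24 = 0 := by
  rw [← ss6, ← ll6]
  rfl

theorem bb44 (x : ℂ) : x ∈ bs 44 ↔ (0 ≤ 2 * x.re - 2 * x.im - 8 ∧
    0 ≤ -(2 * x.re) - 2 * x.im + 8 ∧ 0 ≤ 4 * x.im + 8) ∧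
    4 * x.im + 8 = 0 := by
  rw [← ss11, ← ll11]
  rfl

theorem bb45 (x : ℂ) : x ∈ bs 45 ↔ x.re - 2 = 0 ∧ x.im - 2 = 0 := by
  have h : x ∈ bs 45 ↔ x = ⟨2, 2⟩ := Iff.rfl
  rw [h, Complex.ext_iff]
  constructor
  · rintro ⟨h1, h2⟩
    simp only at h1 h2
    exact ⟨by linarith, by linarith⟩
  · rintro ⟨h1, h2⟩
    exact ⟨by simp only; linarith, by simp only; linarith⟩

theorem bb46 (x : ℂ) : x ∈ bs 46 ↔ x.re - 2 = 0 ∧ x.im + 2 = 0 := by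
  have h : x ∈ bs 46 ↔ x = ⟨2, -2⟩ := Iff.rfl
  rw [h, Complex.ext_iff]
  constructor
  · rintro ⟨h1, h2⟩
    simp only at h1 h2
    exact ⟨by linarith, by linarith⟩
  · rintro ⟨h1, h2⟩
    exact ⟨by simp only; linarith, by simp only; linarith⟩

theorem bb47 (x : ℂ) : x ∈ bs 47 ↔ x.re + 2 = 0 ∧ x.im - 2 = 0 := by
  have h : x ∈ bs 47 ↔ x = ⟨-2, 2⟩ := Iff.rfl
  rw [h, Complex.ext_iff]
  constructor
  · rintro ⟨h1, h2⟩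
    simp only at h1 h2
    exact ⟨by linarith, by linarith⟩
  · rintro ⟨h1, h2⟩
    exact ⟨by simp only; linarith, by simp only; linarith⟩

theorem bb48 (x : ℂ) : x ∈ bs 48 ↔ x.re + 2 = 0 ∧ x.im + 2 = 0 := by
  have h : x ∈ bs 48 ↔ x = ⟨-2, -2⟩ := Iff.rfl
  rw [h, Complex.ext_iff]
  constructor
  · rintro ⟨h1, h2⟩
    simp only at h1 h2
    exact ⟨by linarith, by linarith⟩
  · rintro ⟨h1, h2⟩
    exact ⟨by simp only; linarith, by simp only; linarith⟩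

theorem bb49 (x : ℂ) : x ∈ bs 49 ↔ x.re - 2 = 0 ∧ x.im - 1 = 0 := by
  have h : x ∈ bs 49 ↔ x = ⟨2, 1⟩ := Iff.rfl
  rw [h, Complex.ext_iff]
  constructor
  · rintro ⟨h1, h2⟩
    simp only at h1 h2
    exact ⟨by linarith, by linarith⟩
  · rintro ⟨h1, h2⟩
    exact ⟨by simp only; linarith, by simp only; linarith⟩

theorem bb50 (x : ℂ) : x ∈ bs 50 ↔ x.re - 2 = 0 ∧ x.im + 1 = 0 := by
  have h : x ∈ bs 50 ↔ x = ⟨2, -1⟩ := Iff.rfl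
  rw [h, Complex.ext_iff]
  constructor
  · rintro ⟨h1, h2⟩
    simp only at h1 h2
    exact ⟨by linarith, by linarith⟩
  · rintro ⟨h1, h2⟩
    exact ⟨by simp only; linarith, by simp only; linarith⟩

theorem bb51 (x : ℂ) : x ∈ bs 51 ↔ x.re - 6 = 0 ∧ x.im - 2 = 0 := by
  have h : x ∈ bs 51 ↔ x = ⟨6, 2⟩ := Iff.rfl
  rw [h, Complex.ext_iff]
  constructor
  · rintro ⟨h1, h2⟩
    simp only at h1 h2
    exact ⟨by linarith, by linarith⟩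
  · rintro ⟨h1, h2⟩
    exact ⟨by simp only; linarith, by simp only; linarith⟩

theorem bb52 (x : ℂ) : x ∈ bs 52 ↔ x.re - 6 = 0 ∧ x.im + 2 = 0 := by
  have h : x ∈ bs 52 ↔ x = ⟨6, -2⟩ := Iff.rfl
  rw [h, Complex.ext_iff]
  constructor
  · rintro ⟨h1, h2⟩
    simp only at h1 h2
    exact ⟨by linarith, by linarith⟩
  · rintro ⟨h1, h2⟩
    exact ⟨by simp only; linarith, by simp only; linarith⟩

/-- **(PL2)** -/
theorem stEnd_21 : StEnd := by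
  intro k hk x hx
  interval_cases k
  · have e : 18 + nx 0 = 19 := rfl
    obtain ⟨h1, h2, h3⟩ := (ss0 x).1 hx
    rw [e, bb19, qq0]
    constructor
    · intro h4
      exact ⟨⟨by linarith, by linarith, by linarith⟩, by linarith⟩
    · rintro ⟨⟨g1, g2, g3⟩, g4⟩
      linarith
  · have e : 18 + nx 1 = 20 := rfl
    obtain ⟨h1, h2, h3⟩ := (ss1 x).1 hx
    rw [e, bb20, qq1]
    constructor
    · intro h4
      exact ⟨⟨by linarith, by linarith, by linarith⟩, by linarith⟩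
    · rintro ⟨⟨g1, g2, g3⟩, g4⟩
      linarith
  · have e : 18 + nx 2 = 21 := rfl
    obtain ⟨h1, h2, h3⟩ := (ss2 x).1 hx
    rw [e, bb21, qq2]
    constructor
    · intro h4
      exact ⟨⟨by linarith, by linarith, by linarith⟩, by linarith⟩
    · rintro ⟨⟨g1, g2, g3⟩, g4⟩
      linarith
  · have e : 18 + nx 3 = 22 := rfl
    obtain ⟨h1, h2, h3⟩ := (ss3 x).1 hx
    rw [e, bb22, qq3]
    constructor
    · intro h4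
      exact ⟨⟨by linarith, by linarith, by linarith⟩, by linarith⟩
    · rintro ⟨⟨g1, g2, g3⟩, g4⟩
      linarith
  · have e : 18 + nx 4 = 23 := rfl
    obtain ⟨h1, h2, h3⟩ := (ss4 x).1 hx
    rw [e, bb23, qq4]
    constructor
    · intro h4
      exact ⟨⟨by linarith, by linarith, by linarith⟩, by linarith⟩
    · rintro ⟨⟨g1, g2, g3⟩, g4⟩
      linarith
  · have e : 18 + nx 5 = 18 := rfl
    obtain ⟨h1, h2, h3⟩ := (ss5 x).1 hx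
    rw [e, bb18, qq5]
    constructor
    · intro h4
      exact ⟨⟨by linarith, by linarith, by linarith⟩, by linarith⟩
    · rintro ⟨⟨g1, g2, g3⟩, g4⟩
      linarith
  · have e : 18 + nx 6 = 25 := rfl
    obtain ⟨h1, h2, h3⟩ := (ss6 x).1 hx
    rw [e, bb25, qq6]
    constructor
    · intro h4
      exact ⟨⟨by linarith, by linarith, by linarith⟩, by linarith⟩
    · rintro ⟨⟨g1, g2, g3⟩, g4⟩
      linarith
  · have e : 18 + nx 7 = 26 := rfl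
    obtain ⟨h1, h2, h3⟩ := (ss7 x).1 hx
    rw [e, bb26, qq7]
    constructor
    · intro h4
      exact ⟨⟨by linarith, by linarith, by linarith⟩, by linarith⟩
    · rintro ⟨⟨g1, g2, g3⟩, g4⟩
      linarith
  · have e : 18 + nx 8 = 27 := rfl
    obtain ⟨h1, h2, h3⟩ := (ss8 x).1 hx
    rw [e, bb27, qq8]
    constructor
    · intro h4
      exact ⟨⟨by linarith, by linarith, by linarith⟩, by linarith⟩
    · rintro ⟨⟨g1, g2, g3⟩, g4⟩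
      linarith
  · have e : 18 + nx 9 = 28 := rfl
    obtain ⟨h1, h2, h3⟩ := (ss9 x).1 hx
    rw [e, bb28, qq9]
    constructor
    · intro h4
      exact ⟨⟨by linarith, by linarith, by linarith⟩, by linarith⟩
    · rintro ⟨⟨g1, g2, g3⟩, g4⟩
      linarith
  · have e : 18 + nx 10 = 29 := rfl
    obtain ⟨h1, h2, h3⟩ := (ss10 x).1 hx
    rw [e, bb29, qq10]
    constructor
    · intro h4
      exact ⟨⟨by linarith, by linarith, by linarith⟩, by linarith⟩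
    · rintro ⟨⟨g1, g2, g3⟩, g4⟩
      linarith
  · have e : 18 + nx 11 = 24 := rfl
    obtain ⟨h1, h2, h3⟩ := (ss11 x).1 hx
    rw [e, bb24, qq11]
    constructor
    · intro h4
      exact ⟨⟨by linarith, by linarith, by linarith⟩, by linarith⟩
    · rintro ⟨⟨g1, g2, g3⟩, g4⟩
      linarith
  · have e : 18 + nx 12 = 31 := rfl
    obtain ⟨h1, h2, h3⟩ := (ss12 x).1 hx
    rw [e, bb31, qq12]
    constructor
    · intro h4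
      exact ⟨⟨by linarith, by linarith, by linarith⟩, by linarith⟩
    · rintro ⟨⟨g1, g2, g3⟩, g4⟩
      linarith
  · have e : 18 + nx 13 = 32 := rfl
    obtain ⟨h1, h2, h3⟩ := (ss13 x).1 hx
    rw [e, bb32, qq13]
    constructor
    · intro h4
      exact ⟨⟨by linarith, by linarith, by linarith⟩, by linarith⟩
    · rintro ⟨⟨g1, g2, g3⟩, g4⟩
      linarith
  · have e : 18 + nx 14 = 33 := rfl
    obtain ⟨h1, h2, h3⟩ := (ss14 x).1 hx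
    rw [e, bb33, qq14]
    constructor
    · intro h4
      exact ⟨⟨by linarith, by linarith, by linarith⟩, by linarith⟩
    · rintro ⟨⟨g1, g2, g3⟩, g4⟩
      linarith
  · have e : 18 + nx 15 = 34 := rfl
    obtain ⟨h1, h2, h3⟩ := (ss15 x).1 hx
    rw [e, bb34, qq15]
    constructor
    · intro h4
      exact ⟨⟨by linarith, by linarith, by linarith⟩, by linarith⟩
    · rintro ⟨⟨g1, g2, g3⟩, g4⟩
      linarith
  · have e : 18 + nx 16 = 35 := rfl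
    obtain ⟨h1, h2, h3⟩ := (ss16 x).1 hx
    rw [e, bb35, qq16]
    constructor
    · intro h4
      exact ⟨⟨by linarith, by linarith, by linarith⟩, by linarith⟩
    · rintro ⟨⟨g1, g2, g3⟩, g4⟩
      linarith
  · have e : 18 + nx 17 = 30 := rfl
    obtain ⟨h1, h2, h3⟩ := (ss17 x).1 hx
    rw [e, bb30, qq17]
    constructor
    · intro h4
      exact ⟨⟨by linarith, by linarith, by linarith⟩, by linarith⟩
    · rintro ⟨⟨g1, g2, g3⟩, g4⟩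
      linarith

/-- **(PL3)** -/
theorem stCore_21 : StCore := by
  intro k hk x hx
  interval_cases k
  · have e : 36 + co 0 = 40 := rfl
    obtain ⟨h1, h2, h3⟩ := (ss0 x).1 hx
    rw [e, bb40, ll0]
    constructor
    · intro h4
      exact ⟨⟨by linarith, by linarith, by linarith⟩, by linarith⟩
    · rintro ⟨⟨g1, g2, g3⟩, g4⟩
      linarith
  · have e : 36 + co 1 = 39 := rfl
    obtain ⟨h1, h2, h3⟩ := (ss1 x).1 hx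
    rw [e, bb39, ll1]
    constructor
    · intro h4
      exact ⟨⟨by linarith, by linarith, by linarith⟩, by linarith⟩
    · rintro ⟨⟨g1, g2, g3⟩, g4⟩
      linarith
  · have e : 36 + co 2 = 36 := rfl
    obtain ⟨h1, h2, h3⟩ := (ss2 x).1 hx
    rw [e, bb36, ll2]
    constructor
    · intro h4
      exact ⟨⟨by linarith, by linarith, by linarith⟩, by linarith⟩
    · rintro ⟨⟨g1, g2, g3⟩, g4⟩
      linarith
  · have e : 36 + co 3 = 37 := rfl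
    obtain ⟨h1, h2, h3⟩ := (ss3 x).1 hx
    rw [e, bb37, ll3]
    constructor
    · intro h4
      exact ⟨⟨by linarith, by linarith, by linarith⟩, by linarith⟩
    · rintro ⟨⟨g1, g2, g3⟩, g4⟩
      linarith
  · have e : 36 + co 4 = 38 := rfl
    obtain ⟨h1, h2, h3⟩ := (ss4 x).1 hx
    rw [e, bb38, ll4]
    constructor
    · intro h4
      exact ⟨⟨by linarith, by linarith, by linarith⟩, by linarith⟩
    · rintro ⟨⟨g1, g2, g3⟩, g4⟩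
      linarith
  · have e : 36 + co 5 = 41 := rfl
    obtain ⟨h1, h2, h3⟩ := (ss5 x).1 hx
    rw [e, bb41, ll5]
    constructor
    · intro h4
      exact ⟨⟨by linarith, by linarith, by linarith⟩, by linarith⟩
    · rintro ⟨⟨g1, g2, g3⟩, g4⟩
      linarith
  · have e : 36 + co 6 = 43 := rfl
    obtain ⟨h1, h2, h3⟩ := (ss6 x).1 hx
    rw [e, bb43, ll6]
    constructor
    · intro h4
      exact ⟨⟨by linarith, by linarith, by linarith⟩, by linarith⟩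
    · rintro ⟨⟨g1, g2, g3⟩, g4⟩
      linarith
  · have e : 36 + co 7 = 42 := rfl
    obtain ⟨h1, h2, h3⟩ := (ss7 x).1 hx
    rw [e, bb42, ll7]
    constructor
    · intro h4
      exact ⟨⟨by linarith, by linarith, by linarith⟩, by linarith⟩
    · rintro ⟨⟨g1, g2, g3⟩, g4⟩
      linarith
  · have e : 36 + co 8 = 39 := rfl
    obtain ⟨h1, h2, h3⟩ := (ss8 x).1 hx
    rw [e, bb39, ll8]
    constructor
    · intro h4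
      exact ⟨⟨by linarith, by linarith, by linarith⟩, by linarith⟩
    · rintro ⟨⟨g1, g2, g3⟩, g4⟩
      linarith
  · have e : 36 + co 9 = 40 := rfl
    obtain ⟨h1, h2, h3⟩ := (ss9 x).1 hx
    rw [e, bb40, ll9]
    constructor
    · intro h4
      exact ⟨⟨by linarith, by linarith, by linarith⟩, by linarith⟩
    · rintro ⟨⟨g1, g2, g3⟩, g4⟩
      linarith
  · have e : 36 + co 10 = 41 := rfl
    obtain ⟨h1, h2, h3⟩ := (ss10 x).1 hx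
    rw [e, bb41, ll10]
    constructor
    · intro h4
      exact ⟨⟨by linarith, by linarith, by linarith⟩, by linarith⟩
    · rintro ⟨⟨g1, g2, g3⟩, g4⟩
      linarith
  · have e : 36 + co 11 = 44 := rfl
    obtain ⟨h1, h2, h3⟩ := (ss11 x).1 hx
    rw [e, bb44, ll11]
    constructor
    · intro h4
      exact ⟨⟨by linarith, by linarith, by linarith⟩, by linarith⟩
    · rintro ⟨⟨g1, g2, g3⟩, g4⟩
      linarith
  · have e : 36 + co 12 = 43 := rfl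
    obtain ⟨h1, h2, h3⟩ := (ss12 x).1 hx
    rw [e, bb43, ll12]
    constructor
    · intro h4
      exact ⟨⟨by linarith, by linarith, by linarith⟩, by linarith⟩
    · rintro ⟨⟨g1, g2, g3⟩, g4⟩
      linarith
  · have e : 36 + co 13 = 42 := rfl
    obtain ⟨h1, h2, h3⟩ := (ss13 x).1 hx
    rw [e, bb42, ll13]
    constructor
    · intro h4
      exact ⟨⟨by linarith, by linarith, by linarith⟩, by linarith⟩
    · rintro ⟨⟨g1, g2, g3⟩, g4⟩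
      linarith
  · have e : 36 + co 14 = 36 := rfl
    obtain ⟨h1, h2, h3⟩ := (ss14 x).1 hx
    rw [e, bb36, ll14]
    constructor
    · intro h4
      exact ⟨⟨by linarith, by linarith, by linarith⟩, by linarith⟩
    · rintro ⟨⟨g1, g2, g3⟩, g4⟩
      linarith
  · have e : 36 + co 15 = 37 := rfl
    obtain ⟨h1, h2, h3⟩ := (ss15 x).1 hx
    rw [e, bb37, ll15]
    constructor
    · intro h4
      exact ⟨⟨by linarith, by linarith, by linarith⟩, by linarith⟩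
    · rintro ⟨⟨g1, g2, g3⟩, g4⟩
      linarith
  · have e : 36 + co 16 = 38 := rfl
    obtain ⟨h1, h2, h3⟩ := (ss16 x).1 hx
    rw [e, bb38, ll16]
    constructor
    · intro h4
      exact ⟨⟨by linarith, by linarith, by linarith⟩, by linarith⟩
    · rintro ⟨⟨g1, g2, g3⟩, g4⟩
      linarith
  · have e : 36 + co 17 = 44 := rfl
    obtain ⟨h1, h2, h3⟩ := (ss17 x).1 hx
    rw [e, bb44, ll17]
    constructor
    · intro h4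
      exact ⟨⟨by linarith, by linarith, by linarith⟩, by linarith⟩
    · rintro ⟨⟨g1, g2, g3⟩, g4⟩
      linarith

end Pool.Agent.Lib.MP_84984d_gt.Tri.PL21
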