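import Pool.Agent.Lib.MP_84984d_gt.Tri.Mask92

set_option autoImplicit false

/-!
Soundness of the shelling check (helper92).
-/

namespace Pool.Agent.Lib.MP_84984d_gt.Tri

open Set

/-- `X = M₁ × S¹`. -/
def X0 : Set ((ℂ × ℂ) × ℂ) := {p | ‖p.1.2‖ ^ 2 = GG 2 p.1.1 ∧ ‖p.2‖ = 1}

/-- MODULE PL4: `GG` is positive on the segments and at the vertices. -/
def StPos : Prop := ∀ κ, 36 ≤ κ → κ < 53 → ∀ x ∈ bs κ, 0 < GG 2 x

/-- The open cells of the `z`-plane. -/
theorem zs_open (z : ℂ) : ∃ a < 5, (z ≠ 0 → a ≠ 2) ∧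
    ∀ b < 5, (z ∈ zs b ↔ (zm b).testBit a = true) := by
  rcases lt_trichotomy z.im 0 with h | h | h
  · refine ⟨1, by norm_num, by norm_num, fun b hb => ?_⟩
    interval_cases b
    · have : ¬ 0 ≤ z.im := not_le.2 h
      simp only [zs, if_pos, mem_ofPred_eq, this, false_iff]
      decide
    · simp only [zs, mem_ofPred_eq, h.le, true_iff, reduceIte, one_ne_zero]
      decide
    · have : ¬ z.im = 0 := h.ne
      simp [zs, this]
      decide
    · have : ¬ z.im = 0 := h.ne
      simp [zs, this]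
      decide
    · have : ¬ z.im = 0 := h.ne
      simp [zs, this]
      decide
  · rcases lt_trichotomy z.re 0 with h1 | h1 | h1
    · refine ⟨4, by norm_num, by norm_num, fun b hb => ?_⟩
      have h2 : ¬ 0 ≤ z.re := not_le.2 h1
      interval_cases b <;> simp [zs, h, h1.le, h2] <;> decide
    · refine ⟨2, by norm_num, fun hz => (hz (Complex.ext h1 h)).elim, fun b hb => ?_⟩
      interval_cases b <;> simp [zs, h, h1] <;> decide
    · refine ⟨3, by norm_num, by norm_num, fun b hb => ?_⟩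
      have h2 : ¬ z.re ≤ 0 := not_le.2 h1
      interval_cases b <;> simp [zs, h, h1.le, h2] <;> decide
  · refine ⟨0, by norm_num, by norm_num, fun b hb => ?_⟩
    have h2 : ¬ z.im ≤ 0 := not_le.2 h
    have h3 : ¬ z.im = 0 := h.ne'
    interval_cases b <;> simp [zs, h2, h3, h.le] <;> decide

/-- The open cell of a point. -/
theorem exists_code (hB : StBase) (hW : StW) (hP : StPos) : ∃ t : (ℂ × ℂ) × ℂ → ℕ,
    (∀ p ∈ X0, vm.testBit (t p) = true) ∧ ∀ c : ℕ × ℕ × ℕ, c.1 < 53 → c.2.1 < 5 → c.2.2 < 6 →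
      ∀ p ∈ X0, (p ∈ cell c ↔ (mask c).testBit (t p) = true) := by
  have key : ∀ p : (ℂ × ℂ) × ℂ, ∃ t : ℕ, p ∈ X0 → (vm.testBit t = true ∧
      ∀ c : ℕ × ℕ × ℕ, c.1 < 53 → c.2.1 < 5 → c.2.2 < 6 →
        (p ∈ cell c ↔ (mask c).testBit t = true)) := by
    intro p
    by_cases hp : p ∈ X0
    · obtain ⟨s, hs, hs'⟩ := hB p.1.1 (by rw [← hp.1]; positivity)
      obtain ⟨a, ha, hz, ha'⟩ := zs_open p.1.2
      obtain ⟨o, ho, ho'⟩ := hW p.2 hp.2
      refine ⟨pos s a o, fun _ => ⟨?_, ?_⟩⟩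
      · rw [vm_testBit hs ha ho]
        by_cases h1 : s < 36
        · simp [h1]
        · have h2 : p.1.1 ∈ bs s := by
            rw [hs' s hs]
            have h3 : 36 ≤ s := not_lt.1 h1
            unfold bm
            rw [if_neg (by omega), if_neg (by omega)]
            split_ifs <;> simp [Nat.testBit_or, Nat.testBit_two_pow_self]
          have h3 := hP s (not_lt.1 h1) hs _ h2
          have h4 : p.1.2 ≠ 0 := by
            intro h4
            rw [← hp.1, h4] at h3
            simp at h3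
          simp [hz h4]
      · intro c hc1 hc2 hc3
        rw [mask_testBit hs ha ho hc3]
        simp only [Bool.and_eq_true]
        rw [← hs' _ hc1, ← ha' _ hc2, ← ho' _ hc3]
        constructor
        · rintro ⟨_, _, h3, h4, h5⟩
          exact ⟨⟨h3, h4⟩, h5⟩
        · rintro ⟨⟨h3, h4⟩, h5⟩
          exact ⟨hp.1, hp.2, h3, h4, h5⟩
    · exact ⟨0, fun h => (hp h).elim⟩
  choose t ht using key
  exact ⟨t, fun p hp => (ht p hp).1, fun c h1 h2 h3 p hp => (ht p hp).2 c h1 h2 h3⟩

section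

variable (t : (ℂ × ℂ) × ℂ → ℕ)

/-- The subset of `X` with the mask `Y`. -/
def rz (Y : ℕ) : Set ((ℂ × ℂ) × ℂ) := {p | p ∈ X0 ∧ Y.testBit (t p) = true}

theorem rz_or (Y Z : ℕ) : rz t (Y ||| Z) = rz t Y ∪ rz t Z := by
  ext p
  simp only [rz, mem_ofPred_eq, mem_union, Nat.testBit_or, Bool.or_eq_true]
  tauto

theorem rz_and (Y Z : ℕ) : rz t (Y &&& Z) = rz t Y ∩ rz t Z := by
  ext p
  simp only [rz, mem_ofPred_eq, mem_inter_iff, Nat.testBit_and, Bool.and_eq_true]
  tauto

theorem rz_zero : rz t 0 = ∅ := by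
  ext p
  simp [rz]

theorem rz_vm (hv : ∀ p ∈ X0, vm.testBit (t p) = true) (Y : ℕ) : rz t (Y &&& vm) = rz t Y := by
  ext p
  simp only [rz, mem_ofPred_eq, Nat.testBit_and, Bool.and_eq_true]
  exact ⟨fun h => ⟨h.1, h.2.1⟩, fun h => ⟨h.1, h.2, hv p h.1⟩⟩

theorem rz_congr (hv : ∀ p ∈ X0, vm.testBit (t p) = true) {Y Z : ℕ}
    (h : Y &&& vm = Z &&& vm) : rz t Y = rz t Z := by
  rw [← rz_vm t hv Y, ← rz_vm t hv Z, h]

end

/-- One step of a shelling: the new cell, whether it is a 1-handle, the direction in which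
exactly one facet (resp. both facets) is glued, the list of glued facets. -/
structure Stp where
  c : ℕ × ℕ × ℕ
  hd : Bool
  i : ℕ
  F : List (ℕ × Bool)

/-- The union of facets. -/
def lorAll (fc : ℕ × ℕ × ℕ → ℕ → Bool → ℕ × ℕ × ℕ) (c : ℕ × ℕ × ℕ) (F : List (ℕ × Bool)) : ℕ :=
  F.foldr (fun φ m => mask (fc c φ.1 φ.2) ||| m) 0

/-- The check of one step. -/
def stepOk (n : ℕ) (L ok : ℕ × ℕ × ℕ → Bool) (fc : ℕ × ℕ × ℕ → ℕ → Bool → ℕ × ℕ × ℕ)
    (st : Stp) (Y : ℕ) : Bool :=
  ok st.c && decide (st.i < n + 2) && (!(L st.c) || decide (st.i ≠ 0)) &&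
  bif st.hd then
    (!(L st.c) || decide (st.i ≠ 1)) && (mask st.c &&& Y &&& vm ==
      (mask (fc st.c st.i false) ||| mask (fc st.c st.i true)) &&& vm)
  else
    st.F.all (fun φ => decide (φ.1 < n + 2) && (!(L st.c) || decide (φ.1 ≠ 0))) &&
      (st.F.contains (st.i, false) != st.F.contains (st.i, true)) &&
      (mask st.c &&& Y &&& vm == lorAll fc st.c st.F &&& vm)

/-- Run a shelling. -/
def run (n : ℕ) (L ok : ℕ × ℕ × ℕ → Bool) (fc : ℕ × ℕ × ℕ → ℕ → Bool → ℕ × ℕ × ℕ) :
    List Stp → ℕ → ℕ → Option (ℕ × ℕ)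
  | [], Y, k => some (Y, k)
  | st :: l, Y, k => bif stepOk n L ok fc st Y then
      run n L ok fc l (Y ||| mask st.c) (bif st.hd then k + 1 else k) else none

theorem lorAll_rz (t : (ℂ × ℂ) × ℂ → ℕ) (fc : ℕ × ℕ × ℕ → ℕ → Bool → ℕ × ℕ × ℕ)
    (c : ℕ × ℕ × ℕ) (F : List (ℕ × Bool)) :
    rz t (lorAll fc c F) = ⋃ φ ∈ F, rz t (mask (fc c φ.1 φ.2)) := by
  induction F with
  | nil => simp [lorAll, rz_zero]
  | cons φ F ih =>
    have : lorAll fc c (φ :: F) = mask (fc c φ.1 φ.2) ||| lorAll fc c F := rfl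
    rw [this, rz_or, ih]
    simp

theorem run_sound {t : (ℂ × ℂ) × ℂ → ℕ} (hv : ∀ p ∈ X0, vm.testBit (t p) = true)
    (ht : ∀ c : ℕ × ℕ × ℕ, c.1 < 53 → c.2.1 < 5 → c.2.2 < 6 →
      ∀ p ∈ X0, (p ∈ cell c ↔ (mask c).testBit (t p) = true))
    {n : ℕ} {L ok : ℕ × ℕ × ℕ → Bool} {fc : ℕ × ℕ × ℕ → ℕ → Bool → ℕ × ℕ × ℕ}
    (hc : ∀ c, ok c = true → c.1 < 53 ∧ c.2.1 < 5 ∧ c.2.2 < 6)
    (hf : ∀ c, ok c = true → ∀ i b, (fc c i b).1 < 53 ∧ (fc c i b).2.1 < 5 ∧
      (fc c i b).2.2 < 6)
    (hg : ∀ c, ok c = true → ∃ f : (Fin (n + 2) → ℝ) → (ℂ × ℂ) × ℂ, IsBlock (L c) n f ∧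
      f '' Body (L c) n = cell c ∧ ∀ i ∈ Dirs (L c) n, ∀ b,
        f '' Facet (L c) n i b = cell (fc c i b))
    (l : List Stp) {Y k Y' k' : ℕ} (hY : IsHandlebody n k (rz t Y))
    (h : run n L ok fc l Y k = some (Y', k')) : IsHandlebody n k' (rz t Y') := by
  have hcell : ∀ c : ℕ × ℕ × ℕ, c.1 < 53 → c.2.1 < 5 → c.2.2 < 6 → cell c = rz t (mask c) := by
    intro c h1 h2 h3
    ext p
    constructor
    · intro hp
      have hp' : p ∈ X0 := ⟨hp.1, hp.2.1⟩
      exact ⟨hp', (ht c h1 h2 h3 p hp').1 hp⟩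
    · rintro ⟨hp, hp'⟩
      exact (ht c h1 h2 h3 p hp).2 hp'
  induction l generalizing Y k with
  | nil =>
    simp only [run, Option.some.injEq, Prod.mk.injEq] at h
    obtain ⟨rfl, rfl⟩ := h
    exact hY
  | cons st l ih =>
    unfold run at h
    by_cases hst : stepOk n L ok fc st Y = true
    · rw [hst, cond_true] at h
      refine ih ?_ h
      unfold stepOk at hst
      rw [Bool.and_eq_true, Bool.and_eq_true, Bool.and_eq_true] at hst
      obtain ⟨⟨⟨hok, hi⟩, hi0⟩, hst⟩ := hst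
      have hi : st.i < n + 2 := of_decide_eq_true hi
      have hi0' : (⟨st.i, hi⟩ : Fin (n + 2)) ∈ Dirs (L st.c) n := by
        intro hL
        rw [hL] at hi0
        have := of_decide_eq_true (by simpa using hi0 : decide (st.i ≠ 0) = true)
        intro h0
        exact this (by simpa using congrArg Fin.val h0)
      obtain ⟨f, hfb, hfc, hff⟩ := hg _ hok
      obtain ⟨c1, c2, c3⟩ := hc _ hok
      rw [rz_or, ← hcell _ c1 c2 c3, ← hfc]
      cases hhd : st.hd with
      | true =>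
        rw [hhd, cond_true, Bool.and_eq_true] at hst
        obtain ⟨h1, h2⟩ := hst
        rw [cond_true]
        refine IsHandlebody.handle k (rz t Y) (L st.c) f ⟨st.i, hi⟩ hY hfb hi0' ?_ ?_
        · intro hL
          rw [hL] at h1
          have := of_decide_eq_true (by simpa using h1 : decide (st.i ≠ 1) = true)
          intro h0
          exact this (by simpa using congrArg Fin.val h0)
        · have h3 := rz_congr t hv (eq_of_beq h2)
          rw [rz_and, rz_or, ← hcell _ c1 c2 c3] at h3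
          obtain ⟨a1, a2, a3⟩ := hf _ hok st.i false
          obtain ⟨b1, b2, b3⟩ := hf _ hok st.i true
          rw [← hcell _ a1 a2 a3, ← hcell _ b1 b2 b3] at h3
          rw [hfc, h3, hff _ hi0', hff _ hi0']
      | false =>
        rw [hhd, cond_false, Bool.and_eq_true, Bool.and_eq_true] at hst
        obtain ⟨⟨h1, h2⟩, h3⟩ := hst
        rw [cond_false]
        refine IsHandlebody.glue k (rz t Y) (L st.c) f {φ | ((φ.1 : ℕ), φ.2) ∈ st.F} ⟨st.i, hi⟩
          hY hfb ?_ hi0' ?_ ?_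
        · intro φ hφ hL
          have h4 := List.all_eq_true.1 h1 _ hφ
          rw [Bool.and_eq_true, hL] at h4
          have := of_decide_eq_true (by simpa using h4.2 : decide ((φ.1 : ℕ) ≠ 0) = true)
          intro h0
          exact this (by simpa using congrArg Fin.val h0)
        · simp only [mem_ofPred_eq]
          rw [← List.contains_iff_mem, ← List.contains_iff_mem]
          revert h2
          cases st.F.contains (st.i, false) <;> cases st.F.contains (st.i, true) <;> simp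
        · have h4 := rz_congr t hv (eq_of_beq h3)
          rw [rz_and, ← hcell _ c1 c2 c3, lorAll_rz] at h4
          rw [hfc, h4]
          ext p
          simp only [mem_iUnion, exists_prop, mem_ofPred_eq]
          constructor
          · rintro ⟨φ, hφ, hp⟩
            have h5 := List.all_eq_true.1 h1 _ hφ
            rw [Bool.and_eq_true] at h5
            have h6 : φ.1 < n + 2 := of_decide_eq_true h5.1
            refine ⟨(⟨φ.1, h6⟩, φ.2), hφ, ?_⟩
            obtain ⟨a1, a2, a3⟩ := hf _ hok φ.1 φ.2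
            rw [hff, hcell _ a1 a2 a3]
            · exact hp
            · intro hL
              have h7 := h5.2
              rw [hL] at h7
              have := of_decide_eq_true (by simpa using h7 : decide ((φ.1 : ℕ) ≠ 0) = true)
              intro h0
              exact this (by simpa using congrArg Fin.val h0)
          · rintro ⟨φ, hφ, hp⟩
            refine ⟨((φ.1 : ℕ), φ.2), hφ, ?_⟩
            have h5 := List.all_eq_true.1 h1 _ hφ
            rw [Bool.and_eq_true] at h5
            obtain ⟨a1, a2, a3⟩ := hf _ hok φ.1 φ.2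
            rw [hff, hcell _ a1 a2 a3] at hp
            · exact hp
            · intro hL
              have h7 := h5.2
              rw [hL] at h7
              have := of_decide_eq_true (by simpa using h7 : decide ((φ.1 : ℕ) ≠ 0) = true)
              intro h0
              exact this (by simpa using congrArg Fin.val h0)
    · rw [Bool.not_eq_true] at hst
      rw [hst, cond_false] at h
      exact absurd h (by simp)

end Pool.Agent.Lib.MP_84984d_gt.Tri
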