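import Pool.Agent.Lib.MP_84984d_gt.Tri.PLa21
import Pool.Agent.Lib.MP_84984d_gt.Tri.Run92

set_option autoImplicit false

/-!
TRI (MP_84984d_gt), module PL4: `GG` is positive on the segments and at the vertices (helper21).
-/

namespace Pool.Agent.Lib.MP_84984d_gt.Tri.PL21

open Set

theorem GG_pos_of (x : ℂ) (h1 : x.re ^ 2 + x.im ^ 2 < 81) (h2 : 1 < x.re ^ 2 + x.im ^ 2)
    (h3 : 1 < (x.re - 4) ^ 2 + x.im ^ 2) : 0 < GG 2 x := by
  have e1 : ‖x‖ ^ 2 = x.re ^ 2 + x.im ^ 2 := by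
    rw [Complex.sq_norm, Complex.normSq_apply]
    ring
  have e2 : ‖x - 4‖ ^ 2 = (x.re - 4) ^ 2 + x.im ^ 2 := by
    rw [Complex.sq_norm, Complex.normSq_apply]
    simp
    ring
  rw [GG_two, e1, e2]
  exact mul_pos (by linarith) (mul_pos (by linarith) (by linarith))

theorem pos_of (x : ℂ) (b1 : -2 ≤ x.re) (b2 : x.re ≤ 6) (b3 : -2 ≤ x.im) (b4 : x.im ≤ 2)
    (e : x.im = 2 ∨ x.im = -2 ∨ x.re = 2 ∨ x.re = -2 ∨ x.re = 6) : 0 < GG 2 x := by
  apply GG_pos_of
  · nlinarith [mul_nonneg (sub_nonneg.2 b1) (sub_nonneg.2 b2),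
      mul_nonneg (sub_nonneg.2 b3) (sub_nonneg.2 b4)]
  · rcases e with e | e | e | e | e <;> rw [e] <;>
      nlinarith [sq_nonneg x.re, sq_nonneg x.im]
  · rcases e with e | e | e | e | e <;> rw [e] <;>
      nlinarith [sq_nonneg (x.re - 4), sq_nonneg x.im]

/-- **(PL4)** -/
theorem stPos_21 : StPos := by
  intro κ h1 h2 x hx
  interval_cases κ
  · obtain ⟨⟨g1, g2, g3⟩, g4⟩ := (bb36 x).1 hx
    exact pos_of x (by linarith) (by linarith) (by linarith) (by linarith) (Or.inl (by linarith))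
  · obtain ⟨⟨g1, g2, g3⟩, g4⟩ := (bb37 x).1 hx
    exact pos_of x (by linarith) (by linarith) (by linarith) (by linarith) (Or.inr (Or.inr (Or.inr (Or.inl (by linarith)))))
  · obtain ⟨⟨g1, g2, g3⟩, g4⟩ := (bb38 x).1 hx
    exact pos_of x (by linarith) (by linarith) (by linarith) (by linarith) (Or.inr (Or.inl (by linarith)))
  · obtain ⟨⟨g1, g2, g3⟩, g4⟩ := (bb39 x).1 hx
    exact pos_of x (by linarith) (by linarith) (by linarith) (by linarith) (Or.inr (Or.inr (Or.inl (by linarith))))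
  · obtain ⟨⟨g1, g2, g3⟩, g4⟩ := (bb40 x).1 hx
    exact pos_of x (by linarith) (by linarith) (by linarith) (by linarith) (Or.inr (Or.inr (Or.inl (by linarith))))
  · obtain ⟨⟨g1, g2, g3⟩, g4⟩ := (bb41 x).1 hx
    exact pos_of x (by linarith) (by linarith) (by linarith) (by linarith) (Or.inr (Or.inr (Or.inl (by linarith))))
  · obtain ⟨⟨g1, g2, g3⟩, g4⟩ := (bb42 x).1 hx
    exact pos_of x (by linarith) (by linarith) (by linarith) (by linarith) (Or.inl (by linarith))
  · obtain ⟨⟨g1, g2, g3⟩, g4⟩ := (bb43 x).1 hx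
    exact pos_of x (by linarith) (by linarith) (by linarith) (by linarith) (Or.inr (Or.inr (Or.inr (Or.inr (by linarith)))))
  · obtain ⟨⟨g1, g2, g3⟩, g4⟩ := (bb44 x).1 hx
    exact pos_of x (by linarith) (by linarith) (by linarith) (by linarith) (Or.inr (Or.inl (by linarith)))
  · obtain ⟨g1, g2⟩ := (bb45 x).1 hx
    exact pos_of x (by linarith) (by linarith) (by linarith) (by linarith) (Or.inr (Or.inr (Or.inl (by linarith))))
  · obtain ⟨g1, g2⟩ := (bb46 x).1 hx
    exact pos_of x (by linarith) (by linarith) (by linarith) (by linarith) (Or.inr (Or.inr (Or.inl (by linarith))))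
  · obtain ⟨g1, g2⟩ := (bb47 x).1 hx
    exact pos_of x (by linarith) (by linarith) (by linarith) (by linarith) (Or.inr (Or.inr (Or.inr (Or.inl (by linarith)))))
  · obtain ⟨g1, g2⟩ := (bb48 x).1 hx
    exact pos_of x (by linarith) (by linarith) (by linarith) (by linarith) (Or.inr (Or.inr (Or.inr (Or.inl (by linarith)))))
  · obtain ⟨g1, g2⟩ := (bb49 x).1 hx
    exact pos_of x (by linarith) (by linarith) (by linarith) (by linarith) (Or.inr (Or.inr (Or.inl (by linarith))))
  · obtain ⟨g1, g2⟩ := (bb50 x).1 hx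
    exact pos_of x (by linarith) (by linarith) (by linarith) (by linarith) (Or.inr (Or.inr (Or.inl (by linarith))))
  · obtain ⟨g1, g2⟩ := (bb51 x).1 hx
    exact pos_of x (by linarith) (by linarith) (by linarith) (by linarith) (Or.inr (Or.inr (Or.inr (Or.inr (by linarith)))))
  · obtain ⟨g1, g2⟩ := (bb52 x).1 hx
    exact pos_of x (by linarith) (by linarith) (by linarith) (by linarith) (Or.inr (Or.inr (Or.inr (Or.inr (by linarith)))))

end Pool.Agent.Lib.MP_84984d_gt.Tri.PL21
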