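import Pool.Agent.Lib.MP_84984d_gt.Tri.Gen92
import Pool.Agent.Lib.MP_84984d_gt.Tri.Run92

set_option autoImplicit false

/-!
The 4-blocks (helper92).
-/

namespace Pool.Agent.Lib.MP_84984d_gt.Tri

open Set
open scoped ContDiff

/-- The data of the sector `k`. -/
def SecData (k : ℕ) (P1 P2 : ℂ) : Prop := p1 k = P1 ∧ p2 k = P2

theorem sec_data_0 : SecData 0 ⟨2, -1⟩ ⟨2, 1⟩ := by
  constructor <;> (apply Complex.ext <;> simp [p1, p2, vx, sv, nx, ce] <;> norm_num)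

theorem sec_data_1 : SecData 1 ⟨2, 1⟩ ⟨2, 2⟩ := by
  constructor <;> (apply Complex.ext <;> simp [p1, p2, vx, sv, nx, ce] <;> norm_num)

theorem sec_data_2 : SecData 2 ⟨2, 2⟩ ⟨-2, 2⟩ := by
  constructor <;> (apply Complex.ext <;> simp [p1, p2, vx, sv, nx, ce] <;> norm_num)

theorem sec_data_3 : SecData 3 ⟨-2, 2⟩ ⟨-2, -2⟩ := by
  constructor <;> (apply Complex.ext <;> simp [p1, p2, vx, sv, nx, ce] <;> norm_num)

theorem sec_data_4 : SecData 4 ⟨-2, -2⟩ ⟨2, -2⟩ := by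
  constructor <;> (apply Complex.ext <;> simp [p1, p2, vx, sv, nx, ce] <;> norm_num)

theorem sec_data_5 : SecData 5 ⟨2, -2⟩ ⟨2, -1⟩ := by
  constructor <;> (apply Complex.ext <;> simp [p1, p2, vx, sv, nx, ce] <;> norm_num)

theorem sec_data_6 : SecData 6 ⟨2, -2⟩ ⟨2, 2⟩ := by
  constructor <;> (apply Complex.ext <;> simp [p1, p2, vx, sv, nx, ce] <;> norm_num)

theorem sec_data_7 : SecData 7 ⟨2, 2⟩ ⟨-2, 2⟩ := by
  constructor <;> (apply Complex.ext <;> simp [p1, p2, vx, sv, nx, ce] <;> norm_num)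

theorem sec_data_8 : SecData 8 ⟨-2, 2⟩ ⟨-2, 1⟩ := by
  constructor <;> (apply Complex.ext <;> simp [p1, p2, vx, sv, nx, ce] <;> norm_num)

theorem sec_data_9 : SecData 9 ⟨-2, 1⟩ ⟨-2, -1⟩ := by
  constructor <;> (apply Complex.ext <;> simp [p1, p2, vx, sv, nx, ce] <;> norm_num)

theorem sec_data_10 : SecData 10 ⟨-2, -1⟩ ⟨-2, -2⟩ := by
  constructor <;> (apply Complex.ext <;> simp [p1, p2, vx, sv, nx, ce] <;> norm_num)

theorem sec_data_11 : SecData 11 ⟨-2, -2⟩ ⟨2, -2⟩ := by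
  constructor <;> (apply Complex.ext <;> simp [p1, p2, vx, sv, nx, ce] <;> norm_num)

theorem sec_data_12 : SecData 12 ⟨6, -2⟩ ⟨6, 2⟩ := by
  constructor <;> (apply Complex.ext <;> simp [p1, p2, vx, sv, nx, ce] <;> norm_num)

theorem sec_data_13 : SecData 13 ⟨6, 2⟩ ⟨2, 2⟩ := by
  constructor <;> (apply Complex.ext <;> simp [p1, p2, vx, sv, nx, ce] <;> norm_num)

theorem sec_data_14 : SecData 14 ⟨2, 2⟩ ⟨-2, 2⟩ := by
  constructor <;> (apply Complex.ext <;> simp [p1, p2, vx, sv, nx, ce] <;> norm_num)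

theorem sec_data_15 : SecData 15 ⟨-2, 2⟩ ⟨-2, -2⟩ := by
  constructor <;> (apply Complex.ext <;> simp [p1, p2, vx, sv, nx, ce] <;> norm_num)

theorem sec_data_16 : SecData 16 ⟨-2, -2⟩ ⟨2, -2⟩ := by
  constructor <;> (apply Complex.ext <;> simp [p1, p2, vx, sv, nx, ce] <;> norm_num)

theorem sec_data_17 : SecData 17 ⟨2, -2⟩ ⟨6, -2⟩ := by
  constructor <;> (apply Complex.ext <;> simp [p1, p2, vx, sv, nx, ce] <;> norm_num)

/-- The rest of the function `GG 2`. -/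
noncomputable def hh (k : ℕ) (x : ℂ) : ℝ :=
  if k < 6 then (81 - ‖x‖ ^ 2) * (‖x - 4‖ ^ 2 - 1)
  else if k < 12 then (81 - ‖x‖ ^ 2) * (‖x‖ ^ 2 - 1)
  else (‖x‖ ^ 2 - 1) * (‖x - 4‖ ^ 2 - 1)

theorem hh_smooth (k : ℕ) : ContDiff ℝ ∞ (hh k) := by
  have h1 : ContDiff ℝ ∞ (fun x : ℂ => ‖x‖ ^ 2) := contDiff_norm_sq ℝ
  have h2 : ContDiff ℝ ∞ (fun x : ℂ => ‖x - 4‖ ^ 2) :=
    (contDiff_id.sub contDiff_const).norm_sq ℝ
  unfold hh
  by_cases h : k < 6
  · simp only [if_pos h]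
    exact (contDiff_const.sub h1).mul (h2.sub contDiff_const)
  · simp only [if_neg h]
    by_cases h' : k < 12
    · simp only [if_pos h']
      exact (contDiff_const.sub h1).mul (h1.sub contDiff_const)
    · simp only [if_neg h']
      exact (h1.sub contDiff_const).mul (h2.sub contDiff_const)

theorem GG_hh (k : ℕ) (x : ℂ) : GG 2 x = sg k * (‖x - ce k‖ ^ 2 - ra k ^ 2) * hh k x := by
  rw [GG_two]
  have h4 : (⟨4, 0⟩ : ℂ) = 4 := by apply Complex.ext <;> simp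
  unfold sg ce ra hh
  by_cases h : k < 6
  · rw [if_pos (by omega), if_neg (by omega), if_pos (by omega), if_pos h, sub_zero]
    ring
  · by_cases h' : k < 12
    · rw [if_pos h', if_pos ⟨not_lt.1 h, h'⟩, if_pos h', if_neg h, if_pos h', h4]
      ring
    · rw [if_neg h', if_neg (by omega), if_neg h', if_neg h, if_neg h', sub_zero]
      ring

theorem ra_pos (k : ℕ) : 0 < ra k := by
  unfold ra
  split_ifs <;> norm_num

theorem sg_cases (k : ℕ) : sg k = 1 ∨ sg k = -1 := by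
  unfold sg
  split_ifs
  · exact Or.inl rfl
  · exact Or.inr rfl

theorem cr_pos {k : ℕ} (hk : k < 18) : 0 < cr (p1 k) (p2 k) := by
  interval_cases k
  · rw [sec_data_0.1, sec_data_0.2]; norm_num [cr]
  · rw [sec_data_1.1, sec_data_1.2]; norm_num [cr]
  · rw [sec_data_2.1, sec_data_2.2]; norm_num [cr]
  · rw [sec_data_3.1, sec_data_3.2]; norm_num [cr]
  · rw [sec_data_4.1, sec_data_4.2]; norm_num [cr]
  · rw [sec_data_5.1, sec_data_5.2]; norm_num [cr]
  · rw [sec_data_6.1, sec_data_6.2]; norm_num [cr]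
  · rw [sec_data_7.1, sec_data_7.2]; norm_num [cr]
  · rw [sec_data_8.1, sec_data_8.2]; norm_num [cr]
  · rw [sec_data_9.1, sec_data_9.2]; norm_num [cr]
  · rw [sec_data_10.1, sec_data_10.2]; norm_num [cr]
  · rw [sec_data_11.1, sec_data_11.2]; norm_num [cr]
  · rw [sec_data_12.1, sec_data_12.2]; norm_num [cr]
  · rw [sec_data_13.1, sec_data_13.2]; norm_num [cr]
  · rw [sec_data_14.1, sec_data_14.2]; norm_num [cr]
  · rw [sec_data_15.1, sec_data_15.2]; norm_num [cr]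
  · rw [sec_data_16.1, sec_data_16.2]; norm_num [cr]
  · rw [sec_data_17.1, sec_data_17.2]; norm_num [cr]

theorem seg_pos {k : ℕ} (hk : k < 18) (s : ℝ) (h0 : 0 ≤ s) (h1 : s ≤ 1) :
    0 < sg k * (nn (p1 k) (p2 k) s - ra k ^ 2) := by
  have h2 : 0 ≤ s * (1 - s) := mul_nonneg h0 (by linarith)
  interval_cases k
  · rw [sec_data_0.1, sec_data_0.2]; norm_num [nn, sg, ra]; nlinarith
  · rw [sec_data_1.1, sec_data_1.2]; norm_num [nn, sg, ra]; nlinarith
  · rw [sec_data_2.1, sec_data_2.2]; norm_num [nn, sg, ra]; nlinarith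
  · rw [sec_data_3.1, sec_data_3.2]; norm_num [nn, sg, ra]; nlinarith
  · rw [sec_data_4.1, sec_data_4.2]; norm_num [nn, sg, ra]; nlinarith
  · rw [sec_data_5.1, sec_data_5.2]; norm_num [nn, sg, ra]; nlinarith
  · rw [sec_data_6.1, sec_data_6.2]; norm_num [nn, sg, ra]; nlinarith
  · rw [sec_data_7.1, sec_data_7.2]; norm_num [nn, sg, ra]; nlinarith
  · rw [sec_data_8.1, sec_data_8.2]; norm_num [nn, sg, ra]; nlinarith
  · rw [sec_data_9.1, sec_data_9.2]; norm_num [nn, sg, ra]; nlinarith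
  · rw [sec_data_10.1, sec_data_10.2]; norm_num [nn, sg, ra]; nlinarith
  · rw [sec_data_11.1, sec_data_11.2]; norm_num [nn, sg, ra]; nlinarith
  · rw [sec_data_12.1, sec_data_12.2]; norm_num [nn, sg, ra]; nlinarith
  · rw [sec_data_13.1, sec_data_13.2]; norm_num [nn, sg, ra]; nlinarith
  · rw [sec_data_14.1, sec_data_14.2]; norm_num [nn, sg, ra]; nlinarith
  · rw [sec_data_15.1, sec_data_15.2]; norm_num [nn, sg, ra]; nlinarith
  · rw [sec_data_16.1, sec_data_16.2]; norm_num [nn, sg, ra]; nlinarith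
  · rw [sec_data_17.1, sec_data_17.2]; norm_num [nn, sg, ra]; nlinarith

theorem hpA {x : ℂ} (h1 : -2 ≤ x.re) (h2 : x.re ≤ 2) (h3 : -2 ≤ x.im) (h4 : x.im ≤ 2) :
    0 < (81 - ‖x‖ ^ 2) * (‖x - 4‖ ^ 2 - 1) := by
  rw [norm_sq, norm_sq]
  simp only [Complex.sub_re, Complex.sub_im, Complex.re_ofNat, Complex.im_ofNat]
  apply mul_pos <;> nlinarith

theorem hpB {x : ℂ} (h1 : 2 ≤ x.re) (h2 : x.re ≤ 6) (h3 : -2 ≤ x.im) (h4 : x.im ≤ 2) :
    0 < (81 - ‖x‖ ^ 2) * (‖x‖ ^ 2 - 1) := by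
  rw [norm_sq]
  apply mul_pos <;> nlinarith

theorem hpC {x : ℂ} (h : (x.re ≤ -2 ∨ 6 ≤ x.re) ∨ x.im ≤ -2 ∨ 2 ≤ x.im) :
    0 < (‖x‖ ^ 2 - 1) * (‖x - 4‖ ^ 2 - 1) := by
  rw [norm_sq, norm_sq]
  simp only [Complex.sub_re, Complex.sub_im, Complex.re_ofNat, Complex.im_ofNat]
  rcases h with (h | h) | h | h <;> apply mul_pos <;> nlinarith [sq_nonneg x.im, sq_nonneg x.re,
    sq_nonneg (x.re - 4)]

theorem hh_pos {k : ℕ} (hk : k < 18) (x : ℂ) (h1 : 0 ≤ l1 (ce k) (p1 k) x)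
    (h2 : 0 ≤ l2 (ce k) (p2 k) x)
    (h3 : 0 ≤ sg k * (cr (p1 k) (p2 k) - l1 (ce k) (p1 k) x - l2 (ce k) (p2 k) x)) :
    0 < hh k x := by
  interval_cases k
  · rw [sec_data_0.1] at h1 h3; rw [sec_data_0.2] at h2 h3
    norm_num [l1, l2, cr, sg, ce] at h1 h2 h3
    exact hpA (by linarith) (by linarith) (by linarith) (by linarith)
  · rw [sec_data_1.1] at h1 h3; rw [sec_data_1.2] at h2 h3
    norm_num [l1, l2, cr, sg, ce] at h1 h2 h3
    exact hpA (by linarith) (by linarith) (by linarith) (by linarith)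
  · rw [sec_data_2.1] at h1 h3; rw [sec_data_2.2] at h2 h3
    norm_num [l1, l2, cr, sg, ce] at h1 h2 h3
    exact hpA (by linarith) (by linarith) (by linarith) (by linarith)
  · rw [sec_data_3.1] at h1 h3; rw [sec_data_3.2] at h2 h3
    norm_num [l1, l2, cr, sg, ce] at h1 h2 h3
    exact hpA (by linarith) (by linarith) (by linarith) (by linarith)
  · rw [sec_data_4.1] at h1 h3; rw [sec_data_4.2] at h2 h3
    norm_num [l1, l2, cr, sg, ce] at h1 h2 h3
    exact hpA (by linarith) (by linarith) (by linarith) (by linarith)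
  · rw [sec_data_5.1] at h1 h3; rw [sec_data_5.2] at h2 h3
    norm_num [l1, l2, cr, sg, ce] at h1 h2 h3
    exact hpA (by linarith) (by linarith) (by linarith) (by linarith)
  · rw [sec_data_6.1] at h1 h3; rw [sec_data_6.2] at h2 h3
    norm_num [l1, l2, cr, sg, ce] at h1 h2 h3
    exact hpB (by linarith) (by linarith) (by linarith) (by linarith)
  · rw [sec_data_7.1] at h1 h3; rw [sec_data_7.2] at h2 h3
    norm_num [l1, l2, cr, sg, ce] at h1 h2 h3
    exact hpB (by linarith) (by linarith) (by linarith) (by linarith)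
  · rw [sec_data_8.1] at h1 h3; rw [sec_data_8.2] at h2 h3
    norm_num [l1, l2, cr, sg, ce] at h1 h2 h3
    exact hpB (by linarith) (by linarith) (by linarith) (by linarith)
  · rw [sec_data_9.1] at h1 h3; rw [sec_data_9.2] at h2 h3
    norm_num [l1, l2, cr, sg, ce] at h1 h2 h3
    exact hpB (by linarith) (by linarith) (by linarith) (by linarith)
  · rw [sec_data_10.1] at h1 h3; rw [sec_data_10.2] at h2 h3
    norm_num [l1, l2, cr, sg, ce] at h1 h2 h3
    exact hpB (by linarith) (by linarith) (by linarith) (by linarith)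
  · rw [sec_data_11.1] at h1 h3; rw [sec_data_11.2] at h2 h3
    norm_num [l1, l2, cr, sg, ce] at h1 h2 h3
    exact hpB (by linarith) (by linarith) (by linarith) (by linarith)
  · rw [sec_data_12.1] at h1 h3; rw [sec_data_12.2] at h2 h3
    norm_num [l1, l2, cr, sg, ce] at h1 h2 h3
    exact hpC (Or.inl (Or.inr (by linarith)))
  · rw [sec_data_13.1] at h1 h3; rw [sec_data_13.2] at h2 h3
    norm_num [l1, l2, cr, sg, ce] at h1 h2 h3
    exact hpC (Or.inr (Or.inr (by linarith)))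
  · rw [sec_data_14.1] at h1 h3; rw [sec_data_14.2] at h2 h3
    norm_num [l1, l2, cr, sg, ce] at h1 h2 h3
    exact hpC (Or.inr (Or.inr (by linarith)))
  · rw [sec_data_15.1] at h1 h3; rw [sec_data_15.2] at h2 h3
    norm_num [l1, l2, cr, sg, ce] at h1 h2 h3
    exact hpC (Or.inl (Or.inl (by linarith)))
  · rw [sec_data_16.1] at h1 h3; rw [sec_data_16.2] at h2 h3
    norm_num [l1, l2, cr, sg, ce] at h1 h2 h3
    exact hpC (Or.inr (Or.inl (by linarith)))
  · rw [sec_data_17.1] at h1 h3; rw [sec_data_17.2] at h2 h3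
    norm_num [l1, l2, cr, sg, ce] at h1 h2 h3
    exact hpC (Or.inr (Or.inl (by linarith)))

theorem ln_eq (k : ℕ) (x : ℂ) :
    ln k x = cr (p1 k) (p2 k) - l1 (ce k) (p1 k) x - l2 (ce k) (p2 k) x := by
  unfold ln l1 l2 cr p1 p2
  simp only [Complex.sub_re, Complex.sub_im]
  ring

theorem mem_sec {k : ℕ} {x : ℂ} : x ∈ sec k ↔ 0 ≤ l1 (ce k) (p1 k) x ∧
    0 ≤ l2 (ce k) (p2 k) x ∧
    0 ≤ sg k * (cr (p1 k) (p2 k) - l1 (ce k) (p1 k) x - l2 (ce k) (p2 k) x) := by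
  rw [← ln_eq]
  rfl

end Pool.Agent.Lib.MP_84984d_gt.Tri
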