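import Mathlib
import Pool.Agent.Lib.MP_84984d_gt.Handle
import Pool.Agent.Lib.MP_84984d_gt.Tri.Defs

set_option autoImplicit false

/-!
The statements of the modules of the trisection of `M₁ × S¹` (helper92).
-/

namespace Pool.Agent.Lib.MP_84984d_gt

open Set

namespace Tri

/-! ## The planar complex: 18 sectors, 18 rays, 9 segments, 8 points -/

/-- The determinant of two plane vectors. -/
def cr (a b : ℂ) : ℝ := a.re * b.im - a.im * b.re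

/-- The eight vertices. -/
def vx (i : ℕ) : ℂ :=
  [(⟨2, 2⟩ : ℂ), ⟨2, -2⟩, ⟨-2, 2⟩, ⟨-2, -2⟩, ⟨2, 1⟩, ⟨2, -1⟩, ⟨6, 2⟩, ⟨6, -2⟩].getD i 0

/-- The vertex on the first ray of the sector `k < 18`. -/
def sv (k : ℕ) : ℕ := [5, 4, 0, 2, 3, 1, 7, 6, 0, 4, 5, 1, 7, 6, 0, 2, 3, 1].getD k 0

/-- The next sector (counterclockwise) around the same circle. -/
def nx (k : ℕ) : ℕ := k - k % 6 + (k % 6 + 1) % 6

/-- The centre of the sector. -/
def ce (k : ℕ) : ℂ := if 6 ≤ k ∧ k < 12 then ⟨4, 0⟩ else 0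

/-- The radius of its circle. -/
def ra (k : ℕ) : ℝ := if k < 12 then 1 else 9

/-- `1` for the sectors around the two holes, `-1` for the outer sectors. -/
def sg (k : ℕ) : ℝ := if k < 12 then 1 else -1

/-- The segment opposite to the circle. -/
def co (k : ℕ) : ℕ := [4, 3, 0, 1, 2, 5, 7, 6, 3, 4, 5, 8, 7, 6, 0, 1, 2, 8].getD k 0

/-- A sector on the segment `j < 9`. -/
def cf (j : ℕ) : ℕ := [2, 3, 4, 1, 0, 5, 7, 6, 11].getD j 0

/-- The first ray: the vector from the centre to the first vertex. -/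
def p1 (k : ℕ) : ℂ := vx (sv k) - ce k

/-- The second ray. -/
def p2 (k : ℕ) : ℂ := vx (sv (nx k)) - ce k

/-- The function that vanishes on the line of the opposite segment; positive at the centre. -/
def ln (k : ℕ) (x : ℂ) : ℝ := cr (vx (sv (nx k)) - vx (sv k)) (x - vx (sv k))

/-- The closed sectors (convex polygons; inside the discs resp. outside the big disc there are
no points of `M₁`). -/
def sec (k : ℕ) : Set ℂ :=
  {x | 0 ≤ cr (p1 k) (x - ce k) ∧ 0 ≤ cr (x - ce k) (p2 k) ∧ 0 ≤ sg k * ln k x}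

/-- The closed cells of the planar complex: sectors `κ < 18`, rays `18 ≤ κ < 36`, segments
`36 ≤ κ < 45`, vertices `45 ≤ κ < 53`. -/
def bs (κ : ℕ) : Set ℂ :=
  if κ < 18 then sec κ
  else if κ < 36 then {x | x ∈ sec (κ - 18) ∧ cr (p1 (κ - 18)) (x - ce (κ - 18)) = 0}
  else if κ < 45 then {x | x ∈ sec (cf (κ - 36)) ∧ ln (cf (κ - 36)) x = 0}
  else {vx (κ - 45)}

/-- The bit mask of the open cells contained in the closed cell `κ`. -/
def bm (κ : ℕ) : ℕ :=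
  if κ < 18 then 2 ^ κ ||| 2 ^ (18 + κ) ||| 2 ^ (18 + nx κ) ||| 2 ^ (36 + co κ) |||
    2 ^ (45 + sv κ) ||| 2 ^ (45 + sv (nx κ))
  else if κ < 36 then 2 ^ κ ||| 2 ^ (45 + sv (κ - 18))
  else if κ < 45 then 2 ^ κ ||| 2 ^ (45 + sv (cf (κ - 36))) ||| 2 ^ (45 + sv (nx (cf (κ - 36))))
  else 2 ^ κ

/-- MODULE PL1: every point of the disc with two holes lies in exactly one open cell. -/
def StBase : Prop := ∀ x : ℂ, 0 ≤ GG 2 x → ∃ σ < 53, ∀ κ < 53,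
  (x ∈ bs κ ↔ (bm κ).testBit σ = true)

/-- MODULE PL2: the second ray of a sector is the first ray of the next one. -/
def StEnd : Prop := ∀ k < 18, ∀ x ∈ sec k, (cr (x - ce k) (p2 k) = 0 ↔ x ∈ bs (18 + nx k))

/-- MODULE PL3: the opposite segment. -/
def StCore : Prop := ∀ k < 18, ∀ x ∈ sec k, (ln k x = 0 ↔ x ∈ bs (36 + co k))

/-! ## The `z`-part and the `w`-part -/

/-- The closed cells of the `z`-plane. -/
def zs (a : ℕ) : Set ℂ :=
  if a = 0 then {z | 0 ≤ z.im} else if a = 1 then {z | z.im ≤ 0}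
  else if a = 2 then {z | z.im = 0} else if a = 3 then {z | z.im = 0 ∧ 0 ≤ z.re}
  else {z | z.im = 0 ∧ z.re ≤ 0}

/-- Their masks; the open cells are `0 < im`, `im < 0`, `z = 0`, `0 < z`, `z < 0`. -/
def zm (a : ℕ) : ℕ := [29, 30, 28, 12, 20].getD a 0

/-- The point of the circle with parameter `τ`; the period is `3`. -/
noncomputable def ew (τ : ℝ) : ℂ := Complex.exp ((2 * Real.pi * τ / 3 : ℝ) * Complex.I)

/-- The closed cells of the circle: three arcs and three points. -/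
noncomputable def ws (m : ℕ) : Set ℂ :=
  if m < 3 then (fun t : ℝ => ew (m + t)) '' Icc 0 1 else {ew ((m - 3 : ℕ) : ℝ)}

/-- Their masks. -/
def wm (m : ℕ) : ℕ := if m < 3 then 2 ^ m ||| 2 ^ (3 + m) ||| 2 ^ (3 + (m + 1) % 3) else 2 ^ m

/-- MODULE W. -/
def StW : Prop := ∀ w : ℂ, ‖w‖ = 1 → ∃ ω < 6, ∀ m < 6, (w ∈ ws m ↔ (wm m).testBit ω = true)

/-! ## The cells of `X` -/

/-- The closed cells of `X = M₁ × S¹`. -/
noncomputable def cell (c : ℕ × ℕ × ℕ) : Set ((ℂ × ℂ) × ℂ) :=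
  {p | ‖p.1.2‖ ^ 2 = GG 2 p.1.1 ∧ ‖p.2‖ = 1 ∧ p.1.1 ∈ bs c.1 ∧ p.1.2 ∈ zs c.2.1 ∧
    p.2 ∈ ws c.2.2}

/-- The facets of the 4-cells `(k, z, w)`, `k < 18`, `z < 2`, `w < 3` (lenses). -/
def fc4 (c : ℕ × ℕ × ℕ) (i : ℕ) (b : Bool) : ℕ × ℕ × ℕ :=
  if i = 1 then (if b then (36 + co c.1, c.2.1, c.2.2) else (c.1, 2, c.2.2))
  else if i = 2 then (if b then (18 + nx c.1, c.2.1, c.2.2) else (18 + c.1, c.2.1, c.2.2))
  else (if b then (c.1, c.2.1, 3 + (c.2.2 + 1) % 3) else (c.1, c.2.1, 3 + c.2.2))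

/-- MODULE B4: the 4-cells are smooth blocks. -/
def StBlock4 : Prop := ∀ k < 18, ∀ z < 2, ∀ w < 3, ∃ f : (Fin (2 + 2) → ℝ) → (ℂ × ℂ) × ℂ,
  IsBlock true 2 f ∧ f '' Body true 2 = cell (k, z, w) ∧
  (∀ i ∈ Dirs true 2, ∀ b, f '' Facet true 2 i b = cell (fc4 (k, z, w) i b)) ∧
  ∀ y ∈ Body true 2, (0 ≤ (f y).1.2.re ↔ 0 ≤ y 0) ∧ ((f y).1.2.re ≤ 0 ↔ y 0 ≤ 0)

/-- The shapes of the 3-cells: `(k, z, 3 + j)` and the `(18 + k, z, j)` are lenses, `(k, 2, j)`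
and `(36 + j', z, j)` are cubes (`z < 2`). -/
def sh3 (c : ℕ × ℕ × ℕ) : Bool := if c.1 < 18 then !(c.2.1 == 2) else decide (c.1 < 36)

/-- The facets of the 3-cells. -/
def fc3 (c : ℕ × ℕ × ℕ) (i : ℕ) (b : Bool) : ℕ × ℕ × ℕ :=
  if c.1 < 18 then
    if c.2.1 = 2 then
      if i = 0 then (36 + co c.1, if b then 3 else 4, c.2.2)
      else if i = 1 then (if b then (18 + nx c.1, 2, c.2.2) else (18 + c.1, 2, c.2.2))
      else (c.1, 2, if b then 3 + (c.2.2 + 1) % 3 else 3 + c.2.2)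
    else
      if i = 1 then (if b then (36 + co c.1, c.2.1, c.2.2) else (c.1, 2, c.2.2))
      else (if b then (18 + nx c.1, c.2.1, c.2.2) else (18 + c.1, c.2.1, c.2.2))
  else if c.1 < 36 then
    if i = 1 then (if b then (45 + sv (c.1 - 18), c.2.1, c.2.2) else (c.1, 2, c.2.2))
    else (c.1, c.2.1, if b then 3 + (c.2.2 + 1) % 3 else 3 + c.2.2)
  else
    if i = 0 then (c.1, if b then 4 else 3, c.2.2)
    else if i = 1 then
      (45 + sv (if b then nx (cf (c.1 - 36)) else cf (c.1 - 36)), c.2.1, c.2.2)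
    else (c.1, c.2.1, if b then 3 + (c.2.2 + 1) % 3 else 3 + c.2.2)

/-- The 3-cells used. -/
def Is3 (c : ℕ × ℕ × ℕ) : Prop :=
  (c.1 < 18 ∧ c.2.1 < 2 ∧ 3 ≤ c.2.2 ∧ c.2.2 < 6) ∨ (c.1 < 18 ∧ c.2.1 = 2 ∧ c.2.2 < 3) ∨
  (18 ≤ c.1 ∧ c.1 < 45 ∧ c.2.1 < 2 ∧ c.2.2 < 3)

/-- MODULE B3: the 3-cells are smooth blocks. -/
def StBlock3 : Prop := ∀ c, Is3 c → ∃ f : (Fin (1 + 2) → ℝ) → (ℂ × ℂ) × ℂ,
  IsBlock (sh3 c) 1 f ∧ f '' Body (sh3 c) 1 = cell c ∧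
  ∀ i ∈ Dirs (sh3 c) 1, ∀ b, f '' Facet (sh3 c) 1 i b = cell (fc3 c i b)

end Tri

end Pool.Agent.Lib.MP_84984d_gt
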