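import Pool.Agent.Lib.MP_84984d_gt.Tri.BW63

set_option autoImplicit false

/-!
MODULE W: the open cells of the circle (helper63).
-/

namespace Pool.Agent.Lib.MP_84984d_gt

open Set

namespace Tri

namespace W63

theorem mem_ws_lt_iff {t : ℝ} (h0 : 0 ≤ t) (h3 : t < 3) {m : ℕ} (hm : m < 3) :
    ew t ∈ ws m ↔ ((m : ℝ) ≤ t ∧ t ≤ m + 1) ∨ (m = 2 ∧ t = 0) := by
  rw [ws_lt hm]
  constructor
  · rintro ⟨s, ⟨hs0, hs1⟩, hs⟩
    obtain ⟨n, hn⟩ := (ew_eq_iff _ _).1 hs
    have hm' : (m : ℝ) ≤ 2 := by exact_mod_cast (by omega : m ≤ 2)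
    have hm0 : (0 : ℝ) ≤ m := by positivity
    have hn1 : (-1 : ℝ) < n := by
      by_contra h
      push Not at h
      linarith
    have hn2 : (n : ℝ) ≤ 1 := by linarith
    have hn3 : (-1 : ℤ) < n := by exact_mod_cast hn1
    have hn4 : n ≤ (1 : ℤ) := by exact_mod_cast hn2
    rcases (by omega : n = 0 ∨ n = 1) with rfl | rfl
    · left
      push_cast at hn
      constructor <;> linarith
    · right
      push_cast at hn
      have h5 : (2 : ℝ) ≤ m := by linarith
      have h6 : 2 ≤ m := by exact_mod_cast h5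
      exact ⟨by omega, by linarith⟩
  · rintro (⟨h1, h2⟩ | ⟨rfl, rfl⟩)
    · exact ⟨t - m, ⟨by linarith, by linarith⟩, by simp⟩
    · refine ⟨1, ⟨by norm_num, le_refl _⟩, ?_⟩
      rw [ew_eq_iff]
      exact ⟨1, by norm_num⟩

theorem mem_ws_ge_iff {t : ℝ} (h0 : 0 ≤ t) (h3 : t < 3) {m : ℕ} (hm : m < 3) :
    ew t ∈ ws (3 + m) ↔ t = m := by
  rw [end0, mem_singleton_iff]
  constructor
  · intro h
    refine ew_inj h ?_
    have hm' : (m : ℝ) ≤ 2 := by exact_mod_cast (by omega : m ≤ 2)
    have hm0 : (0 : ℝ) ≤ m := by positivity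
    rw [abs_lt]
    constructor <;> linarith
  · rintro rfl
    rfl

end W63

open W63 in
/-- MODULE W. -/
theorem stW_63 : StW := by
  intro w hw
  obtain ⟨t, h0, h3, rfl⟩ := exists_param hw
  have key : ∀ ω : ℕ, (∀ m : ℕ, m < 3 → ((((m : ℝ) ≤ t ∧ t ≤ m + 1) ∨ (m = 2 ∧ t = 0)) ↔
      (wm m).testBit ω = true)) →
      (∀ m : ℕ, m < 3 → ((t = (m : ℝ)) ↔ (wm (3 + m)).testBit ω = true)) →
      ∀ m : ℕ, m < 6 → (ew t ∈ ws m ↔ (wm m).testBit ω = true) := by
    intro ω h1 h2 m hm
    by_cases hm3 : m < 3
    · rw [mem_ws_lt_iff h0 h3 hm3]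
      exact h1 m hm3
    · obtain ⟨m', rfl⟩ : ∃ m', m = 3 + m' := ⟨m - 3, by omega⟩
      rw [mem_ws_ge_iff h0 h3 (by omega)]
      exact h2 m' (by omega)
  rcases lt_trichotomy t 1 with h | h | h
  · rcases h0.eq_or_lt with h' | h'
    · refine ⟨3, by norm_num, key 3 ?_ ?_⟩
      · intro m hm
        subst h'
        interval_cases m <;> simp [wm] <;> first | decide | (norm_num; done) | (norm_num; decide)
      · intro m hm
        subst h'
        interval_cases m <;> simp [wm] <;> decide
    · refine ⟨0, by norm_num, key 0 ?_ ?_⟩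
      · intro m hm
        interval_cases m
        · simp [wm, h'.le, h.le] <;> decide
        · simp [wm, not_le.2 h] <;> decide
        · simp [wm, h'.ne', not_le.2 (h.trans one_lt_two)] <;> decide
      · intro m hm
        interval_cases m
        · simp [wm, h'.ne'] <;> decide
        · simp [wm, h.ne] <;> decide
        · simp [wm, (h.trans one_lt_two).ne] <;> decide
  · refine ⟨4, by norm_num, key 4 ?_ ?_⟩
    · intro m hm
      subst h
      interval_cases m <;> simp [wm] <;> first | decide | (norm_num; done) | (norm_num; decide)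
    · intro m hm
      subst h
      interval_cases m <;> simp [wm] <;> decide
  · rcases lt_trichotomy t 2 with h' | h' | h'
    · refine ⟨1, by norm_num, key 1 ?_ ?_⟩
      · intro m hm
        interval_cases m
        · simp [wm, not_le.2 h] <;> decide
        · have : t ≤ 1 + 1 := by linarith
          simp [wm, h.le, this] <;> decide
        · simp [wm, not_le.2 h', (zero_lt_one.trans h).ne'] <;> decide
      · intro m hm
        interval_cases m
        · simp [wm, (zero_lt_one.trans h).ne'] <;> decide
        · simp [wm, h.ne'] <;> decide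
        · simp [wm, h'.ne] <;> decide
    · refine ⟨5, by norm_num, key 5 ?_ ?_⟩
      · intro m hm
        subst h'
        interval_cases m <;> simp [wm] <;> first | decide | (norm_num; done) | (norm_num; decide)
      · intro m hm
        subst h'
        interval_cases m <;> simp [wm] <;> decide
    · refine ⟨2, by norm_num, key 2 ?_ ?_⟩
      · intro m hm
        interval_cases m
        · simp [wm, not_le.2 h] <;> decide
        · have : ¬ t ≤ 1 + 1 := by intro h4; linarith
          simp [wm, this] <;> decide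
        · have : t ≤ 2 + 1 := by linarith
          simp [wm, h'.le, this] <;> decide
      · intro m hm
        interval_cases m
        · simp [wm, (zero_lt_one.trans h).ne'] <;> decide
        · simp [wm, h.ne'] <;> decide
        · simp [wm, h'.ne'] <;> decide

end Tri

end Pool.Agent.Lib.MP_84984d_gt
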